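import Pool.Agent.Lib.MP_640417_ag.Full.SpecA

/-!
# The dimension of the space of equivariant maps
-/

namespace Pool.Agent.Lib.MP_640417_ag.Full

open Module Finset MulAction Pool.Agent.Lib.MP_640417_ag.Far

section

variable {S G : Type} [Fintype S] [Group G] [MulAction G S]

/-- The standard form on a space of functions. -/
private noncomputable def HomDimForm (U : Submodule ℚ (S → ℚ)) : U →ₗ[ℚ] U →ₗ[ℚ] ℚ :=
  LinearMap.mk₂ ℚ (fun u f => ∑ s, u.1 s * f.1 s)
    (fun a b c => by
      simp only [Submodule.coe_add, Pi.add_apply, add_mul, Finset.sum_add_distrib])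
    (fun c a b => by
      simp only [Submodule.coe_smul, Pi.smul_apply, smul_eq_mul, mul_assoc, Finset.mul_sum])
    (fun a b c => by
      simp only [Submodule.coe_add, Pi.add_apply, mul_add, Finset.sum_add_distrib])
    (fun c a b => by
      simp only [Submodule.coe_smul, Pi.smul_apply, smul_eq_mul, mul_left_comm, Finset.mul_sum])

private lemma HomDimForm_apply (U : Submodule ℚ (S → ℚ)) (u f : U) :
    HomDimForm U u f = ∑ s, u.1 s * f.1 s := rfl

private lemma HomDim_sq (u : S → ℚ) (h : ∑ s, u s * u s = 0) : u = 0 := by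
  have h1 := (Finset.sum_eq_zero_iff_of_nonneg (fun s _ => mul_self_nonneg (u s))).mp h
  funext s
  exact mul_self_eq_zero.mp (h1 s (Finset.mem_univ s))

private lemma HomDimForm_inj (U : Submodule ℚ (S → ℚ)) : Function.Injective (HomDimForm U) := by
  rw [injective_iff_map_eq_zero]
  intro u hu
  have h1 : HomDimForm U u u = 0 := by
    rw [hu]
    rfl
  rw [HomDimForm_apply] at h1
  exact Subtype.ext (HomDim_sq u.1 h1)

private lemma HomDimForm_surj (U : Submodule ℚ (S → ℚ)) : Function.Surjective (HomDimForm U) :=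
  (LinearMap.injective_iff_surjective_of_finrank_eq_finrank
    (Subspace.dual_finrank_eq (K := ℚ) (V := U)).symm).mp (HomDimForm_inj U)

private lemma HomDim_shift (γ : G) (F : S → ℚ) : ∑ t, F (γ • t) = ∑ t, F t :=
  Equiv.sum_comp (MulAction.toPerm γ) F

private lemma HomDim_indep (s₀ : S) (u : S → ℚ) (hu : u ∈ invF ℚ (stabilizer G s₀)) (f : S → ℚ)
    (a b : G) (hab : a • s₀ = b • s₀) : ∑ t, u t * f (a • t) = ∑ t, u t * f (b • t) := by
  have hh : b⁻¹ * a ∈ stabilizer G s₀ := by
    rw [mem_stabilizer_iff, mul_smul, hab, inv_smul_smul]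
  rw [← HomDim_shift (b⁻¹ * a) (fun t => u t * f (b • t))]
  refine Finset.sum_congr rfl (fun t _ => ?_)
  rw [hu _ hh t, mul_smul, smul_inv_smul]

/-- The equivariant map attached to an invariant function. -/
private noncomputable def HomDimMap (s₀ : S) (c : S → G) (U : Submodule ℚ (S → ℚ)) :
    ↥(U ⊓ invF ℚ (stabilizer G s₀)) →ₗ[ℚ] U →ₗ[ℚ] (S → ℚ) :=
  LinearMap.mk₂ ℚ (fun u f => fun s => ∑ t, u.1 t * f.1 (c s • t))
    (fun a b e => by
      funext s
      simp only [Submodule.coe_add, Pi.add_apply, add_mul, Finset.sum_add_distrib])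
    (fun k a b => by
      funext s
      simp only [Submodule.coe_smul, Pi.smul_apply, smul_eq_mul, mul_assoc, Finset.mul_sum])
    (fun a b e => by
      funext s
      simp only [Submodule.coe_add, Pi.add_apply, mul_add, Finset.sum_add_distrib])
    (fun k a b => by
      funext s
      simp only [Submodule.coe_smul, Pi.smul_apply, smul_eq_mul, mul_left_comm, Finset.mul_sum])

private lemma HomDimMap_apply (s₀ : S) (c : S → G) (U : Submodule ℚ (S → ℚ))
    (u : ↥(U ⊓ invF ℚ (stabilizer G s₀))) (f : U) (s : S) :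
    HomDimMap s₀ c U u f s = ∑ t, u.1 t * f.1 (c s • t) := rfl

private lemma HomDimMap_mem (s₀ : S) (c : S → G) (hc : ∀ s, c s • s₀ = s)
    (U : Submodule ℚ (S → ℚ)) (u : ↥(U ⊓ invF ℚ (stabilizer G s₀))) :
    HomDimMap s₀ c U u ∈ homF G U := by
  intro f f' γ hff s
  rw [HomDimMap_apply, HomDimMap_apply,
    HomDim_indep s₀ u.1 u.2.2 f.1 (c (γ • s)) (γ * c s) (by rw [hc, mul_smul, hc])]
  refine Finset.sum_congr rfl (fun t _ => ?_)
  rw [hff, mul_smul]

end

theorem pHomDim : StHomDim := by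
  intro S G _ _ _ _ _ s₀ U hU
  choose c hc using fun s : S => MulAction.exists_smul_eq G s₀ s
  let Φ : ↥(U ⊓ invF ℚ (stabilizer G s₀)) →ₗ[ℚ] homF G U :=
    LinearMap.codRestrict (homF G U) (HomDimMap s₀ c U) (HomDimMap_mem s₀ c hc U)
  have hΦ : ∀ u f s, (Φ u).1 f s = ∑ t, u.1 t * f.1 (c s • t) := fun u f s => rfl
  have hinj : Function.Injective Φ := by
    rw [injective_iff_map_eq_zero]
    intro u hu
    have h1 : (Φ u).1 ⟨u.1, u.2.1⟩ s₀ = 0 := by
      rw [hu]
      rfl
    rw [hΦ, HomDim_indep s₀ u.1 u.2.2 u.1 (c s₀) 1 (by rw [hc, one_smul])] at h1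
    simp only [one_smul] at h1
    exact Subtype.ext (HomDim_sq u.1 h1)
  have hsurj : Function.Surjective Φ := by
    intro θ
    let l : U →ₗ[ℚ] ℚ := (LinearMap.proj s₀).comp θ.1
    have hl : ∀ f, l f = θ.1 f s₀ := fun f => rfl
    obtain ⟨u, hu⟩ := HomDimForm_surj U l
    have hul : ∀ f : U, ∑ s, u.1 s * f.1 s = θ.1 f s₀ := by
      intro f
      rw [← hl, ← hu, HomDimForm_apply]
    have hinv : u.1 ∈ invF ℚ (stabilizer G s₀) := by
      intro b hb
      have h1 : (⟨fun s => u.1 (b • s), hU _ u.2 b⟩ : U) = u := by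
        apply HomDimForm_inj U
        apply LinearMap.ext
        intro f
        rw [HomDimForm_apply, HomDimForm_apply, hul f]
        have h2 := hul ⟨fun s => f.1 (b⁻¹ • s), hU _ f.2 b⁻¹⟩
        have h3 := θ.2 f ⟨fun s => f.1 (b⁻¹ • s), hU _ f.2 b⁻¹⟩ b⁻¹ (fun s => rfl) s₀
        have h4 : b⁻¹ • s₀ = s₀ := (stabilizer G s₀).inv_mem hb
        rw [h4] at h3
        rw [h3] at h2
        rw [← h2, ← HomDim_shift b (fun s => u.1 s * f.1 (b⁻¹ • s))]
        refine Finset.sum_congr rfl (fun t _ => ?_)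
        simp only [inv_smul_smul]
      intro s
      exact congrFun (congrArg Subtype.val h1) s
    refine ⟨⟨u.1, u.2, hinv⟩, ?_⟩
    apply Subtype.ext
    apply LinearMap.ext
    intro f
    funext s
    rw [hΦ]
    have h5 := hul ⟨fun t => f.1 (c s • t), hU _ f.2 (c s)⟩
    have h6 := θ.2 f ⟨fun t => f.1 (c s • t), hU _ f.2 (c s)⟩ (c s) (fun s => rfl) s₀
    rw [hc] at h6
    rw [← h6, ← h5]
  exact (LinearEquiv.ofBijective Φ ⟨hinj, hsurj⟩).finrank_eq.symm

end Pool.Agent.Lib.MP_640417_ag.Full
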