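import Pool.Agent.Lib.MP_640417_ag.Full.SpecB

/-!
# The support of a nonzero function in a stable space of small dimension
-/

namespace Pool.Agent.Lib.MP_640417_ag.Full

open Module Finset MulAction Pool.Agent.Lib.MP_640417_ag.Far

theorem pSupp : StSupp := by
  classical
  intro S G F _ _ _ _ _ _ U hU f hf hf0
  obtain ⟨v, hv⟩ : ∃ v : G → (S → F), v = fun γ s => f (γ • s) := ⟨_, rfl⟩
  have hle : Submodule.span F (Set.range v) ≤ U := by
    rw [Submodule.span_le]
    rintro _ ⟨γ, rfl⟩
    rw [hv]
    exact hU f hf γ
  have hm' : finrank F (Submodule.span F (Set.range v)) ≤ finrank F U :=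
    Submodule.finrank_mono hle
  obtain ⟨b, hb1, hb2, hb3⟩ := exists_linearIndependent F (Set.range v)
  have hfin : b.Finite := (Set.finite_range v).subset hb1
  have hft : Fintype b := hfin.fintype
  have hcard : b.toFinset.card ≤ finrank F U := by
    rw [← finrank_span_set_eq_card hb3, hb2]
    exact hm'
  have hcover : (Finset.univ : Finset S) ⊆
      b.toFinset.biUnion (fun w => Finset.univ.filter (fun h => w h ≠ 0)) := by
    intro h _
    rw [Finset.mem_biUnion]
    by_contra hcon
    push Not at hcon
    have hzero : ∀ w ∈ b, w h = 0 := by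
      intro w hw
      by_contra h0
      exact hcon w (by simpa using hw) (by simpa using h0)
    have hspan : ∀ w ∈ Submodule.span F b, w h = 0 := by
      intro w hw
      induction hw using Submodule.span_induction with
      | mem w hw => exact hzero w hw
      | zero => rfl
      | add w w' _ _ h1 h2 => rw [Pi.add_apply, h1, h2, add_zero]
      | smul a w _ h1 => rw [Pi.smul_apply, h1, smul_zero]
    apply hf0
    funext s
    obtain ⟨γ, hγ⟩ := MulAction.exists_smul_eq G h s
    have h1 : v γ ∈ Submodule.span F b := by
      rw [hb2]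
      exact Submodule.subset_span ⟨_, rfl⟩
    have h2 := hspan _ h1
    rw [hv] at h2
    simp only [hγ] at h2
    exact h2
  have hsupp : ∀ w ∈ b.toFinset, (Finset.univ.filter (fun h => w h ≠ 0)).card ≤
      {s : S | f s ≠ 0}.ncard := by
    intro w hw
    obtain ⟨k, rfl⟩ := hb1 (by simpa using hw)
    rw [Set.ncard_eq_toFinset_card']
    refine Finset.card_le_card_of_injOn (fun h => k • h) ?_ ?_
    · intro h hh
      simp only [Finset.coe_filter, Finset.mem_univ, true_and, Set.mem_ofPred_eq] at hh
      rw [hv] at hh
      simpa using hh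
    · intro h _ h' _ hhh
      exact smul_left_cancel k hhh
  calc Fintype.card S = (Finset.univ : Finset S).card := (Finset.card_univ).symm
    _ ≤ _ := Finset.card_le_card hcover
    _ ≤ b.toFinset.card * {s : S | f s ≠ 0}.ncard := Finset.card_biUnion_le_card_mul _ _ _ hsupp
    _ ≤ finrank F U * {s : S | f s ≠ 0}.ncard := Nat.mul_le_mul_right _ hcard

end Pool.Agent.Lib.MP_640417_ag.Full
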