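import Pool.Agent.Lib.MP_640417_ag.Full.Defs

/-!
# All CM fields: statements of the steps, counting the exceptional spaces, sums and subfields
-/

namespace Pool.Agent.Lib.MP_640417_ag.Full

open Module Finset MulAction NumberField Pool.Agent.Lib.MP_640417_ag.Far

/-- Spaces of dimension `1` and subgroups of index `2`.

Proof. Let `U i` be spanned by `f`. Then `f (γ s) = χ(γ) f s` with `χ(γ) = ± 1` (`G` is finite,
`χ(γ)` rational). Send `i` to `H = kerSub G (U i)`, the kernel of `χ`; its index is `2` since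
`χ(z) = - 1` (`f` is odd and not zero), and `z ∉ H`. It contains the stabilizer of `s₀`, as
`f s₀ ≠ 0` (`f ≠ 0` and `|f|` is constant on `S`). If `U i` and `U j` (spanned by `f'`) have the same
`H` then the same `χ`, so `f' (s₀) f` and `f (s₀) f'` agree on `G s₀ = S`: `U i = U j`, `i = j`. -/
def StSubA : Prop := ∀ (S G : Type) [Fintype S] [Group G] [Finite G] [MulAction G S]
  [IsPretransitive G S] (s₀ : S) (z : G) (n : ℕ) (U : Fin n → Submodule ℚ (S → ℚ)),
  (∀ i, IsIrr G (U i) ∧ IsOddSp z (U i)) → (∀ i j, i ≠ j → ¬ IsoF G (U i) (U j)) →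
  {i : Fin n | finrank ℚ (U i) = 1}.ncard
    ≤ {H : Subgroup G | stabilizer G s₀ ≤ H ∧ H.index = 2 ∧ z ∉ H}.ncard

/-- The order of the group acting on an irreducible odd space of dimension `2`.

Proof. Let `Γ` be the finite group of the maps `T γ : f ↦ f ∘ γ` of `U`, of order
`N = (kerSub G U).index` (compare `actHom` in `Far/BN.lean`). It contains `- 1`, because the
functions in `U` are odd. The mean of `tr (t) ^ 2` over `t ∈ Γ` is `e = finrank (endF G U)`: it is the
mean of `tr (t⁻¹) * tr (t)` as `tr (t⁻¹) = tr (t)` (there is an invariant positive definite form,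
`∑ s, f s * f' s`), and this is the dimension of the space of invariants of `Γ` on `End U`
(`FDRep.average_char_eq_finrank_invariants` and `char_linHom` in Mathlib, or directly: the trace of
the projection `A ↦ (1 / N) ∑ t, t⁻¹ A t` of `End U`).
The elements `t ∈ Γ` have finite order and preserve the lattice of integer valued functions in `U`,
so their traces are integers and their determinants `± 1`. If `det t = - 1` the eigenvalues are
`1, - 1` (they are roots of unity with product `- 1`; a pair of complex conjugates would have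
product `1`) and the trace is `0`. If `det t = 1` the trace is `2` only for `t = 1` and `- 2` only for
`t = - 1` (finite order), and otherwise `- 1`, `0` or `1` (by Cayley-Hamilton `t ^ 2 - c t + 1 = 0`; finite
order gives `|c| ≤ 2`, e.g. with the invariant form). Let `a` be the number of `t` with determinant `1`
and trace `± 1`, `b` the number of those with determinant `1` and trace `0`; `b` is even because
`t ≠ - t`. So `8 + a = e N`. There are `2 + a + b` elements of determinant `1`, which is `N` or `N / 2`.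
`e = 1`: not all determinants are `1`. Otherwise the determinant form `ω` of `U` (with respect to
some basis) is an invariant alternating bilinear form, `ω u v = ∑ s, (J u) s * v s` with a linear map
`J ≠ 0` of `U`, `J ∈ endF G U`, so `J` is a scalar; but then `ω` would be symmetric. So
`N = 4 + 2 a + 2 b`, `a + 2 b = 4`, and as `b` is even `(a, b) = (4, 0)`, `N = 12`, or `(0, 2)`, `N = 8`.
`e = 2`: if `N = 2 + a + b` then `a + 2 b = 4` and `(a, b) = (4, 0)`, `N = 6`, or `(0, 2)`, `N = 4`. If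
`N = 4 + 2 a + 2 b` then `8 + a = 8 + 4 a + 4 b`, `a = b = 0`, `Γ = {± 1, ± t}` with `det t = - 1`, and the
eigenspaces of `t` are stable, a contradiction to irreducibility. -/
def StOrd : Prop := ∀ (S G : Type) [Fintype S] [Group G] [Finite G] [MulAction G S]
  (z : G) (U : Submodule ℚ (S → ℚ)), IsIrr G U → IsOddSp z U → finrank ℚ U = 2 →
  (finrank ℚ (endF G U) = 1 → (kerSub G U).index = 8 ∨ (kerSub G U).index = 12) ∧
  (finrank ℚ (endF G U) = 2 → (kerSub G U).index = 4 ∨ (kerSub G U).index = 6)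

/-- Spaces of dimension `2` and subgroups of index `4` or `6` (from `StOrd`, `types_inf_ne_bot`).

Proof. Let `U = U i` be of dimension `2`, `h = finrank (U ⊓ invF (stabilizer s₀))`,
`e = finrank (endF G U) = h`. `U ⊓ invF ≠ ⊥` (`types_inf_ne_bot`), so `h = 1` or `h = 2`. Choose `f ≠ 0`
in `U ⊓ invF (stabilizer s₀)`, and let `H` be the group of all `γ` with `f (γ s) = f s` for all `s`;
`z ∉ H`, `stabilizer s₀ ≤ H`. Let `Γ` be the group of the maps `T γ : f' ↦ f' ∘ γ` of `U`, of order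
`N = (kerSub G U).index`, and `Γ_f` the group of the elements fixing `f`, of order `N / H.index`.
 Case `e = h = 2`: the evaluation `endF G U → U`, `θ ↦ θ f`, is injective (nonzero equivariant
endomorphisms are injective) hence bijective. If `T γ` fixes `f` then `T γ (θ f) = θ (T γ f) = θ f`
for all `θ ∈ endF`, so `T γ = 1`. So `H.index = N ∈ {4, 6}` (`StOrd`).
 Case `e = h = 1`: as `h < 2` some element of the stabilizer of `s₀` acts nontrivially on `U`, so
`Γ_f ≠ 1`. An element `t ∈ Γ_f` of determinant `1` has both eigenvalues `1` and finite order, so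
`t = 1`; determinants are `± 1` (rational of finite order), so `Γ_f` has order `2` and
`H.index = N / 2 ∈ {4, 6}`.
 Injectivity: suppose `U i` and `U j`, `i ≠ j`, give the same `H`, with `f i`, `f j`. Define
`θ i : U i → (G ⧸ H → ℚ)`, `θ i u (γ H) = ∑ s, u (γ s) * f i s`; it is well defined
(`∑ s, u (γ η s) * f s = ∑ s, u (γ s) * f (η⁻¹ s)`), `θ i (u ∘ δ) x = θ i u (δ x)`, and it is
injective: the kernel is stable and does not contain `f i` (`∑ f i s ^ 2 > 0`). So `V i = θ i (U i)` is a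
stable space of functions on `G ⧸ H`, of dimension `2`, irreducible, and consists of odd
functions. As `z` is central and `z ∉ H`, `z` has no fixed points on `G ⧸ H` and `z ^ 2` acts
trivially on it? (`z • z • s = s` on `S`, so `z ^ 2` lies in the stabilizer of `s₀`, and in `H`, and in all its
conjugates, since it is central.) So the odd functions on `G ⧸ H` form a space of dimension
`H.index / 2 ≤ 3` (`finrank_odd_le` in `Far/Main.lean`), `V i ⊓ V j ≠ ⊥`, hence `V i = V j` and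
`(θ j)⁻¹ ∘ θ i` is an equivariant isomorphism from `U i` to `U j`, a contradiction. -/
def StSubB : Prop := ∀ (S G : Type) [Fintype S] [Group G] [Finite G] [MulAction G S]
  [IsPretransitive G S] (s₀ : S) (z : G) (_ : ∀ γ : G, γ * z = z * γ)
  (_ : ∀ s : S, z • z • s = s) (n : ℕ)
  (U : Fin n → Submodule ℚ (S → ℚ)),
  (∀ i, IsIrr G (U i) ∧ IsOddSp z (U i)) → (∀ i j, i ≠ j → ¬ IsoF G (U i) (U j)) →
  {i : Fin n | finrank ℚ (U i) = 2 ∧
      finrank ℚ (endF G (U i)) = finrank ℚ ↥(U i ⊓ invF ℚ (stabilizer G s₀))}.ncard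
    ≤ {H : Subgroup G | stabilizer G s₀ ≤ H ∧ (H.index = 4 ∨ H.index = 6) ∧ z ∉ H}.ncard

/-- Spaces of dimension `2` and normal subgroups of index `8` or `12` (from `StOrd`).

Proof. Let `U = U i` be of dimension `2` with `e = 1`, `h = 2`. Then `U ≤ invF (stabilizer s₀)`, so
the normal subgroup `K = kerSub G U` contains the stabilizer of `s₀`; `K.index ∈ {8, 12}` by `StOrd`,
and `z ∉ K`. Injectivity: suppose `U i` and `U j`, `i ≠ j`, have the same `K`. For `f ∈ U i`
define `θ_f : U i → (G ⧸ K → ℚ)`, `θ_f u (γ K) = ∑ s, u (γ s) * f s` (well defined as `f` is invariant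
under `K`, see `StSubB`), equivariant, injective if `f ≠ 0`, linear in `f`. For a basis `f₁, f₂` of
`U i` the spaces `V₁ = θ_{f₁} (U i)` and `V₂ = θ_{f₂} (U i)` are different: otherwise
`θ_{f₂} = θ_{f₁} ∘ c` with `c ∈ endF G (U i)`, a scalar, so `θ_{f₂ - c f₁} = 0`, a
contradiction. So `W i = V₁ ⊔ V₂` has dimension `4`, and every stable subspace of `W i` which is not
`⊥` contains one isomorphic to `U i` (a projection to `V₁` or `V₂`). The same for `j`. As `U i` and
`U j` are not isomorphic, `W i ⊓ W j = ⊥` (an irreducible stable subspace of `W i ⊓ W j` would be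
isomorphic to both). So the odd functions on `G ⧸ K` have dimension at least `8`, but it is
`K.index / 2 ≤ 6` (`finrank_odd_le`), a contradiction. -/
def StSubC : Prop := ∀ (S G : Type) [Fintype S] [Group G] [Finite G] [MulAction G S]
  [IsPretransitive G S] (s₀ : S) (z : G) (_ : ∀ γ : G, γ * z = z * γ)
  (_ : ∀ s : S, z • z • s = s) (n : ℕ)
  (U : Fin n → Submodule ℚ (S → ℚ)),
  (∀ i, IsIrr G (U i) ∧ IsOddSp z (U i)) → (∀ i j, i ≠ j → ¬ IsoF G (U i) (U j)) →
  {i : Fin n | finrank ℚ (U i) = 2 ∧ finrank ℚ (endF G (U i)) = 1 ∧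
      finrank ℚ ↥(U i ⊓ invF ℚ (stabilizer G s₀)) = 2}.ncard
    ≤ {H : Subgroup G | H.Normal ∧ stabilizer G s₀ ≤ H ∧ (H.index = 8 ∨ H.index = 12) ∧
        z ∉ H}.ncard

section fixAt

variable {E : Type} [Field E] [NumberField E]

/-- The field of the `x` with `(γ φ₀) x = φ₀ x` for all `γ` in the subgroup `H`. -/
noncomputable def fixAt (φ₀ : Emb E) (H : Subgroup (galGroup E)) : IntermediateField ℚ E where
  carrier := {x | ∀ ν ∈ H, (ν • φ₀ : Emb E) x = φ₀ x}
  mul_mem' := by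
    intro a b ha hb ν hν
    rw [map_mul, map_mul, ha ν hν, hb ν hν]
  one_mem' := by
    intro ν hν
    rw [map_one, map_one]
  add_mem' := by
    intro a b ha hb ν hν
    rw [map_add, map_add, ha ν hν, hb ν hν]
  zero_mem' := by
    intro ν hν
    rw [map_zero, map_zero]
  algebraMap_mem' := by
    intro r ν hν
    simp
  inv_mem' := by
    intro a ha ν hν
    rw [map_inv₀, map_inv₀, ha ν hν]

lemma mem_fixAt (φ₀ : Emb E) (H : Subgroup (galGroup E)) (x : E) :
    x ∈ fixAt φ₀ H ↔ ∀ ν ∈ H, (ν • φ₀ : Emb E) x = φ₀ x := Iff.rfl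

end fixAt

/-- Subgroups containing the stabilizer of an embedding and subfields (see `Far/Field.lean`,
`All/FieldDict.lean`, `All/FieldCount.lean` for the case of normal subgroups).

Proof. Let `F = fixAt φ₀ H` and `H' = {τ : AbsGal | galOf E τ ∈ H}`. Every `w ∈ ℚ̄` fixed by `H'` is
`φ₀ x` with `x ∈ F` (`exists_preimage_of_fixed_emb`, as in `exists_mem_fixF`). If `γ φ₀` and `φ₀` agree
on `F` then `γ ∈ H`: for `y ∈ E` the element `w = ∑_{χ ∈ H φ₀} χ y` is fixed by `H'`, so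
`w = φ₀ x`, `x ∈ F`, and `γ w = γ φ₀ x = w`: `∑_{χ ∈ γ H φ₀} χ y = ∑_{χ ∈ H φ₀} χ y` for all `y`, and
by linear independence (`coeff_eq`) `γ H φ₀ = H φ₀`, so `γ ∈ H` as the stabilizer is in `H`. This shows (1):
`H` is determined by `F`. (2) The embeddings of `F` into `ℚ̄` are the restrictions of the `γ φ₀`
(every embedding of `F` extends to `E`, and `galGroup E` is transitive), and two of them agree iff
the `γ H` agree, so `[F : ℚ] = H.index`. (3) If `H` is normal then `F = fixF H` and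
`isGalois_fixF`. (4) If all `x ∈ F` are fixed by the complex conjugation of `E`, then `z φ₀` and `φ₀`
agree on `F`, so `z ∈ H`. -/
def StCorr : Prop := ∀ (E : Type) [Field E] [NumberField E] [IsCMField E] (φ₀ : Emb E)
  (z : galGroup E) (_ : ∀ φ : Emb E, z • φ = conjEmb φ),
  (∀ H H' : Subgroup (galGroup E), stabilizer (galGroup E) φ₀ ≤ H →
    stabilizer (galGroup E) φ₀ ≤ H' → fixAt φ₀ H = fixAt φ₀ H' → H = H') ∧
  ∀ H : Subgroup (galGroup E), stabilizer (galGroup E) φ₀ ≤ H →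
    finrank ℚ (fixAt φ₀ H) = H.index ∧
    (H.Normal → IsGalois ℚ (fixAt φ₀ H)) ∧
    (z ∉ H → ∃ x ∈ fixAt φ₀ H, IsCMField.complexConj E x ≠ x)

/-- **Summation over all types**, a purely numerical statement.

Proof. For bounded `g` there is nothing to do: the left side is at most `t ≤ g` and the right side at
least `C (log g) ^ (- 1/4)`. Let `g` be large. Put `c i = e i + D i - h i ≥ e i ≥ 1`.
(a) `D i ≥ g ^ (399/400)`: there are at most `g / g ^ (399/400) = g ^ (1/400)` such `i`, so the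
sum of these `x i` is at most `C₀ g ^ (1/400 - 1/200)`. In the following `D i < g ^ (399/400)`.
(b) `c i ≥ 3`: `x i ≤ C₀ (D log (D + 1) / g) ^ (3/2) ≤ C₀ (log (g + 1)) ^ (3/2) (D / g) g ^ (- 1/800)`,
and `∑ D i / g ≤ 1`.
(c) `c i = 2`: then `e i = 2 + h i - D i ≤ 2`, and `D i ^ 2 ≤ 2 m i D i`: if `e = 1` then
`m = h = D - 1 ≥ D / 2` (`h ≥ 1`, so `D ≥ 2`), if `e = 2` then `h = D`, `m = D / 2`. So `∑ D i ^ 2 ≤ 2 g` over these `i`.
`D i ≥ D₁ = (log g) ^ (1/3)`: `x i ≤ C₀ D log (D + 1) / g`, and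
`D log (D + 1) ≤ D ^ 2 log (D₁ + 1) / D₁` up to a constant, so the sum is at most
`C log (D₁ + 1) / D₁ ≤ C' (log g) ^ (- 1/4)`. `3 ≤ D i ≤ D₁`: there are at most `g` such `i`, and
`x i ≤ C₀ (g ^ (- 1 - 1 / (2 D₁ ^ 2)) + (8 D₁) ^ (D₁ ^ 2) g ^ (- 5/4))`, with
`g ^ (- 1 / (2 D₁ ^ 2)) = exp (- (log g) ^ (1/3) / 2)` and
`(8 D₁) ^ (D₁ ^ 2) = exp ((log g) ^ (2/3) log (8 D₁)) ≤ g ^ (1/8)`. `D i = 2`: `e = h` as
`e + 2 = h + 2`, and `x i ≤ C₀ 2 log 3 / g`. `D i = 1` is impossible: `e = h = 1` gives `c = 1`.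
(d) `c i = 1`: then `e i = 1`, `h i = D i = m i`, so `∑ D i ^ 2 ≤ g` over these `i`. `D i = 1`:
`x i ≤ C₀ √(log 2 / g)` (`k = 1`). `D i = 2`: the fourth hypothesis. `3 ≤ D i ≤ g ^ (1/100)`:
at most `g` of them, total `C₀ g ^ (- 1/4)`. `D i > g ^ (1/100)`:
`D ^ (3/2) ≤ D ^ 2 g ^ (- 1/200)`, total `C₀ g ^ (1/1000 - 1/200)`. -/
def StSum : Prop := ∀ C₀ : ℝ, 0 < C₀ → ∃ C : ℝ, 0 < C ∧ ∀ (g t : ℕ) (D h e m : Fin t → ℕ)
  (x : Fin t → ℝ), 2 ≤ g → (∀ i, 1 ≤ e i ∧ 1 ≤ m i ∧ h i = m i * e i ∧ h i ≤ D i) →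
  ∑ i, m i * D i ≤ g → (∀ i, 0 ≤ x i ∧ x i ≤ 1) →
  (∀ i, (g : ℝ) ^ (1 - 1 / 400 : ℝ) ≤ D i → x i ≤ C₀ * (g : ℝ) ^ (-(1 / 200) : ℝ)) →
  (∀ i, (D i : ℝ) ≤ (g : ℝ) ^ (1 - 1 / 400 : ℝ) → ∀ k : ℕ, k ≤ 3 → k + h i ≤ e i + D i →
    x i ≤ C₀ * Real.sqrt (D i * Real.log (D i + 1) / g) ^ k) →
  (∀ i, 3 ≤ D i → e i + D i = h i + 2 → x i ≤ C₀ * ((g : ℝ) ^ (-1 - 1 / (2 * (D i : ℝ) ^ 2))
    + (8 * (D i : ℝ)) ^ (D i ^ 2) * (g : ℝ) ^ (-(5 / 4) : ℝ))) →
  (∀ i, D i = 2 → e i = 1 → h i = 2 → x i ≤ C₀ * (Real.log (g + 1) ^ 2 / g)) →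
  (∀ i, e i = 1 → h i = D i → 3 ≤ D i → (D i : ℝ) ≤ (g : ℝ) ^ (1 / 100 : ℝ) →
    x i ≤ C₀ * (g : ℝ) ^ (-(5 / 4) : ℝ)) →
  (∀ i, e i = 1 → h i = D i → (g : ℝ) ^ (1 / 100 : ℝ) < D i →
    x i ≤ C₀ * (g : ℝ) ^ (1 / 1000 - 1 : ℝ) * (D i : ℝ) ^ (3 / 2 : ℝ)) →
  ∑ i, x i ≤ C * (({i : Fin t | D i = 1}.ncard : ℝ) / Real.sqrt g
    + ({i : Fin t | D i = 2 ∧ e i = h i}.ncard : ℝ) / g
    + ({i : Fin t | D i = 2 ∧ e i = 1 ∧ h i = 2}.ncard : ℝ) * Real.log (g + 1) ^ 2 / g
    + Real.log g ^ (-(1 / 4) : ℝ))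

end Pool.Agent.Lib.MP_640417_ag.Full
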