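import Pool.Agent.Lib.MP_640417_ag.Full.Defs

/-!
# All CM fields: statements of the steps, absolutely irreducible rational spaces

For a matrix system `M : MatSys S G z n N` the bad sign functions are those `e` for which the integer
matrix `∑ s, e s • M.Φ s` is singular (`M.sing`).

Conventions: `g = X.card`, `Φ s = M.Φ s`; all the matrices `Φ s` are of the form `M.R γ`, because
`Φ s₀ = 1` for some `s₀` and `G` is transitive. `dz t` is the distance of `t` to the nearest integer,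
`dz (t + k) = dz t = dz (- t)`, `dz (t + u) ≤ dz t + dz u`, `dz (k t) ≤ |k| dz t` for integers `k`.
-/

namespace Pool.Agent.Lib.MP_640417_ag.Full

open Module Finset MulAction Matrix Pool.Agent.Lib.MP_640417_ag.Far

/-- The matrix system of a rational absolutely irreducible space of functions.

Proof. Let `u 1, …, u n` be a `ℤ`-basis of the group `L` of integer valued members of `U`. For
`γ ∈ G` `u j (γ s) = ∑ i, R γ j i * u i s` with integers `R γ j i`, and `R (γ δ) = R γ * R δ`. As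
`U ≤ invF (stabilizer s₀)`, `R` is trivial on the stabilizer, so `Φ (γ s₀) = R γ` is well defined
(for `δ` with `δ s₀ = s₀` one has `u j (γ δ s) = u j (γ s)`: the functions `u j ∘ γ` are in `U`).
`R z = - 1` since `u j` is odd, so `Φ (z γ s₀) = R z R γ = - R γ`.
`indep`: matrices commuting with all `R γ` are scalars, over `ℚ` (they correspond to `endF G U`,
which has dimension `1`). Let `Q` be the finite group `R(G)`, its order `N` is
`(kerSub G U).index`. For integers `j, k` the matrix `∑_{q ∈ Q} q E_{jk} q⁻¹` is a scalar, of trace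
`N δ_{jk}`, so `n ∑_q q_{ij} (q⁻¹)_{kl} = N δ_{jk} δ_{il}`. The entries are integers, so `n` divides
`N` (take `i = l`, `j = k`) and `∑_q q_{ij} (q⁻¹)_{kl} = (N / n) δ_{jk} δ_{il}`. If `A` modulo `p`
satisfies `tr (q A) = ∑ q_{ij} A_{ji} = 0` for all `q ∈ Q`, multiply by `(q⁻¹)_{kl}` and sum over `q`:
`(N / n) A_{kl} = 0` up to the order of indices, so `A = 0` if `p ∤ N`.
Bad sign functions: if `e` is orthogonal to the copy `θ(U)`, `θ ∈ homF G U`, `θ ≠ 0`, put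
`λ j = θ (u j) s₀` (rational, not all `0`, scale to integers). `θ (u j) (γ s₀) = θ (u j ∘ γ) s₀
= ∑ i, R γ j i λ i`, so `∑ s, e s • Φ s` kills the vector `λ`. -/
def StMat : Prop := ∀ (S G : Type) [Fintype S] [Group G] [Finite G] [MulAction G S]
  [IsPretransitive G S] (s₀ : S) (z : G) (_ : ∀ γ : G, γ * z = z * γ)
  (U : Submodule ℚ (S → ℚ)), IsIrr G U → IsOddSp z U →
  U ≤ invF ℚ (stabilizer G s₀) → finrank ℚ (endF G U) = 1 →
  ∃ M : MatSys S G z (finrank ℚ U) (kerSub G U).index, badSet z U ⊆ M.sing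

/-- The support of a nonzero function in a stable space of small dimension.

Proof. Choose a list `γ 1, …, γ j` of elements of `G` as long as possible such that the support of
`f ∘ γ i` contains a point outside the supports of `f ∘ γ 1, …, f ∘ γ (i - 1)`, for each `i`. These
functions are linearly independent (triangular), so `j ≤ finrank U`. By maximality every support of a
translate of `f` is contained in the union of the `j` supports; as `f ≠ 0` and `G` is transitive this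
union is `S`, so `|S| ≤ j * |supp f|`. (Compare `card_le_support` in `All/Support.lean`.) -/
def StSupp : Prop := ∀ (S G F : Type) [Fintype S] [Group G] [Finite G] [MulAction G S]
  [IsPretransitive G S] [Field F] (U : Submodule F (S → F)), IsStab G U → ∀ f ∈ U, f ≠ 0 →
  Fintype.card S ≤ finrank F U * {s : S | f s ≠ 0}.ncard

/-- Comparison with a random walk of `K` steps.

Proof. For `(v, β)` let `w s = M.wf m v β s` and `c = 1 - (1 / |S|) ∑ s, sin (2 π w s) ^ 2 =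
(1 / |S|) ∑ s, cos (2 π w s) ^ 2 ≥ 0`. As `Φ (z s) = - Φ s` one has `w (z s) = - w s`, so
`∑ s, dz (2 w s) ^ 2 = 2 M.sz X m v β`, `|S| = 2 |X|`. If `K * sz ≤ |X|` then, by
`sin (π t) ^ 2 ≤ π ^ 2 (dz t) ^ 2`, `c ≥ 1 - π ^ 2 / K ≥ 1 - 10 / K` and `c ^ K ≥ e ^ (- 20)` (from
`1 - t ≥ exp (- 2 t)` for `0 ≤ t ≤ 1/2`), and `e ^ 20 ≤ 3 ^ 20`. So the number on the left is at most
`3 ^ 20 ∑_{v, β} c ^ K`. On the other hand the mean of `exp (2 π i (ε + ε') t)` over two signs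
`ε, ε'` is `cos (2 π t) ^ 2`, so `(4 |S|) ^ K * c ^ K = ∑_σ exp (2 π i (∑_j (ε_j + ε'_j) w (s_j)))
= ∑_σ exp (2 π i (β ⬝ (M.walk σ) v) / m)`, and the sum over all `β` of the last term is `m ^ n` or `0`
according to whether `(M.walk σ) v` is `0` modulo `m` or not. -/
def StCompare : Prop := ∀ (S G : Type) [Fintype S] [Group G] [Finite G] [MulAction G S]
  [IsPretransitive G S] (z : G) (_ : ∀ s : S, z • z • s = s)
  (X : Finset S) (_ : ∀ s, s ∈ X ↔ z • s ∉ X) (n N : ℕ) (M : MatSys S G z n N)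
  (m : ℕ) [NeZero m] (K : ℕ), 20 ≤ K →
  ({q : (Fin n → ZMod m) × (Fin n → ZMod m) | K * M.sz X m q.1 q.2 ≤ X.card}.ncard : ℝ)
      * (4 * Fintype.card S) ^ K
    ≤ 3 ^ 20 * (m : ℝ) ^ n * ∑ σ : Fin K → S × Bool × Bool, (kerCard m (M.walk σ) : ℝ)

/-- The loss of rank modulo `m` of a short integral combination of the elements of a finite group
of matrices.

Proof. Let `A = ∑ j, c j • R (γ j)`, `A' = ∑ j, c j • R (γ j)⁻¹`, `Q = ∑_γ (R γ)^T R γ` over `ℝ`, a
positive definite symmetric matrix with `(R γ)^T Q R γ = Q`, so `A^T Q = Q A'`. Let `T` be an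
invertible real matrix with `T^T T = Q`; the `T (R γ) T⁻¹` are orthogonal, so `B = T A T⁻¹` has
operator norm at most `L`, and `B^T B = T A' A T⁻¹`. So `M = A' A` is similar to the positive
semidefinite matrix `B^T B`, has nonnegative real eigenvalues `μ_i ≤ L ^ 2`, is diagonalizable, and
its rank is that of `A` (over `ℝ` or `ℚ`), `n - k₀`. `D(t) = det (t + M) = ∏ (t + μ_i) = ∑ d j t^j` has
integer coefficients, `d j = 0` for `j < k₀`, and `d k₀`, the product of the nonzero `μ_i`, satisfies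
`1 ≤ d k₀ ≤ L ^ (2 n)`. Let `p` be a prime factor of `m` and `k` the dimension of the kernel of `A`
modulo `p`; the kernel of `M` modulo `p` has dimension at least `k`, and `k₀ ≤ k`. An integer matrix
whose reduction has a kernel of dimension at least `k` has a determinant divisible by `p ^ k` (take an
integer matrix `V`, invertible modulo `p`, whose first `k` columns span this kernel modulo `p`). So
`p ^ k` divides `D(p s)` for every integer `s`. As `n < p`, a polynomial of degree at most `n` in `s`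
with values divisible by `p ^ k` at `s = 0, …, n` has all coefficients divisible by `p ^ k` (if they are integers);
so `p ^ k ∣ d j * p ^ j`, in particular `p ^ (k - k₀) ∣ d k₀`. This holds for all `p ∣ m`, so
`∏_{p ∣ m} p ^ (k_p - k₀)` divides `d k₀`, so it is at most `L ^ (2 n)`. By the Chinese remainder
theorem `kerCard m A = ∏_{p ∣ m} p ^ (k_p) ≤ m ^ k₀ L ^ (2 n)`. -/
def StDrop : Prop := ∀ (G : Type) [Group G] [Finite G] (n : ℕ)
  (R : G →* Matrix (Fin n) (Fin n) ℤ) (J : Type) [Fintype J] (c : J → ℤ) (γ : J → G) (L : ℕ),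
  1 ≤ L → ∑ j, |c j| ≤ L → ∀ m : ℕ, Squarefree m → (∀ p : ℕ, p.Prime → p ∣ m → n < p) →
  (kerCard m (∑ j, c j • R (γ j)) : ℝ)
    ≤ (m : ℝ) ^ (n - ((∑ j, c j • R (γ j)).map (Int.cast : ℤ → ℚ)).rank) * (L : ℝ) ^ (2 * n)

/-- The walk has small corank with large probability (from `StSupp`).

Proof. Write `A σ = M.walk σ` modulo `q`. If `A σ` has corank at least `k` the number of linearly
independent `k`-tuples in its kernel is at least `∏_{i < k} (q ^ k - q ^ i) ≥ (q ^ k / 2) ^ k`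
(`card_linearIndependent` in Mathlib). On the other hand the mean over `σ` of the number of linearly
independent `k`-tuples `(v 1, …, v k)` with `A σ v j = 0` for all `j` is
`q ^ (- k n) ∑_{v, β} c(v, β) ^ K`, the sum over the independent tuples `v` and all tuples
`(β 1, …, β k)`, `c(v, β) = (1 / |S|) ∑ s, cos (2 π u s / q) ^ 2`,
`u s = ∑ j, β j ⬝ Φ s v j = tr (Φ s C)`, `C = ∑ j, v j (β j)^T` modulo `q` (compare the proof of
`StCompare`). `β = 0` contributes at most `q ^ (k n) q ^ (- k n) = 1`. If `β ≠ 0` then `C ≠ 0` because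
the `v j` are independent, so `u ≠ 0` by `indep`; `u` belongs to the stable space of the functions
`s ↦ tr (Φ s A)` of dimension at most `n ^ 2`, so `u s ≠ 0` for at least `|S| / n ^ 2` points
(`StSupp`), and there `sin (2 π u s / q) ^ 2 ≥ (2 / q) ^ 2` (`q` is odd; `sin (π t) ≥ 2 t` for
`0 ≤ t ≤ 1/2`). So `c ≤ 1 - 4 / (n q) ^ 2 ≤ exp (- 4 / (n q) ^ 2)`, and these `β` contribute at
most `q ^ (k n) exp (- 4 K / (n q) ^ 2)`. -/
def StCork : Prop := ∀ (S G : Type) [Fintype S] [Group G] [Finite G] [MulAction G S]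
  [IsPretransitive G S] (z : G) (_ : ∀ s : S, z • z • s = s) (n N : ℕ) (M : MatSys S G z n N),
  0 < n → ∀ (q : ℕ) [Fact q.Prime], q ≠ 2 → ¬ q ∣ N → ∀ (K k : ℕ),
  ({σ : Fin K → S × Bool × Bool |
      ((M.walk σ).map (Int.cast : ℤ → ZMod q)).rank + k ≤ n}.ncard : ℝ) * (q : ℝ) ^ (k ^ 2)
    ≤ (4 * Fintype.card S) ^ K * 2 ^ k
      * (1 + (q : ℝ) ^ (k * n) * Real.exp (-(4 * K / ((n : ℝ) * q) ^ 2)))

/-- The number of small pairs (from `StCompare`, `StDrop`, `StCork`).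

Proof. By `StCompare` the number is at most `3 ^ 20 m ^ n` times the mean over `σ` of
`kerCard m (M.walk σ)`. By `StDrop` with `L = 2 K` (`Φ s` is of the form `R γ`, `|ε + ε'| ≤ 2`) this is
at most `m ^ (k(σ)) (2 K) ^ (2 n)`, `k(σ) = n - rank` over `ℚ`. The rank over `ℚ` is at least the rank
modulo `q`, so by `StCork` `k(σ) ≥ k` for a share of at most
`q ^ (- k ^ 2) 2 ^ k (1 + q ^ (k n) exp (- 4 K / (n q) ^ 2)) ≤ 2 ^ (k + 1) q ^ (- k ^ 2)` of the `σ`,
for `k ≤ n`, as `4 K / (n q) ^ 2 ≥ n ^ 2 log q`. So the mean of `m ^ (k(σ))` is at most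
`m ^ k₀ + ∑_{k > k₀} m ^ k 2 ^ (k + 1) q ^ (- k ^ 2) ≤ m ^ k₀ + 2 ∑_{k > k₀} (2 m / q ^ k) ^ k
≤ m ^ k₀ + 2 ∑_{k > k₀} 2 ^ (- k) ≤ 3 m ^ k₀`. -/
def StSmall : Prop := ∀ (S G : Type) [Fintype S] [Group G] [Finite G] [MulAction G S]
  [IsPretransitive G S] (z : G) (_ : ∀ s : S, z • z • s = s)
  (X : Finset S) (_ : ∀ s, s ∈ X ↔ z • s ∉ X) (n N : ℕ) (M : MatSys S G z n N), 0 < n →
  ∀ (m : ℕ), Squarefree m → (∀ p : ℕ, p.Prime → p ∣ m → n < p) →
  ∀ (q : ℕ) [Fact q.Prime], q ≠ 2 → ¬ q ∣ N → ∀ (K k₀ : ℕ), 20 ≤ K →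
  (n : ℝ) ^ 4 * (q : ℝ) ^ 2 * Real.log q ≤ 4 * K → 4 * m ≤ q ^ k₀ →
  ({v : (Fin n → ZMod m) × (Fin n → ZMod m) | K * M.sz X m v.1 v.2 ≤ X.card}.ncard : ℝ)
    ≤ 3 ^ 21 * (m : ℝ) ^ (n + k₀) * (2 * (K : ℝ)) ^ (2 * n)

/-- Uniqueness of the continuation to one more prime (from `StSupp`).

Proof. Send `(v, β)` modulo `m p` to its reduction `(v', β')` modulo `m`. For these
`M.wf m v' β' s ≡ p * M.wf (m * p) v β s` modulo `1`, so `sz` is multiplied by at most `p ^ 2`. It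
remains to show that at most `p - 1` pairs in the set have the same reduction `(v', β')`. Let
`(v₁, β₁)`, `(v₂, β₂)` be two of them. `β₁ ⬝ Φ s v₁ - β₂ ⬝ Φ s v₂ = m u s` with an integer `u s` (the
vectors represented by `val`; work modulo `m p`), and modulo `p` `m u s = tr (Φ s C)`,
`C = v₁ β₁^T - v₂ β₂^T` modulo `p`. The difference of the two functions `wf` is `u s / p` modulo `1`, so
`∑_{x ∈ X} dz (2 u x / p) ^ 2 ≤ 2 sz₁ + 2 sz₂ ≤ 4 ε g`. If `C ≠ 0` then `u` modulo `p` is a nonzero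
member of the stable space of the functions `s ↦ tr (Φ s A)` (by `indep`, `p ∤ N`), of
dimension at most `n ^ 2`, so by `StSupp` and as `u` is odd at least `g / n ^ 2` points `x ∈ X` have
`p ∤ u x`, and for them `dz (2 u x / p) ≥ 1 / p`; so `g ≤ 4 ε n ^ 2 p ^ 2 g`, a contradiction. So
`v₁ β₁^T = v₂ β₂^T ≠ 0` modulo `p`, which means `v₂ = l v₁`, `β₂ = l⁻¹ β₁` modulo `p` for
a nonzero `l` (compare `exists_smul_of_tensor` in `All/TwoHead.lean`). As `p ∤ m` `(v, β)` is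
determined by its reductions modulo `m` and `p`. -/
def StUniq : Prop := ∀ (S G : Type) [Fintype S] [Group G] [Finite G] [MulAction G S]
  [IsPretransitive G S] (z : G) (_ : ∀ s : S, z • z • s = s)
  (X : Finset S) (_ : ∀ s, s ∈ X ↔ z • s ∉ X) (n N : ℕ) (M : MatSys S G z n N)
  (m p : ℕ) [NeZero m] [Fact p.Prime] [NeZero (m * p)], p ≠ 2 → ¬ p ∣ N → ¬ p ∣ m →
  ∀ ε : ℝ, 0 < ε → 4 * ε * (n : ℝ) ^ 2 * (p : ℝ) ^ 2 < 1 →
  {q : (Fin n → ZMod (m * p)) × (Fin n → ZMod (m * p)) | (∃ i, ¬ p ∣ (q.1 i).val) ∧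
      (∃ i, ¬ p ∣ (q.2 i).val) ∧ M.sz X (m * p) q.1 q.2 ≤ ε * X.card}.ncard
    ≤ (p - 1) * {q : (Fin n → ZMod m) × (Fin n → ZMod m) |
      M.sz X m q.1 q.2 ≤ (p : ℝ) ^ 2 * ε * X.card}.ncard

/-- The first moment inequality.

Proof. Let `e ∈ M.sing`. There is a primitive integer vector `v₀` with `A v₀ = 0`,
`A = ∑_{x ∈ X} e x • Φ x` (note `∑ s, e s • Φ s = 2 A`). For the units `c` modulo `m` the vectors
`c v₀` modulo `m` are different, `Good`, and satisfy `A v = 0` modulo `m` (there is nothing to prove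
for `n = 0`). So `φ(m) #sing ≤ ∑_{v Good} #{e : A v = 0 modulo m}`
`= ∑_{v Good} m ^ (- n) ∑_β ∑_e exp (2 π i β ⬝ A v / m) = 2 ^ g m ^ (- n) ∑_{v Good} ∑_β
∏_{x ∈ X} cos (2 π wf x)`. Let `d` be the product of the primes `p ∣ m` such that `β` is not `0` modulo
`p`; then `β = (m / d) β'` with a unique `β'` modulo `d`, which is `Good`, and
`M.wf m v β s ≡ M.wf d v' β' s` modulo `1`, `v'` the reduction of `v`, which is `Good` too. Each `v'`
comes from at most `(m / d) ^ n` vectors `v`. So the sum is at most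
`m ^ (- n) ∑_{d ∣ m} (m / d) ^ n F(d)`, `F(d)` the sum on the right hand side. -/
def StFirst : Prop := ∀ (S G : Type) [Fintype S] [Group G] [Finite G] [MulAction G S]
  [IsPretransitive G S] (z : G) (_ : ∀ s : S, z • z • s = s)
  (X : Finset S) (_ : ∀ s, s ∈ X ↔ z • s ∉ X) (n N : ℕ) (M : MatSys S G z n N) (m : ℕ),
  Squarefree m →
  (m.totient : ℝ) * (M.sing.ncard : ℝ) ≤ 2 ^ X.card * ∑ d ∈ m.divisors,
    (∑ᶠ q ∈ {q : (Fin n → ZMod d) × (Fin n → ZMod d) | Good d q.1 ∧ Good d q.2},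
      ∏ x ∈ X, |Real.cos (2 * Real.pi * M.wf d q.1 q.2 x)|) / (d : ℝ) ^ n

/-- The bound by three primes, with all parameters (from `StFirst`, `StSmall`, `StUniq`).

Proof. Use `StFirst` with `m = p₁ p₂ p₃`. `F(1) = 1`. Let `d ≠ 1` divide `m`, `p = p i` a prime
factor of `d`, `d = d' p`. `|cos (π t)| ≤ exp (- 4 (dz t) ^ 2)`, so each product in `F(d)` is at most
`1`, and at most `exp (- 4 ε g)` if `sz > ε g`. By `StUniq` the number of pairs
with `sz ≤ ε g` is at most `(p - 1)` times the number of pairs modulo `d'` with `sz ≤ p ^ 2 ε g`, for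
which `K * sz ≤ g` as `K p ^ 2 ε ≤ 1`; by `StSmall` there are at most
`3 ^ 21 d' ^ (n + k₀) (2 K) ^ (2 n)` of them. So `F(d) / d ^ n ≤
p ^ (1 - n) 3 ^ 21 d' ^ k₀ (2 K) ^ (2 n) + d ^ n exp (- 4 ε g) ≤ 1 + 1`, using `d' ≤ Y ^ 2`. Total at
most `1 + 7 * 2 = 15`. -/
def StThreeA : Prop := ∀ (S G : Type) [Fintype S] [Group G] [Finite G] [MulAction G S]
  [IsPretransitive G S] (z : G) (_ : ∀ s : S, z • z • s = s)
  (X : Finset S) (_ : ∀ s, s ∈ X ↔ z • s ∉ X) (n N : ℕ) (M : MatSys S G z n N), 0 < n →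
  ∀ (p : Fin 3 → ℕ) (q K k₀ : ℕ) (ε Y : ℝ), (∀ i, (p i).Prime) → Function.Injective p →
  (∀ i, p i ≠ 2) → (∀ i, ¬ p i ∣ N) → (∀ i, n < p i) → (∀ i, (p i : ℝ) ≤ Y) →
  q.Prime → q ≠ 2 → ¬ q ∣ N → 20 ≤ K → 0 < ε →
  (∀ i, 4 * ε * (n : ℝ) ^ 2 * (p i : ℝ) ^ 2 < 1) → (∀ i, K * (p i : ℝ) ^ 2 * ε ≤ 1) →
  (n : ℝ) ^ 4 * (q : ℝ) ^ 2 * Real.log q ≤ 4 * K → 4 * Y ^ 2 ≤ (q : ℝ) ^ k₀ →
  (∀ i, 3 ^ 21 * p i * Y ^ (2 * k₀) * (2 * (K : ℝ)) ^ (2 * n) ≤ (p i : ℝ) ^ n) →
  Y ^ (3 * n) ≤ Real.exp (4 * ε * X.card) →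
  (∏ i, ((p i : ℝ) - 1)) * (M.sing.ncard : ℝ) ≤ 15 * 2 ^ X.card

/-- Choice of the parameters.

Proof. For `g` below a constant the claim is trivial with `C` large as `x ≤ 1`. Let `g` be large,
`y = g ^ (9/20)`, `Y = y`; choose primes `p 0 ∈ (y / 8, y / 4]`, `p 1 ∈ (y / 4, y / 2]`,
`p 2 ∈ (y / 2, y]` (Bertrand, see below), `q` prime with `g ^ (1/50) / 2 < q ≤ g ^ (1/50)`,
`ε = n log g / (2 g)`, `K = ⌊1 / (ε y ^ 2)⌋ = ⌊2 g ^ (1/10) / (n log g)⌋`, `k₀ = 50`. All the primes are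
larger than `n + 1`, as `n ≤ g ^ (1/100)`. `4 ε n ^ 2 p ^ 2 ≤ 2 n ^ 3 log g * g ^ (- 1/10) < 1`;
`K ≥ g ^ (2/25)` (because `g ^ (1/10) / (n log g) ≥ g ^ (9/100) / log g`); `K p ^ 2 ε ≤ 1`;
`n ^ 4 q ^ 2 log q ≤ g ^ (4/100 + 4/100) log g`: to have this below `4 K`, where
`4 K ≥ 8 g ^ (9/100) / log g - 4`, it is enough that `g` is large; `4 Y ^ 2 = 4 g ^ (9/10)
≤ q ^ 50`, as `q ^ 50 ≥ g / 2 ^ 50`. `(2 K) ^ (2 n) ≤ (4 g ^ (1/10)) ^ (2 n) = 16 ^ n g ^ (n/5)`,
`Y ^ 100 = g ^ 45`, `p ^ (n - 1) ≥ (g ^ (9/20) / 8) ^ (n - 1)`; we need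
`g ^ (9 (n - 1) / 20 - 45 - n / 5) ≥ 3 ^ 21 * 16 ^ n * 8 ^ n = 3 ^ 21 * 128 ^ n`. For `n ≥ 200` the exponent is
`n / 4 - 45.45 ≥ n / 50` (true for `n ≥ 198`), and `g ^ (n / 50) ≥ 3 ^ 21 * 128 ^ n` for large `g`.
`Y ^ (3 n) = g ^ (27 n / 20) ≤ g ^ (2 n) = exp (4 ε g)`. So
`x ≤ 15 / ∏ (p i - 1) ≤ 15 * 16 ^ 3 * y ^ (-3)`, `y ^ 3 = g ^ (27/20)`.
Bertrand: for `t ≥ 2` there is a prime `p` with `t / 2 < p ≤ t` (`Nat.exists_prime_lt_and_le_two_mul`
for `⌊t / 2⌋`: `⌊t / 2⌋ < p ≤ 2 ⌊t / 2⌋`). -/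
def StThreeNum : Prop := ∃ C : ℝ, 0 < C ∧ ∀ (g n N : ℕ) (x : ℝ), 200 ≤ n →
  (n : ℝ) ≤ (g : ℝ) ^ (1 / 100 : ℝ) → (∀ p : ℕ, p.Prime → n + 1 < p → ¬ p ∣ N) → 0 ≤ x → x ≤ 1 →
  (∀ (p : Fin 3 → ℕ) (q K k₀ : ℕ) (ε Y : ℝ), (∀ i, (p i).Prime) → Function.Injective p →
    (∀ i, p i ≠ 2) → (∀ i, ¬ p i ∣ N) → (∀ i, n < p i) → (∀ i, (p i : ℝ) ≤ Y) →
    q.Prime → q ≠ 2 → ¬ q ∣ N → 20 ≤ K → 0 < ε →
    (∀ i, 4 * ε * (n : ℝ) ^ 2 * (p i : ℝ) ^ 2 < 1) → (∀ i, K * (p i : ℝ) ^ 2 * ε ≤ 1) →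
    (n : ℝ) ^ 4 * (q : ℝ) ^ 2 * Real.log q ≤ 4 * K → 4 * Y ^ 2 ≤ (q : ℝ) ^ k₀ →
    (∀ i, 3 ^ 21 * p i * Y ^ (2 * k₀) * (2 * (K : ℝ)) ^ (2 * n) ≤ (p i : ℝ) ^ n) →
    Y ^ (3 * n) ≤ Real.exp (4 * ε * g) →
    (∏ i, ((p i : ℝ) - 1)) * x ≤ 15) →
  x ≤ C * (g : ℝ) ^ (-(27 / 20) : ℝ)

/-- Larger degrees: two primes. This is a translation of results in the folder `All`
(`twoPrime`, `num_two_primes`, `gauss_sum_le`, `sum_row_cs_le`, see the end of the docstring of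
`type_bound` in `All/TypeBound.lean`).

Proof. Let `H = G ⧸ R.ker` (finite), `ρ : H →* Matrix` the injective homomorphism induced by `M.R`,
`c` the class of `z`; `τ : X → H`, `τ x` the class of any `γ` with `x = γ s₀` (`Φ s₀ = 1`; it does
not depend on `γ` as `ρ (τ x) = Φ x`). `Rep c n ρ`: `ρ c = R z = - 1` (apply `odd` and `smul` at `s₀`);
the `Φ s` span all rational matrices, otherwise there is a nonzero integer matrix `A` with
`tr (Φ s A) = 0` for all `s`, contradicting `indep` for a prime `p` which divides neither `N` nor all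
entries of `A`. `Cover c τ κ`: `c` is central and `c ^ 2 = 1`, `c ≠ 1` because `ρ` is injective and
`ρ c = - 1` is central (`n > 0`); for `h ∈ H` the number `κ` of `s ∈ S` with `Φ s = ρ h` does not depend
on `h` (`Φ (γ s) = R γ Φ s`), and `{x ∈ X | τ x = h ∨ τ x = c h}` is in bijection with
`{s | Φ s = ρ h}` (`s ∈ X` or `z s ∈ X`). `κ |H| = |S| = 2 g`, so `|H| ≤ 2 g`, and `n ^ 2 ≤ |H|`.
The sign functions in `M.sing` restrict injectively to sign vectors on `X` in `singX ρ τ`.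
Apply `num_two_primes` with `N = |H|`, `x = #sing / 2 ^ g`: its first hypothesis (one prime `p ∤ |H|`):
`x (p - 1) ≤ 3`: it is used for `d ≥ n`; the sum over `v ≠ 0` of the number of sign vectors killed
by `v` modulo `p` is at least `(p - 1) #sing`, and by Fourier inversion and `sum_row_cs_le`
(`t = g / d`) at most `2 ^ g p ^ n p ^ (- n) 3` (compare `All/TwoCount.lean`, `All/FourierTwo.lean`,
`OddRel.lean`). Its second hypothesis is `twoPrime` with `gauss_sum_le`, as explained in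
`All/TypeBound.lean`. -/
def StTwoPrimes : Prop := ∀ δ : ℝ, 0 < δ → δ < 1 / 2 → ∃ (n₀ : ℕ) (C : ℝ), 0 < C ∧
  ∀ (S G : Type) [Fintype S] [Group G] [Finite G] [MulAction G S]
  [IsPretransitive G S] (z : G) (_ : ∀ γ : G, γ * z = z * γ) (_ : ∀ s : S, z • z • s = s)
  (X : Finset S) (_ : ∀ s, s ∈ X ↔ z • s ∉ X) (n N : ℕ) (M : MatSys S G z n N), 0 < N → 0 < n →
  n₀ ≤ n → (M.sing.ncard : ℝ) ≤ C * (X.card : ℝ) ^ (δ - 1) * (n : ℝ) ^ (3 / 2 : ℝ) * 2 ^ X.card

/-- A good basis: conjugating the matrices of a matrix system so that they become bounded.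

Proof. `V(b) = {Φ s b}` spans `ℚ ^ n` for every nonzero `b ∈ ℤ ^ n`: otherwise a nonzero integer vector
`θ` has `θ ⬝ Φ s b = 0` for all `s`; take a prime `p ∤ N` not dividing all `θ i b j`; then
`tr (Φ s (b θ^T)) = 0` contradicts `indep`. Let `J(b)` be the maximum of
`|det (Φ (s 1) b, …, Φ (s n) b)|` over all `s : Fin n → S`, a positive integer; choose `b` with `J(b)`
minimal and `P = (b 1, …, b n)`, `b j = Φ (s j) b`, attaining the maximum. By Cramer every `Φ s b` is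
`∑ c j b j` with `|c j| ≤ 1`. For `γ ∈ G` `R γ (Φ s b) = Φ (γ s) b`. Suppose
`J(b) > k ^ n`, `k = 4 n ^ 2`. The parallelepiped `{∑ t j b j : 0 ≤ t j < 1}` contains `J(b)` integer
points, so two of them have all `⌊k t j⌋` equal, and their difference `w = ∑ c j b j ≠ 0` has
`|c j| ≤ 1 / k`. For any `s`, `Φ s = R γ Φ s₀` with `Φ s₀ = 1` for suitable `γ`, `s₀`, so
`Φ s w = ∑ c j R γ b j = ∑ c j Φ (γ s j) b` has coordinates at most `n / k` with respect to the `b j`,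
and `J(w) ≤ n! (n / k) ^ n J(b) < J(b)`, a contradiction. So `|det P| = J(b) ≤ (4 n ^ 2) ^ n`. Finally
`adj(P) Φ s P = ± |det P| P⁻¹ Φ s P`, and the columns of `P⁻¹ Φ s P` are the coordinates of
`Φ s b j = R γ b j = Φ (γ s j) b`, at most `1` in absolute value. -/
def StCoef : Prop := ∀ (S G : Type) [Fintype S] [Group G] [Finite G] [MulAction G S]
  [IsPretransitive G S] (z : G) (n N : ℕ) (M : MatSys S G z n N), 0 < N → 0 < n →
  ∃ P : Matrix (Fin n) (Fin n) ℤ, P.det ≠ 0 ∧ |P.det| ≤ (4 * (n : ℤ) ^ 2) ^ n ∧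
    ∀ s i j, |(P.adjugate * M.Φ s * P) i j| ≤ (4 * (n : ℤ) ^ 2) ^ n

/-- The probability of a single value.

Proof. Let `e₀` be one sign function with the given value. The space `W` of the functions
`s ↦ tr (Φ s A)` modulo `p`, `A` a matrix over `ZMod p`, is stable (`Φ (γ s) = R γ Φ s`), odd, and of
dimension `n ^ 2` by `indep`. For sign functions `e` with the same value `∑ s, w s (e s - e₀ s) = 0` for all
`w ∈ W`. As in `ncard_orth_le` (`FourierPack.lean`) the number of sign functions with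
`∑ w s e s = ∑ w s e₀ s` for all `w ∈ W` is at most `2 ^ g κ ^ (n ^ 2)`: the only change is a factor of
absolute value `1` in the Fourier formula. -/
def StLclt : Prop := ∀ (S G : Type) [Fintype S] [Group G] [Finite G] [MulAction G S]
  [IsPretransitive G S] (z : G) (_ : ∀ s : S, z • z • s = s)
  (X : Finset S) (_ : ∀ s, s ∈ X ↔ z • s ∉ X) (n N : ℕ) (M : MatSys S G z n N) (p : ℕ)
  [Fact p.Prime], p ≠ 2 → ¬ p ∣ N → ∀ a : ℝ, 0 ≤ a → a * (n ^ 2 : ℕ) ≤ X.card →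
  ∀ B : Matrix (Fin n) (Fin n) ℤ,
  ({e : S → ℤ | IsSgn z e ∧ ∑ s, e s • M.Φ s = B}.ncard : ℝ)
    ≤ 2 ^ X.card * cosAvg p a ^ (n ^ 2)

/-- The number of singular integer matrices; the exponent is `n ^ 2 - 2` for `n = 2` and
`n ^ 2 - 3` for `n ≥ 3`.

Proof. (1) Rank at most `n - 2`: there are `n - 2` rows such that all rows lie in their rational span
(choose which, `2 ^ n` possibilities, add rows if the rank is smaller). These rows have at most
`(2 R + 1) ^ (n (n - 2))` values, and each of the two other rows at most `(2 R + 1) ^ (n - 2)` (integer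
points of a subspace of dimension `r` with coordinates at most `R`: a projection to `r` coordinates
is injective). Total `2 ^ n (2 R + 1) ^ (n ^ 2 - 4)` for `n ≥ 2`.
(2) Rank `n - 1`, with primitive kernel vector `v` (`B v = 0`), let `|v j|` be maximal. The rows lie in
`Λ = {a ∈ ℤ ^ n : a ⬝ v = 0}`, and the rows span `Λ ⊗ ℚ`. Forget the coordinate `j`: `Λ` is mapped
injectively onto the group `Λ' = {b ∈ ℤ ^ (n-1) : ∑_{i ≠ j} v i b i ≡ 0 mod v j}`, which has index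
`|v j|` in `ℤ ^ (n - 1)` because `v` is primitive, and which contains `n - 1` independent points with
coordinates at most `R`. Lemma: a subgroup `Λ'` of index `I` in `ℤ ^ d` with `d` independent points
`a 1, …, a d` in the box `[-R, R] ^ d` has at most `(2 (d + 1) R + 1) ^ d / I` points in this box.
Proof: every class modulo `Λ'` has a representative `∑ t i a i`, `0 ≤ t i < 1`, in the box
`[- d R, d R] ^ d`; the sums of a point of `Λ'` in `[-R, R] ^ d` and a representative are different,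
and lie in `[- (d+1) R, (d+1) R] ^ d`. So there are at most `((2 n R + 1) ^ (n - 1) / |v|) ^ n`
matrices with kernel vector `v`, `|v| = max |v i|`. Here `|v| ≤ (n R) ^ n`: the
vector of the minors of `n - 1` independent rows is a nonzero integral multiple of `v`.
`∑_v |v| ^ (- n) ≤ ∑_{k ≤ (n R) ^ n} 2 n (2 k + 1) ^ (n - 1) k ^ (- n) ≤ C (1 + log R)`. Total
`C R ^ (n ^ 2 - n) (1 + log R)`, and `n ≥ min n 3`. -/
def StSing : Prop := ∀ n : ℕ, 2 ≤ n → ∃ C : ℝ, 0 < C ∧ ∀ R : ℕ, 1 ≤ R →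
  ({B : Matrix (Fin n) (Fin n) ℤ | (∀ i j, |B i j| ≤ R) ∧ B.det = 0}.ncard : ℝ)
    ≤ C * (R : ℝ) ^ (n ^ 2 - min n 3) * (1 + Real.log R)

/-- Tails of sums of signs (Hoeffding). Here `g = X.card`.

Proof. `∑ s, e s c s = 2 ∑_{x ∈ X} e x c x` for odd `c` and a sign function. The mean of
`exp (t ∑_{x ∈ X} e x c x)` is `∏ cosh (t c x) ≤ exp (t ^ 2 g H ^ 2 / 2)`; take `t = T / (g H ^ 2)` and
use Markov's inequality for both signs. -/
def StTail : Prop := ∀ (S G : Type) [Fintype S] [Group G] [MulAction G S] (z : G)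
  (_ : ∀ s : S, z • z • s = s) (X : Finset S) (_ : ∀ s, s ∈ X ↔ z • s ∉ X) (c : S → ℝ)
  (_ : ∀ s, c (z • s) = - c s) (H T : ℝ), 0 < H → (∀ s, |c s| ≤ H) → 0 ≤ T →
  ({e : S → ℤ | IsSgn z e ∧ 2 * T < |∑ s, (e s : ℝ) * c s|}.ncard : ℝ)
    ≤ 2 * Real.exp (-(T ^ 2 / (2 * X.card * H ^ 2))) * 2 ^ X.card

/-- Absolutely irreducible spaces of bounded dimension (from `StCoef`, `StLclt`, `StSing`,
`StTail`, `StKappa` and Bertrand's postulate).

Proof. Fix `n`, `2 ≤ n < 200`. For `g` below a constant the claim is trivial (`ncard_isSgn_le`,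
`g ≥ 1`). Let `P` be as in `StCoef`, `H = (4 n ^ 2) ^ n`, `B(e) = adj(P) (∑ s, e s • Φ s) P`. Bad `e` have
`det B(e) = 0`. Let `T = H √(4 g log g)`, `R = ⌈2 T⌉`. By `StTail` (for the functions
`s ↦ (adj(P) Φ s P) i j`) all entries of `B(e)` are at most `R` in absolute value, except for a share
`2 n ^ 2 g ^ (-2)` of the `e`. `B(e)` determines `∑ s, e s • Φ s` (`P` is invertible over `ℚ`), so by
`StLclt` each value of `B(e)` is taken for a share of at most `κ ^ (n ^ 2)` of the `e`, `κ = cosAvg p a`,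
`a = g / n ^ 2`. Choose a prime `p ≥ √g + n + 2`, `p ≤ 4 √g`; it does not divide `N` by the
hypothesis (primes above `n + 1` do not divide `N`), and `κ ≤ 1 / p + 1 / √a ≤ 2 n / √g`
(`StKappa` (2)). So with `b = min n 3`
`x ≤ 2 n ^ 2 g ^ (-2) + (2 n / √g) ^ (n ^ 2) C R ^ (n ^ 2 - b) (1 + log R)
≤ C' (log g) ^ ((n ^ 2 - b) / 2 + 1) g ^ (- b / 2)`. For `n = 2` this is `C' (log g) ^ 2 / g`, for
`n ≥ 3` it is at most `C'' g ^ (- 5/4)`. -/
def StC1small : Prop := ∃ C : ℝ, 0 < C ∧ ∀ (S G : Type) [Fintype S]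
  [Group G] [Finite G] [MulAction G S]
  [IsPretransitive G S] (z : G) (_ : ∀ s : S, z • z • s = s)
  (X : Finset S) (_ : ∀ s, s ∈ X ↔ z • s ∉ X) (n N : ℕ) (M : MatSys S G z n N), 0 < N →
  (∀ p : ℕ, p.Prime → n + 1 < p → ¬ p ∣ N) →
  (n = 2 → (M.sing.ncard : ℝ) ≤ C * (Real.log (X.card + 1) ^ 2 / X.card) * 2 ^ X.card) ∧
  (3 ≤ n → n < 200 → (M.sing.ncard : ℝ) ≤ C * (X.card : ℝ) ^ (-(5 / 4) : ℝ) * 2 ^ X.card)

/-- **Types fixed by the stabilizer, with rational endomorphisms** (from `StMat`, `StC1small`,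
`StThreeA`, `StThreeNum`, `StTwoPrimes`, `StTame`, `ncard_isSgn_le`).

Proof. Take the matrix system of `StMat`, `N = (kerSub G U).index`; primes above `D + 1` do not divide
`N` (`StTame`). (1), and (2) for `D < 200`: `StC1small`. (2) for `D ≥ 200`: `StThreeA` and `StThreeNum`
with `x = #sing / 2 ^ g`; `g ^ (- 27/20) ≤ g ^ (- 5/4)`. (3) `StTwoPrimes` with `δ = 1/1000`: for
`g ^ (1/100) < D` and `g` large `D ≥ n₀`; for small `g` the claim is trivial, as `D ≥ 1` and `C` is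
large. -/
def StSplit : Prop := ∃ C : ℝ, 0 < C ∧ ∀ (S G : Type) [Fintype S] [Group G]
  [Finite G] [MulAction G S] [IsPretransitive G S] (s₀ : S) (z : G) (_ : ∀ γ : G, γ * z = z * γ)
  (_ : ∀ s : S, z • z • s = s)
  (X : Finset S) (_ : ∀ s, s ∈ X ↔ z • s ∉ X) (U : Submodule ℚ (S → ℚ)), IsIrr G U →
  IsOddSp z U → U ≤ invF ℚ (stabilizer G s₀) → finrank ℚ (endF G U) = 1 →
  (finrank ℚ U = 2 →
    ((badSet z U).ncard : ℝ) ≤ C * (Real.log (X.card + 1) ^ 2 / X.card) * 2 ^ X.card) ∧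
  (3 ≤ finrank ℚ U → (finrank ℚ U : ℝ) ≤ (X.card : ℝ) ^ (1 / 100 : ℝ) →
    ((badSet z U).ncard : ℝ) ≤ C * (X.card : ℝ) ^ (-(5 / 4) : ℝ) * 2 ^ X.card) ∧
  ((X.card : ℝ) ^ (1 / 100 : ℝ) < finrank ℚ U →
    ((badSet z U).ncard : ℝ) ≤ C * (X.card : ℝ) ^ (1 / 1000 - 1 : ℝ)
      * (finrank ℚ U : ℝ) ^ (3 / 2 : ℝ) * 2 ^ X.card)

end Pool.Agent.Lib.MP_640417_ag.Full
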