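import Pool.Agent.Lib.MP_640417_ag.Full.SpecC
import Pool.Agent.Lib.MP_640417_ag.Far.Field

/-!
# Subgroups containing the stabilizer of an embedding and subfields
-/

set_option autoImplicit false

namespace Pool.Agent.Lib.MP_640417_ag.Full

open Module Finset MulAction NumberField Pool.Agent.Lib.MP_640417_ag.Far

section

variable {E : Type} [Field E] [NumberField E]

private lemma corr_exists_mem (φ₀ : Emb E) (H : Subgroup (galGroup E))
    (hH : stabilizer (galGroup E) φ₀ ≤ H) (w : AlgebraicClosure ℚ)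
    (hw : ∀ τ : AbsGal, galOf E τ ∈ H → τ w = w) : ∃ x ∈ fixAt φ₀ H, φ₀ x = w := by
  obtain ⟨y, hy⟩ := exists_preimage_of_fixed_emb φ₀ w (by
    intro τ hτ
    apply hw
    apply hH
    exact hτ)
  refine ⟨y, ?_, hy⟩
  intro ν hν
  obtain ⟨n, hn⟩ := exists_galOf ν
  rw [← hn, galOf_smul, galEmb_apply, hy]
  apply hw
  rw [hn]
  exact hν

private lemma corr_mem_of_agree (φ₀ : Emb E) (H : Subgroup (galGroup E))
    (hH : stabilizer (galGroup E) φ₀ ≤ H) (γ : galGroup E)
    (h : ∀ x ∈ fixAt φ₀ H, (γ • φ₀ : Emb E) x = φ₀ x) : γ ∈ H := by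
  classical
  obtain ⟨τ₁, hτ₁⟩ := exists_galOf γ
  let I : Emb E → AlgebraicClosure ℚ := fun χ => if χ ∈ orbit H φ₀ then 1 else 0
  have hbij : ∀ τ : AbsGal, Function.Bijective (fun φ : Emb E => galEmb τ φ) := by
    intro τ
    let _ := galAction E
    exact MulAction.bijective τ
  have hInv : ∀ τ : AbsGal, galOf E τ ∈ H → ∀ χ, I (galEmb τ χ) = I χ := by
    intro τ hτ χ
    have : galEmb τ χ ∈ orbit H φ₀ ↔ χ ∈ orbit H φ₀ := by
      have h1 : galEmb τ χ = (⟨galOf E τ, hτ⟩ : H) • χ := rfl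
      rw [h1, ← orbit_eq_iff, ← orbit_eq_iff, orbit_smul]
    simp only [I, this]
  have hfix : ∀ y : E, ∀ τ : AbsGal, galOf E τ ∈ H →
      τ (∑ χ : Emb E, I χ * χ y) = ∑ χ : Emb E, I χ * χ y := by
    intro y τ hτ
    rw [map_sum]
    apply Fintype.sum_bijective (fun χ => galEmb τ χ) (hbij τ)
    intro χ
    rw [map_mul, hInv τ hτ]
    congr 1
    simp only [I]
    split_ifs <;> simp
  have hval : ∀ y : E, ∀ τ : AbsGal,
      τ (∑ χ : Emb E, I χ * χ y) = ∑ χ : Emb E, I (galEmb τ⁻¹ χ) * χ y := by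
    intro y τ
    rw [map_sum]
    apply Fintype.sum_bijective (fun χ => galEmb τ χ) (hbij τ)
    intro χ
    have h1 : galEmb τ⁻¹ (galEmb τ χ) = χ := by
      let _ := galAction E
      exact inv_smul_smul τ χ
    rw [map_mul, h1]
    congr 1
    simp only [I]
    split_ifs <;> simp
  have hkey : ∀ y : E, ∑ χ : Emb E, I (galEmb τ₁⁻¹ χ) * χ y = ∑ χ : Emb E, I χ * χ y := by
    intro y
    obtain ⟨x, hx, hxw⟩ := corr_exists_mem φ₀ H hH _ (hfix y)
    rw [← hval, ← hxw, ← galEmb_apply, ← galOf_smul, hτ₁]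
    exact h x hx
  have h1 := coeff_eq _ _ hkey (γ • φ₀)
  have h2 : galEmb τ₁⁻¹ (γ • φ₀ : Emb E) = φ₀ := by
    rw [← hτ₁, galOf_smul]
    let _ := galAction E
    exact inv_smul_smul τ₁ φ₀
  rw [h2] at h1
  have h3 : (γ • φ₀ : Emb E) ∈ orbit H φ₀ := by
    by_contra h4
    simp only [I, if_neg h4, if_pos (mem_orbit_self φ₀)] at h1
    exact one_ne_zero h1
  obtain ⟨ν, hν⟩ := h3
  have hν' : ν.1 • φ₀ = γ • φ₀ := hν
  have h5 : (ν.1)⁻¹ * γ ∈ stabilizer (galGroup E) φ₀ := by
    rw [mem_stabilizer_iff, mul_smul, ← hν', inv_smul_smul]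
  have h6 : γ = ν.1 * ((ν.1)⁻¹ * γ) := by group
  rw [h6]
  exact H.mul_mem ν.2 (hH h5)

/-- The values of a translate are the images of the values. -/
private lemma corr_smul_congr (φ ψ : Emb E) (x : E) (h : φ x = ψ x) (γ : galGroup E) :
    (γ • φ : Emb E) x = (γ • ψ : Emb E) x := by
  obtain ⟨τ, hτ⟩ := exists_of_galGroup γ
  rw [hτ, hτ, galEmb_apply, galEmb_apply, h]

/-- Every embedding of a subfield is the restriction of one of the conjugates of `φ₀`. -/
private lemma corr_exists_ext (F : IntermediateField ℚ E) (φ₀ : Emb E)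
    (f : F →+* AlgebraicClosure ℚ) : ∃ γ : galGroup E, ∀ x : F, (γ • φ₀ : Emb E) x = f x := by
  have halg : Algebra.IsAlgebraic ℚ E := inferInstance
  obtain ⟨φ, hφ⟩ := exists_lift_of_embeddings (E := F) (L := E) (M := AlgebraicClosure ℚ) halg
    F.val.toRingHom f
  have : IsPretransitive (galGroup E) (Emb E) := isPretransitive_galGroup
  obtain ⟨γ, hγ⟩ := exists_smul_eq (galGroup E) φ₀ φ
  refine ⟨γ, fun x => ?_⟩
  rw [hγ]
  exact hφ x

private lemma corr_finrank (φ₀ : Emb E) (H : Subgroup (galGroup E))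
    (hH : stabilizer (galGroup E) φ₀ ≤ H) : finrank ℚ (fixAt φ₀ H) = H.index := by
  have hnf : NumberField (fixAt φ₀ H) := inferInstance
  rw [← Embeddings.card (fixAt φ₀ H) (AlgebraicClosure ℚ), ← Nat.card_eq_fintype_card]
  unfold Subgroup.index
  symm
  let g : (galGroup E ⧸ H) → (fixAt φ₀ H →+* AlgebraicClosure ℚ) :=
    Quotient.lift (fun γ : galGroup E => (γ • φ₀ : Emb E).comp (fixAt φ₀ H).val.toRingHom) (by
      intro a b hab
      have hab' : a⁻¹ * b ∈ H := QuotientGroup.leftRel_apply.mp hab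
      apply RingHom.ext
      intro x
      have h1 := x.2 (a⁻¹ * b) hab'
      have h2 := corr_smul_congr _ _ _ h1 a
      rw [← mul_smul, mul_inv_cancel_left] at h2
      exact h2.symm)
  apply Nat.card_congr
  refine Equiv.ofBijective g ⟨?_, ?_⟩
  · intro a b
    induction a using Quotient.inductionOn with
    | h a =>
      induction b using Quotient.inductionOn with
      | h b =>
        intro hab
        apply Quotient.sound
        apply QuotientGroup.leftRel_apply.mpr
        apply corr_mem_of_agree φ₀ H hH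
        intro x hx
        have h1 : (a • φ₀ : Emb E) x = (b • φ₀ : Emb E) x :=
          congrArg (fun f : fixAt φ₀ H →+* AlgebraicClosure ℚ => f ⟨x, hx⟩) hab
        have h2 := corr_smul_congr _ _ _ h1 a⁻¹
        rw [← mul_smul, ← mul_smul, inv_mul_cancel, one_smul] at h2
        exact h2.symm
  · intro f
    obtain ⟨γ, hγ⟩ := corr_exists_ext (fixAt φ₀ H) φ₀ f
    refine ⟨Quotient.mk _ γ, ?_⟩
    apply RingHom.ext
    intro x
    exact hγ x

private lemma corr_fixAt_eq_fixF (φ₀ : Emb E) (H : Subgroup (galGroup E)) [H.Normal] :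
    fixAt φ₀ H = fixF H := by
  apply le_antisymm
  · intro x hx
    rw [mem_fixF]
    intro φ ν hν
    have : IsPretransitive (galGroup E) (Emb E) := isPretransitive_galGroup
    obtain ⟨δ, rfl⟩ := exists_smul_eq (galGroup E) φ₀ φ
    have h0 : δ⁻¹ * ν * δ ∈ H := by
      have := (inferInstance : H.Normal).conj_mem ν hν δ⁻¹
      rwa [inv_inv] at this
    have h1 := hx _ h0
    have h2 := corr_smul_congr _ _ _ h1 δ
    rw [← mul_smul] at h2
    rw [← mul_smul]
    have h3 : δ * (δ⁻¹ * ν * δ) = ν * δ := by group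
    rw [h3] at h2
    exact h2
  · intro x hx
    rw [mem_fixAt]
    intro ν hν
    exact hx φ₀ ν hν

private lemma corr_isGalois (F F' : IntermediateField ℚ E) (h : F = F') (hg : IsGalois ℚ F') :
    IsGalois ℚ F := by
  subst h
  exact hg

end

theorem pCorr : StCorr := by
  intro E _ _ _ φ₀ z hz
  refine ⟨?_, ?_⟩
  · intro H H' hH hH' heq
    apply le_antisymm
    · intro γ hγ
      apply corr_mem_of_agree φ₀ H' hH'
      intro x hx
      rw [← heq] at hx
      exact hx γ hγ
    · intro γ hγ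
      apply corr_mem_of_agree φ₀ H hH
      intro x hx
      rw [heq] at hx
      exact hx γ hγ
  · intro H hH
    refine ⟨corr_finrank φ₀ H hH, ?_, ?_⟩
    · intro hn
      exact corr_isGalois _ _ (corr_fixAt_eq_fixF φ₀ H) (isGalois_fixF H φ₀ hH)
    · intro hzH
      by_contra hcon
      push Not at hcon
      apply hzH
      apply corr_mem_of_agree φ₀ H hH
      intro x hx
      rw [hz, conjEmb_apply, hcon x hx]

end Pool.Agent.Lib.MP_640417_ag.Full
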