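import Pool.Agent.Lib.MP_640417_ag.Full.SpecA
import Pool.Agent.Lib.MP_640417_ag.Far.Bad
import Pool.Agent.Lib.MP_640417_ag.Far.Red
import Pool.Agent.Lib.MP_640417_ag.Far.BN
import Pool.Agent.Lib.MP_640417_ag.Far.BNcore

/-!
# The number of sign functions orthogonal to some copy
-/

namespace Pool.Agent.Lib.MP_640417_ag.Full

open Module Finset MulAction Pool.Agent.Lib.MP_640417_ag.Far

theorem pBadE (hCountE : StCountE) : StBadE := by
  intro S G _ _ _ _ _ s₀ z hzz X hX U hU0 hU hodd p _ hp2 hpN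
  classical
  have hpp : p.Prime := Fact.out
  set T : Set (Submodule (ZMod p) (S → ZMod p)) := copies G (red p U) with hT
  have hTfin : T.Finite := Set.toFinite _
  have hfin : ∀ M : Submodule (ZMod p) (S → ZMod p), {e : S → ℤ | IsSgn z e ∧ Perp e M}.Finite :=
    fun M => finite_isSgn z _
  have hBN : StBN := bn_of_core bnCore red_rank
  have hsub : badSet z U ⊆ ⋃ M ∈ T, {e : S → ℤ | IsSgn z e ∧ Perp e M} := by
    rintro e ⟨he, U', hU', hiso, hperp⟩
    exact Set.mem_iUnion₂.mpr ⟨red p U', ⟨red_stab p U' hU', hBN S G p U U' hU hU' hiso hpN⟩,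
      he, red_perp p e U' hperp⟩
  have hcount := hCountE S G s₀ p U hU0 hU hpN
  have hcount' : ((p : ℝ) - 1) ^ finrank ℚ (endF G U) * T.ncard
      ≤ (p : ℝ) ^ finrank ℚ ↥(U ⊓ invF ℚ (stabilizer G s₀)) := by
    have h4 : (((p - 1) ^ finrank ℚ (endF G U) * T.ncard : ℕ) : ℝ)
        ≤ ((p ^ finrank ℚ ↥(U ⊓ invF ℚ (stabilizer G s₀)) : ℕ) : ℝ) := by exact_mod_cast hcount
    push_cast [Nat.cast_sub hpp.one_lt.le] at h4
    exact h4
  have hp1 : (0 : ℝ) ≤ (p : ℝ) - 1 := by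
    have : (1 : ℝ) ≤ p := by exact_mod_cast hpp.one_lt.le
    linarith
  have key : ∀ K : ℝ, 0 ≤ K → (∀ M ∈ T, ({e : S → ℤ | IsSgn z e ∧ Perp e M}.ncard : ℝ) ≤ K) →
      ((p : ℝ) - 1) ^ finrank ℚ (endF G U) * (badSet z U).ncard
        ≤ (p : ℝ) ^ finrank ℚ ↥(U ⊓ invF ℚ (stabilizer G s₀)) * K := by
    intro K hK0 hK
    have h4 := ncard_le_of_subset_biUnion T hTfin _ (fun M _ => hfin M) K hK _ hsub
    calc ((p : ℝ) - 1) ^ finrank ℚ (endF G U) * (badSet z U).ncard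
        ≤ ((p : ℝ) - 1) ^ finrank ℚ (endF G U) * (T.ncard * K) :=
          mul_le_mul_of_nonneg_left h4 (pow_nonneg hp1 _)
      _ = (((p : ℝ) - 1) ^ finrank ℚ (endF G U) * T.ncard) * K := by ring
      _ ≤ _ := mul_le_mul_of_nonneg_right hcount' hK0
  have hrank : ∀ M ∈ T, finrank (ZMod p) M = finrank ℚ U := by
    rintro M ⟨-, hM⟩
    rw [← hM.finrank_eq]
    exact red_rank S p U
  have hoddM : ∀ M ∈ T, IsOddSp z M := by
    rintro M ⟨-, hM⟩
    exact hM.odd z (red_odd p z U hodd)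
  refine ⟨fun a ha haD => key _ ?_ ?_, key _ (by positivity) ?_⟩
  · exact mul_nonneg (by positivity) (pow_nonneg (cosAvg_nonneg a) _)
  · intro M hM
    have h5 := ncard_orth_le (p := p) hp2 z hzz X hX M (hoddM M hM) hM.1 a ha
      (by rw [hrank M hM]; exact haD)
    rw [hrank M hM] at h5
    exact h5
  · intro M hM
    have h5 := ncard_perp_le z hzz X hX p hp2 M (hoddM M hM)
    rw [hrank M hM] at h5
    exact h5

end Pool.Agent.Lib.MP_640417_ag.Full
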