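import Pool.Agent.Lib.MP_640417_ag.Full.Defs

/-!
# All CM fields: statements of the steps, Gaussian part

The aim is `StGauss`: for a real irreducible space `Y` of odd functions of small dimension `n` the
share of sign functions orthogonal to some copy of `Y` is at most `C n ^ 3 g ^ (- 1/5)`.
`gpi ι` is the product of standard normal distributions on `ι → ℝ`.
-/

namespace Pool.Agent.Lib.MP_640417_ag.Full

open Module Finset MulAction MeasureTheory ProbabilityTheory Pool.Agent.Lib.MP_640417_ag.Far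

/-- Two-point smoothing against Gaussian smoothing.

Proof. Let `u = δ ^ 2`, `φ` the standard normal density. The three integrals are integrals of `f`
against the densities `p₁ = φ(y) exp (- u / 2) cosh (δ y)` (mean of two translates) and
`p₂(y) = (1 + u) ^ (-1/2) φ(y / √(1 + u))`. By Cauchy Schwarz (`0 ≤ f ≤ 1`)
`|∫ f (p₁ - p₂)| ≤ ∫ |p₁ - p₂| ≤ (∫ (p₁ - p₂) ^ 2 / φ) ^ (1/2)`, and with the moment generating
function of the normal distribution `∫ p₁ ^ 2 / φ = exp (- u) (1 + exp (2 u)) / 2 = cosh u`,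
`∫ p₁ p₂ / φ = exp (u ^ 2 / 2)`, `∫ p₂ ^ 2 / φ = (1 - u ^ 2) ^ (-1/2)`. For `0 ≤ u ≤ 1/4`
`cosh u - 2 exp (u ^ 2 / 2) + (1 - u ^ 2) ^ (-1/2) ≤ C ^ 2 u ^ 4` (the expansion starts with
`u ^ 4 / 6`; use `cosh u ≤ 1 + u ^ 2 / 2 + u ^ 4 / 12`, `exp t ≥ 1 + t`,
`(1 - t) ^ (-1/2) ≤ 1 + t / 2 + t ^ 2` for `0 ≤ t ≤ 1/16`). Take the square root.
(Another route: `F(t) = ∫ f (y + t) dγ(y)` has a bounded fourth derivative, expand at `0`.) -/
def StTV : Prop := ∃ C : ℝ, 0 < C ∧ ∀ δ : ℝ, 0 ≤ δ → δ ≤ 1 / 2 → ∀ f : ℝ → ℝ, Measurable f →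
  (∀ y, 0 ≤ f y) → (∀ y, f y ≤ 1) →
  |((∫ y, f (y + δ) ∂(gaussianReal 0 1)) + ∫ y, f (y - δ) ∂(gaussianReal 0 1)) / 2
    - ∫ y, f (Real.sqrt (1 + δ ^ 2) * y) ∂(gaussianReal 0 1)| ≤ C * δ ^ 4

/-- One step: replace a random sign by a normal variable (from `StTV`).

Proof. If `v = 0` the left side is `0`. Let `w = v / |v|` (Euclidean norm), `δ = |v| / s ≤ 1/2`. By
rotation invariance of `gpi ι` (the standard Gaussian measure of the Euclidean space; in Mathlib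
`stdGaussian`, or argue with an orthonormal basis containing `w`) `y` has the law of `y' + t w` with
`t` standard normal on `ℝ` and `y'` independent of it. For fixed `y'` put
`f(t) = 1_B (c + s y' + s t w)`. Then `c ± v + s y` corresponds to `f (t ± δ)`, and
`c + r v + s y`, `r` normal, corresponds to `f (t + r δ)`, where `t + r δ` is normal with variance
`1 + δ ^ 2`. `StTV`, and integrate over `y'`. -/
def StStep : Prop := ∃ C : ℝ, 0 < C ∧ ∀ (ι : Type) [Fintype ι] (v c : ι → ℝ) (s : ℝ), 0 < s →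
  ∑ i, v i ^ 2 ≤ (s / 2) ^ 2 → ∀ B : Set (ι → ℝ), MeasurableSet B →
  |((gpi ι).real {y | c + v + s • y ∈ B} + (gpi ι).real {y | c - v + s • y ∈ B}) / 2
    - ∫ t, (gpi ι).real {y | c + t • v + s • y ∈ B} ∂(gaussianReal 0 1)|
    ≤ C * ((∑ i, v i ^ 2) / s ^ 2) ^ 2

/-- Replace all signs by normal variables (from `StStep`).

Proof. Replace the signs one after the other (induction over the finite set `X`), each step costs
`C (|v x| / s) ^ 4` by `StStep`, applied for fixed values of the other signs and normal variables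
(Fubini). At the end the left side has become the probability of
`∑ x, t x • v x + s • y ∈ B` with `t x`, `y` independent standard normal, and by the frame condition
`∑ x, t x • v x + s • y` is Gaussian with covariance `(ρ + s ^ 2) • 1`, so it has the law of
`√(ρ + s ^ 2) • y` (characteristic functions or `stdGaussian` under a linear map). -/
def StHybrid : Prop := ∃ C : ℝ, 0 < C ∧ ∀ (ι κ : Type) [Fintype ι] [Fintype κ] [DecidableEq κ]
  (v : κ → ι → ℝ) (s ρ : ℝ), 0 < s → 0 ≤ ρ →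
  (∀ u : ι → ℝ, ∑ x, (∑ i, v x i * u i) ^ 2 = ρ * ∑ i, u i ^ 2) →
  (∀ x, ∑ i, v x i ^ 2 ≤ (s / 2) ^ 2) → ∀ B : Set (ι → ℝ), MeasurableSet B →
  (∑ σ : κ → Bool, (gpi ι).real {y | (∑ x, (if σ x then (1 : ℝ) else -1) • v x) + s • y ∈ B})
      / 2 ^ Fintype.card κ
    ≤ (gpi ι).real {y | Real.sqrt (ρ + s ^ 2) • y ∈ B}
      + C * ∑ x, ((∑ i, v x i ^ 2) / s ^ 2) ^ 2

/-- The distance of one normal vector to the span of the others.

Proof. The set is open: it is the union over `d` of the open sets `{y | … < r ^ 2}`; so it is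
measurable. For fixed values of the rows `y (l, ·)`, `l ≠ j`, the vectors
`∑_{l ≠ j} d l (y (l, ·))`, `d l ∈ 𝔻`, form a subspace of dimension at most
`(k - 1) * finrank 𝔻 < n`; choose a unit vector `u` orthogonal to it. Then the condition implies
`|∑ i, y (j, i) * u i| < r`, and `∑ i, y (j, i) * u i` is standard normal, with density at most
`1 / √(2 π) ≤ 1 / 2`, so the conditional probability is at most `r`. Fubini (split
`Fin k × Fin n → ℝ` into the row `j` and the other rows). -/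
def StDist : Prop := ∀ (k n : ℕ) (𝔻 : Submodule ℝ ((Fin n → ℝ) →ₗ[ℝ] (Fin n → ℝ))),
  (k - 1) * finrank ℝ 𝔻 < n → ∀ (j : Fin k) (r : ℝ), 0 < r →
  (gpi (Fin k × Fin n)).real {y | ∃ d : Fin k → 𝔻,
    ∑ i, (y (j, i) + ∑ l ∈ Finset.univ.erase j, (d l).1 (fun i' => y (l, i')) i) ^ 2 < r ^ 2} ≤ r

/-- Schur's lemma for real irreducible spaces of functions, with the inner product
`∑ s, f s * f' s`.

Proof. The translations are orthogonal. The adjoint of `d ∈ endF G Y` (with respect to the inner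
product of `Y`) is in `endF G Y`. A self-adjoint `d ∈ endF G Y` has a real eigenvalue, its
eigenspace is stable, hence everything: `d` is a scalar. So the adjoint times `d` is a nonnegative
scalar `c ^ 2`, which is (1); if `d ≠ 0` then `c ≠ 0` and `d` has the inverse `c ^ (-2) d^*`, which
is (2). (3): the form `(y, y') ↦ ∑ s, θ y s * θ' y' s` on `Y` is of the form `⟨y, d y'⟩` with a
linear `d`, and `d` is equivariant because the form is invariant under all translations. -/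
def StSchurR : Prop := ∀ (S G : Type) [Fintype S] [Group G] [Finite G] [MulAction G S]
  (Y : Submodule ℝ (S → ℝ)), IsIrr G Y →
  (∀ d ∈ endF G Y, ∃ c : ℝ, ∀ y : Y, ∑ s, (d y).1 s ^ 2 = c ^ 2 * ∑ s, y.1 s ^ 2) ∧
  (∀ d ∈ endF G Y, d ≠ 0 → ∃ d' ∈ endF G Y, d'.comp d = LinearMap.id) ∧
  (∀ θ ∈ homF G Y, ∀ θ' ∈ homF G Y, ∃ d ∈ endF G Y, ∀ y y' : Y,
    ∑ s, θ y s * θ' y' s = ∑ s, y.1 s * (d y').1 s)

/-- The structure of the space of all copies of a real irreducible space (from `StSchurR`).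

Proof. Let `𝓗 = homF G Y`, `n = dim Y`, `E = endF G Y` (a real division algebra acting on `𝓗` by
`θ ↦ θ ∘ d`). For `θ, θ' ∈ 𝓗` let `θ^*θ' ∈ E` be the `d` of `StSchurR` (3), and
`⟨θ, θ'⟩ = tr (θ^*θ') / n`. This is an inner product; `θ^*θ` is self-adjoint, so it is the
scalar `⟨θ, θ⟩`. Choose `θ 1, …, θ k ∈ 𝓗` such that `⟨θ i, θ i⟩ = 1`, `θ i ∘ E ⟂ θ j ∘ E` for
`i ≠ j` and `𝓗 = ⊕ θ i ∘ E` (take orthogonal complements repeatedly, they are stable under `E`). If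
`⟨θ i ∘ d, θ j⟩ = 0` for all `d ∈ E` then `tr (d^* θ i^*θ j) = 0` for all `d`, so `θ i^*θ j = 0`: the
images of the `θ i` are orthogonal and `θ i` is isometric. Let `I = ⊕ θ i (Y) ⊆ (S → ℝ)`, it is
stable, of dimension `k n`, and contains every `θ y`, `θ ∈ 𝓗`. Identify `Y` with `Fin n → ℝ` by an
orthonormal basis `b i`, and let `v s (j, i) = θ j (b i) s` be the coordinates of the projection to
`I` of the indicator function of `s`; so `∑ s, w s * v s (j, i) = ⟨θ j (b i), w⟩` for all functions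
`w`. Frame condition: `∑ s (∑ v s (j,i) u (j,i)) ^ 2 = |∑ u (j,i) θ j (b i)| ^ 2 = ∑ u (j,i) ^ 2`.
`∑_{j,i} v s (j,i) ^ 2` is the squared length of the projection to `I` of the indicator of `s`; it
does not depend on `s` because `I` is stable and `G` acts transitively, and its sum over `s` is
`dim I = k n`. `v (z s) = - v s` since `θ j (b i)` is odd (`θ j` is equivariant: apply it to
`b i ∘ z = - b i`). `𝔻` is `E`, transported to `Fin n → ℝ`. `k * dim E = dim 𝓗 ≤ n` (evaluation at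
`s₀` embeds `𝓗` into the dual of `Y`), and `1 ≤ dim E`, `1 ≤ n`; so `k ≤ n` and
`(k - 1) * finrank 𝔻 < n`. `1 ≤ k` as the inclusion is in `𝓗`.
Last condition: let `e` be orthogonal to the copy `θ (Y)`, `0 ≠ θ ∈ 𝓗`, `θ = ∑ θ j ∘ d j`. For all
`y ∈ Y` `0 = ⟨θ y, e⟩ = ∑ j ⟨θ j (d j y), e⟩ = ∑ j ⟨d j y, w j⟩` with `w j = ∑ i ⟨θ j (b i), e⟩ b i`
the `j`-th row of `∑ s, e s • v s`; so `∑ j (d j)^* w j = 0`. Choose `j₀` with `|d j₀|` (the
`c ≥ 0` of (1)) maximal, multiply by the inverse of `(d j₀)^*`: `w j₀ + ∑_{l ≠ j₀} d' l (w l) = 0`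
with `d' l = ((d j₀)^*)⁻¹ (d l)^*` of norm at most `1`. -/
def StStruct : Prop := ∀ (S G : Type) [Fintype S] [Group G] [Finite G] [MulAction G S]
  [IsPretransitive G S] (z : G) (_ : ∀ s : S, z • z • s = s)
  (Y : Submodule ℝ (S → ℝ)), IsIrr G Y → IsOddSp z Y →
  ∃ (k : ℕ) (𝔻 : Submodule ℝ ((Fin (finrank ℝ Y) → ℝ) →ₗ[ℝ] (Fin (finrank ℝ Y) → ℝ)))
    (v : S → Fin k × Fin (finrank ℝ Y) → ℝ),
    1 ≤ k ∧ k ≤ finrank ℝ Y ∧ (k - 1) * finrank ℝ 𝔻 < finrank ℝ Y ∧
    (∀ u : Fin k × Fin (finrank ℝ Y) → ℝ, ∑ s, (∑ i, v s i * u i) ^ 2 = ∑ i, u i ^ 2) ∧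
    (∀ s, Fintype.card S * ∑ i, v s i ^ 2 = k * finrank ℝ Y) ∧
    (∀ s, v (z • s) = - v s) ∧
    ∀ e ∈ badSetF z Y, ∃ (j : Fin k) (d : Fin k → 𝔻),
      (∀ l (y : Fin (finrank ℝ Y) → ℝ), ∑ i, (d l).1 y i ^ 2 ≤ ∑ i, y i ^ 2) ∧
      ∀ i, (∑ s, (e s : ℝ) * v s (j, i)) + ∑ l ∈ Finset.univ.erase j,
        (d l).1 (fun i' => ∑ s, (e s : ℝ) * v s (l, i')) i = 0

/-- **Sign functions orthogonal to a copy of a small real space** (from `StHybrid`, `StDist`,
`StStruct`).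

Proof. Write `n = finrank Y`, `g = X.card`, `ι = Fin k × Fin n`, `μ = gpi ι`, and
`w = ∑ s, e s • v s = ∑_{x ∈ X} e x • (2 v x)` for a sign function `e`. The vectors `2 v x`, `x ∈ X`,
satisfy `∑_{x ∈ X} (∑ i, 2 v x i u i) ^ 2 = 2 ∑ u i ^ 2` and `∑ i (2 v x i) ^ 2 = 2 k n / g`. Put
`s = n ^ (1/2) g ^ (- 1/5)`, `r = 4 s k √(k n)`, and for `j : Fin k`
`A j = {y | ∃ d : Fin k → 𝔻, ∑ i (y (j,i) + ∑_{l ≠ j} d l (y (l,·)) i) ^ 2 < r ^ 2}` (open). If `e` is
bad and `∑ y i ^ 2 ≤ 2 k n`, then with `j, d` as in `StStruct` the vector `w + s y` satisfies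
`(w + s y) (j,·) + ∑ d l ((w + s y) (l,·)) = s (y (j,·) + ∑ d l (y (l,·)))`, of length at most
`s k √(2 k n) < r`. So `w + s y ∈ ⋃ A j`. Now `μ {∑ y i ^ 2 ≤ 2 k n} ≥ 1/2` (Markov, the mean of
`∑ y i ^ 2` is `k n`). So the share of bad `e` is at most `2` times the mean over `e` of
`∑ j μ {y | w + s y ∈ A j}`, and by `StHybrid` (`ρ = 2`, sign patterns on `X` correspond to sign
functions) this is at most `2 ∑ j (μ {y | √(2 + s ^ 2) y ∈ A j} + C g (2 k n / (g s ^ 2)) ^ 2)`.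
`√(2 + s ^ 2) y ∈ A j` iff `y ∈ A j` for the radius `r / √(2 + s ^ 2)`, so by `StDist` the first
term is at most `r`. Together `2 k (r + 4 C k ^ 2 n ^ 2 / (g s ^ 4)) ≤ C' (n ^ 3 s + n ^ 5 / (g s ^ 4))`,
and this is larger than wanted by a power of `n`; we therefore claim `n ^ 4`:
`n ^ 3 s = n ^ (7/2) g ^ (- 1/5)`, `n ^ 5 / (g s ^ 4) = n ^ 3 g ^ (- 1/5)`. The hypothesis
`∑ (2 v x i) ^ 2 ≤ (s / 2) ^ 2` of `StHybrid` is `2 k n / g ≤ n g ^ (- 2/5) / 4`, true if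
`8 n ≤ g ^ (3/5)`; otherwise the claimed bound exceeds `1`. -/
def StGauss : Prop := ∃ C : ℝ, 0 < C ∧ ∀ (S G : Type) [Fintype S] [Group G] [Finite G]
  [MulAction G S] [IsPretransitive G S] (z : G) (_ : ∀ s : S, z • z • s = s)
  (X : Finset S) (_ : ∀ s, s ∈ X ↔ z • s ∉ X) (Y : Submodule ℝ (S → ℝ)), IsIrr G Y →
  IsOddSp z Y →
  ((badSetF z Y).ncard : ℝ)
    ≤ C * (finrank ℝ Y : ℝ) ^ 4 * (X.card : ℝ) ^ (-(1 / 5) : ℝ) * 2 ^ X.card

end Pool.Agent.Lib.MP_640417_ag.Full
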