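import Pool.Agent.Lib.MP_640417_ag.Full.SpecA
import Pool.Agent.Lib.MP_640417_ag.Full.SpecG
import Pool.Agent.Lib.MP_640417_ag.Far.Main
import Pool.Agent.Lib.MP_640417_ag.Far.Red
import Pool.Agent.Lib.MP_640417_ag.Far.Index
import Pool.Agent.Lib.MP_640417_ag.Far.Semi
import Pool.Agent.Lib.MP_640417_ag.Far.Tame

/-!
# Types of large dimension
-/

namespace Pool.Agent.Lib.MP_640417_ag.Full

open Module Finset MulAction Pool.Agent.Lib.MP_640417_ag.Far

private lemma Big_ker_red {S G : Type} [Group G] [MulAction G S] (p : ℕ) [Fact p.Prime]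
    (U : Submodule ℚ (S → ℚ)) : kerSub G U ≤ kerSub G (red p U) := by
  intro γ hγ w hw s
  obtain ⟨v, hv, hwv⟩ := hw
  have h1 := hγ _ hv s
  simp only [Int.cast_inj] at h1
  rw [hwv, hwv, h1]

private lemma Big_one_le {S G F : Type} [Finite S] [Group G] [MulAction G S] [Field F]
    (U : Submodule F (S → F)) (hU0 : U ≠ ⊥) : 1 ≤ finrank F (endF G U) := by
  obtain ⟨f, hf, hf0⟩ := Submodule.exists_mem_ne_zero_of_ne_bot hU0
  have hfin : Module.Finite F (endF G U) := inferInstance
  let _ : AddCommGroup (endF G U) := @Submodule.addCommGroup F (U →ₗ[F] U) _ _ _ (endF G U)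
  have hne : Nontrivial (endF G U) := by
    refine ⟨⟨⟨LinearMap.id, one_mem_endF G U⟩, 0, ?_⟩⟩
    intro h
    have h1 := congrArg Subtype.val h
    have h4 : (⟨f, hf⟩ : U) = 0 := LinearMap.congr_fun h1 ⟨f, hf⟩
    exact hf0 (congrArg Subtype.val h4)
  exact Module.finrank_pos (R := F) (M := endF G U)

theorem pBig (hBigNum : StBigNum) (hBadE : StBadE) (hSub : StSub) (hPrimEl : StPrimEl)
    (hMinLift : StMinLift) (hEndGe : StEndGe) (hReal : StReal) (hGauss : StGauss) : StBig := by
  obtain ⟨C₁, hC₁, hG⟩ := hGauss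
  obtain ⟨C, hC, hnum⟩ := hBigNum C₁ hC₁.le
  refine ⟨C, hC, ?_⟩
  intro S G _ _ _ _ _ s₀ z hzz X hX U hirr hodd m hm hmD hbig
  classical
  have hU0 : U ≠ ⊥ := hirr.1
  have hU : IsStab G U := hirr.2.1
  have h2g : (0 : ℝ) < 2 ^ X.card := by positivity
  have hcardS : 2 * X.card = Fintype.card S :=
    two_mul_card_transversal (fun s : S => z • s) hzz X hX
  have hXpos : 0 < X.card := by
    have : 0 < Fintype.card S := Fintype.card_pos_iff.mpr ⟨s₀⟩
    omega
  set x : ℝ := ((badSet z U).ncard : ℝ) / 2 ^ X.card with hx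
  have hx0 : 0 ≤ x := by positivity
  have hbad : ((badSet z U).ncard : ℝ) = x * 2 ^ X.card := by
    rw [hx]
    field_simp
  have hx1 : x ≤ 1 := by
    rw [hx, div_le_one h2g]
    have h1 := ncard_isSgn_le z hzz X hX (fun e => ∃ U' : Submodule ℚ (S → ℚ), IsStab G U' ∧
      IsoF G U U' ∧ Perp e U')
    exact_mod_cast h1
  have hD0 : 0 < finrank ℚ U := by
    rw [Nat.pos_iff_ne_zero]
    intro h
    exact hU0 (Submodule.finrank_eq_zero.mp h)
  have he : 1 ≤ finrank ℚ (endF G U) := Big_one_le U hU0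
  have hhD : finrank ℚ ↥(U ⊓ invF ℚ (stabilizer G s₀)) ≤ finrank ℚ U :=
    Submodule.finrank_mono inf_le_left
  have hhalf : (X.card : ℝ) ^ (1 / 2 : ℝ) ≤ finrank ℚ U := by
    refine le_trans ?_ hbig
    apply Real.rpow_le_rpow_of_exponent_le
    · exact_mod_cast hXpos
    · norm_num
  have hN : 0 < (kerSub G U).index := Nat.pos_of_ne_zero Subgroup.index_ne_zero_of_finite
  have hfinal := hnum X.card (finrank ℚ U) (finrank ℚ ↥(U ⊓ invF ℚ (stabilizer G s₀)))
    (finrank ℚ (endF G U)) m (kerSub G U).index x he hm hhD hmD hhalf hN hx0 hx1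
    (by
      intro r hr
      have h1 := index_of semi S G s₀ U hirr r hr
      rw [← hcardS] at h1
      exact_mod_cast h1)
    (tame S G U hU)
    (by
      intro p _ hp2 hpN
      have h1 := (hBadE S G s₀ z hzz X hX U hU0 hU hodd p hp2 hpN).2
      rw [hbad] at h1
      have h2 : (((p : ℝ) - 1) ^ finrank ℚ (endF G U) * x) * 2 ^ X.card
          ≤ ((p : ℝ) ^ finrank ℚ ↥(U ⊓ invF ℚ (stabilizer G s₀)) * (1 / 2) ^ finrank ℚ U)
            * 2 ^ X.card := by linarith
      exact le_of_mul_le_mul_right h2 h2g)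
    (by
      intro p _ hp2 hpN w₀
      by_cases hW : ∃ W : Submodule (ZMod p) (S → ZMod p), W ≠ ⊥ ∧ W ≤ red p U ∧ IsStab G W ∧
          finrank (ZMod p) W < w₀
      · left
        obtain ⟨W, hW0, hWle, hWs, hWw⟩ := hW
        refine ⟨finrank (ZMod p) W, ?_, hWw, ?_⟩
        · rw [Nat.one_le_iff_ne_zero]
          intro h
          exact hW0 (Submodule.finrank_eq_zero.mp h)
        · intro a ha haw
          have h1 := hSub S G s₀ z hzz X hX U hU hodd p hp2 hpN W hW0 hWle hWs a ha haw
          rw [hbad] at h1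
          have h2 : (((p : ℝ) - 1) * x) * 2 ^ X.card
              ≤ ((p : ℝ) ^ finrank (ZMod p) W * cosAvg p a ^ finrank (ZMod p) W)
                * 2 ^ X.card := by linarith
          exact le_of_mul_le_mul_right h2 h2g
      · right
        push Not at hW
        have hred : finrank (ZMod p) (red p U) = finrank ℚ U := red_rank S p U
        have hred0 : red p U ≠ ⊥ := by
          intro h
          rw [h, finrank_bot] at hred
          omega
        have hidx : ¬ p ∣ (kerSub G (red p U)).index := by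
          intro h
          exact hpN (h.trans (Subgroup.index_dvd_of_le (Big_ker_red p U)))
        obtain ⟨φ, hφ, hφ1⟩ := hPrimEl S G p (red p U) hred0 (red_stab p U hU) hidx w₀ hW
        obtain ⟨θ, hθ, hθ1⟩ := hMinLift S G p U hU hpN φ hφ
        obtain ⟨Y, hYirr, hYodd, hY1, hY2⟩ := hReal S G z U hirr hodd θ hθ
        refine ⟨finrank ℝ Y, (minpoly ℚ θ).natDegree, ?_, hY1, ?_⟩
        · rw [hred] at hφ1
          calc finrank ℚ (endF G U) * w₀ ^ 2
              ≤ finrank (ZMod p) (endF G (red p U)) * w₀ ^ 2 :=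
                Nat.mul_le_mul_right _ (hEndGe S G p U hU)
            _ ≤ (minpoly (ZMod p) φ).natDegree * finrank ℚ U ^ 2 := hφ1
            _ ≤ _ := Nat.mul_le_mul_right _ hθ1
        · have h1 := hG S G z hzz X hX Y hYirr hYodd
          have hfin : (badSetF z Y).Finite := finite_isSgn z _
          have h2 : ((badSet z U).ncard : ℝ) ≤ (badSetF z Y).ncard := by
            exact_mod_cast Set.ncard_le_ncard hY2 hfin
          rw [hx, div_le_iff₀ h2g]
          exact h2.trans h1)
  rw [hbad]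
  exact mul_le_mul_of_nonneg_right hfinal h2g.le

end Pool.Agent.Lib.MP_640417_ag.Full
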