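import Pool.Agent.Lib.MP_640417_ag.Full.SpecA
import Pool.Agent.Lib.MP_640417_ag.Far.Num

/-!
# The numerical bound for types of large dimension
-/

namespace Pool.Agent.Lib.MP_640417_ag.Full

open Module Finset Pool.Agent.Lib.MP_640417_ag.Far

/-- If `h = 0` then `x = 0`. -/
lemma bigNum_zero {D e N : ℕ} {x : ℝ} (he : 1 ≤ e) (hN : 0 < N)
    (hB : ∀ (p : ℕ) [Fact p.Prime], p ≠ 2 → ¬ p ∣ N →
      ((p : ℝ) - 1) ^ e * x ≤ (p : ℝ) ^ 0 * (1 / 2) ^ D) : x ≤ 0 := by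
  by_contra hx
  push Not at hx
  obtain ⟨p, hp1, hp⟩ := Nat.exists_infinite_primes (N + 3 + ⌈1 / x⌉₊)
  have : Fact p.Prime := ⟨hp⟩
  have hpN : ¬ p ∣ N := fun h => by
    have := Nat.le_of_dvd hN h
    omega
  have h1 := hB p (by omega) hpN
  have h2 : ((1 : ℝ) / 2) ^ D ≤ 1 := pow_le_one₀ (by norm_num) (by norm_num)
  have h3 : (3 : ℝ) + 1 / x ≤ p := by
    have k1 : ((3 + ⌈1 / x⌉₊ : ℕ) : ℝ) ≤ p := by
      have : 3 + ⌈1 / x⌉₊ ≤ p := by omega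
      exact_mod_cast this
    push_cast at k1
    have k2 := Nat.le_ceil (1 / x)
    linarith
  have h4 : 0 < 1 / x := by positivity
  have h5 : ((p : ℝ) - 1) ≤ ((p : ℝ) - 1) ^ e := by
    calc (p : ℝ) - 1 = ((p : ℝ) - 1) ^ 1 := by ring
      _ ≤ ((p : ℝ) - 1) ^ e := pow_le_pow_right₀ (by linarith) he
  have h6 : ((p : ℝ) - 1) * x ≤ 1 := by
    calc ((p : ℝ) - 1) * x ≤ ((p : ℝ) - 1) ^ e * x := mul_le_mul_of_nonneg_right h5 hx.le
      _ ≤ (p : ℝ) ^ 0 * (1 / 2) ^ D := h1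
      _ ≤ 1 := by rw [pow_zero, one_mul]; exact h2
  have h7 : (1 / x + 1) * x ≤ ((p : ℝ) - 1) * x := mul_le_mul_of_nonneg_right (by linarith) hx.le
  have h8 : (1 / x + 1) * x = 1 + x := by
    field_simp
  linarith

/-- The case of small `h`. -/
lemma bigNum_one {g D h e N : ℕ} {x : ℝ} (hg : 1 ≤ g) (hD : 1 ≤ D)
    (hgD : (g : ℝ) ^ (1 / 2 : ℝ) ≤ D) (hx0 : 0 ≤ x)
    (hc : 8 * (h : ℝ) * (Real.log (4 * D) / Real.log 2) ≤ D)
    (htame : ∀ p : ℕ, p.Prime → D + 1 < p → ¬ p ∣ N)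
    (hB : ∀ (p : ℕ) [Fact p.Prime], p ≠ 2 → ¬ p ∣ N →
      ((p : ℝ) - 1) ^ e * x ≤ (p : ℝ) ^ h * (1 / 2) ^ D) :
    x ≤ (g : ℝ) ^ (-(1 / 200) : ℝ) := by
  obtain ⟨p, hp, hp1, hp2⟩ := Nat.exists_prime_lt_and_le_two_mul (D + 1) (by omega)
  have : Fact p.Prime := ⟨hp⟩
  have hb := hB p (by omega) (htame p hp hp1)
  have hlog2 : 0 < Real.log 2 := Real.log_pos (by norm_num)
  have hlog2' : 0.6931471803 < Real.log 2 := Real.log_two_gt_d9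
  have hg1 : (1 : ℝ) ≤ g := by exact_mod_cast hg
  have hg0 : (0 : ℝ) < g := by linarith
  have hD1 : (1 : ℝ) ≤ D := by exact_mod_cast hD
  have hp3 : (3 : ℝ) ≤ p := by
    have : 3 ≤ p := by omega
    exact_mod_cast this
  have hx1 : x ≤ (p : ℝ) ^ h * (1 / 2) ^ D := by
    have e1 : (1 : ℝ) ≤ ((p : ℝ) - 1) ^ e := one_le_pow₀ (by linarith)
    have e2 : x ≤ ((p : ℝ) - 1) ^ e * x := by nlinarith
    linarith
  have hp4 : (p : ℝ) ≤ 4 * D := by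
    have : p ≤ 4 * D := by omega
    exact_mod_cast this
  have hph : (p : ℝ) ^ h ≤ Real.exp (D * (Real.log 2 / 8)) := by
    calc (p : ℝ) ^ h ≤ (4 * D) ^ h := by gcongr
      _ = Real.exp (h * Real.log (4 * D)) := by
        rw [Real.exp_nat_mul, Real.exp_log (by positivity)]
      _ ≤ Real.exp (D * (Real.log 2 / 8)) := by
        apply Real.exp_le_exp.2
        have e1 : (h : ℝ) * Real.log (4 * D)
            = (8 * (h : ℝ) * (Real.log (4 * D) / Real.log 2)) * (Real.log 2 / 8) := by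
          field_simp
        rw [e1]
        exact mul_le_mul_of_nonneg_right hc (by positivity)
  have hhalf : ((1 : ℝ) / 2) ^ D = Real.exp (- (D * Real.log 2)) := by
    rw [Real.exp_neg, Real.exp_nat_mul, Real.exp_log (by norm_num), one_div, inv_pow]
  have hx2 : x ≤ Real.exp (- (D * (7 * Real.log 2 / 8))) := by
    calc x ≤ (p : ℝ) ^ h * (1 / 2) ^ D := hx1
      _ ≤ Real.exp (D * (Real.log 2 / 8)) * Real.exp (- (D * Real.log 2)) := by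
        rw [hhalf]
        gcongr
      _ = Real.exp (- (D * (7 * Real.log 2 / 8))) := by
        rw [← Real.exp_add]
        congr 1
        ring
  have hlg : Real.log g / 200 ≤ D * (7 * Real.log 2 / 8) := by
    have hs1 : 0 < (g : ℝ) ^ (1 / 2 : ℝ) := Real.rpow_pos_of_pos hg0 _
    have e1 : Real.log g = 2 * Real.log ((g : ℝ) ^ (1 / 2 : ℝ)) := by
      rw [Real.log_rpow hg0]
      ring
    have e2 : Real.log ((g : ℝ) ^ (1 / 2 : ℝ)) ≤ (g : ℝ) ^ (1 / 2 : ℝ) - 1 :=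
      Real.log_le_sub_one_of_pos hs1
    nlinarith
  calc x ≤ Real.exp (- (D * (7 * Real.log 2 / 8))) := hx2
    _ ≤ Real.exp (- (Real.log g / 200)) := Real.exp_le_exp.2 (by linarith)
    _ = (g : ℝ) ^ (-(1 / 200) : ℝ) := by
      rw [Real.rpow_def_of_pos hg0]
      congr 1
      ring

/-- The existence of the prime. -/
lemma bigNum_prime {P₀ : ℝ} (hP : ∀ P : ℝ, P₀ ≤ P → ∀ N : ℕ, 0 < N → 4 * Real.log N ≤ P →
    ∃ p : ℕ, p.Prime ∧ P / 8 < p ∧ (p : ℝ) ≤ P ∧ ¬ p ∣ N ∧ p ≠ 2)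
    {g D h N : ℕ} {s : ℝ} (hh : 1 ≤ h) (hhD : h ≤ D) (hDg : D ≤ g)
    (hN : 0 < N) (hl1 : Real.log (4 * g) ≤ s * (Real.log 2 / 2)) (hl2 : 2 ≤ s)
    (hl3 : P₀ ≤ s ^ 5) (hc : (D : ℝ) < 8 * (h : ℝ) * (Real.log (4 * D) / Real.log 2))
    (hr : ∀ r : ℕ, (D : ℝ) * (1 - (h : ℝ) / D) ^ r < 1 → (N : ℝ) ≤ (2 * g : ℝ) ^ r) :
    ∃ p : ℕ, p.Prime ∧ s ^ 5 / 8 < p ∧ (p : ℝ) ≤ s ^ 5 ∧ ¬ p ∣ N ∧ p ≠ 2 := by
  have hlog2 : 0 < Real.log 2 := Real.log_pos (by norm_num)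
  have hlog2' : Real.log 2 < 0.6931471808 := Real.log_two_lt_d9
  have hD : 1 ≤ D := le_trans hh hhD
  have hg1 : (1 : ℝ) ≤ g := by exact_mod_cast le_trans hD hDg
  have hg0 : (0 : ℝ) < g := by linarith
  have hh1 : (1 : ℝ) ≤ h := by exact_mod_cast hh
  have hh0 : (0 : ℝ) < h := by linarith
  have hD1 : (1 : ℝ) ≤ D := by exact_mod_cast hD
  have hD0 : (0 : ℝ) < D := by linarith
  have hDgR : (D : ℝ) ≤ g := by exact_mod_cast hDg
  have hs0 : 0 < s := by linarith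
  obtain ⟨r, hr1, hr2⟩ := num_exponent hh hhD
  have hNr := hr r hr2
  have hlogG : Real.log g ≤ s * (Real.log 2 / 2) :=
    le_trans (Real.log_le_log hg0 (by linarith)) hl1
  have hlog4D : Real.log (4 * D) ≤ s * (Real.log 2 / 2) :=
    le_trans (Real.log_le_log (by linarith) (by linarith)) hl1
  have hlog2G : Real.log (2 * g) ≤ s * (Real.log 2 / 2) :=
    le_trans (Real.log_le_log (by linarith) (by linarith)) hl1
  have hlog2G0 : 0 ≤ Real.log (2 * g) := Real.log_nonneg (by linarith)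
  have hL : Real.log (4 * D) / Real.log 2 ≤ s / 2 := by
    rw [div_le_iff₀ hlog2]
    linarith
  have hrle : (r : ℝ) ≤ (4 * s) * (s * (Real.log 2 / 2)) + 1 := by
    have e1 : (D : ℝ) / h ≤ 4 * s := by
      rw [div_le_iff₀ hh0]
      calc (D : ℝ) ≤ 8 * (h : ℝ) * (Real.log (4 * D) / Real.log 2) := hc.le
        _ ≤ 8 * (h : ℝ) * (s / 2) := by gcongr
        _ = 4 * s * h := by ring
    have e2 : Real.log D ≤ s * (Real.log 2 / 2) :=
      le_trans (Real.log_le_log hD0 hDgR) hlogG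
    have e3 : 0 ≤ Real.log D := Real.log_nonneg hD1
    have e4 : (D : ℝ) / h * Real.log D ≤ (4 * s) * (s * (Real.log 2 / 2)) := by
      apply mul_le_mul e1 e2 e3 (by positivity)
    linarith
  have hlogN : Real.log N ≤ ((4 * s) * (s * (Real.log 2 / 2)) + 1) * (s * (Real.log 2 / 2)) := by
    have hN0 : (0 : ℝ) < N := by exact_mod_cast hN
    calc Real.log N ≤ Real.log ((2 * (g : ℝ)) ^ r) := Real.log_le_log hN0 hNr
      _ = r * Real.log (2 * g) := by rw [Real.log_pow]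
      _ ≤ _ := by
        apply mul_le_mul hrle hlog2G hlog2G0
        positivity
  have h4N : 4 * Real.log N ≤ s ^ 5 := by
    set c := Real.log 2 with hcdef
    have hc1 : c ≤ 0.7 := by linarith
    have e2 : 4 * (((4 * s) * (s * (c / 2)) + 1) * (s * (c / 2)))
        = 4 * c ^ 2 * s ^ 3 + 2 * c * s := by
      ring
    have e3 : c ^ 2 ≤ 0.49 := by
      calc c ^ 2 ≤ 0.7 ^ 2 := by gcongr
        _ = 0.49 := by norm_num
    have e4 : 4 * s ≤ s ^ 3 := by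
      have : 4 ≤ s ^ 2 := by
        calc (4 : ℝ) = 2 ^ 2 := by norm_num
          _ ≤ s ^ 2 := by gcongr
      calc 4 * s ≤ s ^ 2 * s := by gcongr
        _ = s ^ 3 := by ring
    have e5 : 0 < s ^ 3 := by positivity
    have e6 : 2 * c * s ≤ 0.35 * s ^ 3 := by
      calc 2 * c * s ≤ 2 * 0.7 * s := by gcongr
        _ = 0.35 * (4 * s) := by ring
        _ ≤ 0.35 * s ^ 3 := by gcongr
    have e7 : 4 * c ^ 2 * s ^ 3 ≤ 4 * 0.49 * s ^ 3 := by gcongr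
    have e8 : 4 * s ^ 3 ≤ s ^ 5 := by
      have : 4 ≤ s ^ 2 := by
        calc (4 : ℝ) = 2 ^ 2 := by norm_num
          _ ≤ s ^ 2 := by gcongr
      calc 4 * s ^ 3 ≤ s ^ 2 * s ^ 3 := by gcongr
        _ = s ^ 5 := by ring
    linarith
  exact hP (s ^ 5) hl3 N hN h4N

/-- The first alternative. -/
lemma bigNum_alt1 (hKappa : StKappa) {g w p : ℕ} [Fact p.Prime] {s x : ℝ} (hp2 : p ≠ 2)
    (hg : 1 ≤ g) (hsg : s ^ 1000 = g) (hl1 : Real.log (4 * g) ≤ s * (Real.log 2 / 2))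
    (hl2 : 2 ≤ s) (hx0 : 0 ≤ x) (hp8 : s ^ 5 / 8 < p) (hpP : (p : ℝ) ≤ s ^ 5) (hw1 : 1 ≤ w)
    (hw : (w : ℝ) < s ^ 985)
    (hA : ∀ a : ℝ, 0 ≤ a → a * w ≤ g → ((p : ℝ) - 1) * x ≤ (p : ℝ) ^ w * cosAvg p a ^ w) :
    x ≤ 32 / s ^ 5 := by
  have hlog2 : 0 < Real.log 2 := Real.log_pos (by norm_num)
  have hlog2' : Real.log 2 < 0.6931471808 := Real.log_two_lt_d9
  have hlog2'' : 0.6931471803 < Real.log 2 := Real.log_two_gt_d9
  have hs0 : 0 < s := by linarith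
  have hs1 : 1 ≤ s := by linarith
  have hg1 : (1 : ℝ) ≤ g := by exact_mod_cast hg
  have hg0 : (0 : ℝ) < g := by linarith
  have hw1r : (1 : ℝ) ≤ w := by exact_mod_cast hw1
  have hw0 : (0 : ℝ) < w := by linarith
  have hpp : p.Prime := Fact.out
  have hp0 : (0 : ℝ) < p := by exact_mod_cast hpp.pos
  have hp2r : (2 : ℝ) ≤ p := by exact_mod_cast hpp.two_le
  set a : ℝ := (g : ℝ) / w with ha
  have ha0 : 0 ≤ a := by positivity
  have ha15 : s ^ 15 ≤ a := by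
    rw [ha, le_div_iff₀ hw0, ← hsg]
    calc s ^ 15 * (w : ℝ) ≤ s ^ 15 * s ^ 985 := by gcongr
      _ = s ^ 1000 := by ring
  have hpa : (p : ℝ) ^ 2 * s ^ 5 ≤ a := by
    calc (p : ℝ) ^ 2 * s ^ 5 ≤ (s ^ 5) ^ 2 * s ^ 5 := by gcongr
      _ = s ^ 15 := by ring
      _ ≤ a := ha15
  have hs5 : 1 ≤ s ^ 5 := one_le_pow₀ hs1
  have hpa1 : (p : ℝ) ^ 2 ≤ a := by
    calc (p : ℝ) ^ 2 = (p : ℝ) ^ 2 * 1 := by ring
      _ ≤ (p : ℝ) ^ 2 * s ^ 5 := by gcongr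
      _ ≤ a := hpa
  have hk := (hKappa p hp2).1 a hpa1
  have hexp1 : Real.exp (-(4 * a / (p : ℝ) ^ 2)) ≤ Real.exp (-(4 * s ^ 5)) := by
    apply Real.exp_le_exp.2
    have : 4 * s ^ 5 ≤ 4 * a / (p : ℝ) ^ 2 := by
      rw [le_div_iff₀ (by positivity)]
      calc 4 * s ^ 5 * (p : ℝ) ^ 2 = 4 * ((p : ℝ) ^ 2 * s ^ 5) := by ring
        _ ≤ 4 * a := by gcongr
    linarith
  have hk2 : (p : ℝ) * cosAvg p a ≤ Real.exp (3 * Real.exp (-(4 * s ^ 5))) := by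
    have := Real.add_one_le_exp (3 * Real.exp (-(4 * s ^ 5)))
    linarith
  have hlogg : Real.log g ≤ s ^ 5 := by
    have e1 : Real.log g ≤ Real.log (4 * g) := Real.log_le_log hg0 (by linarith)
    have e2 : s * (Real.log 2 / 2) ≤ s := by nlinarith
    have e3 : s ≤ s ^ 5 := by
      calc s = s ^ 1 := by ring
        _ ≤ s ^ 5 := pow_le_pow_right₀ hs1 (by norm_num)
    linarith
  have hwg : (w : ℝ) ≤ g := by
    rw [← hsg]
    exact hw.le.trans (pow_le_pow_right₀ hs1 (by norm_num))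
  have hsmall : (w : ℝ) * (3 * Real.exp (-(4 * s ^ 5))) ≤ Real.log 2 := by
    have e1 : (w : ℝ) ≤ Real.exp (s ^ 5) := by
      calc (w : ℝ) ≤ g := hwg
        _ = Real.exp (Real.log g) := (Real.exp_log hg0).symm
        _ ≤ Real.exp (s ^ 5) := Real.exp_le_exp.2 hlogg
    have e2 : (w : ℝ) * (3 * Real.exp (-(4 * s ^ 5))) ≤ 3 * Real.exp (-3) := by
      calc (w : ℝ) * (3 * Real.exp (-(4 * s ^ 5)))
          ≤ Real.exp (s ^ 5) * (3 * Real.exp (-(4 * s ^ 5))) := by gcongr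
        _ = 3 * Real.exp (s ^ 5 + -(4 * s ^ 5)) := by
            rw [Real.exp_add]
            ring
        _ ≤ 3 * Real.exp (-3) := by
            have : Real.exp (s ^ 5 + -(4 * s ^ 5)) ≤ Real.exp (-3) :=
              Real.exp_le_exp.2 (by linarith)
            linarith
    have e3 : Real.exp (-3) ≤ 1 / 8 := by
      have e4 : (8 : ℝ) ≤ Real.exp 3 := by
        have k1 : (2 : ℝ) ≤ Real.exp 1 := by
          have := Real.exp_one_gt_d9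
          linarith
        calc (8 : ℝ) = 2 ^ 3 := by norm_num
          _ ≤ (Real.exp 1) ^ 3 := by gcongr
          _ = Real.exp 3 := by
              rw [← Real.exp_nat_mul]
              norm_num
      rw [Real.exp_neg, ← one_div]
      exact one_div_le_one_div_of_le (by norm_num) e4
    linarith
  have hpw : ((p : ℝ) * cosAvg p a) ^ w ≤ 2 := by
    have hκ0 : 0 ≤ (p : ℝ) * cosAvg p a := mul_nonneg hp0.le (cosAvg_nonneg a)
    calc ((p : ℝ) * cosAvg p a) ^ w ≤ (Real.exp (3 * Real.exp (-(4 * s ^ 5)))) ^ w :=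
          pow_le_pow_left₀ hκ0 hk2 w
      _ = Real.exp (w * (3 * Real.exp (-(4 * s ^ 5)))) := by rw [← Real.exp_nat_mul]
      _ ≤ Real.exp (Real.log 2) := Real.exp_le_exp.2 hsmall
      _ = 2 := Real.exp_log (by norm_num)
  have hmain := hA a ha0 (by rw [ha, div_mul_cancel₀ _ hw0.ne'])
  rw [← mul_pow] at hmain
  have h1 : (p : ℝ) / 2 * x ≤ 2 := by
    have : (p : ℝ) / 2 * x ≤ ((p : ℝ) - 1) * x := mul_le_mul_of_nonneg_right (by linarith) hx0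
    linarith
  have h2 : s ^ 5 / 16 * x ≤ 2 := by
    have : s ^ 5 / 16 * x ≤ (p : ℝ) / 2 * x := mul_le_mul_of_nonneg_right (by linarith) hx0
    linarith
  rw [le_div_iff₀ (by positivity)]
  linarith

/-- The second alternative. -/
lemma bigNum_alt2 {g D h e m n μ w₀ : ℕ} {s x C₁ : ℝ} (hC₁ : 0 ≤ C₁) (hm : 1 ≤ m) (hD : 1 ≤ D)
    (hhm : h = m * e) (hmD : m * D ≤ g) (hsg : s ^ 1000 = g)
    (hl1 : Real.log (4 * g) ≤ s * (Real.log 2 / 2)) (hl2 : 2 ≤ s)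
    (hc : (D : ℝ) < 8 * (h : ℝ) * (Real.log (4 * D) / Real.log 2)) (hw : s ^ 985 ≤ w₀)
    (h1 : e * w₀ ^ 2 ≤ μ * D ^ 2) (h2 : n * μ ≤ 2 * D)
    (hx : x ≤ C₁ * (n : ℝ) ^ 4 / s ^ 200) : x ≤ 4096 * C₁ / s ^ 5 := by
  have hlog2 : 0 < Real.log 2 := Real.log_pos (by norm_num)
  have hs0 : 0 < s := by linarith
  have hs1 : 1 ≤ s := by linarith
  have hDg : D ≤ g := by
    calc D = 1 * D := by ring
      _ ≤ m * D := Nat.mul_le_mul_right D hm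
      _ ≤ g := hmD
  have hD1 : (1 : ℝ) ≤ D := by exact_mod_cast hD
  have hD0 : (0 : ℝ) < D := by linarith
  have hDgR : (D : ℝ) ≤ g := by exact_mod_cast hDg
  have hg0 : (0 : ℝ) < g := by linarith
  have hL : Real.log (4 * D) / Real.log 2 ≤ s / 2 := by
    have hlog4D : Real.log (4 * D) ≤ s * (Real.log 2 / 2) :=
      le_trans (Real.log_le_log (by linarith) (by linarith)) hl1
    rw [div_le_iff₀ hlog2]
    linarith
  have hDh : (D : ℝ) ≤ 4 * s * h := by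
    calc (D : ℝ) ≤ 8 * (h : ℝ) * (Real.log (4 * D) / Real.log 2) := hc.le
      _ ≤ 8 * (h : ℝ) * (s / 2) := by gcongr
      _ = 4 * s * h := by ring
  have h1r : (e : ℝ) * (w₀ : ℝ) ^ 2 ≤ (μ : ℝ) * (D : ℝ) ^ 2 := by exact_mod_cast h1
  have h2r : (n : ℝ) * (μ : ℝ) ≤ 2 * (D : ℝ) := by exact_mod_cast h2
  have hmDr : (m : ℝ) * (D : ℝ) ≤ g := by exact_mod_cast hmD
  have hhmr : (h : ℝ) = m * e := by exact_mod_cast hhm
  have hn0 : (0 : ℝ) ≤ n := Nat.cast_nonneg n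
  have he0 : (0 : ℝ) ≤ e := Nat.cast_nonneg e
  have hw0 : (0 : ℝ) ≤ w₀ := Nat.cast_nonneg w₀
  -- `n * e * w₀ ^ 2 ≤ 2 D ^ 3`
  have k1 : (n : ℝ) * ((e : ℝ) * (w₀ : ℝ) ^ 2) ≤ 2 * (D : ℝ) ^ 3 := by
    calc (n : ℝ) * ((e : ℝ) * (w₀ : ℝ) ^ 2) ≤ n * (μ * (D : ℝ) ^ 2) := by gcongr
      _ = (n * μ) * (D : ℝ) ^ 2 := by ring
      _ ≤ (2 * D) * (D : ℝ) ^ 2 := by gcongr
      _ = 2 * (D : ℝ) ^ 3 := by ring
  -- `D ^ 2 ≤ 4 s e g`
  have k2 : (D : ℝ) ^ 2 ≤ 4 * s * (e * g) := by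
    calc (D : ℝ) ^ 2 = D * D := by ring
      _ ≤ (4 * s * h) * D := by gcongr
      _ = 4 * s * (e * (m * D)) := by rw [hhmr]; ring
      _ ≤ 4 * s * (e * g) := by gcongr
  have k3 : (D : ℝ) ^ 2 * (n * (w₀ : ℝ) ^ 2) ≤ (D : ℝ) ^ 2 * (8 * s * (g : ℝ) ^ 2) := by
    calc (D : ℝ) ^ 2 * (n * (w₀ : ℝ) ^ 2) ≤ (4 * s * (e * g)) * (n * (w₀ : ℝ) ^ 2) := by gcongr
      _ = 4 * s * g * (n * ((e : ℝ) * (w₀ : ℝ) ^ 2)) := by ring
      _ ≤ 4 * s * g * (2 * (D : ℝ) ^ 3) := by gcongr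
      _ = (D : ℝ) ^ 2 * (8 * s * (g * D)) := by ring
      _ ≤ (D : ℝ) ^ 2 * (8 * s * (g * g)) := by gcongr
      _ = (D : ℝ) ^ 2 * (8 * s * (g : ℝ) ^ 2) := by ring
  have k4 : (n : ℝ) * (w₀ : ℝ) ^ 2 ≤ 8 * s * (g : ℝ) ^ 2 := le_of_mul_le_mul_left k3 (by positivity)
  have k5 : (n : ℝ) * (s ^ 985) ^ 2 ≤ (8 * s ^ 31) * (s ^ 985) ^ 2 := by
    calc (n : ℝ) * (s ^ 985) ^ 2 ≤ n * (w₀ : ℝ) ^ 2 := by gcongr
      _ ≤ 8 * s * (g : ℝ) ^ 2 := k4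
      _ = (8 * s ^ 31) * (s ^ 985) ^ 2 := by rw [← hsg]; ring
  have k6 : (n : ℝ) ≤ 8 * s ^ 31 := le_of_mul_le_mul_right k5 (by positivity)
  have k7 : (n : ℝ) ^ 4 ≤ 4096 * s ^ 124 := by
    calc (n : ℝ) ^ 4 ≤ (8 * s ^ 31) ^ 4 := by gcongr
      _ = 4096 * s ^ 124 := by ring
  refine hx.trans ?_
  rw [div_le_div_iff₀ (by positivity) (by positivity)]
  calc C₁ * (n : ℝ) ^ 4 * s ^ 5 ≤ C₁ * (4096 * s ^ 124) * s ^ 5 := by gcongr
    _ = 4096 * C₁ * s ^ 129 := by ring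
    _ ≤ 4096 * C₁ * s ^ 200 := by
        have : s ^ 129 ≤ s ^ 200 := pow_le_pow_right₀ hs1 (by norm_num)
        gcongr

theorem pBigNum (hPrime : StPrime) (hKappa : StKappa) : StBigNum := by
  intro C₁ hC₁
  obtain ⟨P₀, hP⟩ := hPrime
  obtain ⟨g₀, hg₀1, hlarge⟩ := num_large (8 / 1000) (by norm_num) (by norm_num) P₀
  refine ⟨(g₀ : ℝ) ^ (1 / 200 : ℝ) + 32 + 4096 * C₁, by positivity, ?_⟩
  intro g D h e m N x he hhm hhD hmD hgD hN hx0 hx1 hr htame hB hdich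
  have hg₀0 : (0 : ℝ) < g₀ := by exact_mod_cast hg₀1
  rcases Nat.eq_zero_or_pos m with hm0 | hm
  · have hh0 : h = 0 := by rw [hhm, hm0, zero_mul]
    rw [hh0] at hB
    have h1 := bigNum_zero he hN hB
    exact h1.trans (by positivity)
  have hh1 : 1 ≤ h := by
    rw [hhm]
    exact Nat.mul_pos hm he
  have hD1 : 1 ≤ D := le_trans hh1 hhD
  have hDg : D ≤ g := by
    calc D = 1 * D := by ring
      _ ≤ m * D := Nat.mul_le_mul_right D hm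
      _ ≤ g := hmD
  have hg1 : 1 ≤ g := le_trans hD1 hDg
  have hg1r : (1 : ℝ) ≤ g := by exact_mod_cast hg1
  have hg0 : (0 : ℝ) < g := by linarith
  have hpos : 0 < (g : ℝ) ^ (-(1 / 200) : ℝ) := Real.rpow_pos_of_pos hg0 _
  by_cases hgg : g < g₀
  · -- bounded `g`
    have e1 : (g : ℝ) ^ (1 / 200 : ℝ) ≤ (g₀ : ℝ) ^ (1 / 200 : ℝ) :=
      Real.rpow_le_rpow hg0.le (by exact_mod_cast hgg.le) (by norm_num)
    have e2 : (1 : ℝ) ≤ (g₀ : ℝ) ^ (1 / 200 : ℝ) * (g : ℝ) ^ (-(1 / 200) : ℝ) := by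
      calc (1 : ℝ) = (g : ℝ) ^ (1 / 200 : ℝ) * (g : ℝ) ^ (-(1 / 200) : ℝ) := by
            rw [← Real.rpow_add hg0]
            norm_num
        _ ≤ _ := mul_le_mul_of_nonneg_right e1 hpos.le
    have e3 : 0 ≤ (32 + 4096 * C₁) * (g : ℝ) ^ (-(1 / 200) : ℝ) := by positivity
    nlinarith
  push Not at hgg
  obtain ⟨hl1, hl2, hl3⟩ := hlarge g hgg
  rw [show (8 / 1000 / 8 : ℝ) = 1 / 1000 by norm_num] at hl1 hl2
  set s : ℝ := (g : ℝ) ^ (1 / 1000 : ℝ) with hs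
  have hs1 : 1 ≤ s := by linarith
  have hs0 : 0 < s := by linarith
  have hspow : ∀ k : ℕ, s ^ k = (g : ℝ) ^ ((k : ℝ) / 1000) := by
    intro k
    rw [hs, ← Real.rpow_natCast, ← Real.rpow_mul hg0.le]
    congr 1
    ring
  have hsg : s ^ 1000 = (g : ℝ) := by
    rw [hspow 1000]
    norm_num
  have hs5 : s ^ 5 = (g : ℝ) ^ (1 / 200 : ℝ) := by
    rw [hspow 5]
    norm_num
  have hs5inv : (g : ℝ) ^ (-(1 / 200) : ℝ) = 1 / s ^ 5 := by
    rw [hs5, Real.rpow_neg hg0.le, inv_eq_one_div]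
  have hl3' : P₀ ≤ s ^ 5 := by
    refine hl3.trans ?_
    rw [hs5]
    exact Real.rpow_le_rpow_of_exponent_le hg1r (by norm_num)
  have hCC : (0 : ℝ) ≤ (g₀ : ℝ) ^ (1 / 200 : ℝ) := by positivity
  by_cases hc : 8 * (h : ℝ) * (Real.log (4 * D) / Real.log 2) ≤ D
  · have h1 := bigNum_one hg1 hD1 hgD hx0 hc htame hB
    refine h1.trans ?_
    have e1 : (1 : ℝ) ≤ (g₀ : ℝ) ^ (1 / 200 : ℝ) + 32 + 4096 * C₁ := by
      have : (0 : ℝ) ≤ 4096 * C₁ := by positivity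
      linarith
    nlinarith
  push Not at hc
  obtain ⟨p, hp, hp8, hpP, hpN, hp2⟩ := bigNum_prime hP hh1 hhD hDg hN hl1 hl2 hl3' hc hr
  have : Fact p.Prime := ⟨hp⟩
  rcases hdich p hp2 hpN ⌈s ^ 985⌉₊ with ⟨w, hw1, hw2, hA⟩ | ⟨n, μ, h1, h2, h3⟩
  · have hw3 : (w : ℝ) < s ^ 985 := Nat.lt_ceil.mp hw2
    have h1 := bigNum_alt1 hKappa hp2 hg1 hsg hl1 hl2 hx0 hp8 hpP hw1 hw3 hA
    rw [hs5inv, mul_one_div]
    refine h1.trans ?_
    gcongr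
    have : (0 : ℝ) ≤ 4096 * C₁ := by positivity
    linarith
  · have h5 : (g : ℝ) ^ (-(1 / 5) : ℝ) = 1 / s ^ 200 := by
      have e200 : s ^ 200 = (g : ℝ) ^ (1 / 5 : ℝ) := by
        rw [hspow 200]
        congr 1
        norm_num
      rw [e200, Real.rpow_neg hg0.le, inv_eq_one_div]
    rw [h5, mul_one_div] at h3
    have h4 := bigNum_alt2 hC₁ hm hD1 hhm hmD hsg hl1 hl2 hc (Nat.le_ceil _) h1 h2 h3
    rw [hs5inv, mul_one_div]
    refine h4.trans ?_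
    gcongr
    linarith

end Pool.Agent.Lib.MP_640417_ag.Full
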