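import Pool.Agent.Lib.MP_640417_ag.Full.SpecA
import Pool.Agent.Lib.MP_640417_ag.Full.SpecB
import Pool.Agent.Lib.MP_640417_ag.FpMain

/-!
# All CM fields: absolutely irreducible spaces of bounded dimension
-/

namespace Pool.Agent.Lib.MP_640417_ag.Full

open Module Finset MulAction Pool.Agent.Lib.MP_640417_ag.Far

section count

variable {S G : Type} [Fintype S] [Group G] [Finite G] [MulAction G S] [IsPretransitive G S]

private lemma C1small_count (hLclt : StLclt) (hTail : StTail) (z : G)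
    (hzz : ∀ s : S, z • z • s = s) (X : Finset S) (hX : ∀ s, s ∈ X ↔ z • s ∉ X) (n N : ℕ)
    (M : MatSys S G z n N) (P : Matrix (Fin n) (Fin n) ℤ) (hP : P.det ≠ 0) (H : ℝ) (hH : 0 < H)
    (hPH : ∀ s i j, |(((P.adjugate * M.Φ s * P) i j : ℤ) : ℝ)| ≤ H) (p : ℕ) [Fact p.Prime]
    (hp2 : p ≠ 2) (hpN : ¬ p ∣ N) (R : ℕ) (T : ℝ) (hT : 0 ≤ T) (hR : 2 * T ≤ R) (a : ℝ)
    (ha0 : 0 ≤ a) (ha : a * (n ^ 2 : ℕ) ≤ X.card) :
    (M.sing.ncard : ℝ) ≤ (n : ℝ) ^ 2 * (2 * Real.exp (-(T ^ 2 / (2 * X.card * H ^ 2)))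
        * 2 ^ X.card)
      + ({B : Matrix (Fin n) (Fin n) ℤ | (∀ i j, |B i j| ≤ R) ∧ B.det = 0}.ncard : ℝ)
        * (2 ^ X.card * cosAvg p a ^ (n ^ 2)) := by
  classical
  -- all sign functions
  have hfin : {e : S → ℤ | IsSgn z e ∧ True}.Finite := finite_isSgn z _
  set E : Finset (S → ℤ) := hfin.toFinset with hE
  have hEmem : ∀ e, e ∈ E ↔ IsSgn z e := by
    intro e
    rw [hE, Set.Finite.mem_toFinset]
    simp
  set A : (S → ℤ) → Matrix (Fin n) (Fin n) ℤ := fun e => ∑ s, e s • M.Φ s with hA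
  set B : (S → ℤ) → Matrix (Fin n) (Fin n) ℤ := fun e => P.adjugate * A e * P with hB
  set c : Fin n → Fin n → S → ℝ := fun i j s => (((P.adjugate * M.Φ s * P) i j : ℤ) : ℝ) with hc
  have hBc : ∀ e i j, ((B e i j : ℤ) : ℝ) = ∑ s, (e s : ℝ) * c i j s := by
    intro e i j
    have h1 : B e = ∑ s, e s • (P.adjugate * M.Φ s * P) := by
      simp only [hB, hA]
      rw [Finset.mul_sum, Finset.sum_mul]
      apply Finset.sum_congr rfl
      intro s _
      rw [Matrix.mul_smul, Matrix.smul_mul]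
    rw [h1, Matrix.sum_apply, Int.cast_sum]
    apply Finset.sum_congr rfl
    intro s _
    rw [Matrix.smul_apply, smul_eq_mul, Int.cast_mul]
  have hcodd : ∀ i j s, c i j (z • s) = - c i j s := by
    intro i j s
    simp only [hc]
    rw [M.odd, Matrix.mul_neg, Matrix.neg_mul, Matrix.neg_apply, Int.cast_neg]
  -- the tails
  have htail : ∀ i j, (({e : S → ℤ | IsSgn z e ∧ 2 * T < |∑ s, (e s : ℝ) * c i j s|}.ncard : ℕ)
      : ℝ) ≤ 2 * Real.exp (-(T ^ 2 / (2 * X.card * H ^ 2))) * 2 ^ X.card := fun i j =>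
    hTail S G z hzz X hX (c i j) (hcodd i j) H T hH (fun s => hPH s i j) hT
  -- bounded singular matrices
  set BS : Set (Matrix (Fin n) (Fin n) ℤ) := {B | (∀ i j, |B i j| ≤ R) ∧ B.det = 0} with hBS
  have hBSfin : BS.Finite := by
    have h1 : (Set.univ.pi fun _ : Fin n => Set.univ.pi fun _ : Fin n =>
        Set.Icc (-(R : ℤ)) R).Finite :=
      Set.Finite.pi fun _ => Set.Finite.pi fun _ => Set.finite_Icc _ _
    refine h1.subset ?_
    intro B hB
    rw [Set.mem_univ_pi]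
    intro i
    rw [Set.mem_univ_pi]
    intro j
    exact abs_le.1 (hB.1 i j)
  set BF : Finset (Matrix (Fin n) (Fin n) ℤ) := hBSfin.toFinset with hBF
  -- the decomposition
  have hsing_sub : M.sing ⊆ ↑((Finset.univ.biUnion fun ij : Fin n × Fin n =>
      E.filter fun e => 2 * T < |∑ s, (e s : ℝ) * c ij.1 ij.2 s|) ∪
      E.filter fun e => B e ∈ BF) := by
    rintro e ⟨he, v, hv, hv0⟩
    rw [Finset.coe_union, Set.mem_union]
    by_cases hbig : ∃ i j, 2 * T < |∑ s, (e s : ℝ) * c i j s|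
    · left
      obtain ⟨i, j, hij⟩ := hbig
      rw [Finset.mem_coe, Finset.mem_biUnion]
      exact ⟨(i, j), Finset.mem_univ _, Finset.mem_filter.2 ⟨(hEmem e).2 he, hij⟩⟩
    · right
      push Not at hbig
      rw [Finset.mem_coe, Finset.mem_filter]
      refine ⟨(hEmem e).2 he, ?_⟩
      rw [hBF, Set.Finite.mem_toFinset]
      refine ⟨fun i j => ?_, ?_⟩
      · have h1 := (hbig i j).trans hR
        rw [← hBc, ← Int.cast_abs] at h1
        exact_mod_cast h1
      · have h1 : (A e).det = 0 := Matrix.exists_mulVec_eq_zero_iff.1 ⟨v, hv, hv0⟩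
        simp only [hB]
        rw [Matrix.det_mul, Matrix.det_mul, h1, mul_zero, zero_mul]
  have h1 : M.sing.ncard ≤ ((Finset.univ.biUnion fun ij : Fin n × Fin n =>
      E.filter fun e => 2 * T < |∑ s, (e s : ℝ) * c ij.1 ij.2 s|) ∪
      E.filter fun e => B e ∈ BF).card := by
    rw [← Set.ncard_coe_finset]
    exact Set.ncard_le_ncard hsing_sub (Finset.finite_toSet _)
  have h2 : ((Finset.univ.biUnion fun ij : Fin n × Fin n =>
      E.filter fun e => 2 * T < |∑ s, (e s : ℝ) * c ij.1 ij.2 s|).card : ℝ) ≤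
      (n : ℝ) ^ 2 * (2 * Real.exp (-(T ^ 2 / (2 * X.card * H ^ 2))) * 2 ^ X.card) := by
    have h3 : ((Finset.univ.biUnion fun ij : Fin n × Fin n =>
        E.filter fun e => 2 * T < |∑ s, (e s : ℝ) * c ij.1 ij.2 s|).card : ℝ) ≤
        ∑ ij : Fin n × Fin n, ((E.filter fun e =>
          2 * T < |∑ s, (e s : ℝ) * c ij.1 ij.2 s|).card : ℝ) := by
      exact_mod_cast Finset.card_biUnion_le
    refine h3.trans ?_
    have h4 : ∀ ij : Fin n × Fin n, ((E.filter fun e =>
          2 * T < |∑ s, (e s : ℝ) * c ij.1 ij.2 s|).card : ℝ) ≤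
        2 * Real.exp (-(T ^ 2 / (2 * X.card * H ^ 2))) * 2 ^ X.card := by
      intro ij
      refine le_trans (le_of_eq ?_) (htail ij.1 ij.2)
      rw [← Set.ncard_coe_finset]
      congr 2
      ext e
      simp [hEmem]
    refine (Finset.sum_le_sum fun ij _ => h4 ij).trans (le_of_eq ?_)
    rw [Finset.sum_const, Finset.card_univ, Fintype.card_prod, Fintype.card_fin, nsmul_eq_mul]
    push_cast
    ring
  have h5 : ((E.filter fun e => B e ∈ BF).card : ℝ) ≤
      (BS.ncard : ℝ) * (2 ^ X.card * cosAvg p a ^ (n ^ 2)) := by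
    have h6 : (E.filter fun e => B e ∈ BF).card =
        ∑ b ∈ BF, ((E.filter fun e => B e ∈ BF).filter fun e => B e = b).card :=
      Finset.card_eq_sum_card_fiberwise fun e he => (Finset.mem_filter.1 he).2
    rw [h6, Nat.cast_sum]
    have h7 : ∀ b ∈ BF, (((E.filter fun e => B e ∈ BF).filter fun e => B e = b).card : ℝ) ≤
        2 ^ X.card * cosAvg p a ^ (n ^ 2) := by
      intro b _
      by_cases hne : ((E.filter fun e => B e ∈ BF).filter fun e => B e = b).Nonempty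
      · obtain ⟨e₀, he₀⟩ := hne
        have hb₀ : B e₀ = b := (Finset.mem_filter.1 he₀).2
        refine le_trans ?_ (hLclt S G z hzz X hX n N M p hp2 hpN a ha0 ha (A e₀))
        have h8 : (((E.filter fun e => B e ∈ BF).filter fun e => B e = b).card) ≤
            {e : S → ℤ | IsSgn z e ∧ ∑ s, e s • M.Φ s = A e₀}.ncard := by
          rw [← Set.ncard_coe_finset]
          apply Set.ncard_le_ncard _ (finite_isSgn z _)
          intro e he
          rw [Finset.mem_coe, Finset.mem_filter, Finset.mem_filter, hEmem] at he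
          refine ⟨he.1.1, ?_⟩
          have h9 : P.adjugate * A e * P = P.adjugate * A e₀ * P := by
            have h10 : B e = B e₀ := he.2.trans hb₀.symm
            exact h10
          have h13 : ∀ Z : Matrix (Fin n) (Fin n) ℤ,
              P * (P.adjugate * Z * P) * P.adjugate = P.det • (P.det • Z) := by
            intro Z
            calc P * (P.adjugate * Z * P) * P.adjugate
                = (P * P.adjugate) * Z * (P * P.adjugate) := by simp only [Matrix.mul_assoc]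
              _ = P.det • (P.det • Z) := by
                rw [Matrix.mul_adjugate, Matrix.smul_mul, Matrix.one_mul, Matrix.mul_smul,
                  Matrix.mul_one]
          have h12 := congrArg (fun Z => P * Z * P.adjugate) h9
          simp only [h13] at h12
          have h14 := smul_right_injective _ hP (smul_right_injective _ hP h12)
          exact h14
        exact_mod_cast h8
      · rw [Finset.not_nonempty_iff_eq_empty] at hne
        rw [hne, Finset.card_empty, Nat.cast_zero]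
        have := cosAvg_nonneg (p := p) a
        positivity
    refine (Finset.sum_le_sum h7).trans (le_of_eq ?_)
    rw [Finset.sum_const, nsmul_eq_mul, hBF, Set.ncard_eq_toFinset_card _ hBSfin]
  calc (M.sing.ncard : ℝ) ≤ (((Finset.univ.biUnion fun ij : Fin n × Fin n =>
      E.filter fun e => 2 * T < |∑ s, (e s : ℝ) * c ij.1 ij.2 s|) ∪
      E.filter fun e => B e ∈ BF).card : ℝ) := by exact_mod_cast h1
    _ ≤ ((Finset.univ.biUnion fun ij : Fin n × Fin n =>
      E.filter fun e => 2 * T < |∑ s, (e s : ℝ) * c ij.1 ij.2 s|).card : ℝ) +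
      ((E.filter fun e => B e ∈ BF).card : ℝ) := by
        exact_mod_cast Finset.card_union_le _ _
    _ ≤ _ := add_le_add h2 h5

end count

section numeric

/-- `1 + log (g + 1)` -/
private noncomputable def C1small_L (g : ℕ) : ℝ := 1 + Real.log (g + 1)

private lemma C1small_L_one (g : ℕ) : 1 ≤ C1small_L g := by
  unfold C1small_L
  have : 0 ≤ Real.log ((g : ℝ) + 1) := Real.log_nonneg (by
    have : (0 : ℝ) ≤ g := Nat.cast_nonneg g
    linarith)
  linarith

private lemma C1small_L_le (g : ℕ) : C1small_L g ≤ g + 1 := by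
  unfold C1small_L
  have := Real.log_le_sub_one_of_pos (show (0 : ℝ) < g + 1 by positivity)
  linarith

private lemma C1small_core (hCoef : StCoef) (hLclt : StLclt) (hSing : StSing) (hTail : StTail)
    (hKappa : StKappa) (n : ℕ) (hn : 2 ≤ n) : ∃ C : ℝ, 0 < C ∧ ∀ (S G : Type) [Fintype S]
    [Group G] [Finite G] [MulAction G S] [IsPretransitive G S] (z : G)
    (_ : ∀ s : S, z • z • s = s) (X : Finset S) (_ : ∀ s, s ∈ X ↔ z • s ∉ X) (N : ℕ)
    (M : MatSys S G z n N), 0 < N → (∀ p : ℕ, p.Prime → n + 1 < p → ¬ p ∣ N) →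
    1 ≤ X.card ∧ (M.sing.ncard : ℝ) ≤ C * (Real.sqrt (C1small_L X.card) ^ (n ^ 2 - min n 3)
      * C1small_L X.card / Real.sqrt X.card ^ (min n 3)) * 2 ^ X.card := by
  obtain ⟨C0, hC0, hS⟩ := hSing n hn
  set H : ℝ := (4 * (n : ℝ) ^ 2) ^ n with hH
  set b := min n 3 with hb
  set m := n ^ 2 - b with hm
  have hbm : m + b = n ^ 2 := by
    have h1 : b ≤ n := min_le_left _ _
    have h2 : n ≤ n ^ 2 := by nlinarith
    omega
  have hn1 : (1 : ℝ) ≤ n := by exact_mod_cast (by omega : 1 ≤ n)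
  have hH1 : 1 ≤ H := one_le_pow₀ (by nlinarith)
  have hlogH : 0 ≤ Real.log (6 * H) := Real.log_nonneg (by linarith)
  refine ⟨2 * (n : ℝ) ^ 2 + C0 * (6 * H) ^ m * (Real.log (6 * H) + 1) * ((n : ℝ) + 1) ^ (n ^ 2),
    by positivity, ?_⟩
  intro S G _ _ _ _ _ z hzz X hX N M hN hp
  obtain ⟨s₀, -⟩ := M.base
  have hg1 : 1 ≤ X.card := by
    rw [Nat.one_le_iff_ne_zero, ← Nat.pos_iff_ne_zero, Finset.card_pos]
    by_cases hs : s₀ ∈ X
    · exact ⟨s₀, hs⟩
    · refine ⟨z • s₀, ?_⟩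
      by_contra h
      exact hs ((hX s₀).2 h)
  refine ⟨hg1, ?_⟩
  set g := X.card with hg
  have hgR : (1 : ℝ) ≤ g := by exact_mod_cast hg1
  set L := C1small_L g with hL
  have hL1 : 1 ≤ L := C1small_L_one g
  have hLg : L ≤ g + 1 := C1small_L_le g
  set sg := Real.sqrt g with hsg
  set sL := Real.sqrt L with hsL
  have hsg1 : 1 ≤ sg := Real.one_le_sqrt.2 hgR
  have hsL1 : 1 ≤ sL := Real.one_le_sqrt.2 hL1
  have hsg2 : sg ^ 2 = g := Real.sq_sqrt (by positivity)
  have hsL2 : sL ^ 2 = L := Real.sq_sqrt (by positivity)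
  obtain ⟨P, hP0, -, hPe⟩ := hCoef S G z n N M hN (by omega)
  have hPH : ∀ s i j, |(((P.adjugate * M.Φ s * P) i j : ℤ) : ℝ)| ≤ H := by
    intro s i j
    have h1 := hPe s i j
    have h2 : (((|(P.adjugate * M.Φ s * P) i j| : ℤ)) : ℝ) ≤ (((4 * (n : ℤ) ^ 2) ^ n : ℤ) : ℝ) := by
      exact_mod_cast h1
    rw [Int.cast_abs] at h2
    push_cast at h2
    exact h2
  obtain ⟨p, hpge, hprime⟩ := Nat.exists_infinite_primes (⌈sg⌉₊ + n + 2)
  have : Fact p.Prime := ⟨hprime⟩
  have hp2 : p ≠ 2 := by omega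
  have hpN : ¬ p ∣ N := hp p hprime (by omega)
  have hpsg : sg ≤ p := by
    have h1 : sg ≤ ⌈sg⌉₊ := Nat.le_ceil sg
    have h2 : ((⌈sg⌉₊ : ℕ) : ℝ) ≤ p := by exact_mod_cast (by omega : ⌈sg⌉₊ ≤ p)
    linarith
  set a : ℝ := g / (n : ℝ) ^ 2 with ha
  have ha0 : 0 < a := by positivity
  have hap : a * (n ^ 2 : ℕ) ≤ g := by
    rw [ha]
    push_cast
    rw [div_mul_cancel₀ _ (by positivity)]
  have hsqa : Real.sqrt a = sg / n := by
    rw [ha, Real.sqrt_div (by positivity), Real.sqrt_sq (by positivity)]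
  have hkap : cosAvg p a ≤ ((n : ℝ) + 1) / sg := by
    have h1 := (hKappa p hp2).2 a ha0
    rw [hsqa] at h1
    have hp0 : (0 : ℝ) < p := by linarith
    have h2 : cosAvg p a ≤ (1 + p / (sg / n)) / p := by
      rw [le_div_iff₀ hp0]
      linarith
    refine h2.trans ?_
    have h3 : (1 + (p : ℝ) / (sg / n)) / p = 1 / p + n / sg := by
      field_simp
    rw [h3, add_div, add_comm]
    exact add_le_add le_rfl (one_div_le_one_div_of_le (by linarith) hpsg)
  have hkap0 : 0 ≤ cosAvg p a := cosAvg_nonneg a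
  set T : ℝ := H * (2 * (sg * sL)) with hT
  have hT2 : 2 ≤ T := by
    rw [hT]
    have h1 : 1 ≤ sg * sL := by nlinarith
    nlinarith
  set R := ⌈2 * T⌉₊ with hR
  have hRge : 2 * T ≤ R := Nat.le_ceil _
  have hRle : (R : ℝ) ≤ 6 * H * (sg * sL) := by
    have h1 : (R : ℝ) < 2 * T + 1 := Nat.ceil_lt_add_one (by positivity)
    have h2 : 3 * T = 6 * H * (sg * sL) := by rw [hT]; ring
    linarith
  have hR1 : 1 ≤ R := by
    have : (1 : ℝ) ≤ R := by linarith
    exact_mod_cast this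
  have hcount := C1small_count hLclt hTail z hzz X hX n N M P hP0 H (by linarith) hPH p hp2 hpN
    R T (by linarith) hRge a ha0.le hap
  rw [← hg] at hcount
  -- the exponential
  have hexp : Real.exp (-(T ^ 2 / (2 * g * H ^ 2))) ≤ 1 / sg ^ b := by
    have h1 : T ^ 2 / (2 * g * H ^ 2) = 2 * L := by
      rw [hT, ← hsg2, ← hsL2]
      field_simp
    rw [h1]
    have h2 : Real.exp (-(2 * L)) ≤ 1 / ((g : ℝ) + 1) ^ 2 := by
      have h3 : (g : ℝ) + 1 = Real.exp (Real.log ((g : ℝ) + 1)) :=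
        (Real.exp_log (by positivity)).symm
      rw [h3, ← Real.exp_nat_mul, one_div, ← Real.exp_neg, Real.exp_le_exp]
      have h4 : L = 1 + Real.log ((g : ℝ) + 1) := rfl
      rw [h4]
      push_cast
      linarith
    refine h2.trans (one_div_le_one_div_of_le (by positivity) ?_)
    have hb3 : b ≤ 4 := (min_le_right _ _).trans (by norm_num)
    calc sg ^ b ≤ sg ^ 4 := pow_le_pow_right₀ hsg1 hb3
      _ = (g : ℝ) ^ 2 := by rw [← hsg2]; ring
      _ ≤ ((g : ℝ) + 1) ^ 2 := by gcongr; linarith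
  -- the singular matrices
  have hlogR : 1 + Real.log R ≤ (Real.log (6 * H) + 1) * L := by
    have h1 : Real.log R ≤ Real.log (6 * H * (sg * sL)) :=
      Real.log_le_log (by exact_mod_cast hR1) hRle
    rw [Real.log_mul (by positivity) (by positivity)] at h1
    have h2 : sg * sL ≤ (g : ℝ) + 1 := by
      have h3 : (sg * sL) ^ 2 ≤ ((g : ℝ) + 1) ^ 2 := by
        rw [mul_pow, hsg2, hsL2]
        nlinarith
      exact le_of_sq_le_sq h3 (by positivity)
    have h4 : Real.log (sg * sL) ≤ Real.log ((g : ℝ) + 1) :=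
      Real.log_le_log (by positivity) h2
    have h5 : L = 1 + Real.log ((g : ℝ) + 1) := rfl
    nlinarith
  have hBS : (({B : Matrix (Fin n) (Fin n) ℤ | (∀ i j, |B i j| ≤ R) ∧ B.det = 0}.ncard : ℕ) : ℝ)
      ≤ C0 * (6 * H * (sg * sL)) ^ m * ((Real.log (6 * H) + 1) * L) := by
    refine (hS R hR1).trans ?_
    have h0 : 0 ≤ 1 + Real.log R := by
      have := Real.log_nonneg (show (1 : ℝ) ≤ R by exact_mod_cast hR1)
      linarith
    apply mul_le_mul _ hlogR h0 (by positivity)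
    exact mul_le_mul_of_nonneg_left (pow_le_pow_left₀ (by positivity) hRle m) hC0.le
  have hkp : cosAvg p a ^ (n ^ 2) ≤ (((n : ℝ) + 1) / sg) ^ (n ^ 2) :=
    pow_le_pow_left₀ hkap0 hkap _
  refine hcount.trans ?_
  have hfac1 : 1 ≤ sL ^ m * L := by
    have h1 : 1 ≤ sL ^ m := one_le_pow₀ hsL1
    nlinarith
  have e1 : (n : ℝ) ^ 2 * (2 * Real.exp (-(T ^ 2 / (2 * g * H ^ 2))) * 2 ^ g) ≤
      2 * (n : ℝ) ^ 2 * (sL ^ m * L / sg ^ b) * 2 ^ g := by
    have h1 : Real.exp (-(T ^ 2 / (2 * g * H ^ 2))) ≤ sL ^ m * L / sg ^ b :=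
      hexp.trans (div_le_div_of_nonneg_right hfac1 (by positivity))
    calc (n : ℝ) ^ 2 * (2 * Real.exp (-(T ^ 2 / (2 * g * H ^ 2))) * 2 ^ g)
        ≤ (n : ℝ) ^ 2 * (2 * (sL ^ m * L / sg ^ b) * 2 ^ g) := by gcongr
      _ = _ := by ring
  have e2 : (({B : Matrix (Fin n) (Fin n) ℤ | (∀ i j, |B i j| ≤ R) ∧ B.det = 0}.ncard : ℕ) : ℝ)
      * (2 ^ g * cosAvg p a ^ (n ^ 2)) ≤
      C0 * (6 * H) ^ m * (Real.log (6 * H) + 1) * ((n : ℝ) + 1) ^ (n ^ 2) *
        (sL ^ m * L / sg ^ b) * 2 ^ g := by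
    calc (({B : Matrix (Fin n) (Fin n) ℤ | (∀ i j, |B i j| ≤ R) ∧ B.det = 0}.ncard : ℕ) : ℝ)
        * (2 ^ g * cosAvg p a ^ (n ^ 2))
        ≤ (C0 * (6 * H * (sg * sL)) ^ m * ((Real.log (6 * H) + 1) * L)) *
          (2 ^ g * (((n : ℝ) + 1) / sg) ^ (n ^ 2)) := by
          apply mul_le_mul hBS _ (by positivity) (by positivity)
          exact mul_le_mul_of_nonneg_left hkp (by positivity)
      _ = _ := by
          rw [← hbm]
          rw [div_pow, mul_pow (6 * H), mul_pow sg sL, pow_add sg]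
          field_simp
  calc _ ≤ 2 * (n : ℝ) ^ 2 * (sL ^ m * L / sg ^ b) * 2 ^ g +
      C0 * (6 * H) ^ m * (Real.log (6 * H) + 1) * ((n : ℝ) + 1) ^ (n ^ 2) *
        (sL ^ m * L / sg ^ b) * 2 ^ g := add_le_add e1 e2
    _ = _ := by ring

private lemma C1small_pow (g m : ℕ) (hg : 1 ≤ g) :
    Real.sqrt (C1small_L g) ^ m * C1small_L g / Real.sqrt g ^ 3 ≤
      2 * (1 + 4 * ((m : ℝ) + 1)) ^ (m + 1) * (g : ℝ) ^ (-(5 / 4) : ℝ) := by
  have hgR : (1 : ℝ) ≤ g := by exact_mod_cast hg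
  have hL1 : 1 ≤ C1small_L g := C1small_L_one g
  set L := C1small_L g with hL
  have hsL : Real.sqrt L ≤ L := by
    rw [Real.sqrt_le_left (by linarith)]
    nlinarith
  set ε : ℝ := 1 / (4 * ((m : ℝ) + 1)) with hε
  have hε0 : 0 < ε := by positivity
  have h1 : L ≤ (1 + 4 * ((m : ℝ) + 1)) * ((g : ℝ) + 1) ^ ε := by
    have h2 := Real.log_le_rpow_div (show (0 : ℝ) ≤ (g : ℝ) + 1 by positivity) hε0
    have h3 : L = 1 + Real.log ((g : ℝ) + 1) := rfl
    have h4 : 1 ≤ ((g : ℝ) + 1) ^ ε := Real.one_le_rpow (by linarith) hε0.le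
    have h5 : ((g : ℝ) + 1) ^ ε / ε = 4 * ((m : ℝ) + 1) * ((g : ℝ) + 1) ^ ε := by
      rw [hε]; field_simp
    rw [h5] at h2
    rw [h3]
    linarith
  have h6 : L ^ (m + 1) ≤ (1 + 4 * ((m : ℝ) + 1)) ^ (m + 1) * (2 * (g : ℝ) ^ (1 / 4 : ℝ)) := by
    refine (pow_le_pow_left₀ (by linarith) h1 (m + 1)).trans ?_
    rw [mul_pow]
    apply mul_le_mul_of_nonneg_left _ (by positivity)
    rw [← Real.rpow_natCast, ← Real.rpow_mul (by positivity)]
    have h7 : ε * ((m + 1 : ℕ) : ℝ) = 1 / 4 := by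
      rw [hε]; push_cast; field_simp
    rw [h7]
    have h8 : ((g : ℝ) + 1) ^ (1 / 4 : ℝ) ≤ (2 * (g : ℝ)) ^ (1 / 4 : ℝ) :=
      Real.rpow_le_rpow (by positivity) (by linarith) (by norm_num)
    refine h8.trans ?_
    rw [Real.mul_rpow (by norm_num) (by positivity)]
    apply mul_le_mul_of_nonneg_right _ (by positivity)
    calc (2 : ℝ) ^ (1 / 4 : ℝ) ≤ (2 : ℝ) ^ (1 : ℝ) :=
          Real.rpow_le_rpow_of_exponent_le (by norm_num) (by norm_num)
      _ = 2 := Real.rpow_one 2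
  have h9 : Real.sqrt L ^ m * L ≤ L ^ (m + 1) := by
    rw [pow_succ]
    exact mul_le_mul_of_nonneg_right (pow_le_pow_left₀ (Real.sqrt_nonneg _) hsL m) (by linarith)
  have h10 : Real.sqrt (g : ℝ) ^ 3 = (g : ℝ) ^ (3 / 2 : ℝ) := by
    rw [Real.sqrt_eq_rpow, ← Real.rpow_natCast, ← Real.rpow_mul (by positivity)]
    norm_num
  rw [h10, div_le_iff₀ (by positivity)]
  refine (h9.trans h6).trans (le_of_eq ?_)
  have h11 : (g : ℝ) ^ (1 / 4 : ℝ) = (g : ℝ) ^ (-(5 / 4) : ℝ) * (g : ℝ) ^ (3 / 2 : ℝ) := by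
    rw [← Real.rpow_add (by positivity)]
    norm_num
  rw [h11]
  ring

end numeric

theorem pC1small (hCoef : StCoef) (hLclt : StLclt) (hSing : StSing) (hTail : StTail)
    (hKappa : StKappa) : StC1small := by
  classical
  have hcore := C1small_core hCoef hLclt hSing hTail hKappa
  choose! Cf hCf0 hCf using hcore
  set D : ℕ → ℝ := fun n => 2 * (1 + 4 * (((n ^ 2 - 3 : ℕ) : ℝ) + 1)) ^ (n ^ 2 - 3 + 1) with hD
  have hD0 : ∀ n, 0 < D n := fun n => by simp only [hD]; positivity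
  set Sg : ℝ := ∑ n ∈ (Finset.range 200).filter (fun n => 3 ≤ n), Cf n * D n with hSg
  have hterm : ∀ n ∈ (Finset.range 200).filter (fun n => 3 ≤ n), 0 ≤ Cf n * D n := by
    intro n hn
    have h3 : 3 ≤ n := (Finset.mem_filter.1 hn).2
    exact mul_nonneg (hCf0 n (by omega)).le (hD0 n).le
  have hSg0 : 0 ≤ Sg := Finset.sum_nonneg hterm
  have hC2 : 0 < Cf 2 := hCf0 2 le_rfl
  refine ⟨9 * Cf 2 + Sg, by positivity, ?_⟩
  intro S G _ _ _ _ _ z hzz X hX n N M hN hp
  constructor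
  · rintro rfl
    obtain ⟨hg1, h⟩ := hCf 2 le_rfl S G z hzz X hX N M hN hp
    refine h.trans ?_
    apply mul_le_mul_of_nonneg_right _ (by positivity)
    have hgR : (1 : ℝ) ≤ X.card := by exact_mod_cast hg1
    have hL1 := C1small_L_one X.card
    have e1 : Real.sqrt (C1small_L X.card) ^ (2 ^ 2 - min 2 3) * C1small_L X.card /
        Real.sqrt X.card ^ (min 2 3) = C1small_L X.card ^ 2 / X.card := by
      have m2 : min 2 3 = 2 := rfl
      rw [m2]
      norm_num
      rw [Real.sq_sqrt (by linarith)]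
      ring
    rw [e1]
    have hlog : C1small_L X.card ≤ 3 * Real.log (X.card + 1) := by
      have h1 : Real.log 2 ≤ Real.log ((X.card : ℝ) + 1) :=
        Real.log_le_log (by norm_num) (by linarith)
      have h2 := Real.log_two_gt_d9
      have h3 : C1small_L X.card = 1 + Real.log ((X.card : ℝ) + 1) := rfl
      rw [h3]
      linarith
    have h4 : C1small_L X.card ^ 2 ≤ 9 * Real.log (X.card + 1) ^ 2 := by
      calc C1small_L X.card ^ 2 ≤ (3 * Real.log (X.card + 1)) ^ 2 :=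
            pow_le_pow_left₀ (by linarith) hlog 2
        _ = _ := by ring
    calc Cf 2 * (C1small_L X.card ^ 2 / X.card)
        ≤ Cf 2 * (9 * Real.log (X.card + 1) ^ 2 / X.card) := by gcongr
      _ = 9 * Cf 2 * (Real.log (X.card + 1) ^ 2 / X.card) := by ring
      _ ≤ (9 * Cf 2 + Sg) * (Real.log (X.card + 1) ^ 2 / X.card) := by
          apply mul_le_mul_of_nonneg_right (by linarith) (by positivity)
  · intro h3 h200
    obtain ⟨hg1, h⟩ := hCf n (by omega) S G z hzz X hX N M hN hp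
    refine h.trans ?_
    apply mul_le_mul_of_nonneg_right _ (by positivity)
    have m3 : min n 3 = 3 := min_eq_right h3
    rw [m3]
    have h4 := C1small_pow X.card (n ^ 2 - 3) hg1
    have h5 : Cf n * D n ≤ Sg :=
      Finset.single_le_sum hterm (Finset.mem_filter.2 ⟨Finset.mem_range.2 h200, h3⟩)
    have hg0 : (0 : ℝ) ≤ (X.card : ℝ) ^ (-(5 / 4) : ℝ) := by positivity
    calc _ ≤ Cf n * (D n * (X.card : ℝ) ^ (-(5 / 4) : ℝ)) :=
          mul_le_mul_of_nonneg_left h4 (hCf0 n (by omega)).le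
      _ = (Cf n * D n) * (X.card : ℝ) ^ (-(5 / 4) : ℝ) := by ring
      _ ≤ (9 * Cf 2 + Sg) * (X.card : ℝ) ^ (-(5 / 4) : ℝ) := by
          apply mul_le_mul_of_nonneg_right (by linarith) hg0

end Pool.Agent.Lib.MP_640417_ag.Full
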