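import Pool.Agent.Lib.MP_640417_ag.Full.SpecB

/-!
# A good basis for a finite group of integral matrices
-/

namespace Pool.Agent.Lib.MP_640417_ag.Full

open Module Finset MulAction Matrix Pool.Agent.Lib.MP_640417_ag.Far

open MeasureTheory in
/-- Minkowski's theorem: an integer vector with small coordinates with respect to the columns of a
matrix of large determinant. -/
theorem coef_mink (n : ℕ) (hn : 0 < n) (P : Matrix (Fin n) (Fin n) ℤ) (k : ℕ) (hk : 0 < k)
    (hP : (k : ℤ) ^ n < |P.det|) :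
    ∃ w : Fin n → ℤ, w ≠ 0 ∧ ∀ j, (k : ℤ) * |(P.adjugate.mulVec w) j| ≤ |P.det| := by
  classical
  set D : ℝ := ((|P.det| : ℤ) : ℝ) with hD
  have hk0 : (0 : ℝ) < k := by exact_mod_cast hk
  have hPD : (k : ℝ) ^ n < D := by rw [hD]; exact_mod_cast hP
  have hD0 : 0 < D := lt_of_le_of_lt (by positivity) hPD
  let A : Matrix (Fin n) (Fin n) ℝ := P.adjugate.map (Int.castRingHom ℝ)
  have hA : A.det = (P.det : ℝ) ^ (n - 1) := by
    have h1 : A.det = ((P.adjugate.det : ℤ) : ℝ) :=
      (RingHom.map_det (Int.castRingHom ℝ) P.adjugate).symm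
    rw [h1, Matrix.det_adjugate, Fintype.card_fin]
    push_cast
    rfl
  have hAabs : |A.det| = D ^ (n - 1) := by
    rw [hA, abs_pow, hD]
    push_cast
    rfl
  let f : (Fin n → ℝ) →ₗ[ℝ] (Fin n → ℝ) := Matrix.toLin' A
  have hf : LinearMap.det f = A.det := LinearMap.det_toLin' A
  have hf0 : LinearMap.det f ≠ 0 := by
    rw [hf, ← abs_pos, hAabs]
    positivity
  let s : Set (Fin n → ℝ) := f ⁻¹' (Set.pi Set.univ fun _ => Set.Ioo (-(D / k)) (D / k))
  have hsvol : (volume : Measure (Fin n → ℝ)) s = ENNReal.ofReal (2 ^ n * (D / k ^ n)) := by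
    rw [Measure.addHaar_preimage_linearMap _ hf0, Real.volume_pi_Ioo, Finset.prod_const,
      Finset.card_univ, Fintype.card_fin, ← ENNReal.ofReal_pow (by
        have : 0 ≤ D / k := by positivity
        linarith), ← ENNReal.ofReal_mul (abs_nonneg _), hf, abs_inv, hAabs]
    congr 1
    have h1 : D ^ n = D ^ (n - 1) * D := by
      rw [← pow_succ]
      congr 1
      omega
    have h2 : D / k - -(D / k) = 2 * D / k := by ring
    rw [h2, div_pow, mul_pow, h1]
    field_simp
  have hsymm : ∀ x ∈ s, -x ∈ s := by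
    intro x hx
    rw [Set.mem_preimage, Set.mem_univ_pi] at hx ⊢
    intro j
    have := hx j
    rw [map_neg, Pi.neg_apply, Set.mem_Ioo]
    constructor <;> linarith [this.1, this.2]
  have hconv : Convex ℝ s := by
    apply Convex.linear_preimage
    exact convex_pi fun _ _ => convex_Ioo _ _
  let L : AddSubgroup (Fin n → ℝ) :=
    (Submodule.span ℤ (Set.range (Pi.basisFun ℝ (Fin n)))).toAddSubgroup
  have hL : Countable L := by
    have : Countable (Submodule.span ℤ (Set.range (Pi.basisFun ℝ (Fin n)))) := inferInstance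
    exact this
  have hfund : IsAddFundamentalDomain L (ZSpan.fundamentalDomain (Pi.basisFun ℝ (Fin n)))
      (volume : Measure (Fin n → ℝ)) :=
    ZSpan.isAddFundamentalDomain' (Pi.basisFun ℝ (Fin n)) volume
  have hvF : (volume : Measure (Fin n → ℝ)) (ZSpan.fundamentalDomain (Pi.basisFun ℝ (Fin n)))
      = 1 := by
    rw [ZSpan.volume_fundamentalDomain]
    have : (Matrix.of (Pi.basisFun ℝ (Fin n))) = (1 : Matrix (Fin n) (Fin n) ℝ) := by
      ext i j
      simp [Matrix.one_apply, Pi.single_apply, eq_comm]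
    rw [this, Matrix.det_one]
    simp
  have hlt : (volume : Measure (Fin n → ℝ)) (ZSpan.fundamentalDomain (Pi.basisFun ℝ (Fin n)))
      * 2 ^ finrank ℝ (Fin n → ℝ) < volume s := by
    rw [hvF, one_mul, hsvol, Module.finrank_fin_fun]
    have h2 : (2 : ENNReal) ^ n = ENNReal.ofReal (2 ^ n) := by
      rw [ENNReal.ofReal_pow (by norm_num)]
      norm_num
    rw [h2]
    have h3 : (1 : ℝ) < D / k ^ n := by
      rw [one_lt_div (by positivity)]
      exact hPD
    apply (ENNReal.ofReal_lt_ofReal_iff (by positivity)).2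
    have h4 : (0 : ℝ) < 2 ^ n := by positivity
    nlinarith
  obtain ⟨x, hx0, hx⟩ := exists_ne_zero_mem_lattice_of_measure_mul_two_pow_lt_measure
    hfund hsymm hconv hlt
  have hxL : ∀ i, ∃ m : ℤ, (m : ℝ) = (x : Fin n → ℝ) i := by
    intro i
    have h1 : (x : Fin n → ℝ) ∈ Submodule.span ℤ (Set.range (Pi.basisFun ℝ (Fin n))) := x.2
    rw [Module.Basis.mem_span_iff_repr_mem] at h1
    obtain ⟨m, hm⟩ := h1 i
    refine ⟨m, ?_⟩
    simpa using hm
  choose w hw using hxL
  refine ⟨w, ?_, ?_⟩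
  · rintro rfl
    apply hx0
    apply Subtype.ext
    funext i
    rw [← hw i]
    simp
  · intro j
    rw [Set.mem_preimage, Set.mem_univ_pi] at hx
    have h1 := hx j
    have h2 : f (x : Fin n → ℝ) j = (((P.adjugate.mulVec w) j : ℤ) : ℝ) := by
      change (Matrix.toLin' A) (x : Fin n → ℝ) j = _
      rw [Matrix.toLin'_apply]
      simp only [Matrix.mulVec, dotProduct, A, Matrix.map_apply]
      push_cast
      refine Finset.sum_congr rfl fun i _ => ?_
      rw [hw i]
      rfl
    rw [h2, Set.mem_Ioo, ← abs_lt, lt_div_iff₀ hk0, hD] at h1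
    have h3 : |(P.adjugate.mulVec w) j| * (k : ℤ) < |P.det| := by
      have : ((|(P.adjugate.mulVec w) j| * (k : ℤ) : ℤ) : ℝ) < ((|P.det| : ℤ) : ℝ) := by
        push_cast
        push_cast at h1
        exact h1
      exact_mod_cast this
    rw [mul_comm]
    exact h3.le

section

variable {S G : Type} [Fintype S] [Group G] [Finite G] [MulAction G S] [IsPretransitive G S]
  {z : G} {n N : ℕ}

/-- The matrix with columns `Φ (s j) b`. -/
def coefQ (M : MatSys S G z n N) (b : Fin n → ℤ) (s : Fin n → S) : Matrix (Fin n) (Fin n) ℤ :=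
  Matrix.of fun i j => (M.Φ (s j)).mulVec b i

omit [Finite G] [IsPretransitive G S] in
theorem coef_span (M : MatSys S G z n N) (hN : 0 < N) (b : Fin n → ℤ) (hb : b ≠ 0) :
    Submodule.span ℚ (Set.range fun s : S => fun i => (((M.Φ s).mulVec b i : ℤ) : ℚ)) = ⊤ := by
  classical
  by_contra hne
  obtain ⟨f, hf0, hf⟩ := Submodule.exists_le_ker_of_lt_top _ (lt_top_iff_ne_top.2 hne)
  -- an integral form
  obtain ⟨c, hc⟩ := IsLocalization.exist_integer_multiples_of_finite (nonZeroDivisors ℤ)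
    (fun i : Fin n => f (Pi.single i 1))
  have hc0 : ((c : ℤ) : ℚ) ≠ 0 := by
    exact_mod_cast nonZeroDivisors.coe_ne_zero c
  choose θ hθ using hc
  have hθ' : ∀ i, (θ i : ℚ) = ((c : ℤ) : ℚ) * f (Pi.single i 1) := by
    intro i
    have := hθ i
    simpa using this
  have hfx : ∀ x : Fin n → ℚ, f x = ∑ i, f (Pi.single i 1) * x i := by
    intro x
    rw [LinearMap.pi_apply_eq_sum_univ f x]
    refine Finset.sum_congr rfl fun i _ => ?_
    rw [smul_eq_mul, mul_comm]
    congr 2
    ext i'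
    simp [Pi.single_apply, eq_comm]
  have hrel : ∀ s, ∑ i, θ i * (M.Φ s).mulVec b i = 0 := by
    intro s
    have h1 : f (fun i => (((M.Φ s).mulVec b i : ℤ) : ℚ)) = 0 :=
      hf (Submodule.subset_span ⟨s, rfl⟩)
    rw [hfx] at h1
    have h2 : ((∑ i, θ i * (M.Φ s).mulVec b i : ℤ) : ℚ) = 0 := by
      push_cast
      simp_rw [hθ', mul_assoc]
      rw [← Finset.mul_sum, h1, mul_zero]
    exact_mod_cast h2
  have hθne : ∃ i, θ i ≠ 0 := by
    by_contra h
    push Not at h
    apply hf0
    ext i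
    have h1 := hθ' i
    rw [h i, Int.cast_zero, eq_comm, mul_eq_zero] at h1
    simpa using h1.resolve_left hc0
  obtain ⟨i, hi⟩ := hθne
  obtain ⟨j, hj⟩ := Function.ne_iff.1 hb
  rw [Pi.zero_apply] at hj
  obtain ⟨p, hp1, hp⟩ := Nat.exists_infinite_primes (N + (b j * θ i).natAbs + 1)
  have hpN : ¬ p ∣ N := fun h => by
    have := Nat.le_of_dvd hN h
    omega
  have hA := M.indep p hp hpN (Matrix.of fun a c => ((b a * θ c : ℤ) : ZMod p)) (by
    intro s
    have h1 : (((M.Φ s).map (Int.cast : ℤ → ZMod p))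
        * (Matrix.of fun a c => ((b a * θ c : ℤ) : ZMod p))).trace
        = ((∑ i, θ i * (M.Φ s).mulVec b i : ℤ) : ZMod p) := by
      simp only [Matrix.trace, Matrix.diag, Matrix.mul_apply, Matrix.map_apply, Matrix.of_apply,
        Matrix.mulVec, dotProduct]
      push_cast
      refine Finset.sum_congr rfl fun i _ => ?_
      rw [Finset.mul_sum]
      refine Finset.sum_congr rfl fun j _ => ?_
      ring
    rw [h1, hrel s, Int.cast_zero])
  have h2 := congrFun (congrFun hA j) i
  rw [Matrix.of_apply, Matrix.zero_apply, ZMod.intCast_zmod_eq_zero_iff_dvd] at h2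
  have h3 : p ∣ (b j * θ i).natAbs := Int.natCast_dvd.1 h2
  have h4 : (b j * θ i).natAbs ≠ 0 := Int.natAbs_ne_zero.2 (mul_ne_zero hj hi)
  have h5 := Nat.le_of_dvd (Nat.pos_of_ne_zero h4) h3
  omega

omit [Finite G] [IsPretransitive G S] in
theorem coef_indep (M : MatSys S G z n N) (hN : 0 < N) (b : Fin n → ℤ) (hb : b ≠ 0) :
    ∃ s : Fin n → S, (coefQ M b s).det ≠ 0 := by
  classical
  set V : Set (Fin n → ℚ) := Set.range fun s : S => fun i => (((M.Φ s).mulVec b i : ℤ) : ℚ) with hV
  have hspan : Submodule.span ℚ V = ⊤ := coef_span M hN b hb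
  obtain ⟨f, hfV, -, hfi⟩ := Submodule.exists_fun_fin_finrank_span_eq ℚ V
  have hr : finrank ℚ (Submodule.span ℚ V) = n := by
    rw [hspan, finrank_top, Module.finrank_fin_fun]
  let e : Fin n ≃ Fin (finrank ℚ (Submodule.span ℚ V)) := finCongr hr.symm
  have h1 : ∀ j : Fin n, ∃ s : S, (fun i => (((M.Φ s).mulVec b i : ℤ) : ℚ)) = f (e j) :=
    fun j => hfV (e j)
  choose s hs using h1
  refine ⟨s, fun h0 => ?_⟩
  have h2 : LinearIndependent ℚ (fun j : Fin n => f (e j)) := hfi.comp e e.injective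
  let B : Matrix (Fin n) (Fin n) ℚ := Matrix.of fun j i => f (e j) i
  have h3 : IsUnit B := Matrix.linearIndependent_rows_iff_isUnit.1 h2
  have h4 : B.det ≠ 0 := by
    rw [Matrix.isUnit_iff_isUnit_det] at h3
    exact h3.ne_zero
  apply h4
  have h5 : B = ((coefQ M b s).map (Int.castRingHom ℚ))ᵀ := by
    ext j i
    change f (e j) i = (((M.Φ (s j)).mulVec b i : ℤ) : ℚ)
    rw [← hs j]
  have h6 : ((coefQ M b s).map (Int.castRingHom ℚ)).det = (((coefQ M b s).det : ℤ) : ℚ) :=
    (RingHom.map_det (Int.castRingHom ℚ) (coefQ M b s)).symm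
  rw [h5, Matrix.det_transpose, h6, h0, Int.cast_zero]

end

theorem pCoef : StCoef := by
  classical
  intro S G _ _ _ _ _ z n N M hN hn
  obtain ⟨s₀, hs₀⟩ := M.base
  have hne : Nonempty (Fin n → S) := ⟨fun _ => s₀⟩
  have hmax : ∀ b : Fin n → ℤ, ∃ s : Fin n → S, ∀ s' : Fin n → S,
      (coefQ M b s').det.natAbs ≤ (coefQ M b s).det.natAbs := fun b =>
    Finite.exists_max fun s : Fin n → S => (coefQ M b s).det.natAbs
  choose σ hσ using hmax
  obtain ⟨b, hb0, hbmin⟩ := WellFounded.has_min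
    (measure fun b : Fin n → ℤ => (coefQ M b (σ b)).det.natAbs).wf {b | b ≠ 0}
    ⟨fun _ => 1, fun h => by
      have := congrFun h ⟨0, hn⟩
      simp at this⟩
  have hb0' : b ≠ 0 := hb0
  have hbmin' : ∀ w : Fin n → ℤ, w ≠ 0 →
      (coefQ M b (σ b)).det.natAbs ≤ (coefQ M w (σ w)).det.natAbs := by
    intro w hw
    have := hbmin w hw
    exact not_lt.1 this
  set P : Matrix (Fin n) (Fin n) ℤ := coefQ M b (σ b) with hP
  have hdet : P.det ≠ 0 := by
    obtain ⟨s, hs⟩ := coef_indep M hN b hb0'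
    have h1 := hσ b s
    intro h
    rw [← hP, h, Int.natAbs_zero, Nat.le_zero, Int.natAbs_eq_zero] at h1
    exact hs h1
  have hd0 : 0 < |P.det| := abs_pos.2 hdet
  -- Cramer
  have hcr : ∀ (t : S) (i : Fin n), |(P.adjugate.mulVec ((M.Φ t).mulVec b)) i| ≤ |P.det| := by
    intro t i
    rw [← Matrix.cramer_eq_adjugate_mulVec, Matrix.cramer_apply]
    have h1 : P.updateCol i ((M.Φ t).mulVec b) = coefQ M b (Function.update (σ b) i t) := by
      ext a c
      rw [Matrix.updateCol_apply]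
      by_cases h : c = i
      · subst h
        simp [coefQ]
      · simp [coefQ, h, hP]
    rw [h1]
    have h2 := hσ b (Function.update (σ b) i t)
    rw [← hP] at h2
    have h3 : ((coefQ M b (Function.update (σ b) i t)).det.natAbs : ℤ) ≤ (P.det.natAbs : ℤ) := by
      exact_mod_cast h2
    rwa [Int.natCast_natAbs, Int.natCast_natAbs] at h3
  have hcr2 : ∀ (t : S) (i j : Fin n),
      |(P.adjugate.mulVec ((M.Φ t).mulVec ((M.Φ (σ b j)).mulVec b))) i| ≤ |P.det| := by
    intro t i j
    obtain ⟨γ, hγ⟩ := MulAction.exists_smul_eq G s₀ t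
    have h1 : M.Φ t = M.R γ := by
      rw [← hγ, M.smul, hs₀, mul_one]
    have h2 : (M.R γ).mulVec ((M.Φ (σ b j)).mulVec b) = (M.Φ (γ • σ b j)).mulVec b := by
      rw [Matrix.mulVec_mulVec, ← M.smul]
    rw [h1, h2]
    exact hcr _ _
  -- the size of the determinant
  have hbound : |P.det| ≤ (4 * (n : ℤ) ^ 2) ^ n := by
    by_contra hlt
    push Not at hlt
    have hk : 0 < 4 * n ^ 2 := by positivity
    obtain ⟨w, hw0, hw⟩ := coef_mink n hn P (4 * n ^ 2) hk (by push_cast; exact hlt)
    set a : Fin n → ℤ := P.adjugate.mulVec w with ha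
    have hPa : P.mulVec a = P.det • w := by
      rw [ha, Matrix.mulVec_mulVec, Matrix.mul_adjugate, Matrix.smul_mulVec, Matrix.one_mulVec]
    -- small coordinates of `Φ t w`
    have hsm : ∀ (t : S) (i : Fin n),
        ((4 * n ^ 2 : ℕ) : ℤ) * |(P.adjugate.mulVec ((M.Φ t).mulVec w)) i| ≤ n * |P.det| := by
      intro t i
      have h1 : P.det * (P.adjugate.mulVec ((M.Φ t).mulVec w)) i
          = ∑ j, a j * (P.adjugate.mulVec ((M.Φ t).mulVec ((M.Φ (σ b j)).mulVec b))) i := by
        have h2 : P.adjugate.mulVec ((M.Φ t).mulVec (P.mulVec a))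
            = P.det • P.adjugate.mulVec ((M.Φ t).mulVec w) := by
          rw [hPa, Matrix.mulVec_smul, Matrix.mulVec_smul]
        have h3 := congrFun h2 i
        rw [Pi.smul_apply, smul_eq_mul] at h3
        rw [← h3]
        have h4 : P.mulVec a = ∑ j, a j • (M.Φ (σ b j)).mulVec b := by
          ext i'
          rw [Finset.sum_apply]
          simp only [Matrix.mulVec, dotProduct, Pi.smul_apply, smul_eq_mul]
          refine Finset.sum_congr rfl fun j _ => ?_
          rw [mul_comm]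
          rfl
        rw [h4, Matrix.mulVec_sum, Matrix.mulVec_sum, Finset.sum_apply]
        refine Finset.sum_congr rfl fun j _ => ?_
        rw [Matrix.mulVec_smul, Matrix.mulVec_smul, Pi.smul_apply, smul_eq_mul]
      have h5 : |P.det| * |(P.adjugate.mulVec ((M.Φ t).mulVec w)) i|
          ≤ |P.det| * ∑ j, |a j| := by
        rw [← abs_mul, h1, Finset.mul_sum]
        refine (Finset.abs_sum_le_sum_abs _ _).trans (Finset.sum_le_sum fun j _ => ?_)
        rw [abs_mul, mul_comm]
        exact mul_le_mul_of_nonneg_right (hcr2 t i j) (abs_nonneg _)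
      have h6 := le_of_mul_le_mul_left h5 hd0
      calc ((4 * n ^ 2 : ℕ) : ℤ) * |(P.adjugate.mulVec ((M.Φ t).mulVec w)) i|
          ≤ ((4 * n ^ 2 : ℕ) : ℤ) * ∑ j, |a j| :=
            mul_le_mul_of_nonneg_left h6 (Int.natCast_nonneg _)
        _ = ∑ j, ((4 * n ^ 2 : ℕ) : ℤ) * |a j| := by rw [Finset.mul_sum]
        _ ≤ ∑ j : Fin n, |P.det| := Finset.sum_le_sum fun j _ => hw j
        _ = n * |P.det| := by simp
    -- the determinant attached to `w`
    have hlt2 : |(coefQ M w (σ w)).det| < |P.det| := by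
      set t := σ w with ht
      set K : Matrix (Fin n) (Fin n) ℤ :=
        ((4 * n ^ 2 : ℕ) : ℤ) • (P.adjugate * coefQ M w t) with hK
      have h1 : ∀ i j, AbsoluteValue.abs (K i j) ≤ (n : ℤ) * |P.det| := by
        intro i j
        have h2 : K i j = ((4 * n ^ 2 : ℕ) : ℤ) * (P.adjugate.mulVec ((M.Φ (t j)).mulVec w)) i := by
          rw [hK, Matrix.smul_apply, smul_eq_mul]
          rfl
        rw [AbsoluteValue.abs_apply, h2, abs_mul, abs_of_nonneg (Int.natCast_nonneg _)]
        exact hsm (t j) i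
      have h2 := Matrix.det_le h1
      rw [AbsoluteValue.abs_apply, hK, Matrix.det_smul, Matrix.det_mul, Matrix.det_adjugate,
        Fintype.card_fin, abs_mul, abs_mul, abs_pow, abs_pow,
        abs_of_nonneg (Int.natCast_nonneg _), nsmul_eq_mul] at h2
      by_contra hge
      push Not at hge
      have hfac : ((n.factorial : ℕ) : ℤ) ≤ (n : ℤ) ^ n := by
        exact_mod_cast Nat.factorial_le_pow n
      have hn0 : (0 : ℤ) < n := by exact_mod_cast hn
      have h3 : ((4 * n ^ 2 : ℕ) : ℤ) ^ n * (|P.det| ^ (n - 1) * |P.det|)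
          ≤ (n : ℤ) ^ n * ((n : ℤ) * |P.det|) ^ n := by
        refine le_trans ?_ (h2.trans (mul_le_mul_of_nonneg_right hfac (by positivity)))
        refine mul_le_mul_of_nonneg_left ?_ (by positivity)
        exact mul_le_mul_of_nonneg_left hge (by positivity)
      have h4 : |P.det| ^ (n - 1) * |P.det| = |P.det| ^ n := by
        rw [← pow_succ]
        congr 1
        omega
      rw [h4, mul_pow] at h3
      push_cast at h3
      rw [mul_pow] at h3
      have h5 : ((n : ℤ) ^ 2) ^ n = (n : ℤ) ^ n * (n : ℤ) ^ n := by ring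
      rw [h5] at h3
      have h6 : (0 : ℤ) < (n : ℤ) ^ n * (n : ℤ) ^ n * |P.det| ^ n := by positivity
      have h7 : (4 : ℤ) ^ n * ((n : ℤ) ^ n * (n : ℤ) ^ n * |P.det| ^ n)
          ≤ 1 * ((n : ℤ) ^ n * (n : ℤ) ^ n * |P.det| ^ n) := by linarith
      have h8 := le_of_mul_le_mul_right h7 h6
      have h9 : (1 : ℤ) < 4 ^ n := one_lt_pow₀ (by norm_num) (by omega)
      linarith
    have h1 := hbmin' w hw0
    rw [← Int.natCast_natAbs, ← Int.natCast_natAbs] at hlt2
    have h2 : (coefQ M w (σ w)).det.natAbs < P.det.natAbs := by exact_mod_cast hlt2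
    omega
  refine ⟨P, hdet, hbound, ?_⟩
  intro t i j
  have h1 : (P.adjugate * M.Φ t * P) i j
      = (P.adjugate.mulVec ((M.Φ t).mulVec ((M.Φ (σ b j)).mulVec b))) i := by
    rw [Matrix.mulVec_mulVec]
    rfl
  rw [h1]
  exact (hcr2 t i j).trans hbound

end Pool.Agent.Lib.MP_640417_ag.Full
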