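import Pool.Agent.Lib.MP_640417_ag.Full.SpecB

/-!
# All CM fields: comparison with a random walk (statement `StCompare`)
-/

namespace Pool.Agent.Lib.MP_640417_ag.Full

open Module Finset MulAction Matrix Pool.Agent.Lib.MP_640417_ag.Far

section compare

private lemma char_sum {A : Type} [AddCommMonoid A] (ψ : AddChar A ℂ) {J : Type} (s : Finset J)
    (f : J → A) : ψ (∑ j ∈ s, f j) = ∏ j ∈ s, ψ (f j) := by
  classical
  induction s using Finset.induction_on with
  | empty => simp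
  | insert a s ha ih => rw [Finset.sum_insert ha, Finset.prod_insert ha, AddChar.map_add_eq_mul, ih]

variable {S G : Type} [Fintype S] [Group G] [MulAction G S] {z : G} {n N : ℕ}

/-- the integer `β ⬝ A v` -/
private def iv (m : ℕ) (v β : Fin n → ZMod m) (A : Matrix (Fin n) (Fin n) ℤ) : ℤ :=
  ∑ i, ((β i).val : ℤ) * A.mulVec (fun j => ((v j).val : ℤ)) i

private lemma iv_sum (m : ℕ) (v β : Fin n → ZMod m) {J : Type} [Fintype J] (c : J → ℤ)
    (A : J → Matrix (Fin n) (Fin n) ℤ) :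
    iv m v β (∑ j, c j • A j) = ∑ j, c j * iv m v β (A j) := by
  unfold iv
  have h1 : ∀ i, (∑ j, c j • A j).mulVec (fun j => ((v j).val : ℤ)) i
      = ∑ j, c j * (A j).mulVec (fun j => ((v j).val : ℤ)) i := by
    intro i
    rw [Matrix.sum_mulVec]
    simp only [Finset.sum_apply, Matrix.smul_mulVec, Pi.smul_apply, smul_eq_mul]
  simp only [h1, Finset.mul_sum]
  rw [Finset.sum_comm]
  refine Finset.sum_congr rfl fun j _ => Finset.sum_congr rfl fun i _ => ?_
  ring

private lemma iv_neg (m : ℕ) (v β : Fin n → ZMod m) (A : Matrix (Fin n) (Fin n) ℤ) :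
    iv m v β (-A) = - iv m v β A := by
  unfold iv
  simp [Matrix.neg_mulVec, Finset.sum_neg_distrib]

private lemma iv_cast (m : ℕ) [NeZero m] (v β : Fin n → ZMod m)
    (A : Matrix (Fin n) (Fin n) ℤ) :
    ((iv m v β A : ℤ) : ZMod m)
      = ∑ i, β i * (A.map (Int.cast : ℤ → ZMod m)).mulVec v i := by
  unfold iv
  push_cast
  refine Finset.sum_congr rfl fun i _ => ?_
  rw [ZMod.natCast_zmod_val]
  congr 1
  simp only [Matrix.mulVec, dotProduct, Matrix.map_apply]
  push_cast
  refine Finset.sum_congr rfl fun j _ => ?_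
  rw [ZMod.natCast_zmod_val]

private lemma wf_eq (M : MatSys S G z n N) (m : ℕ) (v β : Fin n → ZMod m) (s : S) :
    M.wf m v β s = (iv m v β (M.Φ s) : ℝ) / m := rfl

private lemma four_cos (t : ℝ) :
    ((4 * Real.cos (2 * Real.pi * t) ^ 2 : ℝ) : ℂ)
      = ∑ b : Bool × Bool, Complex.exp (2 * Real.pi * Complex.I * ((sg b.1 + sg b.2 : ℤ) * t)) := by
  have h4 : (4 * Real.cos (2 * Real.pi * t) ^ 2 : ℝ) = 2 + 2 * Real.cos (2 * (2 * Real.pi * t)) := by
    rw [Real.cos_two_mul]
    ring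
  rw [h4]
  have h5 : ((2 * Real.cos (2 * (2 * Real.pi * t)) : ℝ) : ℂ)
      = Complex.exp ((2 * (2 * Real.pi * t) : ℝ) * Complex.I)
        + Complex.exp (-((2 * (2 * Real.pi * t) : ℝ) * Complex.I)) := by
    push_cast
    rw [Complex.two_cos]
    ring_nf
  rw [Fintype.sum_prod_type]
  simp only [Fintype.sum_bool, sg, if_true, Bool.false_eq_true, if_false]
  rw [Complex.ofReal_add, h5]
  push_cast
  ring_nf
  simp only [Complex.exp_zero]
  ring

private lemma stdChar (m : ℕ) [NeZero m] (a : ℤ) :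
    ZMod.stdAddChar (a : ZMod m) = Complex.exp (2 * Real.pi * Complex.I * ((a : ℝ) / (m : ℝ) : ℝ)) := by
  rw [ZMod.stdAddChar_coe]
  push_cast
  ring_nf

private lemma pow_eq (M : MatSys S G z n N) (m : ℕ) [NeZero m] (v β : Fin n → ZMod m) (K : ℕ) :
    (((4 * ∑ s, Real.cos (2 * Real.pi * M.wf m v β s) ^ 2) ^ K : ℝ) : ℂ)
      = ∑ σ : Fin K → S × Bool × Bool,
        ZMod.stdAddChar ((iv m v β (M.walk σ) : ℤ) : ZMod m) := by
  have h1 : ((4 * ∑ s, Real.cos (2 * Real.pi * M.wf m v β s) ^ 2 : ℝ) : ℂ)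
      = ∑ t : S × Bool × Bool,
        ZMod.stdAddChar (((sg t.2.1 + sg t.2.2) * iv m v β (M.Φ t.1) : ℤ) : ZMod m) := by
    rw [Fintype.sum_prod_type, Finset.mul_sum, Complex.ofReal_sum]
    refine Finset.sum_congr rfl fun s _ => ?_
    rw [four_cos]
    refine Finset.sum_congr rfl fun b _ => ?_
    rw [stdChar, wf_eq]
    congr 1
    push_cast
    ring
  rw [Complex.ofReal_pow, h1, Fintype.sum_pow]
  refine Finset.sum_congr rfl fun σ _ => ?_
  rw [MatSys.walk, iv_sum, Int.cast_sum, char_sum]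

private lemma sum_beta (m : ℕ) [NeZero m] (u : Fin n → ZMod m) :
    ∑ β : Fin n → ZMod m, ZMod.stdAddChar (∑ i, β i * u i)
      = if u = 0 then ((m : ℂ) ^ n) else 0 := by
  have h1 : ∀ β : Fin n → ZMod m, ZMod.stdAddChar (∑ i, β i * u i)
      = ∏ i, ZMod.stdAddChar (β i * u i) := fun β => char_sum _ _ _
  simp only [h1]
  rw [← Fintype.prod_sum (fun i (b : ZMod m) => (ZMod.stdAddChar (b * u i) : ℂ))]
  have h2 : ∀ i, ∑ b : ZMod m, (ZMod.stdAddChar (b * u i) : ℂ)
      = if u i = 0 then (m : ℂ) else 0 := by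
    intro i
    have := AddChar.sum_mulShift (u i) (ZMod.isPrimitive_stdAddChar m)
    rw [this]
    simp [ZMod.card]
  simp only [h2]
  by_cases hu : u = 0
  · subst hu
    simp
  · rw [if_neg hu]
    obtain ⟨i, hi⟩ := Function.ne_iff.mp hu
    exact Finset.prod_eq_zero (Finset.mem_univ i) (by rw [if_neg]; simpa using hi)

private lemma total (M : MatSys S G z n N) (m : ℕ) [NeZero m] (K : ℕ) :
    ∑ q : (Fin n → ZMod m) × (Fin n → ZMod m),
      (4 * ∑ s, Real.cos (2 * Real.pi * M.wf m q.1 q.2 s) ^ 2) ^ K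
      = (m : ℝ) ^ n * ∑ σ : Fin K → S × Bool × Bool, (kerCard m (M.walk σ) : ℝ) := by
  classical
  apply Complex.ofReal_injective
  rw [Complex.ofReal_sum]
  simp only [pow_eq]
  rw [Finset.sum_comm, Complex.ofReal_mul, Complex.ofReal_sum, Finset.mul_sum]
  refine Finset.sum_congr rfl fun σ _ => ?_
  rw [Fintype.sum_prod_type]
  have h1 : ∀ v : Fin n → ZMod m,
      ∑ β : Fin n → ZMod m, (ZMod.stdAddChar ((iv m v β (M.walk σ) : ℤ) : ZMod m) : ℂ)
        = if ((M.walk σ).map (Int.cast : ℤ → ZMod m)).mulVec v = 0 then ((m : ℂ) ^ n) else 0 := by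
    intro v
    rw [← sum_beta m]
    refine Finset.sum_congr rfl fun β _ => ?_
    rw [iv_cast]
  simp only [h1]
  rw [← Finset.sum_filter, Finset.sum_const, nsmul_eq_mul]
  push_cast
  rw [mul_comm]
  congr 1
  rw [kerCard, Set.ncard_eq_toFinset_card']
  congr 2
  ext v
  simp

private lemma card_two (X : Finset S) (hz : ∀ s : S, z • z • s = s)
    (hX : ∀ s, s ∈ X ↔ z • s ∉ X) (f : S → ℝ) (hf : ∀ s, f (z • s) = f s) :
    ∑ s, f s = 2 * ∑ x ∈ X, f x := by
  classical
  have h1 : ∑ s, f s = ∑ s ∈ X, f s + ∑ s ∈ Xᶜ, f s := (Finset.sum_add_sum_compl X f).symm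
  have h2 : ∑ s ∈ Xᶜ, f s = ∑ x ∈ X, f x := by
    symm
    refine Finset.sum_bij (fun s _ => z • s) ?_ ?_ ?_ ?_
    · intro s hs
      rw [Finset.mem_compl]
      exact (hX s).1 hs
    · intro a _ b _ hab
      have := congrArg (fun t => z • t) hab
      simpa [hz] using this
    · intro b hb
      refine ⟨z • b, ?_, hz b⟩
      rw [Finset.mem_compl] at hb
      rw [hX, hz]
      exact hb
    · intro s _
      exact (hf s).symm
  rw [h1, h2]
  ring

private lemma sin_le_dz (t : ℝ) : Real.sin (Real.pi * t) ^ 2 ≤ Real.pi ^ 2 * dz t ^ 2 := by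
  have h1 : Real.sin (Real.pi * t) ^ 2 = Real.sin (Real.pi * (t - round t)) ^ 2 := by
    have : Real.pi * (t - round t) = Real.pi * t - (round t : ℤ) * Real.pi := by ring
    rw [this, Real.sin_sub_int_mul_pi, mul_pow]
    have h3 : ((-1 : ℝ) ^ (round t : ℤ)) ^ 2 = 1 := by
      rw [← zpow_natCast, ← _root_.zpow_mul, mul_comm, _root_.zpow_mul]
      norm_num
    rw [h3, one_mul]
  rw [h1, ← mul_pow]
  have h2 : |Real.sin (Real.pi * (t - round t))| ≤ |Real.pi * (t - round t)| :=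
    Real.abs_sin_le_abs
  rw [abs_mul, abs_of_pos Real.pi_pos] at h2
  calc Real.sin (Real.pi * (t - round t)) ^ 2
      = |Real.sin (Real.pi * (t - round t))| ^ 2 := (sq_abs _).symm
    _ ≤ (Real.pi * dz t) ^ 2 := by
        unfold dz
        gcongr

private lemma dz_neg (t : ℝ) : dz (-t) ^ 2 = dz t ^ 2 := by
  unfold dz
  have h1 : |(-t) - round (-t)| ≤ |(-t) - ((-round t : ℤ) : ℝ)| := round_le (-t) (-round t)
  have h2 : |t - round t| ≤ |t - ((-round (-t) : ℤ) : ℝ)| := round_le t (-round (-t))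
  push_cast at h1 h2
  have h3 : |(-t) - -(round t : ℝ)| = |t - round t| := by
    rw [← abs_neg]
    congr 1
    ring
  have h4 : |t - -(round (-t) : ℝ)| = |(-t) - round (-t)| := by
    rw [← abs_neg]
    congr 1
    ring
  rw [h3] at h1
  rw [h4] at h2
  rw [le_antisymm h1 h2]

private lemma lower (M : MatSys S G z n N) [Nonempty S] (hz : ∀ s : S, z • z • s = s)
    (X : Finset S) (hX : ∀ s, s ∈ X ↔ z • s ∉ X) (m : ℕ) [NeZero m] (K : ℕ) (hK : 20 ≤ K)
    (v β : Fin n → ZMod m) (h : K * M.sz X m v β ≤ X.card) :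
    (4 * Fintype.card S : ℝ) ^ K
      ≤ 3 ^ 20 * (4 * ∑ s, Real.cos (2 * Real.pi * M.wf m v β s) ^ 2) ^ K := by
  have hodd : ∀ s, M.wf m v β (z • s) = - M.wf m v β s := by
    intro s
    rw [wf_eq, wf_eq, M.odd, iv_neg]
    push_cast
    ring
  have hcard : (Fintype.card S : ℝ) = 2 * X.card := by
    have := card_two (G := G) (z := z) X hz hX (fun _ => (1 : ℝ)) (fun _ => rfl)
    simpa using this
  have hcpos : (0 : ℝ) < Fintype.card S := by
    exact_mod_cast Fintype.card_pos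
  have hKpos : (0 : ℝ) < K := by
    have : (20 : ℝ) ≤ K := by exact_mod_cast hK
    linarith
  have hK20 : (20 : ℝ) ≤ K := by exact_mod_cast hK
  -- the sum of the squares of the sines
  have hsin : ∑ s, Real.sin (2 * Real.pi * M.wf m v β s) ^ 2
      ≤ Real.pi ^ 2 * (2 * M.sz X m v β) := by
    have h1 : ∀ s, Real.sin (2 * Real.pi * M.wf m v β s) ^ 2
        ≤ Real.pi ^ 2 * dz (2 * M.wf m v β s) ^ 2 := by
      intro s
      have := sin_le_dz (2 * M.wf m v β s)
      rw [show Real.pi * (2 * M.wf m v β s) = 2 * Real.pi * M.wf m v β s by ring] at this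
      exact this
    have h2 := Finset.sum_le_sum (fun s (_ : s ∈ Finset.univ) => h1 s)
    rw [← Finset.mul_sum] at h2
    have h3 : ∑ s, dz (2 * M.wf m v β s) ^ 2 = 2 * ∑ x ∈ X, dz (2 * M.wf m v β x) ^ 2 := by
      refine card_two (G := G) (z := z) X hz hX _ ?_
      intro s
      rw [hodd, show 2 * -M.wf m v β s = -(2 * M.wf m v β s) by ring]
      exact dz_neg _
    rw [h3] at h2
    exact h2
  have hpi : Real.pi ^ 2 ≤ 10 := by
    have h1 := Real.pi_lt_d2
    have h0 := Real.pi_pos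
    nlinarith
  have hsz0 : 0 ≤ M.sz X m v β := by
    unfold MatSys.sz
    exact Finset.sum_nonneg fun _ _ => sq_nonneg _
  have hcos : ∑ s, Real.cos (2 * Real.pi * M.wf m v β s) ^ 2
      ≥ Fintype.card S * (1 - 10 / K) := by
    have h1 : ∑ s, Real.cos (2 * Real.pi * M.wf m v β s) ^ 2
        = Fintype.card S - ∑ s, Real.sin (2 * Real.pi * M.wf m v β s) ^ 2 := by
      have h2 : ∀ s, Real.cos (2 * Real.pi * M.wf m v β s) ^ 2
          = 1 - Real.sin (2 * Real.pi * M.wf m v β s) ^ 2 := fun s => by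
        rw [Real.cos_sq']
      simp only [h2, Finset.sum_sub_distrib]
      simp
    rw [h1]
    have h3 : Real.pi ^ 2 * (2 * M.sz X m v β) ≤ Fintype.card S * (10 / K) := by
      have h4 : M.sz X m v β ≤ X.card / K := by
        rw [le_div_iff₀ hKpos]
        linarith
      calc Real.pi ^ 2 * (2 * M.sz X m v β) ≤ 10 * (2 * (X.card / K)) := by gcongr
        _ = Fintype.card S * (10 / K) := by
            rw [hcard]
            ring
    nlinarith
  have hexp : Real.exp (-(20 / K)) ≤ 1 - 10 / K := by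
    -- `1 - t ≥ exp (-2 t)` for `0 ≤ t ≤ 1/2`
    set t : ℝ := 10 / K with ht
    have ht0 : 0 ≤ t := by positivity
    have ht1 : t ≤ 1 / 2 := by
      rw [ht, div_le_iff₀ hKpos]
      linarith
    have h20 : (20 : ℝ) / K = 2 * t := by
      rw [ht]
      ring
    rw [h20]
    have h1 : 1 + 2 * t ≤ Real.exp (2 * t) := by
      have := Real.add_one_le_exp (2 * t)
      linarith
    rw [Real.exp_neg]
    have hpos := Real.exp_pos (2 * t)
    rw [inv_le_comm₀ hpos (by linarith)]
    refine le_trans ?_ h1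
    rw [inv_le_iff_one_le_mul₀ (by linarith)]
    nlinarith
  have hmain : (4 * Fintype.card S : ℝ) * Real.exp (-(20 / K))
      ≤ 4 * ∑ s, Real.cos (2 * Real.pi * M.wf m v β s) ^ 2 := by
    have : (Fintype.card S : ℝ) * Real.exp (-(20 / K)) ≤ Fintype.card S * (1 - 10 / K) := by
      gcongr
    linarith
  have hpow : ((4 * Fintype.card S : ℝ) * Real.exp (-(20 / K))) ^ K
      ≤ (4 * ∑ s, Real.cos (2 * Real.pi * M.wf m v β s) ^ 2) ^ K := by
    gcongr
  rw [mul_pow, ← Real.exp_nat_mul] at hpow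
  have h20 : (K : ℝ) * -(20 / K) = -20 := by
    field_simp
  rw [h20] at hpow
  have he : (1 : ℝ) ≤ 3 ^ 20 * Real.exp (-20) := by
    rw [Real.exp_neg]
    have h1 : Real.exp 20 ≤ 3 ^ 20 := by
      have h2 : Real.exp 20 = Real.exp 1 ^ 20 := by
        rw [← Real.exp_nat_mul]
        norm_num
      rw [h2]
      have h3 := Real.exp_one_lt_d9
      have h4 := Real.exp_pos 1
      gcongr
      linarith
    rw [← div_eq_mul_inv, le_div_iff₀ (Real.exp_pos 20)]
    linarith
  have hA : (0 : ℝ) ≤ (4 * Fintype.card S : ℝ) ^ K := by positivity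
  calc (4 * Fintype.card S : ℝ) ^ K = (4 * Fintype.card S : ℝ) ^ K * 1 := by ring
    _ ≤ (4 * Fintype.card S : ℝ) ^ K * (3 ^ 20 * Real.exp (-20)) := by gcongr
    _ = 3 ^ 20 * ((4 * Fintype.card S : ℝ) ^ K * Real.exp (-20)) := by ring
    _ ≤ _ := by gcongr

end compare

theorem pCompare : StCompare := by
  intro S G _ _ _ _ _ z hz X hX n N M m _ K hK
  classical
  by_cases hS : Nonempty S
  · set Q : Set ((Fin n → ZMod m) × (Fin n → ZMod m)) :=
      {q | K * M.sz X m q.1 q.2 ≤ X.card} with hQ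
    have h1 : (Q.ncard : ℝ) * (4 * Fintype.card S) ^ K
        ≤ ∑ q : (Fin n → ZMod m) × (Fin n → ZMod m),
          3 ^ 20 * (4 * ∑ s, Real.cos (2 * Real.pi * M.wf m q.1 q.2 s) ^ 2) ^ K := by
      rw [Set.ncard_eq_toFinset_card', ← nsmul_eq_mul, ← Finset.sum_const]
      refine le_trans (Finset.sum_le_sum (fun q hq => ?_))
        (Finset.sum_le_sum_of_subset_of_nonneg (Finset.subset_univ Q.toFinset) ?_)
      · have hq' : q ∈ Q := by simpa using hq
        exact lower M hz X hX m K hK q.1 q.2 hq'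
      · intro q _ _
        positivity
    rw [← Finset.mul_sum, total] at h1
    rw [← mul_assoc] at h1
    exact h1
  · exfalso
    obtain ⟨s₀, _⟩ := M.base
    exact hS ⟨s₀⟩

end Pool.Agent.Lib.MP_640417_ag.Full
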