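import Pool.Agent.Lib.MP_640417_ag.Full.SpecA
import Pool.Agent.Lib.MP_640417_ag.Far.Count
import Pool.Agent.Lib.MP_640417_ag.Far.Red

/-!
# The number of copies through a given function
-/

namespace Pool.Agent.Lib.MP_640417_ag.Full

open Module Finset MulAction Pool.Agent.Lib.MP_640417_ag.Far

section ker

variable {S G : Type} [Group G] [MulAction G S] {F : Type} [Field F]

/-- The kernel of an endomorphism as a space of functions. -/
def copiesKer {M : Submodule F (S → F)} (φ : M →ₗ[F] M) : Submodule F (S → F) :=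
  (LinearMap.ker φ).map M.subtype

lemma mem_copiesKer {M : Submodule F (S → F)} (φ : M →ₗ[F] M) (f : S → F) :
    f ∈ copiesKer φ ↔ ∃ h : f ∈ M, φ ⟨f, h⟩ = 0 := by
  unfold copiesKer
  rw [Submodule.mem_map]
  constructor
  · rintro ⟨x, hx, rfl⟩
    exact ⟨x.2, hx⟩
  · rintro ⟨h, hf⟩
    exact ⟨⟨f, h⟩, hf, rfl⟩

lemma copiesKer_le {M : Submodule F (S → F)} (φ : M →ₗ[F] M) : copiesKer φ ≤ M := by
  intro f hf
  exact ((mem_copiesKer φ f).1 hf).1

lemma copiesKer_stab {M : Submodule F (S → F)} (hM : IsStab G M) (φ : M →ₗ[F] M)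
    (hφ : φ ∈ endF G M) : IsStab G (copiesKer φ) := by
  intro f hf γ
  rw [mem_copiesKer] at hf ⊢
  obtain ⟨h, h0⟩ := hf
  refine ⟨hM f h γ, ?_⟩
  apply Subtype.ext
  funext s
  rw [hφ ⟨f, h⟩ ⟨_, hM f h γ⟩ γ (fun _ => rfl) s, h0]
  rfl

lemma copiesKer_iso {M₀ M : Submodule F (S → F)} (θ : M₀ ≃ₗ[F] M)
    (hθ : ∀ (f f' : M₀) (γ : G), (∀ s, f'.1 s = f.1 (γ • s)) → ∀ s, (θ f').1 s = (θ f).1 (γ • s))
    (φ : M₀ →ₗ[F] M₀) (π : M →ₗ[F] M) (h : ∀ f, θ (φ f) = π (θ f)) :
    IsoF G (copiesKer φ) (copiesKer π) := by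
  have h1 : ∀ f : copiesKer φ, ((θ ⟨f.1, copiesKer_le φ f.2⟩ : M) : S → F) ∈ copiesKer π := by
    intro f
    rw [mem_copiesKer]
    refine ⟨(θ ⟨f.1, copiesKer_le φ f.2⟩).2, ?_⟩
    obtain ⟨hf, h0⟩ := (mem_copiesKer φ f.1).1 f.2
    have := h ⟨f.1, hf⟩
    rw [h0, map_zero] at this
    exact this.symm
  have h2 : ∀ f : copiesKer π, ((θ.symm ⟨f.1, copiesKer_le π f.2⟩ : M₀) : S → F) ∈
      copiesKer φ := by
    intro f
    rw [mem_copiesKer]
    refine ⟨(θ.symm ⟨f.1, copiesKer_le π f.2⟩).2, ?_⟩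
    obtain ⟨hf, h0⟩ := (mem_copiesKer π f.1).1 f.2
    apply θ.injective
    have := h (θ.symm ⟨f.1, hf⟩)
    rw [LinearEquiv.apply_symm_apply, h0] at this
    rw [map_zero]
    exact this
  refine ⟨{ toFun := fun f => ⟨(θ ⟨f.1, copiesKer_le φ f.2⟩ : M).1, h1 f⟩
            map_add' := ?_
            map_smul' := ?_
            invFun := fun f => ⟨(θ.symm ⟨f.1, copiesKer_le π f.2⟩ : M₀).1, h2 f⟩
            left_inv := ?_
            right_inv := ?_ }, ?_⟩
  · intro f f'
    apply Subtype.ext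
    have : (⟨(f + f').1, copiesKer_le φ (f + f').2⟩ : M₀) =
        ⟨f.1, copiesKer_le φ f.2⟩ + ⟨f'.1, copiesKer_le φ f'.2⟩ := rfl
    show (θ _).1 = _
    rw [this, map_add]
    rfl
  · intro c f
    apply Subtype.ext
    have : (⟨(c • f).1, copiesKer_le φ (c • f).2⟩ : M₀) = c • ⟨f.1, copiesKer_le φ f.2⟩ := rfl
    show (θ _).1 = _
    rw [this, map_smul]
    rfl
  · intro f
    apply Subtype.ext
    show (θ.symm ⟨(θ ⟨f.1, copiesKer_le φ f.2⟩).1, _⟩).1 = f.1
    rw [Subtype.coe_eta, LinearEquiv.symm_apply_apply]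
  · intro f
    apply Subtype.ext
    show (θ ⟨(θ.symm ⟨f.1, copiesKer_le π f.2⟩).1, _⟩).1 = f.1
    rw [Subtype.coe_eta, LinearEquiv.apply_symm_apply]
  · intro f f' γ hff s
    exact hθ ⟨f.1, copiesKer_le φ f.2⟩ ⟨f'.1, copiesKer_le φ f'.2⟩ γ hff s

end ker

section idem

variable {V : Type} {F : Type} [Field F] [AddCommGroup V] [Module F V]

/-- In a space of endomorphisms of dimension at most `2` an idempotent is determined up to taking
the complement. -/
lemma copies_idem (E : Submodule F (V →ₗ[F] V)) [Module.Finite F E] (hE : finrank F E ≤ 2)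
    (h1 : LinearMap.id ∈ E)
    (π φ : V →ₗ[F] V) (hπE : π ∈ E) (hφE : φ ∈ E) (hπ : ∀ f, π (π f) = π f)
    (hφ : ∀ f, φ (φ f) = φ f) (x y : V) (hx : π x = 0) (hx0 : x ≠ 0) (hy : π y = y) (hy0 : y ≠ 0)
    (u v : V) (hu : φ u ≠ 0) (hv : φ v ≠ v) :
    (∀ f, φ f = π f) ∨ (∀ f, φ f = f - π f) := by
  have hdep : ¬ LinearIndependent F (![⟨LinearMap.id, h1⟩, ⟨π, hπE⟩, ⟨φ, hφE⟩] : Fin 3 → E) := by
    intro hli
    have := hli.fintype_card_le_finrank
    rw [Fintype.card_fin] at this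
    omega
  rw [Fintype.not_linearIndependent_iff] at hdep
  obtain ⟨c, hc, i, hi⟩ := hdep
  rw [Fin.sum_univ_three] at hc
  have hc' : ∀ f, c 0 • f + c 1 • π f + c 2 • φ f = 0 := by
    intro f
    have h2 := congrArg (fun T : E => T.1 f) hc
    exact h2
  have hc2 : c 2 ≠ 0 := by
    intro h2
    have h3 := hc' x
    have h4 := hc' y
    rw [hx, h2, smul_zero, zero_smul, add_zero, add_zero] at h3
    have h5 : c 0 = 0 := (smul_eq_zero.1 h3).resolve_right hx0
    rw [hy, h2, h5, zero_smul, zero_smul, zero_add, add_zero] at h4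
    have h6 : c 1 = 0 := (smul_eq_zero.1 h4).resolve_right hy0
    fin_cases i
    · exact hi h5
    · exact hi h6
    · exact hi h2
  set a : F := - (c 0 / c 2) with ha
  set b : F := - (c 1 / c 2) with hb
  have hab : ∀ f, φ f = a • f + b • π f := by
    intro f
    have h3 := hc' f
    have h4 : c 2 • φ f = c 2 • (a • f + b • π f) := by
      rw [smul_add, smul_smul, smul_smul, ha, hb, mul_neg, mul_neg, mul_div_cancel₀ _ hc2,
        mul_div_cancel₀ _ hc2, neg_smul, neg_smul]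
      have : c 2 • φ f = - (c 0 • f + c 1 • π f) := by
        rw [eq_neg_iff_add_eq_zero, add_comm]
        exact h3
      rw [this, neg_add]
    exact smul_right_injective V hc2 h4
  have hφx : φ x = a • x := by rw [hab, hx, smul_zero, add_zero]
  have hφy : φ y = (a + b) • y := by rw [hab, hy, add_smul]
  have ha2 : a = 0 ∨ a = 1 := by
    have h3 := hφ x
    rw [hφx, map_smul, hφx, smul_smul] at h3
    have h4 : (a * a - a) • x = 0 := by rw [sub_smul, h3, sub_self]
    have h5 : a * a - a = 0 := (smul_eq_zero.1 h4).resolve_right hx0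
    have h6 : a * (a - 1) = 0 := by rw [← h5]; ring
    rcases mul_eq_zero.1 h6 with h | h
    · exact Or.inl h
    · exact Or.inr (sub_eq_zero.1 h)
  have hb2 : a + b = 0 ∨ a + b = 1 := by
    have h3 := hφ y
    rw [hφy, map_smul, hφy, smul_smul] at h3
    have h4 : ((a + b) * (a + b) - (a + b)) • y = 0 := by rw [sub_smul, h3, sub_self]
    have h5 : (a + b) * (a + b) - (a + b) = 0 := (smul_eq_zero.1 h4).resolve_right hy0
    have h6 : (a + b) * ((a + b) - 1) = 0 := by rw [← h5]; ring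
    rcases mul_eq_zero.1 h6 with h | h
    · exact Or.inl h
    · exact Or.inr (sub_eq_zero.1 h)
  rcases ha2 with h | h <;> rcases hb2 with h' | h'
  · exfalso
    have hb0 : b = 0 := by rw [h, zero_add] at h'; exact h'
    apply hu
    rw [hab, h, hb0, zero_smul, zero_smul, add_zero]
  · left
    intro f
    have hb0 : b = 1 := by rw [h, zero_add] at h'; exact h'
    rw [hab, h, hb0, zero_smul, one_smul, zero_add]
  · right
    intro f
    have hb0 : b = -1 := by rw [h] at h'; linear_combination h'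
    rw [hab, h, hb0, one_smul, neg_one_smul, sub_eq_add_neg]
  · exfalso
    have hb0 : b = 0 := by rw [h] at h'; linear_combination h'
    apply hv
    rw [hab, h, hb0, one_smul, zero_smul, add_zero]

end idem

section count

variable {S G : Type} [Fintype S] [Group G] [Finite G] [MulAction G S] [IsPretransitive G S]
  {p : ℕ} [hp : Fact p.Prime]

/-- The number of copies of a space of functions. -/
lemma copies_card (s₀ : S) (M₀ : Submodule (ZMod p) (S → ZMod p)) (hM₀ : IsStab G M₀)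
    (hne0 : M₀ ≠ ⊥) :
    (p - 1) * (copies G M₀).ncard + 1 ≤ p ^ finrank (ZMod p) M₀ := by
  classical
  set T : Set (Submodule (ZMod p) (S → ZMod p)) := copies G M₀ with hT
  have hθ : ∀ M : T, ∃ θ : M₀ ≃ₗ[ZMod p] M.1, ∀ (f f' : M₀) (γ : G),
      (∀ s, f'.1 s = f.1 (γ • s)) → ∀ s, (θ f').1 s = (θ f).1 (γ • s) := fun M => M.2.2
  choose θ hθ using hθ
  let ev : ∀ M : T, Dual (ZMod p) M₀ := fun M =>
    (LinearMap.proj (R := ZMod p) (φ := fun _ : S => ZMod p) s₀).comp
      ((Submodule.subtype M.1).comp (θ M).toLinearMap)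
  have hev : ∀ (M : T) (f : M₀), ev M f = (θ M f).1 s₀ := fun M f => rfl
  let tr : M₀ → G → M₀ := fun f γ => ⟨fun s => f.1 (γ • s), hM₀ _ f.2 γ⟩
  have hevtr : ∀ (M : T) (f : M₀) (γ : G), ev M (tr f γ) = (θ M f).1 (γ • s₀) := by
    intro M f γ
    rw [hev, hθ M f (tr f γ) γ (fun s => rfl) s₀]
  obtain ⟨f0, hf0⟩ : ∃ f0 : M₀, f0 ≠ 0 := by
    haveI : Nontrivial M₀ := Submodule.nontrivial_iff_ne_bot.mpr hne0
    exact exists_ne 0
  have hθ0 : ∀ M : T, ∃ γ : G, (θ M f0).1 (γ • s₀) ≠ 0 := by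
    intro M
    by_contra hcon
    push Not at hcon
    apply hf0
    apply (θ M).injective
    rw [map_zero]
    apply Subtype.ext
    funext s
    obtain ⟨γ, rfl⟩ := MulAction.exists_smul_eq G s₀ s
    exact hcon γ
  let Ψ : Option ((ZMod p)ˣ × T) → Dual (ZMod p) M₀ := fun o =>
    match o with
    | none => 0
    | some cM => (cM.1 : ZMod p) • ev cM.2
  have hne : ∀ cM : (ZMod p)ˣ × T, (cM.1 : ZMod p) • ev cM.2 ≠ 0 := by
    intro cM h0
    obtain ⟨γ, hγ⟩ := hθ0 cM.2
    have h2 := LinearMap.congr_fun h0 (tr f0 γ)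
    rw [LinearMap.smul_apply, hevtr, LinearMap.zero_apply, smul_eq_mul] at h2
    rcases mul_eq_zero.mp h2 with h3 | h3
    · exact cM.1.ne_zero h3
    · exact hγ h3
  have hΨ : Function.Injective Ψ := by
    intro o o' hoo
    match o, o', hoo with
    | none, none, _ => rfl
    | none, some cM, h =>
      exact absurd h.symm (hne cM)
    | some cM, none, h =>
      exact absurd h (hne cM)
    | some (c, M), some (c', M'), h =>
      have h2 : (c : ZMod p) • ev M = (c' : ZMod p) • ev M' := h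
      have h3 : ∀ (f : M₀) (s : S), (c : ZMod p) * (θ M f).1 s = (c' : ZMod p) * (θ M' f).1 s := by
        intro f s
        obtain ⟨γ, rfl⟩ := MulAction.exists_smul_eq G s₀ s
        have h4 := LinearMap.congr_fun h2 (tr f γ)
        rw [LinearMap.smul_apply, LinearMap.smul_apply, hevtr, hevtr] at h4
        exact h4
      have hle : ∀ (a a' : (ZMod p)ˣ) (A A' : T), (∀ (f : M₀) (s : S),
          (a : ZMod p) * (θ A f).1 s = (a' : ZMod p) * (θ A' f).1 s) → A.1 ≤ A'.1 := by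
        intro a a' A A' hAA x hx
        have h5 : x = ((a : ZMod p)⁻¹ * (a' : ZMod p)) • (θ A' ((θ A).symm ⟨x, hx⟩)).1 := by
          funext s
          have h6 := hAA ((θ A).symm ⟨x, hx⟩) s
          rw [LinearEquiv.apply_symm_apply] at h6
          show x s = ((a : ZMod p)⁻¹ * (a' : ZMod p)) * (θ A' ((θ A).symm ⟨x, hx⟩)).1 s
          rw [mul_assoc, ← h6, inv_mul_cancel_left₀ a.ne_zero]
        rw [h5]
        exact A'.1.smul_mem _ (θ A' ((θ A).symm ⟨x, hx⟩)).2
      have hMM : M = M' := Subtype.ext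
        (le_antisymm (hle c c' M M' h3) (hle c' c M' M (fun f s => (h3 f s).symm)))
      subst hMM
      obtain ⟨γ, hγ⟩ := hθ0 M
      have h7 := h3 f0 (γ • s₀)
      have h8 : (c : ZMod p) = (c' : ZMod p) := mul_right_cancel₀ hγ h7
      rw [Units.ext h8]
  haveI : Finite T := Set.toFinite _
  have hcard : Nat.card (Dual (ZMod p) M₀) = p ^ finrank (ZMod p) M₀ := by
    rw [Module.natCard_eq_pow_finrank (K := ZMod p) (V := Dual (ZMod p) M₀), Nat.card_zmod,
      Subspace.dual_finrank_eq]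
  haveI : Finite (Dual (ZMod p) M₀) := Finite.of_injective
      (fun l : Dual (ZMod p) M₀ => (l : M₀ → ZMod p)) DFunLike.coe_injective
  have hfin := Nat.card_le_card_of_injective Ψ hΨ
  rw [Finite.card_option, Nat.card_prod, Nat.card_eq_fintype_card (α := (ZMod p)ˣ),
    ZMod.card_units p, Nat.card_coe_set_eq, hcard] at hfin
  exact hfin

lemma copies_card' (s₀ : S) (M₀ : Submodule (ZMod p) (S → ZMod p)) (hM₀ : IsStab G M₀)
    (hne0 : M₀ ≠ ⊥) {d : ℕ} (hd : finrank (ZMod p) M₀ ≤ d + 1) :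
    (copies G M₀).ncard ≤ 2 * p ^ d := by
  have h1 := copies_card s₀ M₀ hM₀ hne0
  have h2 : p ^ finrank (ZMod p) M₀ ≤ p ^ (d + 1) := Nat.pow_le_pow_right hp.out.pos hd
  have h3 : 2 ≤ p := hp.out.two_le
  obtain ⟨q, rfl⟩ := Nat.exists_eq_add_of_le' h3
  have h4 : q + 2 - 1 = q + 1 := by omega
  rw [h4] at h1
  have h5 : (q + 1) * (copies G M₀).ncard ≤ (q + 1) * (2 * (q + 2) ^ d) := by
    calc (q + 1) * (copies G M₀).ncard ≤ (q + 2) ^ (d + 1) := by omega
      _ = (q + 2) * (q + 2) ^ d := by ring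
      _ ≤ (2 * (q + 1)) * (q + 2) ^ d := Nat.mul_le_mul_right _ (by omega)
      _ = (q + 1) * (2 * (q + 2) ^ d) := by ring
  exact Nat.le_of_mul_le_mul_left h5 (by omega)

end count

theorem pCopies (hMaschke : StMaschke) (hEndLe : StEndLe) : StCopies := by
  classical
  intro S G _ _ _ _ _ s₀ p hp U hU hpU hD hE hdim w hw
  set M₀ : Submodule (ZMod p) (S → ZMod p) := red p U with hM₀
  set D := finrank ℚ U with hDdef
  have hM₀s : IsStab G M₀ := red_stab p U hU
  have hfr : finrank (ZMod p) M₀ = D := red_rank S p U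
  have hE0 : finrank (ZMod p) (endF G M₀) ≤ 2 := (hEndLe S G p U hU hpU).trans hE
  set C : Set (Submodule (ZMod p) (S → ZMod p)) := {M | M ∈ copies G M₀ ∧ w ∈ M} with hC
  -- the span of the translates of `w`
  set W : Submodule (ZMod p) (S → ZMod p) :=
    Submodule.span (ZMod p) (Set.range (fun γ : G => fun s => w (γ • s))) with hW
  have hwW : w ∈ W := Submodule.subset_span ⟨1, by funext s; simp⟩
  have hWs : IsStab G W := by
    intro f hf γ
    let T : (S → ZMod p) →ₗ[ZMod p] (S → ZMod p) :=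
      { toFun := fun f s => f (γ • s)
        map_add' := fun _ _ => rfl
        map_smul' := fun _ _ => rfl }
    have h1 : W ≤ W.comap T := by
      rw [hW, Submodule.span_le]
      rintro _ ⟨δ, rfl⟩
      show T _ ∈ Submodule.span (ZMod p) _
      apply Submodule.subset_span
      refine ⟨δ * γ, ?_⟩
      funext s
      show w ((δ * γ) • s) = w (δ • γ • s)
      rw [mul_smul]
    exact h1 hf
  have hWle : ∀ M ∈ C, W ≤ M := by
    intro M hM
    rw [hW, Submodule.span_le]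
    rintro _ ⟨δ, rfl⟩
    exact hM.1.1 _ hM.2 δ
  have hMfr : ∀ M ∈ C, finrank (ZMod p) M = D := by
    intro M hM
    rw [← hfr]
    exact hM.1.2.finrank_eq.symm
  rcases Set.eq_empty_or_nonempty C with hCe | ⟨M₁, hM₁⟩
  · rw [hCe, Set.ncard_empty]
    exact Nat.zero_le _
  by_cases hWD : finrank (ZMod p) W = D
  · have h1 : C ⊆ {W} := by
      intro M hM
      rw [Set.mem_singleton_iff]
      exact (Submodule.eq_of_le_of_finrank_eq (hWle M hM) (by rw [hWD, hMfr M hM])).symm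
    have h2 := Set.ncard_le_ncard h1 (Set.finite_singleton W)
    rw [Set.ncard_singleton] at h2
    omega
  have hWM : ∀ M ∈ C, ∃ f ∈ M, f ∉ W := by
    intro M hM
    by_contra hcon
    push Not at hcon
    apply hWD
    rw [← hMfr M hM]
    have : W = M := le_antisymm (hWle M hM) hcon
    rw [this]
  -- the index of the kernel of a copy
  have hidx : ∀ M ∈ C, ¬ p ∣ (kerSub G M).index := by
    intro M hM hdvd
    apply hpU
    refine hdvd.trans (Subgroup.index_dvd_of_le ?_)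
    intro γ hγ f hf s
    obtain ⟨θ, hθ⟩ := hM.1.2
    set g : M₀ := θ.symm ⟨f, hf⟩ with hg
    have hgg : ∀ s, g.1 s = g.1 (γ • s) := by
      intro s
      have := ker_red p U hU g.2 γ hγ 1 s
      rw [one_smul, one_smul] at this
      exact this.symm
    have h1 := hθ g g γ hgg s
    rw [hg, LinearEquiv.apply_symm_apply] at h1
    exact h1.symm
  -- projections
  have hπ : ∀ M : C, ∃ π ∈ endF G M.1, (∀ f : M.1, (π f).1 ∈ W) ∧ ∀ f : M.1, f.1 ∈ W → π f = f :=
    fun M => hMaschke S G p M.1 M.2.1.1 (hidx M.1 M.2) W hWs (hWle M.1 M.2)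
  choose π hπE hπW hπid using hπ
  have hθ : ∀ M : C, ∃ θ : M₀ ≃ₗ[ZMod p] M.1, ∀ (f f' : M₀) (γ : G),
      (∀ s, f'.1 s = f.1 (γ • s)) → ∀ s, (θ f').1 s = (θ f).1 (γ • s) := fun M => M.2.1.2
  choose θ hθ using hθ
  have hππ : ∀ (M : C) (f : M.1), π M (π M f) = π M f := fun M f => hπid M _ (hπW M f)
  -- the transported projections
  let φ : C → (M₀ →ₗ[ZMod p] M₀) := fun M =>
    ((θ M).symm.toLinearMap.comp (π M)).comp (θ M).toLinearMap
  have hφ : ∀ (M : C) (f : M₀), θ M (φ M f) = π M (θ M f) := by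
    intro M f
    show θ M ((θ M).symm (π M (θ M f))) = _
    rw [LinearEquiv.apply_symm_apply]
  have hφφ : ∀ (M : C) (f : M₀), φ M (φ M f) = φ M f := by
    intro M f
    apply (θ M).injective
    rw [hφ, hφ, hππ]
  have hφE : ∀ M : C, φ M ∈ endF G M₀ := by
    intro M f f' γ hff s
    have h1 := hθ M f f' γ hff
    have h2 := hπE M (θ M f) (θ M f') γ h1
    -- translate of `φ M f`
    set a : M₀ := φ M f with ha
    set a' : M₀ := ⟨fun s => a.1 (γ • s), hM₀s _ a.2 γ⟩ with ha'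
    have h3 : θ M a' = θ M (φ M f') := by
      apply Subtype.ext
      funext t
      rw [hθ M a a' γ (fun _ => rfl) t, ha, hφ, hφ]
      exact (h2 t).symm
    have h4 : a' = φ M f' := (θ M).injective h3
    rw [← h4]
  have hφ0 : ∀ M : C, ∃ u : M₀, φ M u ≠ 0 := by
    intro M
    have hwM : w ∈ M.1 := hWle M.1 M.2 hwW
    refine ⟨(θ M).symm ⟨w, hwM⟩, fun h0 => hw ?_⟩
    have h1 := hφ M ((θ M).symm ⟨w, hwM⟩)
    rw [h0, map_zero, LinearEquiv.apply_symm_apply, hπid M ⟨w, hwM⟩ hwW] at h1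
    exact (congrArg Subtype.val h1).symm
  have hφ1 : ∀ M : C, ∃ v : M₀, φ M v ≠ v := by
    intro M
    obtain ⟨f, hf, hfW⟩ := hWM M.1 M.2
    refine ⟨(θ M).symm ⟨f, hf⟩, fun h0 => hfW ?_⟩
    have h1 := hφ M ((θ M).symm ⟨f, hf⟩)
    rw [h0, LinearEquiv.apply_symm_apply] at h1
    have h2 := hπW M ⟨f, hf⟩
    rw [← h1] at h2
    exact h2
  -- the reference projection
  set ψ : M₀ →ₗ[ZMod p] M₀ := φ ⟨M₁, hM₁⟩ with hψ
  have hψE : ψ ∈ endF G M₀ := hφE _
  have hψψ : ∀ f, ψ (ψ f) = ψ f := hφφ _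
  set ψ' : M₀ →ₗ[ZMod p] M₀ := LinearMap.id - ψ with hψ'
  have hψ'E : ψ' ∈ endF G M₀ := Submodule.sub_mem _ (one_mem_endF G M₀) hψE
  obtain ⟨u0, hu0⟩ := hφ0 ⟨M₁, hM₁⟩
  obtain ⟨v0, hv0⟩ := hφ1 ⟨M₁, hM₁⟩
  have hx : ψ (v0 - ψ v0) = 0 := by rw [map_sub, hψψ, sub_self]
  have hx0 : v0 - ψ v0 ≠ 0 := fun h => hv0 (sub_eq_zero.1 h).symm
  have hy : ψ (ψ u0) = ψ u0 := hψψ u0
  have hdich : ∀ M : C, (∀ f, φ M f = ψ f) ∨ (∀ f, φ M f = ψ' f) := by
    intro M
    obtain ⟨u, hu⟩ := hφ0 M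
    obtain ⟨v, hv⟩ := hφ1 M
    exact copies_idem (endF G M₀) hE0 (one_mem_endF G M₀) ψ (φ M) hψE (hφE M) hψψ (hφφ M)
      (v0 - ψ v0) (ψ u0) hx hx0 hy hu0 u v hu hv
  -- the two pieces
  set A := copiesKer ψ with hA
  set B := copiesKer ψ' with hB
  have hAs : IsStab G A := copiesKer_stab hM₀s ψ hψE
  have hBs : IsStab G B := copiesKer_stab hM₀s ψ' hψ'E
  have hA0 : A ≠ ⊥ := by
    intro h
    apply hx0
    have h1 : ((v0 - ψ v0 : M₀) : S → ZMod p) ∈ A := by
      rw [hA, mem_copiesKer]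
      exact ⟨(v0 - ψ v0).2, hx⟩
    rw [h, Submodule.mem_bot] at h1
    exact Subtype.ext h1
  have hB0 : B ≠ ⊥ := by
    intro h
    apply hu0
    have h1 : ((ψ u0 : M₀) : S → ZMod p) ∈ B := by
      rw [hB, mem_copiesKer]
      refine ⟨(ψ u0).2, ?_⟩
      show ψ u0 - ψ (ψ u0) = 0
      rw [hy, sub_self]
    rw [h, Submodule.mem_bot] at h1
    exact Subtype.ext h1
  have hA2 := hdim A hA0 (copiesKer_le ψ) hAs
  have hB2 := hdim B hB0 (copiesKer_le ψ') hBs
  have hAfr : finrank (ZMod p) A = finrank (ZMod p) (LinearMap.ker ψ) :=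
    Submodule.finrank_map_subtype_eq M₀ (LinearMap.ker ψ)
  have hBfr : finrank (ZMod p) B = finrank (ZMod p) (LinearMap.range ψ) := by
    have h1 : LinearMap.ker ψ' = LinearMap.range ψ := by
      ext f
      rw [LinearMap.mem_ker, LinearMap.mem_range]
      constructor
      · intro h
        exact ⟨f, (sub_eq_zero.1 h).symm⟩
      · rintro ⟨g, rfl⟩
        show ψ g - ψ (ψ g) = 0
        rw [hψψ, sub_self]
    rw [← h1]
    exact Submodule.finrank_map_subtype_eq M₀ (LinearMap.ker ψ')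
  have hsum : finrank (ZMod p) A + finrank (ZMod p) B = D := by
    rw [hAfr, hBfr, ← hfr, add_comm]
    exact LinearMap.finrank_range_add_finrank_ker ψ
  -- counting
  have hmap : ∀ M : C, copiesKer (π M) ∈ copies G A ∪ copies G B := by
    intro M
    have hst : IsStab G (copiesKer (π M)) := copiesKer_stab M.2.1.1 (π M) (hπE M)
    rcases hdich M with h | h
    · left
      refine ⟨hst, ?_⟩
      exact copiesKer_iso (θ M) (hθ M) ψ (π M) (fun f => by rw [← h f]; exact hφ M f)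
    · right
      refine ⟨hst, ?_⟩
      exact copiesKer_iso (θ M) (hθ M) ψ' (π M) (fun f => by rw [← h f]; exact hφ M f)
  have hrec : ∀ M : C, M.1 = W ⊔ copiesKer (π M) := by
    intro M
    apply le_antisymm
    · intro f hf
      rw [Submodule.mem_sup]
      refine ⟨(π M ⟨f, hf⟩).1, hπW M _, f - (π M ⟨f, hf⟩).1, ?_, by abel⟩
      rw [mem_copiesKer]
      refine ⟨M.1.sub_mem hf (π M ⟨f, hf⟩).2, ?_⟩
      have : (⟨f - (π M ⟨f, hf⟩).1, M.1.sub_mem hf (π M ⟨f, hf⟩).2⟩ : M.1) =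
          ⟨f, hf⟩ - π M ⟨f, hf⟩ := rfl
      rw [this, map_sub, hππ, sub_self]
    · exact sup_le (hWle M.1 M.2) (copiesKer_le _)
  have hinj : Function.Injective (fun M : C => (⟨copiesKer (π M), hmap M⟩ :
      ↥(copies G A ∪ copies G B))) := by
    intro M M' h
    have h1 : copiesKer (π M) = copiesKer (π M') := congrArg Subtype.val h
    apply Subtype.ext
    rw [hrec M, hrec M', h1]
  have hcount : C.ncard ≤ (copies G A ∪ copies G B).ncard := by
    rw [← Nat.card_coe_set_eq, ← Nat.card_coe_set_eq]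
    haveI : Finite ↥(copies G A ∪ copies G B) := Set.toFinite _
    exact Nat.card_le_card_of_injective _ hinj
  have h1 := Set.ncard_union_le (copies G A) (copies G B)
  have h2 := copies_card' s₀ A hAs hA0 (d := D - 3) (by omega)
  have h3 := copies_card' s₀ B hBs hB0 (d := D - 3) (by omega)
  omega

end Pool.Agent.Lib.MP_640417_ag.Full
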