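import Pool.Agent.Lib.MP_640417_ag.Full.SpecA
import Pool.Agent.Lib.MP_640417_ag.Far.Count
import Pool.Agent.Lib.MP_640417_ag.Far.Red

/-!
# The number of copies of a reduction, improved form
-/

namespace Pool.Agent.Lib.MP_640417_ag.Full

open Module Finset MulAction Pool.Agent.Lib.MP_640417_ag.Far

/-- A space of endomorphisms closed under composition, as an algebra. -/
def CountEalg {F V : Type} [Field F] [AddCommGroup V] [Module F V]
    (E : Submodule F (V →ₗ[F] V)) (h1 : LinearMap.id ∈ E)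
    (h2 : ∀ a b : V →ₗ[F] V, a ∈ E → b ∈ E → a.comp b ∈ E) : Subalgebra F (Module.End F V) where
  carrier := {a | a ∈ E}
  mul_mem' := fun {a b} ha hb => h2 a b ha hb
  one_mem' := h1
  add_mem' := fun {a b} ha hb => E.add_mem ha hb
  zero_mem' := E.zero_mem
  algebraMap_mem' := fun c => by
    show algebraMap F (Module.End F V) c ∈ E
    rw [Algebra.algebraMap_eq_smul_one]
    exact E.smul_mem c h1

private lemma CountE_units (hUnits : StUnits) (p : ℕ) [hp : Fact p.Prime] {V : Type}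
    [AddCommGroup V] [Module (ZMod p) V] [Finite V]
    (E : Submodule (ZMod p) (V →ₗ[ZMod p] V)) (h1 : LinearMap.id ∈ E)
    (h2 : ∀ a b : V →ₗ[ZMod p] V, a ∈ E → b ∈ E → a.comp b ∈ E) :
    (p - 1) ^ finrank (ZMod p) E
      ≤ Nat.card {ab : (V →ₗ[ZMod p] V) × (V →ₗ[ZMod p] V) // ab.1 ∈ E ∧ ab.2 ∈ E ∧
          ab.1.comp ab.2 = LinearMap.id ∧ ab.2.comp ab.1 = LinearMap.id} := by
  classical
  have : Finite (Module.End (ZMod p) V) := Finite.of_injective
    (fun l : Module.End (ZMod p) V => (l : V → V)) DFunLike.coe_injective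
  have : Finite (V →ₗ[ZMod p] V) := ‹Finite (Module.End (ZMod p) V)›
  have : Finite (CountEalg E h1 h2) := inferInstance
  refine (hUnits p (CountEalg E h1 h2)).trans ?_
  refine Nat.card_le_card_of_injective
    (fun α : (CountEalg E h1 h2)ˣ => ⟨(α.1.1, (α⁻¹).1.1), α.1.2, (α⁻¹).1.2,
      congrArg Subtype.val α.mul_inv, congrArg Subtype.val α.inv_mul⟩) ?_
  intro α α' h
  have h3 := congrArg (fun t => t.1.1) h
  exact Units.ext (Subtype.ext h3)

theorem pCountE (hUnits : StUnits) (hEndGe : StEndGe) : StCountE := by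
  classical
  intro S G _ _ _ _ _ s₀ p hp U hU0 hU hpK
  set B := stabilizer G s₀ with hB
  set T : Set (Submodule (ZMod p) (S → ZMod p)) := copies G (red p U) with hT
  have hθ : ∀ M : T, ∃ θ : red p U ≃ₗ[ZMod p] M.1, ∀ (f f' : red p U) (γ : G),
      (∀ s, f'.1 s = f.1 (γ • s)) → ∀ s, (θ f').1 s = (θ f).1 (γ • s) := fun M => M.2.2
  choose θ hθ using hθ
  have hUn : (p - 1) ^ finrank ℚ (endF G U)
      ≤ Nat.card {ab : (red p U →ₗ[ZMod p] red p U) × (red p U →ₗ[ZMod p] red p U) //
          ab.1 ∈ endF G (red p U) ∧ ab.2 ∈ endF G (red p U) ∧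
          ab.1.comp ab.2 = LinearMap.id ∧ ab.2.comp ab.1 = LinearMap.id} := by
    refine le_trans ?_ (CountE_units hUnits p (endF G (red p U)) (one_mem_endF G _)
      (fun a b ha hb => comp_mem_endF G _ a b ha hb))
    have := hp.out.two_le
    exact Nat.pow_le_pow_right (by omega) (hEndGe S G p U hU)
  set Un := {ab : (red p U →ₗ[ZMod p] red p U) × (red p U →ₗ[ZMod p] red p U) //
          ab.1 ∈ endF G (red p U) ∧ ab.2 ∈ endF G (red p U) ∧
          ab.1.comp ab.2 = LinearMap.id ∧ ab.2.comp ab.1 = LinearMap.id} with hUndef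
  -- the linear form of a unit and a copy
  let ev : Un → T → Dual (ZMod p) (red p U) := fun α M =>
    (LinearMap.proj (R := ZMod p) (φ := fun _ : S => ZMod p) s₀).comp
      ((Submodule.subtype M.1).comp ((θ M).toLinearMap.comp α.1.1))
  have hev : ∀ (α : Un) (M : T) (f : red p U),
      ev α M f = (θ M (α.1.1 f)).1 s₀ := fun α M f => rfl
  have heq : ∀ (α : Un) (M : T) (f f' : red p U) (γ : G),
      (∀ s, f'.1 s = f.1 (γ • s)) → ∀ s, (θ M (α.1.1 f')).1 s = (θ M (α.1.1 f)).1 (γ • s) := by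
    intro α M f f' γ hff
    exact hθ M _ _ γ (α.2.1 f f' γ hff)
  have hevinv : ∀ (α : Un) (M : T), ev α M ∈ invDual p B (red p U) := by
    intro α M b hb f f' hff
    rw [hev, hev, heq α M f f' b hff s₀, show b • s₀ = s₀ from hb]
  -- translates
  let tr : red p U → G → red p U := fun f γ => ⟨fun s => f.1 (γ • s), red_stab p U hU _ f.2 γ⟩
  have hevtr : ∀ (α : Un) (M : T) (f : red p U) (γ : G),
      ev α M (tr f γ) = (θ M (α.1.1 f)).1 (γ • s₀) := by
    intro α M f γ
    rw [hev, heq α M f (tr f γ) γ (fun s => rfl) s₀]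
  let Ψ : Un × T → invDual p B (red p U) := fun o => ⟨ev o.1 o.2, hevinv o.1 o.2⟩
  -- units are surjective
  have hsurj : ∀ (α : Un) (f : red p U), ∃ f', α.1.1 f' = f := by
    intro α f
    exact ⟨α.1.2 f, LinearMap.congr_fun α.2.2.2.1 f⟩
  have hΨ : Function.Injective Ψ := by
    rintro ⟨α, M⟩ ⟨α', M'⟩ h
    have h2 : ev α M = ev α' M' := congrArg Subtype.val h
    have h3 : ∀ (f : red p U), (θ M (α.1.1 f)).1 = (θ M' (α'.1.1 f)).1 := by
      intro f
      funext s
      obtain ⟨γ, rfl⟩ := MulAction.exists_smul_eq G s₀ s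
      have h4 := LinearMap.congr_fun h2 (tr f γ)
      rw [hevtr, hevtr] at h4
      exact h4
    have hle : ∀ (a a' : Un) (A A' : T), (∀ (f : red p U),
        (θ A (a.1.1 f)).1 = (θ A' (a'.1.1 f)).1) → A.1 ≤ A'.1 := by
      intro a a' A A' hAA x hx
      obtain ⟨f', hf'⟩ := hsurj a ((θ A).symm ⟨x, hx⟩)
      have h5 : x = (θ A' (a'.1.1 f')).1 := by
        rw [← hAA, hf', LinearEquiv.apply_symm_apply]
      rw [h5]
      exact (θ A' (a'.1.1 f')).2
    have hMM : M = M' := Subtype.ext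
      (le_antisymm (hle α α' M M' h3) (hle α' α M' M (fun f => (h3 f).symm)))
    subst hMM
    have hα1 : α.1.1 = α'.1.1 := by
      apply LinearMap.ext
      intro f
      apply (θ M).injective
      apply Subtype.ext
      exact h3 f
    have hα2 : α.1.2 = α'.1.2 := by
      calc α.1.2 = α.1.2.comp (α'.1.1.comp α'.1.2) := by rw [α'.2.2.2.1, LinearMap.comp_id]
        _ = (α.1.2.comp α.1.1).comp α'.1.2 := by rw [← hα1, LinearMap.comp_assoc]
        _ = α'.1.2 := by rw [α.2.2.2.2, LinearMap.id_comp]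
    have hαα : α = α' := Subtype.ext (Prod.ext hα1 hα2)
    rw [hαα]
  have : Finite T := Set.toFinite _
  have : Finite (invDual p B (red p U)) := by
    have : Finite (Dual (ZMod p) (red p U)) := Finite.of_injective
      (fun l : Dual (ZMod p) (red p U) => (l : red p U → ZMod p)) DFunLike.coe_injective
    infer_instance
  have hfin := Nat.card_le_card_of_injective Ψ hΨ
  rw [Nat.card_prod, Nat.card_coe_set_eq] at hfin
  calc (p - 1) ^ finrank ℚ (endF G U) * T.ncard
      ≤ Nat.card Un * T.ncard := Nat.mul_le_mul_right _ hUn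
    _ ≤ Nat.card (invDual p B (red p U)) := hfin
    _ ≤ p ^ finrank ℚ ↥(U ⊓ invF ℚ (stabilizer G s₀)) := card_invDual p U red_rank B hU hpK

end Pool.Agent.Lib.MP_640417_ag.Full
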