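import Pool.Agent.Lib.MP_640417_ag.Far.Spec

/-!
# All CM fields: definitions

`G` is a group acting on the set `S`; functions on `S` are translated by `G`.
-/

namespace Pool.Agent.Lib.MP_640417_ag.Full

open Module Finset MulAction Pool.Agent.Lib.MP_640417_ag.Far

section defs

variable {S : Type} (G : Type) [Group G] [MulAction G S] {F : Type} [Field F]

/-- Equivariant linear maps from a space of functions to the space of all functions. -/
def homF (U : Submodule F (S → F)) : Submodule F (U →ₗ[F] (S → F)) where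
  carrier := {θ | ∀ (f f' : U) (γ : G), (∀ s, f'.1 s = f.1 (γ • s)) → ∀ s, θ f' s = θ f (γ • s)}
  add_mem' := by
    intro θ θ' hθ hθ' f f' γ hff s
    simp only [LinearMap.add_apply, Pi.add_apply, hθ f f' γ hff s, hθ' f f' γ hff s]
  zero_mem' := by
    intro f f' γ _ s
    rfl
  smul_mem' := by
    intro c θ hθ f f' γ hff s
    simp only [LinearMap.smul_apply, Pi.smul_apply, hθ f f' γ hff s]

/-- Equivariant endomorphisms of a space of functions. -/
def endF (U : Submodule F (S → F)) : Submodule F (U →ₗ[F] U) where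
  carrier := {θ | ∀ (f f' : U) (γ : G), (∀ s, f'.1 s = f.1 (γ • s)) →
    ∀ s, (θ f').1 s = (θ f).1 (γ • s)}
  add_mem' := by
    intro θ θ' hθ hθ' f f' γ hff s
    simp only [LinearMap.add_apply, Submodule.coe_add, Pi.add_apply, hθ f f' γ hff s,
      hθ' f f' γ hff s]
  zero_mem' := by
    intro f f' γ _ s
    rfl
  smul_mem' := by
    intro c θ hθ f f' γ hff s
    simp only [LinearMap.smul_apply, Submodule.coe_smul, Pi.smul_apply, hθ f f' γ hff s]

lemma mem_homF (U : Submodule F (S → F)) (θ : U →ₗ[F] (S → F)) : θ ∈ homF G U ↔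
    ∀ (f f' : U) (γ : G), (∀ s, f'.1 s = f.1 (γ • s)) → ∀ s, θ f' s = θ f (γ • s) := Iff.rfl

lemma mem_endF (U : Submodule F (S → F)) (θ : U →ₗ[F] U) : θ ∈ endF G U ↔
    ∀ (f f' : U) (γ : G), (∀ s, f'.1 s = f.1 (γ • s)) →
      ∀ s, (θ f').1 s = (θ f).1 (γ • s) := Iff.rfl

lemma one_mem_endF (U : Submodule F (S → F)) : LinearMap.id ∈ endF G U :=
  fun _ _ _ h => h

lemma comp_mem_endF (U : Submodule F (S → F)) (θ θ' : U →ₗ[F] U) (hθ : θ ∈ endF G U)
    (hθ' : θ' ∈ endF G U) : θ.comp θ' ∈ endF G U := by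
  intro f f' γ hff
  exact hθ (θ' f) (θ' f') γ (hθ' f f' γ hff)

variable {G}

/-- The sign functions orthogonal to some space isomorphic to `Y`; over the rational numbers this
is `badSet`. -/
def badSetF [Fintype S] (z : G) (Y : Submodule F (S → F)) : Set (S → ℤ) :=
  {e | IsSgn z e ∧ ∃ Y' : Submodule F (S → F), IsStab G Y' ∧ IsoF G Y Y' ∧ Perp e Y'}

lemma badSetF_rat [Fintype S] (z : G) (U : Submodule ℚ (S → ℚ)) : badSetF z U = badSet z U := rfl

/-- The copies of a space of functions. -/
def copies (G : Type) [Group G] [MulAction G S] (M : Submodule F (S → F)) :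
    Set (Submodule F (S → F)) :=
  {M' | IsStab G M' ∧ IsoF G M M'}

end defs

/-- The product measure of standard normal distributions. -/
noncomputable def gpi (ι : Type) [Fintype ι] : MeasureTheory.Measure (ι → ℝ) :=
  MeasureTheory.Measure.pi (fun _ : ι => ProbabilityTheory.gaussianReal 0 1)

/-- A positive definite function of period `1 / 2` which bounds `|cos (2 π y)|`. -/
noncomputable def ph (y : ℝ) : ℝ := (3 + Real.cos (4 * Real.pi * y)) / 4

/-- The distance to the nearest integer. -/
noncomputable def dz (y : ℝ) : ℝ := |y - round y|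

/-- Integral matrices attached to an absolutely irreducible space of functions. The number `N` is
the order of the group acting. -/
structure MatSys (S G : Type) [Fintype S] [Group G] [MulAction G S] (z : G) (n N : ℕ) where
  /-- the representation -/
  R : G →* Matrix (Fin n) (Fin n) ℤ
  /-- the matrices attached to the points -/
  Φ : S → Matrix (Fin n) (Fin n) ℤ
  smul : ∀ (γ : G) (s : S), Φ (γ • s) = R γ * Φ s
  odd : ∀ s : S, Φ (z • s) = - Φ s
  base : ∃ s₀ : S, Φ s₀ = 1
  indep : ∀ p : ℕ, p.Prime → ¬ p ∣ N → ∀ A : Matrix (Fin n) (Fin n) (ZMod p),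
    (∀ s, (((Φ s).map (Int.cast : ℤ → ZMod p)) * A).trace = 0) → A = 0

section walk

variable {S G : Type} [Fintype S] [Group G] [MulAction G S] {z : G} {n N : ℕ}

/-- The sign attached to a boolean. -/
def sg (b : Bool) : ℤ := if b then 1 else -1

/-- The matrix of a walk: the sum of `K` steps `(ε + ε') • Φ s`, with signs `ε, ε'`. -/
def MatSys.walk (M : MatSys S G z n N) {K : ℕ} (σ : Fin K → S × Bool × Bool) :
    Matrix (Fin n) (Fin n) ℤ :=
  ∑ j, (sg (σ j).2.1 + sg (σ j).2.2) • M.Φ (σ j).1

/-- The number of solutions of `A v = 0` modulo `m`. -/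
noncomputable def kerCard (m : ℕ) (A : Matrix (Fin n) (Fin n) ℤ) : ℕ :=
  {v : Fin n → ZMod m | (A.map (Int.cast : ℤ → ZMod m)).mulVec v = 0}.ncard

/-- The function `s ↦ (β ⬝ Φ s v) / m` for two vectors `v`, `β` modulo `m`, represented by
numbers in `[0, m)`. -/
noncomputable def MatSys.wf (M : MatSys S G z n N) (m : ℕ) (v β : Fin n → ZMod m) (s : S) : ℝ :=
  ((∑ i, ((β i).val : ℤ) * (M.Φ s).mulVec (fun j => ((v j).val : ℤ)) i : ℤ) : ℝ) / m

/-- The sum over `X` of the squares of the distances of `2 wf` to the nearest integer. -/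
noncomputable def MatSys.sz (M : MatSys S G z n N) (X : Finset S) (m : ℕ)
    (v β : Fin n → ZMod m) : ℝ := ∑ x ∈ X, dz (2 * M.wf m v β x) ^ 2

/-- The sign functions for which the integer matrix `∑ s, e s • Φ s` is singular. -/
def MatSys.sing (M : MatSys S G z n N) : Set (S → ℤ) :=
  {e | IsSgn z e ∧ ∃ v : Fin n → ℤ, v ≠ 0 ∧ (∑ s, e s • M.Φ s).mulVec v = 0}

/-- A vector modulo `m` is not zero modulo any prime factor of `m`. -/
def Good (m : ℕ) (v : Fin n → ZMod m) : Prop :=
  ∀ p : ℕ, p.Prime → p ∣ m → ∃ i, ¬ p ∣ (v i).val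

end walk

end Pool.Agent.Lib.MP_640417_ag.Full
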