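import Pool.Agent.Lib.MP_640417_ag.Full.SpecG

/-!
# The distance of one normal vector to the span of the others
-/

namespace Pool.Agent.Lib.MP_640417_ag.Full

open Module Finset MulAction MeasureTheory ProbabilityTheory Pool.Agent.Lib.MP_640417_ag.Far

/-- The law of a normalized linear form of independent standard normal variables. -/
theorem dist_map_linear (κ : Type) [Fintype κ] (U : κ → ℝ) (hU : ∑ a, U a ^ 2 = 1) :
    (gpi κ).map (fun x => ∑ a, U a * x a) = gaussianReal 0 1 := by
  have hm : Measurable (fun x : κ → ℝ => ∑ a, U a * x a) := by fun_prop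
  have : IsProbabilityMeasure (gpi κ) := by unfold gpi; infer_instance
  have : IsProbabilityMeasure ((gpi κ).map (fun x => ∑ a, U a * x a)) :=
    Measure.isProbabilityMeasure_map hm.aemeasurable
  apply Measure.ext_of_charFun
  ext t
  rw [charFun_apply_real, integral_map hm.aemeasurable (by fun_prop), charFun_gaussianReal]
  have h1 : ∀ x : κ → ℝ, Complex.exp (↑t * ↑(∑ a, U a * x a) * Complex.I)
      = ∏ a, Complex.exp (↑(t * U a) * ↑(x a) * Complex.I) := by
    intro x
    rw [← Complex.exp_sum]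
    congr 1
    push_cast
    rw [Finset.mul_sum, Finset.sum_mul]
    refine Finset.sum_congr rfl fun a _ => ?_
    ring
  simp_rw [h1]
  unfold gpi
  rw [integral_fintype_prod_eq_prod (f := fun (a : κ) (y : ℝ) =>
    Complex.exp (↑(t * U a) * ↑y * Complex.I))]
  have h2 : ∀ a, ∫ y : ℝ, Complex.exp (↑(t * U a) * ↑y * Complex.I) ∂(gaussianReal 0 1)
      = Complex.exp (-((t * U a : ℝ) : ℂ) ^ 2 / 2) := by
    intro a
    rw [← charFun_apply_real, charFun_gaussianReal]
    congr 1
    push_cast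
    ring
  simp_rw [h2]
  rw [← Complex.exp_sum]
  congr 1
  have h3 : ∑ a, (-((t * U a : ℝ) : ℂ) ^ 2 / 2) = -((t : ℂ) ^ 2) / 2 * ((∑ a, U a ^ 2 : ℝ) : ℂ) := by
    push_cast
    rw [Finset.mul_sum]
    refine Finset.sum_congr rfl fun a _ => ?_
    ring
  rw [h3, hU]
  push_cast
  ring

theorem dist_small_ball (r : ℝ) (hr : 0 < r) :
    gaussianReal 0 1 (Set.Ioo (-r) r) ≤ ENNReal.ofReal r := by
  rw [gaussianReal_apply 0 one_ne_zero]
  have h : ∀ x : ℝ, gaussianPDF 0 1 x ≤ ENNReal.ofReal (1 / 2) := by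
    intro x
    unfold gaussianPDF
    apply ENNReal.ofReal_le_ofReal
    unfold gaussianPDFReal
    have h1 : (2 : ℝ) ≤ Real.sqrt (2 * Real.pi * ((1 : NNReal) : ℝ)) := by
      apply Real.le_sqrt_of_sq_le
      have := Real.pi_gt_three
      push_cast
      nlinarith
    have h2 : (Real.sqrt (2 * Real.pi * ((1 : NNReal) : ℝ)))⁻¹ ≤ 1 / 2 := by
      rw [one_div]
      exact inv_anti₀ (by norm_num) h1
    have h3 : Real.exp (-(x - 0) ^ 2 / (2 * ((1 : NNReal) : ℝ))) ≤ 1 := by
      rw [Real.exp_le_one_iff]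
      have : 0 ≤ (x - 0) ^ 2 := sq_nonneg _
      push_cast
      linarith
    calc (Real.sqrt (2 * Real.pi * ((1 : NNReal) : ℝ)))⁻¹
          * Real.exp (-(x - 0) ^ 2 / (2 * ((1 : NNReal) : ℝ)))
        ≤ (1 / 2) * 1 := mul_le_mul h2 h3 (Real.exp_pos _).le (by norm_num)
      _ = 1 / 2 := by ring
  calc ∫⁻ x in Set.Ioo (-r) r, gaussianPDF 0 1 x
      ≤ ∫⁻ _ in Set.Ioo (-r) r, ENNReal.ofReal (1 / 2) := lintegral_mono h
    _ = ENNReal.ofReal (1 / 2) * volume (Set.Ioo (-r) r) := by
        rw [lintegral_const, Measure.restrict_apply_univ]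
    _ = ENNReal.ofReal r := by
        rw [Real.volume_Ioo, ← ENNReal.ofReal_mul (by norm_num)]
        congr 1
        ring

/-- A unit vector orthogonal to the span of the other rows. -/
theorem dist_unit (k n : ℕ) (𝔻 : Submodule ℝ ((Fin n → ℝ) →ₗ[ℝ] (Fin n → ℝ)))
    (h : (k - 1) * finrank ℝ 𝔻 < n) (j : Fin k) (w : Fin k → Fin n → ℝ) :
    ∃ u : Fin n → ℝ, ∑ i, u i ^ 2 = 1 ∧ ∀ d : Fin k → 𝔻,
      ∑ i, u i * ∑ l ∈ Finset.univ.erase j, (d l).1 (w l) i = 0 := by
  classical
  let Φ : ({l // l ∈ (Finset.univ : Finset (Fin k)).erase j} → 𝔻) →ₗ[ℝ] (Fin n → ℝ) :=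
    { toFun := fun d => ∑ l, (d l).1 (w l.1)
      map_add' := by
        intro d d'
        rw [← Finset.sum_add_distrib]
        rfl
      map_smul' := by
        intro c d
        rw [RingHom.id_apply, Finset.smul_sum]
        rfl }
  have hrank : finrank ℝ (LinearMap.range Φ) < n := by
    refine lt_of_le_of_lt (LinearMap.finrank_range_le Φ) ?_
    haveI hfree : Module.Free ℝ 𝔻 := Module.Free.of_divisionRing ℝ 𝔻
    haveI hfin : Module.Finite ℝ 𝔻 := inferInstance
    rw [Module.finrank_pi_fintype (R := ℝ)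
      (M := fun _ : {l // l ∈ (Finset.univ : Finset (Fin k)).erase j} => 𝔻)]
    rw [Finset.sum_const, smul_eq_mul, Finset.card_univ, Fintype.card_coe,
      Finset.card_erase_of_mem (Finset.mem_univ _), Finset.card_univ, Fintype.card_fin]
    exact h
  have hlt : LinearMap.range Φ < ⊤ := by
    rw [lt_top_iff_ne_top]
    intro htop
    rw [htop, finrank_top, Module.finrank_fin_fun] at hrank
    exact lt_irrefl _ hrank
  obtain ⟨f, hf0, hf⟩ := Submodule.exists_le_ker_of_lt_top _ hlt
  have hfx : ∀ x : Fin n → ℝ, f x = ∑ i, f (Pi.single i 1) * x i := by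
    intro x
    rw [LinearMap.pi_apply_eq_sum_univ f x]
    refine Finset.sum_congr rfl fun i _ => ?_
    rw [smul_eq_mul, mul_comm]
    congr 2
    ext i'
    simp [Pi.single_apply, eq_comm]
  set q : ℝ := ∑ i, f (Pi.single i 1) ^ 2 with hq
  have hq0 : 0 < q := by
    rcases (Finset.sum_nonneg (fun i _ => sq_nonneg (f (Pi.single i 1))) :
      0 ≤ ∑ i, f (Pi.single i 1) ^ 2).lt_or_eq with h1 | h1
    · exact h1
    · exfalso
      apply hf0
      have h2 : ∀ i ∈ (Finset.univ : Finset (Fin n)), f (Pi.single i 1) ^ 2 = 0 :=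
        (Finset.sum_eq_zero_iff_of_nonneg (fun i _ => sq_nonneg _)).1 h1.symm
      ext x
      have h3 := hfx (LinearMap.single ℝ (fun _ => ℝ) x 1)
      rw [LinearMap.comp_apply, h3]
      refine Finset.sum_eq_zero fun i hi => ?_
      rw [pow_eq_zero_iff (by norm_num : (2 : ℕ) ≠ 0) |>.1 (h2 i hi), zero_mul]
  refine ⟨fun i => f (Pi.single i 1) / Real.sqrt q, ?_, ?_⟩
  · simp_rw [div_pow]
    rw [← Finset.sum_div, Real.sq_sqrt hq0.le]
    exact div_self hq0.ne'
  · intro d
    have h1 : Φ (fun l => d l.1) ∈ LinearMap.ker f := hf (LinearMap.mem_range_self _ _)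
    rw [LinearMap.mem_ker, hfx] at h1
    have h2 : ∀ i, Φ (fun l => d l.1) i = ∑ l ∈ Finset.univ.erase j, (d l).1 (w l) i := by
      intro i
      change (∑ l : {l // l ∈ (Finset.univ : Finset (Fin k)).erase j}, (d l.1).1 (w l.1)) i = _
      rw [Finset.sum_apply]
      exact Finset.sum_coe_sort ((Finset.univ : Finset (Fin k)).erase j)
        (fun l => (d l).1 (w l) i)
    simp_rw [h2] at h1
    calc ∑ i, f (Pi.single i 1) / Real.sqrt q * ∑ l ∈ Finset.univ.erase j, (d l).1 (w l) i
        = (∑ i, f (Pi.single i 1) * ∑ l ∈ Finset.univ.erase j, (d l).1 (w l) i)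
            / Real.sqrt q := by
          rw [Finset.sum_div]
          refine Finset.sum_congr rfl fun i _ => ?_
          ring
      _ = 0 := by rw [h1, zero_div]

theorem dist_open (k n : ℕ) (𝔻 : Submodule ℝ ((Fin n → ℝ) →ₗ[ℝ] (Fin n → ℝ))) (j : Fin k)
    (r : ℝ) : IsOpen {y : Fin k × Fin n → ℝ | ∃ d : Fin k → 𝔻,
    ∑ i, (y (j, i) + ∑ l ∈ Finset.univ.erase j, (d l).1 (fun i' => y (l, i')) i) ^ 2
      < r ^ 2} := by
  have : {y : Fin k × Fin n → ℝ | ∃ d : Fin k → 𝔻,
      ∑ i, (y (j, i) + ∑ l ∈ Finset.univ.erase j, (d l).1 (fun i' => y (l, i')) i) ^ 2 < r ^ 2}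
      = ⋃ d : Fin k → 𝔻, {y : Fin k × Fin n → ℝ |
        ∑ i, (y (j, i) + ∑ l ∈ Finset.univ.erase j, (d l).1 (fun i' => y (l, i')) i) ^ 2
          < r ^ 2} := by
    ext y; simp
  rw [this]
  refine isOpen_iUnion fun d => isOpen_lt ?_ continuous_const
  refine continuous_finsetSum _ fun i _ => ?_
  refine (Continuous.add (continuous_apply _) ?_).pow 2
  refine continuous_finsetSum _ fun l _ => ?_
  have h1 : Continuous (d l).1 := LinearMap.continuous_of_finiteDimensional _
  have h2 : Continuous (fun y : Fin k × Fin n → ℝ => (fun i' => y (l, i'))) := by fun_prop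
  exact (continuous_apply i).comp (h1.comp h2)

theorem pDist : StDist := by
  classical
  intro k n 𝔻 h j r hr
  set T : Set (Fin k × Fin n → ℝ) := {y | ∃ d : Fin k → 𝔻,
    ∑ i, (y (j, i) + ∑ l ∈ Finset.univ.erase j, (d l).1 (fun i' => y (l, i')) i) ^ 2
      < r ^ 2} with hT
  have hTm : MeasurableSet T := (dist_open k n 𝔻 j r).measurableSet
  let p : Fin k × Fin n → Prop := fun a => a.1 = j
  let e := MeasurableEquiv.piEquivPiSubtypeProd (fun _ : Fin k × Fin n => ℝ) p
  have hmp := measurePreserving_piEquivPiSubtypeProd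
    (fun _ : Fin k × Fin n => gaussianReal 0 1) p
  have hμT : gpi (Fin k × Fin n) T
      = ((Measure.pi fun _ : {a // p a} => gaussianReal 0 1).prod
          (Measure.pi fun _ : {a // ¬ p a} => gaussianReal 0 1)) (e.symm ⁻¹' T) := by
    have h1 := hmp.measure_preimage_equiv (e.symm ⁻¹' T)
    rw [← h1]
    unfold gpi
    congr 1
    ext y
    simp [e]
  have hT'm : MeasurableSet (e.symm ⁻¹' T) := e.symm.measurable hTm
  have key : gpi (Fin k × Fin n) T ≤ ENNReal.ofReal r := by
    rw [hμT, Measure.prod_apply_symm hT'm]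
    have hsec : ∀ z : {a // ¬ p a} → ℝ,
        (Measure.pi fun _ : {a // p a} => gaussianReal 0 1)
          ((fun x => (x, z)) ⁻¹' (e.symm ⁻¹' T)) ≤ ENNReal.ofReal r := by
      intro z
      -- the rows
      let w : Fin k → Fin n → ℝ := fun l i => if hl : l = j then 0 else z ⟨(l, i), hl⟩
      obtain ⟨u, hu1, hu2⟩ := dist_unit k n 𝔻 h j w
      have hrow : ∀ x : {a // p a} → ℝ, ∀ i, e.symm (x, z) (j, i) = x ⟨(j, i), rfl⟩ := by
        intro x i
        change (Equiv.piEquivPiSubtypeProd p (fun _ => ℝ)).symm (x, z) (j, i) = _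
        simp [Equiv.piEquivPiSubtypeProd, p]
      have hrow2 : ∀ x : {a // p a} → ℝ, ∀ l, l ≠ j → ∀ i, e.symm (x, z) (l, i) = w l i := by
        intro x l hl i
        change (Equiv.piEquivPiSubtypeProd p (fun _ => ℝ)).symm (x, z) (l, i) = _
        simp [Equiv.piEquivPiSubtypeProd, p, w, hl]
      let U : {a // p a} → ℝ := fun a => u a.1.2
      let eq : Fin n ≃ {a // p a} :=
        { toFun := fun i => ⟨(j, i), rfl⟩
          invFun := fun a => a.1.2
          left_inv := fun i => rfl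
          right_inv := by
            rintro ⟨⟨l, i⟩, hl⟩
            change l = j at hl
            subst hl
            rfl }
      have hU1 : ∑ a, U a ^ 2 = 1 := by
        rw [← hu1]
        exact (Fintype.sum_equiv eq _ _ (fun i => rfl)).symm
      have hUx : ∀ x : {a // p a} → ℝ, ∑ a, U a * x a = ∑ i, u i * x ⟨(j, i), rfl⟩ := by
        intro x
        exact (Fintype.sum_equiv eq _ _ (fun i => rfl)).symm
      have hsub : (fun x => (x, z)) ⁻¹' (e.symm ⁻¹' T)
          ⊆ (fun x : {a // p a} → ℝ => ∑ a, U a * x a) ⁻¹' (Set.Ioo (-r) r) := by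
        intro x hx
        rw [Set.mem_preimage, Set.mem_preimage, hT, Set.mem_ofPred_eq] at hx
        obtain ⟨d, hd⟩ := hx
        have h1 : ∑ i, (x ⟨(j, i), rfl⟩ + ∑ l ∈ Finset.univ.erase j, (d l).1 (w l) i) ^ 2
            < r ^ 2 := by
          refine lt_of_eq_of_lt ?_ hd
          refine Finset.sum_congr rfl fun i _ => ?_
          rw [hrow x i]
          congr 2
          refine Finset.sum_congr rfl fun l hl => ?_
          have hl' : l ≠ j := (Finset.mem_erase.1 hl).1
          have hw : (fun i' => e.symm (x, z) (l, i')) = w l := funext (hrow2 x l hl')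
          rw [hw]
        have h2 : ∑ a, U a * x a
            = ∑ i, u i * (x ⟨(j, i), rfl⟩ + ∑ l ∈ Finset.univ.erase j, (d l).1 (w l) i) := by
          rw [hUx x]
          simp_rw [mul_add]
          rw [Finset.sum_add_distrib, hu2 d, add_zero]
        have h3 : (∑ a, U a * x a) ^ 2 < r ^ 2 := by
          rw [h2]
          refine lt_of_le_of_lt (Finset.sum_mul_sq_le_sq_mul_sq _ _ _) ?_
          rw [hu1, one_mul]
          exact h1
        rw [Set.mem_preimage, Set.mem_Ioo, ← abs_lt]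
        exact abs_lt_of_sq_lt_sq h3 hr.le
      calc (Measure.pi fun _ : {a // p a} => gaussianReal 0 1)
            ((fun x => (x, z)) ⁻¹' (e.symm ⁻¹' T))
          ≤ (Measure.pi fun _ : {a // p a} => gaussianReal 0 1)
            ((fun x : {a // p a} → ℝ => ∑ a, U a * x a) ⁻¹' (Set.Ioo (-r) r)) :=
            measure_mono hsub
        _ = (gpi {a // p a}).map (fun x : {a // p a} → ℝ => ∑ a, U a * x a)
              (Set.Ioo (-r) r) := by
            rw [Measure.map_apply (by fun_prop) measurableSet_Ioo]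
            rfl
        _ = gaussianReal 0 1 (Set.Ioo (-r) r) := by rw [dist_map_linear _ U hU1]
        _ ≤ ENNReal.ofReal r := dist_small_ball r hr
    calc ∫⁻ z, (Measure.pi fun _ : {a // p a} => gaussianReal 0 1)
          ((fun x => (x, z)) ⁻¹' (e.symm ⁻¹' T))
            ∂(Measure.pi fun _ : {a // ¬ p a} => gaussianReal 0 1)
        ≤ ∫⁻ _, ENNReal.ofReal r ∂(Measure.pi fun _ : {a // ¬ p a} => gaussianReal 0 1) :=
          lintegral_mono hsec
      _ = ENNReal.ofReal r := by simp
  rw [Measure.real]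
  exact ENNReal.toReal_le_of_le_ofReal hr.le key

end Pool.Agent.Lib.MP_640417_ag.Full
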