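import Pool.Agent.Lib.MP_640417_ag.Full.SpecB

/-!
# The loss of rank modulo `m` of a short integral combination of elements of a finite matrix group

Proof of `StDrop`. Write `A = B P` with integer matrices `B` (`n × r`, injective) and `P` (`r × n`,
`P S = 1` for an integer matrix `S`): the columns of `B` are a `ℤ`-basis of the range of `A`. Let
`A' = ∑ j, c j • R (γ j)⁻¹` and `D = P A' B` (`r × r`), so that `P A' A = D P`. `A'` is the adjoint of
`A` for the invariant positive definite form `∑ g, (R g u) ⬝ (R g v)`, so `D` is injective. `P` maps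
the kernel of `A` modulo `m` to the kernel of `D` modulo `m`, which has at most `|det D|` elements, and
the kernel of `P` modulo `m` has `m ^ (n - r)` elements. Finally `D ^ k = P (A' A) ^ k S` has entries
bounded by `C L ^ (2 k)`, so `|det D| ^ k ≤ C' L ^ (2 r k)` for all `k`, and `|det D| ≤ L ^ (2 r)`.
-/

namespace Pool.Agent.Lib.MP_640417_ag.Full

open Module Finset Matrix

private theorem drop_factor {n : ℕ} (A : Matrix (Fin n) (Fin n) ℤ) :
    ∃ (r : ℕ) (B : Matrix (Fin n) (Fin r) ℤ) (P : Matrix (Fin r) (Fin n) ℤ)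
      (S : Matrix (Fin n) (Fin r) ℤ), A = B * P ∧ P * S = 1 ∧
      ∀ x : Fin r → ℤ, B *ᵥ x = 0 → x = 0 := by
  classical
  let Λ := LinearMap.range A.mulVecLin
  let b := Module.finBasis ℤ Λ
  let p : (Fin n → ℤ) →ₗ[ℤ] (Fin (finrank ℤ Λ) → ℤ) :=
    b.equivFun.toLinearMap ∘ₗ A.mulVecLin.rangeRestrict
  have hp : Function.Surjective p := by
    intro x
    obtain ⟨v, hv⟩ := A.mulVecLin.surjective_rangeRestrict (b.equivFun.symm x)
    refine ⟨v, ?_⟩
    change b.equivFun (A.mulVecLin.rangeRestrict v) = x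
    rw [hv, LinearEquiv.apply_symm_apply]
  obtain ⟨s, hs⟩ := Module.projective_lifting_property p LinearMap.id hp
  let β : (Fin (finrank ℤ Λ) → ℤ) →ₗ[ℤ] (Fin n → ℤ) := Λ.subtype ∘ₗ b.equivFun.symm.toLinearMap
  refine ⟨finrank ℤ Λ, LinearMap.toMatrix' β, LinearMap.toMatrix' p, LinearMap.toMatrix' s,
    ?_, ?_, ?_⟩
  · rw [← LinearMap.toMatrix'_comp]
    have : β ∘ₗ p = A.mulVecLin := by
      apply LinearMap.ext
      intro v
      simp only [β, p, LinearMap.comp_apply, LinearEquiv.coe_coe, LinearEquiv.symm_apply_apply,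
        Submodule.subtype_apply]
      rfl
    rw [this, ← Matrix.toLin'_apply', LinearMap.toMatrix'_toLin']
  · rw [← LinearMap.toMatrix'_comp, hs, LinearMap.toMatrix'_id]
  · intro x hx
    rw [LinearMap.toMatrix'_mulVec] at hx
    have h1 : b.equivFun.symm x = 0 := by
      apply Subtype.ext
      exact hx
    exact (LinearEquiv.map_eq_zero_iff b.equivFun.symm).1 h1

private theorem drop_ker {r : ℕ} (D : Matrix (Fin r) (Fin r) ℤ) (hD : D.det ≠ 0) (m : ℕ)
    [NeZero m] :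
    Nat.card {x : Fin r → ZMod m // (D.map (Int.cast : ℤ → ZMod m)) *ᵥ x = 0} ≤
      D.det.natAbs := by
  classical
  have hinj : ∀ x : Fin r → ℤ, D *ᵥ x = 0 → x = 0 := by
    intro x hx
    by_contra hne
    exact hD (Matrix.exists_mulVec_eq_zero_iff.1 ⟨x, hne, hx⟩)
  have hinj' : Function.Injective D.mulVecLin := by
    rw [injective_iff_map_eq_zero]
    intro x hx
    exact hinj x hx
  have hcard : D.det.natAbs = Nat.card ((Fin r → ℤ) ⧸ LinearMap.range D.mulVecLin) := by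
    rw [← Submodule.natAbs_det_equiv (LinearMap.range D.mulVecLin)
      (LinearEquiv.ofInjective D.mulVecLin hinj')]
    congr 1
    have : (LinearMap.range D.mulVecLin).subtype ∘ₗ AddMonoidHom.toIntLinearMap
        ((LinearEquiv.ofInjective D.mulVecLin hinj' :
          (Fin r → ℤ) ≃ₗ[ℤ] LinearMap.range D.mulVecLin) :
          (Fin r → ℤ) →+ LinearMap.range D.mulVecLin) = D.mulVecLin := by
      apply LinearMap.ext
      intro v
      rfl
    rw [this, ← Matrix.toLin'_apply', LinearMap.det_toLin']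
  have hne : Nat.card ((Fin r → ℤ) ⧸ LinearMap.range D.mulVecLin) ≠ 0 := by
    rw [← hcard]
    exact Int.natAbs_ne_zero.2 hD
  have hfin : Finite ((Fin r → ℤ) ⧸ LinearMap.range D.mulVecLin) :=
    Nat.finite_of_card_ne_zero hne
  -- the lift
  have hlift : ∀ x : {x : Fin r → ZMod m // (D.map (Int.cast : ℤ → ZMod m)) *ᵥ x = 0},
      ∃ y : Fin r → ℤ, D *ᵥ (fun i => ((x.1 i).val : ℤ)) = (m : ℤ) • y := by
    intro x
    have h1 : ∀ i, (m : ℤ) ∣ (D *ᵥ (fun i => ((x.1 i).val : ℤ))) i := by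
      intro i
      rw [← ZMod.intCast_zmod_eq_zero_iff_dvd]
      have h2 := congrFun x.2 i
      simp only [Matrix.mulVec, dotProduct, Matrix.map_apply, Pi.zero_apply] at h2 ⊢
      push_cast
      simpa using h2
    choose y hy using h1
    exact ⟨y, by ext i; rw [hy i, Pi.smul_apply, smul_eq_mul]⟩
  choose y hy using hlift
  rw [hcard]
  apply Nat.card_le_card_of_injective
    (fun x => Submodule.Quotient.mk (p := LinearMap.range D.mulVecLin) (y x))
  intro x x' hxx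
  have h1 := (Submodule.Quotient.eq (LinearMap.range D.mulVecLin)).1 hxx
  obtain ⟨z, hz⟩ := h1
  have hz' : D *ᵥ z = y x - y x' := hz
  have hm : (m : ℤ) ≠ 0 := by exact_mod_cast NeZero.ne m
  have h2 : D *ᵥ ((fun i => ((x.1 i).val : ℤ)) - (fun i => ((x'.1 i).val : ℤ)) - (m : ℤ) • z) = 0 := by
    rw [Matrix.mulVec_sub, Matrix.mulVec_sub, hy, hy, Matrix.mulVec_smul, hz', smul_sub, sub_self]
  have h3 := hinj _ h2
  apply Subtype.ext
  funext i
  have h4 := congrFun h3 i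
  simp only [Pi.sub_apply, Pi.smul_apply, smul_eq_mul, Pi.zero_apply] at h4
  have h5 : (((x.1 i).val : ℤ) : ZMod m) = (((x'.1 i).val : ℤ) : ZMod m) := by
    rw [ZMod.intCast_eq_intCast_iff_dvd_sub]
    refine ⟨- z i, ?_⟩
    linarith
  simpa using h5

private theorem drop_pow {d C t : ℝ} (ht : 1 ≤ t) (h : ∀ k : ℕ, d ^ k ≤ C * t ^ k) : d ≤ t := by
  by_contra hlt
  push Not at hlt
  have ht0 : 0 < t := by linarith
  have h1 : 1 < d / t := by rwa [one_lt_div ht0]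
  obtain ⟨k, hk⟩ := pow_unbounded_of_one_lt C h1
  have h2 := h k
  have h3 : 0 < t ^ k := pow_pos ht0 k
  rw [div_pow, lt_div_iff₀ h3] at hk
  linarith

private theorem drop_count {n r : ℕ} (A' : Matrix (Fin n) (Fin n) ℤ)
    (B : Matrix (Fin n) (Fin r) ℤ) (P : Matrix (Fin r) (Fin n) ℤ) (S : Matrix (Fin n) (Fin r) ℤ)
    (hPS : P * S = 1) (hD : (P * A' * B).det ≠ 0) (m : ℕ) [NeZero m] :
    kerCard m (B * P) * m ^ r ≤ (P * A' * B).det.natAbs * m ^ n := by
  classical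
  let f : ℤ →+* ZMod m := Int.castRingHom (ZMod m)
  have hf : (Int.cast : ℤ → ZMod m) = f := rfl
  have hPS' : P.map f * S.map f = 1 := by
    rw [← Matrix.map_mul, hPS]
    simp
  have hPSv : ∀ x : Fin r → ZMod m, P.map f *ᵥ (S.map f *ᵥ x) = x := by
    intro x
    rw [Matrix.mulVec_mulVec, hPS', Matrix.one_mulVec]
  have h1 : kerCard m (B * P) ≤
      Nat.card {x : Fin r → ZMod m // ((P * A' * B).map (Int.cast : ℤ → ZMod m)) *ᵥ x = 0} *
        Nat.card {v : Fin n → ZMod m // P.map f *ᵥ v = 0} := by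
    rw [kerCard, ← Nat.card_coe_set_eq, ← Nat.card_prod]
    have key : ∀ v : Fin n → ZMod m, ((B * P).map (Int.cast : ℤ → ZMod m)) *ᵥ v = 0 →
        ((P * A' * B).map (Int.cast : ℤ → ZMod m)) *ᵥ (P.map f *ᵥ v) = 0 := by
      intro v hv
      rw [hf] at hv ⊢
      rw [Matrix.map_mul] at hv ⊢
      rw [Matrix.mulVec_mulVec, Matrix.mul_assoc, ← Matrix.mulVec_mulVec, hv,
        Matrix.mulVec_zero]
    apply Nat.card_le_card_of_injective
      (fun v : {v : Fin n → ZMod m | ((B * P).map (Int.cast : ℤ → ZMod m)) *ᵥ v = 0} =>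
        ((⟨P.map f *ᵥ v.1, key v.1 v.2⟩, ⟨v.1 - S.map f *ᵥ (P.map f *ᵥ v.1), by
          rw [Matrix.mulVec_sub, hPSv, sub_self]⟩) :
          {x : Fin r → ZMod m // ((P * A' * B).map (Int.cast : ℤ → ZMod m)) *ᵥ x = 0} ×
            {v : Fin n → ZMod m // P.map f *ᵥ v = 0}))
    intro v v' hvv
    simp only [Prod.mk.injEq, Subtype.mk.injEq] at hvv
    obtain ⟨h2, h3⟩ := hvv
    rw [h2] at h3
    exact Subtype.ext (sub_left_injective h3)
  have h2 : m ^ r * Nat.card {v : Fin n → ZMod m // P.map f *ᵥ v = 0} ≤ m ^ n := by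
    have e1 : m ^ r = Nat.card (Fin r → ZMod m) := by
      simp
    have e2 : m ^ n = Nat.card (Fin n → ZMod m) := by
      simp
    rw [e1, e2, ← Nat.card_prod]
    apply Nat.card_le_card_of_injective
      (fun q : (Fin r → ZMod m) × {v : Fin n → ZMod m // P.map f *ᵥ v = 0} =>
        S.map f *ᵥ q.1 + q.2.1)
    intro q q' hqq
    have h3 : q.1 = q'.1 := by
      have := congrArg (fun w => P.map f *ᵥ w) hqq
      simpa [Matrix.mulVec_add, hPSv, q.2.2, q'.2.2] using this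
    have h4 : q.2.1 = q'.2.1 := by
      simp only at hqq
      rw [h3] at hqq
      exact add_left_cancel hqq
    exact Prod.ext h3 (Subtype.ext h4)
  calc kerCard m (B * P) * m ^ r
      ≤ (Nat.card {x : Fin r → ZMod m //
          ((P * A' * B).map (Int.cast : ℤ → ZMod m)) *ᵥ x = 0} *
        Nat.card {v : Fin n → ZMod m // P.map f *ᵥ v = 0}) * m ^ r :=
        Nat.mul_le_mul_right _ h1
    _ = Nat.card {x : Fin r → ZMod m //
          ((P * A' * B).map (Int.cast : ℤ → ZMod m)) *ᵥ x = 0} *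
        (m ^ r * Nat.card {v : Fin n → ZMod m // P.map f *ᵥ v = 0}) := by ring
    _ ≤ (P * A' * B).det.natAbs * m ^ n := Nat.mul_le_mul (drop_ker _ hD m) h2

/-- Bounded under the group. -/
private def DropBd {G : Type} [Group G] {n : ℕ} (R : G →* Matrix (Fin n) (Fin n) ℤ)
    (v : Fin n → ℤ) (t : ℤ) : Prop := ∀ g i, |(R g *ᵥ v) i| ≤ t

private theorem drop_bd_comb {G : Type} [Group G] {n : ℕ} (R : G →* Matrix (Fin n) (Fin n) ℤ)
    {J : Type} [Fintype J] (c : J → ℤ) (γ : J → G) (L : ℤ) (hL : ∑ j, |c j| ≤ L)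
    (v : Fin n → ℤ) (t : ℤ) (ht : 0 ≤ t) (h : DropBd R v t) :
    DropBd R ((∑ j, c j • R (γ j)) *ᵥ v) (L * t) := by
  intro g i
  have h1 : (R g *ᵥ ((∑ j, c j • R (γ j)) *ᵥ v)) i = ∑ j, c j * (R (g * γ j) *ᵥ v) i := by
    rw [Matrix.mulVec_mulVec, Finset.mul_sum]
    rw [Matrix.sum_mulVec]
    simp only [Finset.sum_apply]
    apply Finset.sum_congr rfl
    intro j _
    rw [Matrix.mul_smul, ← map_mul, Matrix.smul_mulVec, Pi.smul_apply, smul_eq_mul]
  rw [h1]
  calc |∑ j, c j * (R (g * γ j) *ᵥ v) i| ≤ ∑ j, |c j * (R (g * γ j) *ᵥ v) i| :=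
        Finset.abs_sum_le_sum_abs _ _
    _ ≤ ∑ j, |c j| * t := by
        apply Finset.sum_le_sum
        intro j _
        rw [abs_mul]
        exact mul_le_mul_of_nonneg_left (h _ _) (abs_nonneg _)
    _ = (∑ j, |c j|) * t := by rw [Finset.sum_mul]
    _ ≤ L * t := mul_le_mul_of_nonneg_right hL ht

private theorem drop_bd_pow {G : Type} [Group G] {n : ℕ} (R : G →* Matrix (Fin n) (Fin n) ℤ)
    {J : Type} [Fintype J] (c : J → ℤ) (γ : J → G) (L : ℤ) (hL0 : 0 ≤ L) (hL : ∑ j, |c j| ≤ L)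
    (v : Fin n → ℤ) (t : ℤ) (ht : 0 ≤ t) (h : DropBd R v t) (k : ℕ) :
    DropBd R ((((∑ j, c j • R (γ j)⁻¹) * (∑ j, c j • R (γ j))) ^ k) *ᵥ v) ((L ^ 2) ^ k * t) := by
  induction k with
  | zero => simpa using h
  | succ k ih =>
    rw [pow_succ', ← Matrix.mulVec_mulVec, ← Matrix.mulVec_mulVec]
    have h0 : 0 ≤ (L ^ 2) ^ k * t := by positivity
    have h1 := drop_bd_comb R c γ L hL _ _ h0 ih
    have h2 := drop_bd_comb R c (fun j => (γ j)⁻¹) L hL _ _ (mul_nonneg hL0 h0) h1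
    have e : (L ^ 2) ^ (k + 1) * t = L * (L * ((L ^ 2) ^ k * t)) := by ring
    rw [e]
    exact h2

/-- The invariant form. -/
private def dropForm {G : Type} [Group G] [Fintype G] {n : ℕ}
    (R : G →* Matrix (Fin n) (Fin n) ℤ) (u v : Fin n → ℤ) : ℤ :=
  ∑ g, (R g *ᵥ u) ⬝ᵥ (R g *ᵥ v)

private theorem dropForm_self {G : Type} [Group G] [Fintype G] {n : ℕ}
    (R : G →* Matrix (Fin n) (Fin n) ℤ) (v : Fin n → ℤ) (h : dropForm R v v = 0) : v = 0 := by
  classical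
  unfold dropForm at h
  have h0 : ∀ w : Fin n → ℤ, 0 ≤ w ⬝ᵥ w := by
    intro w
    exact Finset.sum_nonneg fun i _ => mul_self_nonneg _
  have h1 := (Finset.sum_eq_zero_iff_of_nonneg (fun g _ => h0 (R g *ᵥ v))).1 h 1 (mem_univ _)
  rw [map_one, Matrix.one_mulVec] at h1
  exact dotProduct_self_eq_zero.1 h1

private theorem dropForm_adj {G : Type} [Group G] [Fintype G] {n : ℕ}
    (R : G →* Matrix (Fin n) (Fin n) ℤ) (h : G) (u v : Fin n → ℤ) :
    dropForm R (R h *ᵥ u) v = dropForm R u (R h⁻¹ *ᵥ v) := by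
  classical
  unfold dropForm
  rw [← Equiv.sum_comp (Equiv.mulRight h) (fun g => (R g *ᵥ u) ⬝ᵥ (R g *ᵥ (R h⁻¹ *ᵥ v)))]
  apply Finset.sum_congr rfl
  intro g _
  simp only [Equiv.coe_mulRight]
  rw [Matrix.mulVec_mulVec, Matrix.mulVec_mulVec, ← map_mul, ← map_mul, mul_inv_cancel_right]

private theorem dropForm_comb {G : Type} [Group G] [Fintype G] {n : ℕ}
    (R : G →* Matrix (Fin n) (Fin n) ℤ)
    {J : Type} [Fintype J] (c : J → ℤ) (γ : J → G) (u v : Fin n → ℤ) :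
    dropForm R ((∑ j, c j • R (γ j)) *ᵥ u) v = dropForm R u ((∑ j, c j • R (γ j)⁻¹) *ᵥ v) := by
  classical
  have h1 : dropForm R ((∑ j, c j • R (γ j)) *ᵥ u) v = ∑ j, c j * dropForm R (R (γ j) *ᵥ u) v := by
    unfold dropForm
    simp only [Matrix.sum_mulVec, Matrix.mulVec_sum, sum_dotProduct, Matrix.smul_mulVec,
      Matrix.mulVec_smul, smul_dotProduct, smul_eq_mul, Finset.mul_sum]
    rw [Finset.sum_comm]
  have h2 : dropForm R u ((∑ j, c j • R (γ j)⁻¹) *ᵥ v) =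
      ∑ j, c j * dropForm R u (R (γ j)⁻¹ *ᵥ v) := by
    unfold dropForm
    simp only [Matrix.sum_mulVec, Matrix.mulVec_sum, dotProduct_sum, Matrix.smul_mulVec,
      Matrix.mulVec_smul, dotProduct_smul, smul_eq_mul, Finset.mul_sum]
    rw [Finset.sum_comm]
  rw [h1, h2]
  apply Finset.sum_congr rfl
  intro j _
  rw [dropForm_adj]

private theorem drop_inj {G : Type} [Group G] [Fintype G] {n : ℕ}
    (R : G →* Matrix (Fin n) (Fin n) ℤ)
    {J : Type} [Fintype J] (c : J → ℤ) (γ : J → G) (u : Fin n → ℤ)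
    (h : (∑ j, c j • R (γ j)) *ᵥ ((∑ j, c j • R (γ j)⁻¹) *ᵥ ((∑ j, c j • R (γ j)) *ᵥ u)) = 0) :
    (∑ j, c j • R (γ j)) *ᵥ u = 0 := by
  set A := ∑ j, c j • R (γ j) with hA
  set A' := ∑ j, c j • R (γ j)⁻¹ with hA'
  have hadj : ∀ u v, dropForm R (A *ᵥ u) v = dropForm R u (A' *ᵥ v) :=
    fun u v => dropForm_comb R c γ u v
  have hz1 : ∀ v, dropForm R v 0 = 0 := by
    intro v; simp [dropForm]
  have hz2 : ∀ v, dropForm R 0 v = 0 := by
    intro v; simp [dropForm]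
  have h1 : A' *ᵥ (A *ᵥ u) = 0 := by
    apply dropForm_self R
    rw [← hadj, h, hz2]
  apply dropForm_self R
  rw [hadj, h1, hz1]

private theorem drop_det {G : Type} [Group G] [Finite G] {n r : ℕ}
    (R : G →* Matrix (Fin n) (Fin n) ℤ)
    {J : Type} [Fintype J] (c : J → ℤ) (γ : J → G) (L : ℕ) (hL : ∑ j, |c j| ≤ L) (hL1 : 1 ≤ L)
    (P : Matrix (Fin r) (Fin n) ℤ) (B S : Matrix (Fin n) (Fin r) ℤ) (hPS : P * S = 1)
    (hA : ∑ j, c j • R (γ j) = B * P) :
    (((P * (∑ j, c j • R (γ j)⁻¹) * B).det.natAbs : ℕ) : ℝ) ≤ (L : ℝ) ^ (2 * r) := by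
  classical
  have := Fintype.ofFinite G
  set A := ∑ j, c j • R (γ j) with hAdef
  set A' := ∑ j, c j • R (γ j)⁻¹ with hA'def
  -- powers
  have hpow : ∀ k : ℕ, (P * A' * B) ^ k * P = P * (A' * A) ^ k := by
    intro k
    induction k with
    | zero => simp
    | succ k ih =>
      have e1 : P * A' * B * P = P * (A' * A) := by
        rw [Matrix.mul_assoc (P * A'), ← hA, Matrix.mul_assoc]
      rw [pow_succ, Matrix.mul_assoc, e1, ← Matrix.mul_assoc, ih, Matrix.mul_assoc, ← pow_succ]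
  have hpow' : ∀ k : ℕ, (P * A' * B) ^ k = P * (A' * A) ^ k * S := by
    intro k
    rw [← hpow, Matrix.mul_assoc _ P S, hPS, Matrix.mul_one]
  let T : ℤ := ∑ g : G, ∑ j : Fin r, ∑ i : Fin n, |(R g *ᵥ Sᵀ j) i|
  have hT0 : 0 ≤ T := by positivity
  have hT : ∀ j, DropBd R (Sᵀ j) T := by
    intro j g i
    calc |(R g *ᵥ Sᵀ j) i| ≤ ∑ i : Fin n, |(R g *ᵥ Sᵀ j) i| :=
          Finset.single_le_sum (f := fun i => |(R g *ᵥ Sᵀ j) i|) (fun _ _ => abs_nonneg _)
            (mem_univ i)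
      _ ≤ ∑ j : Fin r, ∑ i : Fin n, |(R g *ᵥ Sᵀ j) i| :=
          Finset.single_le_sum (f := fun j => ∑ i : Fin n, |(R g *ᵥ Sᵀ j) i|)
            (fun _ _ => Finset.sum_nonneg fun _ _ => abs_nonneg _) (mem_univ j)
      _ ≤ T := Finset.single_le_sum (f := fun g => ∑ j : Fin r, ∑ i : Fin n, |(R g *ᵥ Sᵀ j) i|)
            (fun _ _ => Finset.sum_nonneg fun _ _ => Finset.sum_nonneg fun _ _ => abs_nonneg _)
            (mem_univ g)
  let p0 : ℤ := ∑ i : Fin r, ∑ l : Fin n, |P i l|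
  have hp00 : 0 ≤ p0 := by positivity
  have hp0 : ∀ i, ∑ l : Fin n, |P i l| ≤ p0 := by
    intro i
    exact Finset.single_le_sum (f := fun i => ∑ l : Fin n, |P i l|)
            (fun _ _ => Finset.sum_nonneg fun _ _ => abs_nonneg _) (mem_univ i)
  have hent : ∀ (k : ℕ) (i j : Fin r),
      |((P * A' * B) ^ k) i j| ≤ p0 * (((L : ℤ) ^ 2) ^ k * T) := by
    intro k i j
    have h1 : ((P * A' * B) ^ k) i j = ∑ l, P i l * ((A' * A) ^ k *ᵥ Sᵀ j) l := by
      rw [hpow', Matrix.mul_assoc, Matrix.mul_apply]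
      rfl
    have h2 := drop_bd_pow R c γ L (by positivity) hL (Sᵀ j) T hT0 (hT j) k
    rw [h1]
    calc |∑ l, P i l * ((A' * A) ^ k *ᵥ Sᵀ j) l| ≤ ∑ l, |P i l * ((A' * A) ^ k *ᵥ Sᵀ j) l| :=
          Finset.abs_sum_le_sum_abs _ _
      _ ≤ ∑ l, |P i l| * (((L : ℤ) ^ 2) ^ k * T) := by
          apply Finset.sum_le_sum
          intro l _
          rw [abs_mul]
          apply mul_le_mul_of_nonneg_left _ (abs_nonneg _)
          have h3 := h2 1 l
          rwa [map_one, Matrix.one_mulVec] at h3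
      _ = (∑ l, |P i l|) * (((L : ℤ) ^ 2) ^ k * T) := by rw [Finset.sum_mul]
      _ ≤ p0 * (((L : ℤ) ^ 2) ^ k * T) :=
          mul_le_mul_of_nonneg_right (hp0 i) (mul_nonneg (pow_nonneg (sq_nonneg _) k) hT0)
  have hdet : ∀ k : ℕ, |(P * A' * B).det| ^ k ≤
      (r.factorial : ℤ) * (p0 * (((L : ℤ) ^ 2) ^ k * T)) ^ r := by
    intro k
    have h1 := Matrix.det_le (A := (P * A' * B) ^ k) (abv := AbsoluteValue.abs)
      (x := p0 * (((L : ℤ) ^ 2) ^ k * T)) (fun i j => hent k i j)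
    rw [Matrix.det_pow, Fintype.card_fin, nsmul_eq_mul] at h1
    rw [← abs_pow]
    exact h1
  generalize (P * A' * B).det = δ at hdet ⊢
  apply drop_pow (C := (r.factorial : ℝ) * ((p0 : ℝ) * T) ^ r)
  · exact one_le_pow₀ (by exact_mod_cast hL1)
  · intro k
    have h1 := hdet k
    rw [Nat.cast_natAbs]
    have h3 : (((|δ| ^ k : ℤ)) : ℝ) ≤
        (((r.factorial : ℤ) * (p0 * (((L : ℤ) ^ 2) ^ k * T)) ^ r : ℤ) : ℝ) := by
      exact_mod_cast h1
    generalize p0 = p1 at h3 ⊢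
    generalize T = T1 at h3 ⊢
    push_cast at h3 ⊢
    calc _ ≤ _ := h3
      _ = (r.factorial : ℝ) * ((p1 : ℝ) * T1) ^ r * ((L : ℝ) ^ (2 * r)) ^ k := by
        ring

/-- The loss of rank modulo `m`. -/
theorem pDrop : StDrop := by
  intro G _ _ n R J _ c γ L hL1 hL m hm _
  classical
  have := Fintype.ofFinite G
  have hm0 : m ≠ 0 := hm.ne_zero
  have : NeZero m := ⟨hm0⟩
  obtain ⟨r, B, P, S, hA, hPS, hB⟩ := drop_factor (∑ j, c j • R (γ j))
  have hAu : ∀ u, (∑ j, c j • R (γ j)) *ᵥ u = B *ᵥ (P *ᵥ u) := by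
    intro u
    rw [hA, Matrix.mulVec_mulVec]
  have hDne : (P * (∑ j, c j • R (γ j)⁻¹) * B).det ≠ 0 := by
    intro h0
    obtain ⟨x, hx, hx0⟩ := Matrix.exists_mulVec_eq_zero_iff.2 h0
    apply hx
    have hPSx : P *ᵥ (S *ᵥ x) = x := by
      rw [Matrix.mulVec_mulVec, hPS, Matrix.one_mulVec]
    have h1 : (∑ j, c j • R (γ j)) *ᵥ (S *ᵥ x) = 0 := by
      apply drop_inj R c γ
      rw [hAu (S *ᵥ x), hPSx, hAu, ← Matrix.mulVec_mulVec, ← Matrix.mulVec_mulVec] at *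
      rw [hx0, Matrix.mulVec_zero]
    rw [hAu, hPSx] at h1
    exact hB x h1
  have hcount := drop_count (∑ j, c j • R (γ j)⁻¹) B P S hPS hDne m
  have hdet := drop_det R c γ L hL hL1 P B S hPS hA
  have hrn : r ≤ n := by
    have h1 : (1 : Matrix (Fin r) (Fin r) ℤ).rank ≤ n := by
      rw [← hPS]
      exact (Matrix.rank_mul_le_left P S).trans (Matrix.rank_le_width P)
    simpa using h1
  have hrank : ((∑ j, c j • R (γ j)).map (Int.cast : ℤ → ℚ)).rank ≤ r := by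
    have h1 : (∑ j, c j • R (γ j)).map (Int.cast : ℤ → ℚ) =
        B.map (Int.castRingHom ℚ) * P.map (Int.castRingHom ℚ) := by
      rw [← Matrix.map_mul, ← hA]
      rfl
    rw [h1]
    exact (Matrix.rank_mul_le_left _ _).trans (Matrix.rank_le_width _)
  rw [← hA] at hcount
  have hm1 : (1 : ℝ) ≤ m := by exact_mod_cast Nat.one_le_iff_ne_zero.2 hm0
  have hmr : (0 : ℝ) < (m : ℝ) ^ r := by positivity
  have h1 : (kerCard m (∑ j, c j • R (γ j)) : ℝ) * (m : ℝ) ^ r ≤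
      (((P * (∑ j, c j • R (γ j)⁻¹) * B).det.natAbs : ℕ) : ℝ) * (m : ℝ) ^ n := by
    exact_mod_cast hcount
  have h2 : (m : ℝ) ^ n = (m : ℝ) ^ (n - r) * (m : ℝ) ^ r := by
    rw [← pow_add, Nat.sub_add_cancel hrn]
  rw [h2, ← mul_assoc] at h1
  have h3 := le_of_mul_le_mul_right h1 hmr
  have hL1' : (1 : ℝ) ≤ L := by exact_mod_cast hL1
  calc (kerCard m (∑ j, c j • R (γ j)) : ℝ)
      ≤ (((P * (∑ j, c j • R (γ j)⁻¹) * B).det.natAbs : ℕ) : ℝ) * (m : ℝ) ^ (n - r) := h3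
    _ ≤ (L : ℝ) ^ (2 * n) *
        (m : ℝ) ^ (n - ((∑ j, c j • R (γ j)).map (Int.cast : ℤ → ℚ)).rank) := by
        apply mul_le_mul (hdet.trans (pow_le_pow_right₀ hL1' (by omega)))
          (pow_le_pow_right₀ hm1 (by omega)) (by positivity) (by positivity)
    _ = _ := mul_comm _ _

end Pool.Agent.Lib.MP_640417_ag.Full
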