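import Pool.Agent.Lib.MP_640417_ag.Full.SpecA
import Pool.Agent.Lib.MP_640417_ag.Far.Red

/-!
# Reduction of endomorphisms, lower bound
-/

namespace Pool.Agent.Lib.MP_640417_ag.Full

open Module Finset MulAction Pool.Agent.Lib.MP_640417_ag.Far

/-- An integral basis of the lattice of integer valued members gives bases of the space and of
its reduction. -/
lemma endGe_bases {S : Type} [Finite S] (p : ℕ) [hpp : Fact p.Prime] (U : Submodule ℚ (S → ℚ)) :
    ∃ (ι : Type) (_ : Fintype ι) (_ : DecidableEq ι) (b : Basis ι ℤ (latt U))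
      (bU : Basis ι ℚ U) (bR : Basis ι (ZMod p) (red p U)),
      (∀ i s, (bU i).1 s = (((b i : latt U) : S → ℤ) s : ℚ)) ∧
      (∀ i s, (bR i).1 s = (((b i : latt U) : S → ℤ) s : ZMod p)) := by
  classical
  have := Fintype.ofFinite S
  let b := Module.Free.chooseBasis ℤ (latt U)
  let ι := Module.Free.ChooseBasisIndex ℤ (latt U)
  -- the rational vectors
  let v : ι → U := fun i => ⟨fun s => (((b i : latt U) : S → ℤ) s : ℚ), (b i).2⟩
  let w : ι → red p U := fun i => ⟨fun s => (((b i : latt U) : S → ℤ) s : ZMod p),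
    ⟨((b i : latt U) : S → ℤ), (b i).2, fun s => rfl⟩⟩
  -- coordinates
  have hco : ∀ x : latt U, ∀ s, (x : S → ℤ) s = ∑ i, b.repr x i * ((b i : latt U) : S → ℤ) s := by
    intro x s
    have h2 : (x : S → ℤ) s = ((∑ i, b.repr x i • b i : latt U) : S → ℤ) s := by
      rw [b.sum_repr x]
    rw [h2, Submodule.coe_sum, Finset.sum_apply]
    apply Finset.sum_congr rfl
    intro i _
    rw [Submodule.coe_smul, Pi.smul_apply, smul_eq_mul]
  have hrepr : ∀ (c : ι → ℤ) (x : latt U),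
      (∀ s, (x : S → ℤ) s = ∑ i, c i * ((b i : latt U) : S → ℤ) s) → ∀ i, b.repr x i = c i := by
    intro c x hx i
    have h1 : x = ∑ i, c i • b i := by
      apply Subtype.ext
      funext s
      rw [hx s]
      simp [Finset.sum_apply]
    rw [h1, b.repr_sum_self]
  have hvli : LinearIndependent ℚ v := by
    rw [← LinearIndependent.iff_fractionRing ℤ ℚ, Fintype.linearIndependent_iff]
    intro c hc i
    have h1 : ∀ s, ((0 : latt U) : S → ℤ) s = ∑ i, c i * ((b i : latt U) : S → ℤ) s := by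
      intro s
      have h2 := congrArg (fun y : U => (y : S → ℚ) s) hc
      simp only [Submodule.coe_sum, Finset.sum_apply] at h2
      have h3 : (((∑ i, c i * ((b i : latt U) : S → ℤ) s : ℤ)) : ℚ) = 0 := by
        push_cast
        have h5 : ∑ i, (((c i • v i : U) : S → ℚ) s)
            = ∑ i, (c i : ℚ) * (((b i : latt U) : S → ℤ) s : ℚ) := by
          apply Finset.sum_congr rfl
          intro j _
          rw [Submodule.coe_smul_of_tower, Pi.smul_apply, zsmul_eq_mul]
        rw [← h5, h2]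
        rfl
      simp only [Submodule.coe_zero, Pi.zero_apply]
      exact_mod_cast h3.symm
    have h4 := hrepr c 0 h1 i
    rw [← h4]
    simp
  have hvsp : ⊤ ≤ Submodule.span ℚ (Set.range v) := by
    rintro ⟨u, hu⟩ -
    obtain ⟨N, x, hN, hx, hxs⟩ := exists_latt_mul U u hu
    have hNq : (N : ℚ) ≠ 0 := by exact_mod_cast hN
    have h1 : (⟨u, hu⟩ : U) = ∑ i, ((N : ℚ)⁻¹ * (b.repr ⟨x, hx⟩ i : ℚ)) • v i := by
      apply Subtype.ext
      funext s
      have h2 := hco ⟨x, hx⟩ s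
      have h3 : (x s : ℚ) = ∑ i, (b.repr ⟨x, hx⟩ i : ℚ) * (((b i : latt U) : S → ℤ) s : ℚ) := by
        exact_mod_cast h2
      rw [hxs s] at h3
      rw [Submodule.coe_sum, Finset.sum_apply]
      have h4 : u s = (N : ℚ)⁻¹ * (N * u s) := by
        rw [← mul_assoc, inv_mul_cancel₀ hNq, one_mul]
      show u s = _
      rw [h4, h3, Finset.mul_sum]
      apply Finset.sum_congr rfl
      intro i _
      rw [Submodule.coe_smul, Pi.smul_apply, smul_eq_mul, mul_assoc]
    rw [h1]
    exact Submodule.sum_mem _ fun i _ => Submodule.smul_mem _ _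
      (Submodule.subset_span ⟨i, rfl⟩)
  have hwsp : ⊤ ≤ Submodule.span (ZMod p) (Set.range w) := by
    rintro ⟨u, x, hx, hu⟩ -
    have h1 : (⟨u, x, hx, hu⟩ : red p U)
        = ∑ i, ((b.repr ⟨x, hx⟩ i : ℤ) : ZMod p) • w i := by
      apply Subtype.ext
      funext s
      have h2 := hco ⟨x, hx⟩ s
      have h3 : (x s : ZMod p)
          = ∑ i, ((b.repr ⟨x, hx⟩ i : ℤ) : ZMod p) * (((b i : latt U) : S → ℤ) s : ZMod p) := by
        have h4 := congrArg (fun n : ℤ => (n : ZMod p)) h2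
        simpa using h4
      rw [Submodule.coe_sum, Finset.sum_apply]
      show u s = _
      rw [hu s, h3]
      apply Finset.sum_congr rfl
      intro i _
      rw [Submodule.coe_smul, Pi.smul_apply, smul_eq_mul]
    rw [h1]
    exact Submodule.sum_mem _ fun i _ => Submodule.smul_mem _ _
      (Submodule.subset_span ⟨i, rfl⟩)
  -- the number of vectors is the dimension, so they are independent
  have hcard : Fintype.card ι = finrank (ZMod p) (red p U) := by
    rw [red_rank S p U, Module.finrank_eq_card_basis (Basis.mk hvli hvsp)]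
  let bR : Basis ι (ZMod p) (red p U) :=
    basisOfTopLeSpanOfCardEqFinrank w hwsp hcard
  refine ⟨ι, inferInstance, inferInstance, b, Basis.mk hvli hvsp, bR, fun i s => ?_,
    fun i s => ?_⟩
  · rw [Basis.mk_apply]
  · simp only [bR, coe_basisOfTopLeSpanOfCardEqFinrank]
    rfl

lemma endGe_apply {S : Type} [Finite S] (p : ℕ) [hpp : Fact p.Prime] (U : Submodule ℚ (S → ℚ))
    {ι : Type} [Fintype ι] (b : Basis ι ℤ (latt U))
    (bU : Basis ι ℚ U) (bR : Basis ι (ZMod p) (red p U))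
    (hU : ∀ i s, (bU i).1 s = (((b i : latt U) : S → ℤ) s : ℚ))
    (hR : ∀ i s, (bR i).1 s = (((b i : latt U) : S → ℤ) s : ZMod p))
    (θ : U →ₗ[ℚ] U) (φ : red p U →ₗ[ZMod p] red p U) (A : ι → ι → ℤ)
    (hθ : ∀ i, θ (bU i) = ∑ j, (A j i : ℚ) • bU j)
    (hφ : ∀ i, φ (bR i) = ∑ j, (A j i : ZMod p) • bR j)
    (v : S → ℤ) (hv : v ∈ latt U) :
    ∃ v' : S → ℤ, (∀ s, (θ ⟨fun s => (v s : ℚ), hv⟩).1 s = (v' s : ℚ)) ∧
      ∀ s, (φ ⟨fun s => (v s : ZMod p), v, hv, fun _ => rfl⟩).1 s = (v' s : ZMod p) := by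
  have hco : ∀ s, v s = ∑ i, b.repr ⟨v, hv⟩ i * ((b i : latt U) : S → ℤ) s := by
    intro s
    have h2 : v s = ((∑ i, b.repr ⟨v, hv⟩ i • b i : latt U) : S → ℤ) s := by
      rw [b.sum_repr ⟨v, hv⟩]
    rw [h2, Submodule.coe_sum, Finset.sum_apply]
    apply Finset.sum_congr rfl
    intro i _
    rw [Submodule.coe_smul, Pi.smul_apply, smul_eq_mul]
  set c : ι → ℤ := fun i => b.repr ⟨v, hv⟩ i with hc
  have e1 : (⟨fun s => (v s : ℚ), hv⟩ : U) = ∑ i, (c i : ℚ) • bU i := by
    apply Subtype.ext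
    funext s
    rw [Submodule.coe_sum, Finset.sum_apply]
    show (v s : ℚ) = _
    rw [hco s]
    push_cast
    apply Finset.sum_congr rfl
    intro i _
    rw [Pi.smul_apply, smul_eq_mul, hU i s]
  have e2 : (⟨fun s => (v s : ZMod p), v, hv, fun _ => rfl⟩ : red p U)
      = ∑ i, (c i : ZMod p) • bR i := by
    apply Subtype.ext
    funext s
    rw [Submodule.coe_sum, Finset.sum_apply]
    show (v s : ZMod p) = _
    rw [hco s]
    push_cast
    apply Finset.sum_congr rfl
    intro i _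
    rw [Pi.smul_apply, smul_eq_mul, hR i s]
  refine ⟨fun s => ∑ i, c i * ∑ j, A j i * ((b j : latt U) : S → ℤ) s, fun s => ?_, fun s => ?_⟩
  · rw [e1, map_sum, Submodule.coe_sum, Finset.sum_apply]
    push_cast
    apply Finset.sum_congr rfl
    intro i _
    rw [map_smul, hθ i, Submodule.coe_smul, Pi.smul_apply, smul_eq_mul, Submodule.coe_sum,
      Finset.sum_apply]
    congr 1
    apply Finset.sum_congr rfl
    intro j _
    rw [Submodule.coe_smul, Pi.smul_apply, smul_eq_mul, hU j s]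
  · rw [e2, map_sum, Submodule.coe_sum, Finset.sum_apply]
    push_cast
    apply Finset.sum_congr rfl
    intro i _
    rw [map_smul, hφ i, Submodule.coe_smul, Pi.smul_apply, smul_eq_mul, Submodule.coe_sum,
      Finset.sum_apply]
    congr 1
    apply Finset.sum_congr rfl
    intro j _
    rw [Submodule.coe_smul, Pi.smul_apply, smul_eq_mul, hR j s]

/-- An integral matrix of an equivariant endomorphism gives an equivariant endomorphism of the
reduction. -/
lemma endGe_mem {S G : Type} [Finite S] [Group G] [MulAction G S] (p : ℕ) [hpp : Fact p.Prime]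
    (U : Submodule ℚ (S → ℚ)) (hst : IsStab G U)
    {ι : Type} [Fintype ι] (b : Basis ι ℤ (latt U))
    (bU : Basis ι ℚ U) (bR : Basis ι (ZMod p) (red p U))
    (hU : ∀ i s, (bU i).1 s = (((b i : latt U) : S → ℤ) s : ℚ))
    (hR : ∀ i s, (bR i).1 s = (((b i : latt U) : S → ℤ) s : ZMod p))
    (θ : U →ₗ[ℚ] U) (φ : red p U →ₗ[ZMod p] red p U) (A : ι → ι → ℤ)
    (hθ : ∀ i, θ (bU i) = ∑ j, (A j i : ℚ) • bU j)
    (hφ : ∀ i, φ (bR i) = ∑ j, (A j i : ZMod p) • bR j)
    (hE : θ ∈ endF G U) : φ ∈ endF G (red p U) := by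
  intro f f' γ hff s
  obtain ⟨f, v, hv, hf⟩ := f
  obtain ⟨f', hf'⟩ := f'
  have hfe : f = fun s => (v s : ZMod p) := funext hf
  subst hfe
  have hfe' : f' = fun s => (v (γ • s) : ZMod p) := funext hff
  subst hfe'
  have hvγ : (fun s => v (γ • s)) ∈ latt U := hst _ hv γ
  obtain ⟨v', h1, h2⟩ := endGe_apply p U b bU bR hU hR θ φ A hθ hφ v hv
  obtain ⟨v'', h3, h4⟩ := endGe_apply p U b bU bR hU hR θ φ A hθ hφ (fun s => v (γ • s)) hvγ
  have h5 := hE ⟨fun s => (v s : ℚ), hv⟩ ⟨fun s => ((v (γ • s) : ℤ) : ℚ), hvγ⟩ γ (fun _ => rfl) s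
  have h6 : v'' s = v' (γ • s) := by
    have h7 : (v'' s : ℚ) = (v' (γ • s) : ℚ) := by
      rw [← h3 s, ← h1 (γ • s)]
      exact h5
    exact_mod_cast h7
  have h8 := h4 s
  have h9 := h2 (γ • s)
  rw [h6] at h8
  exact h8.trans h9.symm

theorem pEndGe : StEndGe := by
  intro S G _ _ _ p hpp U hst
  classical
  obtain ⟨ι, _, _, b, bU, bR, hU, hR⟩ := endGe_bases p U
  let e : (U →ₗ[ℚ] U) ≃ₗ[ℚ] (ι × ι → ℚ) :=
    (LinearMap.toMatrix bU bU).trans (LinearEquiv.curry ℚ ℚ ι ι).symm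
  let e' : (red p U →ₗ[ZMod p] red p U) ≃ₗ[ZMod p] (ι × ι → ZMod p) :=
    (LinearMap.toMatrix bR bR).trans (LinearEquiv.curry (ZMod p) (ZMod p) ι ι).symm
  have he : ∀ θ i, θ (bU i) = ∑ j, e θ (j, i) • bU j := by
    intro θ i
    have h1 : ∀ j, e θ (j, i) = bU.repr (θ (bU i)) j := fun j => LinearMap.toMatrix_apply ..
    simp only [h1]
    exact (bU.sum_repr _).symm
  have he' : ∀ φ i, φ (bR i) = ∑ j, e' φ (j, i) • bR j := by
    intro φ i
    have h1 : ∀ j, e' φ (j, i) = bR.repr (φ (bR i)) j := fun j => LinearMap.toMatrix_apply ..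
    simp only [h1]
    exact (bR.sum_repr _).symm
  let E : Submodule ℚ (ι × ι → ℚ) := (endF G U).map e.toLinearMap
  have hE1 : finrank ℚ E = finrank ℚ (endF G U) := LinearEquiv.finrank_map_eq e _
  have hE2 : finrank (ZMod p) (red p E) = finrank ℚ E := red_rank (ι × ι) p E
  have hE3 : finrank (ZMod p) ((red p E).map e'.symm.toLinearMap) = finrank (ZMod p) (red p E) :=
    LinearEquiv.finrank_map_eq e'.symm _
  rw [← hE1, ← hE2, ← hE3]
  apply Submodule.finrank_mono
  rintro φ ⟨a, ⟨x, hx, hxa⟩, rfl⟩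
  obtain ⟨θ, hθ, hθx⟩ := hx
  refine endGe_mem p U hst b bU bR hU hR θ _ (fun j i => x (j, i)) ?_ ?_ hθ
  · intro i
    rw [he θ i]
    apply Finset.sum_congr rfl
    intro j _
    have h1 : e θ (j, i) = (x (j, i) : ℚ) := congrFun hθx (j, i)
    rw [h1]
  · intro i
    rw [he' _ i]
    apply Finset.sum_congr rfl
    intro j _
    have h1 : e' (e'.symm a) (j, i) = (x (j, i) : ZMod p) := by
      rw [LinearEquiv.apply_symm_apply]
      exact hxa (j, i)
    exact congrArg (· • bR j) h1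

end Pool.Agent.Lib.MP_640417_ag.Full
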