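import Pool.Agent.Lib.MP_640417_ag.Full.SpecA

/-!
# Reduction of endomorphisms, upper bound
-/

namespace Pool.Agent.Lib.MP_640417_ag.Full

open Module Finset MulAction Pool.Agent.Lib.MP_640417_ag.Far

/-- Lifting a basis modulo `p` to independent vectors. -/
private theorem endLe_core (p : ℕ) (hpp : p.Prime) {K A B : Type} [Field K] [CharP K p]
    [AddCommGroup A] [Module K A] [AddCommGroup B] [Module ℚ B] [Module.Finite ℚ B]
    (R : B → A → Prop) (h0 : ∀ φ, ∃ θ, R θ φ)
    (hR : ∀ (k : ℕ) (θ : Fin k → B) (φ : Fin k → A), (∀ j, R (θ j) (φ j)) →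
      ∀ c : Fin k → ℤ, ∑ j, (c j : ℚ) • θ j = 0 → ∑ j, (c j : K) • φ j = 0) :
    finrank K A ≤ finrank ℚ B := by
  classical
  by_cases hfin : Module.Finite K A
  swap
  · rw [finrank_of_not_finite hfin]
    exact Nat.zero_le _
  set k := finrank K A with hk
  let b : Basis (Fin k) K A := finBasis K A
  have hb := fun j : Fin k => h0 (b j)
  choose θ hθ using hb
  have hp0 : (p : ℤ) ≠ 0 := by exact_mod_cast hpp.ne_zero
  have h1 : ∀ c : Fin k → ℤ, ∑ j, (c j : ℚ) • θ j = 0 → ∀ j, (p : ℤ) ∣ c j := by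
    intro c hc j
    have h2 := hR k θ b hθ c hc
    have h3 := linearIndependent_iff'.1 b.linearIndependent Finset.univ _ h2 j (Finset.mem_univ j)
    exact (CharP.intCast_eq_zero_iff K p (c j)).1 h3
  have key : ∀ n : ℕ, ∀ c : Fin k → ℤ, ∑ j, (c j : ℚ) • θ j = 0 → ∀ j, (p : ℤ) ^ n ∣ c j := by
    intro n
    induction n with
    | zero => intro c _ j; simp
    | succ n ih =>
      intro c hc
      have h2 := h1 c hc
      choose d hd using h2
      have h4 : ∑ j, (d j : ℚ) • θ j = 0 := by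
        have h5 : (p : ℚ) • ∑ j, (d j : ℚ) • θ j = 0 := by
          rw [Finset.smul_sum, ← hc]
          refine Finset.sum_congr rfl fun j _ => ?_
          rw [hd j, smul_smul]
          push_cast
          rfl
        exact (smul_eq_zero.1 h5).resolve_left (by exact_mod_cast hpp.ne_zero)
      intro j
      rw [hd j, pow_succ']
      exact mul_dvd_mul_left _ (ih d h4 j)
  have hli : LinearIndependent ℚ θ := by
    rw [← LinearIndependent.iff_fractionRing ℤ ℚ, linearIndependent_iff']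
    intro s c hc j hj
    have h2 : ∑ j, ((if j ∈ s then c j else 0 : ℤ) : ℚ) • θ j = 0 := by
      rw [← hc]
      simp only [Int.cast_ite, Int.cast_zero, ite_smul, zero_smul, Int.cast_smul_eq_zsmul]
      rw [Finset.sum_ite_mem, Finset.univ_inter]
    have h3 := fun n => key n _ h2 j
    simp only [hj, if_true] at h3
    by_contra hne
    have hfm : FiniteMultiplicity (p : ℤ) (c j) :=
      Int.finiteMultiplicity_iff.2 ⟨by simpa using hpp.one_lt.ne', hne⟩
    obtain ⟨n, hn⟩ := hfm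
    exact hn (h3 (n + 1))
  simpa using hli.fintype_card_le_finrank

/-- The same for additive monoids. -/
private theorem endLe_core' (p : ℕ) (hpp : p.Prime) {K A B : Type} [Field K] [CharP K p]
    [AddCommMonoid A] [Module K A] [AddCommMonoid B] [Module ℚ B] [Module.Finite ℚ B]
    (R : B → A → Prop) (h0 : ∀ φ, ∃ θ, R θ φ)
    (hR : ∀ (k : ℕ) (θ : Fin k → B) (φ : Fin k → A), (∀ j, R (θ j) (φ j)) →
      ∀ c : Fin k → ℤ, ∑ j, (c j : ℚ) • θ j = 0 → ∑ j, (c j : K) • φ j = 0) :
    finrank K A ≤ finrank ℚ B := by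
  let _ := Module.addCommMonoidToAddCommGroup K (M := A)
  let _ := Module.addCommMonoidToAddCommGroup ℚ (M := B)
  exact endLe_core p hpp R h0 hR

/-- Evaluation of endomorphisms. -/
private noncomputable def endLe_ev {S G F : Type} [Group G] [MulAction G S] [Field F]
    (U : Submodule F (S → F)) (w : U) (s : S) : endF G U →ₗ[F] F where
  toFun φ := (φ.1 w).1 s
  map_add' _ _ := rfl
  map_smul' _ _ := rfl

private theorem endLe_gen (p : ℕ) (hpp : p.Prime) {S G F : Type} [Finite S] [Group G]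
    [MulAction G S] [Field F] [CharP F p] (M : Submodule F (S → F)) (U : Submodule ℚ (S → ℚ))
    (hM : ∀ w ∈ M, ∃ v : S → ℤ, (fun s => (v s : ℚ)) ∈ U ∧ ∀ s, w s = (v s : F))
    (hM' : ∀ v : S → ℤ, (fun s => (v s : ℚ)) ∈ U → (fun s => (v s : F)) ∈ M)
    (N : ℕ) (hN : (N : F) ≠ 0)
    (hL : ∀ φ ∈ endF G M, ∃ θ ∈ endF G U, ∀ (v : S → ℤ) (hv : (fun s => (v s : ℚ)) ∈ U),
      ∃ v' : S → ℤ, (∀ s, (θ ⟨_, hv⟩).1 s = (v' s : ℚ)) ∧
        ∀ s, (N : F) * (φ ⟨fun s => (v s : F), hM' v hv⟩).1 s = (v' s : F)) :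
    finrank F (endF G M) ≤ finrank ℚ (endF G U) := by
  classical
  refine endLe_core' p hpp (K := F) (A := endF G M) (B := endF G U)
    (fun θ φ => ∀ (v : S → ℤ) (hv : (fun s => (v s : ℚ)) ∈ U),
      ∃ v' : S → ℤ, (∀ s, (θ.1 ⟨_, hv⟩).1 s = (v' s : ℚ)) ∧
        ∀ s, (N : F) * (φ.1 ⟨fun s => (v s : F), hM' v hv⟩).1 s = (v' s : F)) ?_ ?_
  · intro φ
    obtain ⟨θ, hθ, h⟩ := hL φ.1 φ.2
    exact ⟨⟨θ, hθ⟩, h⟩
  · intro k θ φ h c hc
    apply Subtype.ext
    apply LinearMap.ext
    intro w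
    apply Subtype.ext
    funext s
    obtain ⟨v, hv, hw⟩ := hM w.1 w.2
    have hw' : w = ⟨fun s => (v s : F), hM' v hv⟩ := by
      apply Subtype.ext
      funext s
      exact hw s
    have e1 := fun j => h j v hv
    choose u hu1 hu2 using e1
    have e2 : ∑ j, (c j : ℚ) * (u j s : ℚ) = 0 := by
      have := congrArg (endLe_ev U ⟨_, hv⟩ s) hc
      rw [map_sum, map_zero] at this
      rw [← this]
      refine Finset.sum_congr rfl fun j _ => ?_
      rw [← hu1 j s, map_smul, smul_eq_mul]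
      rfl
    have e3 : ∑ j, (c j : ℤ) * (u j s : ℤ) = 0 := by exact_mod_cast e2
    have e4 : ∑ j, (c j : F) * (u j s : F) = 0 := by
      have := congrArg (Int.cast : ℤ → F) e3
      push_cast at this
      exact this
    have e5 : endLe_ev M w s (∑ j, (c j : F) • φ j) = 0 := by
      have e6 : (N : F) * endLe_ev M w s (∑ j, (c j : F) • φ j) = 0 := by
        rw [map_sum, Finset.mul_sum, ← e4]
        refine Finset.sum_congr rfl fun j _ => ?_
        rw [map_smul, smul_eq_mul, ← hu2 j s, hw']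
        show _ * (_ * ((φ j).1 _).1 s) = _
        ring
      exact (mul_eq_zero.1 e6).resolve_left hN
    exact e5

theorem pEndLe (hLift : StLift) : StEndLe := by
  intro S G _ _ _ _ p hpp U hU hp
  have hN : ((kerSub G U).index : ZMod p) ≠ 0 := by
    rw [Ne, ZMod.natCast_eq_zero_iff]
    exact hp
  exact endLe_gen p hpp.out (F := ZMod p) (red p U) U (fun w hw => hw)
    (fun v hv => ⟨v, hv, fun _ => rfl⟩) (kerSub G U).index hN (hLift S G p U hU hp)

end Pool.Agent.Lib.MP_640417_ag.Full
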