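import Pool.Agent.Lib.MP_640417_ag.Full.SpecB

/-!
# First moment inequality modulo a squarefree number
-/

namespace Pool.Agent.Lib.MP_640417_ag.Full

open Module Finset MulAction Matrix Pool.Agent.Lib.MP_640417_ag.Far

/-- a nonzero integer vector is a multiple of a primitive one -/
theorem first_prim {n : ℕ} (v : Fin n → ℤ) (hv : v ≠ 0) :
    ∃ (g : ℤ) (v₀ b : Fin n → ℤ), g ≠ 0 ∧ v = g • v₀ ∧ ∑ i, b i * v₀ i = 1 := by
  obtain ⟨g, hg⟩ := (IsPrincipalIdealRing.principal (Submodule.span ℤ (Set.range v))).principal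
  have h1 : ∀ i, ∃ a : ℤ, a * g = v i := by
    intro i
    have : v i ∈ Submodule.span ℤ (Set.range v) := Submodule.subset_span ⟨i, rfl⟩
    rw [hg, Submodule.mem_span_singleton] at this
    exact this
  choose v₀ hv₀ using h1
  have h2 : g ∈ Submodule.span ℤ (Set.range v) := by
    rw [hg]
    exact Submodule.mem_span_singleton_self g
  rw [Submodule.mem_span_range_iff_exists_fun] at h2
  obtain ⟨b, hb⟩ := h2
  have hg0 : g ≠ 0 := by
    rintro rfl
    apply hv
    funext i
    rw [← hv₀ i, mul_zero]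
    rfl
  refine ⟨g, v₀, b, hg0, ?_, ?_⟩
  · funext i
    rw [Pi.smul_apply, smul_eq_mul, mul_comm, hv₀ i]
  · have h3 : g * ∑ i, b i * v₀ i = g * 1 := by
      rw [mul_one, Finset.mul_sum]
      conv_rhs => rw [← hb]
      refine Finset.sum_congr rfl fun i _ => ?_
      rw [← hv₀ i, smul_eq_mul]
      ring
    exact mul_left_cancel₀ hg0 h3

/-- multiples of a primitive vector by units are good -/
theorem first_good {m n : ℕ} [NeZero m] (v₀ b : Fin n → ℤ) (h : ∑ i, b i * v₀ i = 1)
    (c : (ZMod m)ˣ) : Good m (fun i => (c : ZMod m) * (v₀ i : ZMod m)) := by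
  intro p hp hpm
  by_contra hcon
  push Not at hcon
  have : Fact p.Prime := ⟨hp⟩
  set f := ZMod.castHom hpm (ZMod p) with hf
  have h1 : ∀ i, f ((c : ZMod m) * (v₀ i : ZMod m)) = 0 := by
    intro i
    have h2 : f ((c : ZMod m) * (v₀ i : ZMod m))
        = ((((c : ZMod m) * (v₀ i : ZMod m)).val : ℕ) : ZMod p) := by
      rw [hf, ZMod.castHom_apply, ZMod.natCast_val]
    rw [h2, ZMod.natCast_eq_zero_iff]
    exact hcon i
  have h3 : f (c : ZMod m) = 0 := by
    have h4 : (c : ZMod m) = ∑ i, (b i : ZMod m) * ((c : ZMod m) * (v₀ i : ZMod m)) := by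
      have h5 : ((∑ i, b i * v₀ i : ℤ) : ZMod m) = 1 := by rw [h]; simp
      push_cast at h5
      calc (c : ZMod m) = (c : ZMod m) * ∑ i, (b i : ZMod m) * (v₀ i : ZMod m) := by
            rw [h5, mul_one]
        _ = _ := by
            rw [Finset.mul_sum]
            refine Finset.sum_congr rfl fun i _ => ?_
            ring
    rw [h4, map_sum]
    refine Finset.sum_eq_zero fun i _ => ?_
    rw [map_mul, h1 i, mul_zero]
  have h6 : IsUnit (f (c : ZMod m)) := c.isUnit.map f
  rw [h3] at h6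
  exact not_isUnit_zero h6

theorem first_map_sum {R ι : Type} [AddCommGroup R] (ψ : AddChar R ℂ) (s : Finset ι)
    (f : ι → R) : ψ (∑ i ∈ s, f i) = ∏ i ∈ s, ψ (f i) := by
  classical
  induction s using Finset.induction_on with
  | empty => simp
  | insert a s ha ih => rw [Finset.sum_insert ha, Finset.prod_insert ha,
      AddChar.map_add_eq_mul, ih]

/-- orthogonality of characters -/
theorem first_orth (m : ℕ) [NeZero m] {n : ℕ} (u : Fin n → ZMod m) :
    ∑ β : Fin n → ZMod m, ZMod.stdAddChar (N := m) (∑ i, β i * u i)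
      = if u = 0 then (m : ℂ) ^ n else 0 := by
  have h1 : ∀ β : Fin n → ZMod m, ZMod.stdAddChar (N := m) (∑ i, β i * u i)
      = ∏ i, ZMod.stdAddChar (N := m) (β i * u i) := by
    intro β
    exact first_map_sum _ _ _
  simp only [h1]
  have h2 := Finset.prod_univ_sum (fun _ : Fin n => (Finset.univ : Finset (ZMod m)))
    (fun i b => ZMod.stdAddChar (N := m) (b * u i))
  rw [Fintype.piFinset_univ] at h2
  rw [← h2]
  have h3 : ∀ i, ∑ b : ZMod m, ZMod.stdAddChar (N := m) (b * u i)
      = if u i = 0 then (m : ℂ) else 0 := by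
    intro i
    rw [AddChar.sum_mulShift _ (ZMod.isPrimitive_stdAddChar m), ZMod.card]
    push_cast
    rfl
  simp only [h3]
  by_cases hu : u = 0
  · rw [if_pos hu]
    simp [hu]
  · rw [if_neg hu]
    obtain ⟨i, hi⟩ := Function.ne_iff.1 hu
    exact Finset.prod_eq_zero (Finset.mem_univ i) (if_neg hi)

section

variable {S G : Type} [Fintype S] [Group G] [MulAction G S] {z : G} {n N : ℕ}

/-- the signed sum over `X` -/
def firstA (M : MatSys S G z n N) (X : Finset S) (ε : X → Bool) : Matrix (Fin n) (Fin n) ℤ :=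
  ∑ x, sg (ε x) • M.Φ x.1

/-- the numerator of `wf` -/
def firstN (M : MatSys S G z n N) (m : ℕ) (v β : Fin n → ZMod m) (s : S) : ℤ :=
  ∑ i, ((β i).val : ℤ) * (M.Φ s).mulVec (fun j => ((v j).val : ℤ)) i

theorem first_wf (M : MatSys S G z n N) (m : ℕ) (v β : Fin n → ZMod m) (s : S) :
    M.wf m v β s = (firstN M m v β s : ℝ) / m := rfl

theorem first_int (M : MatSys S G z n N) (X : Finset S) (m : ℕ) [NeZero m]
    (v β : Fin n → ZMod m) (ε : X → Bool) :
    ∑ i, β i * (((firstA M X ε).map (Int.cast : ℤ → ZMod m)).mulVec v) i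
      = ((∑ x : X, sg (ε x) * firstN M m v β x.1 : ℤ) : ZMod m) := by
  have hL : ∀ i, (((firstA M X ε).map (Int.cast : ℤ → ZMod m)).mulVec v) i
      = ∑ x : X, (sg (ε x) : ZMod m) * ∑ j, (M.Φ x.1 i j : ZMod m) * v j := by
    intro i
    simp only [firstA, mulVec, dotProduct, Matrix.map_apply, Matrix.sum_apply, Matrix.smul_apply,
      smul_eq_mul, Int.cast_sum, Int.cast_mul]
    simp only [Finset.sum_mul, Finset.mul_sum]
    rw [Finset.sum_comm]
    refine Finset.sum_congr rfl fun x _ => Finset.sum_congr rfl fun j _ => ?_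
    ring
  have hR : ∀ x : X, (firstN M m v β x.1 : ZMod m)
      = ∑ i, β i * ∑ j, (M.Φ x.1 i j : ZMod m) * v j := by
    intro x
    simp only [firstN, mulVec, dotProduct, Int.cast_sum, Int.cast_mul, Int.cast_natCast,
      ZMod.natCast_zmod_val]
  push_cast
  simp only [hL, hR, Finset.mul_sum]
  rw [Finset.sum_comm]
  refine Finset.sum_congr rfl fun x _ => Finset.sum_congr rfl fun i _ =>
    Finset.sum_congr rfl fun j _ => ?_
  ring

theorem first_char (M : MatSys S G z n N) (X : Finset S) (m : ℕ) [NeZero m]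
    (v β : Fin n → ZMod m) (ε : X → Bool) :
    ZMod.stdAddChar (N := m)
        (∑ i, β i * (((firstA M X ε).map (Int.cast : ℤ → ZMod m)).mulVec v) i)
      = ∏ x : X, Complex.exp ((sg (ε x) : ℂ) * (2 * Real.pi * M.wf m v β x.1 : ℝ) * Complex.I) := by
  rw [first_int, ZMod.stdAddChar_coe, ← Complex.exp_sum]
  congr 1
  push_cast
  rw [Finset.mul_sum, Finset.sum_div]
  refine Finset.sum_congr rfl fun x _ => ?_
  rw [first_wf]
  push_cast
  ring

theorem first_sum_signs {X : Type} [Fintype X] [DecidableEq X] (w : X → ℝ) :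
    ∑ ε : X → Bool, ∏ x : X, Complex.exp ((sg (ε x) : ℂ) * (w x : ℝ) * Complex.I)
      = ((∏ x : X, (2 * Real.cos (w x)) : ℝ) : ℂ) := by
  have h2 := Finset.prod_univ_sum (fun _ : X => (Finset.univ : Finset Bool))
    (fun x b => Complex.exp ((sg b : ℂ) * (w x : ℝ) * Complex.I))
  rw [Fintype.piFinset_univ] at h2
  rw [← h2, Complex.ofReal_prod]
  refine Finset.prod_congr rfl fun x _ => ?_
  rw [Fintype.sum_bool]
  simp only [sg]
  push_cast
  rw [Complex.two_cos]
  simp

open Classical in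
/-- the number of sign patterns annihilating `v` modulo `m` -/
theorem first_count (M : MatSys S G z n N) (X : Finset S) (m : ℕ) [NeZero m]
    (v : Fin n → ZMod m) :
    (m : ℝ) ^ n * (({ε : X → Bool | ((firstA M X ε).map (Int.cast : ℤ → ZMod m)).mulVec v = 0} :
        Finset (X → Bool)).card : ℝ)
      ≤ 2 ^ X.card * ∑ β : Fin n → ZMod m, ∏ x ∈ X, |Real.cos (2 * Real.pi * M.wf m v β x)| := by
  classical
  have h1 : (((m : ℝ) ^ n *
      (({ε : X → Bool | ((firstA M X ε).map (Int.cast : ℤ → ZMod m)).mulVec v = 0} :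
        Finset (X → Bool)).card : ℝ) : ℝ) : ℂ)
      = ((∑ β : Fin n → ZMod m, ∏ x : X, (2 * Real.cos (2 * Real.pi * M.wf m v β x.1)) : ℝ) : ℂ) := by
    have h2 : ∀ ε : X → Bool, ∑ β : Fin n → ZMod m, ZMod.stdAddChar (N := m)
        (∑ i, β i * (((firstA M X ε).map (Int.cast : ℤ → ZMod m)).mulVec v) i)
        = if ((firstA M X ε).map (Int.cast : ℤ → ZMod m)).mulVec v = 0 then (m : ℂ) ^ n else 0 :=
      fun ε => first_orth m _
    rw [Complex.ofReal_sum]
    have h3 : ∀ β : Fin n → ZMod m,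
        ((∏ x : X, (2 * Real.cos (2 * Real.pi * M.wf m v β x.1)) : ℝ) : ℂ)
        = ∑ ε : X → Bool, ZMod.stdAddChar (N := m)
        (∑ i, β i * (((firstA M X ε).map (Int.cast : ℤ → ZMod m)).mulVec v) i) := by
      intro β
      rw [← first_sum_signs]
      refine Finset.sum_congr rfl fun ε _ => ?_
      rw [first_char]
    rw [Finset.sum_congr rfl fun β _ => h3 β, Finset.sum_comm, Finset.sum_congr rfl fun ε _ => h2 ε,
      ← Finset.sum_filter, Finset.sum_const, nsmul_eq_mul]
    push_cast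
    ring
  have h4 := Complex.ofReal_injective h1
  rw [h4, Finset.mul_sum]
  refine Finset.sum_le_sum fun β _ => ?_
  refine (le_abs_self _).trans (le_of_eq ?_)
  rw [Finset.abs_prod]
  simp only [abs_mul, abs_two]
  rw [Finset.prod_mul_distrib, Finset.prod_const, Finset.card_univ, Fintype.card_coe]
  congr 1
  exact Finset.prod_coe_sort X (fun x => |Real.cos (2 * Real.pi * M.wf m v β x)|)

theorem first_shift (M : MatSys S G z n N) (m d : ℕ) [NeZero m] [NeZero d] (hd : d ∣ m)
    (v β : Fin n → ZMod m) (v' β' : Fin n → ZMod d)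
    (hv : ∀ i, (v' i).val = (v i).val % d) (hβ : ∀ i, (β i).val = m / d * (β' i).val) (s : S) :
    ∃ k : ℤ, M.wf m v β s = M.wf d v' β' s + k := by
  refine ⟨∑ i, ((β' i).val : ℤ) * (M.Φ s).mulVec (fun j => (((v j).val / d : ℕ) : ℤ)) i, ?_⟩
  have hd0 : (d : ℝ) ≠ 0 := Nat.cast_ne_zero.2 (NeZero.ne d)
  have hm0 : (m : ℝ) ≠ 0 := Nat.cast_ne_zero.2 (NeZero.ne m)
  have hg : (m / d) * d = m := Nat.div_mul_cancel hd
  have hg0 : ((m / d : ℕ) : ℝ) ≠ 0 := by
    intro h
    have : m / d = 0 := by exact_mod_cast h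
    rw [this, zero_mul] at hg
    exact NeZero.ne m hg.symm
  have e1 : firstN M m v β s = ((m / d : ℕ) : ℤ) * (firstN M d v' β' s
      + d * ∑ i, ((β' i).val : ℤ) * (M.Φ s).mulVec (fun j => (((v j).val / d : ℕ) : ℤ)) i) := by
    unfold firstN
    rw [Finset.mul_sum, ← Finset.sum_add_distrib, Finset.mul_sum]
    refine Finset.sum_congr rfl fun i _ => ?_
    have e2 : (M.Φ s).mulVec (fun j => ((v j).val : ℤ)) i
        = (M.Φ s).mulVec (fun j => ((v' j).val : ℤ)) i
          + d * (M.Φ s).mulVec (fun j => (((v j).val / d : ℕ) : ℤ)) i := by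
      simp only [mulVec, dotProduct, Finset.mul_sum]
      rw [← Finset.sum_add_distrib]
      refine Finset.sum_congr rfl fun j _ => ?_
      have e3 : ((v j).val : ℤ) = ((v' j).val : ℤ) + d * (((v j).val / d : ℕ) : ℤ) := by
        rw [hv j]
        exact_mod_cast (Nat.mod_add_div (v j).val d).symm
      rw [e3]
      ring
    rw [e2, hβ i]
    push_cast
    ring
  rw [first_wf, first_wf, e1]
  have hm : (m : ℝ) = ((m / d : ℕ) : ℝ) * d := by
    have := congrArg (fun t : ℕ => (t : ℝ)) hg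
    push_cast at this
    exact_mod_cast this.symm
  rw [hm]
  generalize ((m / d : ℕ)) = r at *
  generalize firstN M d v' β' s = K1 at *
  generalize (∑ i, ((β' i).val : ℤ) * (M.Φ s).mulVec (fun j => (((v j).val / d : ℕ) : ℤ)) i) = K2
  push_cast
  field_simp

theorem first_cos (M : MatSys S G z n N) (X : Finset S) (m d : ℕ) [NeZero m] [NeZero d]
    (hd : d ∣ m) (v β : Fin n → ZMod m) (v' β' : Fin n → ZMod d)
    (hv : ∀ i, (v' i).val = (v i).val % d) (hβ : ∀ i, (β i).val = m / d * (β' i).val) :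
    ∏ x ∈ X, |Real.cos (2 * Real.pi * M.wf m v β x)|
      = ∏ x ∈ X, |Real.cos (2 * Real.pi * M.wf d v' β' x)| := by
  refine Finset.prod_congr rfl fun x _ => ?_
  obtain ⟨k, hk⟩ := first_shift M m d hd v β v' β' hv hβ x
  rw [hk]
  congr 1
  have : 2 * Real.pi * (M.wf d v' β' x + k) = 2 * Real.pi * M.wf d v' β' x + k * (2 * Real.pi) := by
    ring
  rw [this, Real.cos_add_int_mul_two_pi]

end

/-- size of the fibres of the reduction of vectors -/
theorem first_fibre {n : ℕ} (m d : ℕ) [NeZero m] [NeZero d] (hd : d ∣ m)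
    (v' : Fin n → ZMod d) :
    ({v : Fin n → ZMod m | (fun i => ZMod.castHom hd (ZMod d) (v i)) = v'} :
      Finset (Fin n → ZMod m)).card * d ^ n = m ^ n := by
  classical
  set f : (Fin n → ZMod m) →+ (Fin n → ZMod d) :=
    { toFun := fun v i => ZMod.castHom hd (ZMod d) (v i)
      map_zero' := funext fun i => map_zero _
      map_add' := fun a b => funext fun i => map_add _ _ _ } with hf
  have hsurj : Function.Surjective f := by
    intro w
    have h1 := ZMod.castHom_surjective hd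
    choose g hg using h1
    exact ⟨fun i => g (w i), funext fun i => hg (w i)⟩
  have h1 : ∀ w : Fin n → ZMod d, ({v : Fin n → ZMod m | f v = w} : Finset _).card
      = ({v : Fin n → ZMod m | f v = v'} : Finset _).card := fun w =>
    AddMonoidHom.card_fiber_eq_of_mem_range f (hsurj w) (hsurj v')
  have h2 : (Finset.univ : Finset (Fin n → ZMod m)).card
      = ∑ w : Fin n → ZMod d, ({v : Fin n → ZMod m | f v = w} : Finset _).card :=
    Finset.card_eq_sum_card_fiberwise (fun _ _ => Finset.mem_univ _)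
  rw [Finset.sum_congr rfl fun w _ => h1 w, Finset.sum_const, Finset.card_univ, Finset.card_univ,
    Fintype.card_fun, Fintype.card_fun, ZMod.card, ZMod.card, Fintype.card_fin, smul_eq_mul] at h2
  rw [h2, mul_comm]
  rfl

theorem first_red {n m d : ℕ} [NeZero m] [NeZero d] (hd : d ∣ m) (v : Fin n → ZMod m) (i : Fin n) :
    (ZMod.castHom hd (ZMod d) (v i)).val = (v i).val % d := by
  rw [ZMod.castHom_apply, ← ZMod.natCast_val, ZMod.val_natCast]

theorem first_red_good {n m d : ℕ} [NeZero m] [NeZero d] (hd : d ∣ m) (v : Fin n → ZMod m)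
    (hv : Good m v) : Good d (fun i => ZMod.castHom hd (ZMod d) (v i)) := by
  intro p hp hpd
  obtain ⟨i, hi⟩ := hv p hp (hpd.trans hd)
  refine ⟨i, ?_⟩
  rw [first_red, Nat.dvd_mod_iff hpd]
  exact hi

/-- the common divisor -/
def firstG {n m : ℕ} (β : Fin n → ZMod m) : ℕ := Nat.gcd m (Finset.univ.gcd fun i => (β i).val)

theorem firstG_dvd {n m : ℕ} (β : Fin n → ZMod m) : firstG β ∣ m := Nat.gcd_dvd_left _ _

theorem firstG_dvd_val {n m : ℕ} (β : Fin n → ZMod m) (i : Fin n) : firstG β ∣ (β i).val :=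
  (Nat.gcd_dvd_right _ _).trans (Finset.gcd_dvd (Finset.mem_univ i))

theorem first_quot {n m d : ℕ} [NeZero m] [NeZero d] (hd : d ∣ m) (β : Fin n → ZMod m)
    (h : m / firstG β = d) :
    (∀ i, (β i).val = m / d * (((β i).val / (m / d) : ℕ) : ZMod d).val) ∧
      Good d (fun i => (((β i).val / (m / d) : ℕ) : ZMod d)) := by
  have hm0 : 0 < m := Nat.pos_of_ne_zero (NeZero.ne m)
  have hG : firstG β = m / d := by
    rw [← h, Nat.div_div_self (firstG_dvd β) hm0.ne']
  have hgd : m / d * d = m := Nat.div_mul_cancel hd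
  have hpos : 0 < m / d := Nat.div_pos (Nat.le_of_dvd hm0 hd) (Nat.pos_of_ne_zero (NeZero.ne d))
  have hlt : ∀ i, (β i).val / (m / d) < d := by
    intro i
    rw [Nat.div_lt_iff_lt_mul hpos, mul_comm d, hgd]
    exact ZMod.val_lt _
  have hval : ∀ i, (((β i).val / (m / d) : ℕ) : ZMod d).val = (β i).val / (m / d) := fun i =>
    ZMod.val_natCast_of_lt (hlt i)
  refine ⟨fun i => ?_, ?_⟩
  · rw [hval i, Nat.mul_div_cancel']
    rw [← hG]
    exact firstG_dvd_val β i
  · intro p hp hpd
    by_contra hcon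
    push Not at hcon
    have h1 : (m / d) * p ∣ firstG β := by
      refine Nat.dvd_gcd ?_ (Finset.dvd_gcd fun i _ => ?_)
      · conv_rhs => rw [← hgd]
        exact Nat.mul_dvd_mul_left _ hpd
      · have h2 := hcon i
        rw [hval i] at h2
        have h3 : (m / d) * ((β i).val / (m / d)) = (β i).val := by
          apply Nat.mul_div_cancel'
          rw [← hG]
          exact firstG_dvd_val β i
        rw [← h3]
        exact Nat.mul_dvd_mul_left _ h2
    rw [hG] at h1
    have h4 := Nat.le_of_dvd hpos h1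
    have h5 := hp.two_le
    nlinarith

section

variable {S G : Type} [Fintype S] [Group G] [MulAction G S] {z : G} {n N : ℕ}

open Classical in
theorem first_per (M : MatSys S G z n N) (X : Finset S) (m d : ℕ) [NeZero m] [NeZero d]
    (hd : d ∣ m) :
    ∑ v ∈ ({v | Good m v} : Finset (Fin n → ZMod m)),
      ∑ β ∈ ({β | m / firstG β = d} : Finset (Fin n → ZMod m)),
        ∏ x ∈ X, |Real.cos (2 * Real.pi * M.wf m v β x)|
      ≤ ((m : ℝ) ^ n / (d : ℝ) ^ n) *
        ∑ᶠ q ∈ {q : (Fin n → ZMod d) × (Fin n → ZMod d) | Good d q.1 ∧ Good d q.2},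
          ∏ x ∈ X, |Real.cos (2 * Real.pi * M.wf d q.1 q.2 x)| := by
  set H : (Fin n → ZMod d) → (Fin n → ZMod d) → ℝ := fun v β =>
    ∏ x ∈ X, |Real.cos (2 * Real.pi * M.wf d v β x)| with hH
  have hHnn : ∀ v β, 0 ≤ H v β := fun v β => Finset.prod_nonneg fun x _ => abs_nonneg _
  set Gd : Finset (Fin n → ZMod d) := {v | Good d v} with hGd
  set π : (Fin n → ZMod m) → (Fin n → ZMod d) := fun v i => ZMod.castHom hd (ZMod d) (v i) with hπ
  set r : (Fin n → ZMod m) → (Fin n → ZMod d) := fun β i =>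
    (((β i).val / (m / d) : ℕ) : ZMod d) with hr
  have step1 : ∀ v, ∑ β ∈ ({β | m / firstG β = d} : Finset (Fin n → ZMod m)),
        ∏ x ∈ X, |Real.cos (2 * Real.pi * M.wf m v β x)| ≤ ∑ β' ∈ Gd, H (π v) β' := by
    intro v
    calc ∑ β ∈ ({β | m / firstG β = d} : Finset (Fin n → ZMod m)),
        ∏ x ∈ X, |Real.cos (2 * Real.pi * M.wf m v β x)|
        = ∑ β ∈ ({β | m / firstG β = d} : Finset (Fin n → ZMod m)), H (π v) (r β) := by
          refine Finset.sum_congr rfl fun β hβ => ?_
          rw [Finset.mem_filter] at hβ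
          exact first_cos M X m d hd v β (π v) (r β) (first_red hd v) (first_quot hd β hβ.2).1
      _ = ∑ β' ∈ ({β | m / firstG β = d} : Finset (Fin n → ZMod m)).image r, H (π v) β' := by
          symm
          apply Finset.sum_image
          intro β hβ β2 hβ2 heq
          simp only [Finset.coe_filter, Finset.mem_univ, true_and, Set.mem_ofPred_eq] at hβ hβ2
          funext i
          apply ZMod.val_injective m
          rw [(first_quot hd β hβ).1 i, (first_quot hd β2 hβ2).1 i]
          have := congrFun heq i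
          simp only [hr] at this
          rw [this]
      _ ≤ ∑ β' ∈ Gd, H (π v) β' := by
          refine Finset.sum_le_sum_of_subset_of_nonneg ?_ fun β' _ _ => hHnn _ _
          intro β' hβ'
          rw [Finset.mem_image] at hβ'
          obtain ⟨β, hβ, rfl⟩ := hβ'
          rw [Finset.mem_filter] at hβ
          rw [hGd, Finset.mem_filter]
          exact ⟨Finset.mem_univ _, (first_quot hd β hβ.2).2⟩
  set K : (Fin n → ZMod d) → ℝ := fun v' => ∑ β' ∈ Gd, H v' β' with hK
  have hKnn : ∀ v', 0 ≤ K v' := fun v' => Finset.sum_nonneg fun β' _ => hHnn _ _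
  have hmaps : ∀ v ∈ ({v | Good m v} : Finset (Fin n → ZMod m)), π v ∈ Gd := by
    intro v hv
    rw [Finset.mem_filter] at hv
    rw [hGd, Finset.mem_filter]
    exact ⟨Finset.mem_univ _, first_red_good hd v hv.2⟩
  have step2 : ∑ v ∈ ({v | Good m v} : Finset (Fin n → ZMod m)), K (π v)
      ≤ ((m : ℝ) ^ n / (d : ℝ) ^ n) * ∑ v' ∈ Gd, K v' := by
    rw [← Finset.sum_fiberwise_of_maps_to hmaps, Finset.mul_sum]
    refine Finset.sum_le_sum fun v' _ => ?_
    have h1 : ∑ v ∈ ({v | Good m v} : Finset (Fin n → ZMod m)) with π v = v', K (π v)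
        = ((({v | Good m v} : Finset (Fin n → ZMod m)).filter fun v => π v = v').card : ℝ) * K v' := by
      rw [← nsmul_eq_mul, ← Finset.sum_const]
      refine Finset.sum_congr rfl fun v hv => ?_
      rw [(Finset.mem_filter.1 hv).2]
    rw [h1]
    refine mul_le_mul_of_nonneg_right ?_ (hKnn v')
    have hd0 : (0 : ℝ) < (d : ℝ) ^ n := by
      have : (0 : ℝ) < d := Nat.cast_pos.2 (Nat.pos_of_ne_zero (NeZero.ne d))
      positivity
    rw [le_div_iff₀ hd0]
    have h2 := first_fibre m d hd v'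
    have h3 : ((({v | Good m v} : Finset (Fin n → ZMod m)).filter fun v => π v = v').card) * d ^ n
        ≤ m ^ n := by
      rw [← h2]
      refine Nat.mul_le_mul_right _ (Finset.card_le_card ?_)
      intro v hv
      rw [Finset.mem_filter] at hv
      rw [Finset.mem_filter]
      exact ⟨Finset.mem_univ _, hv.2⟩
    exact_mod_cast h3
  have step3 : ∑ v' ∈ Gd, K v' =
      ∑ᶠ q ∈ {q : (Fin n → ZMod d) × (Fin n → ZMod d) | Good d q.1 ∧ Good d q.2},
          ∏ x ∈ X, |Real.cos (2 * Real.pi * M.wf d q.1 q.2 x)| := by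
    rw [finsum_mem_eq_toFinset_sum, hK, ← Finset.sum_product']
    refine Finset.sum_congr ?_ fun _ _ => rfl
    ext q
    simp [hGd]
  rw [← step3]
  exact (Finset.sum_le_sum fun v _ => step1 v).trans step2

open Classical in
theorem first_decomp (M : MatSys S G z n N) (X : Finset S) (m : ℕ) [NeZero m] :
    ∑ v ∈ ({v | Good m v} : Finset (Fin n → ZMod m)), ∑ β : Fin n → ZMod m,
        ∏ x ∈ X, |Real.cos (2 * Real.pi * M.wf m v β x)|
      ≤ ∑ d ∈ m.divisors, ((m : ℝ) ^ n / (d : ℝ) ^ n) *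
        ∑ᶠ q ∈ {q : (Fin n → ZMod d) × (Fin n → ZMod d) | Good d q.1 ∧ Good d q.2},
          ∏ x ∈ X, |Real.cos (2 * Real.pi * M.wf d q.1 q.2 x)| := by
  have hmaps : ∀ β ∈ (Finset.univ : Finset (Fin n → ZMod m)), m / firstG β ∈ m.divisors := by
    intro β _
    rw [Nat.mem_divisors]
    exact ⟨Nat.div_dvd_of_dvd (firstG_dvd β), NeZero.ne m⟩
  have h1 : ∀ v : Fin n → ZMod m, ∑ β : Fin n → ZMod m,
        ∏ x ∈ X, |Real.cos (2 * Real.pi * M.wf m v β x)|
      = ∑ d ∈ m.divisors, ∑ β ∈ ({β | m / firstG β = d} : Finset (Fin n → ZMod m)),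
        ∏ x ∈ X, |Real.cos (2 * Real.pi * M.wf m v β x)| := fun v =>
    (Finset.sum_fiberwise_of_maps_to hmaps _).symm
  rw [Finset.sum_congr rfl fun v _ => h1 v, Finset.sum_comm]
  refine Finset.sum_le_sum fun d hd => ?_
  rw [Nat.mem_divisors] at hd
  have : NeZero d := ⟨fun h => hd.2 (Nat.eq_zero_of_zero_dvd (h ▸ hd.1))⟩
  exact first_per M X m d hd.1

theorem first_half (M : MatSys S G z n N) (hz : ∀ s : S, z • z • s = s)
    (X : Finset S) (hX : ∀ s, s ∈ X ↔ z • s ∉ X) (e : S → ℤ) (he : ∀ s, e (z • s) = - e s) :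
    ∑ s, e s • M.Φ s = 2 • ∑ x ∈ X, e x • M.Φ x := by
  classical
  have h1 : ∑ s, e s • M.Φ s = ∑ x ∈ X, e x • M.Φ x + ∑ x ∈ Xᶜ, e x • M.Φ x :=
    (Finset.sum_add_sum_compl X _).symm
  have h2 : ∑ x ∈ Xᶜ, e x • M.Φ x = ∑ x ∈ X, e x • M.Φ x := by
    symm
    refine Finset.sum_nbij' (fun x => z • x) (fun x => z • x) ?_ ?_ ?_ ?_ ?_
    · intro x hx
      rw [Finset.mem_compl]
      exact (hX x).1 hx
    · intro x hx
      rw [Finset.mem_compl] at hx
      by_contra hcon
      exact hx ((hX x).2 hcon)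
    · intro x _
      exact hz x
    · intro x _
      exact hz x
    · intro x _
      rw [he, M.odd, neg_smul_neg]
  rw [h1, h2, two_nsmul]

theorem first_sg (e : ℤ) (he : e = 1 ∨ e = -1) : sg (decide (e = 1)) = e := by
  rcases he with rfl | rfl
  · simp [sg]
  · simp [sg]

open Classical in
theorem first_sing (M : MatSys S G z n N) (hz : ∀ s : S, z • z • s = s)
    (X : Finset S) (hX : ∀ s, s ∈ X ↔ z • s ∉ X) :
    M.sing.ncard ≤ ({ε : X → Bool | ∃ v₀ b : Fin n → ℤ, ∑ i, b i * v₀ i = 1 ∧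
      (firstA M X ε).mulVec v₀ = 0} : Finset (X → Bool)).card := by
  rw [← Set.ncard_coe_finset]
  have hsg : ∀ e ∈ M.sing, ∀ x : X, sg (decide (e x.1 = 1)) = e x.1 := by
    intro e he x
    exact first_sg _ (he.1.1 x.1)
  refine Set.ncard_le_ncard_of_injOn (fun e x => decide (e x.1 = 1)) ?_ ?_ (Set.toFinite _)
  · intro e he
    have he' := he
    obtain ⟨⟨he1, he2⟩, v, hv0, hv⟩ := he'
    obtain ⟨g, v₀, b, hg, hvg, hb⟩ := first_prim v hv0
    simp only [Finset.coe_filter, Finset.mem_univ, true_and, Set.mem_ofPred_eq]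
    refine ⟨v₀, b, hb, ?_⟩
    have hA : firstA M X (fun x => decide (e x.1 = 1)) = ∑ x ∈ X, e x • M.Φ x := by
      unfold firstA
      rw [← Finset.sum_coe_sort X]
      refine Finset.sum_congr rfl fun x _ => ?_
      rw [hsg e he x]
    rw [hA]
    rw [first_half M hz X hX e he2, hvg, Matrix.smul_mulVec, Matrix.mulVec_smul] at hv
    funext i
    have hi := congrFun hv i
    simp only [Pi.smul_apply, Pi.zero_apply, smul_eq_mul, nsmul_eq_mul] at hi
    have h2 : (2 : ℤ) ≠ 0 := two_ne_zero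
    have := (mul_eq_zero.1 hi).resolve_left (by norm_num)
    exact (mul_eq_zero.1 this).resolve_left hg
  · intro e he e' he' heq
    have hx : ∀ x : X, e x.1 = e' x.1 := by
      intro x
      rw [← hsg e he x, ← hsg e' he' x]
      have := congrFun heq x
      simp only at this
      rw [this]
    funext s
    by_cases hs : s ∈ X
    · exact hx ⟨s, hs⟩
    · have hzs : z • s ∈ X := by
        by_contra hcon
        exact hs ((hX s).2 hcon)
      have h1 := hx ⟨z • s, hzs⟩
      simp only at h1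
      rw [he.1.2, he'.1.2] at h1
      exact neg_injective h1

open Classical in
theorem first_units (M : MatSys S G z n N) (X : Finset S) (m : ℕ) [NeZero m] (ε : X → Bool)
    (v₀ b : Fin n → ℤ) (hb : ∑ i, b i * v₀ i = 1) (hA : (firstA M X ε).mulVec v₀ = 0) :
    m.totient ≤ ({v | Good m v ∧ ((firstA M X ε).map (Int.cast : ℤ → ZMod m)).mulVec v = 0} :
      Finset (Fin n → ZMod m)).card := by
  rw [← ZMod.card_units_eq_totient, ← Finset.card_univ]
  refine Finset.card_le_card_of_injOn (fun c i => (c : ZMod m) * (v₀ i : ZMod m)) ?_ ?_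
  · intro c _
    simp only [Finset.coe_filter, Finset.mem_univ, true_and, Set.mem_ofPred_eq]
    refine ⟨first_good v₀ b hb c, ?_⟩
    funext i
    have hi := congrFun hA i
    simp only [mulVec, dotProduct, Matrix.map_apply, Pi.zero_apply] at hi ⊢
    have h1 : ((∑ j, firstA M X ε i j * v₀ j : ℤ) : ZMod m) = 0 := by rw [hi]; simp
    push_cast at h1
    calc ∑ j, (firstA M X ε i j : ZMod m) * ((c : ZMod m) * (v₀ j : ZMod m))
        = (c : ZMod m) * ∑ j, (firstA M X ε i j : ZMod m) * (v₀ j : ZMod m) := by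
          rw [Finset.mul_sum]
          refine Finset.sum_congr rfl fun j _ => ?_
          ring
      _ = 0 := by rw [h1, mul_zero]
  · intro c _ c' _ heq
    have h5 : ((∑ i, b i * v₀ i : ℤ) : ZMod m) = 1 := by rw [hb]; simp
    push_cast at h5
    have h6 : ∀ c : (ZMod m)ˣ, (c : ZMod m)
        = ∑ i, (b i : ZMod m) * ((c : ZMod m) * (v₀ i : ZMod m)) := by
      intro c
      calc (c : ZMod m) = (c : ZMod m) * ∑ i, (b i : ZMod m) * (v₀ i : ZMod m) := by
            rw [h5, mul_one]
        _ = _ := by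
            rw [Finset.mul_sum]
            refine Finset.sum_congr rfl fun i _ => ?_
            ring
    apply Units.ext
    rw [h6 c, h6 c']
    refine Finset.sum_congr rfl fun i _ => ?_
    have := congrFun heq i
    simp only at this
    rw [this]

end

open Classical in
theorem pFirst : StFirst := by
  intro S G _ _ _ _ _ z hz X hX n N M m hsq
  have : NeZero m := ⟨hsq.ne_zero⟩
  have hm0 : (0 : ℝ) < m := Nat.cast_pos.2 (Nat.pos_of_ne_zero (NeZero.ne m))
  have hmn : (0 : ℝ) < (m : ℝ) ^ n := by positivity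
  set T : Finset (X → Bool) := {ε : X → Bool | ∃ v₀ b : Fin n → ℤ, ∑ i, b i * v₀ i = 1 ∧
      (firstA M X ε).mulVec v₀ = 0} with hT
  have h1 : M.sing.ncard ≤ T.card := first_sing M hz X hX
  have h3 : m.totient * T.card ≤ ∑ v ∈ ({v | Good m v} : Finset (Fin n → ZMod m)),
      ({ε : X → Bool | ((firstA M X ε).map (Int.cast : ℤ → ZMod m)).mulVec v = 0} :
        Finset (X → Bool)).card := by
    calc m.totient * T.card = ∑ ε ∈ T, m.totient := by
          rw [Finset.sum_const, smul_eq_mul, mul_comm]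
      _ ≤ ∑ ε ∈ T, ({v | Good m v ∧ ((firstA M X ε).map (Int.cast : ℤ → ZMod m)).mulVec v = 0} :
            Finset (Fin n → ZMod m)).card := by
          refine Finset.sum_le_sum fun ε hε => ?_
          rw [hT, Finset.mem_filter] at hε
          obtain ⟨-, v₀, b, hb, hA⟩ := hε
          exact first_units M X m ε v₀ b hb hA
      _ ≤ ∑ ε : X → Bool,
            ({v | Good m v ∧ ((firstA M X ε).map (Int.cast : ℤ → ZMod m)).mulVec v = 0} :
            Finset (Fin n → ZMod m)).card :=
          Finset.sum_le_sum_of_subset (Finset.subset_univ _)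
      _ = ∑ ε : X → Bool, ∑ v ∈ ({v | Good m v} : Finset (Fin n → ZMod m)),
            (if ((firstA M X ε).map (Int.cast : ℤ → ZMod m)).mulVec v = 0 then 1 else 0) := by
          refine Finset.sum_congr rfl fun ε _ => ?_
          rw [← Finset.card_filter, Finset.filter_filter]
      _ = ∑ v ∈ ({v | Good m v} : Finset (Fin n → ZMod m)), ∑ ε : X → Bool,
            (if ((firstA M X ε).map (Int.cast : ℤ → ZMod m)).mulVec v = 0 then 1 else 0) :=
          Finset.sum_comm
      _ = _ := by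
          refine Finset.sum_congr rfl fun v _ => ?_
          rw [← Finset.card_filter]
  have h4 : (m : ℝ) ^ n * ((m.totient : ℝ) * (T.card : ℝ)) ≤ 2 ^ X.card *
      ∑ v ∈ ({v | Good m v} : Finset (Fin n → ZMod m)), ∑ β : Fin n → ZMod m,
        ∏ x ∈ X, |Real.cos (2 * Real.pi * M.wf m v β x)| := by
    have h5 : ((m.totient : ℝ) * (T.card : ℝ)) ≤
        ∑ v ∈ ({v | Good m v} : Finset (Fin n → ZMod m)),
      (({ε : X → Bool | ((firstA M X ε).map (Int.cast : ℤ → ZMod m)).mulVec v = 0} :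
        Finset (X → Bool)).card : ℝ) := by exact_mod_cast h3
    refine (mul_le_mul_of_nonneg_left h5 hmn.le).trans ?_
    rw [Finset.mul_sum, Finset.mul_sum]
    exact Finset.sum_le_sum fun v _ => first_count M X m v
  have h6 := h4.trans (mul_le_mul_of_nonneg_left (first_decomp M X m) (by positivity))
  have h7 : (2 : ℝ) ^ X.card * ∑ d ∈ m.divisors, ((m : ℝ) ^ n / (d : ℝ) ^ n) *
        ∑ᶠ q ∈ {q : (Fin n → ZMod d) × (Fin n → ZMod d) | Good d q.1 ∧ Good d q.2},
          ∏ x ∈ X, |Real.cos (2 * Real.pi * M.wf d q.1 q.2 x)|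
      = (m : ℝ) ^ n * (2 ^ X.card * ∑ d ∈ m.divisors,
    (∑ᶠ q ∈ {q : (Fin n → ZMod d) × (Fin n → ZMod d) | Good d q.1 ∧ Good d q.2},
      ∏ x ∈ X, |Real.cos (2 * Real.pi * M.wf d q.1 q.2 x)|) / (d : ℝ) ^ n) := by
    rw [mul_left_comm ((m : ℝ) ^ n)]
    congr 1
    rw [Finset.mul_sum]
    refine Finset.sum_congr rfl fun d _ => ?_
    ring
  rw [h7] at h6
  have h8 := le_of_mul_le_mul_left h6 hmn
  refine le_trans ?_ h8
  have h9 : (M.sing.ncard : ℝ) ≤ (T.card : ℝ) := by exact_mod_cast h1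
  exact mul_le_mul_of_nonneg_left h9 (Nat.cast_nonneg _)

end Pool.Agent.Lib.MP_640417_ag.Full
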