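import Pool.Agent.Lib.MP_640417_ag.Full.SpecA

/-!
# The Fourier bound for a family of spaces
-/

namespace Pool.Agent.Lib.MP_640417_ag.Full

open Module Finset MulAction Pool.Agent.Lib.MP_640417_ag.Far

section one

variable {S : Type} [Fintype S] {p : ℕ} [hp : Fact p.Prime]
  {G : Type} [Group G] [MulAction G S]

/-- The number of sign functions orthogonal to one space is bounded by a Fourier sum. -/
private lemma FourGood (hp2 : p ≠ 2) (z : G) (hzz : ∀ s : S, z • z • s = s)
    (X : Finset S) (hX : ∀ s, s ∈ X ↔ z • s ∉ X)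
    (W : Submodule (ZMod p) (S → ZMod p)) (hWodd : ∀ w ∈ W, ∀ s, w (z • s) = - w s) :
    ({e : S → ℤ | IsSgn z e ∧ Perp e W}.ncard : ℝ) * (p : ℝ) ^ finrank (ZMod p) W
      ≤ 2 ^ X.card * ∑ᶠ w : W, ∏ x ∈ X, cosAbs p ((w : S → ZMod p) x) := by
  classical
  have hfinW : Finite W := Subtype.finite
  have : Fintype W := Fintype.ofFinite W
  set Good := X.powerset.filter (fun A => ∀ w ∈ W, ∑ x ∈ A, w x - ∑ x ∈ X \ A, w x = 0)
    with hGood
  have hinj : {e : S → ℤ | IsSgn z e ∧ Perp e W}.ncard ≤ Good.card := by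
    rw [← Set.ncard_coe_finset]
    apply Set.ncard_le_ncard_of_injOn (fun e => X.filter (fun x => e x = 1))
    · rintro e ⟨he, hw⟩
      rw [Finset.mem_coe, hGood, Finset.mem_filter, Finset.mem_powerset]
      refine ⟨Finset.filter_subset _ _, fun w hwW => ?_⟩
      have h1 := hw w hwW
      rw [sum_eq_two_mul_of_transversal (fun s : S => z • s) hzz X hX _ (by
        intro s
        rw [hWodd w hwW, he.2]
        push_cast
        ring)] at h1
      have h2 : (2 : ZMod p) ≠ 0 := two_ne_zero' (p := p) hp2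
      have h3 := (mul_eq_zero.mp h1).resolve_left h2
      rw [← h3, ← Finset.sum_filter_add_sum_filter_not X (fun x => e x = 1)
        (fun x => w x * (e x : ZMod p)), sub_eq_add_neg]
      congr 1
      · apply Finset.sum_congr rfl
        intro x hx
        rw [(Finset.mem_filter.mp hx).2]
        push_cast
        ring
      · rw [← Finset.sum_neg_distrib]
        have h4 : X \ X.filter (fun x => e x = 1) = X.filter (fun x => ¬ e x = 1) := by
          ext x
          simp only [Finset.mem_sdiff, Finset.mem_filter]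
          tauto
        rw [h4]
        apply Finset.sum_congr rfl
        intro x hx
        have h5 := (he.1 x).resolve_left (Finset.mem_filter.mp hx).2
        rw [h5]
        push_cast
        ring
    · rintro e ⟨he, -⟩ e' ⟨he', -⟩ hee
      have key : ∀ x ∈ X, e x = e' x := by
        intro x hx
        have h1 : x ∈ X.filter (fun x => e x = 1) ↔ x ∈ X.filter (fun x => e' x = 1) := by
          rw [show X.filter (fun x => e x = 1) = X.filter (fun x => e' x = 1) from hee]
        simp only [Finset.mem_filter, hx, true_and] at h1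
        rcases he.1 x with h | h <;> rcases he'.1 x with h' | h' <;> rw [h, h'] at h1 ⊢ <;>
          norm_num at h1
      funext s
      by_cases hs : s ∈ X
      · exact key s hs
      · have h1 : z • s ∈ X := by
          by_contra h
          exact hs ((hX s).mpr h)
        have h2 := key _ h1
        rw [he.2, he'.2] at h2
        linarith
  have hinj' : ({e : S → ℤ | IsSgn z e ∧ Perp e W}.ncard : ℝ) ≤ (Good.card : ℝ) := by
    exact_mod_cast hinj
  have hmain := card_mul_card_le (p := p) X W Good (by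
    intro A
    rw [hGood, Finset.mem_filter, Finset.mem_powerset])
  have hWcard : (Nat.card W : ℝ) = (p : ℝ) ^ finrank (ZMod p) W := by
    rw [Nat.card_eq_fintype_card, Module.card_eq_pow_finrank (K := ZMod p) (V := W), ZMod.card]
    push_cast
    rfl
  rw [hWcard] at hmain
  exact (mul_le_mul_of_nonneg_right hinj' (by positivity)).trans hmain

/-- The Fourier sum over a stable space of odd functions. -/
private lemma FourSum [Finite G] [IsPretransitive G S] (z : G) (hzz : ∀ s : S, z • z • s = s)
    (X : Finset S) (hX : ∀ s, s ∈ X ↔ z • s ∉ X)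
    (W : Submodule (ZMod p) (S → ZMod p)) (hWodd : ∀ w ∈ W, ∀ s, w (z • s) = - w s)
    (hWG : ∀ w ∈ W, ∀ γ : G, (fun s => w (γ • s)) ∈ W) (a : ℝ) (ha : 0 ≤ a)
    (haD : a * finrank (ZMod p) W ≤ X.card) :
    ∑ᶠ w : W, ∏ x ∈ X, cosAbs p ((w : S → ZMod p) x)
      ≤ (p * cosAvg p a) ^ finrank (ZMod p) W := by
  classical
  have : Fintype G := Fintype.ofFinite G
  have hp0 : (0 : ℝ) < p := by exact_mod_cast hp.out.pos
  have hcardS := two_mul_card_transversal (fun s : S => z • s) hzz X hX
  have hfinW : Finite W := Subtype.finite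
  have : Fintype W := Fintype.ofFinite W
  rw [finsum_eq_sum_of_fintype]
  rcases Nat.eq_zero_or_pos (finrank (ZMod p) W) with hD | hD
  · rw [hD, pow_zero]
    have hWb : W = ⊥ := Submodule.finrank_eq_zero.mp hD
    have hcard : Fintype.card W = 1 := by
      rw [Module.card_eq_pow_finrank (K := ZMod p) (V := W), hD, pow_zero]
    calc ∑ w : W, ∏ x ∈ X, cosAbs p ((w : S → ZMod p) x)
        ≤ ∑ _w : W, (1 : ℝ) := by
          apply Finset.sum_le_sum
          intro w _
          exact Finset.prod_le_one (fun x _ => cosAbs_nonneg _) (fun x _ => cosAbs_le_one _)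
      _ = 1 := by
          rw [Finset.sum_const, Finset.card_univ, hcard]
          simp
  · have hXpos : 0 < X.card := by
      obtain ⟨t, -⟩ := exists_base W
      have hne : Nonempty S := ⟨t ⟨0, hD⟩⟩
      have : 0 < Fintype.card S := Fintype.card_pos
      omega
    obtain ⟨t, ht⟩ := exists_base W
    have hG0 : (0 : ℝ) < Fintype.card G := by exact_mod_cast Fintype.card_pos
    have hbase : ∀ γ : G, ∑ w : W, ∏ i, cosAbs p ((w : S → ZMod p) (γ • t i)) ^ a
        = (∑ u : ZMod p, cosAbs p u ^ a) ^ finrank (ZMod p) W := by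
      intro γ
      let f : W → W := fun w => ⟨fun s => (w : S → ZMod p) (γ • s), hWG w w.2 γ⟩
      have hf : Function.Bijective f := by
        rw [← Finite.injective_iff_bijective]
        intro v w hvw
        apply Subtype.ext
        funext s
        have h1 := congrFun (congrArg Subtype.val hvw) (γ⁻¹ • s)
        simpa [f] using h1
      have h1 : ∑ w : W, ∏ i, cosAbs p ((w : S → ZMod p) (γ • t i)) ^ a
          = ∑ w : W, ∏ i, cosAbs p ((w : S → ZMod p) (t i)) ^ a :=
        Fintype.sum_bijective f hf _ _ (fun w => rfl)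
      have h2 : ∑ w : W, ∏ i, cosAbs p ((w : S → ZMod p) (t i)) ^ a
          = ∑ y : Fin (finrank (ZMod p) W) → ZMod p, ∏ i, cosAbs p (y i) ^ a :=
        Fintype.sum_bijective _ ht _ _ (fun w => rfl)
      have h3 := Finset.prod_univ_sum (fun _ : Fin (finrank (ZMod p) W) =>
        (Finset.univ : Finset (ZMod p))) (fun _ u => cosAbs p u ^ a)
      rw [Fintype.piFinset_univ, Finset.prod_const, Finset.card_univ, Fintype.card_fin] at h3
      rw [h1, h2, h3]
    have h7 : (∑ u : ZMod p, cosAbs p u ^ a) = p * cosAvg p a := by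
      unfold cosAvg
      field_simp
    rw [← h7]
    calc ∑ w : W, ∏ x ∈ X, cosAbs p ((w : S → ZMod p) x)
        ≤ ∑ w : W, (∑ γ : G, ∏ i, cosAbs p ((w : S → ZMod p) (γ • t i)) ^ a)
          / Fintype.card G := by
          apply Finset.sum_le_sum
          intro w _
          apply prod_le_mean hD t (fun s => cosAbs p ((w : S → ZMod p) s))
            (fun s => cosAbs_nonneg _) (fun s => cosAbs_le_one _) X _ hcardS.symm hXpos a ha haD
          rw [← Finset.prod_mul_prod_compl X, pow_two]
          congr 1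
          refine Finset.prod_bij' (fun s _ => z • s) (fun s _ => z • s) ?_ ?_ ?_ ?_ ?_
          · intro s hs
            rw [Finset.mem_compl] at hs
            by_contra h4
            exact hs ((hX s).mpr h4)
          · intro s hs
            rw [Finset.mem_compl]
            exact (hX s).mp hs
          · intro s _; exact hzz s
          · intro s _; exact hzz s
          · intro s _
            rw [hWodd w w.2, cosAbs_neg]
      _ = (∑ γ : G, ∑ w : W, ∏ i, cosAbs p ((w : S → ZMod p) (γ • t i)) ^ a)
          / Fintype.card G := by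
          rw [← Finset.sum_div, Finset.sum_comm]
      _ = _ := by
          rw [Finset.sum_congr rfl (fun γ _ => hbase γ), Finset.sum_const, Finset.card_univ,
            nsmul_eq_mul]
          field_simp

end one

theorem pFour : StFour := by
  intro S G _ _ _ _ _ z hzz X hX p _ hp2 T I D m a hT hIs hIo hm ha haD
  classical
  have hpp : p.Prime := Fact.out
  have hTfin : T.Finite := Set.toFinite _
  set φ : (S → ZMod p) → ℝ := fun w => ∏ x ∈ X, cosAbs p (w x) with hφ
  have hφ0 : ∀ w, 0 ≤ φ w := fun w => Finset.prod_nonneg (fun x _ => cosAbs_nonneg _)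
  have hφ1 : ∀ w, φ w ≤ 1 := fun w =>
    Finset.prod_le_one (fun x _ => cosAbs_nonneg _) (fun x _ => cosAbs_le_one _)
  -- the sum over a space
  have hsumM : ∀ M : Submodule (ZMod p) (S → ZMod p),
      ∑ᶠ w : M, ∏ x ∈ X, cosAbs p ((w : S → ZMod p) x)
        = ∑ w ∈ (Finset.univ : Finset (S → ZMod p)).filter (fun w => w ∈ M), φ w := by
    intro M
    have : Fintype M := Fintype.ofFinite M
    rw [finsum_eq_sum_of_fintype]
    symm
    refine Finset.sum_bij' (fun w hw => (⟨w, (Finset.mem_filter.mp hw).2⟩ : M))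
      (fun w _ => (w : S → ZMod p)) ?_ ?_ ?_ ?_ ?_
    · intro w _; exact Finset.mem_univ _
    · intro w _; exact Finset.mem_filter.mpr ⟨Finset.mem_univ _, w.2⟩
    · intro w _; rfl
    · intro w _; rfl
    · intro w _; rfl
  -- one space
  have hone : ∀ M ∈ T, (p : ℝ) ^ D * ({e : S → ℤ | IsSgn z e ∧ Perp e M}.ncard : ℝ)
      ≤ 2 ^ X.card * (1 + ∑ w ∈ (Finset.univ : Finset (S → ZMod p)).filter
        (fun w => w ∈ M ∧ w ≠ 0), φ w) := by
    intro M hM
    obtain ⟨hMs, hMD, hMI⟩ := hT M hM
    have h1 := FourGood (p := p) hp2 z hzz X hX M (fun w hw => hIo w (hMI hw))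
    rw [hMD, hsumM M] at h1
    rw [mul_comm]
    refine h1.trans (mul_le_mul_of_nonneg_left ?_ (by positivity))
    have h2 : (Finset.univ : Finset (S → ZMod p)).filter (fun w => w ∈ M)
        = insert 0 ((Finset.univ : Finset (S → ZMod p)).filter (fun w => w ∈ M ∧ w ≠ 0)) := by
      ext w
      simp only [Finset.mem_filter, Finset.mem_univ, true_and, Finset.mem_insert]
      constructor
      · intro hw
        by_cases h0 : w = 0
        · exact Or.inl h0
        · exact Or.inr ⟨hw, h0⟩
      · rintro (rfl | h)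
        · exact M.zero_mem
        · exact h.1
    rw [h2, Finset.sum_insert (by simp)]
    have := hφ1 0
    linarith
  -- the union
  have hT' := hTfin.toFinset
  have hsub : {e : S → ℤ | IsSgn z e ∧ ∃ M ∈ T, Perp e M}
      = ⋃ M ∈ hTfin.toFinset, {e : S → ℤ | IsSgn z e ∧ Perp e M} := by
    ext e
    simp only [Set.mem_ofPred_eq, Set.mem_iUnion, Set.Finite.mem_toFinset, exists_prop]
    constructor
    · rintro ⟨he, M, hM, hp⟩
      exact ⟨M, hM, he, hp⟩
    · rintro ⟨M, hM, he, hp⟩
      exact ⟨he, M, hM, hp⟩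
  have hunion : ({e : S → ℤ | IsSgn z e ∧ ∃ M ∈ T, Perp e M}.ncard : ℝ)
      ≤ ∑ M ∈ hTfin.toFinset, ({e : S → ℤ | IsSgn z e ∧ Perp e M}.ncard : ℝ) := by
    rw [hsub]
    have h := Finset.set_ncard_biUnion_le hTfin.toFinset
      (fun M => {e : S → ℤ | IsSgn z e ∧ Perp e M})
    exact_mod_cast h
  have hTcard : (T.ncard : ℝ) = ∑ _M ∈ hTfin.toFinset, (1 : ℝ) := by
    rw [Finset.sum_const, Set.ncard_eq_toFinset_card T hTfin]
    simp
  -- double counting
  have hdouble : ∑ M ∈ hTfin.toFinset, ∑ w ∈ (Finset.univ : Finset (S → ZMod p)).filter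
        (fun w => w ∈ M ∧ w ≠ 0), φ w
      ≤ m * ∑ w ∈ (Finset.univ : Finset (S → ZMod p)).filter (fun w => w ∈ I), φ w := by
    have h1 : ∀ M ∈ hTfin.toFinset, ∑ w ∈ (Finset.univ : Finset (S → ZMod p)).filter
        (fun w => w ∈ M ∧ w ≠ 0), φ w
        = ∑ w ∈ (Finset.univ : Finset (S → ZMod p)).filter (fun w => w ∈ I),
          if w ∈ M ∧ w ≠ 0 then φ w else 0 := by
      intro M hM
      rw [← Finset.sum_filter]
      apply Finset.sum_congr _ (fun _ _ => rfl)
      ext w
      simp only [Finset.mem_filter, Finset.mem_univ, true_and]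
      constructor
      · intro h
        exact ⟨(hT M (hTfin.mem_toFinset.mp hM)).2.2 h.1, h⟩
      · intro h
        exact h.2
    rw [Finset.sum_congr rfl h1, Finset.sum_comm, Finset.mul_sum]
    apply Finset.sum_le_sum
    intro w _
    by_cases hw : w = 0
    · have h2 : ∑ M ∈ hTfin.toFinset, (if w ∈ M ∧ w ≠ 0 then φ w else 0) = 0 := by
        apply Finset.sum_eq_zero
        intro M _
        rw [if_neg]
        rintro ⟨-, h⟩
        exact h hw
      rw [h2]
      exact mul_nonneg (Nat.cast_nonneg _) (hφ0 w)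
    · rw [← Finset.sum_filter, Finset.sum_const, nsmul_eq_mul]
      apply mul_le_mul_of_nonneg_right _ (hφ0 w)
      have h3 := hm w hw
      have h4 : (hTfin.toFinset.filter (fun M => w ∈ M ∧ w ≠ 0)).card
          = {M | M ∈ T ∧ w ∈ M}.ncard := by
        rw [← Set.ncard_coe_finset]
        congr 1
        ext M
        simp only [Finset.coe_filter, Set.Finite.mem_toFinset, Set.mem_ofPred_eq]
        constructor
        · rintro ⟨h, h', -⟩
          exact ⟨h, h'⟩
        · rintro ⟨h, h'⟩
          exact ⟨h, h', hw⟩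
      rw [h4]
      exact_mod_cast h3
  have hI := FourSum (p := p) z hzz X hX I hIo hIs a ha haD
  rw [hsumM I] at hI
  calc (p : ℝ) ^ D * ({e : S → ℤ | IsSgn z e ∧ ∃ M ∈ T, Perp e M}.ncard : ℝ)
      ≤ (p : ℝ) ^ D * ∑ M ∈ hTfin.toFinset, ({e : S → ℤ | IsSgn z e ∧ Perp e M}.ncard : ℝ) :=
        mul_le_mul_of_nonneg_left hunion (by positivity)
    _ = ∑ M ∈ hTfin.toFinset, (p : ℝ) ^ D * ({e : S → ℤ | IsSgn z e ∧ Perp e M}.ncard : ℝ) := by
        rw [Finset.mul_sum]
    _ ≤ ∑ M ∈ hTfin.toFinset, 2 ^ X.card * (1 + ∑ w ∈ (Finset.univ : Finset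
        (S → ZMod p)).filter (fun w => w ∈ M ∧ w ≠ 0), φ w) := by
        apply Finset.sum_le_sum
        intro M hM
        exact hone M (hTfin.mem_toFinset.mp hM)
    _ = 2 ^ X.card * (T.ncard + ∑ M ∈ hTfin.toFinset, ∑ w ∈ (Finset.univ : Finset
        (S → ZMod p)).filter (fun w => w ∈ M ∧ w ≠ 0), φ w) := by
        rw [← Finset.mul_sum, Finset.sum_add_distrib, hTcard]
    _ ≤ _ := by
        apply mul_le_mul_of_nonneg_left _ (by positivity)
        have h5 : (m : ℝ) * ∑ w ∈ (Finset.univ : Finset (S → ZMod p)).filter (fun w => w ∈ I), φ w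
            ≤ m * (p * cosAvg p a) ^ finrank (ZMod p) I :=
          mul_le_mul_of_nonneg_left hI (Nat.cast_nonneg _)
        linarith

end Pool.Agent.Lib.MP_640417_ag.Full
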