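import Pool.Agent.Lib.MP_640417_ag.Full.SpecG
import Pool.Agent.Lib.MP_640417_ag.Full.Dist
import Pool.Agent.Lib.MP_640417_ag.Far.Main

/-!
# Sign functions orthogonal to a copy of a small real space
-/

namespace Pool.Agent.Lib.MP_640417_ag.Full

open Module Finset MulAction MeasureTheory ProbabilityTheory Pool.Agent.Lib.MP_640417_ag.Far

theorem gauss_sq : ∫ t : ℝ, t ^ 2 ∂(gaussianReal 0 1) = 1 := by
  have h1 := variance_fun_id_gaussianReal (μ := 0) (v := 1)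
  rw [variance_of_integral_eq_zero (by fun_prop) integral_id_gaussianReal] at h1
  simpa using h1

theorem gauss_markov (ι : Type) [Fintype ι] [Nonempty ι] :
    1 / 2 ≤ (gpi ι).real {y | ∑ i, y i ^ 2 ≤ 2 * (Fintype.card ι : ℝ)} := by
  have hP : IsProbabilityMeasure (gpi ι) := by unfold gpi; infer_instance
  have hmp : ∀ i : ι, MeasurePreserving (fun y : ι → ℝ => y i) (gpi ι) (gaussianReal 0 1) :=
    fun i => measurePreserving_eval (fun _ : ι => gaussianReal 0 1) i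
  have hI : Integrable (fun t : ℝ => t ^ 2) (gaussianReal 0 1) := by
    have := (memLp_id_gaussianReal (μ := 0) (v := 1) 2).integrable_sq
    simpa using this
  have hint : ∀ i : ι, Integrable (fun y : ι → ℝ => y i ^ 2) (gpi ι) := fun i =>
    ((hmp i).integrable_comp hI.aestronglyMeasurable).2 hI
  have hval : ∀ i : ι, ∫ y, y i ^ 2 ∂(gpi ι) = 1 := by
    intro i
    have h1 : ∫ t, t ^ 2 ∂((gpi ι).map (fun y : ι → ℝ => y i)) = ∫ y, y i ^ 2 ∂(gpi ι) :=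
      integral_map (hmp i).measurable.aemeasurable (by fun_prop)
    rw [← h1, (hmp i).map_eq, gauss_sq]
  have hsum : ∫ y, ∑ i, y i ^ 2 ∂(gpi ι) = Fintype.card ι := by
    rw [integral_finsetSum _ (fun i _ => hint i)]
    simp [hval]
  have hc : (0 : ℝ) < Fintype.card ι := by exact_mod_cast Fintype.card_pos
  have h1 := mul_meas_ge_le_integral_of_nonneg (μ := gpi ι)
    (f := fun y : ι → ℝ => ∑ i, y i ^ 2)
    (Filter.Eventually.of_forall fun y => Finset.sum_nonneg fun i _ => sq_nonneg (y i))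
    (integrable_finsetSum _ (fun i _ => hint i)) (2 * (Fintype.card ι : ℝ))
  rw [hsum] at h1
  have h2 : (gpi ι).real {y | 2 * (Fintype.card ι : ℝ) ≤ ∑ i, y i ^ 2} ≤ 1 / 2 := by
    by_contra h
    push Not at h
    nlinarith
  have hm : MeasurableSet {y : ι → ℝ | 2 * (Fintype.card ι : ℝ) ≤ ∑ i, y i ^ 2} :=
    measurableSet_le measurable_const (by fun_prop)
  have h3 : (gpi ι).real {y | 2 * (Fintype.card ι : ℝ) ≤ ∑ i, y i ^ 2}ᶜ
      ≤ (gpi ι).real {y | ∑ i, y i ^ 2 ≤ 2 * (Fintype.card ι : ℝ)} := by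
    refine measureReal_mono ?_
    intro y hy
    rw [Set.mem_compl_iff, Set.mem_ofPred_eq, not_le] at hy
    exact hy.le
  rw [probReal_compl_eq_one_sub hm] at h3
  linarith

/-- The vectors near the bad configurations. -/
def gaussA (k n : ℕ) (𝔻 : Submodule ℝ ((Fin n → ℝ) →ₗ[ℝ] (Fin n → ℝ))) (r : ℝ) (j : Fin k) :
    Set (Fin k × Fin n → ℝ) :=
  {y | ∃ d : Fin k → 𝔻,
    ∑ i, (y (j, i) + ∑ l ∈ Finset.univ.erase j, (d l).1 (fun i' => y (l, i')) i) ^ 2 < r ^ 2}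

theorem gauss_scale (k n : ℕ) (𝔻 : Submodule ℝ ((Fin n → ℝ) →ₗ[ℝ] (Fin n → ℝ))) (r : ℝ)
    (j : Fin k) (c : ℝ) (hc : 1 ≤ c) (y : Fin k × Fin n → ℝ) (hy : c • y ∈ gaussA k n 𝔻 r j) :
    y ∈ gaussA k n 𝔻 r j := by
  obtain ⟨d, hd⟩ := hy
  refine ⟨d, lt_of_le_of_lt ?_ hd⟩
  refine Finset.sum_le_sum fun i _ => ?_
  have h1 : ∀ l, (d l).1 (fun i' => (c • y) (l, i')) i = c * (d l).1 (fun i' => y (l, i')) i := by
    intro l
    have : (fun i' => (c • y) (l, i')) = c • (fun i' => y (l, i')) := rfl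
    rw [this, map_smul]
    rfl
  simp_rw [h1]
  rw [← Finset.mul_sum, Pi.smul_apply, smul_eq_mul, ← mul_add, mul_pow]
  have h2 : (1 : ℝ) ≤ c ^ 2 := by nlinarith
  nlinarith [sq_nonneg (y (j, i) + ∑ l ∈ Finset.univ.erase j, (d l).1 (fun i' => y (l, i')) i)]

theorem gauss_geom (k n : ℕ) (hk : 1 ≤ k) (hn : 1 ≤ n)
    (𝔻 : Submodule ℝ ((Fin n → ℝ) →ₗ[ℝ] (Fin n → ℝ))) (j : Fin k) (d : Fin k → 𝔻)
    (hd : ∀ l (y : Fin n → ℝ), ∑ i, (d l).1 y i ^ 2 ≤ ∑ i, y i ^ 2)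
    (w : Fin k × Fin n → ℝ)
    (hw : ∀ i, w (j, i) + ∑ l ∈ Finset.univ.erase j, (d l).1 (fun i' => w (l, i')) i = 0)
    (s : ℝ) (hs : 0 < s) (y : Fin k × Fin n → ℝ)
    (hy : ∑ a, y a ^ 2 ≤ 2 * ((k : ℝ) * n)) :
    w + s • y ∈ gaussA k n 𝔻 (2 * s * k * n) j := by
  classical
  refine ⟨d, ?_⟩
  have hk0 : (1 : ℝ) ≤ k := by exact_mod_cast hk
  have hn0 : (1 : ℝ) ≤ n := by exact_mod_cast hn
  let b : Fin k → Fin n → ℝ := fun l => if l = j then (fun i => y (j, i)) else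
    (d l).1 (fun i' => y (l, i'))
  have hb : ∀ l, ∑ i, b l i ^ 2 ≤ ∑ i, y (l, i) ^ 2 := by
    intro l
    by_cases hl : l = j
    · subst hl
      simp [b]
    · simp only [b, if_neg hl]
      exact hd l _
  have h1 : ∀ i, (w + s • y) (j, i)
      + ∑ l ∈ Finset.univ.erase j, (d l).1 (fun i' => (w + s • y) (l, i')) i
      = s * ∑ l, b l i := by
    intro i
    have e1 : ∀ l, (d l).1 (fun i' => (w + s • y) (l, i')) i
        = (d l).1 (fun i' => w (l, i')) i + s * (d l).1 (fun i' => y (l, i')) i := by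
      intro l
      have : (fun i' => (w + s • y) (l, i')) = (fun i' => w (l, i')) + s • (fun i' => y (l, i')) :=
        rfl
      rw [this, map_add, map_smul]
      rfl
    simp_rw [e1]
    rw [Finset.sum_add_distrib, ← Finset.mul_sum, ← Finset.add_sum_erase _ _ (Finset.mem_univ j)]
    have e2 : ∑ l ∈ Finset.univ.erase j, b l i
        = ∑ l ∈ Finset.univ.erase j, (d l).1 (fun i' => y (l, i')) i := by
      refine Finset.sum_congr rfl fun l hl => ?_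
      simp only [b, if_neg (Finset.mem_erase.1 hl).1]
    have e3 : b j i = y (j, i) := by simp [b]
    rw [e2, e3]
    have e4 := hw i
    simp only [Pi.add_apply, Pi.smul_apply, smul_eq_mul]
    linear_combination e4
  simp_rw [h1]
  have h2 : ∀ i, (s * ∑ l, b l i) ^ 2 ≤ s ^ 2 * (k * ∑ l, b l i ^ 2) := by
    intro i
    rw [mul_pow]
    refine mul_le_mul_of_nonneg_left ?_ (sq_nonneg s)
    have := sq_sum_le_card_mul_sum_sq (s := (Finset.univ : Finset (Fin k))) (f := fun l => b l i)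
    simpa using this
  have h3 : ∑ i, (s * ∑ l, b l i) ^ 2 ≤ s ^ 2 * (k * (2 * ((k : ℝ) * n))) := by
    calc ∑ i, (s * ∑ l, b l i) ^ 2 ≤ ∑ i, s ^ 2 * (k * ∑ l, b l i ^ 2) :=
          Finset.sum_le_sum fun i _ => h2 i
      _ = s ^ 2 * (k * ∑ l, ∑ i, b l i ^ 2) := by
          rw [← Finset.mul_sum, ← Finset.mul_sum, Finset.sum_comm]
      _ ≤ s ^ 2 * (k * ∑ l, ∑ i, y (l, i) ^ 2) := by
          refine mul_le_mul_of_nonneg_left ?_ (sq_nonneg s)
          refine mul_le_mul_of_nonneg_left ?_ (by positivity)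
          exact Finset.sum_le_sum fun l _ => hb l
      _ = s ^ 2 * (k * ∑ a, y a ^ 2) := by rw [Fintype.sum_prod_type]
      _ ≤ s ^ 2 * (k * (2 * ((k : ℝ) * n))) := by
          refine mul_le_mul_of_nonneg_left ?_ (sq_nonneg s)
          exact mul_le_mul_of_nonneg_left hy (by positivity)
  refine lt_of_le_of_lt h3 ?_
  have h4 : (2 * s * k * n) ^ 2 = s ^ 2 * (k * (2 * ((k : ℝ) * n))) * (2 * n) := by ring
  rw [h4]
  have h5 : 0 < s ^ 2 * (k * (2 * ((k : ℝ) * n))) := by positivity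
  nlinarith

theorem gauss_rpow (g : ℕ) (hg : 1 ≤ g) :
    0 < (g : ℝ) ^ (-(1 / 5) : ℝ) ∧ (g : ℝ) * ((g : ℝ) ^ (-(1 / 5) : ℝ)) ^ 5 = 1 ∧
    (g < 32 → 1 / 2 ≤ (g : ℝ) ^ (-(1 / 5) : ℝ)) ∧ (32 ≤ g → (g : ℝ) ^ (-(1 / 5) : ℝ) ≤ 1 / 2) := by
  have hg0 : (0 : ℝ) < g := by exact_mod_cast hg
  have h32 : (32 : ℝ) ^ (-(1 / 5) : ℝ) = 1 / 2 := by
    have : (32 : ℝ) = 2 ^ (5 : ℝ) := by norm_num
    rw [this, ← Real.rpow_mul (by norm_num)]
    have : (5 : ℝ) * (-(1 / 5)) = -1 := by norm_num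
    rw [this, Real.rpow_neg_one]
    norm_num
  refine ⟨Real.rpow_pos_of_pos hg0 _, ?_, fun h => ?_, fun h => ?_⟩
  · rw [← Real.rpow_natCast, ← Real.rpow_mul hg0.le]
    have : (-(1 / 5) : ℝ) * ((5 : ℕ) : ℝ) = -1 := by norm_num
    rw [this, Real.rpow_neg_one]
    exact mul_inv_cancel₀ hg0.ne'
  · rw [← h32]
    refine Real.rpow_le_rpow_of_nonpos hg0 ?_ (by norm_num)
    have : (g : ℝ) < 32 := by exact_mod_cast h
    exact this.le
  · rw [← h32]
    refine Real.rpow_le_rpow_of_nonpos (by norm_num) ?_ (by norm_num)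
    exact_mod_cast h

theorem gauss_nn (C s k n q : ℝ) (hC : 0 < C) (hs : 0 < s) (hk : 0 < k) (hn : 0 < n)
    (hq : 0 < q) : 0 ≤ k * n * q ^ 2 / 4 ∧ 0 ≤ n * q ^ 2 / 4 ∧ 0 < 2 * s * k * n ∧
      0 ≤ 2 * n ^ 2 * q ∧ 0 ≤ 4 * C * q ∧ 0 ≤ k / n := by
  refine ⟨by positivity, by positivity, by positivity, by positivity, by positivity,
    by positivity⟩

theorem gauss_core (C : ℝ) (hC : 0 < C) (hH : ∀ (ι κ : Type) [Fintype ι] [Fintype κ]
    [DecidableEq κ] (v : κ → ι → ℝ) (s ρ : ℝ), 0 < s → 0 ≤ ρ →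
    (∀ u : ι → ℝ, ∑ x, (∑ i, v x i * u i) ^ 2 = ρ * ∑ i, u i ^ 2) →
    (∀ x, ∑ i, v x i ^ 2 ≤ (s / 2) ^ 2) → ∀ B : Set (ι → ℝ), MeasurableSet B →
    (∑ σ : κ → Bool, (gpi ι).real {y | (∑ x, (if σ x then (1 : ℝ) else -1) • v x) + s • y ∈ B})
        / 2 ^ Fintype.card κ
      ≤ (gpi ι).real {y | Real.sqrt (ρ + s ^ 2) • y ∈ B}
        + C * ∑ x, ((∑ i, v x i ^ 2) / s ^ 2) ^ 2)
    (hDist : StDist) (S G : Type) [Fintype S] [Group G] [Finite G]
    [MulAction G S] [IsPretransitive G S] (z : G) (hzz : ∀ s : S, z • z • s = s)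
    (X : Finset S) (hX : ∀ s, s ∈ X ↔ z • s ∉ X) (hg : 1 ≤ X.card) (h32 : 32 ≤ X.card)
    (bad : Set (S → ℤ)) (hsgn : ∀ e ∈ bad, IsSgn z e) (n k : ℕ)
    (𝔻 : Submodule ℝ ((Fin n → ℝ) →ₗ[ℝ] (Fin n → ℝ)))
    (v : S → Fin k × Fin n → ℝ) (hn : 1 ≤ n) (hk1 : 1 ≤ k) (hkn : k ≤ n)
    (hkD : (k - 1) * finrank ℝ 𝔻 < n)
    (hframe : ∀ u : Fin k × Fin n → ℝ, ∑ s, (∑ i, v s i * u i) ^ 2 = ∑ i, u i ^ 2)
    (hnorm : ∀ s, Fintype.card S * ∑ i, v s i ^ 2 = k * n)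
    (hodd : ∀ s, v (z • s) = - v s)
    (hbad : ∀ e ∈ bad, ∃ (j : Fin k) (d : Fin k → 𝔻),
      (∀ l (y : Fin n → ℝ), ∑ i, (d l).1 y i ^ 2 ≤ ∑ i, y i ^ 2) ∧
      ∀ i, (∑ s, (e s : ℝ) * v s (j, i)) + ∑ l ∈ Finset.univ.erase j,
        (d l).1 (fun i' => ∑ s, (e s : ℝ) * v s (l, i')) i = 0) :
    (bad.ncard : ℝ) ≤ (4 + 8 * C) * (n : ℝ) ^ 4 * (X.card : ℝ) ^ (-(1 / 5) : ℝ)
      * 2 ^ X.card := by
  classical
  obtain ⟨hq0, hq5, hq1, hq2⟩ := gauss_rpow X.card hg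
  have hn1 : (1 : ℝ) ≤ n := by exact_mod_cast hn
  have hn4 : (1 : ℝ) ≤ (n : ℝ) ^ 4 := one_le_pow₀ hn1
  have h2g : (0 : ℝ) < 2 ^ X.card := by positivity
  set q : ℝ := (X.card : ℝ) ^ (-(1 / 5) : ℝ) with hqdef
  have hq := hq2 h32
  have hcard : (2 : ℝ) * X.card = Fintype.card S := by
    exact_mod_cast two_mul_card_transversal (fun s : S => z • s) hzz X hX
  have hk0 : (1 : ℝ) ≤ k := by exact_mod_cast hk1
  have hkn0 : (k : ℝ) ≤ n := by exact_mod_cast hkn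
  have hg0 : (1 : ℝ) ≤ X.card := by exact_mod_cast hg
  -- the family of vectors
  let v' : {x // x ∈ X} → (Fin k × Fin n → ℝ) := fun x => (2 : ℝ) • v x.1
  set s : ℝ := n * q with hs
  have hn00 : (0 : ℝ) < n := lt_of_lt_of_le one_pos hn1
  have hk00 : (0 : ℝ) < k := lt_of_lt_of_le one_pos hk0
  have hX0 : (0 : ℝ) < X.card := lt_of_lt_of_le one_pos hg0
  have hs0 : 0 < s := mul_pos hn00 hq0
  obtain ⟨nn1, nn2, nn3, nn4, nn5, nn6⟩ := gauss_nn C s k n q hC hs0 hk00 hn00 hq0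
  have hfr : ∀ u : Fin k × Fin n → ℝ,
      ∑ x, (∑ i, v' x i * u i) ^ 2 = 2 * ∑ i, u i ^ 2 := by
    intro u
    have h1 := sum_eq_two_mul_of_transversal (fun s : S => z • s) hzz X hX
      (fun s => (∑ i, v s i * u i) ^ 2) (by
        intro s
        simp only [hodd s, Pi.neg_apply, neg_mul, Finset.sum_neg_distrib, neg_sq])
    rw [hframe u] at h1
    have h2 : ∑ x, (∑ i, v' x i * u i) ^ 2 = ∑ x ∈ X, 4 * (∑ i, v x i * u i) ^ 2 := by
      rw [← Finset.sum_coe_sort X (fun x => 4 * (∑ i, v x i * u i) ^ 2)]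
      refine Finset.sum_congr rfl fun x _ => ?_
      simp only [v', Pi.smul_apply, smul_eq_mul, mul_assoc]
      rw [← Finset.mul_sum]
      ring
    rw [h2, ← Finset.mul_sum, h1]
    ring
  have hnm : ∀ x : {x // x ∈ X}, ∑ i, v' x i ^ 2 = 2 * k * n / X.card := by
    intro x
    have h1 := hnorm x.1
    rw [← hcard] at h1
    have h2 : ∑ i, v' x i ^ 2 = 4 * ∑ i, v x.1 i ^ 2 := by
      rw [Finset.mul_sum]
      refine Finset.sum_congr rfl fun i _ => ?_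
      simp only [v', Pi.smul_apply, smul_eq_mul]
      ring
    rw [h2, eq_div_iff hX0.ne']
    linarith
  have hinv : (1 : ℝ) / X.card = q ^ 5 := by
    rw [div_eq_iff hX0.ne']
    linarith
  have hnm' : ∀ x : {x // x ∈ X}, ∑ i, v' x i ^ 2 = 2 * k * n * q ^ 5 := by
    intro x
    rw [hnm x, ← hinv]
    ring
  have hsmall : ∀ x : {x // x ∈ X}, ∑ i, v' x i ^ 2 ≤ (s / 2) ^ 2 := by
    intro x
    rw [hnm' x, hs]
    have h1 : 8 * q ^ 3 ≤ 1 := by
      have : q ^ 3 ≤ (1 / 2) ^ 3 := pow_le_pow_left₀ hq0.le hq 3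
      norm_num at this
      linarith
    have h2 : (2 * k * n * q ^ 5 : ℝ) = (k * n * q ^ 2 / 4) * (8 * q ^ 3) := by ring
    rw [h2]
    have h3 : (0 : ℝ) ≤ k * n * q ^ 2 / 4 := nn1
    calc (k * n * q ^ 2 / 4) * (8 * q ^ 3) ≤ (k * n * q ^ 2 / 4) * 1 :=
          mul_le_mul_of_nonneg_left h1 h3
      _ = k * (n * q ^ 2 / 4) := by ring
      _ ≤ n * (n * q ^ 2 / 4) := mul_le_mul_of_nonneg_right hkn0 nn2
      _ = (n * q / 2) ^ 2 := by ring
  -- the set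
  set r : ℝ := 2 * s * k * n with hr
  have hr0 : 0 < r := nn3
  set B : Set (Fin k × Fin n → ℝ) := ⋃ j, gaussA k n 𝔻 r j with hB
  have hBm : MeasurableSet B :=
    (isOpen_iUnion fun j => dist_open k n 𝔻 j r).measurableSet
  have hmain := hH (Fin k × Fin n) {x // x ∈ X} v' s 2 hs0 (by norm_num) hfr hsmall B hBm
  have hP : IsProbabilityMeasure (gpi (Fin k × Fin n)) := by unfold gpi; infer_instance
  have hμB : (gpi (Fin k × Fin n)).real {y | Real.sqrt (2 + s ^ 2) • y ∈ B} ≤ k * r := by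
    have hc1 : 1 ≤ Real.sqrt (2 + s ^ 2) := by
      rw [Real.one_le_sqrt]
      nlinarith [sq_nonneg s]
    have h1 : {y | Real.sqrt (2 + s ^ 2) • y ∈ B} ⊆ B := by
      intro y hy
      rw [Set.mem_ofPred_eq, hB, Set.mem_iUnion] at hy
      obtain ⟨j, hj⟩ := hy
      rw [hB, Set.mem_iUnion]
      exact ⟨j, gauss_scale k n 𝔻 r j _ hc1 y hj⟩
    refine (measureReal_mono h1).trans ?_
    refine (measureReal_iUnion_fintype_le _).trans ?_
    have h2 : ∀ j : Fin k, (gpi (Fin k × Fin n)).real (gaussA k n 𝔻 r j) ≤ r :=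
      fun j => hDist k n 𝔻 hkD j r hr0
    refine (Finset.sum_le_sum fun j _ => h2 j).trans ?_
    simp
  have herr : C * ∑ x : {x // x ∈ X}, ((∑ i, v' x i ^ 2) / s ^ 2) ^ 2 ≤ 4 * C * q := by
    have h0 : ∑ x : {x // x ∈ X}, ((∑ i, v' x i ^ 2) / s ^ 2) ^ 2
        = (X.card : ℝ) * (2 * k * n * q ^ 5 / s ^ 2) ^ 2 := by
      rw [Finset.sum_congr rfl (fun x _ => by rw [hnm' x])]
      rw [Finset.sum_const, Finset.card_univ, Fintype.card_coe, nsmul_eq_mul]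
    rw [h0]
    have h1 : (X.card : ℝ) * (2 * k * n * q ^ 5 / s ^ 2) ^ 2 = 4 * q * ((k : ℝ) / n) ^ 2 := by
      rw [hs]
      have h3 : (n : ℝ) ≠ 0 := hn00.ne'
      have h4 : (2 * k * n * q ^ 5 / (n * q) ^ 2 : ℝ) = 2 * k * q ^ 3 / n := by
        field_simp
      rw [h4]
      have h5 : (X.card : ℝ) * (2 * k * q ^ 3 / n) ^ 2
          = (X.card * q ^ 5) * (4 * q * ((k : ℝ) / n) ^ 2) := by ring
      rw [h5, hq5, one_mul]
    rw [h1]
    have h2 : ((k : ℝ) / n) ^ 2 ≤ 1 := by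
      have h3 : (k : ℝ) / n ≤ 1 := div_le_one_of_le₀ hkn0 hn00.le
      have h4 : 0 ≤ (k : ℝ) / n := nn6
      nlinarith
    nlinarith [mul_pos hC hq0]
  -- the bad sign functions
  set T : Finset ({x // x ∈ X} → Bool) := Finset.univ.filter fun σ =>
    1 / 2 ≤ (gpi (Fin k × Fin n)).real
      {y | (∑ x, (if σ x then (1 : ℝ) else -1) • v' x) + s • y ∈ B} with hT
  have hcount : bad.ncard ≤ T.card := by
    rw [← Set.ncard_coe_finset]
    apply Set.ncard_le_ncard_of_injOn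
      (fun (e : S → ℤ) => fun (x : {x // x ∈ X}) => decide (e x.1 = 1))
    · intro e he
      obtain ⟨j, d, hd1, hd2⟩ := hbad e he
      rw [Finset.mem_coe, hT, Finset.mem_filter]
      refine ⟨Finset.mem_univ _, ?_⟩
      have hw : (∑ x : {x // x ∈ X},
          (if (decide (e x.1 = 1)) = true then (1 : ℝ) else -1) • v' x)
          = fun a => ∑ s, (e s : ℝ) * v s a := by
        funext a
        have h1 := sum_eq_two_mul_of_transversal (fun s : S => z • s) hzz X hX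
          (fun s => (e s : ℝ) * v s a) (by
            intro s
            simp only [hodd s, (hsgn e he).2 s, Pi.neg_apply]
            push_cast
            ring)
        rw [h1, Finset.sum_apply, Finset.mul_sum,
          ← Finset.sum_coe_sort X (fun x => 2 * ((e x : ℝ) * v x a))]
        refine Finset.sum_congr rfl fun x _ => ?_
        have h2 : (if (decide (e x.1 = 1)) = true then (1 : ℝ) else -1) = (e x.1 : ℝ) := by
          rcases (hsgn e he).1 x.1 with h | h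
          · simp [h]
          · rw [h]; norm_num
        rw [Pi.smul_apply, h2]
        simp only [v', Pi.smul_apply, smul_eq_mul]
        ring
      have : Nonempty (Fin k × Fin n) := ⟨(⟨0, hk1⟩, ⟨0, hn⟩)⟩
      refine (gauss_markov (Fin k × Fin n)).trans ?_
      refine measureReal_mono ?_
      intro y hy
      rw [Set.mem_ofPred_eq] at hy ⊢
      rw [hw, hB, Set.mem_iUnion]
      refine ⟨j, ?_⟩
      refine gauss_geom k n hk1 hn 𝔻 j d hd1 _ hd2 s hs0 y ?_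
      simpa using hy
    · intro e he e' he' hee
      have h1 : ∀ x ∈ X, e x = e' x := by
        intro x hx
        have h2 := congrFun hee ⟨x, hx⟩
        simp only [decide_eq_decide] at h2
        rcases (hsgn e he).1 x with h | h <;> rcases (hsgn e' he').1 x with h' | h'
        · rw [h, h']
        · exfalso
          have := h2.1 h
          rw [h'] at this
          norm_num at this
        · exfalso
          have := h2.2 h'
          rw [h] at this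
          norm_num at this
        · rw [h, h']
      funext s
      by_cases hs : s ∈ X
      · exact h1 s hs
      · have h3 : z • s ∈ X := by
          by_contra h
          exact hs ((hX s).2 h)
        have h4 := h1 _ h3
        rw [(hsgn e he).2, (hsgn e' he').2] at h4
        exact neg_injective h4
  have hT2 : (T.card : ℝ) * (1 / 2) ≤ ∑ σ : {x // x ∈ X} → Bool, (gpi (Fin k × Fin n)).real
      {y | (∑ x, (if σ x then (1 : ℝ) else -1) • v' x) + s • y ∈ B} := by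
    calc (T.card : ℝ) * (1 / 2) = ∑ σ ∈ T, (1 / 2 : ℝ) := by
          rw [Finset.sum_const, nsmul_eq_mul]
      _ ≤ ∑ σ ∈ T, (gpi (Fin k × Fin n)).real
            {y | (∑ x, (if σ x then (1 : ℝ) else -1) • v' x) + s • y ∈ B} := by
          refine Finset.sum_le_sum fun σ hσ => ?_
          rw [hT, Finset.mem_filter] at hσ
          exact hσ.2
      _ ≤ _ := Finset.sum_le_sum_of_subset_of_nonneg (Finset.subset_univ _)
            (fun _ _ _ => measureReal_nonneg)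
  rw [Fintype.card_coe, div_le_iff₀ h2g] at hmain
  have hfin : (bad.ncard : ℝ) ≤ T.card := by exact_mod_cast hcount
  have hkr : (k : ℝ) * r ≤ 2 * (n : ℝ) ^ 4 * q := by
    rw [hr, hs]
    have h1 : (k : ℝ) * (2 * (n * q) * k * n) = 2 * n ^ 2 * q * (k : ℝ) ^ 2 := by ring
    have h2 : (k : ℝ) ^ 2 ≤ (n : ℝ) ^ 2 := pow_le_pow_left₀ hk00.le hkn0 2
    rw [h1]
    calc 2 * (n : ℝ) ^ 2 * q * (k : ℝ) ^ 2 ≤ 2 * (n : ℝ) ^ 2 * q * (n : ℝ) ^ 2 :=
          mul_le_mul_of_nonneg_left h2 nn4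
      _ = 2 * (n : ℝ) ^ 4 * q := by ring
  have h6 : (gpi (Fin k × Fin n)).real {y | Real.sqrt (2 + s ^ 2) • y ∈ B}
      + C * ∑ x : {x // x ∈ X}, ((∑ i, v' x i ^ 2) / s ^ 2) ^ 2
      ≤ (2 + 4 * C) * (n : ℝ) ^ 4 * q := by
    have h7 : 4 * C * q ≤ 4 * C * q * (n : ℝ) ^ 4 :=
      le_mul_of_one_le_right nn5 hn4
    have h8 : (2 + 4 * C) * (n : ℝ) ^ 4 * q = 2 * (n : ℝ) ^ 4 * q + 4 * C * q * (n : ℝ) ^ 4 := by
      ring
    rw [h8]
    linarith
  have h9 := mul_le_mul_of_nonneg_right h6 h2g.le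
  have h10 : (4 + 8 * C) * (n : ℝ) ^ 4 * q * 2 ^ X.card
      = 2 * ((2 + 4 * C) * (n : ℝ) ^ 4 * q * 2 ^ X.card) := by ring
  rw [h10]
  linarith

theorem pGauss (hHybrid : StHybrid) (hDist : StDist) (hStruct : StStruct) : StGauss := by
  classical
  obtain ⟨C, hC, hH⟩ := hHybrid
  refine ⟨4 + 8 * C, by positivity, ?_⟩
  intro S G _ _ _ _ _ z hzz X hX Y hY hYo
  have hn : 1 ≤ finrank ℝ Y := by
    rw [Nat.one_le_iff_ne_zero]
    intro h
    exact hY.1 (Submodule.finrank_eq_zero.1 h)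
  have hg : 1 ≤ X.card := by
    rw [Nat.one_le_iff_ne_zero, Finset.card_ne_zero]
    obtain ⟨f, -, hf⟩ := Submodule.exists_mem_ne_zero_of_ne_bot hY.1
    obtain ⟨s, -⟩ := Function.ne_iff.1 hf
    by_cases hs : s ∈ X
    · exact ⟨s, hs⟩
    · refine ⟨z • s, ?_⟩
      by_contra h
      exact hs ((hX s).2 h)
  obtain ⟨hq0, hq5, hq1, hq2⟩ := gauss_rpow X.card hg
  have hn1 : (1 : ℝ) ≤ finrank ℝ Y := by exact_mod_cast hn
  have hn4 : (1 : ℝ) ≤ (finrank ℝ Y : ℝ) ^ 4 := one_le_pow₀ hn1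
  have htriv : ((badSetF z Y).ncard : ℝ) ≤ 2 ^ X.card := by
    have := ncard_isSgn_le z hzz X hX
      (fun e => ∃ Y' : Submodule ℝ (S → ℝ), IsStab G Y' ∧ IsoF G Y Y' ∧ Perp e Y')
    exact_mod_cast this
  have h2g : (0 : ℝ) < 2 ^ X.card := by positivity
  rcases Nat.lt_or_ge X.card 32 with h32 | h32
  · refine htriv.trans ?_
    have h1 := hq1 h32
    have h2 : 1 ≤ (4 + 8 * C) * (finrank ℝ Y : ℝ) ^ 4 * (X.card : ℝ) ^ (-(1 / 5) : ℝ) := by
      have h3 : (4 : ℝ) ≤ (4 + 8 * C) * (finrank ℝ Y : ℝ) ^ 4 := by nlinarith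
      nlinarith
    nlinarith
  · have hst := hStruct S G z hzz Y hY hYo
    obtain ⟨k, 𝔻, v, hk1, hkn, hkD, hframe, hnorm, hodd, hbad⟩ := hst
    exact gauss_core C hC hH hDist S G z hzz X hX hg h32 (badSetF z Y) (fun e he => he.1)
      (finrank ℝ Y) k 𝔻 v hn hk1 hkn hkD hframe hnorm hodd hbad

end Pool.Agent.Lib.MP_640417_ag.Full
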