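import Pool.Agent.Lib.MP_640417_ag.Full.SpecG

/-!
# Replacement of all signs by normal variables
-/

namespace Pool.Agent.Lib.MP_640417_ag.Full

open Module Finset MulAction MeasureTheory ProbabilityTheory Pool.Agent.Lib.MP_640417_ag.Far

private theorem hybrid_prob (ι : Type) [Fintype ι] : IsProbabilityMeasure (gpi ι) := by
  unfold gpi; infer_instance

private theorem hybrid_cfd_real (K : StrongDual ℝ ℝ) :
    charFunDual (gaussianReal 0 1) K = Complex.exp (-((K 1 : ℝ) : ℂ) ^ 2 / 2) := by
  rw [charFunDual_apply]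
  have h : ∀ t : ℝ, Complex.exp ((K t : ℝ) * Complex.I)
      = Complex.exp (((K 1 : ℝ) : ℂ) * ((t : ℝ) : ℂ) * Complex.I) := by
    intro t
    have : K t = K 1 * t := by
      have h1 := K.map_smul t (1 : ℝ)
      simp only [smul_eq_mul, mul_one] at h1
      rw [h1]; ring
    rw [this]; push_cast; ring_nf
  simp_rw [h]
  rw [← charFun_apply_real, charFun_gaussianReal]
  congr 1
  push_cast
  ring

private theorem hybrid_cfd_smul (ι : Type) [Fintype ι] [DecidableEq ι] (a : ℝ)
    (L : StrongDual ℝ (ι → ℝ)) :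
    charFunDual ((gpi ι).map (fun y => a • y)) L
      = Complex.exp (-((a ^ 2 * ∑ i, L (Pi.single i 1) ^ 2 : ℝ) : ℂ) / 2) := by
  have h0 : (fun y : ι → ℝ => a • y) = ⇑(a • ContinuousLinearMap.id ℝ (ι → ℝ)) := by
    ext y i; simp
  rw [h0, charFunDual_map]
  unfold gpi
  rw [charFunDual_pi]
  simp_rw [hybrid_cfd_real]
  rw [← Complex.exp_sum]
  congr 1
  have h1 : ∀ i : ι, ((L.comp (a • ContinuousLinearMap.id ℝ (ι → ℝ))).comp
      (ContinuousLinearMap.single ℝ (fun _ : ι => ℝ) i)) 1 = a * L (Pi.single i 1) := by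
    intro i
    simp
  simp_rw [h1]
  push_cast
  rw [Finset.mul_sum, neg_div, Finset.sum_div, ← Finset.sum_neg_distrib]
  refine Finset.sum_congr rfl fun i _ => ?_
  ring

private theorem hybrid_cfd_span (ι : Type) [Fintype ι] (v : ι → ℝ)
    (L : StrongDual ℝ (ι → ℝ)) :
    charFunDual ((gaussianReal 0 1).map (fun t : ℝ => t • v)) L
      = Complex.exp (-((L v ^ 2 : ℝ) : ℂ) / 2) := by
  have h0 : (fun t : ℝ => t • v) = ⇑(ContinuousLinearMap.toSpanSingleton ℝ v) := by
    ext t i; simp
  rw [h0, charFunDual_map, hybrid_cfd_real]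
  congr 1
  simp

private theorem hybrid_meas (ι : Type) [Fintype ι] {E : Type} [MeasurableSpace E]
    (μ : Measure E) [IsProbabilityMeasure μ] (h : ℝ × E → (ι → ℝ)) (hh : Measurable h)
    (B : Set (ι → ℝ)) (hB : MeasurableSet B) :
    Measurable (fun t : ℝ => μ.real {y | h (t, y) ∈ B}) := by
  have h1 : MeasurableSet (h ⁻¹' B) := hh hB
  exact (measurable_measure_prodMk_left (ν := μ) h1).ennreal_toReal

private theorem hybrid_int (ι : Type) [Fintype ι] {E : Type} [MeasurableSpace E]
    (μ : Measure E) [IsProbabilityMeasure μ] (h : ℝ × E → (ι → ℝ)) (hh : Measurable h)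
    (B : Set (ι → ℝ)) (hB : MeasurableSet B) :
    Integrable (fun t : ℝ => μ.real {y | h (t, y) ∈ B}) (gaussianReal 0 1) := by
  refine Integrable.mono' (integrable_const (1 : ℝ))
    (hybrid_meas ι μ h hh B hB).aestronglyMeasurable ?_
  refine Filter.Eventually.of_forall fun t => ?_
  rw [Real.norm_eq_abs, abs_of_nonneg measureReal_nonneg]
  exact measureReal_le_one

private theorem hybrid_conv (ι : Type) [Fintype ι] (v : ι → ℝ) (ν : Measure (ι → ℝ))
    [IsProbabilityMeasure ν] (c : ι → ℝ) (B : Set (ι → ℝ)) (hB : MeasurableSet B) :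
    (((gaussianReal 0 1).map (fun t : ℝ => t • v)).conv ν).real {w | c + w ∈ B}
      = ∫ t, ν.real {w | (c + t • v) + w ∈ B} ∂(gaussianReal 0 1) := by
  have hm : Measurable (fun t : ℝ => t • v) := by fun_prop
  have hp : IsProbabilityMeasure ((gaussianReal 0 1).map (fun t : ℝ => t • v)) :=
    Measure.isProbabilityMeasure_map hm.aemeasurable
  have hS : MeasurableSet {w : ι → ℝ | c + w ∈ B} := by
    have : Measurable (fun w : ι → ℝ => c + w) := by fun_prop
    exact this hB
  rw [← integral_indicator_one hS]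
  rw [integral_conv]
  · rw [integral_map hm.aemeasurable]
    · congr 1
      ext t
      have hS' : MeasurableSet {w : ι → ℝ | (c + t • v) + w ∈ B} := by
        have : Measurable (fun w : ι → ℝ => (c + t • v) + w) := by fun_prop
        exact this hB
      rw [← integral_indicator_one hS']
      congr 1
      ext w
      simp only [add_assoc]
      rfl
    · have h1 : Measurable (Function.uncurry fun (x y : ι → ℝ) =>
          Set.indicator {w : ι → ℝ | c + w ∈ B} (1 : (ι → ℝ) → ℝ) (x + y)) := by
        have h2 : Measurable (Set.indicator {w : ι → ℝ | c + w ∈ B} (1 : (ι → ℝ) → ℝ)) :=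
          measurable_one.indicator hS
        exact h2.comp (measurable_fst.add measurable_snd)
      exact (h1.stronglyMeasurable.integral_prod_right (ν := ν)).aestronglyMeasurable
  · exact (integrable_const (1 : ℝ)).indicator hS

private theorem hybrid_flip {κ : Type} [Fintype κ] [DecidableEq κ] (x : κ)
    (g : (κ → Bool) → ℝ) :
    ∑ σ : κ → Bool, g σ = (∑ σ : κ → Bool, (g σ + g (Function.update σ x (!(σ x))))) / 2 := by
  have h : ∑ σ : κ → Bool, g (Function.update σ x (!(σ x))) = ∑ σ : κ → Bool, g σ := by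
    have hinv : Function.Involutive (fun σ : κ → Bool => Function.update σ x (!(σ x))) := by
      intro σ
      funext a
      by_cases ha : a = x
      · subst ha; simp
      · simp [Function.update_of_ne ha]
    exact Equiv.sum_comp hinv.toPerm g
  rw [Finset.sum_add_distrib, h]
  ring

private theorem hybrid_ind (C : ℝ) (ι κ : Type) [Fintype ι] [DecidableEq ι] [Fintype κ]
    [DecidableEq κ] (v : κ → ι → ℝ) (s : ℝ)
    (hStep : ∀ (v c : ι → ℝ), ∑ i, v i ^ 2 ≤ (s / 2) ^ 2 → ∀ B : Set (ι → ℝ), MeasurableSet B →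
      |((gpi ι).real {y | c + v + s • y ∈ B} + (gpi ι).real {y | c - v + s • y ∈ B}) / 2
        - ∫ t, (gpi ι).real {y | c + t • v + s • y ∈ B} ∂(gaussianReal 0 1)|
        ≤ C * ((∑ i, v i ^ 2) / s ^ 2) ^ 2)
    (hv : ∀ x, ∑ i, v x i ^ 2 ≤ (s / 2) ^ 2) (A : Finset κ) :
    ∃ ν : Measure (ι → ℝ), IsProbabilityMeasure ν ∧
      (∀ L : StrongDual ℝ (ι → ℝ), charFunDual ν L
        = Complex.exp (-((s ^ 2 * ∑ i, L (Pi.single i 1) ^ 2 + ∑ x ∈ A, L (v x) ^ 2 : ℝ) : ℂ) / 2)) ∧
      ∀ (c : ι → ℝ) (B : Set (ι → ℝ)), MeasurableSet B →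
        |(∑ σ : κ → Bool, (gpi ι).real
            {y | c + (∑ x ∈ A, (if σ x then (1 : ℝ) else -1) • v x) + s • y ∈ B})
              / 2 ^ Fintype.card κ - ν.real {w | c + w ∈ B}|
          ≤ C * ∑ x ∈ A, ((∑ i, v x i ^ 2) / s ^ 2) ^ 2 := by
  have hgp := hybrid_prob ι
  have hcard : (∑ _σ : κ → Bool, (1 : ℝ)) = 2 ^ Fintype.card κ := by
    simp
  induction A using Finset.induction_on with
  | empty =>
    have hm : Measurable (fun y : ι → ℝ => s • y) := by fun_prop
    refine ⟨(gpi ι).map (fun y => s • y), Measure.isProbabilityMeasure_map hm.aemeasurable,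
      fun L => ?_, fun c B hB => ?_⟩
    · rw [hybrid_cfd_smul]; simp
    · have hS : MeasurableSet {w : ι → ℝ | c + w ∈ B} := by
        have : Measurable (fun w : ι → ℝ => c + w) := by fun_prop
        exact this hB
      rw [measureReal_def, Measure.map_apply hm hS, ← measureReal_def]
      have : (fun y : ι → ℝ => s • y) ⁻¹' {w : ι → ℝ | c + w ∈ B} = {y | c + s • y ∈ B} := rfl
      rw [this]
      simp
  | insert x A hx ih =>
    obtain ⟨ν, hν, hL, hc⟩ := ih
    have hm : Measurable (fun t : ℝ => t • v x) := by fun_prop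
    have hp : IsProbabilityMeasure ((gaussianReal 0 1).map (fun t : ℝ => t • v x)) :=
      Measure.isProbabilityMeasure_map hm.aemeasurable
    refine ⟨((gaussianReal 0 1).map (fun t : ℝ => t • v x)).conv ν, inferInstance,
      fun L => ?_, fun c B hB => ?_⟩
    · rw [charFunDual_conv, hybrid_cfd_span, hL, ← Complex.exp_add, Finset.sum_insert hx]
      congr 1
      push_cast
      ring
    · rw [hybrid_conv ι (v x) ν c B hB, Finset.sum_insert hx]
      set S : (κ → Bool) → (ι → ℝ) := fun σ => ∑ x ∈ A, (if σ x then (1 : ℝ) else -1) • v x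
        with hSdef
      set F : (ι → ℝ) → ℝ := fun w => (gpi ι).real {y | w + s • y ∈ B} with hF
      have hSflip : ∀ σ : κ → Bool, S (Function.update σ x (!(σ x))) = S σ := by
        intro σ
        rw [hSdef]
        refine Finset.sum_congr rfl fun a ha => ?_
        have : a ≠ x := fun h => hx (h ▸ ha)
        rw [Function.update_of_ne this]
      have hFint : ∀ w : ι → ℝ, Integrable (fun t : ℝ => F (w + t • v x)) (gaussianReal 0 1) := by
        intro w
        exact hybrid_int ι (gpi ι) (fun p : ℝ × (ι → ℝ) => w + p.1 • v x + s • p.2)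
          (by fun_prop) B hB
      have hνint : Integrable (fun t : ℝ => ν.real {w | (c + t • v x) + w ∈ B})
          (gaussianReal 0 1) :=
        hybrid_int ι ν (fun p : ℝ × (ι → ℝ) => (c + p.1 • v x) + p.2) (by fun_prop) B hB
      -- the sum over the signs
      have h1 : ∑ σ : κ → Bool, (gpi ι).real
            {y | c + (∑ x ∈ insert x A, (if σ x then (1 : ℝ) else -1) • v x) + s • y ∈ B}
          = ∑ σ : κ → Bool, (F (c + S σ + v x) + F (c + S σ - v x)) / 2 := by
        have h2 : ∀ σ : κ → Bool, (gpi ι).real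
            {y | c + (∑ x ∈ insert x A, (if σ x then (1 : ℝ) else -1) • v x) + s • y ∈ B}
            = F (c + S σ + (if σ x then (1 : ℝ) else -1) • v x) := by
          intro σ
          rw [Finset.sum_insert hx, hF, hSdef]
          congr 1
          ext y
          simp only [Set.mem_ofPred_eq]
          rw [show c + ((if σ x then (1 : ℝ) else -1) • v x +
            ∑ x ∈ A, (if σ x then (1 : ℝ) else -1) • v x) = c +
            (∑ x ∈ A, (if σ x then (1 : ℝ) else -1) • v x) +
            (if σ x then (1 : ℝ) else -1) • v x by abel]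
        simp_rw [h2]
        rw [hybrid_flip x, Finset.sum_div]
        refine Finset.sum_congr rfl fun σ _ => ?_
        rw [hSflip]
        cases hσ : σ x
        · simp only [Function.update_self, Bool.not_false, if_true, Bool.false_eq_true, if_false,
            one_smul, neg_one_smul, ← sub_eq_add_neg]
          ring
        · simp only [Function.update_self, Bool.not_true, if_true, Bool.false_eq_true, if_false,
            one_smul, neg_one_smul, ← sub_eq_add_neg]
      rw [h1]
      set δ : ℝ := C * ((∑ i, v x i ^ 2) / s ^ 2) ^ 2 with hδ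
      have h3 : ∀ σ : κ → Bool, |(F (c + S σ + v x) + F (c + S σ - v x)) / 2
          - ∫ t, F ((c + t • v x) + S σ) ∂(gaussianReal 0 1)| ≤ δ := by
        intro σ
        have := hStep (v x) (c + S σ) (hv x) B hB
        have h4 : ∀ t : ℝ, F ((c + t • v x) + S σ)
            = (gpi ι).real {y | c + S σ + t • v x + s • y ∈ B} := by
          intro t
          rw [hF]
          simp only
          rw [show c + t • v x + S σ = c + S σ + t • v x by abel]
        simp_rw [h4]
        exact this
      have hFint' : ∀ σ : κ → Bool,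
          Integrable (fun t : ℝ => F ((c + t • v x) + S σ)) (gaussianReal 0 1) := by
        intro σ
        have := hFint (c + S σ)
        refine this.congr (Filter.Eventually.of_forall fun t => ?_)
        simp only
        rw [show c + t • v x + S σ = c + S σ + t • v x by abel]
      have h2pos : (0 : ℝ) < 2 ^ Fintype.card κ := by positivity
      have h5 : |(∑ σ : κ → Bool, (F (c + S σ + v x) + F (c + S σ - v x)) / 2)
            / 2 ^ Fintype.card κ
          - (∑ σ : κ → Bool, ∫ t, F ((c + t • v x) + S σ) ∂(gaussianReal 0 1))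
            / 2 ^ Fintype.card κ| ≤ δ := by
        rw [← sub_div, ← Finset.sum_sub_distrib, abs_div, abs_of_pos h2pos, div_le_iff₀ h2pos]
        refine (Finset.abs_sum_le_sum_abs _ _).trans ?_
        refine (Finset.sum_le_sum fun σ _ => h3 σ).trans ?_
        rw [Finset.sum_const, nsmul_eq_mul]
        have : ((Finset.univ : Finset (κ → Bool)).card : ℝ) = 2 ^ Fintype.card κ := by
          simp
        rw [this, mul_comm]
      have h6 : (∑ σ : κ → Bool, ∫ t, F ((c + t • v x) + S σ) ∂(gaussianReal 0 1))
            / 2 ^ Fintype.card κ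
          = ∫ t, (∑ σ : κ → Bool, F ((c + t • v x) + S σ)) / 2 ^ Fintype.card κ
              ∂(gaussianReal 0 1) := by
        rw [integral_div, integral_finsetSum _ fun σ _ => hFint' σ]
      have h7 : |(∫ t, (∑ σ : κ → Bool, F ((c + t • v x) + S σ)) / 2 ^ Fintype.card κ
              ∂(gaussianReal 0 1)) - ∫ t, ν.real {w | (c + t • v x) + w ∈ B} ∂(gaussianReal 0 1)|
          ≤ C * ∑ x ∈ A, ((∑ i, v x i ^ 2) / s ^ 2) ^ 2 := by
        rw [← integral_sub ((integrable_finsetSum _ fun σ _ => hFint' σ).div_const _) hνint]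
        have := norm_integral_le_of_norm_le_const (μ := gaussianReal 0 1)
          (f := fun t : ℝ => (∑ σ : κ → Bool, F ((c + t • v x) + S σ)) / 2 ^ Fintype.card κ
            - ν.real {w | (c + t • v x) + w ∈ B})
          (C := C * ∑ x ∈ A, ((∑ i, v x i ^ 2) / s ^ 2) ^ 2)
          (Filter.Eventually.of_forall fun t => by
            rw [Real.norm_eq_abs]
            exact hc (c + t • v x) B hB)
        simpa using this
      rw [h6] at h5
      rw [mul_add]
      refine (abs_sub_le _ (∫ t, (∑ σ : κ → Bool, F ((c + t • v x) + S σ)) / 2 ^ Fintype.card κ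
              ∂(gaussianReal 0 1)) _).trans ?_
      exact add_le_add h5 h7

theorem pHybrid (hStep : StStep) : StHybrid := by
  obtain ⟨C, hC, hStep⟩ := hStep
  refine ⟨C, hC, ?_⟩
  intro ι κ _ _ _ v s ρ hs hρ hframe hv B hB
  classical
  obtain ⟨ν, hν, hL, hc⟩ := hybrid_ind C ι κ v s (fun v c => hStep ι v c s hs) hv Finset.univ
  have hgp := hybrid_prob ι
  have hm : Measurable (fun y : ι → ℝ => Real.sqrt (ρ + s ^ 2) • y) := by fun_prop
  have hpm : IsProbabilityMeasure ((gpi ι).map (fun y => Real.sqrt (ρ + s ^ 2) • y)) :=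
    Measure.isProbabilityMeasure_map hm.aemeasurable
  have hνeq : ν = (gpi ι).map (fun y => Real.sqrt (ρ + s ^ 2) • y) := by
    apply Measure.ext_of_charFunDual
    ext L
    rw [hL, hybrid_cfd_smul, Real.sq_sqrt (by positivity)]
    congr 3
    congr 1
    have h1 : ∀ x, L (v x) = ∑ i, v x i * L (Pi.single i 1) := by
      intro x
      have : v x = ∑ i, v x i • (Pi.single i (1 : ℝ) : ι → ℝ) := by
        ext j
        simp [Finset.sum_apply, Pi.single_apply]
      conv_lhs => rw [this]
      rw [map_sum]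
      refine Finset.sum_congr rfl fun i _ => ?_
      rw [map_smul, smul_eq_mul]
    simp_rw [h1]
    rw [hframe fun i => L (Pi.single i 1)]
    ring
  have h2 := hc 0 B hB
  have h3 : ν.real {w | 0 + w ∈ B} = (gpi ι).real {y | Real.sqrt (ρ + s ^ 2) • y ∈ B} := by
    simp only [zero_add]
    rw [hνeq, measureReal_def, Measure.map_apply hm (by exact hB), ← measureReal_def]
    rfl
  rw [h3] at h2
  simp only [zero_add] at h2
  have h4 := (abs_sub_le_iff.mp h2).1
  linarith

end Pool.Agent.Lib.MP_640417_ag.Full
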