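import Pool.Agent.Lib.MP_640417_ag.Full.SpecA

/-!
# Means of powers of the cosine
-/

namespace Pool.Agent.Lib.MP_640417_ag.Full

open Module Finset MulAction Pool.Agent.Lib.MP_640417_ag.Far

/-- `cos y ≤ exp (- y ^ 2 / 2)` on `[0, π / 2]`. -/
theorem kappa_cos_le {y : ℝ} (h0 : 0 ≤ y) (h1 : y ≤ Real.pi / 2) :
    Real.cos y ≤ Real.exp (-(y ^ 2 / 2)) := by
  have hpi := Real.pi_pos
  have hd : ∀ x : ℝ, HasDerivAt (fun x : ℝ => Real.cos x * Real.exp (x ^ 2 / 2))
      ((-Real.sin x) * Real.exp (x ^ 2 / 2) + Real.cos x * (Real.exp (x ^ 2 / 2) * x)) x := by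
    intro x
    have e1 : HasDerivAt (fun x : ℝ => x ^ 2 / 2) x x := by
      have h := (hasDerivAt_pow 2 x).div_const 2
      have e : ((2 : ℕ) : ℝ) * x ^ (2 - 1) / 2 = x := by norm_num
      rw [e] at h
      exact h
    exact (Real.hasDerivAt_cos x).mul e1.exp
  have hanti : AntitoneOn (fun x : ℝ => Real.cos x * Real.exp (x ^ 2 / 2))
      (Set.Icc 0 (Real.pi / 2)) := by
    apply antitoneOn_of_deriv_nonpos (convex_Icc 0 (Real.pi / 2))
    · exact fun x _ => (hd x).continuousAt.continuousWithinAt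
    · exact fun x _ => (hd x).differentiableAt.differentiableWithinAt
    · intro x hx
      rw [interior_Icc] at hx
      rw [(hd x).deriv]
      have hc : 0 < Real.cos x := Real.cos_pos_of_mem_Ioo ⟨by linarith [hx.1], hx.2⟩
      have ht := Real.le_tan hx.1.le hx.2
      rw [Real.tan_eq_sin_div_cos, le_div_iff₀ hc] at ht
      have he := Real.exp_pos (x ^ 2 / 2)
      have e : (-Real.sin x) * Real.exp (x ^ 2 / 2) + Real.cos x * (Real.exp (x ^ 2 / 2) * x)
          = (x * Real.cos x - Real.sin x) * Real.exp (x ^ 2 / 2) := by ring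
      rw [e]
      exact mul_nonpos_of_nonpos_of_nonneg (by linarith) he.le
  have h2 := hanti (Set.left_mem_Icc.2 (by positivity)) (Set.mem_Icc.2 ⟨h0, h1⟩) h0
  simp only [Real.cos_zero, ne_eq, OfNat.ofNat_ne_zero, not_false_eq_true, zero_pow, zero_div,
    Real.exp_zero, mul_one] at h2
  rw [Real.exp_neg]
  rw [← one_div, le_div_iff₀ (Real.exp_pos _)]
  exact h2

/-- The modulus of the cosine only depends on the residue. -/
theorem kappa_congr {p : ℕ} (hp0 : (0 : ℝ) < p) (m n : ℤ) (h : (p : ℤ) ∣ m - n) :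
    |Real.cos (Real.pi * m / p)| = |Real.cos (Real.pi * n / p)| := by
  obtain ⟨c, hc⟩ := h
  have h1 : (m : ℝ) = n + p * c := by
    exact_mod_cast (by linarith : m = n + p * c)
  have h2 : Real.pi * m / p = Real.pi * n / p + c * Real.pi := by
    rw [h1]
    field_simp
  rw [h2, Real.cos_add_int_mul_pi, abs_mul, abs_zpow]
  simp

/-- The sum as a sum over `1, …, n`, where `p = 2 n + 1`. -/
theorem kappa_sum (p n : ℕ) [hp : Fact p.Prime] (hn : p = 2 * n + 1) (a : ℝ) :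
    (p : ℝ) * cosAvg p a = 1 + 2 * ∑ j ∈ range n,
      |Real.cos (Real.pi * ((j + 1 : ℕ) : ℝ) / p)| ^ a := by
  have hp0 : (0 : ℝ) < p := by exact_mod_cast hp.out.pos
  have h2 : (2 : ZMod p) ≠ 0 := by
    intro h
    have h1 : ((2 : ℕ) : ZMod p) = 0 := by exact_mod_cast h
    rw [ZMod.natCast_eq_zero_iff] at h1
    have h3 := Nat.le_of_dvd (by norm_num) h1
    have h4 := hp.out.two_le
    omega
  unfold cosAvg
  rw [mul_div_cancel₀ _ hp0.ne']
  -- substitution `u = 2 t`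
  have e1 : ∀ t : ZMod p, cosAbs p t ^ a =
      (fun u : ZMod p => |Real.cos (Real.pi * (u.val : ℝ) / p)| ^ a) (2 * t) := by
    intro t
    show cosAbs p t ^ a = |Real.cos (Real.pi * ((2 * t).val : ℝ) / p)| ^ a
    congr 1
    unfold cosAbs
    have h3 := kappa_congr hp0 (2 * (t.val : ℤ)) ((2 * t).val : ℤ) (by
      rw [← ZMod.intCast_zmod_eq_zero_iff_dvd]
      push_cast
      rw [ZMod.natCast_zmod_val, ZMod.natCast_zmod_val, sub_self])
    have h4 : 2 * Real.pi * (t.val : ℝ) / p = Real.pi * ((2 * (t.val : ℤ) : ℤ) : ℝ) / p := by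
      push_cast
      ring
    rw [h4, h3]
    push_cast
    rfl
  rw [Finset.sum_congr rfl fun t _ => e1 t]
  have e0 := Equiv.sum_comp (Equiv.mulLeft₀ (2 : ZMod p) h2)
    (fun u : ZMod p => |Real.cos (Real.pi * (u.val : ℝ) / p)| ^ a)
  have e0' : ∑ t : ZMod p, (fun u : ZMod p => |Real.cos (Real.pi * (u.val : ℝ) / p)| ^ a) (2 * t)
      = ∑ u : ZMod p, |Real.cos (Real.pi * (u.val : ℝ) / p)| ^ a := e0
  rw [e0']
  -- sum over a range
  have e2 : ∑ u : ZMod p, |Real.cos (Real.pi * (u.val : ℝ) / p)| ^ a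
      = ∑ j ∈ range p, |Real.cos (Real.pi * (j : ℝ) / p)| ^ a := by
    refine Finset.sum_nbij (fun u => u.val) ?_ ?_ ?_ ?_
    · intro u _
      exact Finset.mem_range.2 (ZMod.val_lt u)
    · intro u _ v _ h
      exact ZMod.val_injective p h
    · intro j hj
      have hj' : j < p := by simpa using hj
      exact ⟨(j : ZMod p), by simp, ZMod.val_cast_of_lt hj'⟩
    · intro u _
      rfl
  rw [e2, hn, Finset.sum_range_succ']
  have e3 : 2 * n = n + n := by ring
  rw [e3, Finset.sum_range_add, add_comm]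
  have e4 : ∑ j ∈ range n, |Real.cos (Real.pi * ((n + j + 1 : ℕ) : ℝ) / ((n + n + 1 : ℕ) : ℝ))| ^ a
      = ∑ j ∈ range n, |Real.cos (Real.pi * ((j + 1 : ℕ) : ℝ) / ((n + n + 1 : ℕ) : ℝ))| ^ a := by
    rw [← Finset.sum_range_reflect]
    refine Finset.sum_congr rfl fun j hj => ?_
    rw [Finset.mem_range] at hj
    congr 1
    have h5 : ((n + (n - 1 - j) + 1 : ℕ) : ℝ) = ((n + n + 1 : ℕ) : ℝ) - ((j + 1 : ℕ) : ℝ) := by
      rw [← Nat.cast_sub (by omega)]
      congr 1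
      omega
    have h6 : (0 : ℝ) < ((n + n + 1 : ℕ) : ℝ) := by positivity
    rw [h5]
    have h7 : Real.pi * (((n + n + 1 : ℕ) : ℝ) - ((j + 1 : ℕ) : ℝ)) / ((n + n + 1 : ℕ) : ℝ)
        = Real.pi - Real.pi * ((j + 1 : ℕ) : ℝ) / ((n + n + 1 : ℕ) : ℝ) := by
      field_simp
    rw [h7, Real.cos_pi_sub, abs_neg]
  rw [e4]
  simp only [Nat.cast_zero, mul_zero, zero_div, Real.cos_zero, abs_one, Real.one_rpow]
  ring

/-- The Gaussian bound for the terms. -/
theorem kappa_term (p n : ℕ) (hn : p = 2 * n + 1) (a : ℝ) (ha : 0 ≤ a) (j : ℕ) (hj : j < n) :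
    |Real.cos (Real.pi * ((j + 1 : ℕ) : ℝ) / p)| ^ a ≤
      Real.exp (-(Real.pi ^ 2 * a / (2 * (p : ℝ) ^ 2)) * ((j + 1 : ℕ) : ℝ) ^ 2) := by
  have hp0 : (0 : ℝ) < p := by rw [hn]; positivity
  have hpi := Real.pi_pos
  have hj1 : (2 : ℝ) * ((j + 1 : ℕ) : ℝ) ≤ p := by
    rw [hn]
    exact_mod_cast (by omega : 2 * (j + 1) ≤ 2 * n + 1)
  set y : ℝ := Real.pi * ((j + 1 : ℕ) : ℝ) / p with hy
  have hy0 : 0 ≤ y := by positivity
  have hy1 : y ≤ Real.pi / 2 := by
    rw [hy, div_le_div_iff₀ hp0 (by norm_num)]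
    nlinarith
  have hc : 0 ≤ Real.cos y := Real.cos_nonneg_of_mem_Icc ⟨by linarith, hy1⟩
  rw [abs_of_nonneg hc]
  calc Real.cos y ^ a ≤ (Real.exp (-(y ^ 2 / 2))) ^ a :=
        Real.rpow_le_rpow hc (kappa_cos_le hy0 hy1) ha
    _ = _ := by
        rw [← Real.exp_mul]
        congr 1
        rw [hy]
        field_simp

theorem kappa_one {y : ℝ} (hy : 4 ≤ y) (n : ℕ) :
    ∑ j ∈ range n, Real.exp (-y * ((j + 1 : ℕ) : ℝ) ^ 2) ≤ 3 / 2 * Real.exp (-y) := by
  set r : ℝ := Real.exp (-y) with hr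
  have hr0 : 0 < r := Real.exp_pos _
  have hr1 : r ≤ 1 / 3 := by
    rw [hr, Real.exp_neg]
    have h1 := Real.add_one_le_exp y
    rw [inv_le_comm₀ (Real.exp_pos _) (by norm_num)]
    linarith
  have h1 : ∀ j ∈ range n, Real.exp (-y * ((j + 1 : ℕ) : ℝ) ^ 2) ≤ r ^ (j + 1) := by
    intro j _
    rw [hr, ← Real.exp_nat_mul]
    apply Real.exp_le_exp.2
    have h2 : (1 : ℝ) ≤ ((j + 1 : ℕ) : ℝ) := by exact_mod_cast Nat.succ_le_succ (Nat.zero_le j)
    have h3 : 0 ≤ y * ((j + 1 : ℕ) : ℝ) * (((j + 1 : ℕ) : ℝ) - 1) := by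
      have : 0 ≤ ((j + 1 : ℕ) : ℝ) - 1 := by linarith
      have hy0 : 0 ≤ y := by linarith
      positivity
    nlinarith
  have h2 : ∀ n : ℕ, ∑ j ∈ range n, r ^ (j + 1) ≤ 3 / 2 * r - 3 / 2 * r ^ (n + 1) := by
    intro n
    induction n with
    | zero => simp
    | succ n ih =>
      rw [Finset.sum_range_succ]
      have h3 : r ^ (n + 1 + 1) ≤ 1 / 3 * r ^ (n + 1) := by
        rw [pow_succ r (n + 1)]
        have : 0 < r ^ (n + 1) := by positivity
        nlinarith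
      linarith [h3, pow_pos hr0 (n + 1)]
  have h3 : 0 < r ^ (n + 1) := by positivity
  linarith [Finset.sum_le_sum h1, h2 n]

theorem kappa_two {y : ℝ} (hy : 0 < y) (n : ℕ) :
    ∑ j ∈ range n, Real.exp (-y * ((j + 1 : ℕ) : ℝ) ^ 2) ≤ Real.sqrt (Real.pi / y) / 2 := by
  have hanti : AntitoneOn (fun x : ℝ => Real.exp (-y * x ^ 2)) (Set.Icc (0 : ℝ) (0 + (n : ℝ))) := by
    intro u hu v _ huv
    apply Real.exp_le_exp.2
    have h1 : u ^ 2 ≤ v ^ 2 := pow_le_pow_left₀ hu.1 huv 2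
    nlinarith
  have h1 := hanti.sum_le_integral
  simp only [zero_add] at h1
  have h2 : ∫ x in (0 : ℝ)..(n : ℝ), Real.exp (-y * x ^ 2) ≤
      ∫ x in Set.Ioi (0 : ℝ), Real.exp (-y * x ^ 2) := by
    rw [intervalIntegral.integral_of_le (Nat.cast_nonneg n)]
    apply MeasureTheory.setIntegral_mono_set
    · exact (integrable_exp_neg_mul_sq hy).integrableOn
    · exact Filter.Eventually.of_forall fun x => (Real.exp_pos _).le
    · exact Filter.Eventually.of_forall fun x hx => hx.1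
  rw [integral_gaussian_Ioi] at h2
  exact h1.trans h2

theorem pKappa : StKappa := by
  intro p hp hp2
  have hodd : p % 2 = 1 := by
    rcases hp.out.eq_two_or_odd with h | h
    · exact absurd h hp2
    · exact h
  obtain ⟨n, hn⟩ : ∃ n, p = 2 * n + 1 := ⟨p / 2, by omega⟩
  have hp0 : (0 : ℝ) < p := by exact_mod_cast hp.out.pos
  have hpi := Real.pi_gt_three
  have hpi0 := Real.pi_pos
  constructor
  · intro a ha
    have ha0 : 0 ≤ a := le_trans (by positivity) ha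
    rw [kappa_sum p n hn a]
    set y : ℝ := Real.pi ^ 2 * a / (2 * (p : ℝ) ^ 2) with hy
    have hy4 : 4 * a / (p : ℝ) ^ 2 ≤ y := by
      rw [hy, div_le_div_iff₀ (by positivity) (by positivity)]
      have h1 : (8 : ℝ) ≤ Real.pi ^ 2 := by nlinarith
      have h2 : 0 ≤ a * (p : ℝ) ^ 2 := by positivity
      nlinarith
    have hy4' : 4 ≤ y := by
      refine le_trans ?_ hy4
      rw [le_div_iff₀ (by positivity)]
      linarith
    have h1 : ∑ j ∈ range n, |Real.cos (Real.pi * ((j + 1 : ℕ) : ℝ) / p)| ^ a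
        ≤ 3 / 2 * Real.exp (-y) :=
      (Finset.sum_le_sum fun j hj => kappa_term p n hn a ha0 j (Finset.mem_range.1 hj)).trans
        (kappa_one hy4' n)
    have h2 : Real.exp (-y) ≤ Real.exp (-(4 * a / (p : ℝ) ^ 2)) :=
      Real.exp_le_exp.2 (by linarith)
    linarith
  · intro a ha
    rw [kappa_sum p n hn a]
    set y : ℝ := Real.pi ^ 2 * a / (2 * (p : ℝ) ^ 2) with hy
    have hy0 : 0 < y := by positivity
    have h1 : ∑ j ∈ range n, |Real.cos (Real.pi * ((j + 1 : ℕ) : ℝ) / p)| ^ a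
        ≤ Real.sqrt (Real.pi / y) / 2 :=
      (Finset.sum_le_sum fun j hj => kappa_term p n hn a ha.le j (Finset.mem_range.1 hj)).trans
        (kappa_two hy0 n)
    have h2 : Real.sqrt (Real.pi / y) ≤ p / Real.sqrt a := by
      rw [← Real.sqrt_sq hp0.le, ← Real.sqrt_div (by positivity)]
      apply Real.sqrt_le_sqrt
      rw [hy, div_le_div_iff₀ (by positivity) ha]
      have e : (p : ℝ) ^ 2 * (Real.pi ^ 2 * a / (2 * (p : ℝ) ^ 2)) = Real.pi ^ 2 * a / 2 := by
        field_simp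
      rw [e]
      nlinarith [mul_pos ha hpi0]
    linarith

end Pool.Agent.Lib.MP_640417_ag.Full
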