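import Pool.Agent.Lib.MP_640417_ag.Full.SpecB
import Pool.Agent.Lib.MP_640417_ag.FourierPack

/-!
# The probability of a single value
-/

namespace Pool.Agent.Lib.MP_640417_ag.Full

open Module Finset MulAction Pool.Agent.Lib.MP_640417_ag Pool.Agent.Lib.MP_640417_ag.Far

section count

variable {S : Type} [Fintype S] {p : ℕ} [hp : Fact p.Prime]

/-- The Fourier formula for the number of sign patterns with given values on a space. -/
private lemma Lclt_card_mul_card_le [DecidableEq S] (X : Finset S) (ε : S → ZMod p)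
    (W : Submodule (ZMod p) (S → ZMod p)) (Good : Finset (Finset S))
    (hGood' : ∀ A, A ∈ Good ↔ A ⊆ X ∧
      ∀ w ∈ W, ∑ x ∈ A, w x - ∑ x ∈ X \ A, w x - ∑ x ∈ X, w x * ε x = 0) :
    (Good.card : ℝ) * Nat.card W
      ≤ 2 ^ X.card * ∑ᶠ w : W, ∏ x ∈ X, cosAbs p ((w : S → ZMod p) x) := by
  classical
  have hfinW : Finite W := Subtype.finite
  have : Fintype W := Fintype.ofFinite W
  rw [Nat.card_eq_fintype_card, finsum_eq_sum_of_fintype]
  -- the linear functional of a set
  let ℓ : Finset S → W →+ ZMod p := fun A =>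
    { toFun := fun w => ∑ x ∈ A, (w : S → ZMod p) x - ∑ x ∈ X \ A, (w : S → ZMod p) x
        - ∑ x ∈ X, (w : S → ZMod p) x * ε x
      map_zero' := by simp
      map_add' := by
        intro v w
        simp only [Submodule.coe_add, Pi.add_apply, add_mul, Finset.sum_add_distrib]
        ring }
  have hgood : ∀ A : Finset S,
      (∀ w ∈ W, ∑ x ∈ A, w x - ∑ x ∈ X \ A, w x - ∑ x ∈ X, w x * ε x = 0) →
      ∑ w : W, (ZMod.stdAddChar (ℓ A w) : ℂ) = Fintype.card W := by
    intro A hA
    have h1 : ∀ w : W, (ZMod.stdAddChar (ℓ A w) : ℂ) = 1 := by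
      intro w
      have : ℓ A w = 0 := hA w w.2
      rw [this, AddChar.map_zero_eq_one]
    rw [Finset.sum_congr rfl (fun w _ => h1 w)]
    simp
  have hbad : ∀ A : Finset S,
      ¬ (∀ w ∈ W, ∑ x ∈ A, w x - ∑ x ∈ X \ A, w x - ∑ x ∈ X, w x * ε x = 0) →
      ∑ w : W, (ZMod.stdAddChar (ℓ A w) : ℂ) = 0 := by
    intro A hA
    push Not at hA
    obtain ⟨w, hw, hw0⟩ := hA
    have h1 : (ZMod.stdAddChar (N := p)).compAddMonoidHom (ℓ A) ≠ 1 := by
      intro h
      have h2 := (ZMod.isPrimitive_stdAddChar p) hw0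
      apply h2
      ext u
      have h3 : ((ZMod.stdAddChar (N := p)).compAddMonoidHom (ℓ A)) (u • (⟨w, hw⟩ : W)) = 1 := by
        rw [h]
        rfl
      rw [AddChar.compAddMonoidHom_apply] at h3
      have h4 : ℓ A (u • (⟨w, hw⟩ : W))
          = (∑ x ∈ A, w x - ∑ x ∈ X \ A, w x - ∑ x ∈ X, w x * ε x) * u := by
        change ∑ x ∈ A, (u • w) x - ∑ x ∈ X \ A, (u • w) x - ∑ x ∈ X, (u • w) x * ε x = _
        simp only [Pi.smul_apply, smul_eq_mul, mul_assoc, ← Finset.mul_sum]
        ring
      rw [h4] at h3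
      rw [AddChar.mulShift_apply, AddChar.one_apply]
      exact h3
    exact AddChar.sum_eq_zero_of_ne_one h1
  have hGood : Good = X.powerset.filter (fun A => ∀ w ∈ W,
      ∑ x ∈ A, w x - ∑ x ∈ X \ A, w x - ∑ x ∈ X, w x * ε x = 0) := by
    ext A
    rw [hGood', Finset.mem_filter, Finset.mem_powerset]
  have h1 : ((Good.card : ℂ)) * Fintype.card W
      = ∑ A ∈ X.powerset, ∑ w : W, (ZMod.stdAddChar (ℓ A w) : ℂ) := by
    rw [← Finset.sum_filter_add_sum_filter_not X.powerset
      (fun A => ∀ w ∈ W, ∑ x ∈ A, w x - ∑ x ∈ X \ A, w x - ∑ x ∈ X, w x * ε x = 0)]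
    rw [Finset.sum_congr rfl (fun A hA => hgood A (Finset.mem_filter.mp hA).2)]
    rw [Finset.sum_congr rfl (fun A hA => hbad A (Finset.mem_filter.mp hA).2)]
    rw [Finset.sum_const, nsmul_eq_mul, Finset.sum_const_zero, add_zero, ← hGood]
  have h2 : ∑ A ∈ X.powerset, ∑ w : W, (ZMod.stdAddChar (ℓ A w) : ℂ)
      = ∑ w : W, ZMod.stdAddChar (-∑ x ∈ X, (w : S → ZMod p) x * ε x)
        * ∏ x ∈ X, ((ZMod.stdAddChar ((w : S → ZMod p) x) : ℂ)
        + ZMod.stdAddChar (-((w : S → ZMod p) x))) := by
    rw [Finset.sum_comm]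
    apply Finset.sum_congr rfl
    intro w _
    rw [Finset.prod_add, Finset.mul_sum]
    apply Finset.sum_congr rfl
    intro A _
    rw [← addChar_map_sum, ← addChar_map_sum, ← AddChar.map_add_eq_mul, ← AddChar.map_add_eq_mul]
    congr 1
    change ∑ x ∈ A, (w : S → ZMod p) x - ∑ x ∈ X \ A, (w : S → ZMod p) x
      - ∑ x ∈ X, (w : S → ZMod p) x * ε x = _
    rw [Finset.sum_neg_distrib]
    ring
  have h3 : ‖((Good.card : ℂ)) * Fintype.card W‖ = (Good.card : ℝ) * Fintype.card W := by
    rw [norm_mul, Complex.norm_natCast, Complex.norm_natCast]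
  rw [← h3, h1, h2]
  refine (norm_sum_le _ _).trans ?_
  rw [Finset.mul_sum]
  apply Finset.sum_le_sum
  intro w _
  rw [norm_mul, AddChar.norm_apply, one_mul, norm_prod]
  rw [Finset.prod_congr rfl (fun x _ => (cosAbs_eq_norm ((w : S → ZMod p) x)).symm),
    Finset.prod_mul_distrib, Finset.prod_const]

variable {G : Type} [Group G] [Finite G] [MulAction G S] [MulAction.IsPretransitive G S]

/-- Counting sign functions with the same products as `e₀` with a stable space modulo `p`. -/
private theorem Lclt_ncard_le (hp2 : p ≠ 2) (z : G) (hzz : ∀ s : S, z • z • s = s)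
    (X : Finset S) (hX : ∀ s, s ∈ X ↔ z • s ∉ X)
    (W : Submodule (ZMod p) (S → ZMod p)) (hWodd : ∀ w ∈ W, ∀ s, w (z • s) = - w s)
    (hWG : ∀ w ∈ W, ∀ γ : G, (fun s => w (γ • s)) ∈ W) (a : ℝ) (ha : 0 ≤ a)
    (haD : a * finrank (ZMod p) W ≤ X.card) (e₀ : S → ℤ) (he₀ : IsSgn z e₀) :
    ({e : S → ℤ | IsSgn z e ∧
        ∀ w ∈ W, ∑ s, w s * (e s : ZMod p) = ∑ s, w s * (e₀ s : ZMod p)}.ncard : ℝ)
      ≤ 2 ^ X.card * cosAvg p a ^ finrank (ZMod p) W := by
  classical
  have : Fintype G := Fintype.ofFinite G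
  have hp0 : (0 : ℝ) < p := by exact_mod_cast hp.out.pos
  have hcardS := two_mul_card_transversal (fun s : S => z • s) hzz X hX
  have hfinW : Finite W := Subtype.finite
  have : Fintype W := Fintype.ofFinite W
  set Good := X.powerset.filter (fun A => ∀ w ∈ W,
    ∑ x ∈ A, w x - ∑ x ∈ X \ A, w x - ∑ x ∈ X, w x * (e₀ x : ZMod p) = 0)
    with hGood
  -- the injection
  have hinj : {e : S → ℤ | IsSgn z e ∧ ∀ w ∈ W, ∑ s, w s * (e s : ZMod p) = ∑ s, w s * (e₀ s : ZMod p)}.ncard
      ≤ Good.card := by
    rw [← Set.ncard_coe_finset]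
    apply Set.ncard_le_ncard_of_injOn (fun e => X.filter (fun x => e x = 1))
    · rintro e ⟨he, hw⟩
      rw [Finset.mem_coe, hGood, Finset.mem_filter, Finset.mem_powerset]
      refine ⟨Finset.filter_subset _ _, fun w hwW => ?_⟩
      have h1 := hw w hwW
      rw [sum_eq_two_mul_of_transversal (fun s : S => z • s) hzz X hX _ (by
        intro s
        rw [hWodd w hwW, he.2]
        push_cast
        ring), sum_eq_two_mul_of_transversal (fun s : S => z • s) hzz X hX
          (fun s => w s * (e₀ s : ZMod p)) (by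
        intro s
        rw [hWodd w hwW, he₀.2]
        push_cast
        ring)] at h1
      have h2 : (2 : ZMod p) ≠ 0 := two_ne_zero' (p := p) hp2
      have h3 := mul_left_cancel₀ h2 h1
      rw [sub_eq_zero, ← h3, ← Finset.sum_filter_add_sum_filter_not X (fun x => e x = 1)
        (fun x => w x * (e x : ZMod p)), sub_eq_add_neg]
      congr 1
      · apply Finset.sum_congr rfl
        intro x hx
        rw [(Finset.mem_filter.mp hx).2]
        push_cast
        ring
      · rw [← Finset.sum_neg_distrib]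
        have h4 : X \ X.filter (fun x => e x = 1) = X.filter (fun x => ¬ e x = 1) := by
          ext x
          simp only [Finset.mem_sdiff, Finset.mem_filter]
          tauto
        rw [h4]
        apply Finset.sum_congr rfl
        intro x hx
        have h5 := (he.1 x).resolve_left (Finset.mem_filter.mp hx).2
        rw [h5]
        push_cast
        ring
    · rintro e ⟨he, -⟩ e' ⟨he', -⟩ hee
      have key : ∀ x ∈ X, e x = e' x := by
        intro x hx
        have h1 : x ∈ X.filter (fun x => e x = 1) ↔ x ∈ X.filter (fun x => e' x = 1) := by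
          rw [show X.filter (fun x => e x = 1) = X.filter (fun x => e' x = 1) from hee]
        simp only [Finset.mem_filter, hx, true_and] at h1
        rcases he.1 x with h | h <;> rcases he'.1 x with h' | h' <;> rw [h, h'] at h1 ⊢ <;>
          norm_num at h1
      funext s
      by_cases hs : s ∈ X
      · exact key s hs
      · have h1 : z • s ∈ X := by
          by_contra h
          exact hs ((hX s).mpr h)
        have h2 := key _ h1
        rw [he.2, he'.2] at h2
        linarith
  have hinj' : ({e : S → ℤ | IsSgn z e ∧ ∀ w ∈ W, ∑ s, w s * (e s : ZMod p) = ∑ s, w s * (e₀ s : ZMod p)}.ncard : ℝ)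
      ≤ (Good.card : ℝ) := by exact_mod_cast hinj
  refine hinj'.trans ?_
  rcases Nat.eq_zero_or_pos (finrank (ZMod p) W) with hD | hD
  · rw [hD, pow_zero, mul_one]
    have h1 : Good.card ≤ 2 ^ X.card := by
      calc Good.card ≤ X.powerset.card := Finset.card_filter_le _ _
        _ = _ := Finset.card_powerset X
    exact_mod_cast h1
  · have hmain := Lclt_card_mul_card_le (p := p) X (fun x => (e₀ x : ZMod p)) W Good (by
      intro A
      rw [hGood, Finset.mem_filter, Finset.mem_powerset])
    rw [finsum_eq_sum_of_fintype, Nat.card_eq_fintype_card] at hmain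
    have hWcard : Fintype.card W = p ^ finrank (ZMod p) W := by
      rw [Module.card_eq_pow_finrank (K := ZMod p) (V := W), ZMod.card]
    have hXpos : 0 < X.card := by
      obtain ⟨t, -⟩ := exists_base W
      have hne : Nonempty S := ⟨t ⟨0, hD⟩⟩
      have : 0 < Fintype.card S := Fintype.card_pos
      omega
    obtain ⟨t, ht⟩ := exists_base W
    have hG0 : (0 : ℝ) < Fintype.card G := by exact_mod_cast Fintype.card_pos
    -- the sum over `W` of the products over one base
    have hbase : ∀ γ : G, ∑ w : W, ∏ i, cosAbs p ((w : S → ZMod p) (γ • t i)) ^ a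
        = (∑ u : ZMod p, cosAbs p u ^ a) ^ finrank (ZMod p) W := by
      intro γ
      let f : W → W := fun w => ⟨fun s => (w : S → ZMod p) (γ • s), hWG w w.2 γ⟩
      have hf : Function.Bijective f := by
        rw [← Finite.injective_iff_bijective]
        intro v w hvw
        apply Subtype.ext
        funext s
        have h1 := congrFun (congrArg Subtype.val hvw) (γ⁻¹ • s)
        simpa [f] using h1
      have h1 : ∑ w : W, ∏ i, cosAbs p ((w : S → ZMod p) (γ • t i)) ^ a
          = ∑ w : W, ∏ i, cosAbs p ((w : S → ZMod p) (t i)) ^ a :=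
        Fintype.sum_bijective f hf _ _ (fun w => rfl)
      have h2 : ∑ w : W, ∏ i, cosAbs p ((w : S → ZMod p) (t i)) ^ a
          = ∑ y : Fin (finrank (ZMod p) W) → ZMod p, ∏ i, cosAbs p (y i) ^ a :=
        Fintype.sum_bijective _ ht _ _ (fun w => rfl)
      have h3 := Finset.prod_univ_sum (fun _ : Fin (finrank (ZMod p) W) => (Finset.univ : Finset (ZMod p)))
        (fun _ u => cosAbs p u ^ a)
      rw [Fintype.piFinset_univ, Finset.prod_const, Finset.card_univ, Fintype.card_fin] at h3
      rw [h1, h2, h3]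
    have hsum : ∑ w : W, ∏ x ∈ X, cosAbs p ((w : S → ZMod p) x)
        ≤ (∑ u : ZMod p, cosAbs p u ^ a) ^ finrank (ZMod p) W := by
      calc ∑ w : W, ∏ x ∈ X, cosAbs p ((w : S → ZMod p) x)
          ≤ ∑ w : W, (∑ γ : G, ∏ i, cosAbs p ((w : S → ZMod p) (γ • t i)) ^ a)
            / Fintype.card G := by
            apply Finset.sum_le_sum
            intro w _
            apply prod_le_mean hD t (fun s => cosAbs p ((w : S → ZMod p) s))
              (fun s => cosAbs_nonneg _) (fun s => cosAbs_le_one _) X _ hcardS.symm hXpos a ha haD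
            rw [← Finset.prod_mul_prod_compl X, pow_two]
            congr 1
            refine Finset.prod_bij' (fun s _ => z • s) (fun s _ => z • s) ?_ ?_ ?_ ?_ ?_
            · intro s hs
              rw [Finset.mem_compl] at hs
              by_contra h4
              exact hs ((hX s).mpr h4)
            · intro s hs
              rw [Finset.mem_compl]
              exact (hX s).mp hs
            · intro s _; exact hzz s
            · intro s _; exact hzz s
            · intro s _
              rw [hWodd w w.2, cosAbs_neg]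
        _ = (∑ γ : G, ∑ w : W, ∏ i, cosAbs p ((w : S → ZMod p) (γ • t i)) ^ a)
            / Fintype.card G := by
            rw [← Finset.sum_div, Finset.sum_comm]
        _ = _ := by
            rw [Finset.sum_congr rfl (fun γ _ => hbase γ), Finset.sum_const, Finset.card_univ,
              nsmul_eq_mul]
            field_simp
    have h5 : (Good.card : ℝ) * p ^ finrank (ZMod p) W
        ≤ 2 ^ X.card * (∑ u : ZMod p, cosAbs p u ^ a) ^ finrank (ZMod p) W := by
      have h6 := hmain.trans (mul_le_mul_of_nonneg_left hsum (by positivity))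
      rw [hWcard] at h6
      push_cast at h6
      exact h6
    have h7 : (∑ u : ZMod p, cosAbs p u ^ a) = p * cosAvg p a := by
      unfold cosAvg
      field_simp
    rw [h7, mul_pow] at h5
    have h8 : (0 : ℝ) < (p : ℝ) ^ finrank (ZMod p) W := by positivity
    have h9 : (Good.card : ℝ) * p ^ finrank (ZMod p) W
        ≤ (2 ^ X.card * cosAvg p a ^ finrank (ZMod p) W) * p ^ finrank (ZMod p) W := by
      linarith
    exact le_of_mul_le_mul_right h9 h8

end count

/-- The function attached to a matrix modulo `p`. -/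
private noncomputable def LcltMap {S G : Type} [Fintype S] [Group G] [MulAction G S] {z : G}
    {n N : ℕ} (M : MatSys S G z n N) (p : ℕ) [Fact p.Prime] :
    Matrix (Fin n) (Fin n) (ZMod p) →ₗ[ZMod p] (S → ZMod p) where
  toFun := fun A s => (((M.Φ s).map (Int.cast : ℤ → ZMod p)) * A).trace
  map_add' := by
    intro A B
    funext s
    simp only [Pi.add_apply, Matrix.mul_add, Matrix.trace_add]
  map_smul' := by
    intro c A
    funext s
    simp only [Pi.smul_apply, Matrix.mul_smul, Matrix.trace_smul, RingHom.id_apply]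

theorem pLclt : StLclt := by
  intro S G _ _ _ _ _ z hzz X hX n N M p hp hp2 hpN a ha han B
  classical
  have hnn : 0 ≤ cosAvg p a := by
    unfold cosAvg
    apply div_nonneg _ (Nat.cast_nonneg _)
    exact Finset.sum_nonneg (fun t _ => Real.rpow_nonneg (cosAbs_nonneg t) _)
  rcases Set.eq_empty_or_nonempty {e : S → ℤ | IsSgn z e ∧ ∑ s, e s • M.Φ s = B} with h0 | h0
  · rw [h0, Set.ncard_empty]
    push_cast
    positivity
  obtain ⟨e₀, he₀, hB⟩ := h0
  set L := LcltMap M p with hL
  have hLapp : ∀ A s, L A s = (((M.Φ s).map (Int.cast : ℤ → ZMod p)) * A).trace := fun A s => rfl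
  have hLinj : Function.Injective L := by
    rw [← LinearMap.ker_eq_bot, LinearMap.ker_eq_bot']
    intro A hA
    exact M.indep p hp.out hpN A (fun s => congrFun hA s)
  set W := LinearMap.range L with hW
  have hfr : finrank (ZMod p) W = n ^ 2 := by
    rw [hW, LinearMap.finrank_range_of_inj hLinj, Module.finrank_matrix]
    simp [pow_two]
  have hcastmul : ∀ A B : Matrix (Fin n) (Fin n) ℤ,
      (A * B).map (Int.cast : ℤ → ZMod p)
        = A.map (Int.cast : ℤ → ZMod p) * B.map (Int.cast : ℤ → ZMod p) := fun A B =>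
    Matrix.map_mul (f := Int.castRingHom (ZMod p))
  have hodd : ∀ w ∈ W, ∀ s, w (z • s) = - w s := by
    rintro w ⟨A, rfl⟩ s
    rw [hLapp, hLapp, M.odd]
    rw [show (-M.Φ s).map (Int.cast : ℤ → ZMod p) = -((M.Φ s).map (Int.cast : ℤ → ZMod p)) by
      ext i j; simp]
    rw [Matrix.neg_mul, Matrix.trace_neg]
  have hstab : ∀ w ∈ W, ∀ γ : G, (fun s => w (γ • s)) ∈ W := by
    rintro w ⟨A, rfl⟩ γ
    refine ⟨A * (M.R γ).map (Int.cast : ℤ → ZMod p), ?_⟩
    funext s
    rw [hLapp, hLapp, M.smul, hcastmul, Matrix.mul_assoc, Matrix.trace_mul_comm (((M.R γ).map _)),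
      Matrix.mul_assoc]
  have hmain := Lclt_ncard_le (p := p) hp2 z hzz X hX W hodd hstab a ha (by rw [hfr]; exact han)
    e₀ he₀
  rw [hfr] at hmain
  refine le_trans ?_ hmain
  have hfin : {e : S → ℤ | IsSgn z e ∧
      ∀ w ∈ W, ∑ s, w s * (e s : ZMod p) = ∑ s, w s * (e₀ s : ZMod p)}.Finite := by
    apply Set.Finite.subset (Set.Finite.pi (t := fun _ : S => ({1, -1} : Set ℤ))
      (fun _ => by simp))
    rintro e ⟨he, -⟩
    rw [Set.mem_univ_pi]
    intro s
    rcases he.1 s with h | h <;> simp [h]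
  have hsub : {e : S → ℤ | IsSgn z e ∧ ∑ s, e s • M.Φ s = B} ⊆ {e : S → ℤ | IsSgn z e ∧
      ∀ w ∈ W, ∑ s, w s * (e s : ZMod p) = ∑ s, w s * (e₀ s : ZMod p)} := by
    rintro e ⟨he, heB⟩
    refine ⟨he, ?_⟩
    have key : ∀ (e' : S → ℤ) (A : Matrix (Fin n) (Fin n) (ZMod p)),
        ∑ s, L A s * (e' s : ZMod p)
          = (((∑ s, e' s • M.Φ s).map (Int.cast : ℤ → ZMod p)) * A).trace := by
      intro e' A
      have h1 : (∑ s, e' s • M.Φ s).map (Int.cast : ℤ → ZMod p)
          = ∑ s, (e' s : ZMod p) • (M.Φ s).map (Int.cast : ℤ → ZMod p) := by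
        ext i j
        rw [Matrix.map_apply, Matrix.sum_apply, Matrix.sum_apply, Int.cast_sum]
        apply Finset.sum_congr rfl
        intro s _
        rw [Matrix.smul_apply, Matrix.smul_apply, Matrix.map_apply, smul_eq_mul, smul_eq_mul,
          Int.cast_mul]
      rw [h1, Finset.sum_mul, Matrix.trace_sum]
      apply Finset.sum_congr rfl
      intro s _
      rw [Matrix.smul_mul, Matrix.trace_smul, hLapp, smul_eq_mul, mul_comm]
    rintro w ⟨A, rfl⟩
    rw [key, key, heB, hB]
  exact_mod_cast Set.ncard_le_ncard hsub hfin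

end Pool.Agent.Lib.MP_640417_ag.Full
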