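import Pool.Agent.Lib.MP_640417_ag.Full.SpecA
import Pool.Agent.Lib.MP_640417_ag.Far.Red
import Pool.Agent.Lib.MP_640417_ag.Far.BN

/-!
# Lifting equivariant endomorphisms of the reduction
-/

namespace Pool.Agent.Lib.MP_640417_ag.Full

open Module Finset MulAction Pool.Agent.Lib.MP_640417_ag.Far

/-- A basis of the lattice of integer valued members is a basis of the space. -/
theorem lift_exists_basis {S : Type} [Finite S] (U : Submodule ℚ (S → ℚ)) :
    ∃ (ι : Type) (_ : Fintype ι) (b : Basis ι ℤ (latt U)) (B : Basis ι ℚ U),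
      ∀ i s, ((B i : U) : S → ℚ) s = (((b i : latt U) : S → ℤ) s : ℚ) := by
  classical
  have := Fintype.ofFinite S
  let b := Module.Free.chooseBasis ℤ (latt U)
  let ι := Module.Free.ChooseBasisIndex ℤ (latt U)
  -- the rational vectors
  let v : ι → U := fun i => ⟨fun s => (((b i : latt U) : S → ℤ) s : ℚ), (b i).2⟩
  -- coordinates
  have hco : ∀ x : latt U, ∀ s, (x : S → ℤ) s = ∑ i, b.repr x i * ((b i : latt U) : S → ℤ) s := by
    intro x s
    have h2 : (x : S → ℤ) s = ((∑ i, b.repr x i • b i : latt U) : S → ℤ) s := by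
      rw [b.sum_repr x]
    rw [h2, Submodule.coe_sum, Finset.sum_apply]
    apply Finset.sum_congr rfl
    intro i _
    rw [Submodule.coe_smul, Pi.smul_apply, smul_eq_mul]
  have hrepr : ∀ (c : ι → ℤ) (x : latt U),
      (∀ s, (x : S → ℤ) s = ∑ i, c i * ((b i : latt U) : S → ℤ) s) → ∀ i, b.repr x i = c i := by
    intro c x hx i
    have h1 : x = ∑ i, c i • b i := by
      apply Subtype.ext
      funext s
      rw [hx s]
      simp [Finset.sum_apply]
    rw [h1, b.repr_sum_self]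
  have hvli : LinearIndependent ℚ v := by
    rw [← LinearIndependent.iff_fractionRing ℤ ℚ, Fintype.linearIndependent_iff]
    intro c hc i
    have h1 : ∀ s, ((0 : latt U) : S → ℤ) s = ∑ i, c i * ((b i : latt U) : S → ℤ) s := by
      intro s
      have h2 := congrArg (fun y : U => (y : S → ℚ) s) hc
      simp only [Submodule.coe_sum, Finset.sum_apply] at h2
      have h3 : (((∑ i, c i * ((b i : latt U) : S → ℤ) s : ℤ)) : ℚ) = 0 := by
        push_cast
        have h5 : ∑ i, (((c i • v i : U) : S → ℚ) s)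
            = ∑ i, (c i : ℚ) * (((b i : latt U) : S → ℤ) s : ℚ) := by
          apply Finset.sum_congr rfl
          intro j _
          rw [Submodule.coe_smul_of_tower, Pi.smul_apply, zsmul_eq_mul]
        rw [← h5, h2]
        rfl
      simp only [Submodule.coe_zero, Pi.zero_apply]
      exact_mod_cast h3.symm
    have h4 := hrepr c 0 h1 i
    rw [← h4]
    simp
  have hvsp : ⊤ ≤ Submodule.span ℚ (Set.range v) := by
    rintro ⟨u, hu⟩ -
    obtain ⟨N, x, hN, hx, hxs⟩ := exists_latt_mul U u hu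
    have hNq : (N : ℚ) ≠ 0 := by exact_mod_cast hN
    have h1 : (⟨u, hu⟩ : U) = ∑ i, ((N : ℚ)⁻¹ * (b.repr ⟨x, hx⟩ i : ℚ)) • v i := by
      apply Subtype.ext
      funext s
      have h2 := hco ⟨x, hx⟩ s
      have h3 : (x s : ℚ) = ∑ i, (b.repr ⟨x, hx⟩ i : ℚ) * (((b i : latt U) : S → ℤ) s : ℚ) := by
        exact_mod_cast h2
      rw [hxs s] at h3
      rw [Submodule.coe_sum, Finset.sum_apply]
      have h4 : u s = (N : ℚ)⁻¹ * (N * u s) := by
        rw [← mul_assoc, inv_mul_cancel₀ hNq, one_mul]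
      show u s = _
      rw [h4, h3, Finset.mul_sum]
      apply Finset.sum_congr rfl
      intro i _
      rw [Submodule.coe_smul, Pi.smul_apply, smul_eq_mul, mul_assoc]
    rw [h1]
    exact Submodule.sum_mem _ fun i _ => Submodule.smul_mem _ _
      (Submodule.subset_span ⟨i, rfl⟩)
  refine ⟨ι, inferInstance, b, Basis.mk hvli hvsp, fun i s => ?_⟩
  rw [Basis.mk_apply]

/-- A linear lift of an endomorphism of the reduction. -/
theorem lift_linear {S : Type} [Finite S] (p : ℕ) [Fact p.Prime] (U : Submodule ℚ (S → ℚ))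
    (φ : red p U →ₗ[ZMod p] red p U) : ∃ θ : U →ₗ[ℚ] U,
      ∀ (v : S → ℤ) (hv : (fun s => (v s : ℚ)) ∈ U), ∃ v' : S → ℤ,
        (∀ s, (θ ⟨_, hv⟩).1 s = (v' s : ℚ)) ∧
        ∀ s, (φ ⟨fun s => (v s : ZMod p), v, hv, fun _ => rfl⟩).1 s = (v' s : ZMod p) := by
  classical
  obtain ⟨ι, _, b, B, hB⟩ := lift_exists_basis U
  -- the reductions of the basis
  let w : ι → red p U := fun i => ⟨fun s => (((b i : latt U) : S → ℤ) s : ZMod p),
    ⟨((b i : latt U) : S → ℤ), (b i).2, fun s => rfl⟩⟩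
  have hc : ∀ i, ∃ c : S → ℤ, (fun s => (c s : ℚ)) ∈ U ∧ ∀ s, (φ (w i)).1 s = (c s : ZMod p) :=
    fun i => (φ (w i)).2
  choose c hcU hcs using hc
  let θ : U →ₗ[ℚ] U := B.constr ℚ (fun i => (⟨fun s => (c i s : ℚ), hcU i⟩ : U))
  refine ⟨θ, fun v hv => ?_⟩
  have hco : ∀ s, v s = ∑ i, b.repr ⟨v, hv⟩ i * ((b i : latt U) : S → ℤ) s := by
    intro s
    have h2 : v s = ((∑ i, b.repr ⟨v, hv⟩ i • b i : latt U) : S → ℤ) s := by
      rw [b.sum_repr]
    rw [h2, Submodule.coe_sum, Finset.sum_apply]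
    apply Finset.sum_congr rfl
    intro i _
    rw [Submodule.coe_smul, Pi.smul_apply, smul_eq_mul]
  have h1 : (⟨_, hv⟩ : U) = ∑ i, ((b.repr ⟨v, hv⟩ i : ℤ) : ℚ) • B i := by
    apply Subtype.ext
    funext s
    rw [Submodule.coe_sum, Finset.sum_apply]
    show (v s : ℚ) = _
    rw [hco s]
    push_cast
    apply Finset.sum_congr rfl
    intro i _
    rw [Pi.smul_apply, smul_eq_mul, hB]
  have h2 : (⟨fun s => (v s : ZMod p), v, hv, fun _ => rfl⟩ : red p U)
      = ∑ i, ((b.repr ⟨v, hv⟩ i : ℤ) : ZMod p) • w i := by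
    apply Subtype.ext
    funext s
    rw [Submodule.coe_sum, Finset.sum_apply]
    show (v s : ZMod p) = _
    rw [hco s]
    push_cast
    apply Finset.sum_congr rfl
    intro i _
    rw [Pi.smul_apply, smul_eq_mul]
  refine ⟨fun s => ∑ i, b.repr ⟨v, hv⟩ i * c i s, fun s => ?_, fun s => ?_⟩
  · rw [h1, map_sum, Submodule.coe_sum, Finset.sum_apply]
    push_cast
    apply Finset.sum_congr rfl
    intro i _
    rw [map_smul, Submodule.coe_smul, Pi.smul_apply, smul_eq_mul]
    congr 1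
    show (B.constr ℚ (fun i => (⟨fun s => (c i s : ℚ), hcU i⟩ : U)) (B i)).1 s = _
    rw [Basis.constr_basis]
  · rw [h2, map_sum, Submodule.coe_sum, Finset.sum_apply]
    push_cast
    apply Finset.sum_congr rfl
    intro i _
    rw [map_smul, Submodule.coe_smul, Pi.smul_apply, smul_eq_mul, hcs]

theorem pLift : StLift := by
  intro S G _ _ _ _ p _ U hU hidx φ hφ
  classical
  obtain ⟨θ₀, hθ₀⟩ := lift_linear p U φ
  have hcard : Nat.card (actHom U hU).range = (kerSub G U).index := by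
    rw [← actHom_ker U hU, Subgroup.index_ker]
  have hfin : Finite (actHom U hU).range := by
    apply Nat.finite_of_card_ne_zero
    rw [hcard]
    exact Subgroup.index_ne_zero_of_finite
  have := Fintype.ofFinite (actHom U hU).range
  let θ : U →ₗ[ℚ] U := ∑ q : (actHom U hU).range,
    (q.1.symm : U ≃ₗ[ℚ] U).toLinearMap ∘ₗ θ₀ ∘ₗ (q.1 : U ≃ₗ[ℚ] U).toLinearMap
  have hθ : ∀ f : U, θ f = ∑ q : (actHom U hU).range, q.1.symm (θ₀ (q.1 f)) := by
    intro f
    simp only [θ, LinearMap.sum_apply, LinearMap.comp_apply]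
    rfl
  refine ⟨θ, ?_, ?_⟩
  · rw [mem_endF]
    intro f f' γ hff s
    let q0 : (actHom U hU).range := ⟨actHom U hU γ⁻¹, γ⁻¹, rfl⟩
    have hf' : f' = q0.1 f := by
      apply Subtype.ext
      funext t
      rw [hff]
      show _ = f.1 ((γ⁻¹)⁻¹ • t)
      rw [inv_inv]
    have h1 : θ (q0.1 f) = q0.1 (θ f) := by
      rw [hθ, hθ, map_sum]
      refine Fintype.sum_equiv (Equiv.mulRight q0) _ _ fun q => ?_
      show q.1.symm (θ₀ (q.1 (q0.1 f))) = q0.1 ((q.1 * q0.1).symm (θ₀ ((q.1 * q0.1) f)))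
      have h2 : (q.1 * q0.1) f = q.1 (q0.1 f) := rfl
      rw [h2]
      have h3 : ∀ x : U, (q.1 * q0.1).symm x = q0.1.symm (q.1.symm x) := fun x => rfl
      rw [h3, LinearEquiv.apply_symm_apply]
    rw [hf', h1]
    show (θ f).1 ((γ⁻¹)⁻¹ • s) = _
    rw [inv_inv]
  · intro v hv
    have key : ∀ q : (actHom U hU).range, ∃ v' : S → ℤ,
        (∀ s, (q.1.symm (θ₀ (q.1 ⟨_, hv⟩))).1 s = (v' s : ℚ)) ∧
        ∀ s, (φ ⟨fun s => (v s : ZMod p), v, hv, fun _ => rfl⟩).1 s = (v' s : ZMod p) := by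
      rintro ⟨_, γ, rfl⟩
      obtain ⟨v', h1, h2⟩ := hθ₀ (fun s => v (γ⁻¹ • s)) (hU _ hv γ⁻¹)
      refine ⟨fun s => v' (γ • s), fun s => ?_, fun s => ?_⟩
      · have h3 := h1 (γ • s)
        exact h3
      · have h3 := h2 (γ • s)
        have h4 := hφ ⟨fun s => (v s : ZMod p), v, hv, fun _ => rfl⟩
          ⟨fun s => (v (γ⁻¹ • s) : ZMod p), fun s => v (γ⁻¹ • s), hU _ hv γ⁻¹, fun _ => rfl⟩
          γ⁻¹ (fun _ => rfl) (γ • s)
        rw [inv_smul_smul] at h4
        rw [← h4]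
        exact h3
    choose v' h1 h2 using key
    refine ⟨fun s => ∑ q, v' q s, fun s => ?_, fun s => ?_⟩
    · rw [hθ, Submodule.coe_sum, Finset.sum_apply]
      push_cast
      exact Finset.sum_congr rfl fun q _ => h1 q s
    · push_cast
      rw [← hcard, Nat.card_eq_fintype_card]
      have h3 : ∀ q ∈ (univ : Finset (actHom U hU).range), ((v' q s : ℤ) : ZMod p)
          = (φ ⟨fun s => (v s : ZMod p), v, hv, fun _ => rfl⟩).1 s := fun q _ => (h2 q s).symm
      rw [Finset.sum_congr rfl h3, Finset.sum_const, nsmul_eq_mul, Finset.card_univ]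

end Pool.Agent.Lib.MP_640417_ag.Full
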