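import Pool.Agent.Lib.MP_640417_ag.Full.SpecA

/-!
# All CM fields: Maschke
-/

namespace Pool.Agent.Lib.MP_640417_ag.Full

open Module Finset MulAction Pool.Agent.Lib.MP_640417_ag.Far

section maschke

variable {S : Type} {G : Type} [Group G] [MulAction G S] {F : Type} [Field F]

/-- The translation action on a stable space. -/
def maschkeAct (U : Submodule F (S → F)) (hU : IsStab G U) : G →* (U ≃ₗ[F] U) where
  toFun γ :=
    { toFun := fun f => ⟨fun s => f.1 (γ⁻¹ • s), hU _ f.2 γ⁻¹⟩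
      invFun := fun f => ⟨fun s => f.1 (γ • s), hU _ f.2 γ⟩
      left_inv := fun f => Subtype.ext (funext fun s => by simp)
      right_inv := fun f => Subtype.ext (funext fun s => by simp)
      map_add' := fun f g => Subtype.ext (funext fun s => by simp)
      map_smul' := fun c f => Subtype.ext (funext fun s => by simp) }
  map_one' := by
    apply LinearEquiv.ext
    intro f
    apply Subtype.ext
    funext s
    simp
  map_mul' a b := by
    apply LinearEquiv.ext
    intro f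
    apply Subtype.ext
    funext s
    simp [mul_smul]

lemma maschkeAct_apply (U : Submodule F (S → F)) (hU : IsStab G U) (γ : G) (f : U) (s : S) :
    (maschkeAct U hU γ f).1 s = f.1 (γ⁻¹ • s) := rfl

lemma maschkeAct_ker (U : Submodule F (S → F)) (hU : IsStab G U) :
    (maschkeAct U hU).ker = kerSub G U := by
  ext γ
  rw [MonoidHom.mem_ker, mem_kerSub]
  constructor
  · intro h f hf s
    have h1 := LinearEquiv.congr_fun h ⟨f, hf⟩
    have h2 := congrFun (congrArg Subtype.val h1) (γ • s)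
    rw [maschkeAct_apply, inv_smul_smul] at h2
    exact h2.symm
  · intro h
    apply LinearEquiv.ext
    intro f
    apply Subtype.ext
    funext s
    have h1 := h f.1 f.2 (γ⁻¹ • s)
    rw [smul_inv_smul] at h1
    rw [maschkeAct_apply, ← h1]
    rfl

end maschke

theorem pMaschke : StMaschke := by
  classical
  intro S G _ _ _ _ p _ M hM hidx W hW hWM
  set A := maschkeAct M hM with hA
  have hcard : Nat.card A.range = (kerSub G M).index := by
    rw [← maschkeAct_ker M hM, Subgroup.index_ker]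
  have hfin : Finite A.range := by
    apply Nat.finite_of_card_ne_zero
    rw [hcard]
    exact Subgroup.index_ne_zero_of_finite
  have : Fintype A.range := Fintype.ofFinite _
  have hn : ((Fintype.card A.range : ℕ) : ZMod p) ≠ 0 := by
    rw [← Nat.card_eq_fintype_card, hcard]
    intro h0
    exact hidx ((ZMod.natCast_eq_zero_iff _ _).1 h0)
  set n : ZMod p := ((Fintype.card A.range : ℕ) : ZMod p) with hndef
  -- a linear projection onto `W`
  set W' : Submodule (ZMod p) M := W.comap M.subtype with hW'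
  obtain ⟨g, hg⟩ := LinearMap.exists_leftInverse_of_injective W'.subtype
    (Submodule.ker_subtype W')
  set π₀ : M →ₗ[ZMod p] M := W'.subtype ∘ₗ g with hπ₀
  have hπ₀W : ∀ f : M, (π₀ f).1 ∈ W := fun f => (g f).2
  have hπ₀f : ∀ f : M, f.1 ∈ W → π₀ f = f := by
    intro f hf
    have h1 := LinearMap.congr_fun hg ⟨f, hf⟩
    have h2 : g f = ⟨f, hf⟩ := h1
    show (g f).1 = f
    rw [h2]
  have hstab : ∀ ρ : A.range, ∀ f : M, f.1 ∈ W → ((ρ : M ≃ₗ[ZMod p] M) f).1 ∈ W := by
    rintro ⟨_, γ, rfl⟩ f hf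
    exact hW f.1 hf γ⁻¹
  set Φ : A.range → (M →ₗ[ZMod p] M) := fun ρ =>
    (ρ : M ≃ₗ[ZMod p] M).toLinearMap ∘ₗ π₀ ∘ₗ ((ρ⁻¹ : A.range) : M ≃ₗ[ZMod p] M).toLinearMap
    with hΦ
  have hΦ_apply : ∀ ρ f, Φ ρ f = (ρ : M ≃ₗ[ZMod p] M) (π₀ (((ρ⁻¹ : A.range) : M ≃ₗ[ZMod p] M) f)) :=
    fun _ _ => rfl
  refine ⟨n⁻¹ • ∑ ρ : A.range, Φ ρ, ?_, ?_, ?_⟩
  · -- equivariance
    rw [mem_endF]
    intro f f' γ hff
    have hf' : f' = A γ⁻¹ f := by
      apply Subtype.ext
      funext s
      rw [hff s, maschkeAct_apply, inv_inv]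
    have key : ∀ ρ₀ : A.range, (∑ ρ : A.range, Φ ρ) ((ρ₀ : M ≃ₗ[ZMod p] M) f) =
        (ρ₀ : M ≃ₗ[ZMod p] M) ((∑ ρ : A.range, Φ ρ) f) := by
      intro ρ₀
      rw [LinearMap.sum_apply, LinearMap.sum_apply, map_sum]
      rw [← Equiv.sum_comp (Equiv.mulLeft ρ₀)]
      apply Finset.sum_congr rfl
      intro ρ _
      rw [hΦ_apply, hΦ_apply]
      simp only [Equiv.coe_mulLeft, mul_inv_rev, Subgroup.coe_mul, LinearEquiv.mul_apply]
      congr 3
      have : ((ρ₀⁻¹ : A.range) : M ≃ₗ[ZMod p] M) ((ρ₀ : M ≃ₗ[ZMod p] M) f) = f := by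
        rw [← LinearEquiv.mul_apply, ← Subgroup.coe_mul, inv_mul_cancel]
        rfl
      rw [this]
    have h1 : (n⁻¹ • ∑ ρ : A.range, Φ ρ) f' = A γ⁻¹ ((n⁻¹ • ∑ ρ : A.range, Φ ρ) f) := by
      rw [hf', LinearMap.smul_apply, LinearMap.smul_apply, map_smul,
        key ⟨A γ⁻¹, MonoidHom.mem_range.2 ⟨γ⁻¹, rfl⟩⟩]
    intro s
    rw [h1, maschkeAct_apply, inv_inv]
  · intro f
    rw [LinearMap.smul_apply, LinearMap.sum_apply]
    have h1 : ∀ (s : Finset A.range), (∑ ρ ∈ s, Φ ρ f).1 ∈ W := by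
      intro s
      induction s using Finset.induction_on with
      | empty => simp
      | insert a s ha ih =>
        rw [Finset.sum_insert ha]
        exact W.add_mem (hstab a _ (hπ₀W _)) ih
    exact W.smul_mem _ (h1 _)
  · intro f hf
    rw [LinearMap.smul_apply, LinearMap.sum_apply]
    have h1 : ∀ ρ : A.range, Φ ρ f = f := by
      intro ρ
      rw [hΦ_apply, hπ₀f _ (hstab ρ⁻¹ f hf), ← LinearEquiv.mul_apply, ← Subgroup.coe_mul,
        mul_inv_cancel]
      rfl
    rw [Finset.sum_congr rfl fun ρ _ => h1 ρ, Finset.sum_const, Finset.card_univ,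
      ← Nat.cast_smul_eq_nsmul (ZMod p), smul_smul, inv_mul_cancel₀ hn, one_smul]

end Pool.Agent.Lib.MP_640417_ag.Full
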