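import Pool.Agent.Lib.MP_640417_ag.Full.SpecB
import Pool.Agent.Lib.MP_640417_ag.Full.EndGe

/-!
# The integral matrix system of an absolutely irreducible space
-/

namespace Pool.Agent.Lib.MP_640417_ag.Full

open Module Finset MulAction Matrix Pool.Agent.Lib.MP_640417_ag.Far

/-- An integral basis. -/
lemma mat_basis {S : Type} [Finite S] (U : Submodule ℚ (S → ℚ)) :
    ∃ (u : Fin (finrank ℚ U) → S → ℤ) (bU : Basis (Fin (finrank ℚ U)) ℚ U),
      (∀ i s, (bU i).1 s = (u i s : ℚ)) ∧
      ∀ w : S → ℤ, (fun s => (w s : ℚ)) ∈ U →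
        ∃ c : Fin (finrank ℚ U) → ℤ, ∀ s, w s = ∑ i, c i * u i s := by
  classical
  have h2 : Fact (Nat.Prime 2) := ⟨Nat.prime_two⟩
  obtain ⟨ι, _, _, b, bU, bR, hU, hR⟩ := endGe_bases 2 U
  have hcard : Fintype.card ι = finrank ℚ U := (Module.finrank_eq_card_basis bU).symm
  let e : ι ≃ Fin (finrank ℚ U) := Fintype.equivFinOfCardEq hcard
  refine ⟨fun i => ((b (e.symm i) : latt U) : S → ℤ), bU.reindex e, fun i s => ?_,
    fun w hw => ?_⟩
  · rw [Basis.reindex_apply, hU]
  · have hw' : w ∈ latt U := hw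
    refine ⟨fun i => b.repr ⟨w, hw'⟩ (e.symm i), fun s => ?_⟩
    have h3 : w s = ((∑ i, b.repr ⟨w, hw'⟩ i • b i : latt U) : S → ℤ) s := by
      rw [b.sum_repr ⟨w, hw'⟩]
    rw [h3, Submodule.coe_sum, Finset.sum_apply]
    refine Fintype.sum_equiv e _ _ fun i => ?_
    show _ = b.repr ⟨w, hw'⟩ (e.symm (e i)) * ((b (e.symm (e i)) : latt U) : S → ℤ) s
    rw [Submodule.coe_smul, Pi.smul_apply, smul_eq_mul, e.symm_apply_apply]

/-- Coordinates. -/
lemma mat_coord {S : Type} {n : ℕ} (U : Submodule ℚ (S → ℚ))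
    (u : Fin n → S → ℤ) (bU : Basis (Fin n) ℚ U) (hU : ∀ i s, (bU i).1 s = (u i s : ℚ))
    (x : U) (s : S) : x.1 s = bU.equivFun x ⬝ᵥ fun i => (u i s : ℚ) := by
  conv_lhs => rw [← bU.sum_equivFun x]
  rw [Submodule.coe_sum, Finset.sum_apply]
  apply Finset.sum_congr rfl
  intro i _
  rw [Submodule.coe_smul, Pi.smul_apply, smul_eq_mul, hU]

lemma mat_uniq {S : Type} {n : ℕ} (U : Submodule ℚ (S → ℚ))
    (u : Fin n → S → ℤ) (bU : Basis (Fin n) ℚ U) (hU : ∀ i s, (bU i).1 s = (u i s : ℚ))
    (a b : Fin n → ℚ) (h : ∀ s, (a ⬝ᵥ fun i => (u i s : ℚ)) = b ⬝ᵥ fun i => (u i s : ℚ)) :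
    a = b := by
  have h1 : bU.equivFun.symm a = bU.equivFun.symm b := by
    apply Subtype.ext
    funext s
    rw [mat_coord U u bU hU, mat_coord U u bU hU, LinearEquiv.apply_symm_apply,
      LinearEquiv.apply_symm_apply, h s]
  exact bU.equivFun.symm.injective h1

lemma mat_uniqZ {S : Type} {n : ℕ} (U : Submodule ℚ (S → ℚ))
    (u : Fin n → S → ℤ) (bU : Basis (Fin n) ℚ U) (hU : ∀ i s, (bU i).1 s = (u i s : ℚ))
    (a b : Fin n → ℤ) (h : ∀ s, ∑ i, a i * u i s = ∑ i, b i * u i s) : a = b := by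
  have h1 := mat_uniq U u bU hU (fun i => (a i : ℚ)) (fun i => (b i : ℚ)) (fun s => by
    simp only [dotProduct]
    exact_mod_cast h s)
  funext i
  exact_mod_cast congrFun h1 i

/-- The integral representation. -/
lemma mat_rep {S G : Type} [Group G] [MulAction G S] {n : ℕ} (U : Submodule ℚ (S → ℚ))
    (hst : IsStab G U) (u : Fin n → S → ℤ) (bU : Basis (Fin n) ℚ U)
    (hU : ∀ i s, (bU i).1 s = (u i s : ℚ))
    (hc : ∀ w : S → ℤ, (fun s => (w s : ℚ)) ∈ U → ∃ c : Fin n → ℤ, ∀ s, w s = ∑ i, c i * u i s) :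
    ∃ R : G →* Matrix (Fin n) (Fin n) ℤ, ∀ γ j s, u j (γ • s) = ∑ i, R γ j i * u i s := by
  have hmem : ∀ i, (fun s => (u i s : ℚ)) ∈ U := by
    intro i
    have : (fun s => (u i s : ℚ)) = (bU i).1 := by
      funext s
      rw [hU]
    rw [this]
    exact (bU i).2
  have h1 : ∀ (γ : G) (j : Fin n), ∃ c : Fin n → ℤ, ∀ s, u j (γ • s) = ∑ i, c i * u i s :=
    fun γ j => hc (fun s => u j (γ • s)) (hst _ (hmem j) γ)
  choose R hR using h1
  refine ⟨⟨⟨fun γ => Matrix.of (R γ), ?_⟩, ?_⟩, fun γ j s => hR γ j s⟩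
  · ext j i
    show R 1 j i = (1 : Matrix (Fin n) (Fin n) ℤ) j i
    have h2 : R 1 j = fun i => (1 : Matrix (Fin n) (Fin n) ℤ) j i := by
      apply mat_uniqZ U u bU hU
      intro s
      rw [← hR 1 j s, one_smul]
      simp [Matrix.one_apply]
    exact congrFun h2 i
  · intro γ δ
    ext j i
    show R (γ * δ) j i = (Matrix.of (R γ) * Matrix.of (R δ)) j i
    have h2 : R (γ * δ) j = fun i => (Matrix.of (R γ) * Matrix.of (R δ)) j i := by
      apply mat_uniqZ U u bU hU
      intro s
      rw [← hR (γ * δ) j s, mul_smul, hR γ j]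
      simp only [Matrix.mul_apply, Matrix.of_apply, Finset.sum_mul]
      rw [Finset.sum_comm]
      apply Finset.sum_congr rfl
      intro k _
      rw [hR δ k, Finset.mul_sum]
      apply Finset.sum_congr rfl
      intro i _
      ring
    exact congrFun h2 i

/-- Matrices commuting with the representation are scalars. -/
lemma mat_schur {S G : Type} [Group G] [MulAction G S] {n : ℕ} (hn : 0 < n)
    (U : Submodule ℚ (S → ℚ)) (u : Fin n → S → ℤ) (bU : Basis (Fin n) ℚ U)
    (hU : ∀ i s, (bU i).1 s = (u i s : ℚ)) (R : G →* Matrix (Fin n) (Fin n) ℤ)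
    (hR : ∀ γ j s, u j (γ • s) = ∑ i, R γ j i * u i s) (hend : finrank ℚ (endF G U) = 1)
    (B : Matrix (Fin n) (Fin n) ℤ) (hB : ∀ γ, R γ * B = B * R γ) :
    ∃ c : ℤ, B = c • (1 : Matrix (Fin n) (Fin n) ℤ) := by
  set Bq : Matrix (Fin n) (Fin n) ℚ := B.map (Int.cast : ℤ → ℚ) with hBq
  have hcomm : ∀ γ, (R γ).map (Int.cast : ℤ → ℚ) * Bq = Bq * (R γ).map (Int.cast : ℤ → ℚ) := by
    intro γ
    have h1 := congrArg (fun A : Matrix (Fin n) (Fin n) ℤ => A.map (Int.castRingHom ℚ)) (hB γ)
    simp only [Matrix.map_mul] at h1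
    exact h1
  have hmv : ∀ γ s, (fun j => (u j (γ • s) : ℚ))
      = (R γ).map (Int.cast : ℤ → ℚ) *ᵥ fun i => (u i s : ℚ) := by
    intro γ s
    funext j
    simp only [Matrix.mulVec, dotProduct, Matrix.map_apply]
    rw [hR γ j s]
    push_cast
    rfl
  let θ : U →ₗ[ℚ] U := bU.equivFun.symm.toLinearMap ∘ₗ Bq.vecMulLinear ∘ₗ bU.equivFun.toLinearMap
  have hθ : ∀ x, bU.equivFun (θ x) = bU.equivFun x ᵥ* Bq := by
    intro x
    show bU.equivFun (bU.equivFun.symm (Bq.vecMulLinear (bU.equivFun x))) = _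
    rw [LinearEquiv.apply_symm_apply]
    rfl
  have hθE : θ ∈ endF G U := by
    intro f f' γ hff s
    rw [mat_coord U u bU hU, mat_coord U u bU hU, hθ, hθ, hmv γ s]
    have h1 : bU.equivFun f' = bU.equivFun f ᵥ* (R γ).map (Int.cast : ℤ → ℚ) := by
      apply mat_uniq U u bU hU
      intro t
      rw [← mat_coord U u bU hU, hff t, mat_coord U u bU hU, hmv γ t, Matrix.dotProduct_mulVec]
    rw [h1, Matrix.dotProduct_mulVec, Matrix.vecMul_vecMul, Matrix.vecMul_vecMul, hcomm γ]
  have hne : (⟨LinearMap.id, one_mem_endF G U⟩ : endF G U) ≠ 0 := by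
    intro h0
    have h1 : (LinearMap.id : U →ₗ[ℚ] U) = 0 := congrArg Subtype.val h0
    have h2 : bU ⟨0, hn⟩ = 0 := by
      have := LinearMap.congr_fun h1 (bU ⟨0, hn⟩)
      simpa using this
    exact bU.ne_zero _ h2
  let _ := Module.addCommMonoidToAddCommGroup ℚ (M := endF G U)
  obtain ⟨c, hc⟩ := (finrank_eq_one_iff_of_nonzero' (K := ℚ) (V := endF G U) _ hne).1 hend
    ⟨θ, hθE⟩
  have hc' : ∀ x : U, θ x = c • x := by
    intro x
    have h1 : c • (LinearMap.id : U →ₗ[ℚ] U) = θ := congrArg Subtype.val hc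
    rw [← h1]
    rfl
  have hBe : ∀ j i, Bq j i = c * (1 : Matrix (Fin n) (Fin n) ℚ) j i := by
    intro j i
    have h1 := hθ (bU j)
    rw [hc' (bU j), map_smul] at h1
    have h2 : bU.equivFun (bU j) = Pi.single j 1 := by
      rw [Basis.equivFun_apply, Basis.repr_self]
      funext k
      rw [Finsupp.single_eq_pi_single]
    rw [h2, Matrix.single_one_vecMul] at h1
    have h3 := congrFun h1 i
    simp only [Pi.smul_apply, smul_eq_mul] at h3
    rw [Matrix.one_apply]
    rw [Matrix.row] at h3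
    rw [← h3, Pi.single_apply]
    by_cases hij : i = j
    · simp [hij]
    · simp [hij, Ne.symm hij]
  refine ⟨B ⟨0, hn⟩ ⟨0, hn⟩, ?_⟩
  have h00 : (B ⟨0, hn⟩ ⟨0, hn⟩ : ℚ) = c := by
    have := hBe ⟨0, hn⟩ ⟨0, hn⟩
    rw [Matrix.one_apply_eq, mul_one] at this
    exact this
  ext j i
  have h1 : (B j i : ℚ) = c * (1 : Matrix (Fin n) (Fin n) ℚ) j i := hBe j i
  rw [← h00] at h1
  rw [Matrix.smul_apply, smul_eq_mul]
  rw [Matrix.one_apply] at h1 ⊢
  by_cases hij : j = i
  · rw [if_pos hij, mul_one] at h1 ⊢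
    exact_mod_cast h1
  · rw [if_neg hij, mul_zero] at h1 ⊢
    exact_mod_cast h1

/-- The orthogonality relations, for a finite group of integral matrices with scalar commutant. -/
lemma mat_orth {Q : Type} [Group Q] [Fintype Q] {n : ℕ} (hn : 0 < n)
    (R : Q →* Matrix (Fin n) (Fin n) ℤ)
    (hs : ∀ B : Matrix (Fin n) (Fin n) ℤ, (∀ q, R q * B = B * R q) →
      ∃ c : ℤ, B = c • (1 : Matrix (Fin n) (Fin n) ℤ)) :
    ∃ c : ℤ, (n : ℤ) * c = Fintype.card Q ∧
      ∀ i j k l, ∑ q, R q i j * R q⁻¹ k l = if j = k ∧ i = l then c else 0 := by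
  classical
  let T : Matrix (Fin n) (Fin n) ℤ → Matrix (Fin n) (Fin n) ℤ := fun E => ∑ q, R q * E * R q⁻¹
  have hT : ∀ E, ∀ h, R h * T E = T E * R h := by
    intro E h
    simp only [T]
    rw [Finset.mul_sum, Finset.sum_mul]
    rw [← Equiv.sum_comp (Equiv.mulLeft h) (fun q => R q * E * R q⁻¹ * R h)]
    apply Finset.sum_congr rfl
    intro q _
    simp only [Equiv.coe_mulLeft]
    rw [mul_assoc (R (h * q) * E), ← map_mul, _root_.mul_inv_rev, inv_mul_cancel_right, map_mul]
    simp only [mul_assoc]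
  have hS : ∀ E, ∃ c : ℤ, T E = c • (1 : Matrix (Fin n) (Fin n) ℤ) := fun E => hs _ (hT E)
  have htr : ∀ E, (T E).trace = Fintype.card Q * E.trace := by
    intro E
    simp only [T]
    rw [Matrix.trace_sum]
    have h1 : ∀ q, (R q * E * R q⁻¹).trace = E.trace := by
      intro q
      rw [Matrix.trace_mul_comm, ← mul_assoc, ← map_mul, inv_mul_cancel, map_one, one_mul]
    simp only [h1, Finset.sum_const, Finset.card_univ, nsmul_eq_mul]
  have hc : ∀ E (c : ℤ), T E = c • (1 : Matrix (Fin n) (Fin n) ℤ) →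
      (n : ℤ) * c = Fintype.card Q * E.trace := by
    intro E c h
    rw [← htr E, h, Matrix.trace_smul, Matrix.trace_one, Fintype.card_fin, smul_eq_mul, mul_comm]
  have hTe : ∀ i j k l, (T (Matrix.single j k 1)) i l = ∑ q, R q i j * R q⁻¹ k l := by
    intro i j k l
    simp only [T]
    rw [Matrix.sum_apply]
    apply Finset.sum_congr rfl
    intro q _
    rw [Matrix.mul_apply]
    rw [Finset.sum_eq_single k]
    · rw [Matrix.mul_apply, Finset.sum_eq_single j]
      · simp
      · intro a _ ha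
        rw [Matrix.single_apply_of_row_ne (Ne.symm ha), mul_zero]
      · intro h
        exact absurd (Finset.mem_univ _) h
    · intro a _ ha
      rw [Matrix.mul_apply, Finset.sum_eq_zero, zero_mul]
      intro b _
      rw [Matrix.single_apply_of_col_ne _ _ (Ne.symm ha), mul_zero]
    · intro h
      exact absurd (Finset.mem_univ _) h
  have hn' : (n : ℤ) ≠ 0 := by exact_mod_cast hn.ne'
  obtain ⟨c, hc0⟩ := hS (Matrix.single ⟨0, hn⟩ ⟨0, hn⟩ 1)
  have hcN := hc _ c hc0
  rw [Matrix.trace_single_eq_same, mul_one] at hcN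
  refine ⟨c, hcN, fun i j k l => ?_⟩
  rw [← hTe i j k l]
  obtain ⟨d, hd⟩ := hS (Matrix.single j k 1)
  have hdN := hc _ d hd
  rw [hd, Matrix.smul_apply, Matrix.one_apply, smul_eq_mul]
  by_cases hjk : j = k
  · subst hjk
    rw [Matrix.trace_single_eq_same, mul_one, ← hcN] at hdN
    have hdc : d = c := mul_left_cancel₀ hn' hdN
    by_cases hil : i = l
    · rw [if_pos hil, if_pos ⟨rfl, hil⟩, mul_one, hdc]
    · rw [if_neg hil, if_neg (fun h => hil h.2), mul_zero]
  · rw [Matrix.trace_single_eq_of_ne _ _ _ hjk, mul_zero] at hdN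
    have hd0 : d = 0 := by
      rcases mul_eq_zero.1 hdN with h | h
      · exact absurd h hn'
      · exact h
    rw [hd0, zero_mul, if_neg (fun h => hjk h.1)]

/-- The matrix system attached to an integral basis. -/
lemma mat_main {S G : Type} [Fintype S] [Group G] [Finite G] [MulAction G S]
    [IsPretransitive G S] (s₀ : S) (z : G)
    (U : Submodule ℚ (S → ℚ)) (hirr : IsIrr G U) (hodd : IsOddSp z U)
    (hinv : U ≤ invF ℚ (stabilizer G s₀)) (hend : finrank ℚ (endF G U) = 1)
    {n : ℕ} (hn : 0 < n) (u : Fin n → S → ℤ) (bU : Basis (Fin n) ℚ U)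
    (hU : ∀ i s, (bU i).1 s = (u i s : ℚ))
    (hco : ∀ w : S → ℤ, (fun s => (w s : ℚ)) ∈ U →
      ∃ c : Fin n → ℤ, ∀ s, w s = ∑ i, c i * u i s) :
    ∃ M : MatSys S G z n (kerSub G U).index, badSet z U ⊆ M.sing := by
  classical
  obtain ⟨R, hR⟩ := mat_rep (G := G) U hirr.2.1 u bU hU hco
  have hmem : ∀ i, (fun s => (u i s : ℚ)) ∈ U := by
    intro i
    have : (fun s => (u i s : ℚ)) = (bU i).1 := by
      funext s
      rw [hU]
    rw [this]
    exact (bU i).2
  have hmatext : ∀ A B : Matrix (Fin n) (Fin n) ℤ,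
      (∀ j s, ∑ i, A j i * u i s = ∑ i, B j i * u i s) → A = B := by
    intro A B h
    ext j i
    exact congrFun (mat_uniqZ U u bU hU (fun i => A j i) (fun i => B j i) (h j)) i
  -- elements acting trivially
  have hker : ∀ γ ∈ kerSub G U, R γ = 1 := by
    intro γ hγ
    apply hmatext
    intro j s
    rw [← hR γ j s]
    have h1 : ((u j (γ • s) : ℤ) : ℚ) = ((u j s : ℤ) : ℚ) := hγ _ (hmem j) s
    have h2 : u j (γ • s) = u j s := by exact_mod_cast h1
    rw [h2]
    simp [Matrix.one_apply]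
  have hstabG : ∀ δ : G, δ • s₀ = s₀ → R δ = 1 := by
    intro δ hδ
    apply hmatext
    intro j s
    rw [← hR δ j s]
    have h1 : ((u j (δ • s) : ℤ) : ℚ) = ((u j s : ℤ) : ℚ) := hinv (hmem j) δ hδ s
    have h2 : u j (δ • s) = u j s := by exact_mod_cast h1
    rw [h2]
    simp [Matrix.one_apply]
  have hRz : R z = -1 := by
    apply hmatext
    intro j s
    rw [← hR z j s]
    have h1 : ((u j (z • s) : ℤ) : ℚ) = - ((u j s : ℤ) : ℚ) := hodd _ (hmem j) s
    have h2 : u j (z • s) = - u j s := by exact_mod_cast h1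
    rw [h2]
    simp [Matrix.one_apply]
  -- the matrices attached to points
  have hγ : ∀ s : S, ∃ γ : G, γ • s₀ = s := fun s => exists_smul_eq G s₀ s
  choose g hg using hγ
  have hΦ : ∀ γ : G, R (g (γ • s₀)) = R γ := by
    intro γ
    have h1 : (γ⁻¹ * g (γ • s₀)) • s₀ = s₀ := by
      rw [mul_smul, hg, inv_smul_smul]
    have h2 := hstabG _ h1
    have h3 : g (γ • s₀) = γ * (γ⁻¹ * g (γ • s₀)) := by group
    rw [h3, map_mul, h2, mul_one]
  -- orthogonality relations
  have hnormal : (kerSub G U).Normal := kerSub_normal U hirr.2.1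
  let Q := G ⧸ kerSub G U
  have : Fintype Q := Fintype.ofFinite Q
  let Rq : Q →* Matrix (Fin n) (Fin n) ℤ :=
    QuotientGroup.lift (kerSub G U) R (fun γ hγ => hker γ hγ)
  have hRq : ∀ γ : G, Rq (γ : Q) = R γ := fun γ => rfl
  have hcomm : ∀ B : Matrix (Fin n) (Fin n) ℤ, (∀ q, Rq q * B = B * Rq q) →
      ∃ c : ℤ, B = c • (1 : Matrix (Fin n) (Fin n) ℤ) := by
    intro B hB
    exact mat_schur hn U u bU hU R hR hend B (fun γ => hB (γ : Q))
  obtain ⟨c, hcN, horth⟩ := mat_orth hn Rq hcomm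
  have hcard : (kerSub G U).index = Fintype.card Q := by
    rw [Subgroup.index, Nat.card_eq_fintype_card]
  let M : MatSys S G z n (kerSub G U).index :=
    { R := R
      Φ := fun s => R (g s)
      smul := by
        intro γ s
        have h1 : γ • s = (γ * g s) • s₀ := by rw [mul_smul, hg]
        rw [h1, hΦ, map_mul]
      odd := by
        intro s
        have h1 : z • s = (z * g s) • s₀ := by rw [mul_smul, hg]
        rw [h1, hΦ, map_mul, hRz, neg_mul, one_mul]
      base := ⟨s₀, by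
        have h1 := hΦ 1
        rw [one_smul, map_one] at h1
        exact h1⟩
      indep := by
        intro p hp hpN A hA
        have hpf : Fact p.Prime := ⟨hp⟩
        have hA' : ∀ q : Q, ∑ i, ∑ j, ((Rq q i j : ℤ) : ZMod p) * A j i = 0 := by
          intro q
          obtain ⟨γ, rfl⟩ := QuotientGroup.mk_surjective q
          have h1 := hA (γ • s₀)
          rw [hΦ γ] at h1
          rw [← h1, Matrix.trace]
          apply Finset.sum_congr rfl
          intro i _
          rw [Matrix.diag_apply, Matrix.mul_apply]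
          rfl
        have hc0 : (c : ZMod p) ≠ 0 := by
          intro h0
          apply hpN
          rw [hcard]
          rw [ZMod.intCast_zmod_eq_zero_iff_dvd] at h0
          have h1 : (p : ℤ) ∣ (Fintype.card Q : ℤ) := by
            rw [← hcN]
            exact Dvd.dvd.mul_left h0 _
          exact_mod_cast h1
        ext k l
        rw [Matrix.zero_apply]
        have h2 : A k l * (c : ZMod p) = 0 := by
          have h3 : ∀ i j, ∑ q : Q, ((Rq q i j : ℤ) : ZMod p) * ((Rq q⁻¹ k l : ℤ) : ZMod p)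
              = if j = k ∧ i = l then (c : ZMod p) else 0 := by
            intro i j
            have h4 := congrArg (fun a : ℤ => (a : ZMod p)) (horth i j k l)
            push_cast at h4
            rw [h4]
          have h5 : ∑ q : Q, (∑ i, ∑ j, ((Rq q i j : ℤ) : ZMod p) * A j i)
              * ((Rq q⁻¹ k l : ℤ) : ZMod p) = 0 := by
            apply Finset.sum_eq_zero
            intro q _
            rw [hA' q, zero_mul]
          have h6 : ∑ q : Q, (∑ i, ∑ j, ((Rq q i j : ℤ) : ZMod p) * A j i)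
              * ((Rq q⁻¹ k l : ℤ) : ZMod p)
              = ∑ i, ∑ j, A j i * ∑ q : Q, ((Rq q i j : ℤ) : ZMod p)
                  * ((Rq q⁻¹ k l : ℤ) : ZMod p) := by
            simp only [Finset.sum_mul, Finset.mul_sum]
            rw [Finset.sum_comm]
            apply Finset.sum_congr rfl
            intro i _
            rw [Finset.sum_comm]
            apply Finset.sum_congr rfl
            intro j _
            apply Finset.sum_congr rfl
            intro q _
            ring
          rw [h6] at h5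
          simp only [h3] at h5
          rw [← h5, Finset.sum_eq_single l]
          · rw [Finset.sum_eq_single k]
            · simp
            · intro j _ hj
              simp [hj]
            · intro h
              exact absurd (Finset.mem_univ _) h
          · intro i _ hi
            apply Finset.sum_eq_zero
            intro j _
            simp [hi]
          · intro h
            exact absurd (Finset.mem_univ _) h
        rcases mul_eq_zero.1 h2 with h | h
        · exact h
        · exact absurd h hc0 }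
  refine ⟨M, ?_⟩
  rintro e ⟨hsgn, U', hst', ⟨θ, hθ⟩, hperp⟩
  refine ⟨hsgn, ?_⟩
  -- the values at the base point
  let lam : Fin n → ℚ := fun j => (θ (bU j)).1 s₀
  have hval : ∀ j s, (θ (bU j)).1 s = ∑ i, ((M.Φ s j i : ℤ) : ℚ) * lam i := by
    intro j s
    have h1 : (fun t => (bU j).1 (g s • t)) ∈ U := hirr.2.1 _ (bU j).2 (g s)
    have h2 := hθ (bU j) ⟨_, h1⟩ (g s) (fun _ => rfl) s₀
    rw [hg s] at h2
    rw [← h2]
    have h3 : (⟨fun t => (bU j).1 (g s • t), h1⟩ : U) = ∑ i, ((R (g s) j i : ℤ) : ℚ) • bU i := by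
      apply Subtype.ext
      funext t
      rw [Submodule.coe_sum, Finset.sum_apply]
      show (bU j).1 (g s • t) = _
      rw [hU, hR (g s) j t]
      push_cast
      apply Finset.sum_congr rfl
      intro i _
      show _ = ((R (g s) j i : ℤ) : ℚ) * (bU i).1 t
      rw [hU]
    rw [h3, map_sum, Submodule.coe_sum, Finset.sum_apply]
    apply Finset.sum_congr rfl
    intro i _
    rw [map_smul, Submodule.coe_smul, Pi.smul_apply, smul_eq_mul]
  have hlam : ∃ j, lam j ≠ 0 := by
    by_contra hcon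
    push Not at hcon
    have h1 : θ (bU ⟨0, hn⟩) = 0 := by
      apply Subtype.ext
      funext s
      rw [hval]
      simp [hcon]
    have h2 : bU ⟨0, hn⟩ = 0 := by
      have h3 : θ (bU ⟨0, hn⟩) = θ 0 := by rw [h1, map_zero]
      exact θ.injective h3
    exact bU.ne_zero _ h2
  -- clearing denominators
  obtain ⟨N, v, hN, -, hv⟩ := exists_latt_mul (S := Fin n) (⊤ : Submodule ℚ (Fin n → ℚ)) lam
    Submodule.mem_top
  have hNq : (N : ℚ) ≠ 0 := by exact_mod_cast hN
  refine ⟨v, ?_, ?_⟩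
  · obtain ⟨j, hj⟩ := hlam
    intro h0
    have h1 := hv j
    rw [h0] at h1
    simp only [Pi.zero_apply, Int.cast_zero] at h1
    rcases mul_eq_zero.1 h1.symm with h | h
    · exact hNq h
    · exact hj h
  · funext j
    rw [Pi.zero_apply]
    have h1 : (((∑ s, e s • M.Φ s) *ᵥ v) j : ℚ) = 0 := by
      have h2 : (((∑ s, e s • M.Φ s) *ᵥ v) j : ℚ)
          = N * ∑ s, (θ (bU j)).1 s * (e s : ℚ) := by
        simp only [Matrix.mulVec, dotProduct, Matrix.sum_apply, Matrix.smul_apply, smul_eq_mul]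
        push_cast
        simp only [hval, hv, Finset.sum_mul, Finset.mul_sum]
        rw [Finset.sum_comm]
        apply Finset.sum_congr rfl
        intro s _
        apply Finset.sum_congr rfl
        intro i _
        ring
      rw [h2, hperp _ (θ (bU j)).2, mul_zero]
    exact_mod_cast h1

theorem pMat : StMat := by
  intro S G _ _ _ _ _ s₀ z _ U hirr hodd hinv hend
  obtain ⟨u, bU, hU, hco⟩ := mat_basis U
  have hn : 0 < finrank ℚ U := by
    rw [Module.finrank_pos_iff]
    exact Submodule.nontrivial_iff_ne_bot.2 hirr.1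
  exact mat_main s₀ z U hirr hodd hinv hend hn u bU hU hco

end Pool.Agent.Lib.MP_640417_ag.Full
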