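import Pool.Agent.Lib.MP_640417_ag.Full.SpecA
import Pool.Agent.Lib.MP_640417_ag.Far.Red

/-!
# Lifting an endomorphism without decreasing the degree of the minimal polynomial
-/

namespace Pool.Agent.Lib.MP_640417_ag.Full

open Module Finset MulAction Polynomial Pool.Agent.Lib.MP_640417_ag.Far

/-- Polynomials in intertwined endomorphisms. -/
private lemma minLift_aeval {M M' R' : Type} [AddCommGroup M] [CommRing R'] [AddCommGroup M']
    [Module R' M'] (α : Module.End ℤ M) (β : Module.End R' M') (j : M →+ M')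
    (h : ∀ v, β (j v) = j (α v)) (f : ℤ[X]) :
    ∀ v, (aeval β f) (j v) = j ((aeval α f) v) := by
  induction f using Polynomial.induction_on with
  | C a =>
    intro v
    simp
  | add f g hf hg =>
    intro v
    simp only [map_add, LinearMap.add_apply, hf v, hg v]
  | monomial n a ih =>
    intro v
    have e1 : (aeval β (C a * X ^ (n + 1))) = (aeval β (C a * X ^ n)) * β := by
      rw [pow_succ, ← mul_assoc, map_mul, aeval_X]
    have e2 : (aeval α (C a * X ^ (n + 1))) = (aeval α (C a * X ^ n)) * α := by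
      rw [pow_succ, ← mul_assoc, map_mul, aeval_X]
    rw [e1, e2, Module.End.mul_apply, Module.End.mul_apply, h v]
    exact ih (α v)

/-- The rational function attached to a member of the lattice. -/
private def minLift_Q {S : Type} (U : Submodule ℚ (S → ℚ)) : latt U →+ U where
  toFun v := ⟨fun s => (v.1 s : ℚ), v.2⟩
  map_zero' := by
    apply Subtype.ext
    funext s
    simp
  map_add' v w := by
    apply Subtype.ext
    funext s
    simp

/-- The reduction of a member of the lattice. -/
private def minLift_R {S : Type} (p : ℕ) [Fact p.Prime] (U : Submodule ℚ (S → ℚ)) :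
    latt U →+ red p U where
  toFun v := ⟨fun s => (v.1 s : ZMod p), v.1, v.2, fun _ => rfl⟩
  map_zero' := by
    apply Subtype.ext
    funext s
    simp
  map_add' v w := by
    apply Subtype.ext
    funext s
    simp

private lemma minLift_Q_inj {S : Type} (U : Submodule ℚ (S → ℚ)) (v w : latt U)
    (h : minLift_Q U v = minLift_Q U w) : v = w := by
  apply Subtype.ext
  funext s
  have h1 := congrFun (congrArg Subtype.val h) s
  have h2 : (v.1 s : ℚ) = (w.1 s : ℚ) := h1
  exact_mod_cast h2

/-- An integral polynomial which kills the restriction to the lattice kills the endomorphism. -/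
private lemma minLift_kill {S : Type} [Finite S] (U : Submodule ℚ (S → ℚ)) (θ : Module.End ℚ U)
    (α : Module.End ℤ (latt U)) (h : ∀ v, θ (minLift_Q U v) = minLift_Q U (α v)) (f : ℤ[X])
    (hf : aeval α f = 0) : aeval θ f = 0 := by
  ext1 ⟨u, hu⟩
  obtain ⟨N, x, hN, hx, hxs⟩ := exists_latt_mul U u hu
  have hNq : (N : ℚ) ≠ 0 := by exact_mod_cast hN
  have h1 := minLift_aeval α θ (minLift_Q U) h f ⟨x, hx⟩
  rw [hf, LinearMap.zero_apply, map_zero] at h1
  have h2 : minLift_Q U ⟨x, hx⟩ = (N : ℚ) • (⟨u, hu⟩ : U) := by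
    apply Subtype.ext
    funext s
    exact hxs s
  rw [h2, map_smul] at h1
  rw [LinearMap.zero_apply]
  exact (smul_eq_zero.1 h1).resolve_left hNq

theorem pMinLift (hLift : StLift) : StMinLift := by
  intro S G _ _ _ _ p hpp U hst hN φ hφ
  obtain ⟨θ, hθ, hL⟩ := hLift S G p U hst hN φ hφ
  refine ⟨θ, hθ, ?_⟩
  classical
  set N : ℕ := (kerSub G U).index with hNdef
  have hNp : (N : ZMod p) ≠ 0 := by
    intro h
    exact hN ((ZMod.natCast_eq_zero_iff _ _).1 h)
  -- the restriction to the lattice
  have hL' : ∀ v : latt U, ∃ w : latt U, θ (minLift_Q U v) = minLift_Q U w ∧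
      ((N : ZMod p) • φ) (minLift_R p U v) = minLift_R p U w := by
    intro v
    obtain ⟨v', h1, h2⟩ := hL v.1 v.2
    have hv' : v' ∈ latt U := by
      rw [mem_latt]
      have : (fun s => (v' s : ℚ)) = (θ (minLift_Q U v)).1 := by
        funext s
        exact (h1 s).symm
      rw [this]
      exact (θ (minLift_Q U v)).2
    refine ⟨⟨v', hv'⟩, ?_, ?_⟩
    · apply Subtype.ext
      funext s
      exact h1 s
    · apply Subtype.ext
      funext s
      exact h2 s
  choose a ha using hL'
  let α : Module.End ℤ (latt U) := (AddMonoidHom.toIntLinearMap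
    { toFun := a
      map_zero' := by
        apply minLift_Q_inj
        rw [← (ha 0).1, map_zero, map_zero]
      map_add' := fun v w => by
        apply minLift_Q_inj
        rw [← (ha (v + w)).1, map_add, map_add, map_add, (ha v).1, (ha w).1] })
  have hαQ : ∀ v, θ (minLift_Q U v) = minLift_Q U (α v) := fun v => (ha v).1
  have hαR : ∀ v, ((N : ZMod p) • φ) (minLift_R p U v) = minLift_R p U (α v) := fun v => (ha v).2
  -- integrality
  have hint : IsIntegral ℤ α := Algebra.IsIntegral.isIntegral α
  obtain ⟨F, hFm, hF⟩ := hint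
  have hF' : aeval α F = 0 := hF
  have hθF : aeval θ F = 0 := minLift_kill U θ α hαQ F hF'
  have hdvd : minpoly ℚ θ ∣ F.map (algebraMap ℤ ℚ) := by
    apply minpoly.dvd
    rw [aeval_map_algebraMap]
    exact hθF
  have hθint : IsIntegral ℚ θ := Algebra.IsIntegral.isIntegral θ
  have hmon : (minpoly ℚ θ).Monic := minpoly.monic hθint
  obtain ⟨μ, hμ⟩ := IsIntegrallyClosed.eq_map_mul_C_of_dvd ℚ hFm hdvd
  rw [hmon.leadingCoeff, C_1, mul_one] at hμ
  have hμm : μ.Monic := by
    have h1 : (μ.map (algebraMap ℤ ℚ)).Monic := by rw [hμ]; exact hmon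
    exact Polynomial.monic_of_injective (algebraMap ℤ ℚ).injective_int h1
  have hμθ : aeval θ μ = 0 := by
    rw [← aeval_map_algebraMap ℚ, hμ]
    exact minpoly.aeval ℚ θ
  have hμα : ∀ v, (aeval α μ) v = 0 := by
    intro v
    apply minLift_Q_inj
    rw [← minLift_aeval α θ (minLift_Q U) hαQ μ v, hμθ, LinearMap.zero_apply, map_zero]
  have hμψ : aeval ((N : ZMod p) • φ) μ = 0 := by
    ext1 ⟨w, v, hv, hw⟩
    have hwv : (⟨w, v, hv, hw⟩ : red p U) = minLift_R p U ⟨v, hv⟩ := by
      apply Subtype.ext
      funext s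
      exact hw s
    rw [hwv, minLift_aeval α _ (minLift_R p U) hαR μ ⟨v, hv⟩, hμα, map_zero, LinearMap.zero_apply]
  -- the polynomial over the prime field
  set P : (ZMod p)[X] := (μ.map (algebraMap ℤ (ZMod p))).comp (C (N : ZMod p) * X) with hP
  have hdeg1 : (C (N : ZMod p) * X).natDegree = 1 := natDegree_C_mul_X _ hNp
  have hPφ : aeval φ P = 0 := by
    rw [hP, aeval_comp]
    have e : aeval φ (C (N : ZMod p) * X) = (N : ZMod p) • φ := by
      rw [map_mul, aeval_C, aeval_X, Algebra.smul_def]
    rw [e, aeval_map_algebraMap]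
    exact hμψ
  have hμpm : (μ.map (algebraMap ℤ (ZMod p))).Monic := hμm.map _
  have hP0 : P ≠ 0 := by
    rw [← leadingCoeff_ne_zero, hP, leadingCoeff_comp (by rw [hdeg1]; norm_num),
      hμpm.leadingCoeff, one_mul, leadingCoeff_mul, leadingCoeff_C, leadingCoeff_X, mul_one]
    exact pow_ne_zero _ hNp
  have h1 : (minpoly (ZMod p) φ).natDegree ≤ P.natDegree :=
    natDegree_le_natDegree (minpoly.degree_le_of_ne_zero (ZMod p) φ hP0 hPφ)
  refine h1.trans (le_of_eq ?_)
  rw [hP, natDegree_comp, hdeg1, mul_one, hμm.natDegree_map, ← hμ, hμm.natDegree_map]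

end Pool.Agent.Lib.MP_640417_ag.Full
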