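import Pool.Agent.Lib.MP_640417_ag.Full.SpecA
import Pool.Agent.Lib.MP_640417_ag.Far.Main
import Pool.Agent.Lib.MP_640417_ag.Far.Types
import Pool.Agent.Lib.MP_640417_ag.Far.Index
import Pool.Agent.Lib.MP_640417_ag.Far.Semi
import Pool.Agent.Lib.MP_640417_ag.Far.Tame

/-!
# Types of moderate dimension
-/

set_option autoImplicit false

namespace Pool.Agent.Lib.MP_640417_ag.Full

open Module Finset MulAction Pool.Agent.Lib.MP_640417_ag.Far

/-- A space of endomorphisms containing the identity has positive dimension. -/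
lemma mod_pos {V : Type} {F : Type} [Field F] [AddCommGroup V] [Module F V]
    (E : Submodule F (V →ₗ[F] V)) [Module.Finite F E] (h1 : LinearMap.id ∈ E) (x : V)
    (hx : x ≠ 0) : 1 ≤ finrank F E := by
  have hnt : Nontrivial E := by
    refine ⟨⟨⟨LinearMap.id, h1⟩, 0, ?_⟩⟩
    intro h0
    apply hx
    exact congrArg (fun T : E => T.1 x) h0
  exact Module.finrank_pos

theorem pMod (hNumC : StNumC) (hBadE : StBadE) (hMult : StMult) : StMod := by
  obtain ⟨C, hC, hnum⟩ := hNumC (1 / 400) (by norm_num)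
  refine ⟨C, hC, ?_⟩
  intro S G _ _ _ _ _ s₀ z hzz X hX U hU hodd hDg k hk hkh
  classical
  have hcard : 2 * X.card = Fintype.card S :=
    two_mul_card_transversal (fun s : S => z • s) hzz X hX
  have h2g : (0 : ℝ) < 2 ^ X.card := by positivity
  set D : ℕ := finrank ℚ U with hD
  set h : ℕ := finrank ℚ ↥(U ⊓ invF ℚ (stabilizer G s₀)) with hh
  set e : ℕ := finrank ℚ (endF G U) with he
  set N : ℕ := (kerSub G U).index with hN
  set x : ℝ := ((badSet z U).ncard : ℝ) / 2 ^ X.card with hx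
  have hhD : h ≤ D := Submodule.finrank_mono inf_le_left
  have hNpos : 0 < N := Nat.pos_of_ne_zero Subgroup.index_ne_zero_of_finite
  have he1 : 1 ≤ e := by
    obtain ⟨f, hf, hf0⟩ := Submodule.exists_mem_ne_zero_of_ne_bot hU.1
    exact mod_pos (endF G U) (one_mem_endF G U) ⟨f, hf⟩ (fun h0 => hf0 (congrArg Subtype.val h0))
  have heh : e ≤ h := by
    obtain ⟨m, hm1, hm2, -⟩ := hMult S G s₀ z hzz X hX 1 (fun _ => U) (fun _ => ⟨hU, hodd⟩)
      (fun i j hij => absurd (Subsingleton.elim i j) hij)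
    have h1 := hm2 0
    have h2 := hm1 0
    have h3 : h = m 0 * e := h1
    rw [h3]
    exact Nat.le_mul_of_pos_left e h2
  have hx0 : 0 ≤ x := by positivity
  have hbadle : ((badSet z U).ncard : ℝ) ≤ 2 ^ X.card := by
    have h1 := ncard_isSgn_le z hzz X hX (fun e => ∃ U' : Submodule ℚ (S → ℚ), IsStab G U' ∧
      IsoF G U U' ∧ Perp e U')
    have h2 : (((badSet z U).ncard : ℕ) : ℝ) ≤ ((2 ^ X.card : ℕ) : ℝ) := by
      exact_mod_cast h1
    push_cast at h2
    exact h2
  have hx1 : x ≤ 1 := (div_le_one h2g).mpr hbadle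
  have hb := hBadE S G s₀ z hzz X hX U hU.1 hU.2.1 hodd
  have key : x ≤ C * Real.sqrt (D * Real.log (D + 1) / X.card) ^ k := by
    refine hnum X.card D h e N x he1 heh hhD hDg hNpos hx0 hx1 ?_ ?_ ?_ ?_ k hk hkh
    · intro r hr
      have h1 := index_of semi S G s₀ U hU r hr
      rw [← hcard] at h1
      have h2 : ((N : ℕ) : ℝ) ≤ (((2 * X.card) ^ r : ℕ) : ℝ) := by exact_mod_cast h1
      push_cast at h2
      exact h2
    · intro p hp hDp
      exact tame S G U hU.2.1 p hp hDp
    · intro p hp hp2 hpN a ha haD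
      have h1 := (hb p hp2 hpN).1 a ha haD
      have h3 : ((p : ℝ) - 1) ^ e * x = ((p : ℝ) - 1) ^ e * (badSet z U).ncard / 2 ^ X.card := by
        rw [hx]
        ring
      rw [h3, div_le_iff₀ h2g]
      calc _ ≤ _ := h1
        _ = _ := by ring
    · intro p hp hp2 hpN
      have h1 := (hb p hp2 hpN).2
      have h3 : ((p : ℝ) - 1) ^ e * x = ((p : ℝ) - 1) ^ e * (badSet z U).ncard / 2 ^ X.card := by
        rw [hx]
        ring
      rw [h3, div_le_iff₀ h2g]
      calc _ ≤ _ := h1
        _ = _ := by ring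
  rw [hx, div_le_iff₀ h2g] at key
  exact key

end Pool.Agent.Lib.MP_640417_ag.Full
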