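import Pool.Agent.Lib.MP_640417_ag.Full.SpecA
import Pool.Agent.Lib.MP_640417_ag.Far.Main
import Pool.Agent.Lib.MP_640417_ag.Far.Types

/-!
# Multiplicities of the irreducible odd spaces of functions
-/

set_option autoImplicit false

namespace Pool.Agent.Lib.MP_640417_ag.Full

open Module Finset MulAction Pool.Agent.Lib.MP_640417_ag.Far

section mult

variable {S G : Type} [Group G] [MulAction G S]

/-- Translation inside a stable space. -/
def multTr {U : Submodule ℚ (S → ℚ)} (hU : IsStab G U) (γ : G) (f : U) : U :=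
  ⟨fun s => f.1 (γ • s), hU _ f.2 γ⟩

/-- Equivariant maps between two spaces of functions. -/
def MultEqv (G : Type) [Group G] [MulAction G S] (U V : Submodule ℚ (S → ℚ))
    (α : U →ₗ[ℚ] V) : Prop :=
  ∀ (f f' : U) (γ : G), (∀ s, f'.1 s = f.1 (γ • s)) → ∀ s, (α f').1 s = (α f).1 (γ • s)

/-- The sum of a family of maps. -/
def multSum {ι : Type} [Fintype ι] (V : ι → Submodule ℚ (S → ℚ))
    (ψ : (a : ι) → V a →ₗ[ℚ] (S → ℚ)) : ((a : ι) → V a) →ₗ[ℚ] (S → ℚ) :=
  ∑ a, (ψ a) ∘ₗ (LinearMap.proj a)

lemma multSum_apply {ι : Type} [Fintype ι] (V : ι → Submodule ℚ (S → ℚ))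
    (ψ : (a : ι) → V a →ₗ[ℚ] (S → ℚ)) (u : (a : ι) → V a) :
    multSum V ψ u = ∑ a, ψ a (u a) := by
  simp [multSum, LinearMap.sum_apply]

lemma multSum_tr {ι : Type} [Fintype ι] (V : ι → Submodule ℚ (S → ℚ))
    (hV : ∀ a, IsStab G (V a)) (ψ : (a : ι) → V a →ₗ[ℚ] (S → ℚ))
    (hψ : ∀ a, ψ a ∈ homF G (V a)) (u : (a : ι) → V a) (γ : G) (s : S) :
    multSum V ψ (fun a => multTr (hV a) γ (u a)) s = multSum V ψ u (γ • s) := by
  rw [multSum_apply, multSum_apply, Finset.sum_apply, Finset.sum_apply]
  apply Finset.sum_congr rfl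
  intro a _
  exact hψ a (u a) _ γ (fun _ => rfl) s

lemma multSum_stab {ι : Type} [Fintype ι] (V : ι → Submodule ℚ (S → ℚ))
    (hV : ∀ a, IsStab G (V a)) (ψ : (a : ι) → V a →ₗ[ℚ] (S → ℚ))
    (hψ : ∀ a, ψ a ∈ homF G (V a)) : IsStab G (LinearMap.range (multSum V ψ)) := by
  rintro f ⟨u, rfl⟩ γ
  exact ⟨fun a => multTr (hV a) γ (u a), funext fun s => multSum_tr V hV ψ hψ u γ s⟩

/-- An irreducible space is mapped into a stable space or meets it trivially. -/
lemma mult_dich (U : Submodule ℚ (S → ℚ)) (hU : IsIrr G U) (θ : U →ₗ[ℚ] (S → ℚ))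
    (hθ : θ ∈ homF G U) (R : Submodule ℚ (S → ℚ)) (hR : IsStab G R) :
    (∀ u, θ u ∈ R) ∨ (∀ u, θ u ∈ R → u = 0) := by
  have hst : IsStab G ((R.comap θ).map U.subtype) := by
    rintro f ⟨u, hu, rfl⟩ γ
    refine ⟨multTr hU.2.1 γ u, ?_, rfl⟩
    have h1 : θ (multTr hU.2.1 γ u) = fun s => θ u (γ • s) :=
      funext (hθ u _ γ (fun _ => rfl))
    show θ (multTr hU.2.1 γ u) ∈ R
    rw [h1]
    exact hR _ hu γ
  rcases hU.2.2 _ (Submodule.map_subtype_le _ _) hst with h | h
  · right
    intro u hu
    have h1 : (u : S → ℚ) ∈ (R.comap θ).map U.subtype := ⟨u, hu, rfl⟩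
    rw [h] at h1
    exact Subtype.ext ((Submodule.mem_bot ℚ).1 h1)
  · left
    intro u
    have h1 : (u : S → ℚ) ∈ (R.comap θ).map U.subtype := by
      rw [h]
      exact u.2
    obtain ⟨u', hu', h2⟩ := h1
    have h3 : u' = u := Subtype.ext h2
    rw [← h3]
    exact hu'

/-- Lifting through an injective sum of equivariant maps. -/
lemma mult_lift {ι : Type} [Fintype ι] (V : ι → Submodule ℚ (S → ℚ))
    (hV : ∀ a, IsStab G (V a)) (ψ : (a : ι) → V a →ₗ[ℚ] (S → ℚ))
    (hψ : ∀ a, ψ a ∈ homF G (V a)) (hinj : Function.Injective (multSum V ψ))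
    (U : Submodule ℚ (S → ℚ)) (θ : U →ₗ[ℚ] (S → ℚ)) (hθ : θ ∈ homF G U)
    (h : ∀ u, θ u ∈ LinearMap.range (multSum V ψ)) :
    ∃ α : (a : ι) → U →ₗ[ℚ] V a, (∀ a, MultEqv G U (V a) (α a)) ∧
      ∀ u, θ u = ∑ a, ψ a (α a u) := by
  set e := LinearEquiv.ofInjective (multSum V ψ) hinj with he
  set α0 : U →ₗ[ℚ] ((a : ι) → V a) :=
    e.symm.toLinearMap ∘ₗ (θ.codRestrict (LinearMap.range (multSum V ψ)) h) with hα0
  have key : ∀ u, multSum V ψ (α0 u) = θ u := by
    intro u
    have h1 : e (α0 u) = ⟨θ u, h u⟩ := by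
      rw [hα0]
      exact e.apply_symm_apply _
    exact congrArg Subtype.val h1
  refine ⟨fun a => (LinearMap.proj a) ∘ₗ α0, ?_, ?_⟩
  · intro a f f' γ hff s
    have h1 : (fun a => multTr (hV a) γ (α0 f a)) = α0 f' := by
      apply hinj
      funext t
      rw [multSum_tr V hV ψ hψ, key, key]
      exact (hθ f f' γ hff t).symm
    show (α0 f' a).1 s = (α0 f a).1 (γ • s)
    rw [← h1]
    rfl
  · intro u
    rw [← key, multSum_apply]
    rfl

/-- Schur. -/
lemma mult_schur (U V : Submodule ℚ (S → ℚ)) (hU : IsIrr G U) (hV : IsIrr G V)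
    (α : U →ₗ[ℚ] V) (hα : MultEqv G U V α) (hne : ¬ IsoF G U V) : α = 0 := by
  by_contra hα0
  have hθ : V.subtype ∘ₗ α ∈ homF G U := fun f f' γ hff s => hα f f' γ hff s
  have hbot : IsStab G (⊥ : Submodule ℚ (S → ℚ)) := by
    intro f hf γ
    rw [Submodule.mem_bot] at hf ⊢
    funext s
    rw [hf]
    rfl
  have hinj : Function.Injective α := by
    rcases mult_dich U hU _ hθ ⊥ hbot with h | h
    · exfalso
      apply hα0
      apply LinearMap.ext
      intro u
      apply Subtype.ext
      exact (Submodule.mem_bot ℚ).1 (h u)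
    · rw [← LinearMap.ker_eq_bot, LinearMap.ker_eq_bot']
      intro u hu
      apply h u
      rw [Submodule.mem_bot, LinearMap.comp_apply, hu]
      rfl
  have hst : IsStab G (LinearMap.range (V.subtype ∘ₗ α)) := by
    rintro f ⟨u, rfl⟩ γ
    refine ⟨multTr hU.2.1 γ u, ?_⟩
    exact funext fun s => hθ u _ γ (fun _ => rfl) s
  have hle : LinearMap.range (V.subtype ∘ₗ α) ≤ V := by
    rintro f ⟨u, rfl⟩
    exact (α u).2
  have hsurj : Function.Surjective α := by
    rcases hV.2.2 _ hle hst with h | h
    · exfalso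
      apply hα0
      apply LinearMap.ext
      intro u
      apply Subtype.ext
      have h1 : V.subtype (α u) ∈ LinearMap.range (V.subtype ∘ₗ α) := ⟨u, rfl⟩
      rw [h] at h1
      exact (Submodule.mem_bot ℚ).1 h1
    · intro v
      have h1 : (v : S → ℚ) ∈ LinearMap.range (V.subtype ∘ₗ α) := by
        rw [h]
        exact v.2
      obtain ⟨u, hu⟩ := h1
      exact ⟨u, Subtype.ext hu⟩
  exact hne ⟨LinearEquiv.ofBijective α ⟨hinj, hsurj⟩, hα⟩

lemma mult_finrank_pi (E : Type) [h0 : AddCommMonoid E] [h1 : Module ℚ E] [Module.Finite ℚ E]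
    (k : ℕ) : finrank ℚ (Fin k → E) = k * finrank ℚ E := by
  obtain ⟨i, rfl⟩ : ∃ i : AddCommGroup E, i.toAddCommMonoid = h0 :=
    ⟨Module.addCommMonoidToAddCommGroup ℚ, rfl⟩
  rw [Module.finrank_pi_fintype, Finset.sum_const, Finset.card_univ, Fintype.card_fin,
    smul_eq_mul]

/-- A maximal independent family of equivariant maps for one irreducible space. -/
lemma mult_one [Fintype S] (U : Submodule ℚ (S → ℚ)) (hU : IsIrr G U) :
    ∃ (k : ℕ) (θ : Fin k → (U →ₗ[ℚ] (S → ℚ))), (∀ j, θ j ∈ homF G U) ∧
      Function.Injective (multSum (fun _ : Fin k => U) θ) ∧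
      finrank ℚ (homF G U) = k * finrank ℚ (endF G U) := by
  classical
  set Q : ℕ → Prop := fun k => ∃ θ : Fin k → (U →ₗ[ℚ] (S → ℚ)), (∀ j, θ j ∈ homF G U) ∧
      Function.Injective (multSum (fun _ : Fin k => U) θ) with hQ
  have hD : 1 ≤ finrank ℚ U := by
    rw [Nat.one_le_iff_ne_zero, Ne, Submodule.finrank_eq_zero]
    exact hU.1
  have hbound : ∀ k, Q k → k ≤ Fintype.card S := by
    rintro k ⟨θ, -, hinj⟩
    have h1 := LinearMap.finrank_le_finrank_of_injective hinj
    rw [Module.finrank_fintype_fun_eq_card, Module.finrank_pi_fintype, Finset.sum_const,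
      Finset.card_univ, Fintype.card_fin, smul_eq_mul] at h1
    calc k = k * 1 := (mul_one k).symm
      _ ≤ k * finrank ℚ U := Nat.mul_le_mul_left k hD
      _ ≤ Fintype.card S := h1
  have hQ0 : Q 0 := by
    refine ⟨fun j => j.elim0, fun j => j.elim0, ?_⟩
    intro u v _
    funext j
    exact j.elim0
  set k := Nat.findGreatest Q (Fintype.card S) with hk
  obtain ⟨θ, hθ, hinj⟩ : Q k := Nat.findGreatest_spec (P := Q) (Nat.zero_le _) hQ0
  have hmax : ¬ Q (k + 1) := by
    intro h
    have h2 := Nat.le_findGreatest (hbound _ h) h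
    omega
  refine ⟨k, θ, hθ, hinj, ?_⟩
  have hall : ∀ φ ∈ homF G U, ∀ u, φ u ∈ LinearMap.range (multSum (fun _ : Fin k => U) θ) := by
    intro φ hφ
    rcases mult_dich U hU φ hφ _ (multSum_stab (fun _ : Fin k => U) (fun _ => hU.2.1) θ hθ)
      with h | h
    · exact h
    · exfalso
      apply hmax
      refine ⟨Fin.cons φ θ, ?_, ?_⟩
      · intro j
        refine Fin.cases ?_ (fun i => ?_) j
        · rw [Fin.cons_zero]
          exact hφ
        · rw [Fin.cons_succ]
          exact hθ i
      · rw [← LinearMap.ker_eq_bot, LinearMap.ker_eq_bot']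
        intro u hu
        rw [multSum_apply, Fin.sum_univ_succ, Fin.cons_zero] at hu
        simp only [Fin.cons_succ] at hu
        have h1 : multSum (fun _ : Fin k => U) θ (fun j => u j.succ) =
            ∑ j : Fin k, θ j (u j.succ) := multSum_apply _ _ _
        have h2 : u 0 = 0 := by
          apply h
          refine ⟨fun j => - u j.succ, ?_⟩
          rw [multSum_apply]
          simp only [map_neg, Finset.sum_neg_distrib]
          exact (eq_neg_of_add_eq_zero_left hu).symm
        rw [h2, map_zero, zero_add, ← h1] at hu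
        have h3 : (fun j : Fin k => u j.succ) = 0 := by
          apply hinj
          rw [hu, map_zero]
        funext j
        refine Fin.cases h2 (fun i => ?_) j
        exact congrFun h3 i
  set L : (Fin k → endF G U) →ₗ[ℚ] homF G U :=
    { toFun := fun α => ⟨∑ j, θ j ∘ₗ (α j).1, by
        intro f f' γ hff s
        simp only [LinearMap.sum_apply, LinearMap.comp_apply, Finset.sum_apply]
        apply Finset.sum_congr rfl
        intro j _
        exact hθ j _ _ γ (fun t => (α j).2 f f' γ hff t) s⟩
      map_add' := by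
        intro α β
        apply Subtype.ext
        apply LinearMap.ext
        intro u
        simp [LinearMap.sum_apply, Finset.sum_add_distrib]
      map_smul' := by
        intro c α
        apply Subtype.ext
        apply LinearMap.ext
        intro u
        simp [LinearMap.sum_apply, Finset.smul_sum] } with hL
  have hLapp : ∀ α u, (L α).1 u = ∑ j, θ j ((α j).1 u) := by
    intro α u
    simp [hL, LinearMap.sum_apply]
  have hbij : Function.Bijective L := by
    constructor
    · intro α β hαβ
      funext j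
      apply Subtype.ext
      apply LinearMap.ext
      intro u
      have h1 : (fun j => (α j).1 u) = (fun j => (β j).1 u) := by
        apply hinj
        rw [multSum_apply, multSum_apply, ← hLapp, ← hLapp, hαβ]
      exact congrFun h1 j
    · intro φ
      obtain ⟨α, hα, hφα⟩ := mult_lift (fun _ : Fin k => U) (fun _ => hU.2.1) θ hθ hinj U φ.1 φ.2
        (hall φ.1 φ.2)
      refine ⟨fun j => ⟨α j, hα j⟩, ?_⟩
      apply Subtype.ext
      apply LinearMap.ext
      intro u
      rw [hLapp, hφα u]
  have h1 := (LinearEquiv.ofBijective L hbij).finrank_eq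
  rw [← h1]
  exact mult_finrank_pi (endF G U) k

/-- Independence of all the copies. -/
lemma mult_indep [Fintype S] {n : ℕ} (U : Fin n → Submodule ℚ (S → ℚ))
    (hU : ∀ i, IsIrr G (U i)) (hne : ∀ i j, i ≠ j → ¬ IsoF G (U i) (U j)) (m : Fin n → ℕ)
    (θ : (i : Fin n) → Fin (m i) → (U i →ₗ[ℚ] (S → ℚ)))
    (hθ : ∀ i j, θ i j ∈ homF G (U i))
    (hinj : ∀ i, Function.Injective (multSum (fun _ : Fin (m i) => U i) (θ i))) :
    Function.Injective (multSum (fun a : (Σ i : Fin n, Fin (m i)) => U a.1)
      (fun a => θ a.1 a.2)) := by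
  classical
  set ψ : (a : Σ i : Fin n, Fin (m i)) → (U a.1 →ₗ[ℚ] (S → ℚ)) := fun a => θ a.1 a.2 with hψdef
  have hψ : ∀ a, ψ a ∈ homF G (U a.1) := fun a => hθ a.1 a.2
  have claim : ∀ J : Finset (Σ i : Fin n, Fin (m i)), ∀ u : (a : Σ i : Fin n, Fin (m i)) → U a.1,
      ∑ a ∈ J, ψ a (u a) = 0 → ∀ a ∈ J, u a = 0 := by
    intro J
    induction J using Finset.induction_on with
    | empty =>
      intro u _ a ha
      exact absurd ha (Finset.notMem_empty a)
    | insert a0 J ha0 ih =>
      have hJinj : Function.Injective (multSum (fun b : J => U b.1.1) (fun b => ψ b.1)) := by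
        rw [← LinearMap.ker_eq_bot, LinearMap.ker_eq_bot']
        intro v hv
        rw [multSum_apply] at hv
        set u : (a : Σ i : Fin n, Fin (m i)) → U a.1 :=
          fun a => if h : a ∈ J then v ⟨a, h⟩ else 0 with hu
        have h1 : ∑ a ∈ J, ψ a (u a) = 0 := by
          rw [← hv, ← Finset.sum_coe_sort J (fun a => ψ a (u a))]
          apply Finset.sum_congr rfl
          intro b _
          have : u b.1 = v b := by
            rw [hu]
            exact dif_pos b.2
          rw [this]
        have h2 := ih u h1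
        funext b
        have h3 := h2 b.1 b.2
        have : u b.1 = v b := by
          rw [hu]
          exact dif_pos b.2
        rw [← this, h3]
        rfl
      intro u hu
      rw [Finset.sum_insert ha0] at hu
      have hz : u a0 = 0 := by
        rcases mult_dich (U a0.1) (hU a0.1) (ψ a0) (hψ a0) _
          (multSum_stab (fun b : J => U b.1.1) (fun b => (hU b.1.1).2.1) (fun b => ψ b.1)
            (fun b => hψ b.1)) with h | h
        · exfalso
          obtain ⟨α, hα, hα'⟩ := mult_lift (fun b : J => U b.1.1) (fun b => (hU b.1.1).2.1)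
            (fun b => ψ b.1) (fun b => hψ b.1) hJinj (U a0.1) (ψ a0) (hψ a0) h
          apply (hU a0.1).1
          rw [Submodule.eq_bot_iff]
          intro f hf
          obtain ⟨i0, j0⟩ := a0
          -- the relation among the copies with the same first index
          set x : U i0 := ⟨f, hf⟩ with hx
          set g : (Σ i : Fin n, Fin (m i)) → (S → ℚ) :=
            fun a => if h : a ∈ J then ψ a (α ⟨a, h⟩ x) else 0 with hg
          have hg1 : ψ ⟨i0, j0⟩ x = ∑ j, g ⟨i0, j⟩ := by
            have h1 : ψ ⟨i0, j0⟩ x = ∑ a, g a := by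
              rw [hα' x, ← Finset.sum_subset (Finset.subset_univ J)]
              · rw [← Finset.sum_coe_sort J g]
                apply Finset.sum_congr rfl
                intro b _
                have : g b.1 = ψ b.1 (α b x) := by
                  rw [hg]
                  exact dif_pos b.2
                rw [this]
              · intro a _ ha
                rw [hg]
                exact dif_neg ha
            rw [h1, Fintype.sum_sigma]
            apply Finset.sum_eq_single i0
            · intro i _ hi
              apply Finset.sum_eq_zero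
              intro j _
              rw [hg]
              by_cases hJ : (⟨i, j⟩ : Σ i : Fin n, Fin (m i)) ∈ J
              · simp only [dif_pos hJ]
                have h2 : α ⟨⟨i, j⟩, hJ⟩ = 0 :=
                  mult_schur (U i0) (U i) (hU i0) (hU i) _ (hα ⟨⟨i, j⟩, hJ⟩)
                    (hne i0 i (Ne.symm hi))
                rw [h2, LinearMap.zero_apply, map_zero]
              · simp only [dif_neg hJ]
            · intro h
              exact absurd (Finset.mem_univ i0) h
          set w : Fin (m i0) → U i0 := fun j => if j = j0 then x else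
            if h : (⟨i0, j⟩ : Σ i : Fin n, Fin (m i)) ∈ J then - α ⟨⟨i0, j⟩, h⟩ x else 0 with hw
          have hw0 : multSum (fun _ : Fin (m i0) => U i0) (θ i0) w = 0 := by
            rw [multSum_apply]
            have h1 : ∀ j, θ i0 j (w j) = (if j = j0 then ψ ⟨i0, j0⟩ x else 0) - g ⟨i0, j⟩ := by
              intro j
              by_cases hj : j = j0
              · subst hj
                have h2 : g ⟨i0, j⟩ = 0 := by
                  rw [hg]
                  exact dif_neg ha0
                rw [h2, sub_zero, if_pos rfl, hw]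
                simp only [if_true]
                rfl
              · rw [if_neg hj, hw, hg]
                simp only [if_neg hj]
                by_cases hJ : (⟨i0, j⟩ : Σ i : Fin n, Fin (m i)) ∈ J
                · simp only [dif_pos hJ, map_neg, zero_sub]
                  rfl
                · simp only [dif_neg hJ, map_zero, sub_zero]
            simp only [h1]
            rw [Finset.sum_sub_distrib, ← hg1, Finset.sum_ite_eq' Finset.univ j0,
              if_pos (Finset.mem_univ _), sub_self]
          have hwz : w = 0 := by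
            apply hinj i0
            rw [hw0, map_zero]
          have h3 := congrFun hwz j0
          rw [hw] at h3
          simp only [if_true, Pi.zero_apply] at h3
          exact congrArg Subtype.val h3
        · apply h
          refine ⟨fun b => - u b.1, ?_⟩
          rw [multSum_apply]
          simp only [map_neg, Finset.sum_neg_distrib]
          rw [Finset.sum_coe_sort J (fun a => ψ a (u a))]
          exact (eq_neg_of_add_eq_zero_left hu).symm
      rw [hz, map_zero, zero_add] at hu
      intro a ha
      rcases Finset.mem_insert.1 ha with h | h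
      · rw [h, hz]
      · exact ih u hu a h
  rw [← LinearMap.ker_eq_bot, LinearMap.ker_eq_bot']
  intro u hu
  rw [multSum_apply] at hu
  funext a
  exact claim Finset.univ u hu a (Finset.mem_univ a)

end mult

theorem pMult (hHom : StHomDim) : StMult := by
  intro S G _ _ _ _ _ s₀ z hzz X hX n U hU hne
  choose m θ hθ hinj hfr using fun i => mult_one (G := G) (U i) (hU i).1
  have hfr' : ∀ i, finrank ℚ ↥(U i ⊓ invF ℚ (stabilizer G s₀)) =
      m i * finrank ℚ (endF G (U i)) := by
    intro i
    rw [← hHom S G s₀ (U i) (hU i).1.2.1, hfr i]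
  refine ⟨m, ?_, hfr', ?_⟩
  · intro i
    rw [Nat.one_le_iff_ne_zero]
    intro h0
    have h1 := hfr' i
    rw [h0, zero_mul, Submodule.finrank_eq_zero] at h1
    exact types_inf_ne_bot s₀ (U i) (hU i).1.1 (hU i).1.2.1 h1
  · have hJ := mult_indep U (fun i => (hU i).1) hne m θ hθ hinj
    have h1 := LinearMap.finrank_range_of_inj hJ
    rw [Module.finrank_pi_fintype] at h1
    have h3 : ∑ a : (Σ i : Fin n, Fin (m i)), finrank ℚ (U a.1) =
        ∑ i, m i * finrank ℚ (U i) := by
      rw [Fintype.sum_sigma]
      apply Finset.sum_congr rfl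
      intro i _
      have h4 : ∑ _x : Fin (m i), finrank ℚ (U i) = m i * finrank ℚ (U i) := by simp
      exact h4
    rw [← h3, ← h1]
    apply Far.finrank_odd_le z X hX
    rintro f ⟨u, rfl⟩ s
    rw [multSum_apply, Finset.sum_apply, Finset.sum_apply, ← Finset.sum_neg_distrib]
    apply Finset.sum_congr rfl
    intro a _
    have h2 := hθ a.1 a.2 (u a) (- u a) z (fun s => ((hU a.1).2 _ (u a).2 s).symm) s
    rw [map_neg] at h2
    exact h2.symm

end Pool.Agent.Lib.MP_640417_ag.Full
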