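import Pool.Agent.Lib.MP_640417_ag.Full.SpecA
import Pool.Agent.Lib.MP_640417_ag.Far.Num

/-!
# The numerical bound for one type of moderate dimension
-/

namespace Pool.Agent.Lib.MP_640417_ag.Full

open Module Finset MulAction Pool.Agent.Lib.MP_640417_ag.Far

private lemma NumC_triv {x s M C : ℝ} (hx1 : x ≤ 1) (hM : 1 ≤ M) (hs0 : 0 ≤ s) (hs : 1 ≤ M * s)
    {k : ℕ} (hk : k ≤ 3) (hC : M ^ 3 ≤ C) : x ≤ C * s ^ k := by
  have h1 : M ^ k ≤ M ^ 3 := pow_le_pow_right₀ hM hk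
  calc x ≤ 1 := hx1
    _ ≤ (M * s) ^ k := one_le_pow₀ hs
    _ = M ^ k * s ^ k := mul_pow _ _ _
    _ ≤ M ^ 3 * s ^ k := by gcongr
    _ ≤ C * s ^ k := by gcongr

/-- The asymptotic fact which is used. -/
private lemma NumC_large (a₀ : ℝ) (ha : 0 < a₀) : ∃ g₀ : ℕ, 1 ≤ g₀ ∧ ∀ g : ℕ, g₀ ≤ g →
    10816 * Real.log (4 * g) ^ 7 ≤ (g : ℝ) ^ a₀ := by
  have h4 : (0 : ℝ) < 4 ^ a₀ := by positivity
  have h1 : ∀ᶠ x : ℝ in Filter.atTop,
      ‖Real.log x ^ (7 : ℝ)‖ ≤ (1 / (10816 * 4 ^ a₀)) * ‖x ^ a₀‖ :=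
    (isLittleO_log_rpow_rpow_atTop (7 : ℝ) ha).def (by positivity)
  have h1' : ∀ᶠ x : ℝ in Filter.atTop,
      ‖Real.log (4 * x) ^ (7 : ℝ)‖ ≤ (1 / (10816 * 4 ^ a₀)) * ‖(4 * x) ^ a₀‖ :=
    (Filter.tendsto_id.const_mul_atTop (by norm_num : (0 : ℝ) < 4)).eventually h1
  have h2 : ∀ᶠ x : ℝ in Filter.atTop, 10816 * Real.log (4 * x) ^ 7 ≤ x ^ a₀ := by
    filter_upwards [h1', Filter.eventually_gt_atTop 0] with x hx hx0
    have h3 : Real.log (4 * x) ^ (7 : ℝ) = Real.log (4 * x) ^ 7 := by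
      rw [← Real.rpow_natCast]
      norm_num
    rw [h3] at hx
    have h5 := le_trans (le_abs_self _) hx
    rw [Real.norm_of_nonneg (by positivity), Real.mul_rpow (by norm_num) hx0.le] at h5
    have h6 : 1 / (10816 * (4 : ℝ) ^ a₀) * (4 ^ a₀ * x ^ a₀) = x ^ a₀ / 10816 := by
      field_simp
    rw [h6] at h5
    linarith
  obtain ⟨g₀, hg₀⟩ := Filter.eventually_atTop.1
    ((tendsto_natCast_atTop_atTop (R := ℝ)).eventually h2)
  exact ⟨max g₀ 1, le_max_right _ _, fun g hg => hg₀ g (le_trans (le_max_left _ _) hg)⟩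

private lemma NumC_log_two_le {D : ℕ} (hD : 1 ≤ D) : 0.69 ≤ Real.log ((D : ℝ) + 1) := by
  have h1 : Real.log 2 ≤ Real.log ((D : ℝ) + 1) := by
    apply Real.log_le_log (by norm_num)
    have : (1 : ℝ) ≤ D := by exact_mod_cast hD
    linarith
  have h2 := Real.log_two_gt_d9
  linarith

/-- The bound from one prime of the right size. -/
private lemma NumC_main (hK : StKappa) {g D h e : ℕ} {x s : ℝ} (hg : 0 < g) (hD : 1 ≤ D)
    (hhD : h ≤ D) (hx0 : 0 ≤ x) (hs0 : 0 < s)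
    (hs : s ^ 2 = D * Real.log (D + 1) / g) (p : ℕ) [hp : Fact p.Prime] (hp2 : p ≠ 2)
    (hp8 : 1 / (2 * s) / 8 < p) (hpP : (p : ℝ) ≤ 1 / (2 * s))
    (hA : ∀ a : ℝ, 0 ≤ a → a * D ≤ g → ((p : ℝ) - 1) ^ e * x ≤ (p : ℝ) ^ h * cosAvg p a ^ D)
    (k : ℕ) (hk : k ≤ 3) (hkh : k + h ≤ e + D) : x ≤ 688128 * s ^ k := by
  have hg0 : (0 : ℝ) < g := by exact_mod_cast hg
  have hD1 : (1 : ℝ) ≤ D := by exact_mod_cast hD
  have hD0 : (0 : ℝ) < D := by linarith
  have hL := NumC_log_two_le hD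
  set L := Real.log ((D : ℝ) + 1) with hLdef
  have hp3 : (3 : ℝ) ≤ p := by
    have h2 := hp.out.two_le
    have : 3 ≤ p := by omega
    exact_mod_cast this
  have hp0 : (0 : ℝ) < p := by linarith
  have hps : (p : ℝ) * (2 * s) ≤ 1 := by
    rwa [le_div_iff₀ (by positivity)] at hpP
  have hps2 : (p : ℝ) ^ 2 * (4 * s ^ 2) ≤ 1 := by
    have : ((p : ℝ) * (2 * s)) ^ 2 ≤ 1 := pow_le_one₀ (by positivity) hps
    calc (p : ℝ) ^ 2 * (4 * s ^ 2) = ((p : ℝ) * (2 * s)) ^ 2 := by ring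
      _ ≤ 1 := this
  have hpa : 4 * L * (p : ℝ) ^ 2 ≤ g / D := by
    rw [hs] at hps2
    rw [le_div_iff₀ hD0]
    have e1 : (p : ℝ) ^ 2 * (4 * (D * L / g)) = (4 * L * (p : ℝ) ^ 2 * D) / g := by ring
    rw [e1, div_le_one hg0] at hps2
    exact hps2
  have hpa' : (p : ℝ) ^ 2 ≤ g / D := by
    have : (p : ℝ) ^ 2 ≤ 4 * L * (p : ℝ) ^ 2 := by
      apply le_mul_of_one_le_left (by positivity)
      linarith
    linarith
  have hkap := (hK p hp2).1 (g / D) hpa'
  have hexp : Real.exp (-(4 * (g / D) / (p : ℝ) ^ 2)) ≤ 1 / D := by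
    have e1 : L ≤ 4 * (g / D) / (p : ℝ) ^ 2 := by
      rw [le_div_iff₀ (by positivity)]
      have : L * (p : ℝ) ^ 2 ≤ 4 * L * (p : ℝ) ^ 2 := by nlinarith [sq_nonneg (p : ℝ)]
      have : (0 : ℝ) ≤ g / D := by positivity
      linarith
    calc Real.exp (-(4 * (g / D) / (p : ℝ) ^ 2)) ≤ Real.exp (- L) := Real.exp_le_exp.2 (by linarith)
      _ = 1 / (D + 1) := by
        rw [Real.exp_neg, hLdef, Real.exp_log (by positivity), one_div]
      _ ≤ 1 / D := one_div_le_one_div_of_le hD0 (by linarith)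
  have hκ0 : 0 ≤ cosAvg p (g / D) := cosAvg_nonneg _
  have hpk : ((p : ℝ) * cosAvg p (g / D)) ^ D ≤ 21 := by
    have e2 : (p : ℝ) * cosAvg p (g / D) ≤ Real.exp (3 / D) := by
      have := Real.add_one_le_exp (3 / (D : ℝ))
      have e3 : (3 : ℝ) / D = 3 * (1 / D) := by ring
      linarith
    calc ((p : ℝ) * cosAvg p (g / D)) ^ D ≤ (Real.exp (3 / D)) ^ D := by
          apply pow_le_pow_left₀ (by positivity) e2
      _ = Real.exp 1 ^ 3 := by
          rw [← Real.exp_nat_mul, ← Real.exp_nat_mul]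
          congr 1
          field_simp
          norm_num
      _ ≤ 2.7182818286 ^ 3 := by
          have := Real.exp_one_lt_d9
          gcongr
      _ ≤ 21 := by norm_num
  have hmain := hA (g / D) (by positivity) (by rw [div_mul_cancel₀ _ hD0.ne'])
  have hp1 : (1 : ℝ) ≤ p - 1 := by linarith
  have hp1' : (0 : ℝ) ≤ p - 1 := by linarith
  have h21 : ((p : ℝ) - 1) ^ k * x ≤ 21 := by
    calc ((p : ℝ) - 1) ^ k * x ≤ ((p : ℝ) - 1) ^ ((D - h) + e) * x := by
          apply mul_le_mul_of_nonneg_right _ hx0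
          exact pow_le_pow_right₀ hp1 (by omega)
      _ = ((p : ℝ) - 1) ^ (D - h) * (((p : ℝ) - 1) ^ e * x) := by rw [pow_add, mul_assoc]
      _ ≤ (p : ℝ) ^ (D - h) * ((p : ℝ) ^ h * cosAvg p (g / D) ^ D) := by
          apply mul_le_mul _ hmain (by positivity) (by positivity)
          exact pow_le_pow_left₀ hp1' (by linarith) _
      _ = ((p : ℝ) * cosAvg p (g / D)) ^ D := by
          rw [← mul_assoc, ← pow_add, mul_pow]
          congr 2
          omega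
      _ ≤ 21 := hpk
  have h32 : 1 / (32 * s) ≤ (p : ℝ) - 1 := by
    have e1 : 1 / (32 * s) = (1 / (2 * s) / 8) / 2 := by
      field_simp
      norm_num
    rw [e1]
    linarith
  have h32' : (1 / (32 * s)) ^ k * x ≤ 21 := by
    refine le_trans ?_ h21
    gcongr
  calc x = ((1 / (32 * s)) ^ k * x) * (32 * s) ^ k := by
        have : (1 / (32 * s)) ^ k * (32 * s) ^ k = 1 := by
          rw [← mul_pow, one_div, inv_mul_cancel₀ (by positivity), one_pow]
        calc x = ((1 / (32 * s)) ^ k * (32 * s) ^ k) * x := by rw [this, one_mul]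
          _ = _ := by ring
    _ ≤ 21 * (32 * s) ^ k := by gcongr
    _ = 21 * 32 ^ k * s ^ k := by rw [mul_pow]; ring
    _ ≤ 21 * 32 ^ 3 * s ^ k := by
        have : (32 : ℝ) ^ k ≤ 32 ^ 3 := pow_le_pow_right₀ (by norm_num) hk
        gcongr
    _ = 688128 * s ^ k := by norm_num

/-- The case of few invariants. -/
private lemma NumC_small {D h e N : ℕ} {x s : ℝ} (hD : 1 ≤ D)
    (hx0 : 0 ≤ x) (hs0 : 0 < s) (hs1 : s ≤ 1)
    (hB1 : 8 * (h * Real.log (4 * D)) ≤ D * Real.log 2) (hDP : 1 / (2 * s) / 8 < D + 1)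
    (htame : ∀ p : ℕ, p.Prime → D + 1 < p → ¬ p ∣ N)
    (hB : ∀ (p : ℕ) [Fact p.Prime], p ≠ 2 → ¬ p ∣ N →
      ((p : ℝ) - 1) ^ e * x ≤ (p : ℝ) ^ h * (1 / 2) ^ D)
    (k : ℕ) (hk : k ≤ 3) : x ≤ 1000000 * s ^ k := by
  obtain ⟨p, hp, hp1, hp2⟩ := Nat.exists_prime_lt_and_le_two_mul (D + 1) (by omega)
  have : Fact p.Prime := ⟨hp⟩
  have hb := hB p (by omega) (htame p hp hp1)
  have hlog2 : 0.6931471803 < Real.log 2 := Real.log_two_gt_d9
  have hD1 : (1 : ℝ) ≤ D := by exact_mod_cast hD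
  have hD0 : (0 : ℝ) < D := by linarith
  have hp3 : (3 : ℝ) ≤ p := by
    have : 3 ≤ p := by omega
    exact_mod_cast this
  have hp4 : (p : ℝ) ≤ 4 * D := by
    have : p ≤ 4 * D := by omega
    exact_mod_cast this
  have hx1 : x ≤ (p : ℝ) ^ h * (1 / 2) ^ D := by
    refine le_trans ?_ hb
    apply le_mul_of_one_le_left hx0
    exact one_le_pow₀ (by linarith)
  have hhalf : ((1 : ℝ) / 2) ^ D = Real.exp (- (D * Real.log 2)) := by
    rw [Real.exp_neg, Real.exp_nat_mul, Real.exp_log (by norm_num), one_div, inv_pow]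
  have hph : (p : ℝ) ^ h ≤ Real.exp (h * Real.log (4 * D)) := by
    rw [Real.exp_nat_mul, Real.exp_log (by positivity)]
    gcongr
  have hx2 : x ≤ Real.exp (- (0.6 * D)) := by
    calc x ≤ (p : ℝ) ^ h * (1 / 2) ^ D := hx1
      _ ≤ Real.exp (h * Real.log (4 * D)) * Real.exp (- (D * Real.log 2)) := by
        rw [hhalf]
        gcongr
      _ = Real.exp (h * Real.log (4 * D) - D * Real.log 2) := by
        rw [← Real.exp_add, sub_eq_add_neg]
      _ ≤ Real.exp (- (0.6 * D)) := by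
        apply Real.exp_le_exp.2
        nlinarith
  have hcube : x ≤ 28 / (D : ℝ) ^ 3 := by
    have e1 := Real.pow_div_factorial_le_exp (0.6 * (D : ℝ)) (by positivity) 3
    have e2 : (0.6 * (D : ℝ)) ^ 3 / ((Nat.factorial 3 : ℕ) : ℝ) = 0.036 * (D : ℝ) ^ 3 := by
      norm_num [Nat.factorial]
      ring
    rw [e2] at e1
    rw [le_div_iff₀ (by positivity)]
    have e3 : x * Real.exp (0.6 * D) ≤ 1 := by
      calc x * Real.exp (0.6 * D) ≤ Real.exp (- (0.6 * D)) * Real.exp (0.6 * D) := by gcongr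
        _ = 1 := by rw [← Real.exp_add, neg_add_cancel, Real.exp_zero]
    have e4 : x * (0.036 * (D : ℝ) ^ 3) ≤ 1 := le_trans (by gcongr) e3
    linarith
  have hDs : 1 / (D : ℝ) ≤ 32 * s := by
    have e1 : 1 / (2 * s) / 8 = 1 / (16 * s) := by
      field_simp
      norm_num
    rw [e1, div_lt_iff₀ (by positivity)] at hDP
    rw [div_le_iff₀ hD0]
    nlinarith
  have hs3 : s ^ 3 ≤ s ^ k := pow_le_pow_of_le_one hs0.le hs1 hk
  calc x ≤ 28 / (D : ℝ) ^ 3 := hcube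
    _ = 28 * (1 / (D : ℝ)) ^ 3 := by rw [div_pow, one_pow]; ring
    _ ≤ 28 * (32 * s) ^ 3 := by gcongr
    _ = 917504 * s ^ 3 := by ring
    _ ≤ 1000000 * s ^ 3 := by
      have : 0 < s ^ 3 := by positivity
      linarith
    _ ≤ 1000000 * s ^ k := by gcongr

/-- The case of many invariants: the number of elements of the group. -/
private lemma NumC_log {g D h N : ℕ} {s a₀ : ℝ} (hh : 1 ≤ h) (hhD : h ≤ D) (hg : 1 ≤ g)
    (ha₀ : 0 < a₀) (hDg : (D : ℝ) ≤ (g : ℝ) ^ (1 - a₀)) (hN : 0 < N) (hs0 : 0 < s)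
    (hs : s ^ 2 = D * Real.log (D + 1) / g)
    (hB2 : D * Real.log 2 < 8 * (h * Real.log (4 * D)))
    (hr : ∀ r : ℕ, (D : ℝ) * (1 - (h : ℝ) / D) ^ r < 1 → (N : ℝ) ≤ (2 * g : ℝ) ^ r)
    (hL : 10816 * Real.log (4 * g) ^ 7 ≤ (g : ℝ) ^ a₀) : 4 * Real.log N ≤ 1 / (2 * s) := by
  have hlog2 : 0.6931471803 < Real.log 2 := Real.log_two_gt_d9
  have hg1 : (1 : ℝ) ≤ g := by exact_mod_cast hg
  have hg0 : (0 : ℝ) < g := by linarith
  have hh1 : (1 : ℝ) ≤ h := by exact_mod_cast hh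
  have hD1 : (1 : ℝ) ≤ D := by exact_mod_cast le_trans hh hhD
  have hD0 : (0 : ℝ) < D := by linarith
  have hDg' : (D : ℝ) ≤ g := by
    refine le_trans hDg ?_
    calc (g : ℝ) ^ (1 - a₀) ≤ (g : ℝ) ^ (1 : ℝ) :=
          Real.rpow_le_rpow_of_exponent_le hg1 (by linarith)
      _ = g := Real.rpow_one _
  set l := Real.log (4 * (g : ℝ)) with hl
  have hl1 : 1 ≤ l := by
    have e1 : Real.log 4 ≤ l := Real.log_le_log (by norm_num) (by linarith)
    have e2 : Real.log 4 = 2 * Real.log 2 := by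
      rw [show (4 : ℝ) = 2 ^ 2 by norm_num, Real.log_pow]
      norm_num
    linarith
  have hl0 : 0 < l := by linarith
  obtain ⟨r, hr1, hr2⟩ := num_exponent hh hhD
  have hNr := hr r hr2
  have h4D : Real.log (4 * D) ≤ l := Real.log_le_log (by positivity) (by linarith)
  have hlD : Real.log D ≤ l := Real.log_le_log hD0 (by linarith)
  have hlD0 : 0 ≤ Real.log D := Real.log_nonneg hD1
  have hDh : (D : ℝ) / h ≤ 12 * l := by
    rw [div_le_iff₀ (by linarith)]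
    have e1 : (h : ℝ) * Real.log (4 * D) ≤ h * l := by gcongr
    have e2 : (D : ℝ) * (2 / 3) ≤ D * Real.log 2 := by
      gcongr
      linarith
    nlinarith
  have hrle : (r : ℝ) ≤ 13 * l ^ 2 := by
    have e1 : (D : ℝ) / h * Real.log D ≤ 12 * l * l := by
      apply mul_le_mul hDh hlD hlD0 (by positivity)
    have e2 : 1 ≤ l ^ 2 := one_le_pow₀ hl1
    nlinarith
  have hlogN : Real.log N ≤ 13 * l ^ 3 := by
    have hN0 : (0 : ℝ) < N := by exact_mod_cast hN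
    have e1 : Real.log (2 * g) ≤ l := Real.log_le_log (by positivity) (by linarith)
    have e0 : 0 ≤ Real.log (2 * (g : ℝ)) := Real.log_nonneg (by linarith)
    calc Real.log N ≤ Real.log ((2 * g) ^ r) := Real.log_le_log hN0 hNr
      _ = r * Real.log (2 * g) := by rw [Real.log_pow]
      _ ≤ (13 * l ^ 2) * l := mul_le_mul hrle e1 e0 (by positivity)
      _ = 13 * l ^ 3 := by ring
  have hL2 : Real.log ((D : ℝ) + 1) ≤ l := Real.log_le_log (by positivity) (by linarith)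
  have hL0 : 0 ≤ Real.log ((D : ℝ) + 1) := Real.log_nonneg (by linarith)
  have hs2 : s ^ 2 * (g : ℝ) ^ a₀ ≤ l := by
    rw [hs]
    have e1 : (D : ℝ) * Real.log (D + 1) ≤ (g : ℝ) ^ (1 - a₀) * l :=
      mul_le_mul hDg hL2 hL0 (by positivity)
    have e2 : (g : ℝ) ^ (1 - a₀) * (g : ℝ) ^ a₀ = g := by
      rw [← Real.rpow_add hg0]
      norm_num
    calc (D : ℝ) * Real.log (D + 1) / g * (g : ℝ) ^ a₀
        ≤ (g : ℝ) ^ (1 - a₀) * l / g * (g : ℝ) ^ a₀ := by gcongr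
      _ = ((g : ℝ) ^ (1 - a₀) * (g : ℝ) ^ a₀) * l / g := by ring
      _ = l := by
        rw [e2]
        field_simp
  have hfin : (104 * s * l ^ 3) ^ 2 ≤ 1 := by
    have e1 : l * (104 * s * l ^ 3) ^ 2 ≤ l * 1 := by
      calc l * (104 * s * l ^ 3) ^ 2 = s ^ 2 * (10816 * l ^ 7) := by ring
        _ ≤ s ^ 2 * (g : ℝ) ^ a₀ := by gcongr
        _ ≤ l := hs2
        _ = l * 1 := by ring
    exact le_of_mul_le_mul_left e1 hl0
  have hfin2 : 104 * s * l ^ 3 ≤ 1 := by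
    have e0 : 0 ≤ 104 * s * l ^ 3 := by positivity
    nlinarith
  rw [le_div_iff₀ (by positivity)]
  calc 4 * Real.log N * (2 * s) ≤ 4 * (13 * l ^ 3) * (2 * s) := by gcongr
    _ = 104 * s * l ^ 3 := by ring
    _ ≤ 1 := hfin2

theorem pNumC (hPrime : StPrime) (hKappa : StKappa) : StNumC := by
  obtain ⟨P₀, hP⟩ := hPrime
  intro a₀ ha₀
  obtain ⟨g₀, hg₀, hLg⟩ := NumC_large a₀ ha₀
  have hg₀R : (1 : ℝ) ≤ g₀ := by exact_mod_cast hg₀
  set M : ℝ := max P₀ 1 with hM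
  have hM1 : 1 ≤ M := le_max_right _ _
  have hMP : P₀ ≤ M := le_max_left _ _
  have hM3 : 0 ≤ (2 * M) ^ 3 := by positivity
  have hG3 : 0 ≤ (2 * (g₀ : ℝ)) ^ 3 := by positivity
  refine ⟨1000000 + (2 * M) ^ 3 + (2 * g₀) ^ 3, by positivity, ?_⟩
  intro g D h e N x he heh hhD hDg hN hx0 hx1 hr htame hA hB k hk hkh
  have hh : 1 ≤ h := le_trans he heh
  have hD : 1 ≤ D := le_trans hh hhD
  have hg : 1 ≤ g := by
    by_contra hg
    have hg' : g = 0 := by omega
    obtain ⟨r, -, hr2⟩ := num_exponent hh hhD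
    have h1 := hr r hr2
    have hr0 : r ≠ 0 := by
      rintro rfl
      have : (1 : ℝ) ≤ D := by exact_mod_cast hD
      simp only [pow_zero, mul_one] at hr2
      linarith
    rw [hg', Nat.cast_zero, mul_zero, zero_pow hr0] at h1
    have : (0 : ℝ) < N := by exact_mod_cast hN
    linarith
  have hg1 : (1 : ℝ) ≤ g := by exact_mod_cast hg
  have hg0 : (0 : ℝ) < g := by linarith
  have hD1 : (1 : ℝ) ≤ D := by exact_mod_cast hD
  have hL := NumC_log_two_le hD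
  have hΛ : 0 < D * Real.log (D + 1) / (g : ℝ) := by
    apply div_pos _ hg0
    apply mul_pos (by linarith)
    linarith
  set s := Real.sqrt (D * Real.log (D + 1) / (g : ℝ)) with hsdef
  have hs0 : 0 < s := Real.sqrt_pos.2 hΛ
  have hs : s ^ 2 = D * Real.log (D + 1) / (g : ℝ) := Real.sq_sqrt hΛ.le
  have hC : ∀ c : ℝ, c ≤ 1000000 → x ≤ c * s ^ k →
      x ≤ (1000000 + (2 * M) ^ 3 + (2 * g₀) ^ 3) * s ^ k := by
    intro c hc hx
    refine le_trans hx ?_
    gcongr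
    linarith
  by_cases hgs : g < g₀
  · -- small g
    refine NumC_triv (M := 2 * g₀) hx1 (by linarith) hs0.le ?_ hk (by linarith)
    have e1 : 1 ≤ (2 * (g₀ : ℝ) * s) ^ 2 := by
      have e2 : (g : ℝ) ≤ g₀ := by exact_mod_cast hgs.le
      have e3 : 0.69 ≤ s ^ 2 * g := by
        rw [hs, div_mul_cancel₀ _ hg0.ne']
        nlinarith
      have e4 : s ^ 2 * g ≤ s ^ 2 * g₀ := by gcongr
      calc (1 : ℝ) ≤ 4 * 0.69 := by norm_num
        _ ≤ 4 * (s ^ 2 * g₀) := by linarith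
        _ ≤ 4 * (s ^ 2 * g₀) * g₀ := by
          apply le_mul_of_one_le_right (by positivity) hg₀R
        _ = (2 * (g₀ : ℝ) * s) ^ 2 := by ring
    exact (one_le_sq_iff₀ (by positivity)).mp e1
  · push Not at hgs
    by_cases hPs : 1 / (2 * s) < M
    · -- small P
      refine NumC_triv (M := 2 * M) hx1 (by linarith) hs0.le ?_ hk (by linarith)
      rw [div_lt_iff₀ (by positivity)] at hPs
      linarith
    · push Not at hPs
      have hs1 : s ≤ 1 := by
        have e1 : 1 ≤ 1 / (2 * s) := le_trans hM1 hPs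
        rw [le_div_iff₀ (by positivity)] at e1
        linarith
      have hP0 : P₀ ≤ 1 / (2 * s) := le_trans hMP hPs
      by_cases hDP : (D : ℝ) + 1 ≤ 1 / (2 * s) / 8
      · -- case A
        obtain ⟨p, hp, hp8, hpP, -, hp2⟩ := hP _ hP0 1 one_pos (by
          rw [Nat.cast_one, Real.log_one, mul_zero]
          positivity)
        have : Fact p.Prime := ⟨hp⟩
        have hpD : D + 1 < p := by
          have : (D : ℝ) + 1 < p := lt_of_le_of_lt hDP hp8
          exact_mod_cast this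
        exact hC 688128 (by norm_num) (NumC_main hKappa (by omega) hD hhD hx0 hs0 hs p hp2 hp8 hpP
          (hA p hp2 (htame p hp hpD)) k hk hkh)
      · push Not at hDP
        by_cases hB1 : 8 * (h * Real.log (4 * D)) ≤ D * Real.log 2
        · exact hC 1000000 le_rfl (NumC_small hD hx0 hs0 hs1 hB1 hDP htame hB k hk)
        · push Not at hB1
          obtain ⟨p, hp, hp8, hpP, hpN, hp2⟩ := hP _ hP0 N hN
            (NumC_log hh hhD hg ha₀ hDg hN hs0 hs hB1 hr (hLg g hgs))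
          have : Fact p.Prime := ⟨hp⟩
          exact hC 688128 (by norm_num) (NumC_main hKappa (by omega) hD hhD hx0 hs0 hs p hp2 hp8
            hpP (hA p hp2 hpN) k hk hkh)

end Pool.Agent.Lib.MP_640417_ag.Full
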