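import Pool.Agent.Lib.MP_640417_ag.Full.SpecC
import Pool.Agent.Lib.MP_640417_ag.Far.BN

/-!
# The order of the group acting on an irreducible odd space of dimension two
-/

namespace Pool.Agent.Lib.MP_640417_ag.Full

open Module Finset MulAction Pool.Agent.Lib.MP_640417_ag.Far
open scoped Matrix

section mat

/-- The matrices commuting with the rotations of the form with matrix `(x, y; y, w)`. -/
private def OrdM (x y w τ k : ℚ) : Matrix (Fin 2) (Fin 2) ℚ :=
  !![τ / 2 - k * y, -(k * w); k * x, τ / 2 + k * y]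

private lemma OrdM_inj {x y w τ k τ' k' : ℚ} (hx : 0 < x)
    (h : OrdM x y w τ k = OrdM x y w τ' k') : τ = τ' ∧ k = k' := by
  have h1 := congrFun (congrFun h 1) 0
  have h2 := congrFun (congrFun h 1) 1
  simp only [OrdM, Matrix.of_apply, Matrix.cons_val', Matrix.cons_val_zero, Matrix.cons_val_one,
    Matrix.cons_val_fin_one] at h1 h2
  have h3 : k = k' := mul_right_cancel₀ hx.ne' h1
  subst h3
  exact ⟨by linarith, rfl⟩

private lemma OrdM_mul (x y w τ k : ℚ) : OrdM x y w τ k * OrdM x y w τ (-k)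
    = (τ ^ 2 / 4 + k ^ 2 * (x * w - y ^ 2)) • 1 := by
  ext i j
  fin_cases i <;> fin_cases j <;> simp [OrdM, Matrix.mul_apply, Fin.sum_univ_two] <;> ring

private lemma OrdM_neg (x y w τ k : ℚ) : - OrdM x y w τ k = OrdM x y w (-τ) (-k) := by
  ext i j
  fin_cases i <;> fin_cases j <;> simp [OrdM] <;> ring

private lemma OrdM_two (x y w : ℚ) : OrdM x y w 2 0 = 1 := by
  ext i j
  fin_cases i <;> fin_cases j <;> simp [OrdM]

private lemma OrdM_split (x y w τ k : ℚ) :
    OrdM x y w τ k = (τ / 2) • 1 + k • OrdM x y w 0 1 := by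
  ext i j
  fin_cases i <;> fin_cases j <;> simp [OrdM]; ring

/-- There is an invariant positive definite form. -/
private lemma Ord_form {G : Type} [Group G] [Finite G] (R : G →* Matrix (Fin 2) (Fin 2) ℚ) :
    ∃ x y w : ℚ, 0 < x ∧ 0 < x * w - y ^ 2 ∧
      ∀ g, (R g)ᵀ * !![x, y; y, w] * R g = !![x, y; y, w] := by
  classical
  haveI := Fintype.ofFinite G
  set B : Matrix (Fin 2) (Fin 2) ℚ := ∑ g, (R g)ᵀ * R g with hB
  have hent : ∀ i j, B i j = ∑ g, ((R g) 0 i * (R g) 0 j + (R g) 1 i * (R g) 1 j) := by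
    intro i j
    rw [hB, Matrix.sum_apply]
    refine Finset.sum_congr rfl (fun g _ => ?_)
    rw [Matrix.mul_apply, Fin.sum_univ_two, Matrix.transpose_apply, Matrix.transpose_apply]
  have hq : ∀ u v : ℚ, u ^ 2 + v ^ 2 ≤ u ^ 2 * B 0 0 + 2 * u * v * B 0 1 + v ^ 2 * B 1 1 := by
    intro u v
    have h1 : u ^ 2 * B 0 0 + 2 * u * v * B 0 1 + v ^ 2 * B 1 1
        = ∑ g, ((R g 0 0 * u + R g 0 1 * v) ^ 2 + (R g 1 0 * u + R g 1 1 * v) ^ 2) := by
      rw [hent, hent, hent, Finset.mul_sum, Finset.mul_sum, Finset.mul_sum,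
        ← Finset.sum_add_distrib, ← Finset.sum_add_distrib]
      refine Finset.sum_congr rfl (fun g _ => ?_)
      ring
    rw [h1]
    have h2 := Finset.single_le_sum (s := Finset.univ)
      (f := fun g : G => (R g 0 0 * u + R g 0 1 * v) ^ 2 + (R g 1 0 * u + R g 1 1 * v) ^ 2)
      (fun g _ => by positivity) (Finset.mem_univ (1 : G))
    simp only [map_one, Matrix.one_apply_eq, ne_eq, zero_ne_one, one_ne_zero, not_false_eq_true,
      Matrix.one_apply_ne] at h2
    linarith
  have hx : 0 < B 0 0 := by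
    have := hq 1 0
    linarith
  have hsym : B 1 0 = B 0 1 := by
    rw [hent, hent]
    refine Finset.sum_congr rfl (fun g _ => ?_)
    ring
  have hB' : B = !![B 0 0, B 0 1; B 0 1, B 1 1] := by
    conv_lhs => rw [Matrix.eta_fin_two B, hsym]
  refine ⟨B 0 0, B 0 1, B 1 1, hx, ?_, fun g => ?_⟩
  · have h1 := hq (-B 0 1) (B 0 0)
    have h2 : 0 < B 0 0 * (B 0 0 * B 1 1 - B 0 1 ^ 2) := by
      nlinarith [sq_nonneg (B 0 1), pow_pos hx 2]
    exact (mul_pos_iff_of_pos_left hx).mp h2
  · rw [← hB']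
    rw [hB, Matrix.mul_sum, Matrix.sum_mul]
    refine Fintype.sum_equiv (Equiv.mulRight g) _ _ (fun h => ?_)
    rw [Equiv.coe_mulRight, map_mul, Matrix.transpose_mul]
    simp only [Matrix.mul_assoc]

/-- The consequence of invariance. -/
private lemma Ord_adj {x y w a b c d : ℚ}
    (h : (!![a, b; c, d] : Matrix (Fin 2) (Fin 2) ℚ)ᵀ * !![x, y; y, w] * !![a, b; c, d]
      = !![x, y; y, w]) :
    x * d - y * c = (a * d - b * c) * (a * x + c * y) ∧
    -(x * b) + y * a = (a * d - b * c) * (a * y + c * w) := by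
  have h1 : !![x, y; y, w] * (!![a, b; c, d] : Matrix (Fin 2) (Fin 2) ℚ).adjugate
      = (!![a, b; c, d] : Matrix (Fin 2) (Fin 2) ℚ).det •
        ((!![a, b; c, d] : Matrix (Fin 2) (Fin 2) ℚ)ᵀ * !![x, y; y, w]) := by
    conv_lhs => rw [← h]
    rw [Matrix.mul_assoc, Matrix.mul_adjugate, Matrix.mul_smul, Matrix.mul_one]
  rw [Matrix.adjugate_fin_two_of, Matrix.det_fin_two_of] at h1
  have e1 := congrFun (congrFun h1 0) 0
  have e2 := congrFun (congrFun h1 0) 1
  simp only [Matrix.mul_apply, Fin.sum_univ_two, Matrix.of_apply, Matrix.cons_val',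
    Matrix.cons_val_zero, Matrix.cons_val_one, Matrix.cons_val_fin_one, Matrix.smul_apply,
    Matrix.transpose_apply, smul_eq_mul] at e1 e2
  constructor
  · linarith
  · linarith

private lemma Ord_det {x y w : ℚ} (hΔ : 0 < x * w - y ^ 2) (t : Matrix (Fin 2) (Fin 2) ℚ)
    (h : tᵀ * !![x, y; y, w] * t = !![x, y; y, w]) : t.det = 1 ∨ t.det = -1 := by
  have h1 := congrArg Matrix.det h
  rw [Matrix.det_mul, Matrix.det_mul, Matrix.det_transpose, Matrix.det_fin_two_of] at h1
  have h2 : (t.det ^ 2 - 1) * (x * w - y ^ 2) = 0 := by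
    linear_combination h1
  rcases mul_eq_zero.mp h2 with h3 | h3
  · have h4 : (t.det - 1) * (t.det + 1) = 0 := by linear_combination h3
    rcases mul_eq_zero.mp h4 with h5 | h5
    · left; linarith
    · right; linarith
  · exact absurd h3 hΔ.ne'

private lemma Ord_plus {x y w : ℚ} (hx : 0 < x) (t : Matrix (Fin 2) (Fin 2) ℚ)
    (h : tᵀ * !![x, y; y, w] * t = !![x, y; y, w]) (hd : t.det = 1) :
    t = OrdM x y w t.trace (t 1 0 / x) ∧
      t.trace ^ 2 / 4 + (t 1 0 / x) ^ 2 * (x * w - y ^ 2) = 1 := by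
  obtain ⟨a, b, c, d, rfl⟩ : ∃ a b c d, t = !![a, b; c, d] := ⟨_, _, _, _, Matrix.eta_fin_two t⟩
  obtain ⟨h1, h2⟩ := Ord_adj h
  rw [Matrix.det_fin_two_of] at hd
  rw [hd] at h1 h2
  rw [Matrix.trace_fin_two_of]
  have hc : (!![a, b; c, d] : Matrix (Fin 2) (Fin 2) ℚ) 1 0 = c := rfl
  rw [hc]
  have hk : (c / x) * x = c := div_mul_cancel₀ c hx.ne'
  set k := c / x with hkdef
  have e1 : d - a = 2 * y * k := by
    have : x * (d - a) = x * (2 * y * k) := by
      rw [show x * (2 * y * k) = 2 * y * (k * x) by ring, hk]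
      linarith
    exact mul_left_cancel₀ hx.ne' this
  have e2 : b = -(k * w) := by
    have : x * b = x * (-(k * w)) := by
      rw [show x * (-(k * w)) = -(k * x * w) by ring, hk]
      linarith
    exact mul_left_cancel₀ hx.ne' this
  refine ⟨?_, ?_⟩
  · have f1 : (a + d) / 2 - k * y = a := by linarith
    have f2 : (a + d) / 2 + k * y = d := by linarith
    rw [OrdM, f1, f2, hk, ← e2]
  · have f1 : a = (a + d) / 2 - k * y := by linarith
    have f2 : d = (a + d) / 2 + k * y := by linarith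
    have h3 : a * d - b * c = (a + d) ^ 2 / 4 + k ^ 2 * (x * w - y ^ 2) := by
      rw [e2, ← hk]
      have : a * d = ((a + d) / 2 - k * y) * ((a + d) / 2 + k * y) := by
        rw [← f1, ← f2]
      rw [this]
      ring
    rw [← h3, hd]

private lemma Ord_minus {x y w : ℚ} (hx : 0 < x) (t : Matrix (Fin 2) (Fin 2) ℚ)
    (h : tᵀ * !![x, y; y, w] * t = !![x, y; y, w]) (hd : t.det = -1) :
    t.trace = 0 ∧ t * OrdM x y w 0 1 = -(OrdM x y w 0 1 * t) := by
  obtain ⟨a, b, c, d, rfl⟩ : ∃ a b c d, t = !![a, b; c, d] := ⟨_, _, _, _, Matrix.eta_fin_two t⟩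
  obtain ⟨h1, h2⟩ := Ord_adj h
  rw [Matrix.det_fin_two_of] at hd
  rw [hd] at h1 h2
  have e1 : d = -a := by
    have : x * d = x * (-a) := by linarith
    exact mul_left_cancel₀ hx.ne' this
  subst e1
  refine ⟨by rw [Matrix.trace_fin_two_of]; ring, ?_⟩
  ext i j
  fin_cases i <;> fin_cases j <;> simp [OrdM, Matrix.mul_apply, Fin.sum_univ_two] <;> linarith

/-- Traces are integers. -/
private lemma Ord_int (t s : Matrix (Fin 2) (Fin 2) ℚ) (hd : t.det = 1) (hs : s * t = 1)
    (m : ℕ) (hm : 0 < m) (ht : t ^ m = 1) (hst : s = t ^ (m - 1)) : ∃ n : ℤ, (n : ℚ) = t.trace := by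
  have h1 : s = t.adjugate := by
    calc s = s * (t * t.adjugate) := by rw [Matrix.mul_adjugate, hd, one_smul, mul_one]
      _ = t.adjugate := by rw [← mul_assoc, hs, one_mul]
  have h2 : t + s = algebraMap ℚ (Matrix (Fin 2) (Fin 2) ℚ) t.trace := by
    rw [h1, Matrix.adjugate_fin_two, Matrix.trace_fin_two, Algebra.algebraMap_eq_smul_one]
    ext i j
    fin_cases i <;> fin_cases j <;> simp <;> ring
  have h3 : IsIntegral ℤ t := IsIntegral.of_pow hm (by rw [ht]; exact isIntegral_one)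
  have h4 : IsIntegral ℤ (t + s) := by
    refine IsIntegral.of_mem_of_fg _ h3.fg_adjoin_singleton _ ?_
    rw [hst]
    have h5 : t ∈ Algebra.adjoin ℤ {t} := Algebra.subset_adjoin (Set.mem_singleton t)
    exact add_mem h5 (pow_mem h5 _)
  rw [h2] at h4
  have h6 : IsIntegral ℤ t.trace :=
    (isIntegral_algebraMap_iff (algebraMap ℚ (Matrix (Fin 2) (Fin 2) ℚ)).injective).mp h4
  obtain ⟨n, hn⟩ := IsIntegrallyClosed.isIntegral_iff.mp h6
  exact ⟨n, by simpa using hn⟩

private lemma Ord_cases {τ k D : ℚ} (hD : 0 < D) (h : τ ^ 2 / 4 + k ^ 2 * D = 1) (n : ℤ)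
    (hn : (n : ℚ) = τ) : (τ = 2 ∧ k = 0) ∨ (τ = -2 ∧ k = 0) ∨ (τ = 1 ∧ k ^ 2 * D = 3 / 4) ∨
      (τ = -1 ∧ k ^ 2 * D = 3 / 4) ∨ (τ = 0 ∧ k ^ 2 * D = 1) := by
  have h1 : 0 ≤ k ^ 2 * D := by positivity
  have h2 : (n : ℚ) ^ 2 ≤ 4 := by
    rw [hn]
    linarith
  have h3 : n ^ 2 ≤ 4 := by exact_mod_cast h2
  have h4 : n ≤ 2 := by nlinarith
  have h5 : -2 ≤ n := by nlinarith
  have h6 : k ^ 2 * D = 0 → k = 0 := by
    intro h7
    rcases mul_eq_zero.mp h7 with h8 | h8
    · exact pow_eq_zero_iff (two_ne_zero) |>.mp h8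
    · exact absurd h8 hD.ne'
  subst hn
  interval_cases n
  · right; left
    exact ⟨by norm_num, h6 (by push_cast at h; linarith)⟩
  · right; right; right; left
    exact ⟨by norm_num, by norm_num at h; linarith⟩
  · right; right; right; right
    exact ⟨by norm_num, by norm_num at h; linarith⟩
  · right; right; left
    exact ⟨by norm_num, by norm_num at h; linarith⟩
  · left
    exact ⟨by norm_num, h6 (by push_cast at h; linarith)⟩

private lemma Ord_three (r : ℚ) (h : r ^ 2 = 3) : False := by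
  have h1 : Irrational (Real.sqrt 3) := Nat.Prime.irrational_sqrt (by norm_num)
  apply h1
  refine ⟨|r|, ?_⟩
  rw [show ((|r| : ℚ) : ℝ) = |(r : ℝ)| by push_cast; rfl]
  rw [← Real.sqrt_sq_eq_abs]
  congr 1
  exact_mod_cast h

private lemma Ord_count {x y w : ℚ} (hx : 0 < x) (hD : 0 < x * w - y ^ 2)
    (P : Set (Matrix (Fin 2) (Fin 2) ℚ))
    (hP : ∀ t ∈ P, ∃ τ k, t = OrdM x y w τ k ∧ ((τ = 2 ∧ k = 0) ∨ (τ = -2 ∧ k = 0) ∨
      (τ = 1 ∧ k ^ 2 * (x * w - y ^ 2) = 3 / 4) ∨ (τ = -1 ∧ k ^ 2 * (x * w - y ^ 2) = 3 / 4) ∨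
      (τ = 0 ∧ k ^ 2 * (x * w - y ^ 2) = 1)))
    (h1 : 1 ∈ P) (hneg : ∀ t ∈ P, -t ∈ P)
    (hinv : ∀ τ k, OrdM x y w τ k ∈ P → OrdM x y w τ (-k) ∈ P)
    (hne : ∃ τ k, OrdM x y w τ k ∈ P ∧ k ≠ 0) : P.ncard = 4 ∨ P.ncard = 6 := by
  set D := x * w - y ^ 2 with hDdef
  have hinj : Function.Injective (fun p : ℚ × ℚ => OrdM x y w p.1 p.2) := by
    intro p q hpq
    obtain ⟨e1, e2⟩ := OrdM_inj hx hpq
    exact Prod.ext e1 e2
  have hP' : ∀ τ k, OrdM x y w τ k ∈ P → ((τ = 2 ∧ k = 0) ∨ (τ = -2 ∧ k = 0) ∨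
      (τ = 1 ∧ k ^ 2 * D = 3 / 4) ∨ (τ = -1 ∧ k ^ 2 * D = 3 / 4) ∨ (τ = 0 ∧ k ^ 2 * D = 1)) := by
    intro τ k h
    obtain ⟨τ', k', e, h'⟩ := hP _ h
    obtain ⟨rfl, rfl⟩ := OrdM_inj hx e
    exact h'
  have hneg' : ∀ τ k, OrdM x y w τ k ∈ P → OrdM x y w (-τ) (-k) ∈ P := by
    intro τ k h
    rw [← OrdM_neg]
    exact hneg _ h
  have hsq : ∀ k k' : ℚ, k ^ 2 * D = k' ^ 2 * D → k = k' ∨ k = -k' := by
    intro k k' h
    exact sq_eq_sq_iff_eq_or_eq_neg.mp (mul_right_cancel₀ hD.ne' h)
  have p2 : OrdM x y w 2 0 ∈ P := by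
    rw [OrdM_two]
    exact h1
  have m2 : OrdM x y w (-2) 0 ∈ P := by
    have := hneg' 2 0 p2
    rwa [neg_zero] at this
  by_cases hone : ∃ k, OrdM x y w 1 k ∈ P
  · obtain ⟨k, hk⟩ := hone
    right
    have hkD : k ^ 2 * D = 3 / 4 := by
      rcases hP' 1 k hk with h | h | h | h | h
      · norm_num at h
      · norm_num at h
      · exact h.2
      · norm_num at h
      · norm_num at h
    have hk0 : k ≠ 0 := by
      rintro rfl
      norm_num at hkD
    have hk0' : k ≠ -k := by
      intro h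
      apply hk0
      linarith
    have hset : P = (fun p : ℚ × ℚ => OrdM x y w p.1 p.2) ''
        (({(2, 0), (-2, 0), (1, k), (1, -k), (-1, k), (-1, -k)} : Finset (ℚ × ℚ)) :
          Set (ℚ × ℚ)) := by
      apply Set.Subset.antisymm
      · intro t ht
        obtain ⟨τ, k', rfl, h⟩ := hP t ht
        refine ⟨(τ, k'), ?_, rfl⟩
        simp only [Finset.coe_insert, Finset.coe_singleton, Set.mem_insert_iff, Prod.mk.injEq,
          Set.mem_singleton_iff]
        rcases h with ⟨rfl, rfl⟩ | ⟨rfl, rfl⟩ | ⟨rfl, h⟩ | ⟨rfl, h⟩ | ⟨rfl, h⟩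
        · left; exact ⟨rfl, rfl⟩
        · right; left; exact ⟨rfl, rfl⟩
        · rcases hsq k' k (by rw [h, hkD]) with rfl | rfl
          · right; right; left; exact ⟨rfl, rfl⟩
          · right; right; right; left; exact ⟨rfl, rfl⟩
        · rcases hsq k' k (by rw [h, hkD]) with rfl | rfl
          · right; right; right; right; left; exact ⟨rfl, rfl⟩
          · right; right; right; right; right; exact ⟨rfl, rfl⟩
        · exfalso
          apply Ord_three (3 * k' / (2 * k))
          have h3 : k' ^ 2 * 3 = k ^ 2 * 4 := by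
            apply mul_right_cancel₀ hD.ne'
            linear_combination 3 * h - 4 * hkD
          rw [div_pow, div_eq_iff (by positivity)]
          linear_combination 3 * h3
      · rintro _ ⟨p, hp, rfl⟩
        simp only [Finset.coe_insert, Finset.coe_singleton, Set.mem_insert_iff,
          Set.mem_singleton_iff] at hp
        rcases hp with rfl | rfl | rfl | rfl | rfl | rfl
        · exact p2
        · exact m2
        · exact hk
        · exact hinv _ _ hk
        · have := hneg' _ _ (hinv _ _ hk)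
          rwa [neg_neg] at this
        · exact hneg' _ _ hk
    rw [hset, Set.ncard_image_of_injective _ hinj, Set.ncard_coe_finset]
    have hk0'' : -k ≠ k := fun h => hk0' h.symm
    have e1 : (1 : ℚ) ≠ -1 := by norm_num
    have e2 : (2 : ℚ) ≠ -2 := by norm_num
    have e3 : (2 : ℚ) ≠ 1 := by norm_num
    have e4 : (2 : ℚ) ≠ -1 := by norm_num
    have e5 : (-2 : ℚ) ≠ 1 := by norm_num
    have e6 : (-2 : ℚ) ≠ -1 := by norm_num
    rw [Finset.card_insert_of_notMem, Finset.card_insert_of_notMem, Finset.card_insert_of_notMem,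
      Finset.card_insert_of_notMem, Finset.card_insert_of_notMem, Finset.card_singleton] <;>
    simp only [Finset.mem_insert, Finset.mem_singleton, Prod.mk.injEq, not_or, not_and] <;>
    tauto
  · left
    have hmone : ∀ k, OrdM x y w (-1) k ∉ P := by
      intro k h
      apply hone
      have := hneg' _ _ h
      rw [neg_neg] at this
      exact ⟨_, this⟩
    obtain ⟨τ, k, hk, hk0⟩ := hne
    have h0 : τ = 0 ∧ k ^ 2 * D = 1 := by
      rcases hP' τ k hk with h | h | h | h | h
      · exact absurd h.2 hk0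
      · exact absurd h.2 hk0
      · rw [h.1] at hk
        exact absurd ⟨k, hk⟩ hone
      · rw [h.1] at hk
        exact absurd hk (hmone k)
      · exact h
    obtain ⟨rfl, hkD⟩ := h0
    have hk0' : k ≠ -k := by
      intro h
      apply hk0
      linarith
    have hset : P = (fun p : ℚ × ℚ => OrdM x y w p.1 p.2) ''
        (({(2, 0), (-2, 0), (0, k), (0, -k)} : Finset (ℚ × ℚ)) : Set (ℚ × ℚ)) := by
      apply Set.Subset.antisymm
      · intro t ht
        obtain ⟨τ, k', rfl, h⟩ := hP t ht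
        refine ⟨(τ, k'), ?_, rfl⟩
        simp only [Finset.coe_insert, Finset.coe_singleton, Set.mem_insert_iff, Prod.mk.injEq,
          Set.mem_singleton_iff]
        rcases h with ⟨rfl, rfl⟩ | ⟨rfl, rfl⟩ | ⟨rfl, h⟩ | ⟨rfl, h⟩ | ⟨rfl, h⟩
        · left; exact ⟨rfl, rfl⟩
        · right; left; exact ⟨rfl, rfl⟩
        · exact absurd ⟨_, ht⟩ hone
        · exact absurd ht (hmone _)
        · rcases hsq k' k (by rw [h, hkD]) with rfl | rfl
          · right; right; left; exact ⟨rfl, rfl⟩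
          · right; right; right; exact ⟨rfl, rfl⟩
      · rintro _ ⟨p, hp, rfl⟩
        simp only [Finset.coe_insert, Finset.coe_singleton, Set.mem_insert_iff,
          Set.mem_singleton_iff] at hp
        rcases hp with rfl | rfl | rfl | rfl
        · exact p2
        · exact m2
        · exact hk
        · exact hinv _ _ hk
    rw [hset, Set.ncard_image_of_injective _ hinj, Set.ncard_coe_finset]
    have e2 : (2 : ℚ) ≠ -2 := by norm_num
    have e3 : (2 : ℚ) ≠ 0 := by norm_num
    have e5 : (-2 : ℚ) ≠ 0 := by norm_num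
    rw [Finset.card_insert_of_notMem, Finset.card_insert_of_notMem, Finset.card_insert_of_notMem,
      Finset.card_singleton] <;>
    simp only [Finset.mem_insert, Finset.mem_singleton, Prod.mk.injEq, not_or, not_and] <;>
    tauto

/-- The theorem for groups of matrices. -/
private theorem Ord_core {G : Type} [Group G] [Finite G] (R : G →* Matrix (Fin 2) (Fin 2) ℚ)
    (z : G) (hz : R z = -1)
    (hirr : ∀ A : Matrix (Fin 2) (Fin 2) ℚ, (∀ g, R g * A = A * R g) → A.det = 0 → A = 0) :
    ((∀ A, (∀ g, R g * A = A * R g) → ∃ c : ℚ, A = c • 1) →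
      (Set.range R).ncard = 8 ∨ (Set.range R).ncard = 12) ∧
    ((∃ A, (∀ g, R g * A = A * R g) ∧ ∀ c : ℚ, A ≠ c • 1) →
      (Set.range R).ncard = 4 ∨ (Set.range R).ncard = 6) := by
  obtain ⟨x, y, w, hx, hD, hinv⟩ := Ord_form R
  have hdet : ∀ g, (R g).det = 1 ∨ (R g).det = -1 := fun g => Ord_det hD (R g) (hinv g)
  have hplus : ∀ g, (R g).det = 1 → ∃ τ k, R g = OrdM x y w τ k ∧ ((τ = 2 ∧ k = 0) ∨
      (τ = -2 ∧ k = 0) ∨ (τ = 1 ∧ k ^ 2 * (x * w - y ^ 2) = 3 / 4) ∨
      (τ = -1 ∧ k ^ 2 * (x * w - y ^ 2) = 3 / 4) ∨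
      (τ = 0 ∧ k ^ 2 * (x * w - y ^ 2) = 1)) ∧ τ ^ 2 / 4 + k ^ 2 * (x * w - y ^ 2) = 1 := by
    intro g hg
    obtain ⟨h1, h2⟩ := Ord_plus hx (R g) (hinv g) hg
    have hm : 0 < orderOf g := orderOf_pos g
    have hs : R (g ^ (orderOf g - 1)) * R g = 1 := by
      rw [← map_mul, ← pow_succ, Nat.sub_add_cancel hm, pow_orderOf_eq_one, map_one]
    obtain ⟨n, hn⟩ := Ord_int (R g) (R (g ^ (orderOf g - 1))) hg hs (orderOf g) hm
      (by rw [← map_pow, pow_orderOf_eq_one, map_one]) (by rw [map_pow])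
    exact ⟨_, _, h1, Ord_cases hD h2 n hn, h2⟩
  set P : Set (Matrix (Fin 2) (Fin 2) ℚ) := {t | t ∈ Set.range R ∧ t.det = 1} with hPdef
  -- there is a rotation which is not central
  have hne : ∃ τ k, OrdM x y w τ k ∈ P ∧ k ≠ 0 := by
    by_contra hcon
    push Not at hcon
    have hone : ∀ g, (R g).det = 1 → R g = 1 ∨ R g = -1 := by
      intro g hg
      obtain ⟨τ, k, e, h, -⟩ := hplus g hg
      have hk : k = 0 := hcon τ k ⟨⟨g, e⟩, by rw [← e]; exact hg⟩
      subst hk
      rcases h with ⟨rfl, -⟩ | ⟨rfl, -⟩ | ⟨rfl, h⟩ | ⟨rfl, h⟩ | ⟨rfl, h⟩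
      · left
        rw [e, OrdM_two]
      · right
        rw [e, ← OrdM_two x y w, OrdM_neg, neg_zero]
      · norm_num at h
      · norm_num at h
      · norm_num at h
    by_cases hu : ∃ h, (R h).det = -1
    · obtain ⟨h, hh⟩ := hu
      have hcomm : ∀ g, R g * R h = R h * R g := by
        intro g
        rcases hdet g with hg | hg
        · rcases hone g hg with e | e <;> rw [e] <;> simp
        · have h1 : (R (h⁻¹ * g)).det = 1 := by
            have h2 : (R h).det * (R (h⁻¹ * g)).det = (R g).det := by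
              rw [← Matrix.det_mul, ← map_mul, mul_inv_cancel_left]
            rw [hh, hg] at h2
            linarith
          have h3 : R g = R h * R (h⁻¹ * g) := by
            rw [← map_mul, mul_inv_cancel_left]
          rcases hone _ h1 with e | e <;> rw [h3, e] <;> simp
      have h1 := hirr (R h - 1) (fun g => by rw [mul_sub, sub_mul, hcomm g, mul_one, one_mul]) (by
        have htr := (Ord_minus hx (R h) (hinv h) hh).1
        rw [Matrix.trace_fin_two] at htr
        rw [Matrix.det_fin_two] at hh ⊢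
        simp only [Matrix.sub_apply, Matrix.one_apply_eq, ne_eq, zero_ne_one, one_ne_zero,
          not_false_eq_true, Matrix.one_apply_ne, sub_zero]
        linear_combination hh - htr)
      rw [sub_eq_zero.mp h1, Matrix.det_one] at hh
      norm_num at hh
    · push Not at hu
      have h1 := hirr !![1, 0; 0, 0] (fun g => by
        rcases hdet g with hg | hg
        · rcases hone g hg with e | e <;> rw [e] <;> simp
        · exact absurd hg (hu g)) (by rw [Matrix.det_fin_two_of]; norm_num)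
      have h2 := congrFun (congrFun h1 0) 0
      simp at h2
  have hcount : P.ncard = 4 ∨ P.ncard = 6 := by
    refine Ord_count hx hD P ?_ ⟨⟨1, map_one R⟩, Matrix.det_one⟩ ?_ ?_ hne
    · rintro t ⟨⟨g, rfl⟩, hg⟩
      obtain ⟨τ, k, h1, h2, -⟩ := hplus g hg
      exact ⟨τ, k, h1, h2⟩
    · rintro t ⟨⟨g, rfl⟩, hg⟩
      refine ⟨⟨z * g, by rw [map_mul, hz, neg_one_mul]⟩, ?_⟩
      rw [Matrix.det_neg, hg]
      simp
    · rintro τ k ⟨⟨g, hg⟩, hd⟩
      obtain ⟨τ', k', h1, -, h2⟩ := hplus g (by rw [hg]; exact hd)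
      rw [hg] at h1
      obtain ⟨rfl, rfl⟩ := OrdM_inj hx h1
      have h3 : R g * OrdM x y w τ (-k) = 1 := by
        rw [hg, OrdM_mul, h2, one_smul]
      have h4 : OrdM x y w τ (-k) = R g⁻¹ := by
        calc OrdM x y w τ (-k) = R g⁻¹ * (R g * OrdM x y w τ (-k)) := by
              rw [← mul_assoc, ← map_mul, inv_mul_cancel, map_one, one_mul]
          _ = R g⁻¹ := by rw [h3, mul_one]
      refine ⟨⟨g⁻¹, h4.symm⟩, ?_⟩
      have h5 := congrArg Matrix.det h3
      rwa [Matrix.det_mul, hg, hd, one_mul, Matrix.det_one] at h5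
  constructor
  · intro hS
    -- some determinant is `-1`
    have hu : ∃ h, (R h).det = -1 := by
      by_contra hcon
      push Not at hcon
      obtain ⟨c, hc⟩ := hS (OrdM x y w 0 1) (fun g => by
        rcases hdet g with hg | hg
        · obtain ⟨τ, k, e, -⟩ := hplus g hg
          rw [e, OrdM_split, add_mul, mul_add]
          simp
        · exact absurd hg (hcon g))
      have h1 := congrFun (congrFun hc 1) 0
      simp [OrdM] at h1
      exact hx.ne' h1
    obtain ⟨h, hh⟩ := hu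
    have hinjh : Function.Injective (fun t : Matrix (Fin 2) (Fin 2) ℚ => R h * t) := by
      intro s t hst
      have h1 : R h⁻¹ * (R h * s) = R h⁻¹ * (R h * t) := congrArg (R h⁻¹ * ·) hst
      rwa [← mul_assoc, ← mul_assoc, ← map_mul, inv_mul_cancel, map_one, one_mul, one_mul] at h1
    have hfin : P.Finite := (Set.finite_range R).subset (fun t ht => ht.1)
    have hset : Set.range R = P ∪ (fun t => R h * t) '' P := by
      apply Set.Subset.antisymm
      · rintro _ ⟨g, rfl⟩
        rcases hdet g with hg | hg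
        · left
          exact ⟨⟨g, rfl⟩, hg⟩
        · right
          refine ⟨R (h⁻¹ * g), ⟨⟨_, rfl⟩, ?_⟩, ?_⟩
          · have h2 : (R h).det * (R (h⁻¹ * g)).det = (R g).det := by
              rw [← Matrix.det_mul, ← map_mul, mul_inv_cancel_left]
            rw [hh, hg] at h2
            linarith
          · show R h * R (h⁻¹ * g) = R g
            rw [← map_mul, mul_inv_cancel_left]
      · rintro t (ht | ⟨s, ⟨⟨g, rfl⟩, -⟩, rfl⟩)
        · exact ht.1
        · exact ⟨h * g, map_mul R h g⟩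
    have hdisj : Disjoint P ((fun t => R h * t) '' P) := by
      rw [Set.disjoint_left]
      rintro _ ht ⟨s, hs, rfl⟩
      have h1 : (R h * s).det = 1 := ht.2
      rw [Matrix.det_mul, hh, hs.2] at h1
      norm_num at h1
    rw [hset, Set.ncard_union_eq hdisj hfin (hfin.image _), Set.ncard_image_of_injective _ hinjh]
    rcases hcount with h1 | h1 <;> rw [h1]
    · left; rfl
    · right; rfl
  · rintro ⟨A, hA, hAc⟩
    have hall : ∀ g, (R g).det = 1 := by
      intro h
      rcases hdet h with hh | hh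
      · exact hh
      exfalso
      obtain ⟨τ, k, ⟨⟨g, hg⟩, -⟩, hk⟩ := hne
      have h1 := hA g
      rw [hg, OrdM_split, add_mul, mul_add, smul_mul_assoc, mul_smul_comm, one_mul, mul_one,
        add_right_inj, smul_mul_assoc, mul_smul_comm] at h1
      have h2 : OrdM x y w 0 1 * A = A * OrdM x y w 0 1 := smul_right_injective _ hk h1
      obtain ⟨p, q, r, s, rfl⟩ : ∃ p q r s, A = !![p, q; r, s] :=
        ⟨_, _, _, _, Matrix.eta_fin_two A⟩
      have e1 := congrFun (congrFun h2 0) 0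
      have e2 := congrFun (congrFun h2 1) 0
      simp only [OrdM, Matrix.mul_apply, Fin.sum_univ_two, Matrix.of_apply, Matrix.cons_val',
        Matrix.cons_val_zero, Matrix.cons_val_one, Matrix.cons_val_fin_one] at e1 e2
      -- `A = α + β J`
      have hr : (r / x) * x = r := div_mul_cancel₀ r hx.ne'
      set β := r / x with hβ
      have f1 : q = -(β * w) := by
        apply mul_left_cancel₀ hx.ne'
        rw [show x * -(β * w) = -(β * x * w) by ring, hr]
        linarith
      have f2 : s - p = 2 * β * y := by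
        apply mul_left_cancel₀ hx.ne'
        rw [show x * (2 * β * y) = 2 * (β * x) * y by ring, hr]
        linarith
      have hAform : (!![p, q; r, s] : Matrix (Fin 2) (Fin 2) ℚ) = OrdM x y w (p + s) β := by
        have f3 : (p + s) / 2 - β * y = p := by linarith
        have f4 : (p + s) / 2 + β * y = s := by linarith
        rw [OrdM, hr, ← f1, f3, f4]
      have h3 := hA h
      rw [hAform, OrdM_split, add_mul, mul_add, smul_mul_assoc, mul_smul_comm, one_mul, mul_one,
        add_right_inj, smul_mul_assoc, mul_smul_comm, (Ord_minus hx (R h) (hinv h) hh).2,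
        smul_neg] at h3
      have h4' : (2 : ℚ) • (β • (OrdM x y w 0 1 * R h)) = 0 := by
        rw [two_smul]
        nth_rewrite 1 [← h3]
        exact neg_add_cancel _
      have h4 : β • (OrdM x y w 0 1 * R h) = 0 := (smul_eq_zero.mp h4').resolve_left two_ne_zero
      rcases smul_eq_zero.mp h4 with h5 | h5
      · apply hAc ((p + s) / 2)
        rw [hAform, h5, OrdM_split, zero_smul, add_zero]
      · have h6 := congrArg Matrix.det h5
        rw [Matrix.det_mul, hh, Matrix.det_fin_two, Matrix.det_fin_two] at h6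
        simp only [OrdM, Matrix.of_apply, Matrix.cons_val', Matrix.cons_val_zero,
          Matrix.cons_val_one, Matrix.cons_val_fin_one, Matrix.zero_apply] at h6
        linarith
    have hset : Set.range R = P := by
      apply Set.Subset.antisymm
      · rintro _ ⟨g, rfl⟩
        exact ⟨⟨g, rfl⟩, hall g⟩
      · exact fun t ht => ht.1
    rw [hset]
    exact hcount

end mat

section space

variable {S G : Type} [Group G] [MulAction G S]

/-- The hom of the group to the endomorphisms of a stable space. -/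
private noncomputable def OrdRho (U : Submodule ℚ (S → ℚ)) (hU : IsStab G U) :
    G →* (U →ₗ[ℚ] U) :=
  (LinearEquiv.automorphismGroup.toLinearMapMonoidHom).comp (actHom U hU)

private lemma OrdRho_apply (U : Submodule ℚ (S → ℚ)) (hU : IsStab G U) (γ : G) (f : U) (s : S) :
    (OrdRho U hU γ f).1 s = f.1 (γ⁻¹ • s) := rfl

private lemma Ord_comm_iff (U : Submodule ℚ (S → ℚ)) (hU : IsStab G U) (θ : U →ₗ[ℚ] U) :
    θ ∈ endF G U ↔ ∀ γ, OrdRho U hU γ * θ = θ * OrdRho U hU γ := by
  rw [mem_endF]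
  constructor
  · intro h γ
    apply LinearMap.ext
    intro f
    apply Subtype.ext
    funext s
    rw [Module.End.mul_apply, Module.End.mul_apply, OrdRho_apply]
    exact (h f (OrdRho U hU γ f) γ⁻¹ (fun s => OrdRho_apply U hU γ f s) s).symm
  · intro h f f' γ hff s
    have h1 : f' = OrdRho U hU γ⁻¹ f := by
      apply Subtype.ext
      funext t
      rw [OrdRho_apply, inv_inv, hff]
    have h2 := LinearMap.congr_fun (h γ⁻¹) f
    rw [Module.End.mul_apply, Module.End.mul_apply, ← h1] at h2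
    rw [← h2, OrdRho_apply, inv_inv]

/-- Schur's lemma. -/
private lemma Ord_schur (U : Submodule ℚ (S → ℚ)) (hU : IsIrr G U) (θ : U →ₗ[ℚ] U)
    (hθ : θ ∈ endF G U) (h0 : LinearMap.ker θ ≠ ⊥) : θ = 0 := by
  have hU' : IsStab G ((LinearMap.ker θ).map U.subtype) := by
    rintro _ ⟨f, hf, rfl⟩ γ
    refine ⟨⟨fun s => f.1 (γ • s), hU.2.1 f.1 f.2 γ⟩, ?_, rfl⟩
    have hf' : θ f = 0 := hf
    show θ _ = 0
    apply Subtype.ext
    funext s
    rw [hθ f _ γ (fun s => rfl) s, hf']
    rfl
  have hle : (LinearMap.ker θ).map U.subtype ≤ U := by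
    rintro _ ⟨f, -, rfl⟩
    exact f.2
  rcases hU.2.2 _ hle hU' with h | h
  · exfalso
    apply h0
    rw [Submodule.eq_bot_iff]
    intro f hf
    have h1 : f.1 ∈ (LinearMap.ker θ).map U.subtype := ⟨f, hf, rfl⟩
    rw [h, Submodule.mem_bot] at h1
    exact Subtype.ext h1
  · apply LinearMap.ext
    intro f
    have hf : f.1 ∈ (LinearMap.ker θ).map U.subtype := by
      rw [h]
      exact f.2
    obtain ⟨f', hf', e⟩ := hf
    have : f' = f := Subtype.ext e
    rw [← this]
    exact hf'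

end space

/-- **The order of the group acting on an irreducible odd space of dimension two.** -/
theorem pOrd : StOrd := by
  intro S G _ _ _ _ z U hU hodd h2
  have hUs := hU.2.1
  let b : Basis (Fin 2) ℚ U := Module.finBasisOfFinrankEq ℚ U h2
  let T := LinearMap.toMatrixAlgEquiv b
  let R : G →* Matrix (Fin 2) (Fin 2) ℚ := ((T : (U →ₗ[ℚ] U) →* Matrix (Fin 2) (Fin 2) ℚ)).comp
    (OrdRho U hUs)
  have hR : ∀ g, R g = T (OrdRho U hUs g) := fun g => rfl
  have hcomm : ∀ A : Matrix (Fin 2) (Fin 2) ℚ, (∀ g, R g * A = A * R g) ↔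
      T.symm A ∈ endF G U := by
    intro A
    rw [Ord_comm_iff U hUs]
    refine forall_congr' (fun g => ?_)
    rw [hR]
    constructor
    · intro h
      apply T.injective
      rw [map_mul, map_mul, AlgEquiv.apply_symm_apply, h]
    · intro h
      have := congrArg T h
      rwa [map_mul, map_mul, AlgEquiv.apply_symm_apply] at this
  have hz : R z = -1 := by
    have h1 : OrdRho U hUs z = -1 := by
      apply LinearMap.ext
      intro f
      apply Subtype.ext
      funext s
      rw [OrdRho_apply]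
      show f.1 (z⁻¹ • s) = - f.1 s
      have := hodd f.1 f.2 (z⁻¹ • s)
      rw [smul_inv_smul] at this
      rw [this, neg_neg]
    have h3 : (-1 : U →ₗ[ℚ] U) = (-1 : ℚ) • (1 : U →ₗ[ℚ] U) := by
      apply LinearMap.ext
      intro f
      exact (neg_one_smul ℚ f).symm
    rw [hR, h1, h3, map_smul, map_one, neg_smul, one_smul]
  have hirr : ∀ A : Matrix (Fin 2) (Fin 2) ℚ, (∀ g, R g * A = A * R g) → A.det = 0 → A = 0 := by
    intro A hA hdet
    have h1 := (hcomm A).mp hA
    have h2 : LinearMap.ker (T.symm A) ≠ ⊥ := by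
      apply ne_of_gt
      apply LinearMap.bot_lt_ker_of_det_eq_zero
      rw [← LinearMap.det_toMatrix b]
      have : LinearMap.toMatrix b b (T.symm A) = A := T.apply_symm_apply A
      rw [this, hdet]
    have h3 := Ord_schur U hU _ h1 h2
    have := congrArg T h3
    rwa [AlgEquiv.apply_symm_apply, map_zero] at this
  have hindex : (kerSub G U).index = (Set.range R).ncard := by
    rw [← actHom_ker U hUs, Subgroup.index_ker]
    have h1 : Set.range R = (fun q : (U ≃ₗ[ℚ] U) => T (q : U →ₗ[ℚ] U)) ''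
        ((actHom U hUs).range : Set (U ≃ₗ[ℚ] U)) := by
      ext A
      constructor
      · rintro ⟨g, rfl⟩
        exact ⟨actHom U hUs g, ⟨g, rfl⟩, rfl⟩
      · rintro ⟨_, ⟨g, rfl⟩, rfl⟩
        exact ⟨g, rfl⟩
    rw [h1, Set.ncard_image_of_injective]
    · rfl
    · intro q q' h
      exact LinearEquiv.toLinearMap_injective (T.injective h)
  obtain ⟨hc1, hc2⟩ := Ord_core R z hz hirr
  rw [hindex]
  set C : Submodule ℚ (Matrix (Fin 2) (Fin 2) ℚ) :=
    (endF G U).map (T.toLinearEquiv : (U →ₗ[ℚ] U) →ₗ[ℚ] Matrix (Fin 2) (Fin 2) ℚ) with hC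
  have hfr : finrank ℚ C = finrank ℚ (endF G U) :=
    (T.toLinearEquiv.submoduleMap (endF G U)).finrank_eq.symm
  have hCmem : ∀ A, (∀ g, R g * A = A * R g) ↔ A ∈ C := by
    intro A
    rw [hcomm]
    constructor
    · intro h
      exact ⟨T.symm A, h, T.apply_symm_apply A⟩
    · rintro ⟨θ, hθ, rfl⟩
      have : T.symm (T θ) = θ := T.symm_apply_apply θ
      rw [show T.symm ((T.toLinearEquiv : (U →ₗ[ℚ] U) →ₗ[ℚ] Matrix (Fin 2) (Fin 2) ℚ) θ) = θ
        from this]
      exact hθ
  have h1C : (1 : Matrix (Fin 2) (Fin 2) ℚ) ∈ C := (hCmem 1).mp (fun g => by simp)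
  rw [← hfr]
  constructor
  · intro he
    apply hc1
    intro A hA
    have h3 : (⟨1, h1C⟩ : C) ≠ 0 := by
      intro h4
      have h5 : (1 : Matrix (Fin 2) (Fin 2) ℚ) = 0 := congrArg Subtype.val h4
      have h6 := congrFun (congrFun h5 0) 0
      simp at h6
    obtain ⟨c, hc⟩ := (finrank_eq_one_iff_of_nonzero' _ h3).mp he ⟨A, (hCmem A).mp hA⟩
    exact ⟨c, (congrArg Subtype.val hc).symm⟩
  · intro he
    apply hc2
    by_contra hcon
    push Not at hcon
    have h3 : finrank ℚ C ≤ 1 := by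
      refine finrank_le_one (⟨1, h1C⟩ : C) (fun A => ?_)
      obtain ⟨c, hc⟩ := hcon A.1 ((hCmem _).mpr A.2)
      exact ⟨c, Subtype.ext hc.symm⟩
    omega

end Pool.Agent.Lib.MP_640417_ag.Full
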