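import Pool.Agent.Lib.MP_640417_ag.Full.SpecA

/-!
# An endomorphism modulo `p` with a minimal polynomial of large degree
-/

namespace Pool.Agent.Lib.MP_640417_ag.Full

open Module Finset MulAction Pool.Agent.Lib.MP_640417_ag.Far

section abs

/-- A finite division algebra is generated by one element. -/
theorem primEl_gen (k D : Type*) [Field k] [DivisionRing D] [Finite D] [Algebra k D] :
    ∃ α : D, (minpoly k α).natDegree = finrank k D := by
  let : Field D := littleWedderburn D
  have : Finite k := Finite.of_injective (algebraMap k D) (algebraMap k D).injective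
  have : FiniteDimensional k D := Module.Finite.of_finite
  obtain ⟨α, hα⟩ := Field.exists_primitive_element_of_finite_top k D
  exact ⟨α, (Field.primitive_element_iff_minpoly_natDegree_eq k α).1 hα⟩

/-- Comparison of minimal polynomials. -/
theorem primEl_minpoly_le {k R V W : Type*} [Field k] [Ring R] [Algebra k R] [AddCommGroup V]
    [Module k V] [AddCommGroup W] [Module k W] [Module R W] [IsScalarTower k R W]
    [FiniteDimensional k V]
    (α : Module.End R W) (φ : Module.End k V) (ι : W →ₗ[k] V) (hι : Function.Injective ι)
    (h : ∀ w, φ (ι w) = ι (α w)) : (minpoly k α).natDegree ≤ (minpoly k φ).natDegree := by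
  have key : ∀ (P : Polynomial k) (w : W),
      (Polynomial.aeval φ P) (ι w) = ι ((Polynomial.aeval α P) w) := by
    intro P
    induction P using Polynomial.induction_on' with
    | add p q hp hq =>
      intro w
      rw [map_add, map_add, LinearMap.add_apply, LinearMap.add_apply, map_add, hp, hq]
    | monomial n a =>
      intro w
      have h1 : ∀ (m : ℕ) (w : W), (φ ^ m) (ι w) = ι ((α ^ m) w) := by
        intro m
        induction m with
        | zero => intro w; simp
        | succ m ih =>
          intro w
          rw [pow_succ, pow_succ, Module.End.mul_apply, Module.End.mul_apply, h, ih]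
      rw [Polynomial.aeval_monomial, Polynomial.aeval_monomial, ← Algebra.smul_def,
        ← Algebra.smul_def, LinearMap.smul_apply, LinearMap.smul_apply, map_smul, h1]
  have hz : Polynomial.aeval α (minpoly k φ) = 0 := by
    ext w
    apply hι
    rw [← key, minpoly.aeval]
    simp
  have hint : IsIntegral k φ := Algebra.IsIntegral.isIntegral φ
  have hdvd := minpoly.dvd k α hz
  exact Polynomial.natDegree_le_of_dvd hdvd (minpoly.ne_zero hint)

/-- Schur's lemma: dimension of a space of maps between simple modules. -/
theorem primEl_schur {k R V W : Type*} [Field k] [Ring R] [Algebra k R] [AddCommGroup V]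
    [Module k V] [Module R V] [IsScalarTower k R V] [AddCommGroup W] [Module k W] [Module R W]
    [IsScalarTower k R W] [IsSimpleModule R V] [IsSimpleModule R W] [Finite V] [Finite W] :
    finrank k (V →ₗ[R] W) ≤ finrank k (Module.End R V) := by
  have : Finite (V →ₗ[R] W) := Finite.of_injective (fun f => (f : V → W))
    DFunLike.coe_injective
  have : Finite (Module.End R V) := Finite.of_injective (fun f => (f : V → V))
    DFunLike.coe_injective
  have : FiniteDimensional k (V →ₗ[R] W) := Module.Finite.of_finite
  have : FiniteDimensional k (Module.End R V) := Module.Finite.of_finite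
  by_cases h0 : ∃ g : V →ₗ[R] W, g ≠ 0
  · obtain ⟨g, hg⟩ := h0
    let e : V ≃ₗ[R] W := LinearEquiv.ofBijective g (LinearMap.bijective_of_ne_zero hg)
    let Φ : (V →ₗ[R] W) →ₗ[k] (Module.End R V) :=
      { toFun := fun f => e.symm.toLinearMap ∘ₗ f
        map_add' := by
          intro f f'
          ext v
          simp
        map_smul' := by
          intro c f
          ext v
          simp only [LinearMap.comp_apply, LinearMap.smul_apply, RingHom.id_apply]
          rw [← algebraMap_smul R c (f v), map_smul, algebraMap_smul] }
    apply LinearMap.finrank_le_finrank_of_injective (f := Φ)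
    intro f f' hff
    ext v
    have := congrArg (fun θ : Module.End R V => θ v) hff
    simpa [Φ] using this
  · push Not at h0
    have : Subsingleton (V →ₗ[R] W) := ⟨fun a b => by rw [h0 a, h0 b]⟩
    rw [finrank_zero_of_subsingleton]
    exact Nat.zero_le _

/-- The abstract form. -/
theorem primEl_abs {k R V : Type*} [Field k] [Ring R] [Algebra k R] [AddCommGroup V]
    [Module k V] [Module R V] [IsScalarTower k R V] [Finite V] [Nontrivial V]
    [IsSemisimpleModule R V] (w₀ : ℕ)
    (hw : ∀ W : Submodule R V, W ≠ ⊥ → w₀ ≤ finrank k W) :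
    ∃ φ : V →ₗ[R] V, finrank k (Module.End R V) * w₀ ^ 2
      ≤ (minpoly k (φ.restrictScalars k : Module.End k V)).natDegree * finrank k V ^ 2 := by
  classical
  have : Module.Finite R V := Module.Finite.of_finite
  have : Module.Finite k V := Module.Finite.of_finite
  obtain ⟨n, S, e, hS⟩ := IsSemisimpleModule.exists_linearEquiv_fin_dfinsupp R V
  -- `n` is positive
  have hn : 0 < n := by
    rcases Nat.eq_zero_or_pos n with h | h
    · subst h
      obtain ⟨v, hv⟩ := exists_ne (0 : V)
      exact absurd (e.injective (by
        apply DFinsupp.ext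
        intro i
        exact i.elim0 : e v = e 0)) hv
    · exact h
  have : Nonempty (Fin n) := ⟨⟨0, hn⟩⟩
  have hfV : ∀ i, Finite (S i) := fun i => inferInstance
  have hfE : ∀ i, Finite (Module.End R (S i)) := fun i =>
    Finite.of_injective (fun f => (f : S i → S i)) DFunLike.coe_injective
  have hfH : ∀ i j, Finite (S i →ₗ[R] S j) := fun i j =>
    Finite.of_injective (fun f => (f : S i → S j)) DFunLike.coe_injective
  have hfHk : ∀ i j, Module.Finite k (S i →ₗ[R] S j) := fun i j => Module.Finite.of_finite
  -- the index with the largest field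
  obtain ⟨i₀, hi₀⟩ := Finite.exists_max (fun i : Fin n => finrank k (Module.End R (S i)))
  -- inclusions and projections
  let ι : ∀ i, S i →ₗ[R] V := fun i => e.symm.toLinearMap ∘ₗ
    (DFinsupp.lsingle (R := R) (M := fun j => S j) i)
  let π : ∀ i, V →ₗ[R] S i := fun i => (DFinsupp.lapply (R := R) (M := fun j => S j) i) ∘ₗ
    e.toLinearMap
  have hπι : ∀ i (v : S i), π i (ι i v) = v := by
    intro i v
    simp [π, ι]
  have hsum : ∀ v : V, v = ∑ i, ι i (π i v) := by
    intro v
    apply e.injective
    rw [map_sum]
    apply DFinsupp.ext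
    intro j
    rw [DFinsupp.finsetSum_apply]
    simp only [ι, π, LinearMap.comp_apply, LinearEquiv.coe_coe, LinearEquiv.apply_symm_apply,
      DFinsupp.lsingle_apply, DFinsupp.lapply_apply]
    rw [Finset.sum_eq_single j]
    · rw [DFinsupp.single_eq_same]
    · intro i _ hij
      rw [DFinsupp.single_eq_of_ne (Ne.symm hij)]
    · intro h
      exact absurd (Finset.mem_univ j) h
  -- the dimension of the endomorphism algebra
  have h1 : finrank k (Module.End R V) ≤ n ^ 2 * finrank k (Module.End R (S i₀)) := by
    let Ψ : Module.End R V →ₗ[k] (∀ i j, (S i →ₗ[R] S j)) :=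
      { toFun := fun θ i j => (π j) ∘ₗ θ ∘ₗ (ι i)
        map_add' := by
          intro θ θ'
          ext i j v
          simp
        map_smul' := by
          intro c θ
          funext i j
          ext v
          simp only [LinearMap.comp_apply, LinearMap.smul_apply, RingHom.id_apply, Pi.smul_apply]
          rw [← algebraMap_smul R c (θ (ι i v)), map_smul, algebraMap_smul] }
    have hΨ : Function.Injective Ψ := by
      intro θ θ' h
      ext v
      rw [hsum v, map_sum, map_sum]
      apply Finset.sum_congr rfl
      intro i _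
      rw [hsum (θ (ι i (π i v))), hsum (θ' (ι i (π i v)))]
      apply Finset.sum_congr rfl
      intro j _
      have := congrArg (fun F : (∀ i j, (S i →ₗ[R] S j)) => F i j (π i v)) h
      have h' : π j (θ (ι i (π i v))) = π j (θ' (ι i (π i v))) := this
      rw [h']
    have h2 := LinearMap.finrank_le_finrank_of_injective hΨ
    refine h2.trans ?_
    rw [Module.finrank_pi_fintype]
    calc ∑ i, finrank k (∀ j, (S i →ₗ[R] S j))
        ≤ ∑ i : Fin n, n * finrank k (Module.End R (S i₀)) := by
          apply Finset.sum_le_sum
          intro i _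
          rw [Module.finrank_pi_fintype]
          calc ∑ j, finrank k (S i →ₗ[R] S j)
              ≤ ∑ j : Fin n, finrank k (Module.End R (S i₀)) := by
                apply Finset.sum_le_sum
                intro j _
                have := hS i
                have := hS j
                exact primEl_schur.trans (hi₀ i)
            _ = n * finrank k (Module.End R (S i₀)) := by simp
      _ = n ^ 2 * finrank k (Module.End R (S i₀)) := by
          simp [pow_two, mul_assoc]
  -- the number of summands
  have h3 : n * w₀ ≤ finrank k V := by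
    let Φ : V →ₗ[k] (∀ i, S i) :=
      { toFun := fun v i => π i v
        map_add' := by
          intro v v'
          funext i
          simp
        map_smul' := by
          intro c v
          funext i
          simp only [RingHom.id_apply, Pi.smul_apply]
          rw [← algebraMap_smul R c v, map_smul, algebraMap_smul] }
    have hΦ : Function.Surjective Φ := by
      intro F
      refine ⟨∑ i, ι i (F i), ?_⟩
      funext j
      change π j (∑ i, ι i (F i)) = F j
      rw [map_sum, Finset.sum_eq_single j]
      · exact hπι j (F j)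
      · intro i _ hij
        simp only [ι, π, LinearMap.comp_apply, LinearEquiv.coe_coe, LinearEquiv.apply_symm_apply,
          DFinsupp.lsingle_apply, DFinsupp.lapply_apply]
        rw [DFinsupp.single_eq_of_ne (Ne.symm hij)]
      · intro h
        exact absurd (Finset.mem_univ j) h
    have h4 := LinearMap.finrank_le_finrank_of_surjective hΦ
    rw [Module.finrank_pi_fintype] at h4
    refine le_trans ?_ h4
    calc n * w₀ = ∑ i : Fin n, w₀ := by simp
      _ ≤ ∑ i, finrank k (S i) := by
        apply Finset.sum_le_sum
        intro i _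
        apply hw
        have := hS i
        exact (Submodule.nontrivial_iff_ne_bot).1 (IsSimpleModule.nontrivial R (S i))
  -- the generator
  have := hS i₀
  obtain ⟨α, hα⟩ := primEl_gen k (Module.End R (S i₀))
  let φ : V →ₗ[R] V := (ι i₀) ∘ₗ α ∘ₗ (π i₀)
  refine ⟨φ, ?_⟩
  have h5 : finrank k (Module.End R (S i₀))
      ≤ (minpoly k (φ.restrictScalars k : Module.End k V)).natDegree := by
    rw [← hα]
    apply primEl_minpoly_le α _ ((ι i₀).restrictScalars k)
    · intro v v' h
      have := congrArg (π i₀) h
      simpa [hπι] using this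
    · intro w
      simp [φ, hπι]
  calc finrank k (Module.End R V) * w₀ ^ 2
      ≤ (n ^ 2 * finrank k (Module.End R (S i₀))) * w₀ ^ 2 := Nat.mul_le_mul_right _ h1
    _ = finrank k (Module.End R (S i₀)) * (n * w₀) ^ 2 := by ring
    _ ≤ (minpoly k (φ.restrictScalars k : Module.End k V)).natDegree * finrank k V ^ 2 := by
        gcongr

end abs

section conc

variable {ι F V : Type*} [Field F] [AddCommGroup V] [Module F V]

theorem primEl_comm (T : ι → Module.End F V) (θ : Module.End F V)
    (hθ : ∀ i v, θ (T i v) = T i (θ v)) (r : Algebra.adjoin F (Set.range T)) (f : V) :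
    θ (r • f) = r • θ f := by
  obtain ⟨r, hr⟩ := r
  change θ (r f) = r (θ f)
  induction hr using Algebra.adjoin_induction generalizing f with
  | mem x hx =>
    obtain ⟨i, rfl⟩ := hx
    exact hθ i f
  | algebraMap c =>
    rw [Module.algebraMap_end_apply, Module.algebraMap_end_apply, map_smul]
  | add x y hx hy ihx ihy =>
    rw [LinearMap.add_apply, LinearMap.add_apply, map_add, ihx, ihy]
  | mul x y hx hy ihx ihy =>
    rw [Module.End.mul_apply, Module.End.mul_apply, ihx, ihy]

/-- Equivariant endomorphisms as module endomorphisms. -/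
def primEl_lin (T : ι → Module.End F V) (θ : Module.End F V)
    (hθ : ∀ i v, θ (T i v) = T i (θ v)) : V →ₗ[Algebra.adjoin F (Set.range T)] V where
  toFun := θ
  map_add' := map_add θ
  map_smul' r f := primEl_comm T θ hθ r f

theorem primEl_T_mem (T : ι → Module.End F V) (i : ι) :
    T i ∈ Algebra.adjoin F (Set.range T) := Algebra.subset_adjoin ⟨i, rfl⟩

theorem primEl_sp_stab (T : ι → Module.End F V)
    (N : Submodule (Algebra.adjoin F (Set.range T)) V) (i : ι) (f : V) (hf : f ∈ N) :
    T i f ∈ N :=
  N.smul_mem (⟨T i, primEl_T_mem T i⟩ : Algebra.adjoin F (Set.range T)) hf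

/-- Complete reducibility. -/
theorem primEl_semisimple (T : ι → Module.End F V)
    (h : ∀ W : Submodule F V, (∀ i, ∀ v ∈ W, T i v ∈ W) →
      ∃ π : Module.End F V, (∀ i v, π (T i v) = T i (π v)) ∧ (∀ f, π f ∈ W) ∧
        ∀ f ∈ W, π f = f) :
    IsSemisimpleModule (Algebra.adjoin F (Set.range T)) V := by
  have hc : ComplementedLattice (Submodule (Algebra.adjoin F (Set.range T)) V) := by
    constructor
    intro N
    obtain ⟨π, hπ, h1, h2⟩ := h (N.restrictScalars F) (primEl_sp_stab T N)
    let g : V →ₗ[Algebra.adjoin F (Set.range T)] N :=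
      (primEl_lin T π hπ).codRestrict N (fun f => h1 f)
    refine ⟨LinearMap.ker g, ?_⟩
    apply LinearMap.isCompl_of_proj
    intro x
    apply Subtype.ext
    exact h2 x.1 x.2
  exact { hc with }

theorem primEl_main [Finite V] [Nontrivial V] (T : ι → Module.End F V)
    (h : ∀ W : Submodule F V, (∀ i, ∀ v ∈ W, T i v ∈ W) →
      ∃ π : Module.End F V, (∀ i v, π (T i v) = T i (π v)) ∧ (∀ f, π f ∈ W) ∧
        ∀ f ∈ W, π f = f) (w₀ : ℕ)
    (hw : ∀ W : Submodule F V, W ≠ ⊥ → (∀ i, ∀ v ∈ W, T i v ∈ W) → w₀ ≤ finrank F W)
    (E : Submodule F (Module.End F V)) (hE : ∀ θ, θ ∈ E ↔ ∀ i v, θ (T i v) = T i (θ v)) :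
    ∃ φ ∈ E, finrank F E * w₀ ^ 2
      ≤ (minpoly F φ).natDegree * finrank F V ^ 2 := by
  have hss := primEl_semisimple T h
  have hfd : Module.Finite F V := Module.Finite.of_finite
  obtain ⟨φ, hφ⟩ := primEl_abs (k := F) (R := Algebra.adjoin F (Set.range T)) (V := V) w₀ (by
    intro W hW
    refine hw (W.restrictScalars F) ?_ (primEl_sp_stab T W)
    intro h0
    apply hW
    rw [eq_bot_iff]
    intro f hf
    have h2 : f ∈ W.restrictScalars F := hf
    rw [h0] at h2
    exact h2)
  refine ⟨φ.restrictScalars F, ?_, ?_⟩
  · rw [hE]
    intro i v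
    exact φ.map_smul (⟨T i, primEl_T_mem T i⟩ : Algebra.adjoin F (Set.range T)) v
  · refine le_trans ?_ hφ
    apply Nat.mul_le_mul_right
    have hfE : Finite (Module.End (Algebra.adjoin F (Set.range T)) V) :=
      Finite.of_injective (fun f => (f : V → V)) DFunLike.coe_injective
    have hfk : Module.Finite F (Module.End (Algebra.adjoin F (Set.range T)) V) :=
      Module.Finite.of_finite
    let Φ : E →ₗ[F] Module.End (Algebra.adjoin F (Set.range T)) V :=
      { toFun := fun θ => primEl_lin T θ.1 ((hE θ.1).1 θ.2)
        map_add' := by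
          intro θ θ'
          rfl
        map_smul' := by
          intro c θ
          rfl }
    apply LinearMap.finrank_le_finrank_of_injective (f := Φ)
    intro θ θ' hθ
    apply Subtype.ext
    ext1 f
    exact congrArg (fun g : Module.End (Algebra.adjoin F (Set.range T)) V => g f) hθ

end conc

section fin

variable {S G : Type} [Group G] [MulAction G S] {F : Type} [Field F]

/-- Translation by an element of the group. -/
def primEl_T (M : Submodule F (S → F)) (hM : IsStab G M) (γ : G) : Module.End F M where
  toFun f := ⟨fun s => f.1 (γ • s), hM f.1 f.2 γ⟩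
  map_add' f f' := by
    apply Subtype.ext
    funext s
    rfl
  map_smul' c f := by
    apply Subtype.ext
    funext s
    rfl

theorem primEl_mem (M : Submodule F (S → F)) (hM : IsStab G M) (θ : Module.End F M) :
    θ ∈ endF G M ↔ ∀ γ f, θ (primEl_T M hM γ f) = primEl_T M hM γ (θ f) := by
  constructor
  · intro h γ f
    apply Subtype.ext
    funext s
    exact (mem_endF G M θ).1 h f (primEl_T M hM γ f) γ (fun _ => rfl) s
  · intro h f f' γ hff s
    have h1 : f' = primEl_T M hM γ f := by
      apply Subtype.ext
      funext s
      exact hff s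
    rw [h1, h]
    rfl

end fin

theorem pPrimEl (hMaschke : StMaschke) : StPrimEl := by
  intro S G _ _ _ _ p _ M hM0 hM hp w₀ hw
  have hfin : Finite M := inferInstance
  have hnt : Nontrivial M := (Submodule.nontrivial_iff_ne_bot).2 hM0
  have key : ∀ W : Submodule (ZMod p) M, (∀ γ : G, ∀ v ∈ W, primEl_T M hM γ v ∈ W) →
      IsStab G (W.map M.subtype) := by
    rintro W hW _ ⟨f, hf, rfl⟩ γ
    exact ⟨_, hW γ f hf, rfl⟩
  have hle : ∀ W : Submodule (ZMod p) M, W.map M.subtype ≤ M := by
    rintro W _ ⟨f, _, rfl⟩
    exact f.2
  refine primEl_main (primEl_T M hM) ?_ w₀ ?_ (endF G M) (primEl_mem M hM)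
  · intro W hW
    obtain ⟨π, hπ, h1, h2⟩ := hMaschke S G p M hM hp (W.map M.subtype) (key W hW) (hle W)
    refine ⟨π, (primEl_mem M hM π).1 hπ, ?_, ?_⟩
    · intro f
      obtain ⟨f', hf', h3⟩ := h1 f
      have : f' = π f := Subtype.ext h3
      rw [← this]
      exact hf'
    · intro f hf
      exact h2 f ⟨f, hf, rfl⟩
  · intro W hW hW'
    have h1 := hw (W.map M.subtype) ?_ (hle W) (key W hW')
    · rwa [Submodule.finrank_map_subtype_eq] at h1
    · intro h0
      apply hW
      rw [eq_bot_iff]
      intro f hf
      have h2 : f.1 ∈ W.map M.subtype := ⟨f, hf, rfl⟩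
      rw [h0, Submodule.mem_bot] at h2
      rw [Submodule.mem_bot]
      exact Subtype.ext h2

end Pool.Agent.Lib.MP_640417_ag.Full
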