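import Pool.Agent.Lib.MP_640417_ag.Full.SpecA

/-!
# All CM fields: a small real space
-/

namespace Pool.Agent.Lib.MP_640417_ag.Full

open Module Finset MulAction Pool.Agent.Lib.MP_640417_ag.Far

section schur

variable {S : Type} {G : Type} [Group G] [MulAction G S] {F : Type} [Field F]
  {U : Submodule F (S → F)}

private lemma real_ker_bot (hU : IsIrr G U) {θ : U →ₗ[F] U} (hθ : θ ∈ endF G U) (h0 : θ ≠ 0) :
    LinearMap.ker θ = ⊥ := by
  set K : Submodule F (S → F) := (LinearMap.ker θ).map U.subtype with hK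
  have hstab : IsStab G K := by
    rintro f ⟨u, hu, rfl⟩ γ
    refine ⟨⟨fun s => u.1 (γ • s), hU.2.1 _ u.2 γ⟩, ?_, rfl⟩
    show θ _ = 0
    apply Subtype.ext
    funext s
    have h1 := hθ u ⟨fun s => u.1 (γ • s), hU.2.1 _ u.2 γ⟩ γ (fun s => rfl) s
    rw [h1]
    have h2 : θ u = 0 := hu
    rw [h2]
    rfl
  have hle : K ≤ U := by
    rintro f ⟨u, _, rfl⟩
    exact u.2
  rcases hU.2.2 K hle hstab with h | h
  · rw [eq_bot_iff]
    intro u hu
    have h1 : U.subtype u ∈ K := ⟨u, hu, rfl⟩
    rw [h, Submodule.mem_bot] at h1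
    rw [Submodule.mem_bot]
    exact Subtype.ext h1
  · exfalso
    apply h0
    ext1 u
    have h1 : u.1 ∈ K := by rw [h]; exact u.2
    obtain ⟨w, hw, hwu⟩ := h1
    have h2 : w = u := Subtype.ext hwu
    rw [← h2]
    exact hw

private lemma real_pow_mem {θ : Module.End F U} (hθ : θ ∈ endF G U) (n : ℕ) :
    (θ ^ n : Module.End F U) ∈ endF G U := by
  induction n with
  | zero => exact one_mem_endF G U
  | succ n ih =>
    rw [pow_succ]
    exact comp_mem_endF G U _ _ ih hθ

private lemma real_aeval_mem {θ : Module.End F U} (hθ : θ ∈ endF G U) (q : Polynomial F) :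
    (Polynomial.aeval θ q : Module.End F U) ∈ endF G U := by
  induction q using Polynomial.induction_on' with
  | add p q hp hq =>
    rw [map_add]
    exact Submodule.add_mem _ hp hq
  | monomial n a =>
    rw [Polynomial.aeval_monomial, ← Algebra.smul_def]
    exact Submodule.smul_mem _ _ (real_pow_mem hθ n)

private lemma real_minpoly_irr [FiniteDimensional F U] (hU : IsIrr G U) {θ : Module.End F U}
    (hθ : θ ∈ endF G U) : Irreducible (minpoly F θ) := by
  have hne : Nontrivial U := Submodule.nontrivial_iff_ne_bot.2 hU.1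
  have hint : IsIntegral F θ := Algebra.IsIntegral.isIntegral θ
  have hmon := minpoly.monic hint
  have key : ∀ a b : Polynomial F, minpoly F θ = a * b → Polynomial.aeval θ b = 0 → IsUnit a := by
    intro a b hab hb
    have hb0 : b ≠ 0 := by
      rintro rfl
      rw [mul_zero] at hab
      exact hmon.ne_zero hab
    obtain ⟨c, hc⟩ := minpoly.dvd F θ hb
    rw [hab] at hc
    have h1 : b * (a * c) = b * 1 := by
      rw [mul_one]; conv_rhs => rw [hc]
      ring
    exact IsUnit.of_mul_eq_one _ (mul_left_cancel₀ hb0 h1)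
  refine ⟨minpoly.not_isUnit F θ, fun a b hab => ?_⟩
  by_cases hb : Polynomial.aeval θ b = 0
  · exact Or.inl (key a b hab hb)
  · right
    apply key b a (by rw [hab, mul_comm])
    by_contra ha
    have h0 : (Polynomial.aeval θ a) * (Polynomial.aeval θ b) = (0 : Module.End F U) := by
      rw [← map_mul, ← hab]
      exact minpoly.aeval F θ
    have ka := LinearMap.ker_eq_bot.1 (real_ker_bot hU (real_aeval_mem hθ a) ha)
    have kb := LinearMap.ker_eq_bot.1 (real_ker_bot hU (real_aeval_mem hθ b) hb)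
    obtain ⟨u, hu⟩ := exists_ne (0 : U)
    apply hu
    apply kb
    apply ka
    have h1 := LinearMap.congr_fun h0 u
    rw [map_zero, map_zero]
    exact h1

end schur

section coord

variable {S : Type} {G : Type} [Fintype S] [Group G] [MulAction G S]
  {U : Submodule ℚ (S → ℚ)} (K : Type) [Field K] [Algebra ℚ K]

/-- Translation by `γ`. -/
private def realRho (hU : IsStab G U) (γ : G) : U →ₗ[ℚ] U where
  toFun f := ⟨fun s => f.1 (γ • s), hU _ f.2 γ⟩
  map_add' _ _ := rfl
  map_smul' _ _ := rfl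

/-- The matrix of a map from `U` to the space of all functions. -/
private noncomputable def realMat (A : U →ₗ[ℚ] (S → ℚ)) : Matrix S (Fin (finrank ℚ U)) ℚ :=
  Matrix.of fun s i => A (finBasis ℚ U i) s

/-- Its extension to the field `K`. -/
private noncomputable def realEv (A : U →ₗ[ℚ] (S → ℚ)) :
    (Fin (finrank ℚ U) → K) →ₗ[K] (S → K) :=
  ((realMat A).map (algebraMap ℚ K)).mulVecLin

private lemma realEv_apply (A : U →ₗ[ℚ] (S → ℚ)) (c : Fin (finrank ℚ U) → K) (s : S) :
    realEv K A c s = ∑ i, algebraMap ℚ K (A (finBasis ℚ U i) s) * c i := rfl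

private lemma realEv_injective (A : U →ₗ[ℚ] (S → ℚ)) (hA : Function.Injective A) :
    Function.Injective (realEv K A) := by
  classical
  obtain ⟨B, hB⟩ := LinearMap.exists_leftInverse_of_injective A (LinearMap.ker_eq_bot.2 hA)
  set NB : Matrix (Fin (finrank ℚ U)) S ℚ :=
    Matrix.of fun i s => (finBasis ℚ U).repr (B (Pi.single s 1)) i with hNB
  have h1 : NB * realMat A = 1 := by
    ext i j
    rw [Matrix.mul_apply]
    have h2 : ∑ s, NB i s * realMat A s j = (finBasis ℚ U).repr (B (A (finBasis ℚ U j))) i := by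
      have h3 : A (finBasis ℚ U j) = ∑ s, A (finBasis ℚ U j) s • (Pi.single s 1 : S → ℚ) := by
        funext t
        rw [Finset.sum_apply]
        simp [Pi.single_apply]
      conv_rhs => rw [h3]
      rw [map_sum, map_sum, Finsupp.finsetSum_apply]
      apply Finset.sum_congr rfl
      intro s _
      rw [map_smul, map_smul, Finsupp.smul_apply, smul_eq_mul, mul_comm]
      rfl
    rw [h2]
    have h4 := LinearMap.congr_fun hB (finBasis ℚ U j)
    rw [LinearMap.comp_apply, LinearMap.id_apply] at h4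
    rw [h4, Basis.repr_self, Finsupp.single_apply, Matrix.one_apply]
    simp only [eq_comm]
  have h5 : NB.map (algebraMap ℚ K) * (realMat A).map (algebraMap ℚ K) = 1 := by
    rw [← Matrix.map_mul, h1, Matrix.map_one _ (map_zero _) (map_one _)]
  intro c c' hcc
  have h6 : ∀ c, (NB.map (algebraMap ℚ K)).mulVec (realEv K A c) = c := by
    intro c
    show (NB.map (algebraMap ℚ K)).mulVec (((realMat A).map (algebraMap ℚ K)).mulVec c) = c
    rw [Matrix.mulVec_mulVec, h5, Matrix.one_mulVec]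
  rw [← h6 c, ← h6 c', hcc]

/-- The matrix of an endomorphism over `K`. -/
private noncomputable def realT (θ : U →ₗ[ℚ] U) :
    Matrix (Fin (finrank ℚ U)) (Fin (finrank ℚ U)) K :=
  (LinearMap.toMatrix (finBasis ℚ U) (finBasis ℚ U) θ).map (algebraMap ℚ K)

private lemma realT_comm (θ ρ : U →ₗ[ℚ] U) (h : θ ∘ₗ ρ = ρ ∘ₗ θ) :
    realT K θ * realT K ρ = realT K ρ * realT K θ := by
  classical
  unfold realT
  rw [← Matrix.map_mul, ← Matrix.map_mul, ← LinearMap.toMatrix_comp _ (finBasis ℚ U),
    ← LinearMap.toMatrix_comp _ (finBasis ℚ U), h]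

private lemma realEv_rho (hU : IsStab G U) (γ : G) (A : U →ₗ[ℚ] (S → ℚ))
    (hA : ∀ f s, A (realRho hU γ f) s = A f (γ • s)) (c : Fin (finrank ℚ U) → K) (s : S) :
    realEv K A ((realT K (realRho hU γ)).mulVec c) s = realEv K A c (γ • s) := by
  classical
  have h1 : ∀ j, ∑ i, A (finBasis ℚ U i) s *
      LinearMap.toMatrix (finBasis ℚ U) (finBasis ℚ U) (realRho hU γ) i j =
      A (finBasis ℚ U j) (γ • s) := by
    intro j
    rw [← hA]
    conv_rhs => rw [← (finBasis ℚ U).sum_repr (realRho hU γ (finBasis ℚ U j))]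
    rw [map_sum, Finset.sum_apply]
    apply Finset.sum_congr rfl
    intro i _
    rw [map_smul, Pi.smul_apply, smul_eq_mul, LinearMap.toMatrix_apply, mul_comm]
  rw [realEv_apply, realEv_apply]
  have h2 : ∀ i, (realT K (realRho hU γ)).mulVec c i = ∑ j, algebraMap ℚ K
      (LinearMap.toMatrix (finBasis ℚ U) (finBasis ℚ U) (realRho hU γ) i j) * c j :=
    fun i => rfl
  simp only [h2, Finset.mul_sum]
  rw [Finset.sum_comm]
  apply Finset.sum_congr rfl
  intro j _
  rw [← h1 j, map_sum, Finset.sum_mul]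
  apply Finset.sum_congr rfl
  intro i _
  rw [map_mul, mul_assoc]

end coord

section eig

/-- The dimensions of independent subspaces. -/
private lemma real_sum_finrank {V ι : Type} [AddCommGroup V] [Module ℂ V] [FiniteDimensional ℂ V]
    (E : ι → Submodule ℂ V) (hE : iSupIndep E) (Z : Finset ι) :
    ∑ l ∈ Z, finrank ℂ (E l) ≤ finrank ℂ V := by
  classical
  have h : ∑ l ∈ Z, finrank ℂ (E l) = finrank ℂ ↥(⨆ l ∈ (Z : Set ι), E l) := by
    induction Z using Finset.induction_on with
    | empty =>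
      have h0 : (⨆ l ∈ ((∅ : Finset ι) : Set ι), E l) = ⊥ := by simp
      rw [Finset.sum_empty, h0, finrank_bot]
    | insert a Z ha ih =>
      rw [Finset.sum_insert ha, ih]
      have h1 : (⨆ l ∈ ((insert a Z : Finset ι) : Set ι), E l) = E a ⊔ ⨆ l ∈ (Z : Set ι), E l := by
        rw [Finset.coe_insert, _root_.iSup_insert]
      have h2 := Submodule.finrank_sup_add_finrank_inf_eq (E a) (⨆ l ∈ (Z : Set ι), E l)
      have h3 : E a ⊓ ⨆ l ∈ (Z : Set ι), E l = ⊥ :=
        disjoint_iff.1 (hE.disjoint_biSup (by simpa using ha))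
      rw [h3, finrank_bot, add_zero] at h2
      rw [h1, h2]
  rw [h]
  exact Submodule.finrank_le _

/-- A small eigenspace over the complex numbers. -/
private lemma real_eig {d : ℕ} (T : Matrix (Fin d) (Fin d) ℚ) (μ : Polynomial ℚ)
    (hμ : Irreducible μ) (hdvd : μ ∣ T.charpoly) :
    ∃ l : ℂ, (Module.End.eigenspace (T.map (algebraMap ℚ ℂ)).toLin' l) ≠ ⊥ ∧
      finrank ℂ (Module.End.eigenspace (T.map (algebraMap ℚ ℂ)).toLin' l) * μ.natDegree ≤ d := by
  classical
  set TC := T.map (algebraMap ℚ ℂ) with hTC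
  have hsep : μ.Separable := hμ.separable
  have hcard := Polynomial.card_rootSet_eq_natDegree (K := ℂ) hsep (IsAlgClosed.splits _)
  set Z : Finset ℂ := (μ.rootSet ℂ).toFinset with hZ
  have hZc : Z.card = μ.natDegree := by
    rw [hZ, Set.toFinset_card, hcard]
  have hdeg : 0 < μ.natDegree := hμ.natDegree_pos
  have hne : ∀ l ∈ Z, Module.End.eigenspace TC.toLin' l ≠ ⊥ := by
    intro l hl
    have hroot : Polynomial.aeval l μ = 0 := by
      rw [hZ, Set.mem_toFinset, Polynomial.mem_rootSet] at hl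
      exact hl.2
    have h1 : TC.charpoly.eval l = 0 := by
      rw [hTC, Matrix.charpoly_map, Polynomial.eval_map_algebraMap]
      obtain ⟨q, hq⟩ := hdvd
      rw [hq, map_mul, hroot, zero_mul]
    rw [Matrix.eval_charpoly] at h1
    obtain ⟨v, hv, hv0⟩ := Matrix.exists_mulVec_eq_zero_iff.2 h1
    intro hbot
    apply hv
    have h2 : v ∈ Module.End.eigenspace TC.toLin' l := by
      rw [Module.End.mem_eigenspace_iff, Matrix.toLin'_apply]
      rw [Matrix.sub_mulVec, sub_eq_zero] at hv0
      rw [← hv0]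
      ext i
      simp [Matrix.mulVec_diagonal]
    rw [hbot, Submodule.mem_bot] at h2
    exact h2
  have hsum := real_sum_finrank _ (Module.End.eigenspaces_iSupIndep TC.toLin') Z
  rw [finrank_fin_fun] at hsum
  by_contra hcon
  push Not at hcon
  have h3 : ∀ l ∈ Z, d < finrank ℂ (Module.End.eigenspace TC.toLin' l) * μ.natDegree :=
    fun l hl => hcon l (hne l hl)
  have h4 : ∑ l ∈ Z, d < ∑ l ∈ Z, finrank ℂ (Module.End.eigenspace TC.toLin' l) * μ.natDegree := by
    apply Finset.sum_lt_sum_of_nonempty _ h3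
    rw [← Finset.card_pos, hZc]
    exact hdeg
  rw [Finset.sum_const, smul_eq_mul, ← Finset.sum_mul, hZc] at h4
  have h5 := Nat.mul_le_mul_right μ.natDegree hsum
  rw [mul_comm d] at h5
  omega

end eig

section final

variable {S G : Type} [Fintype S] [Group G] [MulAction G S] {U : Submodule ℚ (S → ℚ)}

/-- A bad sign function for `U` is bad for every stable subspace of the real span of `U`. -/
private lemma real_transfer (z : G) (hU : IsStab G U) (Y : Submodule ℝ (S → ℝ))
    (hY : IsStab G Y) (hYU : Y ≤ LinearMap.range (realEv ℝ U.subtype)) :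
    badSet z U ⊆ badSetF z Y := by
  rintro e ⟨he, U', hU', ⟨θ, hθ⟩, hperp⟩
  refine ⟨he, ?_⟩
  set A : U →ₗ[ℚ] (S → ℚ) := U'.subtype ∘ₗ θ.toLinearMap with hA
  have hAinj : Function.Injective A := U'.injective_subtype.comp θ.injective
  have hArho : ∀ γ f s, A (realRho hU γ f) s = A f (γ • s) := fun γ f s =>
    hθ f (realRho hU γ f) γ (fun s => rfl) s
  have hev := realEv_injective ℝ U.subtype U.injective_subtype
  have hev' := realEv_injective ℝ A hAinj
  set ev := realEv ℝ U.subtype with hevdef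
  set ev' := realEv ℝ A with hevdef'
  set W := Y.comap ev with hW
  have hR : ∀ γ c s, ev ((realT ℝ (realRho hU γ)).mulVec c) s = ev c (γ • s) := fun γ c s =>
    realEv_rho ℝ hU γ U.subtype (fun f s => rfl) c s
  have hR' : ∀ γ c s, ev' ((realT ℝ (realRho hU γ)).mulVec c) s = ev' c (γ • s) := fun γ c s =>
    realEv_rho ℝ hU γ A (hArho γ) c s
  have hWR : ∀ γ, ∀ c ∈ W, (realT ℝ (realRho hU γ)).mulVec c ∈ W := by
    intro γ c hc
    show ev ((realT ℝ (realRho hU γ)).mulVec c) ∈ Y
    have h1 : ev ((realT ℝ (realRho hU γ)).mulVec c) = fun s => ev c (γ • s) :=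
      funext fun s => hR γ c s
    rw [h1]
    exact hY _ hc γ
  have hYW : W.map ev = Y := Submodule.map_comap_eq_of_le hYU
  refine ⟨W.map ev', ?_, ?_, ?_⟩
  · rintro _ ⟨c, hc, rfl⟩ γ
    exact ⟨_, hWR γ c hc, funext fun s => hR' γ c s⟩
  · let e1 : W ≃ₗ[ℝ] W.map ev := Submodule.equivMapOfInjective ev hev W
    let e2 : W ≃ₗ[ℝ] W.map ev' := Submodule.equivMapOfInjective ev' hev' W
    let eY : Y ≃ₗ[ℝ] W := (LinearEquiv.ofEq Y (W.map ev) hYW.symm).trans e1.symm
    have hc1 : ∀ f : Y, ev (eY f).1 = f.1 := by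
      intro f
      have h1 : (e1 (e1.symm (LinearEquiv.ofEq Y (W.map ev) hYW.symm f))).1 = f.1 := by
        rw [LinearEquiv.apply_symm_apply]
        rfl
      rw [← h1]
      rfl
    refine ⟨eY.trans e2, ?_⟩
    intro f f' γ hff s
    have hc : (eY f').1 = (realT ℝ (realRho hU γ)).mulVec (eY f).1 := by
      apply hev
      funext t
      rw [hR, hc1, hc1]
      exact hff t
    show ev' (eY f').1 s = ev' (eY f).1 (γ • s)
    rw [hc, hR']
  · rintro _ ⟨c, hc, rfl⟩
    have h1 : ∀ i, ∑ s, A (finBasis ℚ U i) s * (e s : ℚ) = 0 := fun i =>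
      hperp _ (θ (finBasis ℚ U i)).2
    have h2 : ∀ i, ∑ s, algebraMap ℚ ℝ (A (finBasis ℚ U i) s) * (e s : ℝ) = 0 := by
      intro i
      have h3 := congrArg (algebraMap ℚ ℝ) (h1 i)
      rw [map_sum, map_zero] at h3
      rw [← h3]
      apply Finset.sum_congr rfl
      intro s _
      rw [map_mul, map_intCast]
    simp only [hevdef', realEv_apply, Finset.sum_mul]
    rw [Finset.sum_comm]
    apply Finset.sum_eq_zero
    intro i _
    have h4 : ∀ s, algebraMap ℚ ℝ (A (finBasis ℚ U i) s) * c i * (e s : ℝ) =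
        c i * (algebraMap ℚ ℝ (A (finBasis ℚ U i) s) * (e s : ℝ)) := fun s => by ring
    simp only [h4]
    rw [← Finset.mul_sum, h2 i, mul_zero]

/-- A minimal nonzero stable subspace. -/
private lemma real_exists_irr (Y₀ : Submodule ℝ (S → ℝ)) (h0 : Y₀ ≠ ⊥) (hst : IsStab G Y₀) :
    ∃ Y ≤ Y₀, IsIrr G Y := by
  classical
  have hex : ∃ n : ℕ, ∃ Y : Submodule ℝ (S → ℝ), Y ≤ Y₀ ∧ Y ≠ ⊥ ∧ IsStab G Y ∧
      finrank ℝ Y = n := ⟨_, Y₀, le_rfl, h0, hst, rfl⟩
  obtain ⟨Y, hle, hne, hYst, hfin⟩ := Nat.find_spec hex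
  refine ⟨Y, hle, hne, hYst, fun Y' hY' hst' => ?_⟩
  by_cases hb : Y' = ⊥
  · exact Or.inl hb
  · right
    have h1 := Nat.find_min' hex ⟨Y', hY'.trans hle, hb, hst', rfl⟩
    rw [← hfin] at h1
    exact Submodule.eq_of_le_of_finrank_le hY' h1

end final

theorem pReal : StReal := by
  classical
  intro S G _ _ _ _ z U hU hodd θ hθ
  have hUst : IsStab G U := hU.2.1
  set μ := minpoly ℚ θ with hμ
  have hirr : Irreducible μ := real_minpoly_irr hU hθ
  set T := LinearMap.toMatrix (finBasis ℚ U) (finBasis ℚ U) θ with hT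
  have hdvd : μ ∣ T.charpoly := by
    rw [hT, LinearMap.charpoly_toMatrix]
    exact LinearMap.minpoly_dvd_charpoly θ
  obtain ⟨l, hne, hdim⟩ := real_eig T μ hirr hdvd
  set E := Module.End.eigenspace (T.map (algebraMap ℚ ℂ)).toLin' l with hE
  set reL : (Fin (finrank ℚ U) → ℂ) →ₗ[ℝ] (Fin (finrank ℚ U) → ℝ) :=
    Complex.reLm.compLeft (Fin (finrank ℚ U)) with hreL
  have hreL_apply : ∀ v i, reL v i = (v i).re := fun _ _ => rfl
  set W := (E.restrictScalars ℝ).map reL with hW
  set ev := realEv ℝ U.subtype with hev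
  have hevi : Function.Injective ev := realEv_injective ℝ U.subtype U.injective_subtype
  have hWne : W ≠ ⊥ := by
    obtain ⟨v, hv, hv0⟩ := Submodule.exists_mem_ne_zero_of_ne_bot hne
    intro hbot
    apply hv0
    have h1 : ∀ w ∈ E, ∀ i, (w i).re = 0 := by
      intro w hw i
      have h2 : reL w ∈ W := ⟨w, hw, rfl⟩
      rw [hbot, Submodule.mem_bot] at h2
      exact congrFun h2 i
    funext i
    apply Complex.ext
    · exact h1 v hv i
    · have h3 := h1 (Complex.I • v) (E.smul_mem _ hv) i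
      rw [Pi.smul_apply, smul_eq_mul, Complex.I_mul_re, neg_eq_zero] at h3
      exact h3
  have hWdim : finrank ℝ W * μ.natDegree ≤ 2 * finrank ℚ U := by
    have h1 : finrank ℝ W ≤ finrank ℝ (E.restrictScalars ℝ) := Submodule.finrank_map_le _ _
    have h2 : finrank ℝ (E.restrictScalars ℝ) = 2 * finrank ℂ E := finrank_real_of_complex E
    rw [h2] at h1
    calc finrank ℝ W * μ.natDegree ≤ (2 * finrank ℂ E) * μ.natDegree :=
          Nat.mul_le_mul_right _ h1
      _ = 2 * (finrank ℂ E * μ.natDegree) := by ring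
      _ ≤ 2 * finrank ℚ U := Nat.mul_le_mul_left 2 hdim
  have hWR : ∀ γ : G, ∀ c ∈ W, (realT ℝ (realRho hUst γ)).mulVec c ∈ W := by
    rintro γ _ ⟨v, hv, rfl⟩
    refine ⟨(realT ℂ (realRho hUst γ)).mulVec v, ?_, ?_⟩
    · have hcomm : θ ∘ₗ realRho hUst γ = realRho hUst γ ∘ₗ θ := by
        ext1 f
        apply Subtype.ext
        funext s
        exact hθ f (realRho hUst γ f) γ (fun s => rfl) s
      have h1 : T.map (algebraMap ℚ ℂ) * realT ℂ (realRho hUst γ) =
          realT ℂ (realRho hUst γ) * T.map (algebraMap ℚ ℂ) :=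
        realT_comm ℂ θ (realRho hUst γ) hcomm
      have hv' : (T.map (algebraMap ℚ ℂ)).mulVec v = l • v := by
        have := hv
        rw [SetLike.mem_coe, Submodule.restrictScalars_mem, hE, Module.End.mem_eigenspace_iff,
          Matrix.toLin'_apply] at this
        exact this
      rw [SetLike.mem_coe, Submodule.restrictScalars_mem, hE, Module.End.mem_eigenspace_iff,
        Matrix.toLin'_apply, Matrix.mulVec_mulVec, h1, ← Matrix.mulVec_mulVec, hv',
        Matrix.mulVec_smul]
    · funext i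
      rw [hreL_apply]
      show (∑ j, realT ℂ (realRho hUst γ) i j * v j).re =
        ∑ j, realT ℝ (realRho hUst γ) i j * (reL v) j
      rw [Complex.re_sum]
      apply Finset.sum_congr rfl
      intro j _
      rw [hreL_apply]
      show (((LinearMap.toMatrix (finBasis ℚ U) (finBasis ℚ U) (realRho hUst γ) i j : ℚ) : ℂ)
        * v j).re = ((LinearMap.toMatrix (finBasis ℚ U) (finBasis ℚ U) (realRho hUst γ) i j : ℚ)
        : ℝ) * (v j).re
      have h5 : ∀ q : ℚ, ((q : ℂ) * v j).re = (q : ℝ) * (v j).re := by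
        intro q
        have : (q : ℂ) = ((q : ℝ) : ℂ) := by norm_cast
        rw [this, Complex.re_ofReal_mul]
      exact h5 _
  have hY0ne : W.map ev ≠ ⊥ := by
    intro h
    apply hWne
    rw [eq_bot_iff]
    intro c hc
    have h1 : ev c ∈ W.map ev := ⟨c, hc, rfl⟩
    rw [h, Submodule.mem_bot] at h1
    rw [Submodule.mem_bot]
    apply hevi
    rw [h1, map_zero]
  have hY0st : IsStab G (W.map ev) := by
    rintro _ ⟨c, hc, rfl⟩ γ
    exact ⟨_, hWR γ c hc, funext fun s => realEv_rho ℝ hUst γ U.subtype (fun f s => rfl) c s⟩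
  obtain ⟨Y, hYle, hYirr⟩ := real_exists_irr (W.map ev) hY0ne hY0st
  have hYrange : Y ≤ LinearMap.range ev := hYle.trans (LinearMap.map_le_range)
  refine ⟨Y, hYirr, ?_, ?_, real_transfer z hUst Y hYirr.2.1 hYrange⟩
  · intro f hf s
    obtain ⟨c, rfl⟩ := hYrange hf
    rw [hev, realEv_apply, realEv_apply, ← Finset.sum_neg_distrib]
    apply Finset.sum_congr rfl
    intro i _
    have h1 : U.subtype (finBasis ℚ U i) (z • s) = - U.subtype (finBasis ℚ U i) s :=
      hodd _ (finBasis ℚ U i).2 s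
    rw [h1, map_neg, neg_mul]
  · have h1 : finrank ℝ Y ≤ finrank ℝ W :=
      (Submodule.finrank_mono hYle).trans (Submodule.finrank_map_le _ _)
    exact (Nat.mul_le_mul_right _ h1).trans hWdim

end Pool.Agent.Lib.MP_640417_ag.Full
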