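import Pool.Agent.Lib.MP_640417_ag.Full.SpecG

/-!
# Schur's lemma for real irreducible spaces of functions
-/

namespace Pool.Agent.Lib.MP_640417_ag.Full

open Module Finset MulAction Pool.Agent.Lib.MP_640417_ag.Far

/-- A symmetric operator has an eigenvector. -/
private lemma SchurR_eig {V : Type} [AddCommGroup V] [Module ℝ V] [FiniteDimensional ℝ V]
    [Nontrivial V] (B : V →ₗ[ℝ] V →ₗ[ℝ] ℝ) (hsymm : ∀ x y, B x y = B y x)
    (hpos : ∀ x, 0 ≤ B x x) (hdef : ∀ x, B x x = 0 → x = 0)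
    (e : V →ₗ[ℝ] V) (he : ∀ x y, B (e x) y = B x (e y)) :
    ∃ (μ : ℝ) (v : V), v ≠ 0 ∧ e v = μ • v := by
  let core : InnerProductSpace.Core ℝ V :=
    { inner := fun x y => B x y
      conj_inner_symm := fun x y => by
        simp only [conj_trivial]
        exact hsymm y x
      re_inner_nonneg := fun x => by
        simpa using hpos x
      add_left := fun x y z => by
        simp only [map_add, LinearMap.add_apply]
      smul_left := fun x y r => by
        simp only [map_smul, LinearMap.smul_apply, smul_eq_mul, conj_trivial]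
      definite := fun x hx => hdef x hx }
  let _ : NormedAddCommGroup V := core.toNormedAddCommGroup
  let _ : InnerProductSpace ℝ V := InnerProductSpace.ofCore core.toCore
  have hsym : e.IsSymmetric := fun x y => he x y
  obtain ⟨v, hv⟩ := hsym.hasEigenvalue_iSup_of_finiteDimensional.exists_hasEigenvector
  exact ⟨_, v, hv.2, hv.apply_eq_smul⟩

section

variable {S G : Type} [Fintype S] [Group G] [MulAction G S]

/-- The standard form on a space of functions. -/
private noncomputable def SchurRForm (U : Submodule ℝ (S → ℝ)) : U →ₗ[ℝ] U →ₗ[ℝ] ℝ :=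
  LinearMap.mk₂ ℝ (fun u f => ∑ s, u.1 s * f.1 s)
    (fun a b c => by
      simp only [Submodule.coe_add, Pi.add_apply, add_mul, Finset.sum_add_distrib])
    (fun c a b => by
      simp only [Submodule.coe_smul, Pi.smul_apply, smul_eq_mul, mul_assoc, Finset.mul_sum])
    (fun a b c => by
      simp only [Submodule.coe_add, Pi.add_apply, mul_add, Finset.sum_add_distrib])
    (fun c a b => by
      simp only [Submodule.coe_smul, Pi.smul_apply, smul_eq_mul, mul_left_comm, Finset.mul_sum])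

private lemma SchurRForm_apply (U : Submodule ℝ (S → ℝ)) (u f : U) :
    SchurRForm U u f = ∑ s, u.1 s * f.1 s := rfl

private lemma SchurR_sq (u : S → ℝ) (h : ∑ s, u s * u s = 0) : u = 0 := by
  have h1 := (Finset.sum_eq_zero_iff_of_nonneg (fun s _ => mul_self_nonneg (u s))).mp h
  funext s
  exact mul_self_eq_zero.mp (h1 s (Finset.mem_univ s))

private lemma SchurRForm_def (U : Submodule ℝ (S → ℝ)) (u : U) (h : SchurRForm U u u = 0) :
    u = 0 := by
  rw [SchurRForm_apply] at h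
  exact Subtype.ext (SchurR_sq u.1 h)

private lemma SchurRForm_symm (U : Submodule ℝ (S → ℝ)) (u f : U) :
    SchurRForm U u f = SchurRForm U f u := by
  rw [SchurRForm_apply, SchurRForm_apply]
  exact Finset.sum_congr rfl (fun s _ => mul_comm _ _)

private lemma SchurRForm_inj (U : Submodule ℝ (S → ℝ)) : Function.Injective (SchurRForm U) := by
  rw [injective_iff_map_eq_zero]
  intro u hu
  apply SchurRForm_def
  rw [hu]
  rfl

/-- The identification of a space with its dual. -/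
private noncomputable def SchurREquiv (U : Submodule ℝ (S → ℝ)) : U ≃ₗ[ℝ] Dual ℝ U :=
  LinearEquiv.ofBijective (SchurRForm U) ⟨SchurRForm_inj U,
    (LinearMap.injective_iff_surjective_of_finrank_eq_finrank
      (Subspace.dual_finrank_eq (K := ℝ) (V := U)).symm).mp (SchurRForm_inj U)⟩

private lemma SchurREquiv_apply (U : Submodule ℝ (S → ℝ)) (u f : U) :
    SchurREquiv U u f = ∑ s, u.1 s * f.1 s := rfl

private lemma SchurR_shift (γ : G) (F : S → ℝ) : ∑ t, F (γ • t) = ∑ t, F t :=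
  Equiv.sum_comp (MulAction.toPerm γ) F

/-- Third part. -/
private lemma SchurR_three (Y : Submodule ℝ (S → ℝ)) (hY : IsStab G Y)
    (θ : Y →ₗ[ℝ] (S → ℝ)) (hθ : θ ∈ homF G Y) (θ' : Y →ₗ[ℝ] (S → ℝ)) (hθ' : θ' ∈ homF G Y) :
    ∃ d ∈ endF G Y, ∀ y y' : Y, ∑ s, θ y s * θ' y' s = ∑ s, y.1 s * (d y').1 s := by
  let Ψ : Y →ₗ[ℝ] Y →ₗ[ℝ] ℝ :=
    LinearMap.mk₂ ℝ (fun y' y => ∑ s, θ y s * θ' y' s)
      (fun a b c => by
        simp only [map_add, Pi.add_apply, mul_add, Finset.sum_add_distrib])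
      (fun c a b => by
        simp only [map_smul, Pi.smul_apply, smul_eq_mul, mul_left_comm, Finset.mul_sum])
      (fun a b c => by
        simp only [map_add, Pi.add_apply, add_mul, Finset.sum_add_distrib])
      (fun c a b => by
        simp only [map_smul, Pi.smul_apply, smul_eq_mul, mul_assoc, Finset.mul_sum])
  have hΨ : ∀ y' y, Ψ y' y = ∑ s, θ y s * θ' y' s := fun y' y => rfl
  let d : Y →ₗ[ℝ] Y := (SchurREquiv Y).symm.toLinearMap.comp Ψ
  have hd : ∀ y y' : Y, ∑ s, θ y s * θ' y' s = ∑ s, y.1 s * (d y').1 s := by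
    intro y y'
    have h1 : SchurREquiv Y (d y') = Ψ y' := (SchurREquiv Y).apply_symm_apply _
    have h2 : SchurREquiv Y (d y') y = Ψ y' y := by rw [h1]
    rw [hΨ, SchurREquiv_apply] at h2
    rw [← h2]
    exact Finset.sum_congr rfl (fun s _ => mul_comm _ _)
  refine ⟨d, ?_, hd⟩
  intro f f' γ hff
  have hmem : (fun s => (d f).1 (γ • s)) ∈ Y := hY _ (d f).2 γ
  have h3 : d f' = ⟨_, hmem⟩ := by
    apply SchurRForm_inj Y
    apply LinearMap.ext
    intro y
    rw [SchurRForm_symm, SchurRForm_symm Y _ y, SchurRForm_apply, SchurRForm_apply, ← hd]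
    have h4 : ∀ s, (⟨fun s => y.1 (γ⁻¹ • s), hY _ y.2 γ⁻¹⟩ : Y).1 s = y.1 (γ⁻¹ • s) :=
      fun s => rfl
    have h5 := hθ y ⟨fun s => y.1 (γ⁻¹ • s), hY _ y.2 γ⁻¹⟩ γ⁻¹ h4
    have h6 := hd ⟨fun s => y.1 (γ⁻¹ • s), hY _ y.2 γ⁻¹⟩ f
    have h7 : ∑ s, θ y s * θ' f' s
        = ∑ s, θ ⟨fun s => y.1 (γ⁻¹ • s), hY _ y.2 γ⁻¹⟩ s * θ' f s := by
      rw [← SchurR_shift γ (fun s => θ ⟨fun s => y.1 (γ⁻¹ • s), hY _ y.2 γ⁻¹⟩ s * θ' f s)]
      refine Finset.sum_congr rfl (fun s _ => ?_)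
      rw [h5, inv_smul_smul, hθ' f f' γ hff s]
    rw [h7, h6, ← SchurR_shift γ]
    refine Finset.sum_congr rfl (fun s _ => ?_)
    simp only [inv_smul_smul]
  intro s
  rw [h3]

/-- Equivariant endomorphisms are zero or injective. -/
private lemma SchurR_ker (Y : Submodule ℝ (S → ℝ)) (hY : IsIrr G Y) (d : Y →ₗ[ℝ] Y)
    (hd : d ∈ endF G Y) : d = 0 ∨ Function.Injective d := by
  have hle : (LinearMap.ker d).map Y.subtype ≤ Y := by
    rintro _ ⟨y, -, rfl⟩
    exact y.2
  have hst : IsStab G ((LinearMap.ker d).map Y.subtype) := by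
    rintro _ ⟨y, hy, rfl⟩ γ
    refine ⟨⟨fun s => y.1 (γ • s), hY.2.1 _ y.2 γ⟩, ?_, rfl⟩
    have h1 := hd y ⟨fun s => y.1 (γ • s), hY.2.1 _ y.2 γ⟩ γ (fun s => rfl)
    have h2 : d y = 0 := hy
    show d _ = 0
    apply Subtype.ext
    funext s
    rw [h1, h2]
    rfl
  rcases hY.2.2 _ hle hst with h | h
  · right
    rw [injective_iff_map_eq_zero]
    intro y hy
    have h1 : y.1 ∈ (LinearMap.ker d).map Y.subtype := ⟨y, hy, rfl⟩
    rw [h, Submodule.mem_bot] at h1
    exact Subtype.ext h1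
  · left
    apply LinearMap.ext
    intro y
    have h1 : y.1 ∈ (LinearMap.ker d).map Y.subtype := by
      rw [h]
      exact y.2
    obtain ⟨y', hy', h2⟩ := h1
    have h3 : y' = y := Subtype.ext h2
    rw [← h3]
    exact hy'

/-- Second part. -/
private lemma SchurR_two (Y : Submodule ℝ (S → ℝ)) (hY : IsIrr G Y) (d : Y →ₗ[ℝ] Y)
    (hd : d ∈ endF G Y) (hd0 : d ≠ 0) : ∃ d' ∈ endF G Y, d'.comp d = LinearMap.id := by
  have hinj := (SchurR_ker Y hY d hd).resolve_left hd0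
  let E : Y ≃ₗ[ℝ] Y := LinearEquiv.ofInjectiveEndo d hinj
  have hE : ∀ y, E y = d y := fun y => rfl
  refine ⟨E.symm.toLinearMap, ?_, ?_⟩
  · intro f f' γ hff s
    show (E.symm f').1 s = (E.symm f).1 (γ • s)
    have hmem : (fun s => (E.symm f).1 (γ • s)) ∈ Y := hY.2.1 _ (E.symm f).2 γ
    have h1 : E.symm f' = ⟨_, hmem⟩ := by
      rw [LinearEquiv.symm_apply_eq, hE]
      apply Subtype.ext
      funext t
      rw [hd (E.symm f) ⟨_, hmem⟩ γ (fun s => rfl) t, ← hE, LinearEquiv.apply_symm_apply, hff]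
    rw [h1]
  · apply LinearMap.ext
    intro y
    show E.symm (d y) = y
    rw [← hE, LinearEquiv.symm_apply_apply]

/-- First part. -/
private lemma SchurR_one (Y : Submodule ℝ (S → ℝ)) (hY : IsIrr G Y) (d : Y →ₗ[ℝ] Y)
    (hd : d ∈ endF G Y) : ∃ c : ℝ, ∀ y : Y, ∑ s, (d y).1 s ^ 2 = c ^ 2 * ∑ s, y.1 s ^ 2 := by
  have hθ : Y.subtype.comp d ∈ homF G Y := fun f f' γ hff s => hd f f' γ hff s
  obtain ⟨e, he, hed⟩ := SchurR_three Y hY.2.1 _ hθ _ hθ
  have hed' : ∀ y y' : Y, ∑ s, (d y).1 s * (d y').1 s = ∑ s, y.1 s * (e y').1 s := hed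
  have : Nontrivial Y := (Submodule.nontrivial_iff_ne_bot).mpr hY.1
  obtain ⟨μ, v, hv0, hv⟩ := SchurR_eig (SchurRForm Y) (SchurRForm_symm Y)
    (fun x => Finset.sum_nonneg (fun s _ => mul_self_nonneg _)) (SchurRForm_def Y) e (by
      intro x y
      rw [SchurRForm_symm, SchurRForm_apply, SchurRForm_apply, ← hed', ← hed']
      exact Finset.sum_congr rfl (fun s _ => mul_comm _ _))
  have hmem : e + (-μ) • LinearMap.id ∈ endF G Y :=
    (endF G Y).add_mem he ((endF G Y).smul_mem (-μ) (one_mem_endF G Y))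
  have hz : e + (-μ) • LinearMap.id = 0 := by
    refine (SchurR_ker Y hY _ hmem).resolve_right (fun hinj => hv0 ?_)
    apply hinj
    rw [map_zero]
    show e v + (-μ) • v = 0
    rw [hv, ← add_smul, add_neg_cancel, zero_smul]
  have hey : ∀ y, e y = μ • y := by
    intro y
    have h2 : e y + (-μ) • y = 0 := LinearMap.congr_fun hz y
    apply Subtype.ext
    funext s
    have h3 := congrFun (congrArg Subtype.val h2) s
    have h4 : (e y).1 s + (-μ) * y.1 s = 0 := h3
    show (e y).1 s = μ * y.1 s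
    linarith
  have hq : ∀ y : Y, ∑ s, (d y).1 s ^ 2 = μ * ∑ s, y.1 s ^ 2 := by
    intro y
    have h1 := hed' y y
    rw [hey] at h1
    rw [Finset.mul_sum]
    calc ∑ s, (d y).1 s ^ 2 = ∑ s, (d y).1 s * (d y).1 s :=
          Finset.sum_congr rfl (fun s _ => sq _)
      _ = _ := h1
      _ = ∑ s, μ * y.1 s ^ 2 := by
          refine Finset.sum_congr rfl (fun s _ => ?_)
          simp only [Submodule.coe_smul, Pi.smul_apply, smul_eq_mul]
          ring
  have hpos : 0 < ∑ s, v.1 s ^ 2 := by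
    have h0 : 0 ≤ ∑ s, v.1 s ^ 2 := Finset.sum_nonneg (fun s _ => sq_nonneg _)
    refine lt_of_le_of_ne h0 (fun h1 => hv0 ?_)
    apply SchurRForm_def
    rw [SchurRForm_apply, h1]
    exact Finset.sum_congr rfl (fun s _ => (sq _).symm)
  have hμ : 0 ≤ μ := by
    have h1 := hq v
    have h2 : 0 ≤ ∑ s, (d v).1 s ^ 2 := Finset.sum_nonneg (fun s _ => sq_nonneg _)
    rw [h1] at h2
    exact nonneg_of_mul_nonneg_left h2 hpos
  refine ⟨Real.sqrt μ, fun y => ?_⟩
  rw [Real.sq_sqrt hμ]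
  exact hq y

end

theorem pSchurR : StSchurR := by
  intro S G _ _ _ _ Y hY
  exact ⟨fun d hd => SchurR_one Y hY d hd, fun d hd hd0 => SchurR_two Y hY d hd hd0,
    fun θ hθ θ' hθ' => SchurR_three Y hY.2.1 θ hθ θ' hθ'⟩

end Pool.Agent.Lib.MP_640417_ag.Full
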