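import Pool.Agent.Lib.MP_640417_ag.Full.SpecB
import Pool.Agent.Lib.MP_640417_ag.All.SingCountA

/-!
# The number of singular integer matrices
-/

set_option autoImplicit false

namespace Pool.Agent.Lib.MP_640417_ag.Full

open Module Finset Matrix Pool.Agent.Lib.MP_640417_ag.All

/-- the box -/
noncomputable def Sing_box (n R : ℕ) : Finset (Fin n → ℤ) :=
  Fintype.piFinset (fun _ : Fin n => Finset.Icc (-(R : ℤ)) R)

lemma Sing_mem_box {n R : ℕ} (x : Fin n → ℤ) : x ∈ Sing_box n R ↔ ∀ i, |x i| ≤ R := by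
  simp only [Sing_box, Fintype.mem_piFinset, Finset.mem_Icc, abs_le]

lemma Sing_card_box (n R : ℕ) : (Sing_box n R).card = (2 * R + 1) ^ n := by
  simp only [Sing_box, Fintype.card_piFinset, Finset.prod_const, Finset.card_univ,
    Fintype.card_fin, Int.card_Icc]
  congr 1
  omega

/-- Reduction of a solution of `y ⬝ v = c`. -/
lemma Sing_reduce {m R : ℕ} (v : Fin (m + 1) → ℤ) (j : Fin (m + 1)) (hj : 0 < v j)
    (y : Fin (m + 1) → ℤ) (hy : ∑ i, y i * v i = 1)
    (a : Fin m → Fin (m + 1) → ℤ) (haR : ∀ i k, |a i k| ≤ R) (hav : ∀ i, ∑ k, a i k * v k = 0)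
    (hli : LinearIndependent ℚ (fun i k => (a i k : ℚ))) (c : ℤ) :
    ∃ w : Fin (m + 1) → ℤ, ∑ i, w i * v i = c ∧ ∀ k : Fin m, |w (j.succAbove k)| ≤ m * R := by
  have hli2 : LinearIndependent ℚ (fun (i : Fin m) (k : Fin m) => (a i (j.succAbove k) : ℚ)) := by
    rw [Fintype.linearIndependent_iff] at hli ⊢
    intro g hg
    apply hli g
    have h1 : ∀ k : Fin m, ∑ i, g i * (a i (j.succAbove k) : ℚ) = 0 := by
      intro k
      have := congrFun hg k
      simpa [Finset.sum_apply] using this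
    have h2 : ∑ k, (∑ i, g i * (a i k : ℚ)) * (v k : ℚ) = 0 := by
      have h3 : ∀ i, ∑ k, (a i k : ℚ) * (v k : ℚ) = 0 := by
        intro i
        exact_mod_cast hav i
      calc ∑ k, (∑ i, g i * (a i k : ℚ)) * (v k : ℚ)
          = ∑ i, g i * ∑ k, (a i k : ℚ) * (v k : ℚ) := by
            simp only [Finset.sum_mul, Finset.mul_sum]
            rw [Finset.sum_comm]
            simp only [mul_assoc]
        _ = 0 := by simp [h3]
    rw [Fin.sum_univ_succAbove _ j] at h2
    simp only [h1, zero_mul, Finset.sum_const_zero, add_zero] at h2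
    have hvj : (v j : ℚ) ≠ 0 := by exact_mod_cast hj.ne'
    have h4 : ∑ i, g i * (a i j : ℚ) = 0 := by
      rcases mul_eq_zero.mp h2 with h | h
      · exact h
      · exact absurd h hvj
    funext k
    simp only [Finset.sum_apply, Pi.smul_apply, smul_eq_mul, Pi.zero_apply]
    rcases Fin.eq_self_or_eq_succAbove j k with rfl | ⟨k', rfl⟩
    · exact h4
    · exact h1 k'
  have hspan := hli2.span_eq_top_of_card_eq_finrank' (by simp)
  have hb : (fun k : Fin m => ((c * y (j.succAbove k) : ℤ) : ℚ)) ∈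
      Submodule.span ℚ (Set.range (fun (i : Fin m) (k : Fin m) => (a i (j.succAbove k) : ℚ))) := by
    rw [hspan]; trivial
  rw [Submodule.mem_span_range_iff_exists_fun] at hb
  obtain ⟨t, ht⟩ := hb
  refine ⟨fun k => c * y k - ∑ i, ⌊t i⌋ * a i k, ?_, ?_⟩
  · have e1 : ∀ k, (c * y k - ∑ i, ⌊t i⌋ * a i k) * v k
        = c * (y k * v k) - ∑ i, ⌊t i⌋ * (a i k * v k) := by
      intro k
      rw [sub_mul, Finset.sum_mul, mul_assoc]
      simp only [mul_assoc]
    simp only [e1, Finset.sum_sub_distrib, ← Finset.mul_sum, hy]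
    rw [Finset.sum_comm]
    simp only [← Finset.mul_sum, hav, mul_zero, Finset.sum_const_zero, sub_zero, mul_one]
  · intro k
    have h1 := congrFun ht k
    simp only [Finset.sum_apply, Pi.smul_apply, smul_eq_mul] at h1
    have h2 : ((c * y (j.succAbove k) - ∑ i, ⌊t i⌋ * a i (j.succAbove k) : ℤ) : ℚ)
        = ∑ i, Int.fract (t i) * (a i (j.succAbove k) : ℚ) := by
      push_cast
      push_cast at h1
      rw [← h1, ← Finset.sum_sub_distrib]
      refine Finset.sum_congr rfl fun i _ => ?_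
      rw [← Int.self_sub_floor]; ring
    have h3 : |((c * y (j.succAbove k) - ∑ i, ⌊t i⌋ * a i (j.succAbove k) : ℤ) : ℚ)| ≤ m * R := by
      rw [h2]
      refine (Finset.abs_sum_le_sum_abs _ _).trans ?_
      have h4 : ∀ i ∈ (univ : Finset (Fin m)), |Int.fract (t i) * (a i (j.succAbove k) : ℚ)| ≤ R := by
        intro i _
        rw [abs_mul, abs_of_nonneg (Int.fract_nonneg _)]
        have h5 : |(a i (j.succAbove k) : ℚ)| ≤ R := by exact_mod_cast haR i (j.succAbove k)
        have h6 := (Int.fract_lt_one (t i)).le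
        calc Int.fract (t i) * |(a i (j.succAbove k) : ℚ)| ≤ 1 * R := by
              gcongr
          _ = R := one_mul _
      refine (Finset.sum_le_card_nsmul _ _ _ h4).trans ?_
      simp
    exact_mod_cast h3

/-- The points of the lattice `v ⬝ x = 0` in a box containing `m` independent ones. -/
lemma Sing_lattice {m R : ℕ} (v : Fin (m + 1) → ℤ) (j : Fin (m + 1)) (hj : 0 < v j)
    (y : Fin (m + 1) → ℤ) (hy : ∑ i, y i * v i = 1)
    (a : Fin m → Fin (m + 1) → ℤ) (haR : ∀ i k, |a i k| ≤ R) (hav : ∀ i, ∑ k, a i k * v k = 0)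
    (hli : LinearIndependent ℚ (fun i k => (a i k : ℚ))) :
    ((Sing_box (m + 1) R).filter fun x => ∑ k, x k * v k = 0).card * (v j).toNat
      ≤ (2 * ((m + 1) * R) + 1) ^ m := by
  classical
  choose Y hY1 hY2 using fun c : ℤ => Sing_reduce v j hj y hy a haR hav hli c
  set A := (Sing_box (m + 1) R).filter fun x => ∑ k, x k * v k = 0 with hA
  have h1 : A.card * (v j).toNat = (A ×ˢ Finset.range (v j).toNat).card := by
    rw [Finset.card_product, Finset.card_range]
  rw [h1, ← Sing_card_box m ((m + 1) * R)]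
  refine Finset.card_le_card_of_injOn
    (fun p => fun k : Fin m => p.1 (j.succAbove k) + Y (p.2 : ℤ) (j.succAbove k)) ?_ ?_
  · rintro ⟨x, c⟩ hp
    rw [Finset.mem_coe, Finset.mem_product, hA, Finset.mem_filter, Sing_mem_box] at hp
    simp only
    rw [Finset.mem_coe, Sing_mem_box]
    intro k
    refine (abs_add_le _ _).trans ?_
    have e1 := hp.1.1 (j.succAbove k)
    have e2 := hY2 (c : ℤ) k
    simp only at e1
    push_cast
    linarith
  · rintro ⟨x, c⟩ hp ⟨x', c'⟩ hp' heq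
    rw [Finset.mem_coe, Finset.mem_product, hA, Finset.mem_filter] at hp hp'
    simp only [Finset.mem_range] at hp hp' heq
    have hc : (c : ℤ) < v j := by omega
    have hc' : (c' : ℤ) < v j := by omega
    have hk : ∀ k : Fin m, x (j.succAbove k) + Y (c : ℤ) (j.succAbove k)
        = x' (j.succAbove k) + Y (c' : ℤ) (j.succAbove k) := fun k => congrFun heq k
    have s1 : ∑ k, (x k + Y (c : ℤ) k) * v k = c := by
      simp only [add_mul, Finset.sum_add_distrib, hp.1.2, hY1, zero_add]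
    have s2 : ∑ k, (x' k + Y (c' : ℤ) k) * v k = c' := by
      simp only [add_mul, Finset.sum_add_distrib, hp'.1.2, hY1, zero_add]
    rw [Fin.sum_univ_succAbove _ j] at s1 s2
    simp only [hk] at s1
    have s3 : ((x j + Y (c : ℤ) j) - (x' j + Y (c' : ℤ) j)) * v j = c - c' := by
      linear_combination s1 - s2
    have s4 : (x j + Y (c : ℤ) j) - (x' j + Y (c' : ℤ) j) = 0 := by
      by_contra hne
      have h5 : v j ≤ |((x j + Y (c : ℤ) j) - (x' j + Y (c' : ℤ) j)) * v j| := by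
        rw [abs_mul, abs_of_pos hj]
        have : 1 ≤ |(x j + Y (c : ℤ) j) - (x' j + Y (c' : ℤ) j)| := Int.one_le_abs hne
        nlinarith
      rw [s3] at h5
      have h6 : |(c : ℤ) - c'| < v j := by
        rw [abs_lt]; constructor <;> omega
      omega
    rw [s4, zero_mul] at s3
    have hcc : c = c' := by omega
    subst hcc
    congr 1
    funext k
    rcases Fin.eq_self_or_eq_succAbove j k with rfl | ⟨k', rfl⟩
    · linarith
    · have := hk k'
      linarith

/-- the matrices with entries in the box -/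
noncomputable def Sing_mat (n R : ℕ) : Finset (Fin n → Fin n → ℤ) :=
  Fintype.piFinset (fun _ : Fin n => Sing_box n R)

lemma Sing_mem_mat {n R : ℕ} (B : Fin n → Fin n → ℤ) :
    B ∈ Sing_mat n R ↔ ∀ i k, |B i k| ≤ R := by
  simp only [Sing_mat, Fintype.mem_piFinset, Sing_mem_box]

/-- some `m` rows are independent -/
def Sing_Q {m : ℕ} (B : Fin (m + 1) → Fin (m + 1) → ℤ) : Prop :=
  ∃ l : Fin (m + 1), LinearIndependent ℚ (fun (i : Fin m) k => (B (l.succAbove i) k : ℚ))

open Classical in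
/-- matrices of rank `m` with a given primitive kernel vector -/
lemma Sing_mats {m R k : ℕ} (v : Fin (m + 1) → ℤ) (j : Fin (m + 1)) (hjk : v j = k) (hk : 0 < k)
    (hprim : ∃ y : Fin (m + 1) → ℤ, ∑ i, y i * v i = 1) :
    ((Sing_mat (m + 1) R).filter fun B => Sing_Q B ∧ ∀ i, ∑ k, B i k * v k = 0).card * k ^ (m + 1)
      ≤ ((2 * ((m + 1) * R) + 1) ^ m) ^ (m + 1) := by
  obtain ⟨y, hy⟩ := hprim
  set T := (Sing_mat (m + 1) R).filter fun B => Sing_Q B ∧ ∀ i, ∑ k, B i k * v k = 0 with hT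
  rcases T.eq_empty_or_nonempty with h | ⟨B, hB⟩
  · rw [h, Finset.card_empty, zero_mul]; exact Nat.zero_le _
  · rw [hT, Finset.mem_filter, Sing_mem_mat] at hB
    obtain ⟨hB1, ⟨l, hl⟩, hB3⟩ := hB
    have h1 := Sing_lattice v j (by rw [hjk]; exact_mod_cast hk) y hy (fun i => B (l.succAbove i))
      (fun i k => hB1 _ _) (fun i => hB3 _) hl
    set A := (Sing_box (m + 1) R).filter fun x => ∑ k, x k * v k = 0 with hA
    have h2 : T ⊆ Fintype.piFinset (fun _ : Fin (m + 1) => A) := by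
      intro B' hB'
      rw [hT, Finset.mem_filter, Sing_mem_mat] at hB'
      rw [Fintype.mem_piFinset]
      intro i
      rw [hA, Finset.mem_filter, Sing_mem_box]
      exact ⟨fun k => hB'.1 i k, hB'.2.2 i⟩
    have h3 : T.card ≤ A.card ^ (m + 1) := by
      refine (Finset.card_le_card h2).trans ?_
      simp
    have h4 : (v j).toNat = k := by rw [hjk]; simp
    rw [h4] at h1
    calc T.card * k ^ (m + 1) ≤ A.card ^ (m + 1) * k ^ (m + 1) := Nat.mul_le_mul_right _ h3
      _ = (A.card * k) ^ (m + 1) := by rw [mul_pow]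
      _ ≤ _ := Nat.pow_le_pow_left h1 _

/-- the points of the box with a given coordinate -/
lemma Sing_slice (m k : ℕ) (j : Fin (m + 1)) :
    ((Sing_box (m + 1) k).filter fun v : Fin (m + 1) → ℤ => v j = k).card ≤ (2 * k + 1) ^ m := by
  rw [← Sing_card_box m k]
  refine Finset.card_le_card_of_injOn (fun v => fun i : Fin m => v (j.succAbove i)) ?_ ?_
  · intro v hv
    rw [Finset.mem_coe, Finset.mem_filter, Sing_mem_box] at hv
    rw [Finset.mem_coe, Sing_mem_box]
    exact fun i => hv.1 _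
  · intro v hv v' hv' h
    rw [Finset.mem_coe, Finset.mem_filter] at hv hv'
    funext i
    rcases Fin.eq_self_or_eq_succAbove j i with rfl | ⟨i', rfl⟩
    · rw [hv.2, hv'.2]
    · exact congrFun h i'

/-- A primitive kernel vector with positive maximal coordinate. -/
lemma Sing_kernel {m : ℕ} (B : Fin (m + 1) → Fin (m + 1) → ℤ) (hB : (Matrix.of B).det = 0) :
    ∃ (v : Fin (m + 1) → ℤ) (j : Fin (m + 1)), 0 < v j ∧ (∀ i, |v i| ≤ v j) ∧
      (∃ y : Fin (m + 1) → ℤ, ∑ i, y i * v i = 1) ∧ ∀ i, ∑ k, B i k * v k = 0 := by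
  obtain ⟨w, hw0, hw⟩ := Matrix.exists_mulVec_eq_zero_iff.mpr hB
  -- the ideal generated by the coordinates
  obtain ⟨g, hg⟩ := (IsPrincipalIdealRing.principal (Ideal.span (Set.range w))).principal
  have h1 : ∀ i, ∃ u, w i = g * u := by
    intro i
    have : w i ∈ Ideal.span (Set.range w) := Ideal.subset_span ⟨i, rfl⟩
    rw [hg] at this
    rw [Submodule.mem_span_singleton] at this
    obtain ⟨u, hu⟩ := this
    exact ⟨u, by rw [← hu, smul_eq_mul, mul_comm]⟩
  choose v hv using h1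
  have h2 : g ∈ Ideal.span (Set.range w) := by
    rw [hg]; exact Submodule.mem_span_singleton_self g
  have hg0 : g ≠ 0 := by
    rintro rfl
    apply hw0
    funext i
    rw [hv i]; simp
  obtain ⟨y, hy⟩ : ∃ y : Fin (m + 1) → ℤ, ∑ i, y i * w i = g := by
    have := (Submodule.mem_span_range_iff_exists_fun ℤ).mp h2
    simpa using this
  have hprim : ∑ i, y i * v i = 1 := by
    have h3 : g * ∑ i, y i * v i = g * 1 := by
      rw [mul_one, Finset.mul_sum]
      conv_rhs => rw [← hy]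
      refine Finset.sum_congr rfl fun i _ => ?_
      rw [hv i]; ring
    exact mul_left_cancel₀ hg0 h3
  have hker : ∀ i, ∑ k, B i k * v k = 0 := by
    intro i
    have h3 : g * ∑ k, B i k * v k = 0 := by
      have h4 := congrFun hw i
      simp only [Matrix.mulVec, dotProduct, Matrix.of_apply, Pi.zero_apply] at h4
      rw [← h4, Finset.mul_sum]
      refine Finset.sum_congr rfl fun k _ => ?_
      rw [hv k]; ring
    rcases mul_eq_zero.mp h3 with h | h
    · exact absurd h hg0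
    · exact h
  obtain ⟨j, hj⟩ := Finite.exists_max (fun i => |v i|)
  have hvj : v j ≠ 0 := by
    intro h
    have h3 : ∀ i, v i = 0 := by
      intro i
      have := hj i
      rw [h, abs_zero] at this
      exact abs_nonpos_iff.mp this
    simp [h3] at hprim
  rcases lt_or_gt_of_ne hvj with h | h
  · refine ⟨fun i => - v i, j, by simpa using h, ?_, ⟨fun i => - y i, ?_⟩, ?_⟩
    · intro i
      rw [abs_neg]
      have := hj i
      rwa [abs_of_neg h] at this
    · simpa using hprim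
    · intro i
      simpa using hker i
  · refine ⟨v, j, h, ?_, ⟨y, hprim⟩, hker⟩
    intro i
    have := hj i
    rwa [abs_of_pos h] at this

open Classical in
/-- the matrices of rank `m` -/
lemma Sing_count_Q (m R : ℕ) :
    (((Sing_mat (m + 1) R).filter fun B => Sing_Q B ∧ (Matrix.of B).det = 0).card : ℝ)
      ≤ (m + 1) * 3 ^ m * (((2 * ((m + 1) * R) + 1 : ℕ) : ℝ) ^ m) ^ (m + 1)
        * (1 + Real.log (((2 * ((m + 1) * R) + 1 : ℕ) : ℝ) ^ m)) := by
  set K := (2 * ((m + 1) * R) + 1) ^ m with hK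
  have hKr : (((2 * ((m + 1) * R) + 1 : ℕ) : ℝ) ^ m) = (K : ℝ) := by
    rw [hK]; push_cast; ring
  rw [hKr]
  set S := (Sing_mat (m + 1) R).filter fun B => Sing_Q B ∧ (Matrix.of B).det = 0 with hS
  set T : (Fin (m + 1) → ℤ) → Finset (Fin (m + 1) → Fin (m + 1) → ℤ) := fun v =>
    (Sing_mat (m + 1) R).filter fun B => Sing_Q B ∧ ∀ i, ∑ k, B i k * v k = 0 with hT
  set P : Fin (m + 1) → ℕ → Finset (Fin (m + 1) → ℤ) := fun j k =>
    (Sing_box (m + 1) k).filter fun v => v j = k ∧ ∃ y : Fin (m + 1) → ℤ, ∑ i, y i * v i = 1 with hP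
  have hsub : S ⊆ (Finset.univ : Finset (Fin (m + 1))).biUnion fun j =>
      (Finset.Icc 1 K).biUnion fun k => (P j k).biUnion T := by
    intro B hB
    rw [hS, Finset.mem_filter] at hB
    obtain ⟨hB1, hBQ, hB0⟩ := hB
    obtain ⟨v, j, h1, h2, ⟨y, hy⟩, h4⟩ := Sing_kernel B hB0
    obtain ⟨l, hl⟩ := hBQ
    rw [Sing_mem_mat] at hB1
    have h5 := Sing_lattice v j h1 y hy (fun i => B (l.succAbove i))
      (fun i k => hB1 _ _) (fun i => h4 _) hl
    have h6 : 1 ≤ ((Sing_box (m + 1) R).filter fun x => ∑ k, x k * v k = 0).card := by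
      refine Finset.card_pos.mpr ⟨0, ?_⟩
      rw [Finset.mem_filter, Sing_mem_box]
      simp
    simp only [Finset.mem_biUnion, Finset.mem_univ, true_and, Finset.mem_Icc]
    refine ⟨j, (v j).toNat, ⟨by omega, ?_⟩, v, ?_, ?_⟩
    · calc (v j).toNat = 1 * (v j).toNat := (one_mul _).symm
        _ ≤ _ := Nat.mul_le_mul_right _ h6
        _ ≤ _ := h5
    · rw [hP, Finset.mem_filter, Sing_mem_box]
      have h7 : (((v j).toNat : ℕ) : ℤ) = v j := Int.toNat_of_nonneg h1.le
      rw [h7]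
      exact ⟨h2, rfl, y, hy⟩
    · rw [hT, Finset.mem_filter, Sing_mem_mat]
      exact ⟨hB1, ⟨l, hl⟩, h4⟩
  have hc1 : S.card ≤ ∑ j : Fin (m + 1), ∑ k ∈ Finset.Icc 1 K, ∑ v ∈ P j k, (T v).card := by
    refine (Finset.card_le_card hsub).trans (Finset.card_biUnion_le.trans ?_)
    refine Finset.sum_le_sum fun j _ => Finset.card_biUnion_le.trans ?_
    exact Finset.sum_le_sum fun k _ => Finset.card_biUnion_le
  have hc2 : ∀ j : Fin (m + 1), ∀ k ∈ Finset.Icc 1 K,
      ((∑ v ∈ P j k, (T v).card : ℕ) : ℝ) ≤ 3 ^ m * (K : ℝ) ^ (m + 1) * (k : ℝ)⁻¹ := by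
    intro j k hk
    rw [Finset.mem_Icc] at hk
    have hk0 : (0 : ℝ) < k := by exact_mod_cast (by omega : 0 < k)
    have hk1 : (1 : ℝ) ≤ k := by exact_mod_cast hk.1
    have e1 : ∀ v ∈ P j k, ((T v).card : ℝ) ≤ (K : ℝ) ^ (m + 1) / (k : ℝ) ^ (m + 1) := by
      intro v hv
      rw [hP, Finset.mem_filter] at hv
      have := Sing_mats (R := R) v j hv.2.1 (by omega) hv.2.2
      rw [le_div_iff₀ (by positivity)]
      exact_mod_cast this
    have e2 : ((P j k).card : ℝ) ≤ (3 * (k : ℝ)) ^ m := by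
      have e3 : P j k ⊆ (Sing_box (m + 1) k).filter fun v => v j = k := by
        intro v hv
        rw [hP, Finset.mem_filter] at hv
        rw [Finset.mem_filter]
        exact ⟨hv.1, hv.2.1⟩
      have e4 := (Finset.card_le_card e3).trans (Sing_slice m k j)
      have e5 : ((P j k).card : ℝ) ≤ (2 * (k : ℝ) + 1) ^ m := by exact_mod_cast e4
      refine e5.trans (pow_le_pow_left₀ (by positivity) (by linarith) m)
    push_cast
    calc ∑ v ∈ P j k, ((T v).card : ℝ) ≤ (P j k).card • ((K : ℝ) ^ (m + 1) / (k : ℝ) ^ (m + 1)) :=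
          Finset.sum_le_card_nsmul _ _ _ e1
      _ = (P j k).card * ((K : ℝ) ^ (m + 1) / (k : ℝ) ^ (m + 1)) := nsmul_eq_mul _ _
      _ ≤ (3 * (k : ℝ)) ^ m * ((K : ℝ) ^ (m + 1) / (k : ℝ) ^ (m + 1)) := by gcongr
      _ = 3 ^ m * (K : ℝ) ^ (m + 1) * (k : ℝ)⁻¹ := by
          rw [mul_pow, pow_succ (k : ℝ) m]
          field_simp
  have hc3 : (S.card : ℝ) ≤ ∑ j : Fin (m + 1), ∑ k ∈ Finset.Icc 1 K,
      3 ^ m * (K : ℝ) ^ (m + 1) * (k : ℝ)⁻¹ := by
    have h1 : (S.card : ℝ) ≤ ((∑ j : Fin (m + 1), ∑ k ∈ Finset.Icc 1 K, ∑ v ∈ P j k, (T v).card : ℕ) : ℝ) := by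
      exact_mod_cast hc1
    refine h1.trans ?_
    rw [Nat.cast_sum]
    refine Finset.sum_le_sum fun j _ => ?_
    rw [Nat.cast_sum]
    exact Finset.sum_le_sum fun k hk => hc2 j k hk
  refine hc3.trans ?_
  rw [Finset.sum_const, Finset.card_univ, Fintype.card_fin, nsmul_eq_mul, ← Finset.mul_sum]
  have hharm : ∑ k ∈ Finset.Icc 1 K, (k : ℝ)⁻¹ ≤ 1 + Real.log K := by
    have h1 := harmonic_le_one_add_log K
    have h2 : ((harmonic K : ℚ) : ℝ) = ∑ k ∈ Finset.Icc 1 K, (k : ℝ)⁻¹ := by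
      rw [harmonic_eq_sum_Icc]; push_cast; rfl
    rw [← h2]; exact h1
  push_cast
  calc ((m : ℝ) + 1) * (3 ^ m * (K : ℝ) ^ (m + 1) * ∑ k ∈ Finset.Icc 1 K, (k : ℝ)⁻¹)
      ≤ ((m : ℝ) + 1) * (3 ^ m * (K : ℝ) ^ (m + 1) * (1 + Real.log K)) := by gcongr
    _ = _ := by ring

/-- fibre bound: dependent rows except for row `l`, and row `l` in their span -/
lemma Sing_dep_row (m R : ℕ) (l : Fin (m + 1)) :
    {B : Fin (m + 1) → Fin (m + 1) → ℤ | (∀ i k, |B i k| ≤ R) ∧
      ¬ LinearIndependent ℚ (fun (i : Fin m) k => (B (l.succAbove i) k : ℚ)) ∧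
      (fun k => (B l k : ℚ)) ∈ Submodule.span ℚ
        (Set.range (fun (i : Fin m) k => (B (l.succAbove i) k : ℚ)))}.ncard
      ≤ m * (2 * R + 1) ^ ((m - 1) * (m + 3)) := by
  classical
  set S : Finset (Fin (m + 1) → Fin (m + 1) → ℤ) := (Sing_mat (m + 1) R).filter fun B =>
      ¬ LinearIndependent ℚ (fun (i : Fin m) k => (B (l.succAbove i) k : ℚ)) ∧
      (fun k => (B l k : ℚ)) ∈ Submodule.span ℚ
        (Set.range (fun (i : Fin m) k => (B (l.succAbove i) k : ℚ))) with hS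
  have h0 : {B : Fin (m + 1) → Fin (m + 1) → ℤ | (∀ i k, |B i k| ≤ R) ∧
      ¬ LinearIndependent ℚ (fun (i : Fin m) k => (B (l.succAbove i) k : ℚ)) ∧
      (fun k => (B l k : ℚ)) ∈ Submodule.span ℚ
        (Set.range (fun (i : Fin m) k => (B (l.succAbove i) k : ℚ)))} =
      (S : Set (Fin (m + 1) → Fin (m + 1) → ℤ)) := by
    ext B
    rw [hS, Finset.coe_filter]
    simp only [Set.mem_ofPred_eq, Sing_mem_mat]
  rw [h0, Set.ncard_coe_finset]
  let f : (Fin (m + 1) → Fin (m + 1) → ℤ) → (Fin m → Fin (m + 1) → ℤ) := fun B i => B (l.succAbove i)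
  have hfin : {Q : Fin m → Fin (m + 1) → ℤ | (∀ i j, |Q i j| ≤ R) ∧
      ¬ LinearIndependent ℚ (fun i j => (Q i j : ℚ))}.Finite := by
    apply Set.Finite.subset (Finset.finite_toSet (Fintype.piFinset
      (fun _ : Fin m => Sing_box (m + 1) R)))
    intro Q hQ
    simp only [Finset.mem_coe, Fintype.mem_piFinset, Sing_mem_box]
    exact hQ.1
  have himg : (S.image f).card ≤ m * (2 * R + 1) ^ ((m - 1) * (m + 1 + 1)) := by
    refine le_trans ?_ (ncard_dependent_le m (m + 1) R)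
    rw [← Set.ncard_coe_finset]
    refine Set.ncard_le_ncard ?_ hfin
    intro Q hQ
    rw [Finset.mem_coe, Finset.mem_image] at hQ
    obtain ⟨B, hB, rfl⟩ := hQ
    rw [hS, Finset.mem_filter, Sing_mem_mat] at hB
    exact ⟨fun i k => hB.1 _ _, hB.2.1⟩
  have hfib : ∀ a ∈ S.image f, (S.filter (fun x => f x = a)).card ≤ (2 * R + 1) ^ (m - 1) := by
    intro a ha
    have hdep : ¬ LinearIndependent ℚ (fun (i : Fin m) k => (a i k : ℚ)) := by
      obtain ⟨B, hB, rfl⟩ := Finset.mem_image.mp ha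
      rw [hS, Finset.mem_filter] at hB
      exact hB.2.1
    let V : Submodule ℚ (Fin (m + 1) → ℚ) :=
      Submodule.span ℚ (Set.range (fun (i : Fin m) k => (a i k : ℚ)))
    have hV : finrank ℚ V ≤ m - 1 := by
      rw [linearIndependent_iff_card_le_finrank_span, not_le] at hdep
      have h1 : finrank ℚ V < Fintype.card (Fin m) := hdep
      rw [Fintype.card_fin] at h1
      omega
    have h5 := (ncard_subspace_le (m + 1) V R).trans (Nat.pow_le_pow_right (by omega) hV)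
    refine le_trans ?_ h5
    rw [← Set.ncard_coe_finset]
    have hfin2 : {z : Fin (m + 1) → ℤ | (∀ i, |z i| ≤ R) ∧ (fun i => (z i : ℚ)) ∈ V}.Finite := by
      apply Set.Finite.subset (Finset.finite_toSet (Sing_box (m + 1) R))
      intro z hz
      rw [Finset.mem_coe, Sing_mem_box]
      exact hz.1
    apply Set.ncard_le_ncard_of_injOn (fun B => B l) _ _ hfin2
    · intro B hB
      rw [Finset.mem_coe, Finset.mem_filter, hS, Finset.mem_filter, Sing_mem_mat] at hB
      obtain ⟨⟨hB1, hB2, hB3⟩, hBa⟩ := hB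
      refine ⟨fun k => hB1 l k, ?_⟩
      have h6 : (fun (i : Fin m) k => (B (l.succAbove i) k : ℚ)) = fun (i : Fin m) k => (a i k : ℚ) := by
        funext i k
        have := congrFun (congrFun hBa i) k
        simp only [f] at this
        rw [this]
      rw [h6] at hB3
      exact hB3
    · intro B hB B' hB' h
      rw [Finset.mem_coe, Finset.mem_filter] at hB hB'
      funext i
      rcases Fin.eq_self_or_eq_succAbove l i with rfl | ⟨i', rfl⟩
      · exact h
      · exact congrFun (hB.2.trans hB'.2.symm) i'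
  have h8 := Finset.card_le_mul_card_image S _ hfib
  refine h8.trans ((Nat.mul_le_mul_left _ himg).trans (le_of_eq ?_))
  rw [← mul_assoc, mul_comm ((2 * R + 1) ^ (m - 1)) m, mul_assoc, ← pow_add]
  congr 2
  ring

open Classical in
lemma Sing_count_nQ (m R : ℕ) :
    ((Sing_mat (m + 1) R).filter fun B => ¬ Sing_Q B ∧ (Matrix.of B).det = 0).card
      ≤ (m + 1) * (m * (2 * R + 1) ^ ((m - 1) * (m + 3))) := by
  set S := (Sing_mat (m + 1) R).filter fun B => ¬ Sing_Q B ∧ (Matrix.of B).det = 0 with hS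
  set D : Fin (m + 1) → Set (Fin (m + 1) → Fin (m + 1) → ℤ) := fun l =>
    {B : Fin (m + 1) → Fin (m + 1) → ℤ | (∀ i k, |B i k| ≤ R) ∧
      ¬ LinearIndependent ℚ (fun (i : Fin m) k => (B (l.succAbove i) k : ℚ)) ∧
      (fun k => (B l k : ℚ)) ∈ Submodule.span ℚ
        (Set.range (fun (i : Fin m) k => (B (l.succAbove i) k : ℚ)))} with hD
  have hfin : ∀ l, (D l).Finite := by
    intro l
    apply Set.Finite.subset (Finset.finite_toSet (Sing_mat (m + 1) R))
    intro B hB
    rw [Finset.mem_coe, Sing_mem_mat]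
    exact hB.1
  have hsub : S ⊆ (Finset.univ : Finset (Fin (m + 1))).biUnion fun l => (hfin l).toFinset := by
    intro B hB
    rw [hS, Finset.mem_filter, Sing_mem_mat] at hB
    obtain ⟨hB1, hB2, hB3⟩ := hB
    have hdep : ¬ LinearIndependent ℚ (fun i k => (B i k : ℚ)) := by
      obtain ⟨w, hw0, hw⟩ := Matrix.exists_vecMul_eq_zero_iff.mpr hB3
      rw [Fintype.linearIndependent_iff]
      intro h
      apply hw0
      funext i
      have h1 := h (fun i => (w i : ℚ)) (by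
        funext k
        have h2 := congrFun hw k
        simp only [Matrix.vecMul, dotProduct, Matrix.of_apply, Pi.zero_apply] at h2
        simp only [Finset.sum_apply, Pi.smul_apply, smul_eq_mul, Pi.zero_apply]
        exact_mod_cast h2) i
      simpa using h1
    rw [linearIndependent_iff_notMem_span] at hdep
    push Not at hdep
    obtain ⟨l, hl⟩ := hdep
    rw [Finset.mem_biUnion]
    refine ⟨l, Finset.mem_univ _, ?_⟩
    rw [Set.Finite.mem_toFinset]
    refine ⟨hB1, fun h => hB2 ⟨l, h⟩, ?_⟩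
    refine Submodule.span_mono ?_ hl
    rintro _ ⟨i, hi, rfl⟩
    rcases Fin.eq_self_or_eq_succAbove l i with rfl | ⟨i', rfl⟩
    · simp at hi
    · exact ⟨i', rfl⟩
  refine (Finset.card_le_card hsub).trans (Finset.card_biUnion_le.trans ?_)
  have h1 : ∀ l ∈ (Finset.univ : Finset (Fin (m + 1))), (hfin l).toFinset.card
      ≤ m * (2 * R + 1) ^ ((m - 1) * (m + 3)) := by
    intro l _
    rw [← Set.ncard_eq_toFinset_card (D l) (hfin l)]
    exact Sing_dep_row m R l
  refine (Finset.sum_le_card_nsmul _ _ _ h1).trans (le_of_eq ?_)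
  simp

theorem pSing : StSing := by
  classical
  intro n hn
  obtain ⟨m, rfl⟩ : ∃ m, n = m + 1 := ⟨n - 1, by omega⟩
  have hm : 1 ≤ m := by omega
  -- the constant
  set A : ℝ := (m + 1) * 3 ^ m * (((3 * (m + 1 : ℕ) : ℕ) : ℝ) ^ m) ^ (m + 1) with hA
  set E : ℝ := 1 + m * Real.log ((3 * (m + 1 : ℕ) : ℕ) : ℝ) + m with hE
  set F : ℝ := (m + 1) * (m * 3 ^ ((m - 1) * (m + 3))) with hF
  have hlog3 : 0 ≤ Real.log ((3 * (m + 1 : ℕ) : ℕ) : ℝ) := Real.log_natCast_nonneg _
  have hA0 : 0 < A := by positivity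
  have hE0 : 0 < E := by positivity
  have hF0 : 0 ≤ F := by positivity
  refine ⟨A * E + F, by positivity, fun R hR => ?_⟩
  have hRr : (1 : ℝ) ≤ R := by exact_mod_cast hR
  have hlogR : 0 ≤ Real.log R := Real.log_nonneg hRr
  set S := (Sing_mat (m + 1) R).filter fun M => (Matrix.of M).det = 0 with hS
  have h0 : {M : Matrix (Fin (m + 1)) (Fin (m + 1)) ℤ | (∀ i j, |M i j| ≤ R) ∧ M.det = 0} =
      (S : Set (Fin (m + 1) → Fin (m + 1) → ℤ)) := by
    ext M
    rw [hS, Finset.coe_filter]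
    simp only [Set.mem_ofPred_eq, Sing_mem_mat]
    rfl
  have h0' : {M : Matrix (Fin (m + 1)) (Fin (m + 1)) ℤ | (∀ i j, |M i j| ≤ R) ∧
      M.det = 0}.ncard = S.card := by
    rw [h0]
    exact Set.ncard_coe_finset S
  rw [h0']
  have hsplit : S.card ≤ ((Sing_mat (m + 1) R).filter fun B => Sing_Q B ∧ (Matrix.of B).det = 0).card
      + ((Sing_mat (m + 1) R).filter fun B => ¬ Sing_Q B ∧ (Matrix.of B).det = 0).card := by
    refine le_trans (Finset.card_le_card ?_) (Finset.card_union_le _ _)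
    intro B hB
    rw [hS, Finset.mem_filter] at hB
    rw [Finset.mem_union, Finset.mem_filter, Finset.mem_filter]
    by_cases hq : Sing_Q B
    · exact Or.inl ⟨hB.1, hq, hB.2⟩
    · exact Or.inr ⟨hB.1, hq, hB.2⟩
  have k1 := Sing_count_Q m R
  have k2 := Sing_count_nQ m R
  have hsplit' : (S.card : ℝ) ≤ (((Sing_mat (m + 1) R).filter fun B => Sing_Q B ∧ (Matrix.of B).det = 0).card : ℝ)
      + (((Sing_mat (m + 1) R).filter fun B => ¬ Sing_Q B ∧ (Matrix.of B).det = 0).card : ℝ) := by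
    exact_mod_cast hsplit
  have k2' : (((Sing_mat (m + 1) R).filter fun B => ¬ Sing_Q B ∧ (Matrix.of B).det = 0).card : ℝ)
      ≤ (m + 1) * (m * (2 * (R : ℝ) + 1) ^ ((m - 1) * (m + 3))) := by exact_mod_cast k2
  -- exponents
  set e := (m + 1) ^ 2 - min (m + 1) 3 with he
  have he1 : m * (m + 1) ≤ e := by
    have h1 : min (m + 1) 3 ≤ m + 1 := min_le_left _ _
    have h2 : (m + 1) ^ 2 = m * (m + 1) + (m + 1) := by ring
    omega
  have he2 : (m - 1) * (m + 3) ≤ e := by
    obtain ⟨m', rfl⟩ : ∃ m', m = m' + 1 := ⟨m - 1, by omega⟩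
    have h1 : min (m' + 1 + 1) 3 ≤ 3 := min_le_right _ _
    have h2 : (m' + 1 + 1) ^ 2 = (m' + 1 - 1) * (m' + 1 + 3) + 4 := by
      simp only [Nat.add_sub_cancel]; ring
    omega
  -- the first part
  have hB1 : (((2 * ((m + 1) * R) + 1 : ℕ) : ℝ)) ≤ ((3 * (m + 1 : ℕ) : ℕ) : ℝ) * R := by
    push_cast
    nlinarith [show (0 : ℝ) ≤ m by positivity]
  have hB0 : (1 : ℝ) ≤ (((2 * ((m + 1) * R) + 1 : ℕ) : ℝ)) := by
    push_cast
    nlinarith [show (0 : ℝ) ≤ m by positivity]
  have k3 : ((((2 * ((m + 1) * R) + 1 : ℕ) : ℝ)) ^ m) ^ (m + 1)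
      ≤ (((3 * (m + 1 : ℕ) : ℕ) : ℝ) ^ m) ^ (m + 1) * (R : ℝ) ^ e := by
    calc ((((2 * ((m + 1) * R) + 1 : ℕ) : ℝ)) ^ m) ^ (m + 1)
        ≤ ((((3 * (m + 1 : ℕ) : ℕ) : ℝ) * R) ^ m) ^ (m + 1) := by
          gcongr
      _ = (((3 * (m + 1 : ℕ) : ℕ) : ℝ) ^ m) ^ (m + 1) * (R : ℝ) ^ (m * (m + 1)) := by
          rw [mul_pow, mul_pow, ← pow_mul (R : ℝ)]
      _ ≤ _ := by
          gcongr
  have k4 : 1 + Real.log ((((2 * ((m + 1) * R) + 1 : ℕ) : ℝ)) ^ m) ≤ E * (1 + Real.log R) := by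
    rw [Real.log_pow]
    have h1 : Real.log (((2 * ((m + 1) * R) + 1 : ℕ) : ℝ)) ≤
        Real.log ((3 * (m + 1 : ℕ) : ℕ) : ℝ) + Real.log R := by
      rw [← Real.log_mul (by positivity) (by positivity)]
      exact Real.log_le_log (by linarith) hB1
    have h2 : (m : ℝ) * Real.log (((2 * ((m + 1) * R) + 1 : ℕ) : ℝ)) ≤
        m * (Real.log ((3 * (m + 1 : ℕ) : ℕ) : ℝ) + Real.log R) := by gcongr
    have h3 : 0 ≤ (m : ℝ) * Real.log ((3 * (m + 1 : ℕ) : ℕ) : ℝ) := by positivity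
    have h4 : 0 ≤ (m : ℝ) * Real.log ((3 * (m + 1 : ℕ) : ℕ) : ℝ) * Real.log R := by positivity
    have h5 : (0 : ℝ) ≤ m := by positivity
    rw [hE]
    nlinarith
  have k5 : 0 ≤ 1 + Real.log ((((2 * ((m + 1) * R) + 1 : ℕ) : ℝ)) ^ m) := by
    have : 0 ≤ Real.log ((((2 * ((m + 1) * R) + 1 : ℕ) : ℝ)) ^ m) :=
      Real.log_nonneg (one_le_pow₀ hB0)
    linarith
  have part1 : (((Sing_mat (m + 1) R).filter fun B => Sing_Q B ∧ (Matrix.of B).det = 0).card : ℝ)
      ≤ A * E * (R : ℝ) ^ e * (1 + Real.log R) := by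
    refine k1.trans ?_
    calc ((m : ℝ) + 1) * 3 ^ m * ((((2 * ((m + 1) * R) + 1 : ℕ) : ℝ)) ^ m) ^ (m + 1) *
          (1 + Real.log ((((2 * ((m + 1) * R) + 1 : ℕ) : ℝ)) ^ m))
        ≤ ((m : ℝ) + 1) * 3 ^ m * ((((3 * (m + 1 : ℕ) : ℕ) : ℝ) ^ m) ^ (m + 1) * (R : ℝ) ^ e) *
          (E * (1 + Real.log R)) := by
          gcongr
      _ = _ := by rw [hA]; ring
  have part2 : (((Sing_mat (m + 1) R).filter fun B => ¬ Sing_Q B ∧ (Matrix.of B).det = 0).card : ℝ)
      ≤ F * (R : ℝ) ^ e * (1 + Real.log R) := by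
    refine k2'.trans ?_
    have h1 : (2 * (R : ℝ) + 1) ^ ((m - 1) * (m + 3)) ≤ 3 ^ ((m - 1) * (m + 3)) * (R : ℝ) ^ e := by
      calc (2 * (R : ℝ) + 1) ^ ((m - 1) * (m + 3)) ≤ (3 * R) ^ ((m - 1) * (m + 3)) :=
            pow_le_pow_left₀ (by positivity) (by linarith) _
        _ = 3 ^ ((m - 1) * (m + 3)) * (R : ℝ) ^ ((m - 1) * (m + 3)) := mul_pow _ _ _
        _ ≤ _ := by
            gcongr
    calc ((m : ℝ) + 1) * (m * (2 * (R : ℝ) + 1) ^ ((m - 1) * (m + 3)))
        ≤ ((m : ℝ) + 1) * (m * (3 ^ ((m - 1) * (m + 3)) * (R : ℝ) ^ e)) := by gcongr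
      _ = F * (R : ℝ) ^ e * 1 := by rw [hF]; ring
      _ ≤ F * (R : ℝ) ^ e * (1 + Real.log R) := by
          gcongr
          linarith
  calc (S.card : ℝ) ≤ _ := hsplit'
    _ ≤ A * E * (R : ℝ) ^ e * (1 + Real.log R) + F * (R : ℝ) ^ e * (1 + Real.log R) :=
        add_le_add part1 part2
    _ = _ := by ring

end Pool.Agent.Lib.MP_640417_ag.Full
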