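import Pool.Agent.Lib.MP_640417_ag.Full.SpecB

/-!
# The number of small pairs
-/

set_option autoImplicit false

namespace Pool.Agent.Lib.MP_640417_ag.Full

open Module Finset MulAction Matrix Pool.Agent.Lib.MP_640417_ag.Far

/-- Integer vectors which are independent modulo a prime are independent over the rationals. -/
private lemma small_indep {κ ι : Type} [Fintype κ] (q : ℕ) [Fact q.Prime] (v : κ → ι → ℤ)
    (h : LinearIndependent (ZMod q) (fun k i => ((v k i : ℤ) : ZMod q))) :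
    LinearIndependent ℚ (fun k i => ((v k i : ℤ) : ℚ)) := by
  classical
  rw [← LinearIndependent.iff_fractionRing ℤ ℚ, Fintype.linearIndependent_iff]
  intro c hc
  by_contra hne
  push Not at hne
  obtain ⟨k₀, hk₀⟩ := hne
  have hc' : ∀ i, ∑ k, c k * v k i = 0 := by
    intro i
    have := congrFun hc i
    simp only [Finset.sum_apply, Pi.smul_apply, Pi.zero_apply] at this
    simp only [zsmul_eq_mul] at this
    exact_mod_cast this
  obtain ⟨g, hg, hg1⟩ := Finset.extract_gcd (s := (Finset.univ : Finset κ)) c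
    ⟨k₀, Finset.mem_univ _⟩
  have hgcd : (Finset.univ : Finset κ).gcd c ≠ 0 := by
    intro h0
    apply hk₀
    rw [hg k₀ (Finset.mem_univ _), h0, zero_mul]
  have hg' : ∀ i, ∑ k, g k * v k i = 0 := by
    intro i
    have h1 := hc' i
    have h2 : (Finset.univ : Finset κ).gcd c * ∑ k, g k * v k i = 0 := by
      rw [← h1, Finset.mul_sum]
      apply Finset.sum_congr rfl
      intro k _
      rw [← mul_assoc, ← hg k (Finset.mem_univ _)]
    exact (mul_eq_zero.mp h2).resolve_left hgcd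
  have h3 : ∀ k, ((g k : ℤ) : ZMod q) = 0 := by
    apply Fintype.linearIndependent_iff.mp h (fun k => ((g k : ℤ) : ZMod q))
    funext i
    have := congrArg (Int.cast : ℤ → ZMod q) (hg' i)
    simp only [Finset.sum_apply, Pi.smul_apply, Pi.zero_apply, smul_eq_mul]
    push_cast at this
    exact this
  have h4 : (q : ℤ) ∣ (Finset.univ : Finset κ).gcd g := by
    apply Finset.dvd_gcd
    intro k _
    exact (ZMod.intCast_zmod_eq_zero_iff_dvd _ _).mp (h3 k)
  rw [hg1] at h4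
  have hq := (Fact.out : q.Prime).one_lt
  have := Int.le_of_dvd (by norm_num) h4
  omega

/-- The rank modulo a prime is at most the rank over the rationals. -/
private lemma small_rank_le {n : ℕ} (q : ℕ) [Fact q.Prime] (A : Matrix (Fin n) (Fin n) ℤ) :
    (A.map (Int.cast : ℤ → ZMod q)).rank ≤ (A.map (Int.cast : ℤ → ℚ)).rank := by
  classical
  obtain ⟨κ, a, ha, hsp, hli⟩ := exists_linearIndependent' (ZMod q)
    (A.map (Int.cast : ℤ → ZMod q)).row
  have : Finite κ := Finite.of_injective a ha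
  have : Fintype κ := Fintype.ofFinite κ
  have h1 : LinearIndependent ℚ (fun k i => ((A (a k) i : ℤ) : ℚ)) :=
    small_indep q (fun k i => A (a k) i) hli
  rw [rank_eq_finrank_span_row, rank_eq_finrank_span_row, ← hsp, finrank_span_eq_card hli,
    ← finrank_span_eq_card h1]
  apply Submodule.finrank_mono
  apply Submodule.span_mono
  rintro _ ⟨k, rfl⟩
  exact ⟨a k, rfl⟩

section

variable {S G : Type} [Fintype S] [Group G] [Finite G] [MulAction G S]
  [IsPretransitive G S] {z : G} {n N : ℕ}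

/-- The bound of the kernel of the matrix of a walk. -/
private lemma small_ker (hDrop : StDrop) (M : MatSys S G z n N) (m : ℕ) (hm : Squarefree m)
    (hmn : ∀ p : ℕ, p.Prime → p ∣ m → n < p) (K : ℕ) (hK : 1 ≤ K)
    (σ : Fin K → S × Bool × Bool) :
    (kerCard m (M.walk σ) : ℝ) ≤ (m : ℝ) ^ (n - ((M.walk σ).map (Int.cast : ℤ → ℚ)).rank)
      * (2 * (K : ℝ)) ^ (2 * n) := by
  obtain ⟨s₀, hs₀⟩ := M.base
  have hγ : ∀ s : S, ∃ γ : G, M.Φ s = M.R γ := by
    intro s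
    obtain ⟨γ, hγ⟩ := exists_smul_eq G s₀ s
    exact ⟨γ, by rw [← hγ, M.smul, hs₀, mul_one]⟩
  choose γ hγ using hγ
  have h := hDrop G n M.R (Fin K) (fun j => sg (σ j).2.1 + sg (σ j).2.2) (fun j => γ (σ j).1)
    (2 * K) (by omega) (by
      push_cast
      calc ∑ j : Fin K, |sg (σ j).2.1 + sg (σ j).2.2| ≤ ∑ _j : Fin K, (2 : ℤ) := by
            apply Finset.sum_le_sum
            intro j _
            unfold sg
            split_ifs <;> norm_num
        _ = 2 * (K : ℤ) := by simp; ring) m hm hmn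
  have hw : M.walk σ = ∑ j, (sg (σ j).2.1 + sg (σ j).2.2) • M.R (γ (σ j).1) := by
    unfold MatSys.walk
    apply Finset.sum_congr rfl
    intro j _
    rw [hγ]
  rw [hw]
  push_cast at h
  exact h

/-- The share of walks of large corank. -/
private lemma small_count (hCork : StCork) (hz : ∀ s : S, z • z • s = s) (M : MatSys S G z n N)
    (hn : 0 < n) (q : ℕ) [Fact q.Prime] (hq : q ≠ 2) (hqN : ¬ q ∣ N) (K k : ℕ) (hk : k ≤ n)
    (hKq : (n : ℝ) ^ 4 * (q : ℝ) ^ 2 * Real.log q ≤ 4 * K) :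
    ({σ : Fin K → S × Bool × Bool |
      ((M.walk σ).map (Int.cast : ℤ → ZMod q)).rank + k ≤ n}.ncard : ℝ) * (q : ℝ) ^ (k ^ 2)
    ≤ (4 * Fintype.card S) ^ K * 2 ^ (k + 1) := by
  have h := hCork S G z hz n N M hn q hq hqN K k
  have hq0 : (0 : ℝ) < q := by exact_mod_cast (Fact.out : q.Prime).pos
  have hn0 : (0 : ℝ) < n := by exact_mod_cast hn
  have h1 : (q : ℝ) ^ (k * n) * Real.exp (-(4 * K / ((n : ℝ) * q) ^ 2)) ≤ 1 := by
    have h2 : (n : ℝ) ^ 2 * Real.log q ≤ 4 * K / ((n : ℝ) * q) ^ 2 := by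
      rw [le_div_iff₀ (by positivity)]
      have h6 : (n : ℝ) ^ 2 * Real.log q * ((n : ℝ) * q) ^ 2
          = (n : ℝ) ^ 4 * (q : ℝ) ^ 2 * Real.log q := by ring
      rw [h6]
      exact hKq
    have h3 : (q : ℝ) ^ (k * n) = Real.exp ((k * n : ℕ) * Real.log q) := by
      rw [Real.exp_nat_mul, Real.exp_log hq0]
    rw [h3, ← Real.exp_add]
    apply Real.exp_le_one_iff.mpr
    have h4 : ((k * n : ℕ) : ℝ) * Real.log q ≤ (n : ℝ) ^ 2 * Real.log q := by
      apply mul_le_mul_of_nonneg_right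
      · have : k * n ≤ n ^ 2 := by rw [pow_two]; exact Nat.mul_le_mul_right n hk
        exact_mod_cast this
      · apply Real.log_nonneg
        exact_mod_cast (Fact.out : q.Prime).one_lt.le
    linarith
  refine h.trans ?_
  have h5 : (0 : ℝ) ≤ (4 * Fintype.card S) ^ K * 2 ^ k := by positivity
  calc (4 * (Fintype.card S : ℝ)) ^ K * 2 ^ k
      * (1 + (q : ℝ) ^ (k * n) * Real.exp (-(4 * K / ((n : ℝ) * q) ^ 2)))
      ≤ (4 * (Fintype.card S : ℝ)) ^ K * 2 ^ k * 2 := by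
        apply mul_le_mul_of_nonneg_left _ h5
        linarith
    _ = (4 * (Fintype.card S : ℝ)) ^ K * 2 ^ (k + 1) := by ring

end

/-- A sum over the walks. -/
private lemma small_sum {T : Type} [Fintype T] (n k₀ m q : ℕ) (r : T → ℕ) (B : ℝ) (hB : 0 ≤ B)
    (hT : (Fintype.card T : ℝ) = B) (hr : ∀ σ, r σ ≤ n) (hm : 1 ≤ m) (hq : 1 ≤ q)
    (hmq : 4 * m ≤ q ^ k₀)
    (hc : ∀ k ≤ n, ({σ : T | r σ + k ≤ n}.ncard : ℝ) * (q : ℝ) ^ (k ^ 2) ≤ B * 2 ^ (k + 1)) :
    ∑ σ : T, (m : ℝ) ^ (n - r σ) ≤ 3 * B * (m : ℝ) ^ k₀ := by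
  classical
  have hm1 : (1 : ℝ) ≤ m := by exact_mod_cast hm
  have hq1 : (1 : ℝ) ≤ q := by exact_mod_cast hq
  have h1 : ∀ σ : T, (m : ℝ) ^ (n - r σ) ≤ (m : ℝ) ^ k₀
      + ∑ k ∈ Finset.Ioc k₀ n, if r σ + k ≤ n then (m : ℝ) ^ k else 0 := by
    intro σ
    have hnn : 0 ≤ ∑ k ∈ Finset.Ioc k₀ n, if r σ + k ≤ n then (m : ℝ) ^ k else 0 := by
      apply Finset.sum_nonneg
      intro k _
      split_ifs <;> positivity
    by_cases h : n - r σ ≤ k₀
    · have := pow_le_pow_right₀ hm1 h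
      linarith
    · have hmem : n - r σ ∈ Finset.Ioc k₀ n := by
        rw [Finset.mem_Ioc]
        omega
      have h2 : (if r σ + (n - r σ) ≤ n then (m : ℝ) ^ (n - r σ) else 0)
          ≤ ∑ k ∈ Finset.Ioc k₀ n, if r σ + k ≤ n then (m : ℝ) ^ k else 0 := by
        apply Finset.single_le_sum (f := fun k => if r σ + k ≤ n then (m : ℝ) ^ k else 0)
          (fun k _ => by split_ifs <;> positivity) hmem
      rw [if_pos (by have := hr σ; omega)] at h2
      have : (0 : ℝ) ≤ (m : ℝ) ^ k₀ := by positivity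
      linarith
  have h3 : ∀ k ∈ Finset.Ioc k₀ n, ∑ σ : T, (if r σ + k ≤ n then (m : ℝ) ^ k else 0)
      ≤ B * (2 * (1 / 2) ^ k) := by
    intro k hk
    rw [Finset.mem_Ioc] at hk
    rw [← Finset.sum_filter, Finset.sum_const, nsmul_eq_mul]
    have h4 : (Finset.univ.filter (fun σ : T => r σ + k ≤ n)).card
        = {σ : T | r σ + k ≤ n}.ncard := by
      rw [← Set.ncard_coe_finset]
      congr 1
      ext σ
      simp
    rw [h4]
    have h5 : (4 * (m : ℝ)) ^ k ≤ (q : ℝ) ^ (k ^ 2) := by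
      have h6 : (4 * (m : ℝ)) ≤ (q : ℝ) ^ k := by
        have h7 : (4 * (m : ℝ)) ≤ (q : ℝ) ^ k₀ := by exact_mod_cast hmq
        exact h7.trans (pow_le_pow_right₀ hq1 hk.1.le)
      calc (4 * (m : ℝ)) ^ k ≤ ((q : ℝ) ^ k) ^ k := pow_le_pow_left₀ (by positivity) h6 k
        _ = (q : ℝ) ^ (k ^ 2) := by rw [← pow_mul, pow_two]
    have h8 := hc k hk.2
    have h9 : ({σ : T | r σ + k ≤ n}.ncard : ℝ) * (4 * (m : ℝ)) ^ k ≤ B * 2 ^ (k + 1) :=
      (mul_le_mul_of_nonneg_left h5 (by positivity)).trans h8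
    have h10 : ({σ : T | r σ + k ≤ n}.ncard : ℝ) * (m : ℝ) ^ k * 4 ^ k
        ≤ B * (2 * (1 / 2) ^ k) * 4 ^ k := by
      calc ({σ : T | r σ + k ≤ n}.ncard : ℝ) * (m : ℝ) ^ k * 4 ^ k
          = ({σ : T | r σ + k ≤ n}.ncard : ℝ) * (4 * (m : ℝ)) ^ k := by rw [mul_pow]; ring
        _ ≤ B * 2 ^ (k + 1) := h9
        _ = B * (2 * (1 / 2) ^ k) * 4 ^ k := by
            have : (4 : ℝ) ^ k = 2 ^ k * 2 ^ k := by rw [← mul_pow]; norm_num
            rw [this, one_div, inv_pow]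
            field_simp
            ring
    exact le_of_mul_le_mul_right h10 (by positivity)
  have h11 : ∑ k ∈ Finset.Ioc k₀ n, (2 * (1 / 2 : ℝ) ^ k) ≤ 2 := by
    have h12 : ∀ j : ℕ, ∑ k ∈ Finset.Ioc k₀ (k₀ + j), (1 / 2 : ℝ) ^ k ≤ 1 - (1 / 2) ^ j := by
      intro j
      induction j with
      | zero => simp
      | succ j ih =>
        rw [← add_assoc, Finset.sum_Ioc_succ_top (by omega)]
        have h13 : (1 / 2 : ℝ) ^ (k₀ + j + 1) ≤ (1 / 2) ^ (j + 1) :=
          pow_le_pow_of_le_one (by norm_num) (by norm_num) (by omega)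
        have h14 : (1 / 2 : ℝ) ^ j = 2 * (1 / 2) ^ (j + 1) := by rw [pow_succ]; ring
        linarith
    rw [← Finset.mul_sum]
    have h15 : ∑ k ∈ Finset.Ioc k₀ n, (1 / 2 : ℝ) ^ k ≤ 1 := by
      by_cases h : k₀ ≤ n
      · obtain ⟨j, rfl⟩ := Nat.exists_eq_add_of_le h
        have := h12 j
        have : (0 : ℝ) ≤ (1 / 2) ^ j := by positivity
        linarith
      · rw [Finset.Ioc_eq_empty (by omega)]
        simp
    linarith
  calc ∑ σ : T, (m : ℝ) ^ (n - r σ)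
      ≤ ∑ σ : T, ((m : ℝ) ^ k₀
        + ∑ k ∈ Finset.Ioc k₀ n, if r σ + k ≤ n then (m : ℝ) ^ k else 0) :=
        Finset.sum_le_sum (fun σ _ => h1 σ)
    _ = B * (m : ℝ) ^ k₀
        + ∑ k ∈ Finset.Ioc k₀ n, ∑ σ : T, (if r σ + k ≤ n then (m : ℝ) ^ k else 0) := by
        rw [Finset.sum_add_distrib, Finset.sum_comm, Finset.sum_const, nsmul_eq_mul,
          Finset.card_univ, hT]
    _ ≤ B * (m : ℝ) ^ k₀ + ∑ k ∈ Finset.Ioc k₀ n, B * (2 * (1 / 2) ^ k) := by
        gcongr with k hk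
        exact h3 k hk
    _ = B * (m : ℝ) ^ k₀ + B * ∑ k ∈ Finset.Ioc k₀ n, (2 * (1 / 2 : ℝ) ^ k) := by
        rw [Finset.mul_sum]
    _ ≤ B * (m : ℝ) ^ k₀ + B * 2 := by gcongr
    _ ≤ B * (m : ℝ) ^ k₀ + B * (2 * (m : ℝ) ^ k₀) := by
        have : (1 : ℝ) ≤ (m : ℝ) ^ k₀ := one_le_pow₀ hm1
        gcongr
        linarith
    _ = 3 * B * (m : ℝ) ^ k₀ := by ring

theorem pSmall (hCompare : StCompare) (hDrop : StDrop) (hCork : StCork) : StSmall := by
  intro S G _ _ _ _ _ z hz X hX n N M hn m hm hmn q _ hq hqN K k₀ hK hKq hmq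
  have hm0 : m ≠ 0 := hm.ne_zero
  have : NeZero m := ⟨hm0⟩
  have hm1 : 1 ≤ m := Nat.one_le_iff_ne_zero.mpr hm0
  have h1 := hCompare S G z hz X hX n N M m K hK
  have hS : 0 < Fintype.card S := by
    obtain ⟨s₀, _⟩ := M.base
    exact Fintype.card_pos_iff.mpr ⟨s₀⟩
  have hB : (0 : ℝ) < (4 * Fintype.card S) ^ K := by positivity
  have hT : (Fintype.card (Fin K → S × Bool × Bool) : ℝ) = (4 * (Fintype.card S : ℝ)) ^ K := by
    simp only [Fintype.card_pi, Finset.prod_const, Finset.card_univ, Fintype.card_fin,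
      Fintype.card_prod, Fintype.card_bool]
    push_cast
    ring
  have h2 : ∑ σ : Fin K → S × Bool × Bool, (m : ℝ) ^
      (n - ((M.walk σ).map (Int.cast : ℤ → ZMod q)).rank)
      ≤ 3 * (4 * (Fintype.card S : ℝ)) ^ K * (m : ℝ) ^ k₀ := by
    apply small_sum n k₀ m q (fun σ => ((M.walk σ).map (Int.cast : ℤ → ZMod q)).rank)
      _ hB.le hT _ hm1 (Fact.out : q.Prime).one_lt.le hmq
    · intro k hk
      exact small_count hCork hz M hn q hq hqN K k hk hKq
    · intro σ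
      exact rank_le_width _
  have h3 : ∑ σ : Fin K → S × Bool × Bool, (kerCard m (M.walk σ) : ℝ)
      ≤ 3 * (4 * (Fintype.card S : ℝ)) ^ K * (m : ℝ) ^ k₀ * (2 * (K : ℝ)) ^ (2 * n) := by
    calc ∑ σ : Fin K → S × Bool × Bool, (kerCard m (M.walk σ) : ℝ)
        ≤ ∑ σ : Fin K → S × Bool × Bool, (m : ℝ) ^
          (n - ((M.walk σ).map (Int.cast : ℤ → ZMod q)).rank) * (2 * (K : ℝ)) ^ (2 * n) := by
          apply Finset.sum_le_sum
          intro σ _
          refine (small_ker hDrop M m hm hmn K (by omega) σ).trans ?_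
          apply mul_le_mul_of_nonneg_right _ (by positivity)
          apply pow_le_pow_right₀ (by exact_mod_cast hm1)
          have := small_rank_le q (M.walk σ)
          omega
      _ = (∑ σ : Fin K → S × Bool × Bool, (m : ℝ) ^
          (n - ((M.walk σ).map (Int.cast : ℤ → ZMod q)).rank)) * (2 * (K : ℝ)) ^ (2 * n) := by
          rw [Finset.sum_mul]
      _ ≤ _ := by
          apply mul_le_mul_of_nonneg_right h2 (by positivity)
  have h4 : ({v : (Fin n → ZMod m) × (Fin n → ZMod m) | K * M.sz X m v.1 v.2 ≤ X.card}.ncard : ℝ)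
      * (4 * Fintype.card S) ^ K ≤ 3 ^ 21 * (m : ℝ) ^ (n + k₀) * (2 * (K : ℝ)) ^ (2 * n)
        * (4 * Fintype.card S) ^ K := by
    refine h1.trans ?_
    calc (3 : ℝ) ^ 20 * (m : ℝ) ^ n * ∑ σ : Fin K → S × Bool × Bool, (kerCard m (M.walk σ) : ℝ)
        ≤ (3 : ℝ) ^ 20 * (m : ℝ) ^ n *
          (3 * (4 * (Fintype.card S : ℝ)) ^ K * (m : ℝ) ^ k₀ * (2 * (K : ℝ)) ^ (2 * n)) := by
          gcongr
      _ = _ := by rw [pow_add]; ring
  exact le_of_mul_le_mul_right h4 hB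

end Pool.Agent.Lib.MP_640417_ag.Full
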