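import Pool.Agent.Lib.MP_640417_ag.Full.SpecA
import Pool.Agent.Lib.MP_640417_ag.Far.Red
import Pool.Agent.Lib.MP_640417_ag.Far.Count

/-!
# The dimension of the span of all copies
-/

namespace Pool.Agent.Lib.MP_640417_ag.Full

open Module Finset MulAction Pool.Agent.Lib.MP_640417_ag.Far
open scoped TensorProduct

theorem pSpan : StSpan := by
  intro S G _ _ _ _ _ s₀ p hp U hU hpK
  classical
  set M₀ : Submodule (ZMod p) (S → ZMod p) := red p U with hM₀
  have hstab : IsStab G M₀ := red_stab p U hU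
  -- the space of equivariant maps embeds into the invariant forms
  have h1 : finrank (ZMod p) (homF G M₀) ≤ finrank ℚ ↥(U ⊓ invF ℚ (stabilizer G s₀)) := by
    let ev : homF G M₀ →ₗ[ZMod p] invDual p (stabilizer G s₀) M₀ :=
      { toFun := fun θ => ⟨(LinearMap.proj (R := ZMod p) (φ := fun _ : S => ZMod p) s₀).comp θ.1, by
          intro b hb f f' hff
          have h := θ.2 f f' b hff s₀
          rw [show b • s₀ = s₀ from hb] at h
          exact h⟩
        map_add' := fun θ θ' => by
          apply Subtype.ext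
          apply LinearMap.ext
          intro f
          rfl
        map_smul' := fun c θ => by
          apply Subtype.ext
          apply LinearMap.ext
          intro f
          rfl }
    have hev : ∀ (θ : homF G M₀) (f : M₀), (ev θ).1 f = θ.1 f s₀ := fun θ f => rfl
    have hinj : Function.Injective ev := by
      intro θ θ' h
      apply Subtype.ext
      apply LinearMap.ext
      intro f
      funext s
      obtain ⟨γ, rfl⟩ := MulAction.exists_smul_eq G s₀ s
      have h2 := θ.2 f ⟨_, hstab _ f.2 γ⟩ γ (fun _ => rfl) s₀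
      have h3 := θ'.2 f ⟨_, hstab _ f.2 γ⟩ γ (fun _ => rfl) s₀
      rw [← h2, ← h3, ← hev, ← hev, h]
    have : Finite (Dual (ZMod p) M₀) := Finite.of_injective
      (fun l : Dual (ZMod p) M₀ => (l : M₀ → ZMod p)) DFunLike.coe_injective
    have h2 : finrank (ZMod p) (homF G M₀) ≤ finrank (ZMod p) (invDual p (stabilizer G s₀) M₀) :=
      LinearMap.finrank_le_finrank_of_injective hinj
    have h3 := card_invDual p U red_rank (stabilizer G s₀) hU hpK
    rw [Module.natCard_eq_pow_finrank (K := ZMod p), Nat.card_zmod] at h3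
    exact h2.trans ((Nat.pow_le_pow_iff_right hp.out.one_lt).1 h3)
  let Ψ : (homF G M₀) ⊗[ZMod p] M₀ →ₗ[ZMod p] (S → ZMod p) :=
    TensorProduct.lift (homF G M₀).subtype
  have h2 : (⨆ M ∈ copies G M₀, M) ≤ LinearMap.range Ψ := by
    refine iSup₂_le fun M hM => ?_
    obtain ⟨_, θ, hθ⟩ := hM
    intro x hx
    let t : homF G M₀ := ⟨M.subtype.comp θ.toLinearMap, fun f f' γ hff s => hθ f f' γ hff s⟩
    refine ⟨t ⊗ₜ[ZMod p] (θ.symm ⟨x, hx⟩), ?_⟩
    have : Ψ (t ⊗ₜ[ZMod p] (θ.symm ⟨x, hx⟩)) = (θ (θ.symm ⟨x, hx⟩)).1 := rfl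
    rw [this, LinearEquiv.apply_symm_apply]
  have h3 : finrank (ZMod p) (LinearMap.range Ψ)
      ≤ finrank (ZMod p) (homF G M₀) * finrank (ZMod p) M₀ := by
    refine (LinearMap.finrank_range_le Ψ).trans (le_of_eq ?_)
    exact Module.finrank_tensorProduct
  calc finrank (ZMod p) ↥(⨆ M ∈ copies G M₀, M) ≤ finrank (ZMod p) (LinearMap.range Ψ) :=
        Submodule.finrank_mono h2
    _ ≤ finrank (ZMod p) (homF G M₀) * finrank (ZMod p) M₀ := h3
    _ = finrank ℚ U * finrank (ZMod p) (homF G M₀) := by rw [hM₀, red_rank S p U, mul_comm]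
    _ ≤ finrank ℚ U * finrank ℚ ↥(U ⊓ invF ℚ (stabilizer G s₀)) := Nat.mul_le_mul_left _ h1

end Pool.Agent.Lib.MP_640417_ag.Full
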