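import Pool.Agent.Lib.MP_640417_ag.Full.Defs

/-!
# All CM fields: statements of the steps, first part

Conventions. `D = finrank U`, `h = finrank (U ⊓ invF (stabilizer s₀))`, `e = finrank (endF G U)`,
`N = (kerSub G U).index`, `g = X.card`, `κ p a = cosAvg p a`.
-/

namespace Pool.Agent.Lib.MP_640417_ag.Full

open Module Finset MulAction Pool.Agent.Lib.MP_640417_ag.Far

/-- Frobenius reciprocity: the dimension of the space of equivariant maps.

Proof. Evaluation at `s₀` sends `θ` to the linear form `f ↦ θ f s₀` on `U`, which is invariant under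
the stabilizer `H` of `s₀` (`θ (f ∘ b) s₀ = θ f (b s₀) = θ f s₀`). This is injective as
`θ f (γ s₀) = θ (f ∘ γ) s₀`, and surjective: for an `H`-invariant form `l` put
`θ f (γ s₀) = l (f ∘ γ)`. So the dimension is that of the space of `H`-invariant forms on `U`. The
form `(f, f') ↦ ∑ s, f s * f' s` on `U` is positive definite, hence identifies `U` with its dual,
and it is invariant under `H`, so invariant forms correspond to `U ⊓ invF H`. -/
def StHomDim : Prop := ∀ (S G : Type) [Fintype S] [Group G] [Finite G] [MulAction G S]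
  [IsPretransitive G S] (s₀ : S) (U : Submodule ℚ (S → ℚ)), IsStab G U →
  finrank ℚ (homF G U) = finrank ℚ ↥(U ⊓ invF ℚ (stabilizer G s₀))

/-- Multiplicities.

Proof (with `StHomDim`, `types_inf_ne_bot`, `finrank_odd_le`, ideas of `Far/Indep.lean`). For each
`i` let `m i` be the largest number `k` such that there are `k` stable spaces `V 1, …, V k` of
functions, all isomorphic to `U i` and linearly independent (their sum is direct); `k ≤ |S|`. For
`θ ∈ homF G (U i)`, nonzero, the image is stable and isomorphic to `U i` (the kernel is stable, `U i`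
irreducible), so by maximality it meets `W i := V 1 ⊔ … ⊔ V k`, and as it is irreducible it lies in
`W i`. So `homF G (U i)` is isomorphic to the sum of the `k` spaces of equivariant maps from `U i` to
`V j`, and each of these is isomorphic to `endF G (U i)` (compose with a fixed isomorphism). Hence
`finrank (homF G (U i)) = m i * finrank (endF G (U i))`. As the left side is positive
(`types_inf_ne_bot`) `1 ≤ m i`. The `W i` for different `i` are independent: all the spaces
`V (i, j)` are irreducible; if they were dependent there would be one, say `V (i, j)`, meeting hence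
contained in the sum of an independent family of others; the projections of `V (i, j)` to the members
of this family are zero or isomorphisms, so only members with first index `i` occur,
contradicting independence for fixed `i`. Finally all spaces consist of odd functions, whose total
dimension is `X.card` (`finrank_odd_le` for the sum), so `∑ m i * D i ≤ X.card`. -/
def StMult : Prop := ∀ (S G : Type) [Fintype S] [Group G] [Finite G] [MulAction G S]
  [IsPretransitive G S] (s₀ : S) (z : G) (_ : ∀ s : S, z • z • s = s) (X : Finset S)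
  (_ : ∀ s, s ∈ X ↔ z • s ∉ X) (n : ℕ) (U : Fin n → Submodule ℚ (S → ℚ)),
  (∀ i, IsIrr G (U i) ∧ IsOddSp z (U i)) → (∀ i j, i ≠ j → ¬ IsoF G (U i) (U j)) →
  ∃ m : Fin n → ℕ, (∀ i, 1 ≤ m i) ∧
    (∀ i, finrank ℚ ↥(U i ⊓ invF ℚ (stabilizer G s₀)) = m i * finrank ℚ (endF G (U i))) ∧
    ∑ i, m i * finrank ℚ (U i) ≤ X.card

/-- The number of units of a finite algebra over the field with `p` elements is at least
`(p - 1) ^ dimension`.

Proof. Let `J` be the Jacobson radical. `A / J` is semisimple, hence a product of matrix rings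
`M_{n i}(F i)` over finite fields (Wedderburn Artin and little Wedderburn, both in Mathlib); units
lift, and `1 + J` consists of units, so `|Aˣ| = |J| * ∏ |GL_{n i}(F i)|`. With `q = |F i| = p ^ f`:
`|GL_n(q)| = ∏_{i < n} (q ^ n - q ^ i) ≥ (q ^ n - q ^ (n - 1)) ^ n = (q ^ (n - 1) (q - 1)) ^ n
≥ (q - 1) ^ (n ^ 2)` and `q - 1 ≥ (p - 1) ^ f`. (Another proof by induction is fine; only the
semisimple case is needed below, you may add the hypothesis `IsSemisimpleRing A` if you tell me, in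
that case the task `StCountE` has to prove it from Maschke.) -/
def StUnits : Prop := ∀ (p : ℕ) [Fact p.Prime] (A : Type) [Ring A] [Algebra (ZMod p) A] [Finite A],
  (p - 1) ^ finrank (ZMod p) A ≤ Nat.card Aˣ

/-- Reduction of endomorphisms, lower bound.

Proof. Let `L` be the group of integer valued members of `U` (written as functions `S → ℤ`, compare
`latt` in `Far/Red.lean`) and `O` the group of `θ ∈ endF G U` with `θ L ⊆ L`. `O` spans `endF G U`
over `ℚ` and is finitely generated and torsion free, so `O / p O` has dimension `e` over `ZMod p`.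
The reduction `L → red p U` is surjective with kernel `p L`, so every `θ ∈ O` induces an element of
`endF G (red p U)`, and this is zero iff `θ L ⊆ p L` iff `θ / p ∈ O`. So `O / p O` embeds into
`endF G (red p U)`. (In practice: take a maximal family `θ 1, …, θ e` in `O` whose reductions are
independent; or use the subspace of `endF` with a saturated lattice; the proof of `StRed` in
`Far/Red.lean` is of the same kind. One can identify `U →ₗ U` with functions on a finite set after
choosing a basis of `L` and apply `StRed`-like arguments.) -/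
def StEndGe : Prop := ∀ (S G : Type) [Finite S] [Group G] [MulAction G S] (p : ℕ) [Fact p.Prime]
  (U : Submodule ℚ (S → ℚ)), IsStab G U →
  finrank ℚ (endF G U) ≤ finrank (ZMod p) (endF G (red p U))

/-- Lifting of endomorphisms: if `p` does not divide the order `N` of the group acting, then every
equivariant endomorphism of the reduction lifts, up to the factor `N`.

Proof. `L` the integer valued members of `U`, a free abelian group with `L / p L = red p U`. Choose
an additive map `θ₀ : L → L` lifting `φ` (choose lifts on a basis of `L`). The quotient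
`Q = G / kerSub G U` acts on `L` (by `f ↦ f ∘ γ`, `actHom` in `Far/BN.lean`), and
`θ = ∑_{q ∈ Q} (translation by q)⁻¹ ∘ θ₀ ∘ (translation by q)` is equivariant and reduces to
`N • φ`. Extend it `ℚ`-linearly to `U`. -/
def StLift : Prop := ∀ (S G : Type) [Fintype S] [Group G] [Finite G] [MulAction G S] (p : ℕ)
  [Fact p.Prime] (U : Submodule ℚ (S → ℚ)), IsStab G U → ¬ p ∣ (kerSub G U).index →
  ∀ φ ∈ endF G (red p U), ∃ θ ∈ endF G U, ∀ (v : S → ℤ) (hv : (fun s => (v s : ℚ)) ∈ U),
    ∃ v' : S → ℤ, (∀ s, (θ ⟨_, hv⟩).1 s = (v' s : ℚ)) ∧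
      ∀ s, ((kerSub G U).index : ZMod p) * (φ ⟨fun s => (v s : ZMod p), v, hv, fun _ => rfl⟩).1 s
        = (v' s : ZMod p)

/-- Reduction of endomorphisms, upper bound (from `StLift`).

Proof. Let `φ 1, …, φ k` be a basis of `endF G (red p U)`, `θ j` the lifts of `StLift`. If
`∑ c j θ j = 0` with rational `c j`, not all zero, scale so that the `c j` are integers, not all
divisible by `p`; then `∑ c j N φ j = 0`, and `N ≠ 0` modulo `p`, a contradiction. -/
def StEndLe : Prop := ∀ (S G : Type) [Fintype S] [Group G] [Finite G] [MulAction G S] (p : ℕ)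
  [Fact p.Prime] (U : Submodule ℚ (S → ℚ)), IsStab G U → ¬ p ∣ (kerSub G U).index →
  finrank (ZMod p) (endF G (red p U)) ≤ finrank ℚ (endF G U)

/-- The number of copies of a reduction, improved form (from `StUnits`, `StEndGe` and
`card_invDual` in `Far/Count.lean`).

Proof. Let `A = endF G (red p U)`, a finite algebra under composition (define a subalgebra of
`Module.End (ZMod p) (red p U)` with this carrier) of dimension at least `e`, so it has at least
`(p - 1) ^ e` units (if `p = 2` this is `1`). Send a pair `(α, M)`, `α` a unit of `A` and `M` a copy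
with a chosen isomorphism `θ_M : red p U ≃ M`, to the linear form `f ↦ θ_M (α f) s₀` in
`invDual p (stabilizer G s₀) (red p U)`. This is injective: the form determines the equivariant map
`θ_M ∘ α` (evaluate at translates, as in `count_of`), hence its image `M` and then `α`. -/
def StCountE : Prop := ∀ (S G : Type) [Fintype S] [Group G] [Finite G] [MulAction G S]
  [IsPretransitive G S] (s₀ : S) (p : ℕ) [Fact p.Prime] (U : Submodule ℚ (S → ℚ)), U ≠ ⊥ →
  IsStab G U → ¬ p ∣ (kerSub G U).index →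
  (p - 1) ^ finrank ℚ (endF G U) * (copies G (red p U)).ncard
    ≤ p ^ finrank ℚ ↥(U ⊓ invF ℚ (stabilizer G s₀))

/-- The number of sign functions orthogonal to some copy (from `StRed`, `StBN`, `StCountE`; same
proof as `bad_of` in `Far/Bad.lean`). -/
def StBadE : Prop := ∀ (S G : Type) [Fintype S] [Group G] [Finite G] [MulAction G S]
  [IsPretransitive G S] (s₀ : S) (z : G) (_ : ∀ s : S, z • z • s = s)
  (X : Finset S) (_ : ∀ s, s ∈ X ↔ z • s ∉ X) (U : Submodule ℚ (S → ℚ)), U ≠ ⊥ →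
  IsStab G U → IsOddSp z U → ∀ (p : ℕ) [Fact p.Prime], p ≠ 2 → ¬ p ∣ (kerSub G U).index →
  (∀ a : ℝ, 0 ≤ a → a * finrank ℚ U ≤ X.card →
    ((p : ℝ) - 1) ^ finrank ℚ (endF G U) * (badSet z U).ncard
      ≤ (p : ℝ) ^ finrank ℚ ↥(U ⊓ invF ℚ (stabilizer G s₀))
        * (2 ^ X.card * cosAvg p a ^ finrank ℚ U)) ∧
  ((p : ℝ) - 1) ^ finrank ℚ (endF G U) * (badSet z U).ncard
      ≤ (p : ℝ) ^ finrank ℚ ↥(U ⊓ invF ℚ (stabilizer G s₀))
        * (2 ^ X.card * (1 / 2) ^ finrank ℚ U)

/-- Means of powers of the cosine.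

Proof. `p * cosAvg p a = ∑ t, cosAbs p t ^ a`. For `t ≠ 0` write `2 t ≡ ± j` modulo `p` with
`1 ≤ j ≤ (p - 1) / 2`; then `cosAbs p t = cos (π j / p) ≤ exp (- π ^ 2 j ^ 2 / (2 p ^ 2))`
(`cos y ≤ exp (- y ^ 2 / 2)` on `[0, π / 2]`; compare `cosAbs_le_exp`, `mul_cosAvg_le` in
`CosBound.lean`), and each `j` occurs twice. So the sum is at most
`1 + 2 ∑_{j ≥ 1} exp (- y j ^ 2)` with `y = π ^ 2 a / (2 p ^ 2)`. (1) If `p ^ 2 ≤ a` then
`y ≥ 4.9`, and `∑_{j ≥ 1} exp (- y j ^ 2) ≤ ∑_{j ≥ 1} exp (- y j) ≤ 1.01 exp (- y)` and `y ≥ 4 a / p ^ 2`.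
(2) In general `∑_{j ≥ 1} exp (- y j ^ 2) ≤ ∫_0^∞ exp (- y t ^ 2) dt = (1 / 2) √(π / y)`, that is
`p * cosAvg p a ≤ 1 + √(π / y) = 1 + p √(2 / (π a)) ≤ 1 + p / √a`. -/
def StKappa : Prop := ∀ (p : ℕ) [Fact p.Prime], p ≠ 2 →
  (∀ a : ℝ, (p : ℝ) ^ 2 ≤ a → p * cosAvg p a ≤ 1 + 3 * Real.exp (-(4 * a / (p : ℝ) ^ 2))) ∧
  (∀ a : ℝ, 0 < a → p * cosAvg p a ≤ 1 + p / Real.sqrt a)

/-- The numerical bound for one type of moderate dimension (from `StPrime` and `StKappa`). It
refines `StNum` (`Far/Num.lean`, whose lemmas can be adapted).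

Proof. Put `Λ = D log (D + 1) / g`. As `Λ ≥ (log 2) / g`, for bounded `g` (and whenever `Λ` is not
small) the bound holds trivially with a large `C`, since `x ≤ 1`. Let
`P = √(g / (K D log (D + 1))) = 1 / √(K Λ)`, `K = 2`. Suppose an odd prime `p ∤ N` with
`P / 8 < p ≤ P` is given, let `a = g / D`. Then `a / p ^ 2 ≥ K log (D + 1)`, in particular
`p ^ 2 ≤ a`, so `(p κ) ^ D ≤ (1 + 3 (D + 1) ^ (- 4 K)) ^ D ≤ e ^ 3` and
`x ≤ p ^ h κ ^ D / (p - 1) ^ e ≤ e ^ 3 p ^ (h - D) (p - 1) ^ (- e) ≤ e ^ 3 (p - 1) ^ (h - D - e)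
≤ e ^ 3 (p - 1) ^ (- k) ≤ e ^ 3 (16 / P) ^ k`, which is the claim as `1 / P = √(K Λ)`. It remains to
find `p`, or to prove the bound otherwise.
Case A: `D + 1 ≤ P / 8` and `P` large: any prime in `(P / 8, P]` will do (Bertrand), it does not
divide `N` by the hypothesis on primes above `D + 1`.
Case B: `D + 1 > P / 8`: then `D ^ 3 log (D + 1) ≥ g / 1000`, so `D ≥ g ^ (1/4)` for large `g`.
 B1: `8 h log₂ (4 D) ≤ D`: take a prime `D + 1 < p ≤ 2 (D + 2) ≤ 4 D`, it does not divide `N`, and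
 the last hypothesis gives `x ≤ p ^ h (1 / 2) ^ D ≤ 2 ^ (D / 8 - D)`, which for `D ≥ g ^ (1/4)` and
 large `g` is at most `g ^ (- 3 / 2) ≤ C Λ ^ (3/2)`, `Λ ≤ 1` (else trivial).
 B2: `h / D > 1 / (8 log₂ (4 D))`: with `r = ⌈8 log₂ (4 D) * log D⌉ + 1` we have
 `D (1 - h / D) ^ r < 1`, so `log N ≤ r log (2 g) ≤ C (log g) ^ 3 ≤ P / 4` for large `g`, because
 `P ≥ g ^ (a₀ / 2) / √(2 log (g + 1))`. `StPrime` gives `p`. -/
def StNumC : Prop := ∀ a₀ : ℝ, 0 < a₀ → ∃ C : ℝ, 0 < C ∧ ∀ (g D h e N : ℕ) (x : ℝ),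
  1 ≤ e → e ≤ h → h ≤ D → (D : ℝ) ≤ (g : ℝ) ^ (1 - a₀) → 0 < N → 0 ≤ x → x ≤ 1 →
  (∀ r : ℕ, (D : ℝ) * (1 - (h : ℝ) / D) ^ r < 1 → (N : ℝ) ≤ (2 * g : ℝ) ^ r) →
  (∀ p : ℕ, p.Prime → D + 1 < p → ¬ p ∣ N) →
  (∀ (p : ℕ) [Fact p.Prime], p ≠ 2 → ¬ p ∣ N → ∀ a : ℝ, 0 ≤ a → a * D ≤ g →
    ((p : ℝ) - 1) ^ e * x ≤ (p : ℝ) ^ h * cosAvg p a ^ D) →
  (∀ (p : ℕ) [Fact p.Prime], p ≠ 2 → ¬ p ∣ N →
    ((p : ℝ) - 1) ^ e * x ≤ (p : ℝ) ^ h * (1 / 2) ^ D) →
  ∀ k : ℕ, k ≤ 3 → k + h ≤ e + D → x ≤ C * Real.sqrt (D * Real.log (D + 1) / g) ^ k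

/-- A reduction with a stable line comes from a space with abelian action.

Proof. Let `w` span the line, `w (γ s) = c(γ) w s`. `c` is a homomorphism to `(ZMod p)ˣ`, so `w` is
invariant under the commutator subgroup `B = commutator G`. So `red p U ⊓ invF (ZMod p) B ≠ ⊥`, hence
`U ⊓ invF ℚ B ≠ ⊥` by `inv_red_le` (`Far/Count.lean`); as `B` is normal this space is stable, so
`U ≤ invF ℚ B` by irreducibility. So for every `γ` the map `T_γ : f ↦ f ∘ γ` of `U` is equivariant
(`f (γ δ s) = f (δ γ s)` for `f ∈ U`), and the `T_γ` commute. For a nonzero `f ∈ U` the evaluation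
`endF G U → U`, `θ ↦ θ f` is onto: its image contains all translates of `f`, which span a stable
space. So `finrank U ≤ finrank (endF G U)`. -/
def StOneDim : Prop := ∀ (S G : Type) [Fintype S] [Group G] [Finite G] [MulAction G S] (p : ℕ)
  [Fact p.Prime] (U : Submodule ℚ (S → ℚ)), IsIrr G U → ¬ p ∣ (kerSub G U).index →
  ∀ w ∈ red p U, w ≠ 0 → (∀ γ : G, ∃ c : ZMod p, ∀ s, w (γ • s) = c * w s) →
  finrank ℚ U ≤ finrank ℚ (endF G U)

/-- Maschke: stable complements inside a reduction, when `p` does not divide the order of the group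
acting: there is an equivariant projection onto `W`.

Proof. Average any projection over the quotient `G / kerSub G M`; `M = red p U` is acted on through
`G / kerSub G U`. -/
def StMaschke : Prop := ∀ (S G : Type) [Fintype S] [Group G] [Finite G] [MulAction G S] (p : ℕ)
  [Fact p.Prime] (M : Submodule (ZMod p) (S → ZMod p)), IsStab G M →
  ¬ p ∣ (kerSub G M).index → ∀ W : Submodule (ZMod p) (S → ZMod p), IsStab G W → W ≤ M →
  ∃ π ∈ endF G M, (∀ f : M, (π f).1 ∈ W) ∧ ∀ f : M, f.1 ∈ W → π f = f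

/-- The number of copies through a given function, for small endomorphism algebras (from
`StMaschke`, `StEndLe`; counting as in `Far/Count.lean`).

Proof. Write `M₀ = red p U`. By `StEndLe` `dim endF G M₀ ≤ 2`. Stable subspaces of `M₀`: if
`0 ≠ W < M₀` is stable, the projection `π` of `StMaschke` onto `W` is neither `0` nor the identity,
so `endF G M₀` is spanned by `id` and `π`, and its only idempotents are `0, id, π, id - π`. So the
stable subspaces of `M₀` (images of equivariant projections) are among `⊥, M₀, W₁ = im π,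
W₂ = ker π`. The same holds in every copy `M` of `M₀`. Let `M` be a copy with `w ∈ M` and `W` the
span of all translates of `w`. If `W` has dimension `D = dim M₀` then `M = W`: at most one copy.
Otherwise the transport of `W ≤ M` to `M₀` is `W₁` or `W₂`, and `M = W ⊕ W'`, with `W'` isomorphic
to `W₂` or `W₁` respectively. The number of stable `W'` in the space of all functions isomorphic to
a given `W_j` of dimension `d'` is at most `(p ^ d' - 1) / (p - 1) ≤ 2 p ^ (d' - 1)`: equivariant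
injections of `W_j` correspond to nonzero linear forms on `W_j` (evaluate at `s₀`), and nonzero
multiples have the same image. As all nonzero stable subspaces have dimension at least `2`
(hypothesis), `d' ≤ D - 2`, and together there are at most `1 + 2 * 2 p ^ (D - 3)` copies. -/
def StCopies : Prop := ∀ (S G : Type) [Fintype S] [Group G] [Finite G] [MulAction G S]
  [IsPretransitive G S] (s₀ : S) (p : ℕ) [Fact p.Prime] (U : Submodule ℚ (S → ℚ)), IsStab G U →
  ¬ p ∣ (kerSub G U).index → 3 ≤ finrank ℚ U → finrank ℚ (endF G U) ≤ 2 →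
  (∀ W : Submodule (ZMod p) (S → ZMod p), W ≠ ⊥ → W ≤ red p U → IsStab G W →
    2 ≤ finrank (ZMod p) W) →
  ∀ w : S → ZMod p, w ≠ 0 →
    {M : Submodule (ZMod p) (S → ZMod p) | M ∈ copies G (red p U) ∧ w ∈ M}.ncard
      ≤ 1 + 4 * p ^ (finrank ℚ U - 3)

/-- The space spanned by all copies.

Proof. Every copy is the image of an equivariant map `θ : red p U → (S → ZMod p)`; the space of these
maps embeds into `invDual p (stabilizer G s₀) (red p U)` by evaluation at `s₀`, and so has dimension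
at most `h` (`card_invDual`). The span of all copies is contained in the sum of the images of a
basis `θ 1, …, θ k`, `k ≤ h`, of this space of maps, and each image has dimension at most
`finrank (red p U) = D`. -/
def StSpan : Prop := ∀ (S G : Type) [Fintype S] [Group G] [Finite G] [MulAction G S]
  [IsPretransitive G S] (s₀ : S) (p : ℕ) [Fact p.Prime] (U : Submodule ℚ (S → ℚ)),
  IsStab G U → ¬ p ∣ (kerSub G U).index →
  finrank (ZMod p) ↥(⨆ M ∈ copies G (red p U), M)
    ≤ finrank ℚ U * finrank ℚ ↥(U ⊓ invF ℚ (stabilizer G s₀))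

/-- The Fourier bound for a family of spaces (see `card_mul_card_le` and the proof of
`ncard_orth_le` in `FourierPack.lean`).

Proof. For each `M ∈ T` the number of sign functions orthogonal to `M` is at most
`2 ^ g p ^ (- D) ∑_{w ∈ M} ∏_{x ∈ X} cosAbs p (w x)`; the term of `w = 0` is `1`. Sum over `M`: every
nonzero `w` is counted at most `m` times, and `∑_{w ∈ I} ∏_{x ∈ X} cosAbs p (w x) ≤ (p κ) ^ dim I`,
which is shown inside the proof of `ncard_orth_le`. -/
def StFour : Prop := ∀ (S G : Type) [Fintype S] [Group G] [Finite G] [MulAction G S]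
  [IsPretransitive G S] (z : G) (_ : ∀ s : S, z • z • s = s)
  (X : Finset S) (_ : ∀ s, s ∈ X ↔ z • s ∉ X) (p : ℕ) [Fact p.Prime], p ≠ 2 →
  ∀ (T : Set (Submodule (ZMod p) (S → ZMod p))) (I : Submodule (ZMod p) (S → ZMod p))
    (D m : ℕ) (a : ℝ),
  (∀ M ∈ T, IsStab G M ∧ finrank (ZMod p) M = D ∧ M ≤ I) → IsStab G I → IsOddSp z I →
  (∀ w : S → ZMod p, w ≠ 0 → {M | M ∈ T ∧ w ∈ M}.ncard ≤ m) → 0 ≤ a →
  a * finrank (ZMod p) I ≤ X.card →
  (p : ℝ) ^ D * ({e : S → ℤ | IsSgn z e ∧ ∃ M ∈ T, Perp e M}.ncard : ℝ)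
    ≤ 2 ^ X.card * (T.ncard + m * (p * cosAvg p a) ^ finrank (ZMod p) I)

/-- Types of small dimension with `e + D - h = 2` (from `StRed`, `StBN`, `StCountE`, `StOneDim`,
`StCopies`, `StSpan`, `StFour`, `StKappa`, `StTame`, `finrank_odd_le`).

Proof. If `(8 D) ^ (D ^ 2) ≥ g ^ (5/4)` the claim is trivial (`ncard_isSgn_le`), so assume the
contrary; in particular `g` is large compared with `D`. By hypothesis `e ≤ h` and `h ≤ D` (a
subspace of `U`), so `e = 2 + h - D ≤ 2 < D`. Let `δ = 1 / (4 D ^ 2)`, and `p` a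
prime with `g ^ (1/2 + δ) ≤ p ≤ 4 g ^ (1/2 + δ)` (Bertrand); it exceeds `D + 1` and `2`, so it does not
divide `N` (`StTame`). Let `T` be the set of copies of `red p U`, `I` their span, of dimension
`d ≤ D ^ 2 ≤ g` (`StSpan`), consisting of odd functions (`IsoF.odd`). A bad sign function is
orthogonal to a member of `T` (`StBN`, `red_perp`). `|T| ≤ p ^ h / (p - 1) ^ e ≤ 4 p ^ (h - e)`.
By `StOneDim` the hypothesis of `StCopies` on stable subspaces holds since `e < D` (a stable subspace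
of dimension `1` is spanned by some `w` as in `StOneDim`). With `a = g / D ^ 2` and `StKappa` (2):
`p κ ≤ 1 + p D / √g ≤ 5 D g ^ δ`, so `StFour` (with `m = 5 p ^ (D - 3)`) gives
`x ≤ p ^ (- D) (4 p ^ (h - e) + 5 p ^ (D - 3) (5 D g ^ δ) ^ (D ^ 2))
≤ 4 p ^ (- 2) + 5 p ^ (- 3) (5 D) ^ (D ^ 2) g ^ (1/4)
≤ 4 g ^ (- 1 - 2 δ) + 5 (5 D) ^ (D ^ 2) g ^ (- 5/4)`, as `D + e - h = 2`. -/
def StTwo : Prop := ∃ C : ℝ, 0 < C ∧ ∀ (S G : Type) [Fintype S] [Group G]
  [Finite G] [MulAction G S] [IsPretransitive G S] (s₀ : S) (z : G) (_ : ∀ s : S, z • z • s = s)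
  (X : Finset S) (_ : ∀ s, s ∈ X ↔ z • s ∉ X) (U : Submodule ℚ (S → ℚ)), IsIrr G U →
  IsOddSp z U → 3 ≤ finrank ℚ U →
  finrank ℚ (endF G U) ≤ finrank ℚ ↥(U ⊓ invF ℚ (stabilizer G s₀)) →
  finrank ℚ (endF G U) + finrank ℚ U = finrank ℚ ↥(U ⊓ invF ℚ (stabilizer G s₀)) + 2 →
  ((badSet z U).ncard : ℝ) ≤ C * ((X.card : ℝ) ^ (-1 - 1 / (2 * (finrank ℚ U : ℝ) ^ 2))
    + (8 * (finrank ℚ U : ℝ)) ^ (finrank ℚ U ^ 2) * (X.card : ℝ) ^ (-(5 / 4) : ℝ)) * 2 ^ X.card

/-- Bad sign functions and a stable subspace of the reduction (from `StRed`, `StBN`,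
`ncard_orth_le`).

Proof. A bad `e` is orthogonal to a copy of `red p U`, hence to a stable space isomorphic to `W`.
The number of stable spaces of functions isomorphic to `W` is at most `p ^ dim W / (p - 1)`:
equivariant injections `W → (S → ZMod p)` correspond to linear forms on `W` (evaluate at `s₀`), and
the `p - 1` nonzero multiples of an injection have the same image. Each of them is orthogonal to at
most `2 ^ g κ ^ dim W` sign functions (`ncard_orth_le`). -/
def StSub : Prop := ∀ (S G : Type) [Fintype S] [Group G] [Finite G] [MulAction G S]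
  [IsPretransitive G S] (s₀ : S) (z : G) (_ : ∀ s : S, z • z • s = s)
  (X : Finset S) (_ : ∀ s, s ∈ X ↔ z • s ∉ X) (U : Submodule ℚ (S → ℚ)),
  IsStab G U → IsOddSp z U → ∀ (p : ℕ) [Fact p.Prime], p ≠ 2 → ¬ p ∣ (kerSub G U).index →
  ∀ W : Submodule (ZMod p) (S → ZMod p), W ≠ ⊥ → W ≤ red p U → IsStab G W →
  ∀ a : ℝ, 0 ≤ a → a * finrank (ZMod p) W ≤ X.card →
    ((p : ℝ) - 1) * (badSet z U).ncard
      ≤ (p : ℝ) ^ finrank (ZMod p) W * (2 ^ X.card * cosAvg p a ^ finrank (ZMod p) W)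

/-- An endomorphism of a semisimple space modulo `p` with a minimal polynomial of large degree
(from `StMaschke`).

Proof. By `StMaschke` `M` is a direct sum of `t` stable spaces `V 1, …, V t` which are irreducible,
with `t w₀ ≤ D = dim M`, together with equivariant projections `π i`. `endF G M` embeds into the sum
of the spaces of equivariant maps `V i → V j`, and each of these is `0` or isomorphic to the space of
equivariant endomorphisms of `V i`, a finite division ring (Schur), hence a field (little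
Wedderburn), of dimension `f i`. So `dim endF G M ≤ t ^ 2 max f i`; fix `i` with `f i` maximal. Let
`α` generate the field of equivariant endomorphisms of `V i` over `ZMod p` (finite fields are simple
extensions), so its minimal polynomial has degree `f i`, and let `φ = α ∘ π i ∈ endF G M`. The
restriction of `φ` to `V i` is `α`, so the minimal polynomial of `φ` is divisible by that of `α`. So
`dim endF G M * w₀ ^ 2 ≤ f i * (t w₀) ^ 2 ≤ f i * D ^ 2`. -/
def StPrimEl : Prop := ∀ (S G : Type) [Fintype S] [Group G] [Finite G] [MulAction G S] (p : ℕ)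
  [Fact p.Prime] (M : Submodule (ZMod p) (S → ZMod p)), M ≠ ⊥ → IsStab G M →
  ¬ p ∣ (kerSub G M).index → ∀ w₀ : ℕ,
  (∀ W : Submodule (ZMod p) (S → ZMod p), W ≠ ⊥ → W ≤ M → IsStab G W →
    w₀ ≤ finrank (ZMod p) W) →
  ∃ φ ∈ endF G M, finrank (ZMod p) (endF G M) * w₀ ^ 2
    ≤ (minpoly (ZMod p) φ).natDegree * finrank (ZMod p) M ^ 2

/-- Lifting an endomorphism without decreasing the degree of the minimal polynomial (from
`StLift`).

Proof. Let `θ` be the lift of `φ`. On the lattice `L` of integer valued members of `U` `θ` acts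
integrally, so it is integral over `ℤ` and its minimal polynomial `μ` over `ℚ` has integer
coefficients, `μ = μ₀.map`, `μ₀` monic over `ℤ`. `μ₀(θ) = 0` on `L` gives `μ₀ mod p` kills `N φ` on
`red p U`. So the minimal polynomial of `N φ`, which has the degree of that of `φ` because `N ≠ 0`
modulo `p`, has degree at most `deg μ`. -/
def StMinLift : Prop := ∀ (S G : Type) [Fintype S] [Group G] [Finite G] [MulAction G S] (p : ℕ)
  [Fact p.Prime] (U : Submodule ℚ (S → ℚ)), IsStab G U → ¬ p ∣ (kerSub G U).index →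
  ∀ φ ∈ endF G (red p U), ∃ θ ∈ endF G U,
    (minpoly (ZMod p) φ).natDegree ≤ (minpoly ℚ θ).natDegree

/-- A small real space.

Proof. `endF G U` is a division ring (Schur), so the minimal polynomial `μ` of `θ` over `ℚ` is
irreducible, hence separable. Let `U_ℝ` be the real span of `U` in `S → ℝ`, of real dimension `D`
(linear independence over `ℚ` of rational vectors implies over `ℝ`), stable, and `θ_ℝ` the real
extension of `θ` (choose a basis of `U`), equivariant, with the same minimal polynomial `μ`. Over `ℝ`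
`μ` is a product of `k` distinct irreducible factors of degree at most `2`, so `deg μ ≤ 2 k`, and
`U_ℝ` is the direct sum of the `k` kernels of these factors in `θ_ℝ`, all nonzero and stable. One
of them has dimension at most `D / k`; let `Y` be an irreducible stable subspace of it (minimal
nonzero stable). Then `dim Y * deg μ ≤ (D / k) * 2 k ≤ 2 D`. If `e` is bad for `U`, there is an
equivariant isomorphism `θ' : U → U'` with `e` orthogonal to `U'`; its real extension
`U_ℝ → U'_ℝ` maps `Y` to a stable space isomorphic to `Y` and orthogonal to `e`. -/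
def StReal : Prop := ∀ (S G : Type) [Fintype S] [Group G] [Finite G] [MulAction G S] (z : G)
  (U : Submodule ℚ (S → ℚ)), IsIrr G U → IsOddSp z U → ∀ θ ∈ endF G U,
  ∃ Y : Submodule ℝ (S → ℝ), IsIrr G Y ∧ IsOddSp z Y ∧
    finrank ℝ Y * (minpoly ℚ θ).natDegree ≤ 2 * finrank ℚ U ∧ badSet z U ⊆ badSetF z Y

/-- The numerical bound for types of large dimension (from `StPrime`, `StKappa`).

Proof. For bounded `g` trivial (`x ≤ 1`). (i) `8 h log₂ (4 D) ≤ D`: as in `StNumC`, case B1,
`x ≤ 2 ^ (- 7 D / 8)`, tiny. (ii) `h / D > 1 / (8 log₂ (4 D))`: as in `StNumC`, case B2,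
`log N ≤ C (log g) ^ 3`, so `StPrime` gives an odd prime `p ∤ N` with
`g ^ (1/200) / 8 < p ≤ g ^ (1/200)`. Let `w₀ = ⌈g ^ (1 - 3/200)⌉` and use the dichotomy. First case:
`1 ≤ w < w₀`, take `a = g / w ≥ g ^ (3/200) ≥ p ^ 2 g ^ (1/200)`: `(p κ) ^ w ≤
(1 + 3 exp (- 4 g ^ (1/200))) ^ w ≤ 2` for large `g`, so `x ≤ 2 / (p - 1) ≤ 32 g ^ (- 1/200)`.
Second case: `e = h / m ≥ h D / g ≥ D ^ 2 / (8 g log₂ (4 D))`, and
`n ≤ 2 D / μ ≤ 2 D ^ 3 / (e w₀ ^ 2) ≤ 16 D g log₂ (4 D) / w₀ ^ 2 ≤ 16 g ^ (6/200) log₂ (4 g)`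
(`e ≥ 1`, so `μ ≥ 1` as `w₀ ≥ 1`), hence
`x ≤ C₁ n ^ 4 g ^ (- 1/5) ≤ C g ^ (24/200 - 1/5) (log g) ^ 4 ≤ C' g ^ (- 1/200)`. -/
def StBigNum : Prop := ∀ C₁ : ℝ, 0 ≤ C₁ → ∃ C : ℝ, 0 < C ∧ ∀ (g D h e m N : ℕ) (x : ℝ),
  1 ≤ e → h = m * e → h ≤ D → m * D ≤ g → (g : ℝ) ^ (1 / 2 : ℝ) ≤ D → 0 < N →
  0 ≤ x → x ≤ 1 →
  (∀ r : ℕ, (D : ℝ) * (1 - (h : ℝ) / D) ^ r < 1 → (N : ℝ) ≤ (2 * g : ℝ) ^ r) →
  (∀ p : ℕ, p.Prime → D + 1 < p → ¬ p ∣ N) →
  (∀ (p : ℕ) [Fact p.Prime], p ≠ 2 → ¬ p ∣ N →
    ((p : ℝ) - 1) ^ e * x ≤ (p : ℝ) ^ h * (1 / 2) ^ D) →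
  (∀ (p : ℕ) [Fact p.Prime], p ≠ 2 → ¬ p ∣ N → ∀ w₀ : ℕ,
    (∃ w : ℕ, 1 ≤ w ∧ w < w₀ ∧ ∀ a : ℝ, 0 ≤ a → a * w ≤ g →
      ((p : ℝ) - 1) * x ≤ (p : ℝ) ^ w * cosAvg p a ^ w) ∨
    (∃ n μ : ℕ, e * w₀ ^ 2 ≤ μ * D ^ 2 ∧ n * μ ≤ 2 * D ∧
      x ≤ C₁ * (n : ℝ) ^ 4 * (g : ℝ) ^ (-(1 / 5) : ℝ))) →
  x ≤ C * (g : ℝ) ^ (-(1 / 200) : ℝ)

/-- **Types of moderate dimension** (from `StNumC`, `StBadE`, `StIndex`, `StTame`, `StMult`,
`ncard_isSgn_le`).

Proof. Apply `StNumC` with `a₀ = 1/400`, `g = X.card`, `D = finrank U`, `h`, `e`,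
`N = (kerSub G U).index` (positive: `G` is finite), `x = (badSet z U).ncard / 2 ^ g` (`x ≤ 1` by
`ncard_isSgn_le`). `1 ≤ e` since the identity is in `endF` and `U ≠ ⊥`; `e ≤ h` by `StMult` for the
family with the single member `U` (`h = m * e`, `m ≥ 1`); `h ≤ D` as `U ⊓ invF` is a subspace of
`U`. `Fintype.card S = 2 g` (see `two_mul_card_transversal` or count), so `StIndex` gives the
hypothesis on `r`. `StTame` gives the hypothesis on primes, `StBadE` the last two. -/
def StMod : Prop := ∃ C : ℝ, 0 < C ∧ ∀ (S G : Type) [Fintype S] [Group G]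
  [Finite G] [MulAction G S] [IsPretransitive G S] (s₀ : S) (z : G) (_ : ∀ s : S, z • z • s = s)
  (X : Finset S) (_ : ∀ s, s ∈ X ↔ z • s ∉ X) (U : Submodule ℚ (S → ℚ)), IsIrr G U →
  IsOddSp z U → (finrank ℚ U : ℝ) ≤ (X.card : ℝ) ^ (1 - 1 / 400 : ℝ) → ∀ k : ℕ, k ≤ 3 →
  k + finrank ℚ ↥(U ⊓ invF ℚ (stabilizer G s₀)) ≤ finrank ℚ (endF G U) + finrank ℚ U →
  ((badSet z U).ncard : ℝ) ≤ C * Real.sqrt (finrank ℚ U * Real.log (finrank ℚ U + 1) / X.card) ^ k
    * 2 ^ X.card

/-- **Types of large dimension** (from `StBigNum`, `StBadE`, `StIndex`, `StTame`, `StSub`,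
`StPrimEl`, `StMinLift`, `StEndGe`, `StReal`, `StGauss` (in `SpecG.lean`), `StRed`).

Proof. Let `C₁` be the constant of `StGauss`, apply `StBigNum`, with
`g = X.card`, `D = finrank U`, `h`, `e`, the given `m`, `N = (kerSub G U).index`,
`x = (badSet z U).ncard / 2 ^ g`. `g ^ (1/2) ≤ g ^ (1 - 1/400) ≤ D`. The hypotheses on `N` and the
first inequality are as in `StMod`. Dichotomy for a prime `p ∤ N`, `p ≠ 2`, and `w₀`: if there is a
stable `W ≠ ⊥`, `W ≤ red p U` of dimension `w < w₀`, use `StSub`. Otherwise `StPrimEl` for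
`M = red p U` (the index of `kerSub G (red p U)` divides the index of `kerSub G U` because
`kerSub G U ≤ kerSub G (red p U)`, so it is not divisible by `p`; `finrank (red p U) = D` by
`StRed`) gives `φ ∈ endF G (red p U)` with
`dim endF * w₀ ^ 2 ≤ deg minpoly φ * D ^ 2`, `dim endF ≥ e` (`StEndGe`), `StMinLift` gives
`θ ∈ endF G U` with `μ = deg minpoly θ ≥ deg minpoly φ`, and `StReal` and `StGauss` give
`n = finrank Y`, `n μ ≤ 2 D`, `x ≤ C₁ n ^ 4 g ^ (- 1/5)`. -/
def StBig : Prop := ∃ C : ℝ, 0 < C ∧ ∀ (S G : Type) [Fintype S] [Group G]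
  [Finite G] [MulAction G S] [IsPretransitive G S] (s₀ : S) (z : G) (_ : ∀ s : S, z • z • s = s)
  (X : Finset S) (_ : ∀ s, s ∈ X ↔ z • s ∉ X) (U : Submodule ℚ (S → ℚ)), IsIrr G U →
  IsOddSp z U → ∀ m : ℕ,
  finrank ℚ ↥(U ⊓ invF ℚ (stabilizer G s₀)) = m * finrank ℚ (endF G U) →
  m * finrank ℚ U ≤ X.card → (X.card : ℝ) ^ (1 - 1 / 400 : ℝ) ≤ finrank ℚ U →
  ((badSet z U).ncard : ℝ) ≤ C * (X.card : ℝ) ^ (-(1 / 200) : ℝ) * 2 ^ X.card

end Pool.Agent.Lib.MP_640417_ag.Full
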