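import Pool.Agent.Lib.MP_640417_ag.Full.SpecB
import Pool.Agent.Lib.MP_640417_ag.Far.Main
import Pool.Agent.Lib.MP_640417_ag.Far.Tame

/-!
# Types fixed by the stabilizer, with rational endomorphisms: assembly
-/

set_option autoImplicit false

namespace Pool.Agent.Lib.MP_640417_ag.Full

open Module Finset MulAction Matrix Pool.Agent.Lib.MP_640417_ag.Far

theorem pSplit (hMat : StMat) (hC1 : StC1small) (hA : StThreeA) (hNum : StThreeNum)
    (hTwo : StTwoPrimes) : StSplit := by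
  obtain ⟨C1, hC1pos, h1⟩ := hC1
  obtain ⟨C3, hC3pos, h3⟩ := hNum
  obtain ⟨n₀, C2, hC2pos, h2⟩ := hTwo (1 / 1000) (by norm_num) (by norm_num)
  refine ⟨C1 + C3 + C2 + (n₀ : ℝ) ^ 100, by positivity, ?_⟩
  intro S G _ _ _ _ _ s₀ z hz hzz X hX U hU hodd hinv hend
  classical
  have hcard : 2 * X.card = Fintype.card S :=
    two_mul_card_transversal (fun s : S => z • s) hzz X hX
  have hg1 : 1 ≤ X.card := by
    have : 0 < Fintype.card S := Fintype.card_pos_iff.mpr ⟨s₀⟩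
    omega
  have hg1' : (1 : ℝ) ≤ X.card := by exact_mod_cast hg1
  have hg0 : (0 : ℝ) < X.card := by linarith
  have h2g : (0 : ℝ) < 2 ^ X.card := by positivity
  obtain ⟨M, hM⟩ := hMat S G s₀ z hz U hU hodd hinv hend
  have hNpos : 0 < (kerSub G U).index := Nat.pos_of_ne_zero Subgroup.index_ne_zero_of_finite
  have htame : ∀ p : ℕ, p.Prime → finrank ℚ U + 1 < p → ¬ p ∣ (kerSub G U).index :=
    fun p hp hDp => tame S G U hU.2.1 p hp hDp
  have hfin : (M.sing).Finite := finite_isSgn z _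
  have hle : ((badSet z U).ncard : ℝ) ≤ (M.sing.ncard : ℝ) := by
    exact_mod_cast Set.ncard_le_ncard hM hfin
  have hbadle : ((badSet z U).ncard : ℝ) ≤ 2 ^ X.card := by
    have h1 := ncard_isSgn_le z hzz X hX (fun e => ∃ U' : Submodule ℚ (S → ℚ), IsStab G U' ∧
      IsoF G U U' ∧ Perp e U')
    have h2 : (((badSet z U).ncard : ℕ) : ℝ) ≤ ((2 ^ X.card : ℕ) : ℝ) := by
      exact_mod_cast h1
    push_cast at h2
    exact h2
  have hsingle : (M.sing.ncard : ℝ) ≤ 2 ^ X.card := by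
    have h1 := ncard_isSgn_le z hzz X hX
      (fun e => ∃ v : Fin (finrank ℚ U) → ℤ, v ≠ 0 ∧ (∑ s, e s • M.Φ s).mulVec v = 0)
    have h2 : ((M.sing.ncard : ℕ) : ℝ) ≤ ((2 ^ X.card : ℕ) : ℝ) := by
      exact_mod_cast h1
    push_cast at h2
    exact h2
  have hK : ∀ c t : ℝ, 0 ≤ t → c ≤ C1 + C3 + C2 + (n₀ : ℝ) ^ 100 →
      c * t * 2 ^ X.card ≤ (C1 + C3 + C2 + (n₀ : ℝ) ^ 100) * t * 2 ^ X.card := by
    intro c t ht hc
    gcongr
  have hn100 : (0 : ℝ) ≤ (n₀ : ℝ) ^ 100 := by positivity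
  obtain ⟨hs1, hs2⟩ := h1 S G z hzz X hX _ _ M hNpos htame
  refine ⟨?_, ?_, ?_⟩
  · intro hD
    refine hle.trans ((hs1 hD).trans (hK _ _ (by positivity) (by linarith)))
  · intro hD3 hDg
    by_cases hD200 : finrank ℚ U < 200
    · exact hle.trans ((hs2 hD3 hD200).trans (hK _ _ (by positivity) (by linarith)))
    · push Not at hD200
      have hx0 : (0 : ℝ) ≤ (M.sing.ncard : ℝ) / 2 ^ X.card := by positivity
      have hx1 : (M.sing.ncard : ℝ) / 2 ^ X.card ≤ 1 := (div_le_one h2g).mpr hsingle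
      have key := h3 X.card (finrank ℚ U) (kerSub G U).index ((M.sing.ncard : ℝ) / 2 ^ X.card)
        hD200 hDg htame hx0 hx1 (by
          intro p q K k₀ ε Y hp hpi hp2 hpN hnp hpY hq hq2 hqN hK20 hε hb1 hb2 hb3 hb4 hb5 hb6
          have hthis := hA S G z hzz X hX _ _ M (by omega) p q K k₀ ε Y hp hpi hp2 hpN hnp hpY hq
            hq2 hqN hK20 hε hb1 hb2 hb3 hb4 hb5 hb6
          rw [← mul_div_assoc, div_le_iff₀ h2g]
          exact hthis)
      rw [div_le_iff₀ h2g] at key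
      have hpow : (X.card : ℝ) ^ (-(27 / 20) : ℝ) ≤ (X.card : ℝ) ^ (-(5 / 4) : ℝ) :=
        Real.rpow_le_rpow_of_exponent_le hg1' (by norm_num)
      calc ((badSet z U).ncard : ℝ) ≤ (M.sing.ncard : ℝ) := hle
        _ ≤ C3 * (X.card : ℝ) ^ (-(27 / 20) : ℝ) * 2 ^ X.card := key
        _ ≤ C3 * (X.card : ℝ) ^ (-(5 / 4) : ℝ) * 2 ^ X.card := by gcongr
        _ ≤ _ := hK _ _ (by positivity) (by linarith)
  · intro hD
    have hDpos : 0 < finrank ℚ U := by
      have : (0 : ℝ) < finrank ℚ U := lt_of_le_of_lt (by positivity) hD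
      exact_mod_cast this
    have hD1 : (1 : ℝ) ≤ finrank ℚ U := by exact_mod_cast hDpos
    by_cases hn : n₀ ≤ finrank ℚ U
    · have h5 := h2 S G z hz hzz X hX _ _ M hNpos hDpos hn
      refine hle.trans (h5.trans ?_)
      have : 0 ≤ (X.card : ℝ) ^ (1 / 1000 - 1 : ℝ) * (finrank ℚ U : ℝ) ^ (3 / 2 : ℝ) := by
        positivity
      have h6 := hK C2 _ this (by linarith)
      calc _ = C2 * ((X.card : ℝ) ^ (1 / 1000 - 1 : ℝ) * (finrank ℚ U : ℝ) ^ (3 / 2 : ℝ))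
            * 2 ^ X.card := by ring
        _ ≤ _ := h6
        _ = _ := by ring
    · push Not at hn
      have hlt : (X.card : ℝ) ^ (1 / 100 : ℝ) < n₀ := by
        have : ((finrank ℚ U : ℕ) : ℝ) < n₀ := by exact_mod_cast hn
        linarith
      have hXle : (X.card : ℝ) ≤ (n₀ : ℝ) ^ 100 := by
        have h7 : ((X.card : ℝ) ^ (1 / 100 : ℝ)) ^ (100 : ℕ) ≤ (n₀ : ℝ) ^ 100 :=
          pow_le_pow_left₀ (by positivity) hlt.le 100
        rw [← Real.rpow_natCast, ← Real.rpow_mul hg0.le] at h7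
        norm_num at h7
        exact h7
      have hinvp : (X.card : ℝ)⁻¹ ≤ (X.card : ℝ) ^ (1 / 1000 - 1 : ℝ) := by
        rw [← Real.rpow_neg_one]
        exact Real.rpow_le_rpow_of_exponent_le hg1' (by norm_num)
      have hDp : (1 : ℝ) ≤ (finrank ℚ U : ℝ) ^ (3 / 2 : ℝ) := Real.one_le_rpow hD1 (by norm_num)
      have h8 : (1 : ℝ) ≤ (C1 + C3 + C2 + (n₀ : ℝ) ^ 100) * (X.card : ℝ) ^ (1 / 1000 - 1 : ℝ)
          * (finrank ℚ U : ℝ) ^ (3 / 2 : ℝ) := by
        calc (1 : ℝ) = X.card * (X.card : ℝ)⁻¹ * 1 := by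
              rw [mul_inv_cancel₀ hg0.ne', one_mul]
          _ ≤ (C1 + C3 + C2 + (n₀ : ℝ) ^ 100) * (X.card : ℝ) ^ (1 / 1000 - 1 : ℝ)
              * (finrank ℚ U : ℝ) ^ (3 / 2 : ℝ) := by
            have : (X.card : ℝ) ≤ C1 + C3 + C2 + (n₀ : ℝ) ^ 100 := by linarith
            gcongr
      calc ((badSet z U).ncard : ℝ) ≤ 1 * 2 ^ X.card := by rw [one_mul]; exact hbadle
        _ ≤ _ := by gcongr

end Pool.Agent.Lib.MP_640417_ag.Full
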