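import Pool.Agent.Lib.MP_640417_ag.Full.SpecG

/-!
# Replace one random sign by a normal variable
-/

namespace Pool.Agent.Lib.MP_640417_ag.Full

open MeasureTheory ProbabilityTheory

private lemma Step_prob (ι : Type) [Fintype ι] : IsProbabilityMeasure (gpi ι) := by
  unfold gpi
  infer_instance

private lemma Step_char_gauss (ℓ : StrongDual ℝ ℝ) :
    charFunDual (gaussianReal 0 1) ℓ = Complex.exp (-((ℓ 1 ^ 2 : ℝ) : ℂ) / 2) := by
  rw [charFunDual_eq_charFun_map_one, gaussianReal_map_continuousLinearMap, charFun_gaussianReal]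
  congr 1
  have h : (((ℓ 1 ^ 2).toNNReal * 1 : NNReal) : ℝ) = ℓ 1 ^ 2 := by
    rw [mul_one, Real.coe_toNNReal _ (sq_nonneg _)]
  rw [map_zero]
  push_cast [h]
  ring_nf

private lemma Step_char_gpi {ι : Type} [Fintype ι] [DecidableEq ι] (L : StrongDual ℝ (ι → ℝ)) :
    charFunDual (gpi ι) L = Complex.exp (-((∑ i, L (Pi.single i 1) ^ 2 : ℝ) : ℂ) / 2) := by
  unfold gpi
  rw [charFunDual_pi]
  simp_rw [Step_char_gauss]
  rw [← Complex.exp_sum]
  congr 1
  rw [← Finset.sum_div, Finset.sum_neg_distrib]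
  push_cast
  rfl

/-- The map `(y, t) ↦ y - ⟨y, w⟩ w + t w`. -/
private noncomputable def StepT {ι : Type} [Fintype ι] (w : ι → ℝ) :
    ((ι → ℝ) × ℝ) →L[ℝ] (ι → ℝ) :=
  LinearMap.toContinuousLinearMap
    { toFun := fun p i => p.1 i - (∑ j, p.1 j * w j) * w i + p.2 * w i
      map_add' := by
        intro p q
        funext i
        simp only [Prod.fst_add, Pi.add_apply, Prod.snd_add, add_mul, Finset.sum_add_distrib]
        ring
      map_smul' := by
        intro a p
        funext i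
        simp only [Prod.smul_fst, Pi.smul_apply, smul_eq_mul, Prod.smul_snd, RingHom.id_apply,
          mul_assoc, ← Finset.mul_sum]
        ring }

private lemma StepT_apply {ι : Type} [Fintype ι] (w : ι → ℝ) (y : ι → ℝ) (t : ℝ) (i : ι) :
    StepT w (y, t) i = y i - (∑ j, y j * w j) * w i + t * w i := rfl

private lemma StepT_map {ι : Type} [Fintype ι] (w : ι → ℝ) (hw : ∑ i, w i ^ 2 = 1) :
    ((gpi ι).prod (gaussianReal 0 1)).map (StepT w) = gpi ι := by
  classical
  have := Step_prob ι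
  apply Measure.ext_of_charFunDual
  ext L
  rw [charFunDual_map, charFunDual_prod, Step_char_gpi, Step_char_gauss, Step_char_gpi,
    ← Complex.exp_add]
  have hL : ∀ y : ι → ℝ, L y = ∑ i, y i * L (Pi.single i 1) := by
    intro y
    conv_lhs => rw [pi_eq_sum_univ' y]
    rw [map_sum]
    apply Finset.sum_congr rfl
    intro i _
    rw [map_smul, smul_eq_mul]
  have h1 : ∀ i, ((L.comp (StepT w)).comp (ContinuousLinearMap.inl ℝ (ι → ℝ) ℝ)) (Pi.single i 1)
      = L (Pi.single i 1) - w i * L w := by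
    intro i
    rw [ContinuousLinearMap.comp_apply, ContinuousLinearMap.comp_apply,
      ContinuousLinearMap.inl_apply, ← smul_eq_mul, ← map_smul, ← map_sub]
    congr 1
    funext j
    rw [StepT_apply]
    simp [Pi.single_apply]
  have h2 : ((L.comp (StepT w)).comp (ContinuousLinearMap.inr ℝ (ι → ℝ) ℝ)) 1 = L w := by
    rw [ContinuousLinearMap.comp_apply, ContinuousLinearMap.comp_apply,
      ContinuousLinearMap.inr_apply]
    congr 1
    funext j
    rw [StepT_apply]
    simp
  have h3 : ∑ i, (L (Pi.single i 1) - w i * L w) ^ 2 + L w ^ 2 = ∑ i, L (Pi.single i 1) ^ 2 := by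
    have h4 : ∑ i, (L (Pi.single i 1) - w i * L w) ^ 2
        = ∑ i, L (Pi.single i 1) ^ 2 - 2 * L w * ∑ i, w i * L (Pi.single i 1)
          + L w ^ 2 * ∑ i, w i ^ 2 := by
      rw [Finset.mul_sum, Finset.mul_sum, ← Finset.sum_sub_distrib, ← Finset.sum_add_distrib]
      apply Finset.sum_congr rfl
      intro i _
      ring
    rw [h4, hw, ← hL w]
    ring
  congr 1
  rw [h2, Finset.sum_congr rfl (fun i _ => by rw [h1 i]), ← h3]
  push_cast
  ring

private lemma Step_two (δ : ℝ) : ((gaussianReal 0 1).prod (gaussianReal 0 1)).map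
    (fun p : ℝ × ℝ => p.2 + p.1 * δ)
    = (gaussianReal 0 1).map (fun x => Real.sqrt (1 + δ ^ 2) * x) := by
  let T : ℝ × ℝ →L[ℝ] ℝ := ContinuousLinearMap.snd ℝ ℝ ℝ + δ • ContinuousLinearMap.fst ℝ ℝ ℝ
  let M : ℝ →L[ℝ] ℝ := Real.sqrt (1 + δ ^ 2) • ContinuousLinearMap.id ℝ ℝ
  have hT : (fun p : ℝ × ℝ => p.2 + p.1 * δ) = T := by
    funext p
    simp [T, mul_comm]
  have hM : (fun x => Real.sqrt (1 + δ ^ 2) * x) = M := by
    funext p
    simp [M]
  rw [hT, hM]
  apply Measure.ext_of_charFunDual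
  ext L
  rw [charFunDual_map, charFunDual_prod, Step_char_gauss, Step_char_gauss, charFunDual_map,
    Step_char_gauss, ← Complex.exp_add]
  congr 1
  have h1 : ((L.comp T).comp (ContinuousLinearMap.inl ℝ ℝ ℝ)) 1 = δ * L 1 := by
    rw [ContinuousLinearMap.comp_apply, ContinuousLinearMap.comp_apply,
      ContinuousLinearMap.inl_apply, ← smul_eq_mul δ, ← map_smul]
    congr 1
    simp [T]
  have h2 : ((L.comp T).comp (ContinuousLinearMap.inr ℝ ℝ ℝ)) 1 = L 1 := by
    rw [ContinuousLinearMap.comp_apply, ContinuousLinearMap.comp_apply,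
      ContinuousLinearMap.inr_apply]
    congr 1
    simp [T]
  have h3 : (L.comp M) 1 = Real.sqrt (1 + δ ^ 2) * L 1 := by
    rw [ContinuousLinearMap.comp_apply, ← smul_eq_mul, ← map_smul]
    congr 1
  rw [h1, h2, h3, mul_pow, mul_pow, Real.sq_sqrt (by positivity)]
  push_cast
  ring

private lemma Step_T_shift {ι : Type} [Fintype ι] (w c v : ι → ℝ) (s δ : ℝ)
    (hv : v = (s * δ) • w) (y : ι → ℝ) (t r : ℝ) :
    c + r • v + s • StepT w (y, t) = c + s • StepT w (y, t + r * δ) := by
  funext i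
  simp only [Pi.add_apply, Pi.smul_apply, smul_eq_mul, StepT_apply, hv]
  ring

theorem pStep (hTV : StTV) : StStep := by
  obtain ⟨C, hC, hTV⟩ := hTV
  refine ⟨C, hC, ?_⟩
  intro ι _ v c s hs hvs B hB
  have := Step_prob ι
  set N := ∑ i, v i ^ 2 with hN
  have hN0 : 0 ≤ N := Finset.sum_nonneg (fun i _ => sq_nonneg _)
  rcases hN0.eq_or_lt with hN00 | hNpos
  · have hv0 : v = 0 := by
      funext i
      have h1 := (Finset.sum_eq_zero_iff_of_nonneg (fun i _ => sq_nonneg (v i))).mp hN00.symm i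
        (Finset.mem_univ i)
      simpa using h1
    rw [hv0]
    simp only [add_zero, sub_zero, smul_zero]
    rw [integral_const]
    simp only [probReal_univ, one_smul]
    rw [← hN00]
    simp
  -- the direction
  set δ := Real.sqrt N / s with hδ
  have hδ0 : 0 ≤ δ := by positivity
  have hδ1 : δ ≤ 1 / 2 := by
    rw [hδ, div_le_iff₀ hs]
    apply Real.sqrt_le_iff.mpr
    constructor
    · positivity
    · calc N ≤ (s / 2) ^ 2 := hvs
        _ = (1 / 2 * s) ^ 2 := by ring
  have hδ4 : (N / s ^ 2) ^ 2 = δ ^ 4 := by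
    have h1 : δ ^ 2 = N / s ^ 2 := by
      rw [hδ, div_pow, Real.sq_sqrt hN0]
    rw [← h1]
    ring
  set w : ι → ℝ := (Real.sqrt N)⁻¹ • v with hw
  have hsN : 0 < Real.sqrt N := Real.sqrt_pos.mpr hNpos
  have hw1 : ∑ i, w i ^ 2 = 1 := by
    rw [hw]
    simp only [Pi.smul_apply, smul_eq_mul, mul_pow]
    rw [← Finset.mul_sum, ← hN, inv_pow, Real.sq_sqrt hN0]
    field_simp
  have hvw : v = (s * δ) • w := by
    rw [hw, hδ, smul_smul]
    have : s * (Real.sqrt N / s) * (Real.sqrt N)⁻¹ = 1 := by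
      field_simp
    rw [this, one_smul]
  -- the indicator
  set g : (ι → ℝ) → ℝ := B.indicator (fun _ => 1) with hg
  have hgm : Measurable g := measurable_const.indicator hB
  have hg0 : ∀ y, 0 ≤ g y := fun y => Set.indicator_nonneg (fun _ _ => zero_le_one) y
  have hg1 : ∀ y, g y ≤ 1 := fun y => Set.indicator_le_self' (fun _ _ => zero_le_one) y |>.trans
    (by exact le_refl _)
  have hgb : ∀ y, ‖g y‖ ≤ 1 := fun y => by
    rw [Real.norm_of_nonneg (hg0 y)]
    exact hg1 y
  have hreal : ∀ a : ι → ℝ, (gpi ι).real {y | a + s • y ∈ B} = ∫ y, g (a + s • y) ∂(gpi ι) := by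
    intro a
    have hm : Measurable (fun y : ι → ℝ => a + s • y) := by fun_prop
    have h1 : (fun y : ι → ℝ => g (a + s • y)) = ({y | a + s • y ∈ B} : Set (ι → ℝ)).indicator 1 := by
      funext y
      by_cases hy : a + s • y ∈ B
      · rw [Set.indicator_of_mem (show y ∈ {y | a + s • y ∈ B} from hy), hg,
          Set.indicator_of_mem hy, Pi.one_apply]
      · rw [Set.indicator_of_notMem (show y ∉ {y | a + s • y ∈ B} from hy), hg,
          Set.indicator_of_notMem hy]
    have h2 : MeasurableSet {y : ι → ℝ | a + s • y ∈ B} := hm hB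
    rw [h1, integral_indicator_one h2]
  -- the joint function
  set F : (ι → ℝ) → ℝ → ℝ := fun y t => g (c + s • StepT w (y, t)) with hF
  have hTm : Measurable (fun p : (ι → ℝ) × ℝ => StepT w p) := (StepT w).continuous.measurable
  have hFm : Measurable (fun p : (ι → ℝ) × ℝ => F p.1 p.2) := by
    apply hgm.comp
    exact measurable_const.add (hTm.const_smul s)
  have hFb : ∀ y t, ‖F y t‖ ≤ 1 := fun y t => hgb _
  have hFy : ∀ y, Measurable (F y) := fun y => hFm.comp (measurable_const.prodMk measurable_id)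
  -- translates
  have hshiftm : ∀ r : ℝ, Measurable (fun p : (ι → ℝ) × ℝ => F p.1 (p.2 + r * δ)) := by
    intro r
    exact hFm.comp (measurable_fst.prodMk (measurable_snd.add_const _))
  have hint : ∀ (r : ℝ), Integrable (fun p : (ι → ℝ) × ℝ => F p.1 (p.2 + r * δ))
      ((gpi ι).prod (gaussianReal 0 1)) := by
    intro r
    exact Integrable.of_bound (hshiftm r).aestronglyMeasurable 1
      (Filter.Eventually.of_forall (fun p => hFb _ _))
  have hfib : ∀ r : ℝ, (gpi ι).real {y | c + r • v + s • y ∈ B}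
      = ∫ y, ∫ t, F y (t + r * δ) ∂(gaussianReal 0 1) ∂(gpi ι) := by
    intro r
    rw [hreal]
    have hm : Measurable (fun y : ι → ℝ => g (c + r • v + s • y)) := hgm.comp (by fun_prop)
    have h1 : ∫ y, g (c + r • v + s • y) ∂(gpi ι)
        = ∫ p, g (c + r • v + s • StepT w p) ∂((gpi ι).prod (gaussianReal 0 1)) := by
      conv_lhs => rw [← StepT_map w hw1]
      rw [integral_map hTm.aemeasurable hm.aestronglyMeasurable]
    rw [h1]
    have h2 : (fun p : (ι → ℝ) × ℝ => g (c + r • v + s • StepT w p))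
        = fun p => F p.1 (p.2 + r * δ) := by
      funext p
      rw [hF]
      change g (c + r • v + s • StepT w (p.1, p.2)) = _
      rw [Step_T_shift w c v s δ hvw]
    rw [h2, integral_prod _ (hint r)]
  -- the three terms
  have e1 : (gpi ι).real {y | c + v + s • y ∈ B}
      = ∫ y, ∫ t, F y (t + δ) ∂(gaussianReal 0 1) ∂(gpi ι) := by
    have := hfib 1
    rw [one_smul, one_mul] at this
    exact this
  have e2 : (gpi ι).real {y | c - v + s • y ∈ B}
      = ∫ y, ∫ t, F y (t - δ) ∂(gaussianReal 0 1) ∂(gpi ι) := by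
    have := hfib (-1)
    rw [neg_smul, one_smul, neg_one_mul, ← sub_eq_add_neg] at this
    simpa only [← sub_eq_add_neg] using this
  have hI3 : Integrable (fun q : ℝ × (ι → ℝ) => ∫ t, F q.2 (t + q.1 * δ) ∂(gaussianReal 0 1))
      ((gaussianReal 0 1).prod (gpi ι)) := by
    have hm3 : Measurable (fun p : (ℝ × (ι → ℝ)) × ℝ => F p.1.2 (p.2 + p.1.1 * δ)) :=
      hFm.comp ((measurable_snd.comp measurable_fst).prodMk
        (measurable_snd.add ((measurable_fst.comp measurable_fst).mul_const _)))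
    have hi : Integrable (fun p : (ℝ × (ι → ℝ)) × ℝ => F p.1.2 (p.2 + p.1.1 * δ))
        (((gaussianReal 0 1).prod (gpi ι)).prod (gaussianReal 0 1)) :=
      Integrable.of_bound hm3.aestronglyMeasurable 1
        (Filter.Eventually.of_forall (fun p => hFb _ _))
    exact hi.integral_prod_left
  have e3 : ∫ r, (gpi ι).real {y | c + r • v + s • y ∈ B} ∂(gaussianReal 0 1)
      = ∫ y, ∫ x, F y (Real.sqrt (1 + δ ^ 2) * x) ∂(gaussianReal 0 1) ∂(gpi ι) := by
    rw [integral_congr_ae (Filter.Eventually.of_forall hfib), integral_integral_swap hI3]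
    congr 1
    funext y
    have hm2 : Measurable (fun p : ℝ × ℝ => F y (p.2 + p.1 * δ)) :=
      (hFy y).comp (measurable_snd.add (measurable_fst.mul_const _))
    have hi : Integrable (fun p : ℝ × ℝ => F y (p.2 + p.1 * δ))
        ((gaussianReal 0 1).prod (gaussianReal 0 1)) :=
      Integrable.of_bound hm2.aestronglyMeasurable 1
        (Filter.Eventually.of_forall (fun p => hFb _ _))
    rw [← integral_prod (fun p : ℝ × ℝ => F y (p.2 + p.1 * δ)) hi]
    rw [← integral_map (φ := fun p : ℝ × ℝ => p.2 + p.1 * δ) (f := F y) (by fun_prop)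
      (hFy y).aestronglyMeasurable, Step_two, integral_map (by fun_prop)
      (hFy y).aestronglyMeasurable]
  -- integrability of the inner integrals
  have hA : Integrable (fun y => ∫ t, F y (t + δ) ∂(gaussianReal 0 1)) (gpi ι) := by
    have := (hint 1).integral_prod_left
    simpa only [one_mul] using this
  have hB' : Integrable (fun y => ∫ t, F y (t - δ) ∂(gaussianReal 0 1)) (gpi ι) := by
    have := (hint (-1)).integral_prod_left
    simpa only [neg_one_mul, ← sub_eq_add_neg] using this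
  have hC' : Integrable (fun y => ∫ x, F y (Real.sqrt (1 + δ ^ 2) * x) ∂(gaussianReal 0 1))
      (gpi ι) := by
    have hi : Integrable (fun p : (ι → ℝ) × ℝ => F p.1 (Real.sqrt (1 + δ ^ 2) * p.2))
        ((gpi ι).prod (gaussianReal 0 1)) :=
      Integrable.of_bound (hFm.comp (measurable_fst.prodMk
        (measurable_snd.const_mul _))).aestronglyMeasurable 1
        (Filter.Eventually.of_forall (fun p => hFb _ _))
    exact hi.integral_prod_left
  have hAB : Integrable (fun y => ((∫ t, F y (t + δ) ∂(gaussianReal 0 1))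
      + ∫ t, F y (t - δ) ∂(gaussianReal 0 1)) / 2) (gpi ι) := (hA.add hB').div_const 2
  have hsub : ((∫ y, ∫ t, F y (t + δ) ∂(gaussianReal 0 1) ∂(gpi ι))
      + ∫ y, ∫ t, F y (t - δ) ∂(gaussianReal 0 1) ∂(gpi ι)) / 2
      - ∫ y, ∫ x, F y (Real.sqrt (1 + δ ^ 2) * x) ∂(gaussianReal 0 1) ∂(gpi ι)
      = ∫ y, (((∫ t, F y (t + δ) ∂(gaussianReal 0 1))
        + ∫ t, F y (t - δ) ∂(gaussianReal 0 1)) / 2
        - ∫ x, F y (Real.sqrt (1 + δ ^ 2) * x) ∂(gaussianReal 0 1)) ∂(gpi ι) := by
    rw [integral_sub hAB hC', integral_div, integral_add hA hB']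
  rw [e1, e2, e3, hsub, hδ4, ← Real.norm_eq_abs]
  have hfin := norm_integral_le_of_norm_le_const (μ := gpi ι) (C := C * δ ^ 4)
    (f := fun y => ((∫ t, F y (t + δ) ∂(gaussianReal 0 1))
        + ∫ t, F y (t - δ) ∂(gaussianReal 0 1)) / 2
        - ∫ x, F y (Real.sqrt (1 + δ ^ 2) * x) ∂(gaussianReal 0 1))
    (Filter.Eventually.of_forall (fun y => by
      rw [Real.norm_eq_abs]
      exact hTV δ hδ0 hδ1 (F y) (hFy y) (fun t => hg0 _) (fun t => hg1 _)))
  simpa only [probReal_univ, mul_one] using hfin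

end Pool.Agent.Lib.MP_640417_ag.Full
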