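import Pool.Agent.Lib.MP_640417_ag.Full.SpecG

/-!
# All CM fields: the structure of the space of all copies of a real irreducible space
-/

namespace Pool.Agent.Lib.MP_640417_ag.Full

open Module Finset MulAction Pool.Agent.Lib.MP_640417_ag.Far

/-- The group structure of the endomorphism ring, found by hand. -/
noncomputable local instance struct_acg {S G : Type} [Group G] [MulAction G S]
    (Y : Submodule ℝ (S → ℝ)) : AddCommGroup (endF G Y) :=
  @Submodule.addCommGroup ℝ (Y →ₗ[ℝ] Y) (Field.toDivisionRing (K := ℝ)).toRing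
    (LinearMap.addCommGroup) _ (endF G Y)

section Struct

variable {S : Type} [Fintype S]

/-- An orthonormal basis of a space of functions. -/
private lemma struct_onb (Y : Submodule ℝ (S → ℝ)) :
    ∃ φ : (Fin (finrank ℝ Y) → ℝ) ≃ₗ[ℝ] Y, ∀ u w, (φ u).1 ⬝ᵥ (φ w).1 = u ⬝ᵥ w := by
  classical
  let e : (S → ℝ) ≃ₗ[ℝ] EuclideanSpace ℝ S := (WithLp.linearEquiv 2 ℝ (S → ℝ)).symm
  let W : Submodule ℝ (EuclideanSpace ℝ S) := Y.map (e : (S → ℝ) →ₗ[ℝ] EuclideanSpace ℝ S)
  have hW : finrank ℝ W = finrank ℝ Y := LinearEquiv.finrank_map_eq e Y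
  let b := (stdOrthonormalBasis ℝ W).reindex (finCongr hW)
  let ψ : Y ≃ₗ[ℝ] W := e.submoduleMap Y
  let φ : (Fin (finrank ℝ Y) → ℝ) ≃ₗ[ℝ] Y :=
    (WithLp.linearEquiv 2 ℝ (Fin (finrank ℝ Y) → ℝ)).symm ≪≫ₗ b.repr.symm.toLinearEquiv ≪≫ₗ ψ.symm
  refine ⟨φ, fun u w => ?_⟩
  have h1 : ∀ u w : EuclideanSpace ℝ (Fin (finrank ℝ Y)),
      inner ℝ (b.repr.symm u) (b.repr.symm w) = inner ℝ u w :=
    fun u w => b.repr.symm.inner_map_map u w
  have h2 : ∀ y : Y, (ψ y).1 = e y.1 := fun y => rfl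
  have h3 : ∀ u : Fin (finrank ℝ Y) → ℝ, e (φ u).1 =
      (b.repr.symm ((WithLp.linearEquiv 2 ℝ (Fin (finrank ℝ Y) → ℝ)).symm u)).1 := by
    intro u
    rw [← h2]
    have : ψ (φ u) = b.repr.symm ((WithLp.linearEquiv 2 ℝ (Fin (finrank ℝ Y) → ℝ)).symm u) := by
      simp only [φ, LinearEquiv.trans_apply, LinearEquiv.apply_symm_apply]
      rfl
    rw [this]
  have h4 : ∀ f g : S → ℝ, inner ℝ (e f) (e g) = f ⬝ᵥ g := by
    intro f g
    simp only [PiLp.inner_apply, dotProduct]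
    refine Finset.sum_congr rfl fun s _ => ?_
    have : ∀ a b : ℝ, inner ℝ a b = a * b := by
      intro a b
      simp [mul_comm]
    exact this _ _
  have h5 : ∀ f g : Fin (finrank ℝ Y) → ℝ,
      inner ℝ ((WithLp.linearEquiv 2 ℝ (Fin (finrank ℝ Y) → ℝ)).symm f)
        ((WithLp.linearEquiv 2 ℝ (Fin (finrank ℝ Y) → ℝ)).symm g) = f ⬝ᵥ g := by
    intro f g
    simp only [PiLp.inner_apply, dotProduct]
    refine Finset.sum_congr rfl fun s _ => ?_
    have : ∀ a b : ℝ, inner ℝ a b = a * b := by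
      intro a b
      simp [mul_comm]
    exact this _ _
  rw [← h4, ← h5, h3, h3, ← h1]
  rfl

variable {G : Type} [Group G] [MulAction G S] {Y : Submodule ℝ (S → ℝ)}

private lemma struct_zero (y : Y) (h : ∀ y' : Y, y'.1 ⬝ᵥ y.1 = 0) : y = 0 := by
  have h1 := h y
  rw [dotProduct_self_eq_zero] at h1
  exact Subtype.ext h1

/-- Isometric embeddings with pairwise orthogonal images. -/
private def SFrame (G : Type) [Group G] [MulAction G S] (Y : Submodule ℝ (S → ℝ)) (k : ℕ)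
    (θ : Fin k → (Y →ₗ[ℝ] (S → ℝ))) : Prop :=
  (∀ j, θ j ∈ homF G Y) ∧
    ∀ i j (y y' : Y), θ i y ⬝ᵥ θ j y' = if i = j then y.1 ⬝ᵥ y'.1 else 0

private lemma struct_card [IsPretransitive G S] (hst : IsStab G Y) (s₀ : S) {k : ℕ}
    {θ : Fin k → (Y →ₗ[ℝ] (S → ℝ))} (h : SFrame G Y k θ) :
    k * finrank ℝ (endF G Y) ≤ finrank ℝ Y := by
  classical
  let L : (Fin k → endF G Y) →ₗ[ℝ] (Y →ₗ[ℝ] ℝ) :=
    { toFun := fun d => ∑ j, (LinearMap.proj s₀ : (S → ℝ) →ₗ[ℝ] ℝ).comp ((θ j).comp (d j).1)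
      map_add' := by
        intro d d'
        rw [← Finset.sum_add_distrib]
        refine Finset.sum_congr rfl fun j _ => ?_
        ext y
        simp
      map_smul' := by
        intro c d
        rw [Finset.smul_sum]
        refine Finset.sum_congr rfl fun j _ => ?_
        ext y
        simp }
  have hL : ∀ (d : Fin k → endF G Y) (y : Y), L d y = ∑ j, θ j ((d j).1 y) s₀ := by
    intro d y
    simp [L]
  have hinj : Function.Injective L := by
    refine (injective_iff_map_eq_zero L).2 ?_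
    intro d hd
    have h1 : ∀ (y : Y) (s : S), ∑ j, θ j ((d j).1 y) s = 0 := by
      intro y s
      obtain ⟨γ, rfl⟩ := exists_smul_eq G s₀ s
      have h2 := congrArg (fun f => f ⟨fun s => y.1 (γ • s), hst _ y.2 γ⟩) hd
      simp only [hL, LinearMap.zero_apply] at h2
      rw [← h2]
      refine Finset.sum_congr rfl fun j _ => ?_
      have h3 := (d j).2 y ⟨fun s => y.1 (γ • s), hst _ y.2 γ⟩ γ (fun s => rfl)
      exact ((h.1 j) ((d j).1 y) ((d j).1 ⟨fun s => y.1 (γ • s), hst _ y.2 γ⟩) γ h3 s₀).symm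
    funext i
    apply Subtype.ext
    apply LinearMap.ext
    intro y
    apply struct_zero
    intro y'
    have h4 : θ i y' ⬝ᵥ (∑ j, θ j ((d j).1 y)) = 0 := by
      have : (∑ j, θ j ((d j).1 y)) = 0 := by
        funext s
        rw [Finset.sum_apply]
        exact h1 y s
      rw [this, dotProduct_zero]
    rw [dotProduct_sum] at h4
    simp only [h.2] at h4
    rw [Finset.sum_ite_eq, if_pos (Finset.mem_univ _)] at h4
    exact h4
  have h5 := LinearMap.finrank_le_finrank_of_injective hinj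
  have hfree : Module.Free ℝ (endF G Y) := Module.Free.of_divisionRing ℝ _
  rw [Module.finrank_pi_fintype, Finset.sum_const, Finset.card_univ, Fintype.card_fin,
    smul_eq_mul] at h5
  refine h5.trans (le_of_eq ?_)
  exact Subspace.dual_finrank_eq

private lemma struct_scalar (hS1 : ∀ d ∈ endF G Y, ∃ c : ℝ, ∀ y : Y,
      ∑ s, (d y).1 s ^ 2 = c ^ 2 * ∑ s, y.1 s ^ 2) {θ : Y →ₗ[ℝ] (S → ℝ)}
    {d : Y →ₗ[ℝ] Y} (hd : d ∈ endF G Y) (h : ∀ y y' : Y, θ y ⬝ᵥ θ y' = y.1 ⬝ᵥ (d y').1)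
    (hθ : θ ≠ 0) : ∃ c : ℝ, 0 < c ∧ ∀ y y' : Y, θ y ⬝ᵥ θ y' = c * (y.1 ⬝ᵥ y'.1) := by
  obtain ⟨c, hc⟩ := hS1 d hd
  have hc' : ∀ y : Y, (d y).1 ⬝ᵥ (d y).1 = |c| ^ 2 * (y.1 ⬝ᵥ y.1) := by
    intro y
    have := hc y
    simp only [dotProduct, ← pow_two, sq_abs]
    exact this
  -- self adjoint
  have hsa : ∀ y y' : Y, (d y).1 ⬝ᵥ y'.1 = y.1 ⬝ᵥ (d y').1 := by
    intro y y'
    rw [dotProduct_comm, ← h, dotProduct_comm, h]
  have hpol : ∀ y y' : Y, (d y).1 ⬝ᵥ (d y').1 = |c| ^ 2 * (y.1 ⬝ᵥ y'.1) := by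
    intro y y'
    have h1 := hc' (y + y')
    rw [map_add, Submodule.coe_add, Submodule.coe_add, add_dotProduct, dotProduct_add,
      dotProduct_add, add_dotProduct, dotProduct_add, dotProduct_add, hc', hc',
      dotProduct_comm (d y').1 (d y).1, dotProduct_comm y'.1 y.1] at h1
    linarith
  have hc0 : 0 < |c| := by
    rcases (abs_nonneg c).lt_or_eq with h0 | h0
    · exact h0
    · exfalso
      apply hθ
      apply LinearMap.ext
      intro y
      have h1 : (d y).1 = 0 := by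
        rw [← dotProduct_self_eq_zero, hc', ← h0]
        ring
      have h2 := h y y
      rw [h1, dotProduct_zero, dotProduct_self_eq_zero] at h2
      rw [h2]
      rfl
  refine ⟨|c|, hc0, fun y y' => ?_⟩
  -- `d = |c|`
  have key : d y' = |c| • y' := by
    set w : Y := d y' - |c| • y' with hw
    have h1 : ∀ y : Y, y.1 ⬝ᵥ (d w + |c| • w).1 = 0 := by
      intro y
      have e1 : (d w + |c| • w).1 = (d (d y')).1 - (|c| * |c|) • y'.1 := by
        rw [hw, map_sub, map_smul, smul_sub, smul_smul]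
        simp only [Submodule.coe_add, Submodule.coe_sub, Submodule.coe_smul]
        abel
      rw [e1, dotProduct_sub, dotProduct_smul, ← hsa, hpol, smul_eq_mul]
      ring
    have h2 : d w + |c| • w = 0 := struct_zero _ h1
    have h3 : w.1 ⬝ᵥ (d w).1 + |c| * (w.1 ⬝ᵥ w.1) = 0 := by
      have := h1 w
      rw [Submodule.coe_add, Submodule.coe_smul, dotProduct_add, dotProduct_smul,
        smul_eq_mul] at this
      exact this
    have h4 : 0 ≤ w.1 ⬝ᵥ (d w).1 := by
      rw [← h]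
      simp only [dotProduct]
      exact Finset.sum_nonneg fun s _ => mul_self_nonneg _
    have h5 : 0 ≤ w.1 ⬝ᵥ w.1 := by
      simp only [dotProduct]
      exact Finset.sum_nonneg fun s _ => mul_self_nonneg _
    have h6 : w.1 ⬝ᵥ w.1 = 0 := by nlinarith
    have h7 : w = 0 := Subtype.ext (dotProduct_self_eq_zero.1 h6)
    rw [hw, sub_eq_zero] at h7
    exact h7
  rw [h, key, Submodule.coe_smul, dotProduct_smul, smul_eq_mul]

/-- Decomposition of all homomorphisms for a maximal frame. -/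
private lemma struct_decomp
    (hS1 : ∀ d ∈ endF G Y, ∃ c : ℝ, ∀ y : Y, ∑ s, (d y).1 s ^ 2 = c ^ 2 * ∑ s, y.1 s ^ 2)
    (hS3 : ∀ θ ∈ homF G Y, ∀ θ' ∈ homF G Y, ∃ d ∈ endF G Y, ∀ y y' : Y,
      ∑ s, θ y s * θ' y' s = ∑ s, y.1 s * (d y').1 s)
    {k : ℕ} {θ : Fin k → (Y →ₗ[ℝ] (S → ℝ))} (h : SFrame G Y k θ)
    (hmax : ∀ θ' : Fin (k + 1) → (Y →ₗ[ℝ] (S → ℝ)), ¬ SFrame G Y (k + 1) θ')
    (η : Y →ₗ[ℝ] (S → ℝ)) (hη : η ∈ homF G Y) :
    ∃ d : Fin k → (Y →ₗ[ℝ] Y), (∀ j, d j ∈ endF G Y) ∧ ∀ y, η y = ∑ j, θ j (d j y) := by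
  choose d hd hdd using fun j => hS3 (θ j) (h.1 j) η hη
  refine ⟨d, hd, ?_⟩
  by_contra hcon
  set η' : Y →ₗ[ℝ] (S → ℝ) := η - ∑ j, (θ j).comp (d j) with hη'
  have hη'a : ∀ y, η' y = η y - ∑ j, θ j (d j y) := by
    intro y
    simp [hη']
  have hη'0 : η' ≠ 0 := by
    intro h0
    apply hcon
    intro y
    have := hη'a y
    rw [h0, LinearMap.zero_apply] at this
    exact (sub_eq_zero.1 this.symm)
  have hη'h : η' ∈ homF G Y := by
    refine Submodule.sub_mem _ hη (Submodule.sum_mem _ fun j _ => ?_)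
    intro f f' γ hff s
    exact (h.1 j) (d j f) (d j f') γ ((hd j) f f' γ hff) s
  have horth : ∀ j (y y' : Y), θ j y ⬝ᵥ η' y' = 0 := by
    intro j y y'
    rw [hη'a, dotProduct_sub, dotProduct_sum]
    simp only [h.2]
    rw [Finset.sum_ite_eq, if_pos (Finset.mem_univ _)]
    have := hdd j y y'
    simp only [dotProduct]
    linarith
  obtain ⟨D, hD, hDD⟩ := hS3 η' hη'h η' hη'h
  obtain ⟨c, hc0, hc⟩ := struct_scalar hS1 hD hDD hη'0
  have hsc : Real.sqrt c * Real.sqrt c = c := Real.mul_self_sqrt hc0.le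
  have hsc0 : 0 < Real.sqrt c := Real.sqrt_pos.2 hc0
  refine hmax (Fin.snoc θ ((Real.sqrt c)⁻¹ • η')) ⟨?_, ?_⟩
  · intro j
    refine Fin.lastCases ?_ (fun j => ?_) j
    · rw [Fin.snoc_last]
      exact Submodule.smul_mem _ _ hη'h
    · rw [Fin.snoc_castSucc]
      exact h.1 j
  · intro i j y y'
    refine Fin.lastCases ?_ (fun i => ?_) i
    · refine Fin.lastCases ?_ (fun j => ?_) j
      · rw [Fin.snoc_last, if_pos rfl, LinearMap.smul_apply, LinearMap.smul_apply,
          smul_dotProduct, dotProduct_smul, hc, smul_eq_mul, smul_eq_mul]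
        field_simp
        rw [pow_two, hsc]
      · rw [Fin.snoc_last, Fin.snoc_castSucc, LinearMap.smul_apply, smul_dotProduct,
          dotProduct_comm, horth, smul_zero, if_neg (Fin.castSucc_lt_last j).ne']
    · refine Fin.lastCases ?_ (fun j => ?_) j
      · rw [Fin.snoc_last, Fin.snoc_castSucc, LinearMap.smul_apply, dotProduct_smul,
          horth, smul_zero, if_neg (Fin.castSucc_lt_last i).ne]
      · rw [Fin.snoc_castSucc, Fin.snoc_castSucc, h.2]
        simp only [Fin.castSucc_inj]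

end Struct

theorem pStruct (hSchurR : StSchurR) : StStruct := by
  classical
  intro S G _ _ _ _ _ z hz Y hirr hodd
  obtain ⟨hS1, hS2, hS3⟩ := hSchurR S G Y hirr
  obtain ⟨hne, hst, -⟩ := hirr
  -- a nonzero element
  obtain ⟨y₀, hy₀, hy₀0⟩ := Submodule.exists_mem_ne_zero_of_ne_bot hne
  obtain ⟨s₀, hs₀⟩ : ∃ s, y₀ s ≠ 0 := by
    by_contra hcon
    push Not at hcon
    exact hy₀0 (funext hcon)
  have hYnz : ∃ y : Y, y ≠ 0 := ⟨⟨y₀, hy₀⟩, fun h => hy₀0 (congrArg Subtype.val h)⟩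
  set n := finrank ℝ Y with hn
  -- the dimension of `E`
  have hid : (LinearMap.id : Y →ₗ[ℝ] Y) ≠ 0 := by
    obtain ⟨y, hy⟩ := hYnz
    intro h
    exact hy (by simpa using congrArg (fun f => f y) h)
  have hE1 : 1 ≤ finrank ℝ (endF G Y) := by
    have : Nontrivial (endF G Y) :=
      ⟨⟨⟨LinearMap.id, one_mem_endF G Y⟩, 0, fun h => hid (congrArg Subtype.val h)⟩⟩
    exact Module.finrank_pos (R := ℝ) (M := endF G Y)
  -- a maximal frame
  have hbd : ∀ k, (∃ θ : Fin k → (Y →ₗ[ℝ] (S → ℝ)), SFrame G Y k θ) → k ≤ n := by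
    rintro k ⟨θ, hθ⟩
    have h1 := struct_card hst s₀ hθ
    calc k = k * 1 := (mul_one k).symm
      _ ≤ k * finrank ℝ (endF G Y) := Nat.mul_le_mul_left k hE1
      _ ≤ n := h1
  obtain ⟨k, ⟨θ, hθ⟩, hmax⟩ : ∃ k, (∃ θ : Fin k → (Y →ₗ[ℝ] (S → ℝ)), SFrame G Y k θ) ∧
      ∀ θ' : Fin (k + 1) → (Y →ₗ[ℝ] (S → ℝ)), ¬ SFrame G Y (k + 1) θ' := by
    have h0 : ∃ θ : Fin 0 → (Y →ₗ[ℝ] (S → ℝ)), SFrame G Y 0 θ :=
      ⟨fun i => i.elim0, fun i => i.elim0, fun i => i.elim0⟩
    refine ⟨Nat.findGreatest (fun k => ∃ θ : Fin k → (Y →ₗ[ℝ] (S → ℝ)), SFrame G Y k θ) n,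
      Nat.findGreatest_spec (P := fun k => ∃ θ : Fin k → (Y →ₗ[ℝ] (S → ℝ)), SFrame G Y k θ)
        (Nat.zero_le n) h0, ?_⟩
    intro θ' hθ'
    have h1 := hbd _ ⟨θ', hθ'⟩
    have h2 := Nat.le_findGreatest
      (P := fun k => ∃ θ : Fin k → (Y →ₗ[ℝ] (S → ℝ)), SFrame G Y k θ) h1 ⟨θ', hθ'⟩
    omega
  have hdec := struct_decomp hS1 hS3 hθ hmax
  have hcard := struct_card hst s₀ hθ
  obtain ⟨φ, hφ⟩ := struct_onb Y
  set b : Fin n → Y := fun i => φ (Pi.single i 1) with hb
  have hbsum : ∀ u : Fin n → ℝ, φ u = ∑ i, u i • b i := by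
    intro u
    have : u = ∑ i, u i • (Pi.single i (1 : ℝ) : Fin n → ℝ) := by
      funext j
      simp [Finset.sum_apply, Pi.single_apply]
    conv_lhs => rw [this]
    rw [map_sum]
    refine Finset.sum_congr rfl fun i _ => ?_
    rw [map_smul]
  have hθb : ∀ (j : Fin k) (u : Fin n → ℝ) (s : S), θ j (φ u) s = ∑ i, u i * θ j (b i) s := by
    intro j u s
    rw [hbsum, map_sum, Finset.sum_apply]
    refine Finset.sum_congr rfl fun i _ => ?_
    rw [map_smul, Pi.smul_apply, smul_eq_mul]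
  -- the inclusion
  have hinc : Y.subtype ∈ homF G Y := fun f f' γ hff s => hff s
  have hk1 : 1 ≤ k := by
    by_contra hk
    have hk0 : k = 0 := by omega
    obtain ⟨d, -, hd⟩ := hdec Y.subtype hinc
    obtain ⟨y, hy⟩ := hYnz
    apply hy
    apply Subtype.ext
    have := hd y
    subst hk0
    simpa using this
  let 𝔻 : Submodule ℝ ((Fin n → ℝ) →ₗ[ℝ] (Fin n → ℝ)) :=
    (endF G Y).map ((LinearEquiv.arrowCongr φ.symm φ.symm :
      (Y →ₗ[ℝ] Y) ≃ₗ[ℝ] ((Fin n → ℝ) →ₗ[ℝ] (Fin n → ℝ))) :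
      (Y →ₗ[ℝ] Y) →ₗ[ℝ] ((Fin n → ℝ) →ₗ[ℝ] (Fin n → ℝ)))
  have h𝔻 : finrank ℝ 𝔻 = finrank ℝ (endF G Y) := LinearEquiv.finrank_map_eq _ _
  let v : S → Fin k × Fin n → ℝ := fun s p => θ p.1 (b p.2) s
  refine ⟨k, 𝔻, v, hk1, hbd k ⟨θ, hθ⟩, ?_, ?_, ?_, ?_, ?_⟩
  · rw [h𝔻]
    have h1 : (k - 1) * finrank ℝ (endF G Y) + finrank ℝ (endF G Y) =
        k * finrank ℝ (endF G Y) := by
      obtain ⟨m, rfl⟩ := Nat.exists_eq_add_of_le' hk1
      simp only [Nat.add_sub_cancel]
      ring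
    omega
  · -- the frame condition
    intro u
    have h1 : ∀ s, ∑ i, v s i * u i = (∑ j, θ j (φ fun i => u (j, i))) s := by
      intro s
      rw [Fintype.sum_prod_type, Finset.sum_apply]
      refine Finset.sum_congr rfl fun j _ => ?_
      rw [hθb]
      exact Finset.sum_congr rfl fun i _ => mul_comm _ _
    have h2 : ∑ s, (∑ i, v s i * u i) ^ 2 =
        (∑ j, θ j (φ fun i => u (j, i))) ⬝ᵥ (∑ j, θ j (φ fun i => u (j, i))) := by
      simp only [dotProduct, h1, pow_two]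
    rw [h2, sum_dotProduct, Fintype.sum_prod_type]
    refine Finset.sum_congr rfl fun j _ => ?_
    rw [dotProduct_sum]
    simp only [hθ.2]
    rw [Finset.sum_ite_eq, if_pos (Finset.mem_univ _), hφ]
    simp only [dotProduct, pow_two]
  · -- equal lengths
    -- the representing elements
    let r : Fin k → S → Y := fun j s => φ fun i => θ j (b i) s
    have hr : ∀ (j : Fin k) (s : S) (y : Y), y.1 ⬝ᵥ (r j s).1 = θ j y s := by
      intro j s y
      obtain ⟨u, rfl⟩ := φ.surjective y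
      rw [hφ, hθb]
      rfl
    have hrn : ∀ (j : Fin k) (s : S), (r j s).1 ⬝ᵥ (r j s).1 = ∑ i, θ j (b i) s ^ 2 := by
      intro j s
      rw [hφ]
      simp only [dotProduct, pow_two]
      rfl
    have hinv : ∀ (j : Fin k) (s : S) (γ : G),
        (r j (γ • s)).1 ⬝ᵥ (r j (γ • s)).1 = (r j s).1 ⬝ᵥ (r j s).1 := by
      intro j s γ
      have h1 : r j s = ⟨fun t => (r j (γ • s)).1 (γ • t), hst _ (r j (γ • s)).2 γ⟩ := by
        rw [← sub_eq_zero]
        apply struct_zero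
        intro y
        rw [Submodule.coe_sub, dotProduct_sub, hr]
        have h2 := (hθ.1 j) ⟨fun t => y.1 (γ⁻¹ • t), hst _ y.2 γ⁻¹⟩ y γ
          (fun t => by simp only [inv_smul_smul]) s
        have h3 := hr j (γ • s) ⟨fun t => y.1 (γ⁻¹ • t), hst _ y.2 γ⁻¹⟩
        have h4 : (fun t => y.1 (γ⁻¹ • t)) ⬝ᵥ (r j (γ • s)).1 =
            y.1 ⬝ᵥ (fun t => (r j (γ • s)).1 (γ • t)) := by
          simp only [dotProduct]
          rw [← Equiv.sum_comp (MulAction.toPerm γ)]
          refine Finset.sum_congr rfl fun t _ => ?_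
          simp only [MulAction.toPerm_apply, inv_smul_smul]
        rw [h2, ← h3, h4, sub_self]
      have h5 := congrArg (fun y : Y => y.1 ⬝ᵥ y.1) h1
      simp only at h5
      rw [h5]
      simp only [dotProduct]
      exact (Equiv.sum_comp (MulAction.toPerm γ)
        (fun t => (r j (γ • s)).1 t * (r j (γ • s)).1 t)).symm
    have hv : ∀ s, ∑ i, v s i ^ 2 = ∑ j, (r j s).1 ⬝ᵥ (r j s).1 := by
      intro s
      rw [Fintype.sum_prod_type]
      exact Finset.sum_congr rfl fun j _ => (hrn j s).symm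
    have hconst : ∀ s s', ∑ i, v s i ^ 2 = ∑ i, v s' i ^ 2 := by
      intro s s'
      obtain ⟨γ, rfl⟩ := exists_smul_eq G s s'
      rw [hv, hv]
      exact Finset.sum_congr rfl fun j _ => (hinv j s γ).symm
    intro s
    have h1 : ∑ s', ∑ i, v s' i ^ 2 = Fintype.card S * ∑ i, v s i ^ 2 := by
      rw [Finset.sum_congr rfl fun s' _ => hconst s' s, Finset.sum_const, Finset.card_univ,
        nsmul_eq_mul]
    rw [← h1, Finset.sum_comm]
    have h2 : ∀ i : Fin k × Fin n, ∑ s', v s' i ^ 2 = 1 := by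
      rintro ⟨j, i⟩
      have h3 := hθ.2 j j (b i) (b i)
      rw [if_pos rfl, hφ] at h3
      simp only [dotProduct, ← pow_two] at h3
      refine h3.trans ?_
      simp [Pi.single_apply]
    rw [Finset.sum_congr rfl fun i _ => h2 i, Finset.sum_const, Finset.card_univ,
      Fintype.card_prod, Fintype.card_fin, Fintype.card_fin, nsmul_eq_mul, mul_one]
    push_cast
    rfl
  · -- odd
    intro s
    funext p
    have h1 := (hθ.1 p.1) (b p.2) (-(b p.2)) z (fun t => (hodd _ (b p.2).2 t).symm) s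
    rw [map_neg, Pi.neg_apply] at h1
    exact h1.symm
  · -- bad sign functions
    rintro e ⟨-, Y', -, ⟨ψ, hψ⟩, hperp⟩
    let η : Y →ₗ[ℝ] (S → ℝ) := Y'.subtype.comp ψ.toLinearMap
    have hη : η ∈ homF G Y := fun f f' γ hff s => hψ f f' γ hff s
    obtain ⟨d, hd, hdη⟩ := hdec η hη
    -- the adjoints
    have hadj : ∀ j, ∃ D ∈ endF G Y, ∀ y y' : Y, (d j y).1 ⬝ᵥ y'.1 = y.1 ⬝ᵥ (D y').1 := by
      intro j
      obtain ⟨D, hD, hDD⟩ := hS3 (Y.subtype.comp (d j)) (hd j) Y.subtype hinc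
      exact ⟨D, hD, hDD⟩
    choose D hD hDD using hadj
    choose a ha using fun j => hS1 (D j) (hD j)
    -- maximal norm
    obtain ⟨j₀, -, hj₀⟩ := Finset.exists_max_image (Finset.univ : Finset (Fin k))
      (fun j => a j ^ 2) ⟨⟨0, hk1⟩, Finset.mem_univ _⟩
    have hDne : D j₀ ≠ 0 := by
      intro h0
      have ha0 : a j₀ ^ 2 = 0 := by
        obtain ⟨y, hy⟩ := hYnz
        have h1 := ha j₀ y
        rw [h0] at h1
        have h2 : (∑ s, y.1 s ^ 2) ≠ 0 := by
          intro h3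
          apply hy
          apply Subtype.ext
          refine dotProduct_self_eq_zero.1 ?_
          simpa only [dotProduct, pow_two] using h3
        have h3 : a j₀ ^ 2 * ∑ s, y.1 s ^ 2 = 0 := by
          rw [← h1]
          simp
        exact (mul_eq_zero.1 h3).resolve_right h2
      have hall : ∀ j, d j = 0 := by
        intro j
        have h1 : a j ^ 2 = 0 := le_antisymm ((hj₀ j (Finset.mem_univ _)).trans ha0.le)
          (sq_nonneg _)
        have h2 : ∀ y', D j y' = 0 := by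
          intro y'
          apply Subtype.ext
          refine dotProduct_self_eq_zero.1 ?_
          have := ha j y'
          rw [h1, zero_mul] at this
          simpa only [dotProduct, pow_two] using this
        apply LinearMap.ext
        intro y
        apply struct_zero
        intro y'
        rw [dotProduct_comm, hDD, h2]
        simp
      obtain ⟨y, hy⟩ := hYnz
      have h1 : η y = 0 := by
        rw [hdη]
        simp [hall]
      apply hy
      have h2 : ψ y = 0 := Subtype.ext h1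
      exact (LinearEquiv.map_eq_zero_iff ψ).1 h2
    obtain ⟨d', hd', hd'D⟩ := hS2 (D j₀) (hD j₀) hDne
    obtain ⟨c', hc'⟩ := hS1 d' hd'
    have hca : c' ^ 2 * a j₀ ^ 2 = 1 := by
      obtain ⟨y, hy⟩ := hYnz
      have h2 : (∑ s, y.1 s ^ 2) ≠ 0 := by
        intro h3
        apply hy
        apply Subtype.ext
        refine dotProduct_self_eq_zero.1 ?_
        simpa only [dotProduct, pow_two] using h3
      have h3 := hc' (D j₀ y)
      have h4 : d' (D j₀ y) = y := congrArg (fun f => f y) hd'D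
      rw [h4, ha j₀ y, ← mul_assoc] at h3
      have h5 : (c' ^ 2 * a j₀ ^ 2 - 1) * ∑ s, y.1 s ^ 2 = 0 := by
        rw [sub_mul, ← h3, one_mul, sub_self]
      have := (mul_eq_zero.1 h5).resolve_right h2
      linarith
    -- the rows
    let Wr : Fin k → (Fin n → ℝ) := fun l i' => ∑ s, (e s : ℝ) * v s (l, i')
    have hW : ∀ (l : Fin k) (y : Y), y.1 ⬝ᵥ (φ (Wr l)).1 = ∑ s, θ l y s * (e s : ℝ) := by
      intro l y
      obtain ⟨u, rfl⟩ := φ.surjective y
      rw [hφ]
      simp only [dotProduct, Wr, hθb, Finset.mul_sum, Finset.sum_mul]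
      rw [Finset.sum_comm]
      refine Finset.sum_congr rfl fun s _ => Finset.sum_congr rfl fun i _ => ?_
      simp only [v]
      ring
    have hsum : ∑ j, D j (φ (Wr j)) = 0 := by
      apply struct_zero
      intro y
      have h1 : (∑ j, D j (φ (Wr j))).1 = ∑ j, (D j (φ (Wr j))).1 := by
        rw [← Submodule.subtype_apply, map_sum]
        rfl
      rw [h1, dotProduct_sum]
      simp only [← hDD, hW]
      rw [Finset.sum_comm]
      have h2 := hperp (η y) (ψ y).2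
      rw [← h2]
      refine Finset.sum_congr rfl fun s _ => ?_
      rw [hdη, Finset.sum_apply, Finset.sum_mul]
    refine ⟨j₀, fun l => ⟨LinearEquiv.arrowCongr φ.symm φ.symm (d'.comp (D l)),
      Submodule.mem_map_of_mem (comp_mem_endF G Y d' (D l) hd' (hD l))⟩, ?_, ?_⟩
    · intro l y
      have h1 : ∀ x : Fin n → ℝ, ∑ i, x i ^ 2 = ∑ s, (φ x).1 s ^ 2 := by
        intro x
        have := hφ x x
        simp only [dotProduct, ← pow_two] at this
        exact this.symm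
      rw [h1, h1 y]
      have h2 : φ ((LinearEquiv.arrowCongr φ.symm φ.symm (d'.comp (D l))) y) =
          d' (D l (φ y)) := by
        simp [LinearEquiv.arrowCongr_apply]
      rw [h2, hc', ha, ← mul_assoc]
      have h3 : c' ^ 2 * a l ^ 2 ≤ 1 := by
        rw [← hca]
        exact mul_le_mul_of_nonneg_left (hj₀ l (Finset.mem_univ _)) (sq_nonneg _)
      exact mul_le_of_le_one_left (Finset.sum_nonneg fun s _ => sq_nonneg _) h3
    · intro i
      have h1 : φ (Wr j₀) + ∑ l ∈ Finset.univ.erase j₀, d' (D l (φ (Wr l))) = 0 := by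
        have h2 := congrArg d' hsum
        rw [map_sum, map_zero, ← Finset.add_sum_erase _ _ (Finset.mem_univ j₀)] at h2
        have h4 : d' (D j₀ (φ (Wr j₀))) = φ (Wr j₀) := congrArg (fun f => f (φ (Wr j₀))) hd'D
        rw [h4] at h2
        exact h2
      have h2 := congrArg φ.symm h1
      rw [map_add, map_sum, map_zero, LinearEquiv.symm_apply_apply] at h2
      have h3 := congrFun h2 i
      rw [Pi.add_apply, Finset.sum_apply, Pi.zero_apply] at h3
      refine Eq.trans ?_ h3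
      congr 1

end Pool.Agent.Lib.MP_640417_ag.Full
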