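import Pool.Agent.Lib.MP_640417_ag.Full.SpecA
import Pool.Agent.Lib.MP_640417_ag.Far.Red
import Pool.Agent.Lib.MP_640417_ag.Far.BN
import Pool.Agent.Lib.MP_640417_ag.Far.BNcore
import Pool.Agent.Lib.MP_640417_ag.Far.Bad

/-!
# Bad sign functions and a stable subspace of the reduction
-/

namespace Pool.Agent.Lib.MP_640417_ag.Full

open Module Finset MulAction Pool.Agent.Lib.MP_640417_ag.Far

/-- The number of stable spaces isomorphic to a given stable space. -/
lemma Sub_count {S G : Type} [Finite S] [Group G] [MulAction G S] [IsPretransitive G S]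
    (s₀ : S) (p : ℕ) [hp : Fact p.Prime] (W : Submodule (ZMod p) (S → ZMod p)) (hW0 : W ≠ ⊥)
    (hW : IsStab G W) :
    (p - 1) * {M : Submodule (ZMod p) (S → ZMod p) | IsStab G M ∧ IsoF G W M}.ncard
      ≤ p ^ finrank (ZMod p) W := by
  classical
  set T : Set (Submodule (ZMod p) (S → ZMod p)) := {M | IsStab G M ∧ IsoF G W M} with hT
  have hθ : ∀ M : T, ∃ θ : W ≃ₗ[ZMod p] M.1, ∀ (f f' : W) (γ : G),
      (∀ s, f'.1 s = f.1 (γ • s)) → ∀ s, (θ f').1 s = (θ f).1 (γ • s) := fun M => M.2.2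
  choose θ hθ using hθ
  -- the linear form of a copy
  let ev : ∀ M : T, Dual (ZMod p) W := fun M =>
    (LinearMap.proj (R := ZMod p) (φ := fun _ : S => ZMod p) s₀).comp
      ((Submodule.subtype M.1).comp (θ M).toLinearMap)
  have hev : ∀ (M : T) (f : W), ev M f = (θ M f).1 s₀ := fun M f => rfl
  -- translates
  let tr : W → G → W := fun f γ => ⟨fun s => f.1 (γ • s), hW _ f.2 γ⟩
  have hevtr : ∀ (M : T) (f : W) (γ : G), ev M (tr f γ) = (θ M f).1 (γ • s₀) := by
    intro M f γ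
    rw [hev, hθ M f (tr f γ) γ (fun s => rfl) s₀]
  -- a nonzero member
  obtain ⟨f0, hf0⟩ : ∃ f0 : W, f0 ≠ 0 := by
    have : Nontrivial W := Submodule.nontrivial_iff_ne_bot.mpr hW0
    exact exists_ne 0
  have hθ0 : ∀ M : T, ∃ γ : G, (θ M f0).1 (γ • s₀) ≠ 0 := by
    intro M
    by_contra hcon
    push Not at hcon
    apply hf0
    apply (θ M).injective
    rw [map_zero]
    apply Subtype.ext
    funext s
    obtain ⟨γ, rfl⟩ := MulAction.exists_smul_eq G s₀ s
    exact hcon γ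
  let Ψ : (ZMod p)ˣ × T → Dual (ZMod p) W := fun cM => (cM.1 : ZMod p) • ev cM.2
  have hΨ : Function.Injective Ψ := by
    rintro ⟨c, M⟩ ⟨c', M'⟩ h2
    replace h2 : (c : ZMod p) • ev M = (c' : ZMod p) • ev M' := h2
    have h3 : ∀ (f : W) (s : S), (c : ZMod p) * (θ M f).1 s = (c' : ZMod p) * (θ M' f).1 s := by
      intro f s
      obtain ⟨γ, rfl⟩ := MulAction.exists_smul_eq G s₀ s
      have h4 := LinearMap.congr_fun h2 (tr f γ)
      rw [LinearMap.smul_apply, LinearMap.smul_apply, hevtr, hevtr] at h4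
      exact h4
    have hle : ∀ (a a' : (ZMod p)ˣ) (A A' : T), (∀ (f : W) (s : S),
        (a : ZMod p) * (θ A f).1 s = (a' : ZMod p) * (θ A' f).1 s) → A.1 ≤ A'.1 := by
      intro a a' A A' hAA x hx
      have h5 : x = ((a : ZMod p)⁻¹ * (a' : ZMod p)) • (θ A' ((θ A).symm ⟨x, hx⟩)).1 := by
        funext s
        have h6 := hAA ((θ A).symm ⟨x, hx⟩) s
        rw [LinearEquiv.apply_symm_apply] at h6
        show x s = ((a : ZMod p)⁻¹ * (a' : ZMod p)) * (θ A' ((θ A).symm ⟨x, hx⟩)).1 s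
        rw [mul_assoc, ← h6, inv_mul_cancel_left₀ a.ne_zero]
      rw [h5]
      exact A'.1.smul_mem _ (θ A' ((θ A).symm ⟨x, hx⟩)).2
    have hMM : M = M' := Subtype.ext
      (le_antisymm (hle c c' M M' h3) (hle c' c M' M (fun f s => (h3 f s).symm)))
    subst hMM
    obtain ⟨γ, hγ⟩ := hθ0 M
    have h7 := h3 f0 (γ • s₀)
    have h8 : (c : ZMod p) = (c' : ZMod p) := mul_right_cancel₀ hγ h7
    rw [Units.ext h8]
  have : Finite T := Set.toFinite _
  have : Finite (Dual (ZMod p) W) := Finite.of_injective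
      (fun l : Dual (ZMod p) W => (l : W → ZMod p)) DFunLike.coe_injective
  have hfin := Nat.card_le_card_of_injective Ψ hΨ
  rw [Nat.card_prod, Nat.card_eq_fintype_card (α := (ZMod p)ˣ),
    ZMod.card_units p, Nat.card_coe_set_eq] at hfin
  refine hfin.trans (le_of_eq ?_)
  rw [Module.natCard_eq_pow_finrank (K := ZMod p) (V := Dual (ZMod p) W), Nat.card_zmod,
      Subspace.dual_finrank_eq]

/-- The image of a stable subspace under an equivariant isomorphism. -/
lemma Sub_image {S G : Type} [Group G] [MulAction G S] {F : Type} [Field F]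
    (M M' W : Submodule F (S → F)) (hiso : IsoF G M M') (hWM : W ≤ M) (hW : IsStab G W) :
    ∃ W' : Submodule F (S → F), W' ≤ M' ∧ IsStab G W' ∧ IsoF G W W' := by
  obtain ⟨θ, hθ⟩ := hiso
  let j : W →ₗ[F] (S → F) :=
    (Submodule.subtype M').comp (θ.toLinearMap.comp (Submodule.inclusion hWM))
  have hj : ∀ f : W, j f = (θ ⟨f.1, hWM f.2⟩).1 := fun f => rfl
  have hjinj : Function.Injective j := by
    intro f f' h
    rw [hj, hj] at h
    have h1 := θ.injective (Subtype.ext h)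
    have h2 : f.1 = f'.1 := congrArg (fun t : M => t.1) h1
    exact Subtype.ext h2
  refine ⟨LinearMap.range j, ?_, ?_, LinearEquiv.ofInjective j hjinj, ?_⟩
  · rintro x ⟨f, rfl⟩
    rw [hj]
    exact (θ ⟨f.1, hWM f.2⟩).2
  · rintro x ⟨f, rfl⟩ γ
    refine ⟨⟨fun s => f.1 (γ • s), hW _ f.2 γ⟩, ?_⟩
    funext s
    rw [hj, hj]
    exact hθ _ _ γ (fun s => rfl) s
  · intro f f' γ hff s
    have h1 : (LinearEquiv.ofInjective j hjinj f').1 = j f' := rfl
    have h2 : (LinearEquiv.ofInjective j hjinj f).1 = j f := rfl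
    rw [h1, h2, hj, hj]
    exact hθ _ _ γ hff s

theorem pSub : StSub := by
  intro S G _ _ _ _ _ s₀ z hzz X hX U hU hodd p _ hp2 hpN W hW0 hWle hWs a ha haD
  classical
  have hpp : p.Prime := Fact.out
  have h2 : StBN := bn_of_core bnCore red_rank
  set T : Set (Submodule (ZMod p) (S → ZMod p)) := {M | IsStab G M ∧ IsoF G W M} with hT
  have hTfin : T.Finite := Set.toFinite _
  have hfin : ∀ M : Submodule (ZMod p) (S → ZMod p), {e : S → ℤ | IsSgn z e ∧ Perp e M}.Finite :=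
    fun M => finite_isSgn z _
  have hsub : badSet z U ⊆ ⋃ M ∈ T, {e : S → ℤ | IsSgn z e ∧ Perp e M} := by
    rintro e ⟨he, U', hU', hiso, hperp⟩
    obtain ⟨M, hM1, hM2, hM3⟩ := Sub_image (red p U) (red p U') W
      (h2 S G p U U' hU hU' hiso hpN) hWle hWs
    exact Set.mem_iUnion₂.mpr ⟨M, ⟨hM2, hM3⟩, he, fun f hf => red_perp p e U' hperp f (hM1 hf)⟩
  have hcount := Sub_count s₀ p W hW0 hWs
  have hcount' : ((p : ℝ) - 1) * T.ncard ≤ (p : ℝ) ^ finrank (ZMod p) W := by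
    have h4 : (((p - 1) * T.ncard : ℕ) : ℝ) ≤ ((p ^ finrank (ZMod p) W : ℕ) : ℝ) := by
      exact_mod_cast hcount
    push_cast [Nat.cast_sub hpp.one_lt.le] at h4
    exact h4
  have hp1 : (0 : ℝ) ≤ (p : ℝ) - 1 := by
    have : (1 : ℝ) ≤ p := by exact_mod_cast hpp.one_lt.le
    linarith
  have hWodd : IsOddSp z W := fun f hf => red_odd p z U hodd f (hWle hf)
  have hK : ∀ M ∈ T, ({e : S → ℤ | IsSgn z e ∧ Perp e M}.ncard : ℝ)
      ≤ 2 ^ X.card * cosAvg p a ^ finrank (ZMod p) W := by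
    rintro M ⟨hM1, hM2⟩
    have hr : finrank (ZMod p) M = finrank (ZMod p) W := hM2.finrank_eq.symm
    have h5 := ncard_orth_le (p := p) hp2 z hzz X hX M (hM2.odd z hWodd) hM1 a ha
      (by rw [hr]; exact haD)
    rw [hr] at h5
    exact h5
  have h4 := ncard_le_of_subset_biUnion T hTfin _ (fun M _ => hfin M) _ hK _ hsub
  have hK0 : 0 ≤ 2 ^ X.card * cosAvg p a ^ finrank (ZMod p) W :=
    mul_nonneg (by positivity) (pow_nonneg (cosAvg_nonneg a) _)
  calc ((p : ℝ) - 1) * (badSet z U).ncard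
      ≤ ((p : ℝ) - 1) * (T.ncard * (2 ^ X.card * cosAvg p a ^ finrank (ZMod p) W)) :=
        mul_le_mul_of_nonneg_left h4 hp1
    _ = (((p : ℝ) - 1) * T.ncard) * (2 ^ X.card * cosAvg p a ^ finrank (ZMod p) W) := by ring
    _ ≤ _ := mul_le_mul_of_nonneg_right hcount' hK0

end Pool.Agent.Lib.MP_640417_ag.Full
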