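import Pool.Agent.Lib.MP_640417_ag.Full.SpecC

/-!
# All CM fields: spaces of dimension 1 and subgroups of index 2 (statement `StSubA`)
-/

namespace Pool.Agent.Lib.MP_640417_ag.Full

open Module Finset MulAction NumberField Pool.Agent.Lib.MP_640417_ag.Far

section subA

variable {S G : Type} [Fintype S] [Group G] [Finite G] [MulAction G S] [IsPretransitive G S]

/-- The character of a stable line. -/
private lemma line_char (s₀ : S) (z : G) (U : Submodule ℚ (S → ℚ)) (hU : IsIrr G U)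
    (hodd : IsOddSp z U) (h1 : finrank ℚ U = 1) :
    ∃ (f : S → ℚ) (χ : G → ℚ), f s₀ ≠ 0 ∧ U = Submodule.span ℚ {f} ∧
      (∀ γ s, f (γ • s) = χ γ * f s) ∧ (∀ γ, χ γ = 1 ∨ χ γ = -1) ∧
      (∀ γ, γ ∈ kerSub G U ↔ χ γ = 1) ∧ χ z = -1 ∧ (∀ γ δ, χ (γ * δ) = χ γ * χ δ) := by
  obtain ⟨v, hv0, hv⟩ := finrank_eq_one_iff'.mp h1
  have hv0' : (v : S → ℚ) ≠ 0 := fun h => hv0 (Subtype.ext h)
  have hspan : U = Submodule.span ℚ {(v : S → ℚ)} := by
    apply le_antisymm
    · intro w hw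
      obtain ⟨c, hc⟩ := hv ⟨w, hw⟩
      rw [Submodule.mem_span_singleton]
      exact ⟨c, congrArg Subtype.val hc⟩
    · rw [Submodule.span_singleton_le_iff_mem]
      exact v.2
  have hχ : ∀ γ : G, ∃ c : ℚ, ∀ s, v.1 (γ • s) = c * v.1 s := by
    intro γ
    obtain ⟨c, hc⟩ := hv ⟨_, hU.2.1 v.1 v.2 γ⟩
    refine ⟨c, fun s => ?_⟩
    have := congrFun (congrArg Subtype.val hc) s
    simpa using this.symm
  choose χ hχ using hχ
  obtain ⟨t, ht⟩ := Function.ne_iff.mp hv0'
  have ht' : v.1 t ≠ 0 := by simpa using ht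
  have hs0 : v.1 s₀ ≠ 0 := by
    intro h
    obtain ⟨γ, hγ⟩ := MulAction.exists_smul_eq G s₀ t
    apply ht'
    rw [← hγ, hχ, h, mul_zero]
  have hsq : ∀ γ, χ γ ^ 2 = 1 := by
    intro γ
    have h2 : ∑ s, v.1 (γ • s) ^ 2 = ∑ s, v.1 s ^ 2 :=
      Fintype.sum_equiv (MulAction.toPerm γ) _ _ (fun s => rfl)
    have h3 : ∑ s, v.1 (γ • s) ^ 2 = χ γ ^ 2 * ∑ s, v.1 s ^ 2 := by
      rw [Finset.mul_sum]
      refine Finset.sum_congr rfl fun s _ => ?_
      rw [hχ, mul_pow]
    have h4 : 0 < ∑ s, v.1 s ^ 2 := by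
      refine Finset.sum_pos' (fun s _ => sq_nonneg _) ⟨s₀, Finset.mem_univ _, ?_⟩
      positivity
    have h5 : χ γ ^ 2 * ∑ s, v.1 s ^ 2 = 1 * ∑ s, v.1 s ^ 2 := by
      rw [← h3, h2, one_mul]
    exact mul_right_cancel₀ h4.ne' h5
  have hmul : ∀ γ δ, χ (γ * δ) = χ γ * χ δ := by
    intro γ δ
    have h2 : χ (γ * δ) * v.1 s₀ = χ γ * χ δ * v.1 s₀ := by
      rw [← hχ, mul_smul, hχ, hχ]
      ring
    exact mul_right_cancel₀ hs0 h2
  refine ⟨v.1, χ, hs0, hspan, hχ, ?_, ?_, ?_, hmul⟩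
  · intro γ
    exact sq_eq_one_iff.mp (hsq γ)
  · intro γ
    rw [mem_kerSub]
    constructor
    · intro h
      have h2 := h v.1 v.2 s₀
      rw [hχ] at h2
      exact mul_right_cancel₀ hs0 (by rw [h2, one_mul])
    · intro h f hf s
      rw [hspan, Submodule.mem_span_singleton] at hf
      obtain ⟨c, rfl⟩ := hf
      simp only [Pi.smul_apply, hχ, h, one_mul]
  · have h2 := hodd v.1 v.2 s₀
    rw [hχ] at h2
    have : χ z * v.1 s₀ = -1 * v.1 s₀ := by rw [h2]; ring
    exact mul_right_cancel₀ hs0 this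

end subA

theorem pSubA : StSubA := by
  intro S G _ _ _ _ _ s₀ z n U hU hiso
  refine Set.ncard_le_ncard_of_injOn (fun i => kerSub G (U i)) ?_ ?_ (Set.toFinite _)
  · intro i hi
    obtain ⟨f, χ, hs0, hspan, hχ, hpm, hker, hz, hmul⟩ :=
      line_char s₀ z (U i) (hU i).1 (hU i).2 hi
    refine ⟨?_, ?_, ?_⟩
    · intro γ hγ
      rw [hker]
      have h1 := hχ γ s₀
      rw [MulAction.mem_stabilizer_iff.mp hγ] at h1
      exact (mul_right_cancel₀ hs0 (by rw [one_mul]; exact h1)).symm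
    · rw [Subgroup.index_eq_two_iff]
      refine ⟨z, fun b => ?_⟩
      rw [hker, hker, hmul, hz]
      rcases hpm b with h | h
      · rw [h]
        right
        norm_num
      · rw [h]
        left
        norm_num
    · rw [hker, hz]
      norm_num
  · intro i hi j hj hij
    obtain ⟨f, χ, hs0, hspan, hχ, hpm, hker, hz, hmul⟩ :=
      line_char s₀ z (U i) (hU i).1 (hU i).2 hi
    obtain ⟨f', χ', hs0', hspan', hχ', hpm', hker', hz', hmul'⟩ :=
      line_char s₀ z (U j) (hU j).1 (hU j).2 hj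
    have hij' : kerSub G (U i) = kerSub G (U j) := hij
    have hcc : ∀ γ, χ γ = χ' γ := by
      intro γ
      have h1 : χ γ = 1 ↔ χ' γ = 1 := by
        rw [← hker, ← hker', hij']
      rcases hpm γ with h | h
      · rw [h, h1.mp h]
      · rcases hpm' γ with h' | h'
        · rw [h1.mpr h', h']
        · rw [h, h']
    have hfun : f' = (f' s₀ / f s₀) • f := by
      funext s
      obtain ⟨γ, rfl⟩ := MulAction.exists_smul_eq G s₀ s
      rw [Pi.smul_apply, hχ, hχ', hcc, smul_eq_mul]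
      field_simp
    have hfun2 : f = (f s₀ / f' s₀) • f' := by
      funext s
      obtain ⟨γ, rfl⟩ := MulAction.exists_smul_eq G s₀ s
      rw [Pi.smul_apply, hχ, hχ', hcc, smul_eq_mul]
      field_simp
    have hUU : U i = U j := by
      rw [hspan, hspan']
      apply le_antisymm
      · rw [Submodule.span_singleton_le_iff_mem, Submodule.mem_span_singleton]
        exact ⟨_, hfun2.symm⟩
      · rw [Submodule.span_singleton_le_iff_mem, Submodule.mem_span_singleton]
        exact ⟨_, hfun.symm⟩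
    by_contra hne
    apply hiso i j hne
    rw [hUU]
    exact IsoF.refl _

end Pool.Agent.Lib.MP_640417_ag.Full
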