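import Pool.Agent.Lib.MP_640417_ag.Full.SpecC
import Pool.Agent.Lib.MP_640417_ag.Far.Main

/-!
# All CM fields: spaces of dimension `2` and subgroups of index `4` or `6`
-/

set_option autoImplicit false

namespace Pool.Agent.Lib.MP_640417_ag.Full

open Module Finset MulAction Pool.Agent.Lib.MP_640417_ag.Far

section SubB

variable {S G : Type} [Group G] [MulAction G S]

/-- The group elements fixing a function. -/
def SubBfix (G : Type) [Group G] [MulAction G S] (f : S → ℚ) : Subgroup G where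
  carrier := {γ | ∀ s, f (γ • s) = f s}
  mul_mem' := by
    intro a b ha hb s
    rw [mul_smul, ha, hb]
  one_mem' := by
    intro s
    rw [one_smul]
  inv_mem' := by
    intro a ha s
    rw [← ha (a⁻¹ • s), smul_inv_smul]

lemma SubB_mem_fix (f : S → ℚ) (γ : G) : γ ∈ SubBfix G f ↔ ∀ s, f (γ • s) = f s := Iff.rfl

/-- A nonzero stable relation between two irreducible spaces without trivial members is the graph of
an equivariant isomorphism. -/
lemma SubB_goursat {U U' : Submodule ℚ (S → ℚ)} (hU : IsIrr G U) (hU' : IsIrr G U')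
    (P : Submodule ℚ ((S → ℚ) × (S → ℚ))) (hP : P ≠ ⊥) (hPU : ∀ p ∈ P, p.1 ∈ U)
    (hPU' : ∀ p ∈ P, p.2 ∈ U')
    (hst : ∀ p ∈ P, ∀ γ : G, ((fun s => p.1 (γ • s), fun s => p.2 (γ • s)) :
      (S → ℚ) × (S → ℚ)) ∈ P)
    (h1 : ∀ p ∈ P, p.2 = 0 → p.1 = 0) (h2 : ∀ p ∈ P, p.1 = 0 → p.2 = 0) :
    IsoF G U U' := by
  let a : P →ₗ[ℚ] U := LinearMap.codRestrict U
    ((LinearMap.fst ℚ (S → ℚ) (S → ℚ)).comp P.subtype) (fun p => hPU p.1 p.2)
  let b : P →ₗ[ℚ] U' := LinearMap.codRestrict U'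
    ((LinearMap.snd ℚ (S → ℚ) (S → ℚ)).comp P.subtype) (fun p => hPU' p.1 p.2)
  have hav : ∀ p : P, (a p).1 = p.1.1 := fun p => rfl
  have hbv : ∀ p : P, (b p).1 = p.1.2 := fun p => rfl
  have ha0 : Function.Injective a := by
    rw [← LinearMap.ker_eq_bot, LinearMap.ker_eq_bot']
    intro p h
    have hu : p.1.1 = 0 := congrArg Subtype.val h
    exact Subtype.ext (Prod.ext hu (h2 p.1 p.2 hu))
  have hb0 : Function.Injective b := by
    rw [← LinearMap.ker_eq_bot, LinearMap.ker_eq_bot']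
    intro p h
    have hu : p.1.2 = 0 := congrArg Subtype.val h
    exact Subtype.ext (Prod.ext (h1 p.1 p.2 hu) hu)
  obtain ⟨p₀, hp₀, hp₀0⟩ := Submodule.exists_mem_ne_zero_of_ne_bot hP
  have ha1 : Function.Surjective a := by
    have hR : (a.range.map U.subtype) = ⊥ ∨ (a.range.map U.subtype) = U := by
      apply hU.2.2
      · exact Submodule.map_subtype_le _ _
      · rintro f hf γ
        rw [Submodule.mem_map] at hf ⊢
        obtain ⟨y, ⟨r, hr⟩, hy⟩ := hf
        refine ⟨a ⟨_, hst r.1 r.2 γ⟩, ⟨_, rfl⟩, ?_⟩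
        funext s
        rw [← hy, ← hr]
        rfl
    rcases hR with hR | hR
    · exfalso
      apply hp₀0
      have h3 : ((a ⟨p₀, hp₀⟩ : U) : S → ℚ) ∈ (a.range.map U.subtype) :=
        Submodule.mem_map.2 ⟨a ⟨p₀, hp₀⟩, ⟨_, rfl⟩, rfl⟩
      rw [hR] at h3
      have h4 : p₀.1 = 0 := (Submodule.mem_bot ℚ).1 h3
      exact Prod.ext h4 (h2 p₀ hp₀ h4)
    · intro y
      have h3 : (y : S → ℚ) ∈ (a.range.map U.subtype) := by
        rw [hR]
        exact y.2
      rw [Submodule.mem_map] at h3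
      obtain ⟨y', ⟨r, hr⟩, hy'⟩ := h3
      refine ⟨r, ?_⟩
      rw [hr]
      exact Subtype.ext hy'
  have hb1 : Function.Surjective b := by
    have hR : (b.range.map U'.subtype) = ⊥ ∨ (b.range.map U'.subtype) = U' := by
      apply hU'.2.2
      · exact Submodule.map_subtype_le _ _
      · rintro f hf γ
        rw [Submodule.mem_map] at hf ⊢
        obtain ⟨y, ⟨r, hr⟩, hy⟩ := hf
        refine ⟨b ⟨_, hst r.1 r.2 γ⟩, ⟨_, rfl⟩, ?_⟩
        funext s
        rw [← hy, ← hr]
        rfl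
    rcases hR with hR | hR
    · exfalso
      apply hp₀0
      have h3 : ((b ⟨p₀, hp₀⟩ : U') : S → ℚ) ∈ (b.range.map U'.subtype) :=
        Submodule.mem_map.2 ⟨b ⟨p₀, hp₀⟩, ⟨_, rfl⟩, rfl⟩
      rw [hR] at h3
      have h4 : p₀.2 = 0 := (Submodule.mem_bot ℚ).1 h3
      exact Prod.ext (h1 p₀ hp₀ h4) h4
    · intro y
      have h3 : (y : S → ℚ) ∈ (b.range.map U'.subtype) := by
        rw [hR]
        exact y.2
      rw [Submodule.mem_map] at h3
      obtain ⟨y', ⟨r, hr⟩, hy'⟩ := h3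
      refine ⟨r, ?_⟩
      rw [hr]
      exact Subtype.ext hy'
  set ei := LinearEquiv.ofBijective a ⟨ha0, ha1⟩ with hei
  set ej := LinearEquiv.ofBijective b ⟨hb0, hb1⟩ with hej
  refine ⟨ei.symm.trans ej, fun f f' γ hff s => ?_⟩
  have key : ei.symm f' = ⟨_, hst (ei.symm f).1 (ei.symm f).2 γ⟩ := by
    rw [LinearEquiv.symm_apply_eq]
    apply Subtype.ext
    funext t
    rw [hff]
    have h1 : ei (ei.symm f) = f := ei.apply_symm_apply f
    have h2 : ((ei (ei.symm f)).1 : S → ℚ) (γ • t) = f.1 (γ • t) := by rw [h1]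
    rw [← h2]
    rfl
  show (ej (ei.symm f')).1 s = (ej (ei.symm f)).1 (γ • s)
  rw [key]
  rfl

variable [Fintype S]

private lemma SubB_sq {f : S → ℚ} (h : ∑ s, f s * f s = 0) : f = 0 := by
  have h3 := (Finset.sum_eq_zero_iff_of_nonneg (fun s _ => mul_self_nonneg (f s))).mp h
  funext s
  exact mul_self_eq_zero.mp (h3 s (Finset.mem_univ s))

/-- The pairing with a nonzero member of an irreducible space is not degenerate. -/
lemma SubB_zero {U : Submodule ℚ (S → ℚ)} (hU : IsIrr G U) {f : S → ℚ} (hf : f ∈ U) (hf0 : f ≠ 0)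
    (u : S → ℚ) (hu : u ∈ U) (h : ∀ γ : G, ∑ s, u (γ • s) * f s = 0) : u = 0 := by
  let M : Submodule ℚ (S → ℚ) :=
    { carrier := {u | u ∈ U ∧ ∀ γ : G, ∑ s, u (γ • s) * f s = 0}
      add_mem' := by
        rintro a b ⟨ha, ha'⟩ ⟨hb, hb'⟩
        refine ⟨U.add_mem ha hb, fun γ => ?_⟩
        simp only [Pi.add_apply, add_mul, Finset.sum_add_distrib, ha', hb', add_zero]
      zero_mem' := ⟨U.zero_mem, fun γ => by simp⟩
      smul_mem' := by
        rintro c a ⟨ha, ha'⟩
        refine ⟨U.smul_mem c ha, fun γ => ?_⟩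
        simp only [Pi.smul_apply, smul_eq_mul, mul_assoc, ← Finset.mul_sum, ha', mul_zero] }
  have hM : M = ⊥ ∨ M = U := by
    apply hU.2.2
    · exact fun x hx => hx.1
    · rintro a ⟨ha, ha'⟩ γ
      refine ⟨hU.2.1 a ha γ, fun δ => ?_⟩
      have h1 := ha' (γ * δ)
      simp only [mul_smul] at h1
      exact h1
  rcases hM with hM | hM
  · have h1 : u ∈ M := ⟨hu, h⟩
    rw [hM] at h1
    exact (Submodule.mem_bot ℚ).1 h1
  · exfalso
    have h1 : f ∈ M := by
      rw [hM]
      exact hf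
    have h2 := h1.2 1
    simp only [one_smul] at h2
    exact hf0 (SubB_sq h2)

/-- Two irreducible odd spaces with members fixed by the same subgroup of small index are
isomorphic. -/
lemma SubB_iso [Finite G] (z : G) (hz : ∀ γ : G, γ * z = z * γ) {U U' : Submodule ℚ (S → ℚ)}
    (hU : IsIrr G U) (hU' : IsIrr G U') (ho : IsOddSp z U) (ho' : IsOddSp z U')
    (H : Subgroup G) (hzH : z ∉ H) (hzz : z * z ∈ H) {f f' : S → ℚ} (hf : f ∈ U) (hf' : f' ∈ U')
    (hf0 : f ≠ 0) (hf0' : f' ≠ 0) (hfH : ∀ η ∈ H, ∀ s, f (η • s) = f s)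
    (hfH' : ∀ η ∈ H, ∀ s, f' (η • s) = f' s)
    (hd : H.index < 2 * (finrank ℚ U + finrank ℚ U')) : IsoF G U U' := by
  classical
  have : Fintype (G ⧸ H) := Fintype.ofFinite _
  have hcard : Fintype.card (G ⧸ H) = H.index := by
    rw [Subgroup.index, Nat.card_eq_fintype_card]
  have hsm : ∀ γ : G, z • (QuotientGroup.mk γ : G ⧸ H) = QuotientGroup.mk (z * γ) := fun γ => rfl
  have hzzq : ∀ q : G ⧸ H, z • z • q = q := by
    intro q
    induction q using QuotientGroup.induction_on with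
    | H γ =>
      rw [hsm, hsm, QuotientGroup.eq]
      have h0 : z * (z * γ) = γ * (z * z) := by
        rw [← hz γ, ← mul_assoc, ← hz γ, mul_assoc]
      have h1 : (z * (z * γ))⁻¹ * γ = (z * z)⁻¹ := by
        rw [h0]
        group
      rw [h1]
      exact H.inv_mem hzz
  obtain ⟨X, hX⟩ := exists_transversal (fun q : G ⧸ H => z • q) hzzq
    (by
      intro q
      induction q using QuotientGroup.induction_on with
      | H γ =>
        rw [hsm, Ne, QuotientGroup.eq, ← hz]
        have h1 : (γ * z)⁻¹ * γ = z⁻¹ := by group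
        rw [h1]
        intro h2
        exact hzH (by simpa using H.inv_mem h2))
  have hXcard := two_mul_card_transversal (fun q : G ⧸ H => z • q) hzzq X hX
  let Φ : (U × U') →ₗ[ℚ] (G ⧸ H → ℚ) :=
    { toFun := fun p q => ∑ s, p.1.1 (q.out • s) * f s - ∑ s, p.2.1 (q.out • s) * f' s
      map_add' := by
        intro p p'
        funext q
        simp only [Prod.fst_add, Prod.snd_add, Submodule.coe_add, Pi.add_apply, add_mul,
          Finset.sum_add_distrib]
        ring
      map_smul' := by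
        intro c p
        funext q
        simp only [Prod.smul_fst, Prod.smul_snd, Submodule.coe_smul, Pi.smul_apply, smul_eq_mul,
          mul_assoc, ← Finset.mul_sum, RingHom.id_apply]
        ring }
  have hwd : ∀ (u f : S → ℚ) (_ : ∀ η ∈ H, ∀ s, f (η • s) = f s) (γ : G),
      ∑ s, u ((QuotientGroup.mk γ : G ⧸ H).out • s) * f s = ∑ s, u (γ • s) * f s := by
    intro u f hfH γ
    obtain ⟨⟨η, hη⟩, h1⟩ := QuotientGroup.mk_out_eq_mul H γ
    rw [h1, ← Equiv.sum_comp (MulAction.toPerm η) (fun s => u (γ • s) * f s)]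
    refine Finset.sum_congr rfl fun s _ => ?_
    simp only [MulAction.toPerm_apply, mul_smul, hfH η hη]
  have hΦ : ∀ (p : U × U') (γ : G), Φ p (QuotientGroup.mk γ)
      = ∑ s, p.1.1 (γ • s) * f s - ∑ s, p.2.1 (γ • s) * f' s := by
    intro p γ
    show ∑ s, p.1.1 ((QuotientGroup.mk γ : G ⧸ H).out • s) * f s
      - ∑ s, p.2.1 ((QuotientGroup.mk γ : G ⧸ H).out • s) * f' s = _
    rw [hwd _ f hfH, hwd _ f' hfH']
  have hodd : IsOddSp z Φ.range := by
    rintro _ ⟨p, rfl⟩ q
    induction q using QuotientGroup.induction_on with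
    | H γ =>
      rw [hsm, hΦ, hΦ]
      have e1 : ∀ s, p.1.1 ((z * γ) • s) = - p.1.1 (γ • s) := fun s => by
        rw [mul_smul]
        exact ho _ p.1.2 _
      have e2 : ∀ s, p.2.1 ((z * γ) • s) = - p.2.1 (γ • s) := fun s => by
        rw [mul_smul]
        exact ho' _ p.2.2 _
      simp only [e1, e2, neg_mul, Finset.sum_neg_distrib]
      ring
  have hle := Far.finrank_odd_le z X hX Φ.range hodd
  have hrk := LinearMap.finrank_range_add_finrank_ker Φ
  rw [Module.finrank_prod] at hrk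
  have hker : LinearMap.ker Φ ≠ ⊥ := by
    intro h
    rw [h, finrank_bot] at hrk
    omega
  obtain ⟨p₀, hp₀, hp₀0⟩ := Submodule.exists_mem_ne_zero_of_ne_bot hker
  let P : Submodule ℚ ((S → ℚ) × (S → ℚ)) :=
    { carrier := {p | p.1 ∈ U ∧ p.2 ∈ U' ∧ ∀ γ : G,
        ∑ s, p.1 (γ • s) * f s = ∑ s, p.2 (γ • s) * f' s}
      add_mem' := by
        rintro a b ⟨ha, ha', ha''⟩ ⟨hb, hb', hb''⟩
        refine ⟨U.add_mem ha hb, U'.add_mem ha' hb', fun γ => ?_⟩
        simp only [Prod.fst_add, Prod.snd_add, Pi.add_apply, add_mul, Finset.sum_add_distrib,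
          ha'', hb'']
      zero_mem' := ⟨U.zero_mem, U'.zero_mem, fun γ => by simp⟩
      smul_mem' := by
        rintro c a ⟨ha, ha', ha''⟩
        refine ⟨U.smul_mem c ha, U'.smul_mem c ha', fun γ => ?_⟩
        simp only [Prod.smul_fst, Prod.smul_snd, Pi.smul_apply, smul_eq_mul, mul_assoc,
          ← Finset.mul_sum, ha''] }
  have hp₀P : ((p₀.1.1, p₀.2.1) : (S → ℚ) × (S → ℚ)) ∈ P := by
    refine ⟨p₀.1.2, p₀.2.2, fun γ => ?_⟩
    have h1 := congrFun (LinearMap.mem_ker.1 hp₀) (QuotientGroup.mk γ)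
    rw [hΦ] at h1
    exact sub_eq_zero.1 h1
  refine SubB_goursat hU hU' P ?_ (fun p hp => hp.1) (fun p hp => hp.2.1) ?_ ?_ ?_
  · intro hbot
    rw [hbot] at hp₀P
    have h1 := (Submodule.mem_bot ℚ).1 hp₀P
    apply hp₀0
    exact Prod.ext (Subtype.ext (congrArg Prod.fst h1)) (Subtype.ext (congrArg Prod.snd h1))
  · rintro p ⟨hp, hp', hp''⟩ γ
    refine ⟨hU.2.1 _ hp γ, hU'.2.1 _ hp' γ, fun δ => ?_⟩
    have h1 := hp'' (γ * δ)
    simp only [mul_smul] at h1
    exact h1
  · rintro p ⟨hp, hp', hp''⟩ h0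
    refine SubB_zero hU hf hf0 p.1 hp (fun γ => ?_)
    rw [hp'' γ, h0]
    simp
  · rintro p ⟨hp, hp', hp''⟩ h0
    refine SubB_zero hU' hf' hf0' p.2 hp' (fun γ => ?_)
    rw [← hp'' γ, h0]
    simp

/-- The case of a two-dimensional endomorphism ring. -/
private lemma SubB_two {U : Submodule ℚ (S → ℚ)} (hU : IsIrr G U) (h2 : finrank ℚ U = 2)
    (he : finrank ℚ (endF G U) = 2) {f : S → ℚ} (hf : f ∈ U) (hf0 : f ≠ 0) :
    SubBfix G f = kerSub G U := by
  let ev : endF G U →ₗ[ℚ] U := (LinearMap.applyₗ (⟨f, hf⟩ : U)).comp (endF G U).subtype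
  have hev : ∀ θ, ev θ = θ.1 ⟨f, hf⟩ := fun θ => rfl
  have hinj : Function.Injective ev := by
    intro θ θ' hθ
    rw [hev, hev] at hθ
    let M : Submodule ℚ (S → ℚ) :=
      { carrier := {u | ∃ h : u ∈ U, θ.1 ⟨u, h⟩ = θ'.1 ⟨u, h⟩}
        add_mem' := by
          rintro a b ⟨ha, ha'⟩ ⟨hb, hb'⟩
          refine ⟨U.add_mem ha hb, ?_⟩
          have h1 : (⟨a + b, U.add_mem ha hb⟩ : U) = ⟨a, ha⟩ + ⟨b, hb⟩ := rfl
          rw [h1, map_add, map_add, ha', hb']
        zero_mem' := by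
          refine ⟨U.zero_mem, ?_⟩
          have h1 : (⟨0, U.zero_mem⟩ : U) = 0 := rfl
          rw [h1, map_zero, map_zero]
        smul_mem' := by
          rintro c a ⟨ha, ha'⟩
          refine ⟨U.smul_mem c ha, ?_⟩
          have h1 : (⟨c • a, U.smul_mem c ha⟩ : U) = c • ⟨a, ha⟩ := rfl
          rw [h1, map_smul, map_smul, ha'] }
    have hM : M = ⊥ ∨ M = U := by
      apply hU.2.2
      · exact fun x hx => hx.1
      · rintro u ⟨hu, hu'⟩ γ
        refine ⟨hU.2.1 _ hu γ, ?_⟩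
        apply Subtype.ext
        funext s
        rw [θ.2 ⟨u, hu⟩ ⟨fun s => u (γ • s), hU.2.1 _ hu γ⟩ γ (fun s => rfl) s,
          θ'.2 ⟨u, hu⟩ ⟨fun s => u (γ • s), hU.2.1 _ hu γ⟩ γ (fun s => rfl) s, hu']
    rcases hM with hM | hM
    · exfalso
      apply hf0
      have h3 : f ∈ M := ⟨hf, hθ⟩
      rw [hM] at h3
      exact (Submodule.mem_bot ℚ).1 h3
    · apply Subtype.ext
      apply LinearMap.ext
      intro y
      have h3 : (y : S → ℚ) ∈ M := by
        rw [hM]
        exact y.2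
      exact h3.2
  have hsurj : Function.Surjective ev := by
    rw [← LinearMap.range_eq_top]
    apply Submodule.eq_top_of_finrank_eq
    rw [h2, ← he]
    exact (LinearEquiv.ofInjective ev hinj).finrank_eq.symm
  ext γ
  rw [SubB_mem_fix, mem_kerSub]
  constructor
  · intro h u hu s
    obtain ⟨θ, hθ⟩ := hsurj ⟨u, hu⟩
    rw [hev] at hθ
    have h3 := θ.2 ⟨f, hf⟩ ⟨f, hf⟩ γ (fun s => (h s).symm) s
    rw [hθ] at h3
    exact h3.symm
  · intro h
    exact h f hf

/-- The case of a one-dimensional endomorphism ring. -/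
private lemma SubB_one {U : Submodule ℚ (S → ℚ)} (hU : IsIrr G U) (h2 : finrank ℚ U = 2)
    (s₀ : S) (hh : finrank ℚ ↥(U ⊓ invF ℚ (stabilizer G s₀)) = 1) {f : S → ℚ}
    (hf : f ∈ U) (hf0 : f ≠ 0) (hfi : f ∈ invF ℚ (stabilizer G s₀)) :
    (kerSub G U).relIndex (SubBfix G f) = 2 := by
  classical
  have hff : ∑ s, f s * f s ≠ 0 := fun h => hf0 (SubB_sq h)
  let L : U →ₗ[ℚ] ℚ :=
    { toFun := fun u => ∑ s, f s * u.1 s
      map_add' := by
        intro a b
        simp only [Submodule.coe_add, Pi.add_apply, mul_add, Finset.sum_add_distrib]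
      map_smul' := by
        intro c a
        simp only [Submodule.coe_smul, Pi.smul_apply, smul_eq_mul, mul_left_comm, Finset.mul_sum,
          RingHom.id_apply] }
  have hL : ∀ u : U, L u = ∑ s, f s * u.1 s := fun u => rfl
  have hker1 : LinearMap.ker L ≠ ⊥ := by
    intro h
    have h3 := LinearMap.finrank_range_add_finrank_ker L
    have h4 : finrank ℚ (LinearMap.range L) ≤ 1 := by
      have h5 := Submodule.finrank_le (LinearMap.range L)
      rwa [Module.finrank_self] at h5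
    rw [h, finrank_bot] at h3
    omega
  obtain ⟨g', hg', hg0'⟩ := Submodule.exists_mem_ne_zero_of_ne_bot hker1
  obtain ⟨g, hgU⟩ := g'
  have hfg : ∑ s, f s * g s = 0 := hg'
  have hg0 : g ≠ 0 := by
    rintro rfl
    exact hg0' rfl
  have hgg : ∑ s, g s * g s ≠ 0 := fun h => hg0 (SubB_sq h)
  -- linear combinations
  have hpair : ∀ a b : ℚ, ∑ s, f s * (a * f s + b * g s) = a * ∑ s, f s * f s := by
    intro a b
    have h3 : ∀ s, f s * (a * f s + b * g s) = a * (f s * f s) + b * (f s * g s) :=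
      fun s => by ring
    rw [Finset.sum_congr rfl fun s _ => h3 s, Finset.sum_add_distrib, ← Finset.mul_sum,
      ← Finset.mul_sum, hfg, mul_zero, add_zero]
  have hli : LinearIndependent ℚ ![f, g] := by
    rw [LinearIndependent.pair_iff]
    intro a b hab
    have h3 : ∀ s, a * f s + b * g s = 0 := fun s => congrFun hab s
    have h4 := hpair a b
    simp only [h3, mul_zero, Finset.sum_const_zero] at h4
    have h5 : a = 0 := by
      rcases mul_eq_zero.1 h4.symm with h | h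
      · exact h
      · exact absurd h hff
    refine ⟨h5, ?_⟩
    by_contra hb
    apply hg0
    funext s
    have h6 := h3 s
    rw [h5, zero_mul, zero_add] at h6
    rcases mul_eq_zero.1 h6 with h | h
    · exact absurd h hb
    · exact h
  have hspan : ∀ u ∈ U, ∃ a b : ℚ, ∀ s, u s = a * f s + b * g s := by
    have h3 : Submodule.span ℚ (Set.range ![f, g]) = U := by
      apply Submodule.eq_of_le_of_finrank_eq
      · rw [Submodule.span_le]
        rintro _ ⟨i, rfl⟩
        fin_cases i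
        · exact hf
        · exact hgU
      · rw [finrank_span_eq_card hli, h2]
        rfl
    intro u hu
    rw [← h3] at hu
    have h4 : Set.range ![f, g] = {f, g} := by
      simp [Matrix.range_cons, Matrix.range_empty, Set.pair_comm]
    rw [h4, Submodule.mem_span_pair] at hu
    obtain ⟨a, b, hab⟩ := hu
    exact ⟨a, b, fun s => by rw [← hab]; rfl⟩
  have hshift : ∀ (γ : G) (F : S → ℚ), ∑ s, F (γ • s) = ∑ s, F s := fun γ F =>
    Equiv.sum_comp (MulAction.toPerm γ) F
  -- the elements fixing `f` act by a sign on `g`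
  have hsign : ∀ γ ∈ SubBfix G f, (∀ s, g (γ • s) = g s) ∨ (∀ s, g (γ • s) = - g s) := by
    intro γ hγ
    obtain ⟨a, c, hc⟩ := hspan _ (hU.2.1 _ hgU γ)
    have hc : ∀ s, g (γ • s) = a * f s + c * g s := hc
    have h3 : ∑ s, f s * g (γ • s) = 0 := by
      have h4 : ∀ s, f s * g (γ • s) = (fun t => f t * g t) (γ • s) := fun s => by
        show _ = f (γ • s) * g (γ • s)
        rw [hγ s]
      rw [Finset.sum_congr rfl (fun s _ => h4 s), hshift γ (fun t => f t * g t)]
      exact hfg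
    simp only [hc] at h3
    rw [hpair] at h3
    have ha : a = 0 := by
      rcases mul_eq_zero.1 h3 with h | h
      · exact h
      · exact absurd h hff
    have hc' : ∀ s, g (γ • s) = c * g s := fun s => by rw [hc s, ha, zero_mul, zero_add]
    have h5 : c * c = 1 := by
      have h6 := hshift γ (fun t => g t * g t)
      simp only [hc'] at h6
      have h7 : ∑ s, c * g s * (c * g s) = c * c * ∑ s, g s * g s := by
        rw [Finset.mul_sum]
        exact Finset.sum_congr rfl fun s _ => by ring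
      rw [h7] at h6
      exact mul_right_cancel₀ hgg (by rw [h6, one_mul])
    rcases mul_self_eq_one_iff.mp h5 with h6 | h6
    · left
      intro s
      rw [hc' s, h6, one_mul]
    · right
      intro s
      rw [hc' s, h6, neg_one_mul]
  have hkerfix : ∀ γ ∈ SubBfix G f, (∀ s, g (γ • s) = g s) → γ ∈ kerSub G U := by
    intro γ hγ hgγ u hu s
    obtain ⟨a, b, hab⟩ := hspan u hu
    rw [hab, hab, hγ s, hgγ s]
  rw [Subgroup.relIndex_eq_two_iff_exists_notMem_and]
  -- an element of the stabilizer acting nontrivially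
  have hex : ∃ b ∈ stabilizer G s₀, b ∉ kerSub G U := by
    by_contra hcon
    push Not at hcon
    have h3 : U ⊓ invF ℚ (stabilizer G s₀) = U := by
      apply inf_eq_left.2
      intro u hu b hb s
      exact hcon b hb u hu s
    rw [h3, h2] at hh
    omega
  obtain ⟨b₀, hb₀, hb₀'⟩ := hex
  have hb₀f : b₀ ∈ SubBfix G f := fun s => hfi b₀ hb₀ s
  have hb₀g : ∀ s, g (b₀ • s) = - g s := by
    rcases hsign b₀ hb₀f with h3 | h3
    · exact absurd (hkerfix b₀ hb₀f h3) hb₀'
    · exact h3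
  refine ⟨b₀, hb₀f, hb₀', fun b hb => ?_⟩
  rcases hsign b hb with h3 | h3
  · exact Or.inr (hkerfix b hb h3)
  · left
    apply hkerfix _ ((SubBfix G f).mul_mem hb hb₀f)
    intro s
    rw [mul_smul, h3, hb₀g, neg_neg]

end SubB

theorem pSubB (hOrd : StOrd) : StSubB := by
  classical
  intro S G _ _ _ _ _ s₀ z hz hzz n U hU hiso
  have hex : ∀ i, ∃ f : S → ℚ, f ∈ U i ∧ f ∈ invF ℚ (stabilizer G s₀) ∧ f ≠ 0 := by
    intro i
    have h1 := types_inf_ne_bot (G := G) s₀ (U i) (hU i).1.1 (hU i).1.2.1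
    obtain ⟨f, hf, hf0⟩ := Submodule.exists_mem_ne_zero_of_ne_bot h1
    exact ⟨f, hf.1, hf.2, hf0⟩
  choose f hfU hfi hf0 using hex
  have hzfix : ∀ i, z ∉ SubBfix G (f i) := by
    intro i h
    apply hf0 i
    funext s
    have h1 := h s
    rw [(hU i).2 _ (hfU i) s] at h1
    show f i s = 0
    linarith
  have hzzfix : ∀ i, z * z ∈ SubBfix G (f i) := by
    intro i s
    rw [mul_smul, hzz]
  have hindex : ∀ i, finrank ℚ (U i) = 2 →
      finrank ℚ (endF G (U i)) = finrank ℚ ↥(U i ⊓ invF ℚ (stabilizer G s₀)) →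
      (SubBfix G (f i)).index = 4 ∨ (SubBfix G (f i)).index = 6 := by
    intro i h2 he
    have h3 : finrank ℚ ↥(U i ⊓ invF ℚ (stabilizer G s₀)) ≤ 2 := by
      rw [← h2]
      exact Submodule.finrank_mono inf_le_left
    have h4 : 1 ≤ finrank ℚ ↥(U i ⊓ invF ℚ (stabilizer G s₀)) := by
      rw [Nat.one_le_iff_ne_zero, Ne, Submodule.finrank_eq_zero]
      exact types_inf_ne_bot (G := G) s₀ (U i) (hU i).1.1 (hU i).1.2.1
    obtain ⟨ho1, ho2⟩ := hOrd S G z (U i) (hU i).1 (hU i).2 h2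
    rcases (by omega : finrank ℚ ↥(U i ⊓ invF ℚ (stabilizer G s₀)) = 1 ∨
      finrank ℚ ↥(U i ⊓ invF ℚ (stabilizer G s₀)) = 2) with h5 | h5
    · have h6 := SubB_one (hU i).1 h2 s₀ h5 (hfU i) (hf0 i) (hfi i)
      have h7 : kerSub G (U i) ≤ SubBfix G (f i) := fun γ hγ => hγ _ (hfU i)
      have h8 := Subgroup.relIndex_mul_index h7
      rw [h6] at h8
      rcases ho1 (by rw [he, h5]) with h9 | h9 <;> omega
    · rw [SubB_two (hU i).1 h2 (by rw [he, h5]) (hfU i) (hf0 i)]
      exact ho2 (by rw [he, h5])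
  apply Set.ncard_le_ncard_of_injOn (fun i => SubBfix G (f i))
  · rintro i ⟨h2, he⟩
    exact ⟨fun b hb s => hfi i b hb s, hindex i h2 he, hzfix i⟩
  · rintro i ⟨h2, he⟩ j ⟨h2', he'⟩ hij
    by_contra hne
    have hij' : SubBfix G (f i) = SubBfix G (f j) := hij
    apply hiso i j hne
    refine SubB_iso z hz (hU i).1 (hU j).1 (hU i).2 (hU j).2 (SubBfix G (f i)) (hzfix i) (hzzfix i)
      (hfU i) (hfU j) (hf0 i) (hf0 j) (fun η hη s => hη s) ?_ ?_
    · intro η hη s
      rw [hij'] at hη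
      exact hη s
    · rw [h2, h2']
      rcases hindex i h2 he with h3 | h3 <;> omega

end Pool.Agent.Lib.MP_640417_ag.Full
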