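import Pool.Agent.Lib.MP_640417_ag.Full.SpecC

/-!
# Spaces of dimension two and normal subgroups of index eight or twelve
-/

namespace Pool.Agent.Lib.MP_640417_ag.Full

open Module Finset MulAction NumberField Pool.Agent.Lib.MP_640417_ag.Far

section

variable {S G : Type} [Fintype S] [Group G] [Finite G] [MulAction G S]

omit [Fintype S] [Finite G] in
/-- Schur's lemma. -/
theorem subc_schur (U V : Submodule ℚ (S → ℚ)) (hU : IsIrr G U) (hV : IsIrr G V)
    (θ : U →ₗ[ℚ] V) (hθ : ∀ (f f' : U) (γ : G), (∀ s, f'.1 s = f.1 (γ • s)) →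
      ∀ s, (θ f').1 s = (θ f).1 (γ • s)) (hne : θ ≠ 0) : IsoF G U V := by
  have hinj : Function.Injective θ := by
    rw [← LinearMap.ker_eq_bot]
    have h1 : ((LinearMap.ker θ).map U.subtype) = ⊥ ∨ ((LinearMap.ker θ).map U.subtype) = U := by
      apply hU.2.2
      · exact Submodule.map_subtype_le _ _
      · rintro f hf γ
        rw [Submodule.mem_map] at hf ⊢
        obtain ⟨y, hy, rfl⟩ := hf
        refine ⟨⟨_, hU.2.1 _ y.2 γ⟩, ?_, rfl⟩
        rw [LinearMap.mem_ker] at hy ⊢
        apply Subtype.ext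
        funext s
        rw [hθ y ⟨_, hU.2.1 _ y.2 γ⟩ γ (fun s => rfl) s, hy]
        rfl
    rcases h1 with h1 | h1
    · rw [eq_bot_iff]
      intro x hx
      have h2 : (x : S → ℚ) ∈ (LinearMap.ker θ).map U.subtype := ⟨x, hx, rfl⟩
      rw [h1, Submodule.mem_bot] at h2
      rw [Submodule.mem_bot]
      exact Subtype.ext h2
    · exfalso
      apply hne
      ext x : 1
      have h2 : (x : S → ℚ) ∈ (LinearMap.ker θ).map U.subtype := by
        rw [h1]
        exact x.2
      rw [Submodule.mem_map] at h2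
      obtain ⟨y, hy, hyx⟩ := h2
      have h3 : y = x := Subtype.ext hyx
      rw [← h3]
      exact hy
  have hsurj : Function.Surjective θ := by
    have h1 : ((LinearMap.range θ).map V.subtype) = ⊥ ∨
        ((LinearMap.range θ).map V.subtype) = V := by
      apply hV.2.2
      · exact Submodule.map_subtype_le _ _
      · rintro f hf γ
        rw [Submodule.mem_map] at hf ⊢
        obtain ⟨y, ⟨x, rfl⟩, rfl⟩ := hf
        refine ⟨θ ⟨_, hU.2.1 _ x.2 γ⟩, ⟨_, rfl⟩, ?_⟩
        funext s
        exact hθ x ⟨_, hU.2.1 _ x.2 γ⟩ γ (fun s => rfl) s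
    rcases h1 with h1 | h1
    · exfalso
      apply hne
      ext x : 1
      have h2 : ((θ x : V) : S → ℚ) ∈ (LinearMap.range θ).map V.subtype :=
        ⟨θ x, ⟨x, rfl⟩, rfl⟩
      rw [h1, Submodule.mem_bot] at h2
      exact Subtype.ext h2
    · intro y
      have h2 : (y : S → ℚ) ∈ (LinearMap.range θ).map V.subtype := by
        rw [h1]
        exact y.2
      rw [Submodule.mem_map] at h2
      obtain ⟨y', ⟨x, rfl⟩, hy⟩ := h2
      exact ⟨x, Subtype.ext hy⟩
  exact ⟨LinearEquiv.ofBijective θ ⟨hinj, hsurj⟩, hθ⟩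

/-- The inner product. -/
def subcI (a b : S → ℚ) : ℚ := ∑ s, a s * b s

omit [Finite G] in
theorem subcI_shift (a b : S → ℚ) (γ : G) :
    subcI (fun s => a (γ • s)) (fun s => b (γ • s)) = subcI a b :=
  Fintype.sum_equiv (MulAction.toPerm γ) _ _ fun _ => rfl

theorem subcI_symm (a b : S → ℚ) : subcI a b = subcI b a :=
  Finset.sum_congr rfl fun _ _ => mul_comm _ _

theorem subcI_self {a : S → ℚ} (h : subcI a a = 0) : a = 0 := by
  have h1 : ∀ s ∈ (Finset.univ : Finset S), a s * a s = 0 :=
    (Finset.sum_eq_zero_iff_of_nonneg fun s _ => mul_self_nonneg (a s)).1 h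
  funext s
  exact mul_self_eq_zero.1 (h1 s (Finset.mem_univ _))

theorem subcI_pos {a : S → ℚ} (h : a ≠ 0) : 0 < subcI a a := by
  have h1 : 0 ≤ subcI a a := Finset.sum_nonneg fun s _ => mul_self_nonneg (a s)
  rcases h1.lt_or_eq with h2 | h2
  · exact h2
  · exact absurd (subcI_self h2.symm) h

theorem subcI_add (a b c : S → ℚ) : subcI a (b + c) = subcI a b + subcI a c := by
  simp only [subcI, Pi.add_apply, mul_add, Finset.sum_add_distrib]

theorem subcI_smul (a b : S → ℚ) (r : ℚ) : subcI a (r • b) = r * subcI a b := by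
  simp only [subcI, Pi.smul_apply, smul_eq_mul, Finset.mul_sum]
  refine Finset.sum_congr rfl fun _ _ => ?_
  ring

theorem subcI_sum {ι : Type} (J : Finset ι) (a : S → ℚ) (b : ι → S → ℚ) :
    subcI a (∑ j ∈ J, b j) = ∑ j ∈ J, subcI a (b j) := by
  simp only [subcI, Finset.sum_apply, Finset.mul_sum]
  rw [Finset.sum_comm]

variable [Fintype G]

/-- The equivariant map attached to two functions. -/
def subcB (U V : Submodule ℚ (S → ℚ)) (hV : IsStab G V) (u v : S → ℚ) (hv : v ∈ V) :
    U →ₗ[ℚ] V where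
  toFun f := ⟨∑ γ : G, subcI (fun s => u (γ • s)) f.1 • (fun s => v (γ • s)),
    Submodule.sum_mem _ fun γ _ => V.smul_mem _ (hV v hv γ)⟩
  map_add' f f' := by
    apply Subtype.ext
    change _ = (∑ γ : G, _) + (∑ γ : G, _)
    rw [← Finset.sum_add_distrib]
    refine Finset.sum_congr rfl fun γ _ => ?_
    rw [Submodule.coe_add, subcI_add, add_smul]
  map_smul' c f := by
    apply Subtype.ext
    change _ = c • (∑ γ : G, _)
    rw [Finset.smul_sum]
    refine Finset.sum_congr rfl fun γ _ => ?_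
    rw [Submodule.coe_smul, subcI_smul, mul_smul]

omit [Finite G] in
theorem subcB_equiv (U V : Submodule ℚ (S → ℚ)) (hV : IsStab G V) (u v : S → ℚ) (hv : v ∈ V)
    (f f' : U) (δ : G) (hff : ∀ s, f'.1 s = f.1 (δ • s)) (t : S) :
    (subcB U V hV u v hv f').1 t = (subcB U V hV u v hv f).1 (δ • t) := by
  change (∑ γ : G, subcI (fun s => u (γ • s)) f'.1 • (fun s => v (γ • s))) t
    = (∑ γ : G, subcI (fun s => u (γ • s)) f.1 • (fun s => v (γ • s))) (δ • t)
  simp only [Finset.sum_apply, Pi.smul_apply, smul_eq_mul]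
  refine Fintype.sum_equiv (Equiv.mulRight δ⁻¹) _ _ fun γ => ?_
  simp only [Equiv.coe_mulRight]
  have h1 : subcI (fun s => u (γ • s)) f'.1 = subcI (fun s => u ((γ * δ⁻¹) • s)) f.1 := by
    rw [← subcI_shift (fun s => u ((γ * δ⁻¹) • s)) f.1 δ]
    unfold subcI
    refine Finset.sum_congr rfl fun s _ => ?_
    beta_reduce
    rw [hff s, smul_smul, inv_mul_cancel_right]
  rw [h1, smul_smul, inv_mul_cancel_right]

omit [Finite G] in
theorem subcB_inner (U V : Submodule ℚ (S → ℚ)) (hV : IsStab G V) (u v : S → ℚ) (hv : v ∈ V)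
    (f : U) (f' : S → ℚ) : subcI f' (subcB U V hV u v hv f).1
      = ∑ γ : G, subcI (fun s => u (γ • s)) f.1 * subcI (fun s => v (γ • s)) f' := by
  change subcI f' (∑ γ : G, subcI (fun s => u (γ • s)) f.1 • (fun s => v (γ • s))) = _
  rw [subcI_sum]
  refine Finset.sum_congr rfl fun γ _ => ?_
  rw [subcI_smul, subcI_symm f']

omit [Finite G] in
/-- Orthogonality for non isomorphic spaces. -/
theorem subc_orth2 (U V : Submodule ℚ (S → ℚ)) (hU : IsIrr G U) (hV : IsIrr G V)
    (hUV : ¬ IsoF G U V) (u f v f' : S → ℚ) (hf : f ∈ U) (hv : v ∈ V) :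
    ∑ γ : G, subcI (fun s => u (γ • s)) f * subcI (fun s => v (γ • s)) f' = 0 := by
  have h1 : subcB U V hV.2.1 u v hv = 0 := by
    by_contra h
    exact hUV (subc_schur U V hU hV _ (subcB_equiv U V hV.2.1 u v hv) h)
  have h2 := subcB_inner U V hV.2.1 u v hv ⟨f, hf⟩ f'
  rw [h1] at h2
  rw [← h2]
  simp [subcI]

omit [Finite G] in
theorem subc_swap (u f v f' : S → ℚ) :
    ∑ γ : G, subcI (fun s => u (γ • s)) f * subcI (fun s => v (γ • s)) f'
      = ∑ γ : G, subcI (fun s => f (γ • s)) u * subcI (fun s => f' (γ • s)) v := by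
  refine Fintype.sum_equiv (Equiv.inv G) _ _ fun γ => ?_
  have h1 : ∀ a b : S → ℚ, subcI (fun s => a (γ • s)) b = subcI (fun s => b (γ⁻¹ • s)) a := by
    intro a b
    rw [← subcI_shift (fun s => b (γ⁻¹ • s)) a γ, subcI_symm]
    unfold subcI
    refine Finset.sum_congr rfl fun s _ => ?_
    beta_reduce
    rw [inv_smul_smul]
  rw [Equiv.inv_apply, h1 u f, h1 v f']

theorem subc_one {V : Type} [h0 : AddCommMonoid V] [Module ℚ V] (h : finrank ℚ V = 1)
    (v : V) (hv : v ≠ 0) (w : V) : ∃ c : ℚ, c • v = w := by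
  obtain ⟨i, rfl⟩ : ∃ i : AddCommGroup V, i.toAddCommMonoid = h0 :=
    ⟨Module.addCommMonoidToAddCommGroup ℚ, rfl⟩
  exact (finrank_eq_one_iff_of_nonzero' v hv).1 h w

omit [Finite G] in
/-- Orthogonality for an absolutely irreducible space. -/
theorem subc_orth1 (U : Submodule ℚ (S → ℚ)) (hU : IsIrr G U) (he : finrank ℚ (endF G U) = 1) :
    ∃ κ : ℚ, 0 < κ ∧ ∀ u ∈ U, ∀ f ∈ U, ∀ v ∈ U, ∀ f' ∈ U,
      ∑ γ : G, subcI (fun s => u (γ • s)) f * subcI (fun s => v (γ • s)) f'
        = κ * (subcI u v * subcI f f') := by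
  obtain ⟨w, hwU, hw0⟩ := Submodule.exists_mem_ne_zero_of_ne_bot hU.1
  have hscal : ∀ u v : S → ℚ, v ∈ U → ∃ c : ℚ, ∀ f ∈ U, ∀ f' : S → ℚ,
      ∑ γ : G, subcI (fun s => u (γ • s)) f * subcI (fun s => v (γ • s)) f'
        = c * subcI f f' := by
    intro u v hv
    have h1 : subcB U U hU.2.1 u v hv ∈ endF G U := subcB_equiv U U hU.2.1 u v hv
    let v0 : endF G U := ⟨LinearMap.id, one_mem_endF G U⟩
    have h0 : v0 ≠ 0 := by
      intro h
      have h2 : (LinearMap.id : U →ₗ[ℚ] U) = 0 := congrArg Subtype.val h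
      have h3 := congrArg (fun θ : U →ₗ[ℚ] U => (θ ⟨w, hwU⟩).1) h2
      exact hw0 h3
    let v1 : endF G U := ⟨_, h1⟩
    obtain ⟨c, hc⟩ := subc_one he v0 h0 v1
    refine ⟨c, fun f hf f' => ?_⟩
    rw [← subcB_inner U U hU.2.1 u v hv ⟨f, hf⟩ f']
    have h4 : subcB U U hU.2.1 u v hv = c • LinearMap.id := (congrArg Subtype.val hc).symm
    rw [h4]
    change subcI f' (c • f) = _
    rw [subcI_smul, subcI_symm]
  have hww := subcI_pos hw0
  obtain ⟨c₀, hc₀⟩ := hscal w w hwU
  have hc₀pos : 0 < c₀ := by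
    have h1 := hc₀ w hwU w
    have h2 : 0 < ∑ γ : G, subcI (fun s => w (γ • s)) w * subcI (fun s => w (γ • s)) w := by
      refine Finset.sum_pos' (fun γ _ => mul_self_nonneg _) ⟨1, Finset.mem_univ _, ?_⟩
      simp only [one_smul]
      exact mul_pos hww hww
    rw [h1] at h2
    exact (pos_iff_pos_of_mul_pos h2).2 hww
  refine ⟨c₀ / subcI w w, div_pos hc₀pos hww, fun u hu f hf v hv f' hf' => ?_⟩
  obtain ⟨c, hc⟩ := hscal u v hv
  have h1 := hc w hwU w
  rw [subc_swap] at h1
  rw [hc f hf f']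
  have h2 := hc₀ u hu v
  rw [h2] at h1
  field_simp
  linear_combination (-(subcI f f')) * h1

end

section

variable {S G : Type} [Fintype S] [Group G] [Fintype G] [MulAction G S]

/-- The matrix coefficients of two non isomorphic absolutely irreducible spaces are independent. -/
theorem subc_indep (U V : Submodule ℚ (S → ℚ)) (hU : IsIrr G U)
    (heU : finrank ℚ (endF G U) = 1) (hV : IsIrr G V)
    (hVU : ¬ IsoF G V U) {d d' : ℕ} (b : Basis (Fin d) ℚ U) (b' : Fin d' → V)
    (g : Fin d → U) (g' : Fin d' → V)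
    (h : ∀ γ : G, ∑ a, subcI (fun s => (b a).1 (γ • s)) (g a).1
      + ∑ a, subcI (fun s => (b' a).1 (γ • s)) (g' a).1 = 0) : g = 0 := by
  obtain ⟨κ, hκ, horth⟩ := subc_orth1 U hU heU
  -- for all v, f'
  have key : ∀ v ∈ U, ∀ f' ∈ U, ∑ a, subcI (b a).1 v * subcI (g a).1 f' = 0 := by
    intro v hv f' hf'
    have h1 : ∑ γ : G, (∑ a, subcI (fun s => (b a).1 (γ • s)) (g a).1
        + ∑ a, subcI (fun s => (b' a).1 (γ • s)) (g' a).1) * subcI (fun s => v (γ • s)) f' = 0 :=
      Finset.sum_eq_zero fun γ _ => by rw [h γ, zero_mul]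
    simp only [add_mul, Finset.sum_mul, Finset.sum_add_distrib] at h1
    rw [Finset.sum_comm, Finset.sum_comm (s := (Finset.univ : Finset G))
      (t := (Finset.univ : Finset (Fin d')))] at h1
    have h2 : ∑ a, ∑ γ : G, subcI (fun s => (b' a).1 (γ • s)) (g' a).1
        * subcI (fun s => v (γ • s)) f' = 0 :=
      Finset.sum_eq_zero fun a _ =>
        subc_orth2 V U hV hU hVU (b' a).1 (g' a).1 v f' (g' a).2 hv
    rw [h2, add_zero] at h1
    have h3 : ∀ a, ∑ γ : G, subcI (fun s => (b a).1 (γ • s)) (g a).1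
        * subcI (fun s => v (γ • s)) f' = κ * (subcI (b a).1 v * subcI (g a).1 f') :=
      fun a => horth _ (b a).2 _ (g a).2 _ hv _ hf'
    simp_rw [h3] at h1
    rw [← Finset.mul_sum] at h1
    exact (mul_eq_zero.1 h1).resolve_left hκ.ne'
  have key2 : ∀ f' ∈ U, ∀ a, subcI (g a).1 f' = 0 := by
    intro f' hf'
    set w : U := ∑ a, subcI (g a).1 f' • b a with hw
    have h1 : subcI w.1 w.1 = 0 := by
      have h2 := key w.1 w.2 f' hf'
      have h3 : w.1 = ∑ a, subcI (g a).1 f' • (b a).1 := by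
        rw [hw]
        simp
      nth_rewrite 2 [h3]
      rw [subcI_sum]
      rw [← h2]
      refine Finset.sum_congr rfl fun a _ => ?_
      rw [subcI_smul, subcI_symm w.1, mul_comm]
    have h2 : w = 0 := Subtype.ext (subcI_self h1)
    intro a
    have h3 := Fintype.linearIndependent_iff.1 b.linearIndependent
      (fun a => subcI (g a).1 f') (by rw [← hw, h2]) a
    exact h3
  funext a
  exact Subtype.ext (subcI_self (key2 (g a).1 (g a).2 a))

end

theorem pSubC (hOrd : StOrd) : StSubC := by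
  classical
  intro S G _ _ _ _ _ s₀ z hz hzz n U hU hne
  have : Fintype G := Fintype.ofFinite G
  apply Set.ncard_le_ncard_of_injOn (fun i => kerSub G (U i))
  · rintro i ⟨hD, he, hh⟩
    have hUi := hU i
    have hzK : z ∉ kerSub G (U i) := by
      intro h
      obtain ⟨f, hf, hf0⟩ := Submodule.exists_mem_ne_zero_of_ne_bot hUi.1.1
      apply hf0
      funext s
      have h1 := h f hf s
      have h2 := hUi.2 f hf s
      rw [h2] at h1
      have h3 : f s = 0 := by linarith
      exact h3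
    refine ⟨kerSub_normal _ hUi.1.2.1, ?_, (hOrd S G z (U i) hUi.1 hUi.2 hD).1 he, hzK⟩
    have h1 : U i ⊓ invF ℚ (stabilizer G s₀) = U i := by
      apply Submodule.eq_of_le_of_finrank_eq inf_le_left
      rw [hh, hD]
    intro γ hγ f hf s
    rw [← h1] at hf
    exact hf.2 γ hγ s
  · rintro i ⟨hD, he, hh⟩ j ⟨hD', he', hh'⟩ hK
    by_contra hij
    change kerSub G (U i) = kerSub G (U j) at hK
    have hUi := hU i
    have hUj := hU j
    set K := kerSub G (U i) with hKdef
    have hKn : K.Normal := kerSub_normal _ hUi.1.2.1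
    have hidx : K.index = 8 ∨ K.index = 12 := (hOrd S G z (U i) hUi.1 hUi.2 hD).1 he
    have hzK : z ∉ K := by
      intro h
      obtain ⟨f, hf, hf0⟩ := Submodule.exists_mem_ne_zero_of_ne_bot hUi.1.1
      apply hf0
      funext s
      have h1 := h f hf s
      have h2 := hUi.2 f hf s
      rw [h2] at h1
      have h3 : f s = 0 := by linarith
      exact h3
    have hz2 : z * z ∈ K := by
      intro f hf s
      rw [mul_smul, hzz]
    -- the involution of the quotient
    have hc : ∀ q : G ⧸ K, z • z • q = q := by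
      intro q
      induction q using QuotientGroup.induction_on with
      | H γ =>
        have h0 : z • z • (γ : G ⧸ K) = ((z * z * γ : G) : G ⧸ K) := by
          rw [smul_smul]
          rfl
        rw [h0, QuotientGroup.eq]
        have h1 : (z * z * γ)⁻¹ * γ = γ⁻¹ * (z * z)⁻¹ * (γ⁻¹)⁻¹ := by group
        rw [h1]
        exact hKn.conj_mem _ (K.inv_mem hz2) γ⁻¹
    have hfix : ∀ q : G ⧸ K, z • q ≠ q := by
      intro q
      induction q using QuotientGroup.induction_on with
      | H γ =>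
        intro h
        have h0 : z • (γ : G ⧸ K) = ((z * γ : G) : G ⧸ K) := rfl
        rw [h0, QuotientGroup.eq] at h
        apply hzK
        have h1 := hKn.conj_mem _ h γ
        have h2 : γ * ((z * γ)⁻¹ * γ) * γ⁻¹ = z⁻¹ := by group
        rw [h2] at h1
        have h3 := K.inv_mem h1
        rwa [inv_inv] at h3
    obtain ⟨X, hX⟩ := exists_transversal (fun q : G ⧸ K => z • q) hc hfix
    have hXcard := two_mul_card_transversal (fun q : G ⧸ K => z • q) hc X hX
    have hX6 : X.card ≤ 6 := by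
      have h1 : Fintype.card (G ⧸ K) = K.index := by
        rw [← Nat.card_eq_fintype_card]
        rfl
      rw [h1] at hXcard
      omega
    -- the linear map
    let bi : Basis (Fin 2) ℚ (U i) := Module.finBasisOfFinrankEq ℚ (U i) hD
    let bj : Basis (Fin 2) ℚ (U j) := Module.finBasisOfFinrankEq ℚ (U j) hD'
    let F : (Fin 2 → U i) × (Fin 2 → U j) → G → ℚ := fun g γ =>
      ∑ a, subcI (fun s => (bi a).1 (γ • s)) (g.1 a).1
        + ∑ a, subcI (fun s => (bj a).1 (γ • s)) (g.2 a).1
    let Ψ : ((Fin 2 → U i) × (Fin 2 → U j)) →ₗ[ℚ] (X → ℚ) :=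
      { toFun := fun g x => F g (Quotient.out x.1)
        map_add' := by
          intro g g'
          funext x
          simp only [F, Pi.add_apply, Prod.fst_add, Prod.snd_add, Submodule.coe_add, subcI_add,
            Finset.sum_add_distrib]
          ring
        map_smul' := by
          intro c g
          funext x
          simp only [F, Pi.smul_apply, Prod.smul_fst, Prod.smul_snd, Submodule.coe_smul,
            subcI_smul, RingHom.id_apply, smul_eq_mul, Finset.mul_sum, mul_add] }
    have hFK : ∀ g γ (κ : G), κ ∈ K → F g (γ * κ) = F g γ := by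
      intro g γ κ hκ
      have h1 : ∀ a, (fun s => (bi a).1 ((γ * κ) • s)) = fun s => (bi a).1 (γ • s) := by
        intro a
        funext s
        rw [mul_smul]
        exact hκ _ (hUi.1.2.1 _ (bi a).2 γ) s
      have hκ' : κ ∈ kerSub G (U j) := hK ▸ hκ
      have h2 : ∀ a, (fun s => (bj a).1 ((γ * κ) • s)) = fun s => (bj a).1 (γ • s) := by
        intro a
        funext s
        rw [mul_smul]
        exact hκ' _ (hUj.1.2.1 _ (bj a).2 γ) s
      simp only [F, h1, h2]
    have hFz : ∀ g γ, F g (z * γ) = - F g γ := by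
      intro g γ
      have h0 : ∀ (u f : S → ℚ), (∀ s, u (z • s) = - u s) →
          subcI (fun s => u ((z * γ) • s)) f = - subcI (fun s => u (γ • s)) f := by
        intro u f hu
        unfold subcI
        rw [← Finset.sum_neg_distrib]
        refine Finset.sum_congr rfl fun s _ => ?_
        beta_reduce
        rw [mul_smul, hu, neg_mul]
      simp only [F]
      rw [Finset.sum_congr rfl (fun a _ => h0 (bi a).1 (g.1 a).1 (hUi.2 _ (bi a).2)),
        Finset.sum_congr rfl (fun a _ => h0 (bj a).1 (g.2 a).1 (hUj.2 _ (bj a).2)),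
        Finset.sum_neg_distrib, Finset.sum_neg_distrib]
      ring
    have hout : ∀ g (γ : G), F g (Quotient.out (γ : G ⧸ K)) = F g γ := by
      intro g γ
      obtain ⟨κ, hκ⟩ := QuotientGroup.mk_out_eq_mul K γ
      have h1 : (Quotient.out (γ : G ⧸ K)) = γ * κ := hκ
      rw [h1]
      exact hFK g γ κ κ.2
    have hΨ : Function.Injective Ψ := by
      rw [← LinearMap.ker_eq_bot, LinearMap.ker_eq_bot']
      intro g hg
      have hX0 : ∀ q ∈ X, F g (Quotient.out q) = 0 := fun q hq => congrFun hg ⟨q, hq⟩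
      have hall : ∀ γ : G, F g γ = 0 := by
        intro γ
        by_cases hq : (γ : G ⧸ K) ∈ X
        · rw [← hout g γ]
          exact hX0 _ hq
        · have h1 : z • (γ : G ⧸ K) ∈ X := by
            by_contra h
            exact hq ((hX _).2 h)
          have h0 : z • (γ : G ⧸ K) = ((z * γ : G) : G ⧸ K) := rfl
          rw [h0] at h1
          have h2 := hX0 _ h1
          rw [hout, hFz] at h2
          linarith
      have h1 : g.1 = 0 := subc_indep (U i) (U j) hUi.1 he hUj.1
        (hne j i fun h => hij h.symm) bi bj g.1 g.2 hall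
      have h2 : g.2 = 0 := subc_indep (U j) (U i) hUj.1 he' hUi.1
        (hne i j hij) bj bi g.2 g.1 (fun γ => by rw [add_comm]; exact hall γ)
      exact Prod.ext h1 h2
    have hrank := LinearMap.finrank_le_finrank_of_injective hΨ
    rw [Module.finrank_fintype_fun_eq_card, Fintype.card_coe, Module.finrank_prod,
      Module.finrank_pi_fintype, Module.finrank_pi_fintype] at hrank
    simp only [hD, hD', Finset.sum_const, Finset.card_univ, Fintype.card_fin, smul_eq_mul]
      at hrank
    omega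

end Pool.Agent.Lib.MP_640417_ag.Full
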