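import Pool.Agent.Lib.MP_640417_ag.Full.SpecC

/-!
# All CM fields: the numerical summation over all types
-/

namespace Pool.Agent.Lib.MP_640417_ag.Full

open Module Finset MulAction NumberField Pool.Agent.Lib.MP_640417_ag.Far

private theorem Sum_rpow_le_exp (p a y : ℝ) (hp : 0 < p) (ha : 0 < a) (hy : 0 < y) :
    Real.exp (-(a * y)) ≤ (p / a) ^ p * y ^ (-p) := by
  have h1 : a * y / p ≤ Real.exp (a * y / p) := by
    linarith [Real.add_one_le_exp (a * y / p)]
  have h0 : 0 ≤ a * y / p := by positivity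
  have h2 : (a * y / p) ^ p ≤ Real.exp (a * y) := by
    calc (a * y / p) ^ p ≤ (Real.exp (a * y / p)) ^ p := Real.rpow_le_rpow h0 h1 hp.le
      _ = Real.exp (a * y) := by
        rw [← Real.exp_mul]
        congr 1
        field_simp
  have h3 : a * y / p = y / (p / a) := by
    field_simp
  rw [h3, Real.div_rpow hy.le (by positivity)] at h2
  have hpa : 0 < (p / a) ^ p := by positivity
  have hyp : 0 < y ^ p := by positivity
  rw [div_le_iff₀ hpa] at h2
  rw [Real.exp_neg, Real.rpow_neg hy.le, ← div_eq_mul_inv, le_div_iff₀ hyp,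
    inv_mul_le_iff₀ (Real.exp_pos _)]
  exact h2

/-- exponential against `y ^ (-1/4)` -/
private theorem Sum_expL (a : ℝ) (ha : 0 < a) : ∃ K : ℝ, 0 < K ∧ ∀ y : ℝ, 0 < y →
    Real.exp (-(a * y)) ≤ K * y ^ (-(1 / 4) : ℝ) :=
  ⟨(1 / 4 / a) ^ (1 / 4 : ℝ), by positivity, fun y hy => by
    have := Sum_rpow_le_exp (1 / 4) a y (by norm_num) ha hy
    exact this⟩

private theorem Sum_expL3 : ∃ K : ℝ, 0 < K ∧ ∀ y : ℝ, 0 < y →
    Real.exp (-(1 / 2 * y ^ (1 / 3 : ℝ))) ≤ K * y ^ (-(1 / 4) : ℝ) :=
  ⟨(3 / 4 / (1 / 2)) ^ (3 / 4 : ℝ), by positivity, fun y hy => by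
    have h1 : 0 < y ^ (1 / 3 : ℝ) := by positivity
    have h2 := Sum_rpow_le_exp (3 / 4) (1 / 2) (y ^ (1 / 3 : ℝ)) (by norm_num) (by norm_num) h1
    have h3 : (y ^ (1 / 3 : ℝ)) ^ (-(3 / 4) : ℝ) = y ^ (-(1 / 4) : ℝ) := by
      rw [← Real.rpow_mul hy.le]
      norm_num
    rw [h3] at h2
    exact h2⟩

private theorem Sum_log_le (D : ℝ) (hD : 1 ≤ D) : Real.log (D + 1) ≤ 8 * D ^ (1 / 4 : ℝ) := by
  have h1 := Real.log_le_rpow_div (x := D + 1) (by linarith) (show (0 : ℝ) < 1 / 4 by norm_num)
  have h2 : (D + 1) ^ (1 / 4 : ℝ) ≤ (16 * D) ^ (1 / 4 : ℝ) :=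
    Real.rpow_le_rpow (by linarith) (by linarith) (by norm_num)
  have h3 : (16 * D) ^ (1 / 4 : ℝ) = 2 * D ^ (1 / 4 : ℝ) := by
    rw [Real.mul_rpow (by norm_num) (by linarith)]
    congr 1
    rw [show (16 : ℝ) = 2 ^ (4 : ℝ) by norm_num, ← Real.rpow_mul (by norm_num)]
    norm_num
  rw [h3] at h2
  calc _ ≤ _ := h1
    _ ≤ 2 * D ^ (1 / 4 : ℝ) / (1 / 4) := by
      apply div_le_div_of_nonneg_right h2 (by norm_num)
    _ = _ := by ring

/-- the sum of the terms of the right side -/
private noncomputable def Sum_tot (g D e h m : ℕ) : ℝ :=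
  (if D = 1 then 1 / Real.sqrt g else 0) + (if D = 2 ∧ e = h then 1 / (g : ℝ) else 0)
    + (if D = 2 ∧ e = 1 ∧ h = 2 then Real.log (g + 1) ^ 2 / g else 0)
    + Real.log g ^ (-(1 / 4) : ℝ) * ((m * D : ℕ) / g)

private theorem Sum_tot_parts (g D e h m : ℕ) (hg : 2 ≤ g) :
    (D = 1 → 1 / Real.sqrt g ≤ Sum_tot g D e h m) ∧
    (D = 2 → e = h → 1 / (g : ℝ) ≤ Sum_tot g D e h m) ∧
    (D = 2 → e = 1 → h = 2 → Real.log (g + 1) ^ 2 / g ≤ Sum_tot g D e h m) ∧
    (Real.log g ^ (-(1 / 4) : ℝ) * ((m * D : ℕ) / g) ≤ Sum_tot g D e h m) := by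
  have hg' : (2 : ℝ) ≤ g := by exact_mod_cast hg
  have hlog : 0 < Real.log g := Real.log_pos (by linarith)
  have t1 : 0 ≤ (if D = 1 then 1 / Real.sqrt g else 0 : ℝ) := by split_ifs <;> positivity
  have t2 : 0 ≤ (if D = 2 ∧ e = h then 1 / (g : ℝ) else 0) := by split_ifs <;> positivity
  have t3 : 0 ≤ (if D = 2 ∧ e = 1 ∧ h = 2 then Real.log (g + 1) ^ 2 / g else 0 : ℝ) := by
    split_ifs <;> positivity
  have t4 : 0 ≤ Real.log g ^ (-(1 / 4) : ℝ) * ((m * D : ℕ) / g) := by positivity
  unfold Sum_tot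
  refine ⟨?_, ?_, ?_, ?_⟩
  · intro h1
    rw [if_pos h1]
    linarith
  · intro h1 h2
    rw [if_pos (⟨h1, h2⟩ : D = 2 ∧ e = h)]
    linarith
  · intro h1 h2 h3
    rw [if_pos (⟨h1, h2, h3⟩ : D = 2 ∧ e = 1 ∧ h = 2)]
    linarith
  · linarith

private theorem Sum_point (C₀ : ℝ) (hC₀ : 0 < C₀) : ∃ C : ℝ, 0 < C ∧ ∀ (g D h e m : ℕ) (x : ℝ),
    2 ≤ g → 1 ≤ e → 1 ≤ m → h = m * e → h ≤ D → D ≤ g →
  ((g : ℝ) ^ (1 - 1 / 400 : ℝ) ≤ D → x ≤ C₀ * (g : ℝ) ^ (-(1 / 200) : ℝ)) →
  ((D : ℝ) ≤ (g : ℝ) ^ (1 - 1 / 400 : ℝ) → ∀ k : ℕ, k ≤ 3 → k + h ≤ e + D →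
    x ≤ C₀ * Real.sqrt (D * Real.log (D + 1) / g) ^ k) →
  (3 ≤ D → e + D = h + 2 → x ≤ C₀ * ((g : ℝ) ^ (-1 - 1 / (2 * (D : ℝ) ^ 2))
    + (8 * (D : ℝ)) ^ (D ^ 2) * (g : ℝ) ^ (-(5 / 4) : ℝ))) →
  (D = 2 → e = 1 → h = 2 → x ≤ C₀ * (Real.log (g + 1) ^ 2 / g)) →
  (e = 1 → h = D → 3 ≤ D → (D : ℝ) ≤ (g : ℝ) ^ (1 / 100 : ℝ) →
    x ≤ C₀ * (g : ℝ) ^ (-(5 / 4) : ℝ)) →
  (e = 1 → h = D → (g : ℝ) ^ (1 / 100 : ℝ) < D →
    x ≤ C₀ * (g : ℝ) ^ (1 / 1000 - 1 : ℝ) * (D : ℝ) ^ (3 / 2 : ℝ)) →
  x ≤ C * Sum_tot g D e h m := by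
  obtain ⟨K1, hK1, hK1'⟩ := Sum_expL (1 / 400) (by norm_num)
  obtain ⟨K2, hK2, hK2'⟩ := Sum_expL (9 / 9600) (by norm_num)
  obtain ⟨K4, hK4, hK4'⟩ := Sum_expL3
  obtain ⟨K6, hK6, hK6'⟩ := Sum_expL (1 / 4) (by norm_num)
  obtain ⟨K7, hK7, hK7'⟩ := Sum_expL (1 / 250) (by norm_num)
  set A : ℝ := 9600 * Real.sqrt 9600 with hA
  have hA0 : 0 < A := by positivity
  have hC₀' : 0 ≤ C₀ := hC₀.le
  set C : ℝ := C₀ * (K1 + A * K2 + 16 + (2 * K4 + 2 * (Real.exp 700 * K4)) + K6 + K7
    + 2 * Real.log 3 + 1 + Real.sqrt (Real.log 2)) with hC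
  have hl3 : 0 < Real.log 3 := Real.log_pos (by norm_num)
  have hl2 : 0 < Real.log 2 := Real.log_pos (by norm_num)
  have hsl2 : 0 < Real.sqrt (Real.log 2) := by positivity
  have hE : 0 < Real.exp 700 * K4 := by positivity
  have hAK : 0 < A * K2 := by positivity
  refine ⟨C, by positivity, ?_⟩
  intro g D h e m x hg he hm hh hhD hDg H4 H5 H6 H7 H8 H9
  have hg' : (2 : ℝ) ≤ g := by exact_mod_cast hg
  have hg0 : (0 : ℝ) < g := by linarith
  have hy : 0 < Real.log g := Real.log_pos (by linarith)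
  set y : ℝ := Real.log g with hydef
  have hgexp : ∀ r : ℝ, (g : ℝ) ^ r = Real.exp (y * r) := fun r => Real.rpow_def_of_pos hg0 r
  have hgy : Real.exp y = g := Real.exp_log hg0
  have h1g : (1 : ℝ) / g = Real.exp (-y) := by rw [Real.exp_neg, hgy, one_div]
  set L : ℝ := y ^ (-(1 / 4) : ℝ) with hL
  have hL0 : 0 < L := by positivity
  obtain ⟨T1, T2, T3, T4⟩ := Sum_tot_parts g D e h m hg
  rw [← hydef, ← hL] at T4
  have hT0 : 0 ≤ Sum_tot g D e h m := le_trans (by positivity) T4
  have hDpos : 1 ≤ D := le_trans (by rw [hh]; exact Nat.mul_pos hm he) hhD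
  have hD1 : (1 : ℝ) ≤ D := by exact_mod_cast hDpos
  have hD0 : (0 : ℝ) < D := by linarith
  have hm1 : (1 : ℝ) ≤ m := by exact_mod_cast hm
  have hDg' : (D : ℝ) ≤ g := by exact_mod_cast hDg
  -- general closing step
  have fin : ∀ c T : ℝ, x ≤ c * T → c ≤ C → 0 ≤ T → T ≤ Sum_tot g D e h m →
      x ≤ C * Sum_tot g D e h m := by
    intro c T h1 h2 h3 h4
    have hC0 : 0 ≤ C := by positivity
    calc x ≤ c * T := h1
      _ ≤ C * T := mul_le_mul_of_nonneg_right h2 h3
      _ ≤ _ := mul_le_mul_of_nonneg_left h4 hC0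
  have hTD : L * ((D : ℝ) / g) ≤ Sum_tot g D e h m := by
    refine le_trans (mul_le_mul_of_nonneg_left ?_ hL0.le) T4
    apply div_le_div_of_nonneg_right _ hg0.le
    push_cast
    nlinarith
  have hTD0 : 0 ≤ L * ((D : ℝ) / g) := by positivity
  -- (a)
  by_cases ha : (g : ℝ) ^ (1 - 1 / 400 : ℝ) ≤ D
  · refine fin (C₀ * K1) (L * (D / g)) ?_ ?_ hTD0 hTD
    · refine (H4 ha).trans ?_
      have e1 : (g : ℝ) ^ (-(1 / 200) : ℝ) =
          Real.exp (-(1 / 400 * y)) * ((g : ℝ) ^ (1 - 1 / 400 : ℝ) / g) := by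
        rw [hgexp, hgexp, div_eq_mul_one_div (Real.exp _) (g : ℝ), h1g, ← Real.exp_add,
          ← Real.exp_add]
        congr 1
        ring
      rw [e1]
      have e2 : (g : ℝ) ^ (1 - 1 / 400 : ℝ) / g ≤ D / g := div_le_div_of_nonneg_right ha hg0.le
      calc _ ≤ C₀ * ((K1 * L) * (D / g)) := by
            apply mul_le_mul_of_nonneg_left _ hC₀'
            exact mul_le_mul (hK1' y hy) e2 (by positivity) (by positivity)
        _ = _ := by ring
    · rw [hC]
      apply mul_le_mul_of_nonneg_left _ hC₀'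
      linarith
  have hb : (D : ℝ) ≤ (g : ℝ) ^ (1 - 1 / 400 : ℝ) := (not_le.1 ha).le
  have H5' := H5 hb
  have hDg2 : (D : ℝ) / g ≤ Real.exp (-(1 / 400 * y)) := by
    rw [div_le_iff₀ hg0]
    refine hb.trans (le_of_eq ?_)
    calc (g : ℝ) ^ (1 - 1 / 400 : ℝ) = Real.exp (-(1 / 400 * y)) * Real.exp y := by
          rw [hgexp, ← Real.exp_add]
          congr 1
          ring
      _ = _ := by rw [hgy]
  have hlogD : Real.log (D + 1) ≤ 2 * y := by
    have h1 : Real.log ((D : ℝ) + 1) ≤ Real.log ((g : ℝ) ^ 2) := by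
      apply Real.log_le_log (by linarith)
      nlinarith
    rw [Real.log_pow] at h1
    push_cast at h1
    exact h1
  have hlogD0 : 0 ≤ Real.log ((D : ℝ) + 1) := Real.log_nonneg (by linarith)
  -- number of the case
  rcases Nat.lt_or_ge (e + D) (h + 3) with hc3 | hc3
  swap
  · -- (b)
    have h1 := H5' 3 le_rfl (by omega)
    refine fin (C₀ * (A * K2)) (L * (D / g)) ?_ ?_ hTD0 hTD
    · refine h1.trans ?_
      set r : ℝ := D * Real.log (D + 1) / g with hr
      have hr0 : 0 ≤ r := by positivity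
      have e1 : Real.sqrt r ^ 3 = r * Real.sqrt r := by
        rw [pow_succ, Real.sq_sqrt hr0]
      have hly : 2 * y ≤ 9600 * Real.exp (y / 4800) := by
        have := Real.add_one_le_exp (y / 4800)
        linarith
      have e2 : r ≤ (D / g) * (9600 * Real.exp (y / 4800)) := by
        rw [hr, mul_div_right_comm]
        exact mul_le_mul_of_nonneg_left (hlogD.trans hly) (by positivity)
      have e3 : r ≤ 9600 * Real.exp (-(11 / 4800 * y)) := by
        refine e2.trans ?_
        calc _ ≤ Real.exp (-(1 / 400 * y)) * (9600 * Real.exp (y / 4800)) :=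
              mul_le_mul_of_nonneg_right hDg2 (by positivity)
          _ = 9600 * (Real.exp (-(1 / 400 * y)) * Real.exp (y / 4800)) := by ring
          _ = _ := by
            rw [← Real.exp_add]
            congr 2
            ring
      have e4 : Real.sqrt r ≤ Real.sqrt 9600 * Real.exp (-(11 / 9600 * y)) := by
        rw [Real.sqrt_le_left (by positivity), mul_pow, Real.sq_sqrt (by norm_num),
          ← Real.exp_nat_mul]
        refine e3.trans (le_of_eq ?_)
        congr 2
        push_cast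
        ring
      rw [e1]
      calc C₀ * (r * Real.sqrt r) ≤ C₀ * (((D / g) * (9600 * Real.exp (y / 4800))) *
            (Real.sqrt 9600 * Real.exp (-(11 / 9600 * y)))) := by
            apply mul_le_mul_of_nonneg_left _ hC₀'
            exact mul_le_mul e2 e4 (Real.sqrt_nonneg _) (by positivity)
        _ = C₀ * (A * (D / g)) * (Real.exp (y / 4800) * Real.exp (-(11 / 9600 * y))) := by
            rw [hA]
            ring
        _ = C₀ * (A * (D / g)) * Real.exp (-(9 / 9600 * y)) := by
            rw [← Real.exp_add]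
            congr 2
            ring
        _ ≤ C₀ * (A * (D / g)) * (K2 * L) :=
            mul_le_mul_of_nonneg_left (hK2' y hy) (by positivity)
        _ = _ := by ring
    · rw [hC]
      apply mul_le_mul_of_nonneg_left _ hC₀'
      linarith
  have hcase : e + D = h + 2 ∨ e + D = h + 1 := by omega
  rcases hcase with hc | hc
  · -- (c)
    have he2 : e ≤ 2 := by omega
    rcases Nat.lt_or_ge D 3 with hD3 | hD3
    · have hD12 : D = 1 ∨ D = 2 := by omega
      rcases hD12 with hD | hD
      · -- impossible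
        exfalso
        have hh1 : 1 ≤ h := by
          rw [hh]
          exact Nat.mul_pos hm he
        have e1 : e = 2 := by omega
        have e2 : h = 1 := by omega
        rw [e1, e2] at hh
        omega
      · have h1 := H5' 2 (by norm_num) (by omega)
        refine fin (C₀ * (2 * Real.log 3)) (1 / g) ?_ ?_ (by positivity) (T2 hD (by omega))
        · refine h1.trans (le_of_eq ?_)
          rw [Real.sq_sqrt (by positivity), hD]
          push_cast
          norm_num
          ring
        · rw [hC]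
          apply mul_le_mul_of_nonneg_left _ hC₀'
          linarith
    · -- `D ≥ 3`
      have hmD : D ≤ 2 * m := by
        have : e = 1 ∨ e = 2 := by omega
        rcases this with h1 | h1
        · rw [h1] at hh hc
          omega
        · rw [h1] at hh hc
          omega
      have hmD' : (D : ℝ) ≤ 2 * m := by exact_mod_cast hmD
      have hT : L * ((D : ℝ) ^ 2 / 2 / g) ≤ Sum_tot g D e h m := by
        refine le_trans (mul_le_mul_of_nonneg_left ?_ hL0.le) T4
        apply div_le_div_of_nonneg_right _ hg0.le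
        push_cast
        nlinarith
      have hT00 : 0 ≤ L * ((D : ℝ) ^ 2 / 2 / g) := by positivity
      have hD3' : (3 : ℝ) ≤ D := by exact_mod_cast hD3
      rcases le_or_gt (y ^ (1 / 3 : ℝ)) (D : ℝ) with hyD | hyD
      · -- large `D`
        have h1 := H5' 2 (by norm_num) (by omega)
        refine fin (C₀ * 16) (L * ((D : ℝ) ^ 2 / 2 / g)) ?_ ?_ hT00 hT
        · refine h1.trans ?_
          rw [Real.sq_sqrt (by positivity)]
          have e1 := Sum_log_le (D : ℝ) hD1
          have e2 : (D : ℝ) ^ (1 / 4 : ℝ) ≤ D * L := by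
            have e3 : (D : ℝ) ^ (-(3 / 4) : ℝ) ≤ L := by
              have e4 : (D : ℝ) ^ (-(3 / 4) : ℝ) ≤ (y ^ (1 / 3 : ℝ)) ^ (-(3 / 4) : ℝ) :=
                Real.rpow_le_rpow_of_nonpos (by positivity) hyD (by norm_num)
              refine e4.trans (le_of_eq ?_)
              rw [hL, ← Real.rpow_mul hy.le]
              norm_num
            calc (D : ℝ) ^ (1 / 4 : ℝ) = D * (D : ℝ) ^ (-(3 / 4) : ℝ) := by
                  nth_rewrite 2 [← Real.rpow_one (D : ℝ)]
                  rw [← Real.rpow_add hD0]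
                  norm_num
              _ ≤ _ := mul_le_mul_of_nonneg_left e3 hD0.le
          have e5 : Real.log (D + 1) ≤ 8 * (D * L) := e1.trans (by linarith)
          calc C₀ * (D * Real.log (D + 1) / g) ≤ C₀ * (D * (8 * (D * L)) / g) := by
                apply mul_le_mul_of_nonneg_left _ hC₀'
                apply div_le_div_of_nonneg_right _ hg0.le
                exact mul_le_mul_of_nonneg_left e5 hD0.le
            _ = _ := by ring
        · rw [hC]
          apply mul_le_mul_of_nonneg_left _ hC₀'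
          linarith
      · -- small `D`
        have h1 := H6 hD3 hc
        refine fin (C₀ * (2 * K4 + 2 * (Real.exp 700 * K4))) (L * ((D : ℝ) ^ 2 / 2 / g))
          ?_ ?_ hT00 hT
        · refine h1.trans ?_
          set z : ℝ := y ^ (1 / 3 : ℝ) with hz
          have hz0 : 0 < z := by positivity
          have hz3 : z ^ 3 = y := by
            rw [hz, ← Real.rpow_natCast, ← Real.rpow_mul hy.le]
            norm_num
          have hK := hK4' y hy
          rw [← hz, ← hL] at hK
          have hDz : (D : ℝ) ≤ z := hyD.le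
          have hz3' : 3 ≤ z := hD3'.trans hDz
          -- first term
          have a1 : (g : ℝ) ^ (-1 - 1 / (2 * (D : ℝ) ^ 2)) ≤ (1 / g) * (K4 * L) := by
            have e1 : (g : ℝ) ^ (-1 - 1 / (2 * (D : ℝ) ^ 2)) =
                (1 / g) * Real.exp (-(y / (2 * (D : ℝ) ^ 2))) := by
              rw [hgexp]
              have : (1 : ℝ) / g = Real.exp (-y) := by
                rw [Real.exp_neg, hydef, Real.exp_log hg0, one_div]
              rw [this, ← Real.exp_add]
              congr 1
              ring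
            rw [e1]
            apply mul_le_mul_of_nonneg_left _ (by positivity)
            refine le_trans (Real.exp_le_exp.2 ?_) hK
            have e2 : 1 / 2 * z ≤ y / (2 * (D : ℝ) ^ 2) := by
              rw [le_div_iff₀ (by positivity), ← hz3]
              have : (D : ℝ) ^ 2 ≤ z ^ 2 := pow_le_pow_left₀ hD0.le hDz 2
              nlinarith
            linarith
          -- second term
          have a2 : (8 * (D : ℝ)) ^ (D ^ 2) * (g : ℝ) ^ (-(5 / 4) : ℝ) ≤
              (1 / g) * (Real.exp 700 * (K4 * L)) := by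
            have e1 : (8 * (D : ℝ)) ^ (D ^ 2) = Real.exp ((D : ℝ) ^ 2 * Real.log (8 * D)) := by
              have : (8 * (D : ℝ)) ^ (D ^ 2) = (Real.exp (Real.log (8 * D))) ^ (D ^ 2) := by
                rw [Real.exp_log (by positivity)]
              rw [this, ← Real.exp_nat_mul]
              push_cast
              rfl
            have e2 : (g : ℝ) ^ (-(5 / 4) : ℝ) = (1 / g) * Real.exp (-(y / 4)) := by
              rw [hgexp]
              have : (1 : ℝ) / g = Real.exp (-y) := by
                rw [Real.exp_neg, hydef, Real.exp_log hg0, one_div]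
              rw [this, ← Real.exp_add]
              congr 1
              ring
            rw [e1, e2, ← mul_assoc, mul_comm (Real.exp _) (1 / (g : ℝ)), mul_assoc,
              ← Real.exp_add]
            apply mul_le_mul_of_nonneg_left _ (by positivity)
            have e3 : (D : ℝ) ^ 2 * Real.log (8 * D) ≤ z ^ 2 * Real.log (8 * z) := by
              apply mul_le_mul (pow_le_pow_left₀ hD0.le hDz 2)
              · exact Real.log_le_log (by positivity) (by linarith)
              · exact Real.log_nonneg (by linarith)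
              · positivity
            have e4 : Real.log (8 * z) ≤ z / 8 + 4 := by
              have f1 : Real.log (8 * z) = Real.log 64 + Real.log (z / 8) := by
                rw [← Real.log_mul (by norm_num) (by positivity)]
                congr 1
                ring
              have f2 : Real.log (z / 8) ≤ z / 8 - 1 := Real.log_le_sub_one_of_pos (by positivity)
              have f3 : Real.log 64 = 6 * Real.log 2 := by
                rw [show (64 : ℝ) = 2 ^ 6 by norm_num, Real.log_pow]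
                norm_num
              have f4 := Real.log_two_lt_d9
              rw [f1, f3]
              linarith
            have e5 : (D : ℝ) ^ 2 * Real.log (8 * D) + -(y / 4) ≤ 700 + -(1 / 2 * z) := by
              have f1 : z ^ 2 * Real.log (8 * z) ≤ z ^ 2 * (z / 8 + 4) :=
                mul_le_mul_of_nonneg_left e4 (by positivity)
              have f2 : 0 ≤ (z + 10.8) * (z - 21.4) ^ 2 := by positivity
              rw [← hz3]
              nlinarith
            calc Real.exp ((D : ℝ) ^ 2 * Real.log (8 * D) + -(y / 4)) ≤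
                  Real.exp (700 + -(1 / 2 * z)) := Real.exp_le_exp.2 e5
              _ = Real.exp 700 * Real.exp (-(1 / 2 * z)) := Real.exp_add _ _
              _ ≤ _ := mul_le_mul_of_nonneg_left hK (Real.exp_pos _).le
          have hDD : (1 : ℝ) ≤ (D : ℝ) ^ 2 := one_le_pow₀ hD1
          calc C₀ * ((g : ℝ) ^ (-1 - 1 / (2 * (D : ℝ) ^ 2))
                + (8 * (D : ℝ)) ^ (D ^ 2) * (g : ℝ) ^ (-(5 / 4) : ℝ))
                ≤ C₀ * ((1 / g) * (K4 * L) + (1 / g) * (Real.exp 700 * (K4 * L))) :=
                mul_le_mul_of_nonneg_left (add_le_add a1 a2) hC₀'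
            _ = C₀ * (2 * K4 + 2 * (Real.exp 700 * K4)) * (L * (1 / 2 / g)) := by ring
            _ ≤ _ := by
              apply mul_le_mul_of_nonneg_left _ (by positivity)
              apply mul_le_mul_of_nonneg_left _ hL0.le
              apply div_le_div_of_nonneg_right _ hg0.le
              linarith
        · rw [hC]
          apply mul_le_mul_of_nonneg_left _ hC₀'
          linarith
  · -- (d)
    have he1 : e = 1 := by omega
    have hhD' : h = D := by omega
    have hmD : m = D := by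
      rw [he1, mul_one] at hh
      omega
    have hT : L * ((D : ℝ) ^ 2 / g) ≤ Sum_tot g D e h m := by
      refine le_trans (mul_le_mul_of_nonneg_left ?_ hL0.le) T4
      apply div_le_div_of_nonneg_right _ hg0.le
      rw [hmD]
      push_cast
      nlinarith
    have hT00 : 0 ≤ L * ((D : ℝ) ^ 2 / g) := by positivity
    rcases Nat.lt_or_ge D 3 with hD3 | hD3
    · have hD12 : D = 1 ∨ D = 2 := by omega
      rcases hD12 with hD | hD
      · have h1 := H5' 1 (by norm_num) (by omega)
        refine fin (C₀ * Real.sqrt (Real.log 2)) (1 / Real.sqrt g) ?_ ?_ (by positivity) (T1 hD)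
        · refine h1.trans (le_of_eq ?_)
          rw [hD, pow_one]
          push_cast
          norm_num
          ring
        · rw [hC]
          apply mul_le_mul_of_nonneg_left _ hC₀'
          linarith
      · refine fin (C₀ * 1) (Real.log (g + 1) ^ 2 / g) ?_ ?_ (by positivity)
          (T3 hD he1 (by omega))
        · rw [mul_one]
          exact H7 hD he1 (by omega)
        · rw [hC]
          apply mul_le_mul_of_nonneg_left _ hC₀'
          linarith
    · have hDD : (1 : ℝ) ≤ (D : ℝ) ^ 2 := one_le_pow₀ hD1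
      rcases le_or_gt (D : ℝ) ((g : ℝ) ^ (1 / 100 : ℝ)) with h100 | h100
      · have h1 := H8 he1 hhD' hD3 h100
        refine fin (C₀ * K6) (L * ((D : ℝ) ^ 2 / g)) ?_ ?_ hT00 hT
        · refine h1.trans ?_
          have e2 : (g : ℝ) ^ (-(5 / 4) : ℝ) = Real.exp (-(1 / 4 * y)) * (1 / g) := by
            rw [hgexp]
            have : (1 : ℝ) / g = Real.exp (-y) := by
              rw [Real.exp_neg, hydef, Real.exp_log hg0, one_div]
            rw [this, ← Real.exp_add]
            congr 1
            ring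
          rw [e2]
          calc C₀ * (Real.exp (-(1 / 4 * y)) * (1 / g)) ≤ C₀ * ((K6 * L) * ((D : ℝ) ^ 2 / g)) := by
                apply mul_le_mul_of_nonneg_left _ hC₀'
                exact mul_le_mul (hK6' y hy) (div_le_div_of_nonneg_right hDD hg0.le)
                  (by positivity) (by positivity)
            _ = _ := by ring
        · rw [hC]
          apply mul_le_mul_of_nonneg_left _ hC₀'
          linarith
      · have h1 := H9 he1 hhD' h100
        refine fin (C₀ * K7) (L * ((D : ℝ) ^ 2 / g)) ?_ ?_ hT00 hT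
        · refine h1.trans ?_
          have e1 : (D : ℝ) ^ (3 / 2 : ℝ) ≤ (D : ℝ) ^ 2 * Real.exp (-(1 / 200 * y)) := by
            have f1 : (D : ℝ) ^ (3 / 2 : ℝ) = (D : ℝ) ^ 2 * (D : ℝ) ^ (-(1 / 2) : ℝ) := by
              rw [← Real.rpow_natCast (D : ℝ) 2, ← Real.rpow_add hD0]
              norm_num
            rw [f1]
            apply mul_le_mul_of_nonneg_left _ (by positivity)
            have f2 : (D : ℝ) ^ (-(1 / 2) : ℝ) ≤ ((g : ℝ) ^ (1 / 100 : ℝ)) ^ (-(1 / 2) : ℝ) :=
              Real.rpow_le_rpow_of_nonpos (by positivity) h100.le (by norm_num)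
            refine f2.trans (le_of_eq ?_)
            rw [← Real.rpow_mul hg0.le, hgexp]
            congr 1
            ring
          have e2 : (g : ℝ) ^ (1 / 1000 - 1 : ℝ) = Real.exp (1 / 1000 * y) * (1 / g) := by
            rw [hgexp]
            have : (1 : ℝ) / g = Real.exp (-y) := by
              rw [Real.exp_neg, hydef, Real.exp_log hg0, one_div]
            rw [this, ← Real.exp_add]
            congr 1
            ring
          calc C₀ * (g : ℝ) ^ (1 / 1000 - 1 : ℝ) * (D : ℝ) ^ (3 / 2 : ℝ)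
              ≤ C₀ * (g : ℝ) ^ (1 / 1000 - 1 : ℝ) * ((D : ℝ) ^ 2 * Real.exp (-(1 / 200 * y))) :=
                mul_le_mul_of_nonneg_left e1 (by positivity)
            _ = C₀ * ((D : ℝ) ^ 2 / g) * (Real.exp (1 / 1000 * y) * Real.exp (-(1 / 200 * y))) := by
                rw [e2]
                ring
            _ = C₀ * ((D : ℝ) ^ 2 / g) * Real.exp (-(1 / 250 * y)) := by
                rw [← Real.exp_add]
                congr 2
                ring
            _ ≤ C₀ * ((D : ℝ) ^ 2 / g) * (K7 * L) :=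
                mul_le_mul_of_nonneg_left (hK7' y hy) (by positivity)
            _ = _ := by ring
        · rw [hC]
          apply mul_le_mul_of_nonneg_left _ hC₀'
          linarith

private theorem Sum_ite (t : ℕ) (p : Fin t → Prop) [DecidablePred p] (c : ℝ) :
    ∑ i, (if p i then c else 0) = ({i : Fin t | p i}.ncard : ℝ) * c := by
  rw [← Finset.sum_filter, Finset.sum_const, nsmul_eq_mul]
  congr 2
  rw [Set.ncard_eq_toFinset_card']
  congr 1
  ext i
  simp

theorem pSum : StSum := by
  intro C₀ hC₀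
  obtain ⟨C, hC, hP⟩ := Sum_point C₀ hC₀
  refine ⟨C, hC, ?_⟩
  intro g t D h e m x hg h1 h2 h3 h4 h5 h6 h7 h8 h9
  have hg' : (2 : ℝ) ≤ g := by exact_mod_cast hg
  have hg0 : (0 : ℝ) < g := by linarith
  have hy : 0 < Real.log g := Real.log_pos (by linarith)
  have hpt : ∀ i, x i ≤ C * Sum_tot g (D i) (e i) (h i) (m i) := by
    intro i
    obtain ⟨k1, k2, k3, k4⟩ := h1 i
    have hDg : D i ≤ g := by
      refine le_trans ?_ h2
      refine le_trans ?_ (Finset.single_le_sum (f := fun i => m i * D i)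
        (fun j _ => Nat.zero_le _) (Finset.mem_univ i))
      exact Nat.le_mul_of_pos_left _ k2
    exact hP g (D i) (h i) (e i) (m i) (x i) hg k1 k2 k3 k4 hDg (h4 i) (h5 i) (h6 i) (h7 i)
      (h8 i) (h9 i)
  calc ∑ i, x i ≤ ∑ i, C * Sum_tot g (D i) (e i) (h i) (m i) :=
        Finset.sum_le_sum (fun i _ => hpt i)
    _ = C * ∑ i, Sum_tot g (D i) (e i) (h i) (m i) := by rw [Finset.mul_sum]
    _ ≤ _ := by
      apply mul_le_mul_of_nonneg_left _ hC.le
      unfold Sum_tot
      rw [Finset.sum_add_distrib, Finset.sum_add_distrib, Finset.sum_add_distrib,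
        Sum_ite t (fun i => D i = 1), Sum_ite t (fun i => D i = 2 ∧ e i = h i),
        Sum_ite t (fun i => D i = 2 ∧ e i = 1 ∧ h i = 2), ← Finset.mul_sum, ← Finset.sum_div]
      have hs : (∑ i, ((m i * D i : ℕ) : ℝ)) / g ≤ 1 := by
        rw [div_le_one hg0]
        exact_mod_cast h2
      have hL : 0 ≤ Real.log g ^ (-(1 / 4) : ℝ) := by positivity
      have hLs := mul_le_mul_of_nonneg_left hs hL
      have e1 : ({i : Fin t | D i = 1}.ncard : ℝ) * (1 / Real.sqrt g) =
          ({i : Fin t | D i = 1}.ncard : ℝ) / Real.sqrt g := by ring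
      have e2 : ({i : Fin t | D i = 2 ∧ e i = h i}.ncard : ℝ) * (1 / (g : ℝ)) =
          ({i : Fin t | D i = 2 ∧ e i = h i}.ncard : ℝ) / g := by ring
      have e3 : ({i : Fin t | D i = 2 ∧ e i = 1 ∧ h i = 2}.ncard : ℝ) *
          (Real.log (g + 1) ^ 2 / g) =
          ({i : Fin t | D i = 2 ∧ e i = 1 ∧ h i = 2}.ncard : ℝ) * Real.log (g + 1) ^ 2 / g := by
        ring
      rw [e1, e2, e3]
      linarith

end Pool.Agent.Lib.MP_640417_ag.Full
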