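import Pool.Agent.Lib.MP_640417_ag.Full.SpecG

/-!
# Two-point smoothing against Gaussian smoothing
-/

namespace Pool.Agent.Lib.MP_640417_ag.Full

open MeasureTheory ProbabilityTheory

private lemma TV_exp {x : ℝ} (hx : 0 ≤ x) :
    0 ≤ Real.exp x - 1 - x ∧ Real.exp x - 1 - x ≤ x ^ 2 * Real.exp x := by
  have h1 : 1 - x ≤ Real.exp (-x) := by have := Real.add_one_le_exp (-x); linarith
  have h2 : Real.exp (-x) * Real.exp x = 1 := by rw [← Real.exp_add]; simp
  have h3 := Real.add_one_le_exp x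
  have hpos := Real.exp_pos x
  have h4 : Real.exp x - 1 ≤ x * Real.exp x := by nlinarith
  constructor
  · linarith
  · nlinarith

private lemma TV_cosh (s : ℝ) :
    |Real.cosh s - 1 - s ^ 2 / 2| ≤ s ^ 4 / 4 * Real.exp (s ^ 2 / 2) := by
  have h1 := Real.cosh_le_exp_half_sq s
  have h2 := (TV_exp (show 0 ≤ s ^ 2 / 2 by positivity)).2
  have h3 : 1 + s ^ 2 / 2 ≤ Real.cosh s := by
    have h4 : Real.cosh s = 1 + 2 * Real.sinh (s / 2) ^ 2 := by
      have h5 := Real.cosh_two_mul (s / 2)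
      rw [show 2 * (s / 2) = s by ring] at h5
      rw [h5, Real.cosh_sq]
      ring
    have h6 : (s / 2) ^ 2 ≤ Real.sinh (s / 2) ^ 2 := by
      rw [← sq_abs (s / 2), ← sq_abs (Real.sinh (s / 2))]
      apply pow_le_pow_left₀ (abs_nonneg _)
      rw [Real.abs_sinh]
      exact Real.self_le_sinh_iff.mpr (abs_nonneg _)
    rw [h4]
    linarith
  rw [abs_le]
  constructor
  · have : 0 ≤ s ^ 4 / 4 * Real.exp (s ^ 2 / 2) := by positivity
    linarith
  · have : (s ^ 2 / 2) ^ 2 = s ^ 4 / 4 := by ring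
    rw [this] at h2
    linarith

private lemma TV_root {u : ℝ} (hu : 0 ≤ u) (hu1 : u ≤ 1 / 4) :
    |(Real.sqrt (1 + u))⁻¹ - 1 + u / 2| ≤ u ^ 2 ∧ (Real.sqrt (1 + u))⁻¹ ≤ 1
      ∧ 0 ≤ (Real.sqrt (1 + u))⁻¹ := by
  set r := (Real.sqrt (1 + u))⁻¹ with hr
  have hr0 : 0 ≤ r := by positivity
  have hs : 0 < 1 + u := by linarith
  have hr2 : r ^ 2 * (1 + u) = 1 := by
    rw [hr, inv_pow, Real.sq_sqrt hs.le]
    field_simp
  have hr1 : r ≤ 1 := by
    by_contra h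
    push Not at h
    have : 1 < r ^ 2 := by nlinarith
    nlinarith
  refine ⟨?_, hr1, hr0⟩
  rw [abs_le]
  constructor
  · have h1 : 1 - u / 2 ≤ r := by
      apply (pow_le_pow_iff_left₀ (by linarith) hr0 (two_ne_zero)).mp
      have h2 : (1 - u / 2) ^ 2 * (1 + u) ≤ r ^ 2 * (1 + u) := by
        rw [hr2]
        nlinarith [mul_nonneg hu hu]
      exact le_of_mul_le_mul_right h2 hs
    nlinarith [sq_nonneg u]
  · have h1 : r ≤ 1 - u / 2 + u ^ 2 := by
      apply (pow_le_pow_iff_left₀ hr0 (by nlinarith) (two_ne_zero)).mp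
      have h2 : r ^ 2 * (1 + u) ≤ (1 - u / 2 + u ^ 2) ^ 2 * (1 + u) := by
        rw [hr2]
        have : (1 - u / 2 + u ^ 2) ^ 2 * (1 + u) = 1 + 5 / 4 * u ^ 2 + 5 / 4 * u ^ 3 + u ^ 5 := by
          ring
        rw [this]
        have : 0 ≤ 5 / 4 * u ^ 2 + 5 / 4 * u ^ 3 + u ^ 5 := by positivity
        linarith
      exact le_of_mul_le_mul_right h2 hs
    linarith

/-- The pointwise comparison of the densities with respect to the normal distribution. -/
private lemma TV_dens {u y : ℝ} (hu : 0 ≤ u) (hu1 : u ≤ 1 / 4) :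
    |Real.exp (-u / 2) * Real.cosh (Real.sqrt u * y)
      - (Real.sqrt (1 + u))⁻¹ * Real.exp (u * y ^ 2 / (2 * (1 + u)))|
      ≤ 100 * u ^ 2 * Real.exp (y ^ 2 / 4) := by
  obtain ⟨hR4, hr1, hr0⟩ := TV_root hu hu1
  set r := (Real.sqrt (1 + u))⁻¹ with hr
  have hs2 : (Real.sqrt u * y) ^ 2 = u * y ^ 2 := by
    rw [mul_pow, Real.sq_sqrt hu]
  have hs4 : (Real.sqrt u * y) ^ 4 = u ^ 2 * y ^ 4 := by
    calc (Real.sqrt u * y) ^ 4 = ((Real.sqrt u * y) ^ 2) ^ 2 := by ring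
      _ = _ := by rw [hs2]; ring
  have hy2 : 0 ≤ y ^ 2 := sq_nonneg y
  set E := Real.exp (y ^ 2 / 8) with hE
  have hE1 : 1 ≤ E := Real.one_le_exp (by positivity)
  have hEE : Real.exp (y ^ 2 / 4) = E ^ 2 := by
    rw [hE, ← Real.exp_nat_mul]
    congr 1
    push_cast
    ring
  have hEy : y ^ 2 ≤ 8 * E := by
    have := Real.add_one_le_exp (y ^ 2 / 8)
    rw [hE]
    linarith
  have hEy4 : y ^ 4 ≤ 128 * E := by
    have h := Real.quadratic_le_exp_of_nonneg (show 0 ≤ y ^ 2 / 8 by positivity)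
    have h2 : (y ^ 2 / 8) ^ 2 / 2 = y ^ 4 / 128 := by ring
    rw [h2] at h
    rw [hE]
    linarith
  -- first density
  set c := Real.cosh (Real.sqrt u * y) with hc
  have hR1 : |c - 1 - u * y ^ 2 / 2| ≤ u ^ 2 * (y ^ 4 / 4 * E) := by
    have h := TV_cosh (Real.sqrt u * y)
    rw [hs2, hs4] at h
    refine h.trans ?_
    have h2 : Real.exp (u * y ^ 2 / 2) ≤ E := by
      rw [hE]
      apply Real.exp_le_exp.mpr
      nlinarith
    calc u ^ 2 * y ^ 4 / 4 * Real.exp (u * y ^ 2 / 2) ≤ u ^ 2 * y ^ 4 / 4 * E := by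
          apply mul_le_mul_of_nonneg_left h2
          positivity
      _ = _ := by ring
  set e := Real.exp (-u / 2) with he
  have he1 : e ≤ 1 := by
    rw [he]
    apply Real.exp_le_one_iff.mpr
    linarith
  have he0 : 0 ≤ e := (Real.exp_pos _).le
  have hR2 : |e - 1 + u / 2| ≤ u ^ 2 / 4 := by
    have h := Real.abs_exp_sub_one_sub_id_le (x := -u / 2) (by
      rw [abs_le]; constructor <;> linarith)
    calc |e - 1 + u / 2| = |Real.exp (-u / 2) - 1 - (-u / 2)| := by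
          rw [he]; congr 1; ring
      _ ≤ (-u / 2) ^ 2 := h
      _ = u ^ 2 / 4 := by ring
  -- second density
  set w := u * y ^ 2 / (2 * (1 + u)) with hw
  have hw0 : 0 ≤ w := by positivity
  have hwle : w ≤ u * y ^ 2 / 2 := by
    rw [hw]
    apply div_le_div_of_nonneg_left (by positivity) (by norm_num) (by linarith)
  have hwd : |w - u * y ^ 2 / 2| ≤ u ^ 2 * (y ^ 2 / 2) := by
    have h1 : w - u * y ^ 2 / 2 = - (u ^ 2 * (y ^ 2 / 2) / (1 + u)) := by
      rw [hw]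
      field_simp
      ring
    rw [h1, abs_neg, abs_of_nonneg (by positivity)]
    exact div_le_self (by positivity) (by linarith)
  set f := Real.exp w with hf
  have hfE : f ≤ E := by
    rw [hf, hE]
    apply Real.exp_le_exp.mpr
    nlinarith
  have hR3 : |f - 1 - w| ≤ u ^ 2 * (y ^ 4 / 4 * E) := by
    have h := TV_exp hw0
    rw [abs_of_nonneg h.1]
    refine h.2.trans ?_
    have h2 : w ^ 2 ≤ (u * y ^ 2 / 2) ^ 2 := pow_le_pow_left₀ hw0 hwle 2
    calc w ^ 2 * Real.exp w ≤ (u * y ^ 2 / 2) ^ 2 * E :=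
          mul_le_mul h2 hfE (Real.exp_pos _).le (by positivity)
      _ = _ := by ring
  -- expansion
  have hdec : e * c - r * f = e * (c - 1 - u * y ^ 2 / 2) + (e - 1 + u / 2) * (1 + u * y ^ 2 / 2)
      - r * (f - 1 - w) - r * (w - u * y ^ 2 / 2) - (r - 1 + u / 2) * (1 + u * y ^ 2 / 2) := by
    ring
  have hb1 : |e * (c - 1 - u * y ^ 2 / 2)| ≤ u ^ 2 * (y ^ 4 / 4 * E) := by
    rw [abs_mul, abs_of_nonneg he0]
    calc e * |c - 1 - u * y ^ 2 / 2| ≤ 1 * |c - 1 - u * y ^ 2 / 2| :=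
          mul_le_mul_of_nonneg_right he1 (abs_nonneg _)
      _ ≤ _ := by rw [one_mul]; exact hR1
  have hq0 : 0 ≤ 1 + u * y ^ 2 / 2 := by positivity
  have hq : 1 + u * y ^ 2 / 2 ≤ 1 + y ^ 2 / 8 := by nlinarith
  have hb2 : |(e - 1 + u / 2) * (1 + u * y ^ 2 / 2)| ≤ u ^ 2 / 4 * (1 + y ^ 2 / 8) := by
    rw [abs_mul, abs_of_nonneg hq0]
    exact mul_le_mul hR2 hq hq0 (by positivity)
  have hb3 : |r * (f - 1 - w)| ≤ u ^ 2 * (y ^ 4 / 4 * E) := by
    rw [abs_mul, abs_of_nonneg hr0]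
    calc r * |f - 1 - w| ≤ 1 * |f - 1 - w| := mul_le_mul_of_nonneg_right hr1 (abs_nonneg _)
      _ ≤ _ := by rw [one_mul]; exact hR3
  have hb4 : |r * (w - u * y ^ 2 / 2)| ≤ u ^ 2 * (y ^ 2 / 2) := by
    rw [abs_mul, abs_of_nonneg hr0]
    calc r * |w - u * y ^ 2 / 2| ≤ 1 * |w - u * y ^ 2 / 2| :=
          mul_le_mul_of_nonneg_right hr1 (abs_nonneg _)
      _ ≤ _ := by rw [one_mul]; exact hwd
  have hb5 : |(r - 1 + u / 2) * (1 + u * y ^ 2 / 2)| ≤ u ^ 2 * (1 + y ^ 2 / 8) := by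
    rw [abs_mul, abs_of_nonneg hq0]
    exact mul_le_mul hR4 hq hq0 (by positivity)
  have htot : |e * c - r * f| ≤ u ^ 2 * (y ^ 4 / 4 * E) + u ^ 2 / 4 * (1 + y ^ 2 / 8)
      + u ^ 2 * (y ^ 4 / 4 * E) + u ^ 2 * (y ^ 2 / 2) + u ^ 2 * (1 + y ^ 2 / 8) := by
    rw [hdec]
    refine (abs_sub _ _).trans ?_
    refine add_le_add ?_ hb5
    refine (abs_sub _ _).trans ?_
    refine add_le_add ?_ hb4
    refine (abs_sub _ _).trans ?_
    refine add_le_add ?_ hb3
    refine (abs_add_le _ _).trans ?_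
    exact add_le_add hb1 hb2
  refine htot.trans ?_
  rw [hEE]
  have h1 : y ^ 4 / 4 * E + 1 / 4 * (1 + y ^ 2 / 8) + y ^ 4 / 4 * E + y ^ 2 / 2
      + (1 + y ^ 2 / 8) ≤ 100 * E ^ 2 := by
    have hE2 : E ≤ E ^ 2 := by nlinarith
    have h3 : y ^ 4 / 4 * E ≤ 32 * E ^ 2 := by nlinarith
    nlinarith
  calc _ = u ^ 2 * (y ^ 4 / 4 * E + 1 / 4 * (1 + y ^ 2 / 8) + y ^ 4 / 4 * E + y ^ 2 / 2
      + (1 + y ^ 2 / 8)) := by ring
    _ ≤ u ^ 2 * (100 * E ^ 2) := mul_le_mul_of_nonneg_left h1 (by positivity)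
    _ = _ := by ring

/-- The variance `1 + δ ^ 2`. -/
private noncomputable def TVv (δ : ℝ) : NNReal := ⟨1 + δ ^ 2, by positivity⟩

private lemma TVv_coe (δ : ℝ) : ((TVv δ : NNReal) : ℝ) = 1 + δ ^ 2 := rfl

private lemma TVv_ne (δ : ℝ) : TVv δ ≠ 0 := by
  intro h
  have := congrArg NNReal.toReal h
  change 1 + δ ^ 2 = 0 at this
  nlinarith [sq_nonneg δ]

private lemma TV_pdf (y δ : ℝ) (hδ : 0 ≤ δ) (hδ1 : δ ≤ 1 / 2) :
    |(gaussianPDFReal δ 1 y + gaussianPDFReal (-δ) 1 y) / 2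
      - gaussianPDFReal 0 (TVv δ) y|
      ≤ 100 * δ ^ 4 * Real.exp (-(1 / 4) * y ^ 2) := by
  have hu : 0 ≤ δ ^ 2 := sq_nonneg δ
  have hu1 : δ ^ 2 ≤ 1 / 4 := by nlinarith
  have hmain := TV_dens (y := y) hu hu1
  rw [Real.sqrt_sq hδ] at hmain
  set κ := (Real.sqrt (2 * Real.pi))⁻¹ with hκ
  have hκ0 : 0 ≤ κ := by positivity
  have hκ1 : κ ≤ 1 := by
    rw [hκ]
    apply inv_le_one_of_one_le₀
    rw [Real.one_le_sqrt]
    have := Real.pi_gt_three
    linarith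
  have h1 : (gaussianPDFReal δ 1 y + gaussianPDFReal (-δ) 1 y) / 2
      = κ * Real.exp (-y ^ 2 / 2) * (Real.exp (-δ ^ 2 / 2) * Real.cosh (δ * y)) := by
    unfold gaussianPDFReal
    rw [Real.cosh_eq]
    have h2 : Real.exp (-(y - δ) ^ 2 / (2 * ((1 : NNReal) : ℝ)))
        = Real.exp (-y ^ 2 / 2) * (Real.exp (-δ ^ 2 / 2) * Real.exp (δ * y)) := by
      rw [← Real.exp_add, ← Real.exp_add]
      congr 1
      push_cast
      ring
    have h3 : Real.exp (-(y - -δ) ^ 2 / (2 * ((1 : NNReal) : ℝ)))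
        = Real.exp (-y ^ 2 / 2) * (Real.exp (-δ ^ 2 / 2) * Real.exp (-(δ * y))) := by
      rw [← Real.exp_add, ← Real.exp_add]
      congr 1
      push_cast
      ring
    rw [h2, h3, hκ]
    push_cast
    rw [mul_one]
    ring
  have h2 : gaussianPDFReal 0 (TVv δ) y
      = κ * Real.exp (-y ^ 2 / 2) * ((Real.sqrt (1 + δ ^ 2))⁻¹
        * Real.exp (δ ^ 2 * y ^ 2 / (2 * (1 + δ ^ 2)))) := by
    unfold gaussianPDFReal
    rw [TVv_coe]
    have h3 : Real.exp (-(y - 0) ^ 2 / (2 * (1 + δ ^ 2)))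
        = Real.exp (-y ^ 2 / 2) * Real.exp (δ ^ 2 * y ^ 2 / (2 * (1 + δ ^ 2))) := by
      rw [← Real.exp_add]
      congr 1
      have : (1 + δ ^ 2) ≠ 0 := by positivity
      field_simp
      ring
    rw [h3, hκ, Real.sqrt_mul (by positivity), mul_inv]
    ring
  rw [h1, h2, ← mul_sub, abs_mul, abs_of_nonneg (by positivity)]
  calc κ * Real.exp (-y ^ 2 / 2) * |Real.exp (-δ ^ 2 / 2) * Real.cosh (δ * y)
        - (Real.sqrt (1 + δ ^ 2))⁻¹ * Real.exp (δ ^ 2 * y ^ 2 / (2 * (1 + δ ^ 2)))|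
      ≤ 1 * Real.exp (-y ^ 2 / 2) * (100 * (δ ^ 2) ^ 2 * Real.exp (y ^ 2 / 4)) := by
        apply mul_le_mul _ hmain (abs_nonneg _) (by positivity)
        exact mul_le_mul_of_nonneg_right hκ1 (Real.exp_pos _).le
    _ = 100 * δ ^ 4 * (Real.exp (-y ^ 2 / 2) * Real.exp (y ^ 2 / 4)) := by ring
    _ = _ := by
      rw [← Real.exp_add]
      congr 2
      ring

theorem pTV : StTV := by
  set K := ∫ y : ℝ, Real.exp (-(1 / 4) * y ^ 2) with hK
  have hint : Integrable (fun y : ℝ => Real.exp (-(1 / 4) * y ^ 2)) :=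
    integrable_exp_neg_mul_sq (by norm_num)
  have hK0 : 0 ≤ K := integral_nonneg (fun y => (Real.exp_pos _).le)
  refine ⟨100 * K + 1, by positivity, ?_⟩
  intro δ hδ hδ1 f hf hf0 hf1
  have hfb : ∀ y, ‖f y‖ ≤ 1 := fun y => by
    rw [Real.norm_of_nonneg (hf0 y)]; exact hf1 y
  have e1 : ∫ y, f (y + δ) ∂(gaussianReal 0 1) = ∫ y, gaussianPDFReal δ 1 y * f y := by
    have h1 : (gaussianReal 0 1).map (· + δ) = gaussianReal δ 1 := by
      rw [gaussianReal_map_add_const, zero_add]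
    rw [← integral_map (φ := fun y => y + δ) (by fun_prop) hf.aestronglyMeasurable]
    rw [show (gaussianReal 0 1).map (fun y => y + δ) = gaussianReal δ 1 from h1]
    rw [integral_gaussianReal_eq_integral_smul (by norm_num)]
    rfl
  have e2 : ∫ y, f (y - δ) ∂(gaussianReal 0 1) = ∫ y, gaussianPDFReal (-δ) 1 y * f y := by
    have h1 : (gaussianReal 0 1).map (· + (-δ)) = gaussianReal (-δ) 1 := by
      rw [gaussianReal_map_add_const, zero_add]
    rw [← integral_map (φ := fun y => y - δ) (by fun_prop) hf.aestronglyMeasurable]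
    rw [show (gaussianReal 0 1).map (fun y => y - δ) = gaussianReal (-δ) 1 from h1]
    rw [integral_gaussianReal_eq_integral_smul (by norm_num)]
    rfl
  have e3 : ∫ y, f (Real.sqrt (1 + δ ^ 2) * y) ∂(gaussianReal 0 1)
      = ∫ y, gaussianPDFReal 0 (TVv δ) y * f y := by
    have h1 : (gaussianReal 0 1).map (Real.sqrt (1 + δ ^ 2) * ·)
        = gaussianReal 0 (TVv δ) := by
      rw [gaussianReal_map_const_mul]
      congr 1
      · simp
      · apply NNReal.eq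
        change Real.sqrt (1 + δ ^ 2) ^ 2 * 1 = 1 + δ ^ 2
        rw [Real.sq_sqrt (by positivity), mul_one]
    rw [← integral_map (φ := fun y => Real.sqrt (1 + δ ^ 2) * y) (by fun_prop)
      hf.aestronglyMeasurable]
    rw [show (gaussianReal 0 1).map (fun y => Real.sqrt (1 + δ ^ 2) * y)
      = gaussianReal 0 (TVv δ) from h1]
    rw [integral_gaussianReal_eq_integral_smul (TVv_ne δ)]
    rfl
  have hI : ∀ (m : ℝ) (v : NNReal), Integrable (fun y => gaussianPDFReal m v y * f y) := by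
    intro m v
    have := (integrable_gaussianPDFReal m v).bdd_mul (c := 1) (f := f) hf.aestronglyMeasurable
      (Filter.Eventually.of_forall hfb)
    exact this.congr (Filter.Eventually.of_forall (fun y => mul_comm _ _))
  have hsub : ((∫ y, gaussianPDFReal δ 1 y * f y) + ∫ y, gaussianPDFReal (-δ) 1 y * f y) / 2
      - ∫ y, gaussianPDFReal 0 (TVv δ) y * f y
      = ∫ y, ((gaussianPDFReal δ 1 y * f y + gaussianPDFReal (-δ) 1 y * f y) / 2
      - gaussianPDFReal 0 (TVv δ) y * f y) := by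
    have hI1 : Integrable (fun y => (gaussianPDFReal δ 1 y * f y
        + gaussianPDFReal (-δ) 1 y * f y) / 2) := ((hI _ _).add (hI _ _)).div_const 2
    rw [integral_sub hI1 (hI _ _), integral_div, integral_add (hI _ _) (hI _ _)]
  rw [e1, e2, e3, hsub, ← Real.norm_eq_abs]
  refine (norm_integral_le_integral_norm _).trans ?_
  have hbound : ∀ y : ℝ, ‖(gaussianPDFReal δ 1 y * f y + gaussianPDFReal (-δ) 1 y * f y) / 2
      - gaussianPDFReal 0 (TVv δ) y * f y‖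
      ≤ 100 * δ ^ 4 * Real.exp (-(1 / 4) * y ^ 2) := by
    intro y
    rw [Real.norm_eq_abs]
    have h1 : (gaussianPDFReal δ 1 y * f y + gaussianPDFReal (-δ) 1 y * f y) / 2
      - gaussianPDFReal 0 (TVv δ) y * f y
      = ((gaussianPDFReal δ 1 y + gaussianPDFReal (-δ) 1 y) / 2
      - gaussianPDFReal 0 (TVv δ) y) * f y := by ring
    rw [h1, abs_mul]
    calc _ ≤ 100 * δ ^ 4 * Real.exp (-(1 / 4) * y ^ 2) * 1 :=
          mul_le_mul (TV_pdf y δ hδ hδ1) (hfb y) (abs_nonneg _) (by positivity)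
      _ = _ := mul_one _
  calc ∫ y, ‖(gaussianPDFReal δ 1 y * f y + gaussianPDFReal (-δ) 1 y * f y) / 2
      - gaussianPDFReal 0 (TVv δ) y * f y‖
      ≤ ∫ y, 100 * δ ^ 4 * Real.exp (-(1 / 4) * y ^ 2) := by
        apply integral_mono_of_nonneg (Filter.Eventually.of_forall (fun y => norm_nonneg _))
          (hint.const_mul _) (Filter.Eventually.of_forall hbound)
    _ = 100 * δ ^ 4 * K := integral_const_mul _ _
    _ ≤ (100 * K + 1) * δ ^ 4 := by nlinarith [pow_nonneg hδ 4]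

end Pool.Agent.Lib.MP_640417_ag.Full
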