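import Pool.Agent.Lib.MP_640417_ag.Full.SpecB
import Pool.Agent.Lib.MP_640417_ag.Full.Kappa

/-!
# Three primes: assembly
-/

namespace Pool.Agent.Lib.MP_640417_ag.Full

open Module Finset MulAction Matrix Pool.Agent.Lib.MP_640417_ag.Far

/-- The cosine and the distance to the nearest integer. -/
lemma ThreeA_cos (t : ℝ) : |Real.cos (Real.pi * t)| ≤ Real.exp (-(4 * dz t ^ 2)) := by
  have hpi := Real.pi_gt_three
  set n : ℤ := round t with hn
  have h1 : |t - n| ≤ 1 / 2 := abs_sub_round t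
  have hdz : dz t = |t - n| := rfl
  have h2 : |Real.cos (Real.pi * t)| = |Real.cos (Real.pi * |t - n|)| := by
    have h4 : Real.pi * t = Real.pi * (t - n) + n * Real.pi := by ring
    rw [h4, Real.cos_add_int_mul_pi, abs_mul, abs_zpow]
    have h5 : |(-1 : ℝ)| ^ n = 1 := by simp
    rw [h5, one_mul]
    rcases abs_cases (t - n) with ⟨h6, -⟩ | ⟨h6, -⟩
    · rw [h6]
    · rw [h6, mul_neg, Real.cos_neg]
  have h0 : 0 ≤ |t - n| := abs_nonneg _
  have hy0 : 0 ≤ Real.pi * |t - n| := by positivity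
  have hy1 : Real.pi * |t - n| ≤ Real.pi / 2 := by nlinarith
  have h3 := kappa_cos_le hy0 hy1
  have h4 : 0 ≤ Real.cos (Real.pi * |t - n|) :=
    Real.cos_nonneg_of_mem_Icc ⟨by linarith, hy1⟩
  rw [h2, abs_of_nonneg h4, hdz]
  refine h3.trans (Real.exp_le_exp.mpr ?_)
  have h5 : (9 : ℝ) ≤ Real.pi ^ 2 := by nlinarith
  have h6 : 0 ≤ |t - n| ^ 2 := sq_nonneg _
  nlinarith

lemma ThreeA_prod {S G : Type} [Fintype S] [Group G] [MulAction G S] {z : G} {n N : ℕ}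
    (M : MatSys S G z n N) (X : Finset S) (m : ℕ) (v β : Fin n → ZMod m) :
    ∏ x ∈ X, |Real.cos (2 * Real.pi * M.wf m v β x)| ≤ Real.exp (-(4 * M.sz X m v β)) := by
  have h1 : Real.exp (-(4 * M.sz X m v β))
      = ∏ x ∈ X, Real.exp (-(4 * dz (2 * M.wf m v β x) ^ 2)) := by
    rw [← Real.exp_sum]
    congr 1
    unfold MatSys.sz
    rw [Finset.mul_sum, ← Finset.sum_neg_distrib]
  rw [h1]
  refine Finset.prod_le_prod (fun x _ => abs_nonneg _) (fun x _ => ?_)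
  have h2 := ThreeA_cos (2 * M.wf m v β x)
  have h3 : Real.pi * (2 * M.wf m v β x) = 2 * Real.pi * M.wf m v β x := by ring
  rw [h3] at h2
  exact h2

lemma ThreeA_prod_one {S G : Type} [Fintype S] [Group G] [MulAction G S] {z : G} {n N : ℕ}
    (M : MatSys S G z n N) (X : Finset S) (m : ℕ) (v β : Fin n → ZMod m) :
    ∏ x ∈ X, |Real.cos (2 * Real.pi * M.wf m v β x)| ≤ 1 :=
  Finset.prod_le_one (fun x _ => abs_nonneg _) (fun x _ => Real.abs_cos_le_one _)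

lemma ThreeA_finsum {α : Type*} [Finite α] (A : Set α) (f : α → ℝ) (P : α → Prop) (c : ℝ)
    (hc : 0 ≤ c) (h1 : ∀ a ∈ A, P a → f a ≤ 1) (h2 : ∀ a ∈ A, ¬ P a → f a ≤ c) :
    ∑ᶠ a ∈ A, f a ≤ ({a | a ∈ A ∧ P a}.ncard : ℝ) + Nat.card α * c := by
  classical
  have : Fintype α := Fintype.ofFinite α
  have hA : A.Finite := Set.toFinite _
  rw [finsum_mem_eq_finite_toFinset_sum f hA]
  have h3 : ∀ a ∈ hA.toFinset, f a ≤ (if P a then 1 else 0) + c := by
    intro a ha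
    have ha' := hA.mem_toFinset.mp ha
    by_cases hP : P a
    · rw [if_pos hP]
      have := h1 a ha' hP
      linarith
    · rw [if_neg hP]
      have := h2 a ha' hP
      linarith
  refine (Finset.sum_le_sum h3).trans ?_
  rw [Finset.sum_add_distrib, Finset.sum_const, nsmul_eq_mul]
  have h4 : (∑ a ∈ hA.toFinset, if P a then (1 : ℝ) else 0)
      = ({a | a ∈ A ∧ P a}.ncard : ℝ) := by
    rw [Finset.sum_boole, Set.ncard_eq_toFinset_card']
    congr 2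
    ext a
    simp only [Finset.mem_filter, Set.Finite.mem_toFinset, Set.mem_toFinset, Set.mem_setOf_eq]
  rw [h4]
  have h5 : (hA.toFinset.card : ℝ) ≤ (Nat.card α : ℝ) := by
    rw [Nat.card_eq_fintype_card]
    exact_mod_cast Finset.card_le_univ _
  have h6 := mul_le_mul_of_nonneg_right h5 hc
  linarith

/-- The bound of one term. -/
lemma ThreeA_term (hSmall : StSmall) (hUniq : StUniq) {S G : Type} [Fintype S] [Group G]
    [Finite G] [MulAction G S] [IsPretransitive G S] (z : G) (hzz : ∀ s : S, z • z • s = s)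
    (X : Finset S) (hX : ∀ s, s ∈ X ↔ z • s ∉ X) (n N : ℕ) (M : MatSys S G z n N) (hn : 0 < n)
    (p d q K k₀ : ℕ) (ε Y : ℝ) (hp : p.Prime) (hp2 : p ≠ 2) (hpN : ¬ p ∣ N)
    (hpY : (p : ℝ) ≤ Y) (hd0 : d ≠ 0) (hpd : ¬ p ∣ d) (hdsq : Squarefree d)
    (hdn : ∀ r : ℕ, r.Prime → r ∣ d → n < r) (hdY : (d : ℝ) ≤ Y ^ 2)
    (hq : q.Prime) (hq2 : q ≠ 2) (hqN : ¬ q ∣ N) (hK : 20 ≤ K) (hε : 0 < ε)
    (h4ε : 4 * ε * (n : ℝ) ^ 2 * (p : ℝ) ^ 2 < 1) (hKε : K * (p : ℝ) ^ 2 * ε ≤ 1)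
    (hKq : (n : ℝ) ^ 4 * (q : ℝ) ^ 2 * Real.log q ≤ 4 * K) (hYq : 4 * Y ^ 2 ≤ (q : ℝ) ^ k₀)
    (hbig : 3 ^ 21 * p * Y ^ (2 * k₀) * (2 * (K : ℝ)) ^ (2 * n) ≤ (p : ℝ) ^ n)
    (hexp : Y ^ (3 * n) ≤ Real.exp (4 * ε * X.card)) :
    (∑ᶠ q ∈ {q : (Fin n → ZMod (d * p)) × (Fin n → ZMod (d * p)) |
        Good (d * p) q.1 ∧ Good (d * p) q.2},
      ∏ x ∈ X, |Real.cos (2 * Real.pi * M.wf (d * p) q.1 q.2 x)|) / ((d * p : ℕ) : ℝ) ^ n ≤ 2 := by
  classical
  have : NeZero d := ⟨hd0⟩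
  have : Fact p.Prime := ⟨hp⟩
  have : Fact q.Prime := ⟨hq⟩
  have : NeZero (d * p) := ⟨mul_ne_zero hd0 hp.ne_zero⟩
  have hp0 : (0 : ℝ) < p := by exact_mod_cast hp.pos
  have hd0' : (0 : ℝ) < d := by exact_mod_cast Nat.pos_of_ne_zero hd0
  have hY0 : 0 < Y := lt_of_lt_of_le hp0 hpY
  have hpdn : 0 < ((d * p : ℕ) : ℝ) ^ n := by
    push_cast
    positivity
  set c : ℝ := Real.exp (-(4 * (ε * X.card))) with hc
  have hc0 : 0 ≤ c := (Real.exp_pos _).le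
  have h1 := ThreeA_finsum
    {q : (Fin n → ZMod (d * p)) × (Fin n → ZMod (d * p)) | Good (d * p) q.1 ∧ Good (d * p) q.2}
    (fun q => ∏ x ∈ X, |Real.cos (2 * Real.pi * M.wf (d * p) q.1 q.2 x)|)
    (fun q => M.sz X (d * p) q.1 q.2 ≤ ε * X.card) c hc0
    (fun a _ _ => ThreeA_prod_one M X (d * p) a.1 a.2)
    (fun a _ ha => by
      refine (ThreeA_prod M X (d * p) a.1 a.2).trans (Real.exp_le_exp.mpr ?_)
      push Not at ha
      linarith)
  -- the number of pairs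
  have hcardall : (Nat.card ((Fin n → ZMod (d * p)) × (Fin n → ZMod (d * p))) : ℝ)
      = ((d * p : ℕ) : ℝ) ^ n * ((d * p : ℕ) : ℝ) ^ n := by
    rw [Nat.card_prod, Nat.card_fun, Nat.card_zmod, Nat.card_fin]
    push_cast
    ring
  have hdpY : ((d * p : ℕ) : ℝ) ≤ Y ^ 3 := by
    push_cast
    calc (d : ℝ) * p ≤ Y ^ 2 * Y := mul_le_mul hdY hpY hp0.le (by positivity)
      _ = Y ^ 3 := by ring
  have h2 : ((d * p : ℕ) : ℝ) ^ n * c ≤ 1 := by
    have h3 : ((d * p : ℕ) : ℝ) ^ n ≤ Real.exp (4 * ε * X.card) := by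
      calc ((d * p : ℕ) : ℝ) ^ n ≤ (Y ^ 3) ^ n := pow_le_pow_left₀ (by positivity) hdpY n
        _ = Y ^ (3 * n) := by rw [pow_mul]
        _ ≤ _ := hexp
    calc ((d * p : ℕ) : ℝ) ^ n * c ≤ Real.exp (4 * ε * X.card) * c :=
          mul_le_mul_of_nonneg_right h3 hc0
      _ = 1 := by
        rw [hc, ← Real.exp_add, show 4 * ε * (X.card : ℝ) + -(4 * (ε * X.card)) = 0 by ring,
          Real.exp_zero]
  -- the number of small pairs
  have h3 := hUniq S G z hzz X hX n N M d p hp2 hpN hpd ε hε h4ε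
  have h4 := hSmall S G z hzz X hX n N M hn d hdsq hdn q hq2 hqN K k₀ hK hKq
    (by
      have h5 : (4 * (d : ℝ)) ≤ (q : ℝ) ^ k₀ := by linarith
      exact_mod_cast h5)
  have h5 : ({a : (Fin n → ZMod (d * p)) × (Fin n → ZMod (d * p)) |
      a ∈ {q : (Fin n → ZMod (d * p)) × (Fin n → ZMod (d * p)) |
        Good (d * p) q.1 ∧ Good (d * p) q.2} ∧ M.sz X (d * p) a.1 a.2 ≤ ε * X.card}.ncard : ℝ)
      ≤ ((p : ℝ) - 1) * (3 ^ 21 * (d : ℝ) ^ (n + k₀) * (2 * (K : ℝ)) ^ (2 * n)) := by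
    have h6 : {a : (Fin n → ZMod (d * p)) × (Fin n → ZMod (d * p)) |
      a ∈ {q : (Fin n → ZMod (d * p)) × (Fin n → ZMod (d * p)) |
        Good (d * p) q.1 ∧ Good (d * p) q.2} ∧ M.sz X (d * p) a.1 a.2 ≤ ε * X.card}.ncard
      ≤ (p - 1) * {q : (Fin n → ZMod d) × (Fin n → ZMod d) | K * M.sz X d q.1 q.2 ≤ X.card}.ncard := by
      refine le_trans ?_ (h3.trans ?_)
      · apply Set.ncard_le_ncard _ (Set.toFinite _)
        rintro a ⟨⟨ha1, ha2⟩, ha3⟩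
        exact ⟨ha1 p hp (dvd_mul_left p d), ha2 p hp (dvd_mul_left p d), ha3⟩
      · apply Nat.mul_le_mul_left
        apply Set.ncard_le_ncard _ (Set.toFinite _)
        intro a ha
        have ha' : M.sz X d a.1 a.2 ≤ (p : ℝ) ^ 2 * ε * X.card := ha
        show (K : ℝ) * M.sz X d a.1 a.2 ≤ X.card
        have hK0 : (0 : ℝ) ≤ K := by positivity
        have hX0 : (0 : ℝ) ≤ X.card := by positivity
        calc (K : ℝ) * M.sz X d a.1 a.2 ≤ K * ((p : ℝ) ^ 2 * ε * X.card) :=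
              mul_le_mul_of_nonneg_left ha' hK0
          _ = (K * (p : ℝ) ^ 2 * ε) * X.card := by ring
          _ ≤ 1 * X.card := mul_le_mul_of_nonneg_right hKε hX0
          _ = X.card := one_mul _
    have h7 : (({a : (Fin n → ZMod (d * p)) × (Fin n → ZMod (d * p)) |
      a ∈ {q : (Fin n → ZMod (d * p)) × (Fin n → ZMod (d * p)) |
        Good (d * p) q.1 ∧ Good (d * p) q.2} ∧ M.sz X (d * p) a.1 a.2 ≤ ε * X.card}.ncard : ℕ) : ℝ)
      ≤ (((p - 1) * {q : (Fin n → ZMod d) × (Fin n → ZMod d) |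
        K * M.sz X d q.1 q.2 ≤ X.card}.ncard : ℕ) : ℝ) := by exact_mod_cast h6
    refine h7.trans ?_
    push_cast [Nat.cast_sub hp.one_lt.le]
    exact mul_le_mul_of_nonneg_left h4 (by
      have : (1 : ℝ) ≤ p := by exact_mod_cast hp.one_lt.le
      linarith)
  have h6 : ((p : ℝ) - 1) * (3 ^ 21 * (d : ℝ) ^ (n + k₀) * (2 * (K : ℝ)) ^ (2 * n))
      ≤ ((d * p : ℕ) : ℝ) ^ n := by
    have h7 : (d : ℝ) ^ k₀ ≤ Y ^ (2 * k₀) := by
      rw [pow_mul]
      exact pow_le_pow_left₀ hd0'.le hdY k₀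
    have h8 : (0 : ℝ) ≤ (2 * (K : ℝ)) ^ (2 * n) := by positivity
    calc ((p : ℝ) - 1) * (3 ^ 21 * (d : ℝ) ^ (n + k₀) * (2 * (K : ℝ)) ^ (2 * n))
        ≤ p * (3 ^ 21 * (d : ℝ) ^ (n + k₀) * (2 * (K : ℝ)) ^ (2 * n)) :=
          mul_le_mul_of_nonneg_right (by linarith) (by positivity)
      _ = (d : ℝ) ^ n * ((3 ^ 21 * p) * (d : ℝ) ^ k₀ * (2 * (K : ℝ)) ^ (2 * n)) := by
          rw [pow_add]
          ring
      _ ≤ (d : ℝ) ^ n * ((3 ^ 21 * p) * Y ^ (2 * k₀) * (2 * (K : ℝ)) ^ (2 * n)) := by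
          apply mul_le_mul_of_nonneg_left _ (by positivity)
          apply mul_le_mul_of_nonneg_right _ h8
          exact mul_le_mul_of_nonneg_left h7 (by positivity)
      _ ≤ (d : ℝ) ^ n * (p : ℝ) ^ n := mul_le_mul_of_nonneg_left hbig (by positivity)
      _ = ((d * p : ℕ) : ℝ) ^ n := by
          push_cast
          rw [mul_pow]
  rw [div_le_iff₀ hpdn]
  have h7 : (Nat.card ((Fin n → ZMod (d * p)) × (Fin n → ZMod (d * p))) : ℝ) * c
      ≤ ((d * p : ℕ) : ℝ) ^ n := by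
    rw [hcardall, mul_assoc]
    calc ((d * p : ℕ) : ℝ) ^ n * (((d * p : ℕ) : ℝ) ^ n * c) ≤ ((d * p : ℕ) : ℝ) ^ n * 1 :=
          mul_le_mul_of_nonneg_left h2 hpdn.le
      _ = _ := mul_one _
  linarith

theorem pThreeA (hFirst : StFirst) (hSmall : StSmall) (hUniq : StUniq) : StThreeA := by
  classical
  intro S G _ _ _ _ _ z hzz X hX n N M hn p q K k₀ ε Y hp hinj hp2 hpN hnp hpY hq hq2 hqN hK hε
    h4ε hKε hKq hYq hbig hexp
  have hne : ∀ i j, i ≠ j → Nat.Coprime (p i) (p j) := fun i j hij =>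
    (Nat.coprime_primes (hp i) (hp j)).mpr (fun h => hij (hinj h))
  have hc01 := hne 0 1 (by decide)
  have hc02 := hne 0 2 (by decide)
  have hc12 := hne 1 2 (by decide)
  have hc012 : Nat.Coprime (p 0 * p 1) (p 2) := Nat.Coprime.mul_left hc02 hc12
  set m : ℕ := p 0 * p 1 * p 2 with hm
  have hm0 : m ≠ 0 := mul_ne_zero (mul_ne_zero (hp 0).ne_zero (hp 1).ne_zero) (hp 2).ne_zero
  have hsq : Squarefree m :=
    (Nat.squarefree_mul hc012).mpr ⟨(Nat.squarefree_mul hc01).mpr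
      ⟨(hp 0).squarefree, (hp 1).squarefree⟩, (hp 2).squarefree⟩
  have htot : (m.totient : ℝ) = ∏ i, ((p i : ℝ) - 1) := by
    rw [hm, Nat.totient_mul hc012, Nat.totient_mul hc01, Nat.totient_prime (hp 0),
      Nat.totient_prime (hp 1), Nat.totient_prime (hp 2), Fin.prod_univ_three]
    push_cast [Nat.cast_sub (hp 0).one_lt.le, Nat.cast_sub (hp 1).one_lt.le,
      Nat.cast_sub (hp 2).one_lt.le]
    ring
  have hdiv : m.divisors.card = 8 := by
    rw [hm, Nat.Coprime.card_divisors_mul hc012, Nat.Coprime.card_divisors_mul hc01,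
      (hp 0).divisors, (hp 1).divisors, (hp 2).divisors]
    rw [Finset.card_pair (hp 0).one_lt.ne, Finset.card_pair (hp 1).one_lt.ne,
      Finset.card_pair (hp 2).one_lt.ne]
  have hprime : ∀ r : ℕ, r.Prime → r ∣ m → ∃ i, r = p i := by
    intro r hr hrm
    rw [hm, hr.dvd_mul, hr.dvd_mul] at hrm
    rcases hrm with (h | h) | h
    · exact ⟨0, (Nat.prime_dvd_prime_iff_eq hr (hp 0)).mp h⟩
    · exact ⟨1, (Nat.prime_dvd_prime_iff_eq hr (hp 1)).mp h⟩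
    · exact ⟨2, (Nat.prime_dvd_prime_iff_eq hr (hp 2)).mp h⟩
  have hrest : ∀ (i : Fin 3) (d : ℕ), d * p i ∣ m → (d : ℝ) ≤ Y ^ 2 := by
    intro i d hd
    have key : ∀ a b : Fin 3, d ∣ p a * p b → (d : ℝ) ≤ Y ^ 2 := by
      intro a b hab
      have h1 : d ≤ p a * p b :=
        Nat.le_of_dvd (Nat.mul_pos (hp a).pos (hp b).pos) hab
      have h2 : (d : ℝ) ≤ (p a : ℝ) * p b := by exact_mod_cast h1
      have hb0 : (0 : ℝ) ≤ p b := by positivity
      have ha0 : (0 : ℝ) ≤ p a := by positivity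
      calc (d : ℝ) ≤ (p a : ℝ) * p b := h2
        _ ≤ Y * Y := mul_le_mul (hpY a) (hpY b) hb0 (ha0.trans (hpY a))
        _ = Y ^ 2 := by ring
    fin_cases i
    · apply key 1 2
      apply Nat.dvd_of_mul_dvd_mul_right (hp 0).pos
      have : p 1 * p 2 * p 0 = m := by rw [hm]; ring
      rw [this]
      exact hd
    · apply key 0 2
      apply Nat.dvd_of_mul_dvd_mul_right (hp 1).pos
      have : p 0 * p 2 * p 1 = m := by rw [hm]; ring
      rw [this]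
      exact hd
    · apply key 0 1
      apply Nat.dvd_of_mul_dvd_mul_right (hp 2).pos
      exact hd
  have h1 := hFirst S G z hzz X hX n N M m hsq
  rw [htot] at h1
  refine h1.trans ?_
  rw [mul_comm (15 : ℝ)]
  apply mul_le_mul_of_nonneg_left _ (by positivity)
  -- the term of `1`
  have hone : 1 ∈ m.divisors := Nat.one_mem_divisors.mpr hm0
  rw [← Finset.add_sum_erase _ _ hone]
  have hT1 : (∑ᶠ q ∈ {q : (Fin n → ZMod 1) × (Fin n → ZMod 1) | Good 1 q.1 ∧ Good 1 q.2},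
      ∏ x ∈ X, |Real.cos (2 * Real.pi * M.wf 1 q.1 q.2 x)|) / ((1 : ℕ) : ℝ) ^ n ≤ 1 := by
    rw [Nat.cast_one, one_pow, div_one]
    have h2 := ThreeA_finsum {q : (Fin n → ZMod 1) × (Fin n → ZMod 1) | Good 1 q.1 ∧ Good 1 q.2}
      (fun q => ∏ x ∈ X, |Real.cos (2 * Real.pi * M.wf 1 q.1 q.2 x)|) (fun _ => True) 0 le_rfl
      (fun a _ _ => ThreeA_prod_one M X 1 a.1 a.2) (fun a _ ha => absurd trivial ha)
    refine h2.trans ?_
    rw [mul_zero, add_zero]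
    have h3 : {a : (Fin n → ZMod 1) × (Fin n → ZMod 1) |
        a ∈ {q : (Fin n → ZMod 1) × (Fin n → ZMod 1) | Good 1 q.1 ∧ Good 1 q.2} ∧ True}.ncard
        ≤ 1 := by
      apply (Set.ncard_le_one (Set.toFinite _)).mpr
      intro a _ b _
      exact Subsingleton.elim a b
    exact_mod_cast h3
  have hrestT : ∀ d ∈ m.divisors.erase 1,
      (∑ᶠ q ∈ {q : (Fin n → ZMod d) × (Fin n → ZMod d) | Good d q.1 ∧ Good d q.2},
      ∏ x ∈ X, |Real.cos (2 * Real.pi * M.wf d q.1 q.2 x)|) / (d : ℝ) ^ n ≤ 2 := by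
    intro d hd
    rw [Finset.mem_erase, Nat.mem_divisors] at hd
    obtain ⟨hd1, hdm, -⟩ := hd
    obtain ⟨i, hi⟩ := hprime d.minFac (Nat.minFac_prime hd1) ((Nat.minFac_dvd d).trans hdm)
    have hpid : p i ∣ d := hi ▸ Nat.minFac_dvd d
    obtain ⟨d', rfl⟩ : ∃ d', d = d' * p i := by
      obtain ⟨e, he⟩ := hpid
      exact ⟨e, by rw [he, mul_comm]⟩
    have hd'm : d' ∣ m := (dvd_mul_right d' (p i)).trans hdm
    have hd'0 : d' ≠ 0 := fun h => hm0 (by rw [h] at hd'm; exact Nat.eq_zero_of_zero_dvd hd'm)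
    refine ThreeA_term hSmall hUniq z hzz X hX n N M hn (p i) d' q K k₀ ε Y (hp i) (hp2 i) (hpN i)
      (hpY i) hd'0 ?_ (hsq.squarefree_of_dvd hd'm) ?_ (hrest i d' hdm) hq hq2 hqN hK hε (h4ε i)
      (hKε i) hKq hYq (hbig i) hexp
    · intro h
      have h2 : p i * p i ∣ m := (mul_dvd_mul_right h (p i)).trans hdm
      have h3 := hsq (p i) h2
      exact (hp i).one_lt.ne' (Nat.isUnit_iff.mp h3)
    · intro r hr hrd
      obtain ⟨j, rfl⟩ := hprime r hr (hrd.trans hd'm)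
      exact hnp j
  have h2 := Finset.sum_le_card_nsmul _ _ _ hrestT
  rw [Finset.card_erase_of_mem hone, hdiv, nsmul_eq_mul] at h2
  norm_num at h2
  norm_num at hT1
  norm_num
  linarith

end Pool.Agent.Lib.MP_640417_ag.Full
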