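import Pool.Agent.Lib.MP_640417_ag.Full.SpecB

/-!
# Three primes: choice of the parameters
-/

namespace Pool.Agent.Lib.MP_640417_ag.Full

open Module Finset

private theorem threeNum_prime (t : ℝ) (ht : 2 ≤ t) :
    ∃ p : ℕ, p.Prime ∧ t / 2 < p ∧ (p : ℝ) ≤ t := by
  have h1 : 1 ≤ ⌊t / 2⌋₊ := by
    rw [Nat.one_le_floor_iff]
    linarith
  obtain ⟨p, hp, h2, h3⟩ := Nat.exists_prime_lt_and_le_two_mul ⌊t / 2⌋₊ (by omega)
  refine ⟨p, hp, ?_, ?_⟩
  · have := Nat.lt_floor_add_one (t / 2)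
    have h4 : ((⌊t / 2⌋₊ : ℝ) + 1) ≤ p := by exact_mod_cast h2
    linarith
  · have h4 : (p : ℝ) ≤ 2 * (⌊t / 2⌋₊ : ℝ) := by exact_mod_cast h3
    have h5 : (⌊t / 2⌋₊ : ℝ) ≤ t / 2 := Nat.floor_le (by linarith)
    linarith

theorem pThreeNum : StThreeNum := by
  refine ⟨15 * 4096 + (10 ^ 6) ^ 135, by positivity, ?_⟩
  intro g n N x hn hng hN hx0 hx1 H
  have hn' : (200 : ℝ) ≤ n := by exact_mod_cast hn
  have hg0 : (0 : ℝ) ≤ g := Nat.cast_nonneg g
  set L : ℝ := (g : ℝ) ^ (1 / 100 : ℝ) with hL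
  have hLn : (n : ℝ) ≤ L := hng
  have hL200 : 200 ≤ L := le_trans hn' hLn
  have hLpos : 0 < L := by linarith
  have hLg : L ^ 100 = g := by
    rw [hL, ← Real.rpow_natCast, ← Real.rpow_mul hg0]
    norm_num
  have hgpos : (0 : ℝ) < g := by rw [← hLg]; positivity
  have hLexp : (g : ℝ) ^ (-(27 / 20) : ℝ) = (L ^ 135)⁻¹ := by
    rw [Real.rpow_neg hg0, hL, ← Real.rpow_natCast, ← Real.rpow_mul hg0]
    norm_num
  rw [hLexp]
  -- the case of small `L`
  rcases lt_or_ge L (10 ^ 6) with hsmall | hbig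
  · have h1 : L ^ 135 ≤ (10 ^ 6) ^ 135 := pow_le_pow_left₀ hLpos.le hsmall.le 135
    have h2 : (1 : ℝ) ≤ (15 * 4096 + (10 ^ 6) ^ 135) * (L ^ 135)⁻¹ := by
      rw [← div_eq_mul_inv, le_div_iff₀ (by positivity)]
      have : (0 : ℝ) ≤ 15 * 4096 := by norm_num
      linarith
    exact hx1.trans h2
  -- large `L`
  have hlog1 : 1 ≤ Real.log L := by
    rw [Real.le_log_iff_exp_le hLpos]
    have := Real.exp_one_lt_d9
    linarith
  have hlogpos : 0 < Real.log L := by linarith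
  have hlogL : Real.log L ≤ L := (Real.log_le_sub_one_of_pos hLpos).trans (by linarith)
  -- `25 (log L) ^ 2 + 1 ≤ L`
  have hsq : 25 * Real.log L ^ 2 + 1 ≤ L := by
    set r : ℝ := Real.sqrt (Real.sqrt L) with hr
    have hr0 : 0 ≤ r := Real.sqrt_nonneg _
    have hr4 : r ^ 4 = L := by
      have h1 : r ^ 2 = Real.sqrt L := Real.sq_sqrt (Real.sqrt_nonneg _)
      have h2 : (Real.sqrt L) ^ 2 = L := Real.sq_sqrt hLpos.le
      calc r ^ 4 = (r ^ 2) ^ 2 := by ring
        _ = L := by rw [h1, h2]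
    have hrpos : 0 < r := by
      rcases hr0.eq_or_lt with h | h
      · rw [← h] at hr4; norm_num at hr4; linarith
      · exact h
    have hlog : Real.log L ≤ 4 * r := by
      rw [← hr4, Real.log_pow]
      have := (Real.log_le_sub_one_of_pos hrpos)
      push_cast
      linarith
    have hr31 : 30 ≤ r := by
      by_contra hcon
      push Not at hcon
      have : r ^ 4 < 30 ^ 4 := pow_lt_pow_left₀ hcon hr0 (by norm_num)
      rw [hr4] at this
      norm_num at this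
      linarith
    have h1 : Real.log L ^ 2 ≤ (4 * r) ^ 2 := pow_le_pow_left₀ hlogpos.le hlog 2
    have h2 : 25 * (4 * r) ^ 2 + 1 ≤ r ^ 4 := by
      have h3 : 900 ≤ r ^ 2 := by nlinarith
      nlinarith [sq_nonneg r, sq_nonneg (r ^ 2)]
    linarith
  -- powers of `L`
  have hL1 : 1 ≤ L := by linarith
  have hpw : ∀ a b : ℕ, a ≤ b → L ^ a ≤ L ^ b := fun a b hab => pow_le_pow_right₀ hL1 hab
  -- the primes
  have hY16 : 16 ≤ L ^ 45 := by
    have : L ^ 1 ≤ L ^ 45 := hpw 1 45 (by norm_num)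
    linarith
  obtain ⟨p0, hp0, hp0l, hp0u⟩ := threeNum_prime (L ^ 45 / 4) (by linarith)
  obtain ⟨p1, hp1, hp1l, hp1u⟩ := threeNum_prime (L ^ 45 / 2) (by linarith)
  obtain ⟨p2, hp2, hp2l, hp2u⟩ := threeNum_prime (L ^ 45) (by linarith)
  obtain ⟨q, hq, hql, hqu⟩ := threeNum_prime (L ^ 2) (by nlinarith)
  set p : Fin 3 → ℕ := ![p0, p1, p2] with hp
  have hpprime : ∀ i, (p i).Prime := by
    intro i; fin_cases i <;> simp [hp, hp0, hp1, hp2]
  have hplow : ∀ i, L ^ 45 / 8 < p i := by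
    intro i; fin_cases i
    · simp only [hp]; show L ^ 45 / 8 < (p0 : ℝ); linarith
    · simp only [hp]; show L ^ 45 / 8 < (p1 : ℝ); linarith
    · simp only [hp]; show L ^ 45 / 8 < (p2 : ℝ); linarith
  have hpup : ∀ i, (p i : ℝ) ≤ L ^ 45 := by
    intro i; fin_cases i
    · simp only [hp]; show (p0 : ℝ) ≤ L ^ 45; linarith
    · simp only [hp]; show (p1 : ℝ) ≤ L ^ 45; linarith
    · simp only [hp]; show (p2 : ℝ) ≤ L ^ 45; linarith
  have h01 : p0 < p1 := by
    have : (p0 : ℝ) < p1 := by linarith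
    exact_mod_cast this
  have h12 : p1 < p2 := by
    have : (p1 : ℝ) < p2 := by linarith
    exact_mod_cast this
  have hpinj : Function.Injective p := by
    intro i j hij
    fin_cases i <;> fin_cases j <;> simp [hp] at hij ⊢ <;> omega
  have hL45 : 8 * (L + 2) < L ^ 45 := by
    have h1 : L ^ 2 ≤ L ^ 45 := hpw 2 45 (by norm_num)
    nlinarith
  have hpn1 : ∀ i, n + 1 < p i := by
    intro i
    have h1 := hplow i
    have : ((n + 1 : ℕ) : ℝ) < p i := by push_cast; linarith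
    exact_mod_cast this
  have hqn1 : n + 1 < q := by
    have : ((n + 1 : ℕ) : ℝ) < q := by push_cast; nlinarith
    exact_mod_cast this
  -- the parameters
  set ε : ℝ := 50 * n * Real.log L / L ^ 100 with hε
  have hnpos : (0 : ℝ) < n := by linarith
  have hεpos : 0 < ε := by positivity
  set κ : ℝ := L ^ 10 / (50 * n * Real.log L) with hκ
  have hκpos : 0 < κ := by positivity
  have hκε : κ * ε * (L ^ 45) ^ 2 = 1 := by
    rw [hκ, hε]
    field_simp
  have hKle : (⌊κ⌋₊ : ℝ) ≤ κ := Nat.floor_le hκpos.le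
  have hKge : κ - 1 < ⌊κ⌋₊ := by
    have := Nat.lt_floor_add_one κ
    linarith
  -- lower bound for `κ`
  have hκlow : L ^ 9 / (50 * Real.log L) ≤ κ := by
    rw [hκ, div_le_div_iff₀ (by positivity) (by positivity)]
    have h1 : L ^ 9 * (50 * n * Real.log L) ≤ L ^ 9 * (50 * L * Real.log L) := by
      apply mul_le_mul_of_nonneg_left _ (by positivity)
      apply mul_le_mul_of_nonneg_right _ hlogpos.le
      linarith
    calc L ^ 9 * (50 * n * Real.log L) ≤ L ^ 9 * (50 * L * Real.log L) := h1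
      _ = L ^ 10 * (50 * Real.log L) := by ring
  have hκup : κ ≤ L ^ 10 / 10000 := by
    rw [hκ]
    apply div_le_div_of_nonneg_left (by positivity) (by norm_num)
    nlinarith
  have hκbig : L ^ 8 * Real.log L / 2 + 1 ≤ κ := by
    refine le_trans ?_ hκlow
    rw [le_div_iff₀ (by positivity)]
    have h1 : L ^ 8 * (25 * Real.log L ^ 2 + 1) ≤ L ^ 8 * L :=
      mul_le_mul_of_nonneg_left hsq (by positivity)
    have h2 : 50 * Real.log L ≤ L ^ 8 := by
      have h3 : L ^ 2 ≤ L ^ 8 := hpw 2 8 (by norm_num)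
      nlinarith
    calc (L ^ 8 * Real.log L / 2 + 1) * (50 * Real.log L)
        = L ^ 8 * (25 * Real.log L ^ 2) + 50 * Real.log L := by ring
      _ ≤ L ^ 8 * (25 * Real.log L ^ 2) + L ^ 8 := by linarith
      _ = L ^ 8 * (25 * Real.log L ^ 2 + 1) := by ring
      _ ≤ L ^ 8 * L := h1
      _ = L ^ 9 := by ring
  have hpow8 : 1000 ≤ L ^ 8 := by
    have h3 : L ^ 1 ≤ L ^ 8 := hpw 1 8 (by norm_num)
    linarith
  have hK20 : 20 ≤ ⌊κ⌋₊ := by
    apply Nat.le_floor
    have h3 : 1000 * 1 ≤ L ^ 8 * Real.log L := mul_le_mul hpow8 hlog1 (by norm_num) (by positivity)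
    push_cast
    linarith
  have key := H p q ⌊κ⌋₊ 50 ε (L ^ 45) hpprime hpinj
    (fun i => by have := hpn1 i; omega)
    (fun i => hN (p i) (hpprime i) (hpn1 i))
    (fun i => by have := hpn1 i; omega) hpup hq (by omega) (hN q hq hqn1) hK20 hεpos
    (fun i => by
      have h1 : (p i : ℝ) ^ 2 ≤ (L ^ 45) ^ 2 := pow_le_pow_left₀ (Nat.cast_nonneg _) (hpup i) 2
      have h2 : (n : ℝ) ^ 2 ≤ L ^ 2 := pow_le_pow_left₀ hnpos.le hLn 2
      have h3 : ε * L ^ 90 ≤ 50 * L * L / L ^ 10 := by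
        rw [hε]
        have h4 : 50 * n * Real.log L ≤ 50 * L * L := by
          apply mul_le_mul _ hlogL hlogpos.le (by positivity)
          linarith
        calc 50 * n * Real.log L / L ^ 100 * L ^ 90 = 50 * n * Real.log L / L ^ 10 := by
              field_simp
          _ ≤ 50 * L * L / L ^ 10 := by
              apply div_le_div_of_nonneg_right h4 (by positivity)
      calc 4 * ε * (n : ℝ) ^ 2 * (p i : ℝ) ^ 2 ≤ 4 * ε * L ^ 2 * (L ^ 45) ^ 2 := by
            apply mul_le_mul _ h1 (by positivity) (by positivity)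
            apply mul_le_mul_of_nonneg_left h2 (by positivity)
        _ = 4 * L ^ 2 * (ε * L ^ 90) := by ring
        _ ≤ 4 * L ^ 2 * (50 * L * L / L ^ 10) := mul_le_mul_of_nonneg_left h3 (by positivity)
        _ = 200 / L ^ 6 := by field_simp; ring
        _ < 1 := by
            rw [div_lt_one (by positivity)]
            have h3 : L ^ 1 ≤ L ^ 6 := hpw 1 6 (by norm_num)
            linarith)
    (fun i => by
      have h1 : (p i : ℝ) ^ 2 ≤ (L ^ 45) ^ 2 := pow_le_pow_left₀ (Nat.cast_nonneg _) (hpup i) 2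
      calc (⌊κ⌋₊ : ℝ) * (p i : ℝ) ^ 2 * ε ≤ κ * (L ^ 45) ^ 2 * ε := by
            apply mul_le_mul_of_nonneg_right _ hεpos.le
            apply mul_le_mul hKle h1 (by positivity) hκpos.le
        _ = κ * ε * (L ^ 45) ^ 2 := by ring
        _ = 1 := hκε
        _ ≤ 1 := le_refl _)
    (by
      have h1 : (n : ℝ) ^ 4 ≤ L ^ 4 := pow_le_pow_left₀ hnpos.le hLn 4
      have h2 : (q : ℝ) ^ 2 ≤ (L ^ 2) ^ 2 := pow_le_pow_left₀ (Nat.cast_nonneg _) hqu 2
      have hqpos : (0 : ℝ) < q := by exact_mod_cast hq.pos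
      have h3 : Real.log q ≤ 2 * Real.log L := by
        have := Real.log_le_log hqpos hqu
        rw [Real.log_pow] at this
        push_cast at this
        exact this
      have h4 : 0 ≤ Real.log q := Real.log_nonneg (by exact_mod_cast hq.one_lt.le)
      calc (n : ℝ) ^ 4 * (q : ℝ) ^ 2 * Real.log q ≤ L ^ 4 * (L ^ 2) ^ 2 * (2 * Real.log L) := by
            apply mul_le_mul _ h3 h4 (by positivity)
            apply mul_le_mul h1 h2 (by positivity) (by positivity)
        _ = 4 * (L ^ 8 * Real.log L / 2) := by ring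
        _ ≤ 4 * (κ - 1) := by linarith
        _ ≤ 4 * (⌊κ⌋₊ : ℝ) := by linarith)
    (by
      have h1 : (L ^ 2 / 2) ^ 50 ≤ (q : ℝ) ^ 50 := pow_le_pow_left₀ (by positivity) hql.le 50
      refine le_trans ?_ h1
      have h2 : (200 : ℝ) ^ 10 ≤ L ^ 10 := pow_le_pow_left₀ (by norm_num) hL200 10
      have h3 : (4 : ℝ) * 2 ^ 50 ≤ L ^ 10 := le_trans (by norm_num) h2
      have h4 : (L ^ 2 / 2) ^ 50 = L ^ 10 * L ^ 90 / 2 ^ 50 := by
        rw [div_pow]; ring
      rw [h4, le_div_iff₀ (by positivity)]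
      calc 4 * (L ^ 45) ^ 2 * 2 ^ 50 = (4 * 2 ^ 50) * L ^ 90 := by ring
        _ ≤ L ^ 10 * L ^ 90 := mul_le_mul_of_nonneg_right h3 (by positivity))
    (fun i => by
      have hppos : (0 : ℝ) < p i := by exact_mod_cast (hpprime i).pos
      have h1 : (2 * (⌊κ⌋₊ : ℝ)) ^ (2 * n) ≤ (L ^ 10 / 5000) ^ (2 * n) := by
        apply pow_le_pow_left₀ (by positivity)
        linarith
      have h2 : (L ^ 45 / 8) ^ (n - 1) ≤ (p i : ℝ) ^ (n - 1) :=
        pow_le_pow_left₀ (by positivity) (hplow i).le _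
      have h3 : (p i : ℝ) ^ n = p i * (p i : ℝ) ^ (n - 1) := by
        rw [← pow_succ']
        congr 1
        omega
      rw [h3]
      have h4 : 3 ^ 21 * (L ^ 45) ^ (2 * 50) * (L ^ 10 / 5000) ^ (2 * n)
          ≤ (L ^ 45 / 8) ^ (n - 1) := by
        obtain ⟨k, rfl⟩ : ∃ k, n = k + 200 := ⟨n - 200, by omega⟩
        have e1 : k + 200 - 1 = k + 199 := by omega
        rw [e1, div_pow, div_pow, ← pow_mul, ← pow_mul, ← pow_mul, mul_div_assoc',
          div_le_div_iff₀ (by positivity) (by positivity)]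
        have h5 : (3 : ℝ) ^ 21 * 8 ^ (k + 199) ≤ 5000 ^ (2 * (k + 200)) := by
          have h6 : (3 : ℝ) ^ 21 ≤ 5000 ^ (k + 200) := by
            calc (3 : ℝ) ^ 21 ≤ 5000 ^ 200 := by norm_num
              _ ≤ 5000 ^ (k + 200) := pow_le_pow_right₀ (by norm_num) (by omega)
          have h7 : (8 : ℝ) ^ (k + 199) ≤ 5000 ^ (k + 200) := by
            calc (8 : ℝ) ^ (k + 199) ≤ 8 ^ (k + 200) := pow_le_pow_right₀ (by norm_num) (by omega)
              _ ≤ 5000 ^ (k + 200) := pow_le_pow_left₀ (by norm_num) (by norm_num) _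
          calc (3 : ℝ) ^ 21 * 8 ^ (k + 199) ≤ 5000 ^ (k + 200) * 5000 ^ (k + 200) :=
                mul_le_mul h6 h7 (by positivity) (by positivity)
            _ = 5000 ^ (2 * (k + 200)) := by
                rw [two_mul (k + 200)]
                exact (pow_add _ _ _).symm
        have h8 : L ^ (45 * (2 * 50)) * L ^ (10 * (2 * (k + 200))) ≤ L ^ (45 * (k + 199)) := by
          rw [← pow_add]
          apply hpw
          omega
        calc 3 ^ 21 * L ^ (45 * (2 * 50)) * L ^ (10 * (2 * (k + 200))) * 8 ^ (k + 199)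
            = (3 ^ 21 * 8 ^ (k + 199)) * (L ^ (45 * (2 * 50)) * L ^ (10 * (2 * (k + 200)))) := by
              ring
          _ ≤ 5000 ^ (2 * (k + 200)) * L ^ (45 * (k + 199)) :=
              mul_le_mul h5 h8 (by positivity) (by positivity)
          _ = L ^ (45 * (k + 199)) * 5000 ^ (2 * (k + 200)) := by ring
      calc 3 ^ 21 * (p i : ℝ) * (L ^ 45) ^ (2 * 50) * (2 * (⌊κ⌋₊ : ℝ)) ^ (2 * n)
          = p i * (3 ^ 21 * (L ^ 45) ^ (2 * 50) * (2 * (⌊κ⌋₊ : ℝ)) ^ (2 * n)) := by ring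
        _ ≤ p i * (3 ^ 21 * (L ^ 45) ^ (2 * 50) * (L ^ 10 / 5000) ^ (2 * n)) := by
            apply mul_le_mul_of_nonneg_left _ hppos.le
            apply mul_le_mul_of_nonneg_left h1 (by positivity)
        _ ≤ p i * (p i : ℝ) ^ (n - 1) :=
            mul_le_mul_of_nonneg_left (h4.trans h2) hppos.le)
    (by
      have h1 : 4 * ε * (g : ℝ) = Real.log L * (200 * n : ℕ) := by
        rw [← hLg, hε]
        push_cast
        field_simp
        ring
      rw [h1, Real.exp_mul, Real.exp_log hLpos, Real.rpow_natCast, ← pow_mul]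
      apply hpw
      omega)
  -- conclusion
  have hm : ∀ i, L ^ 45 / 16 ≤ (p i : ℝ) - 1 := by
    intro i
    have := hplow i
    linarith
  have hprod : (L ^ 45 / 16) ^ 3 ≤ ∏ i, ((p i : ℝ) - 1) := by
    have h0 : 0 ≤ L ^ 45 / 16 := by positivity
    rw [Fin.prod_univ_three, pow_three]
    rw [← mul_assoc]
    apply mul_le_mul _ (hm 2) h0 (mul_nonneg (h0.trans (hm 0)) (h0.trans (hm 1)))
    exact mul_le_mul (hm 0) (hm 1) h0 (h0.trans (hm 0))
  have h1 : (L ^ 45 / 16) ^ 3 * x ≤ 15 :=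
    (mul_le_mul_of_nonneg_right hprod hx0).trans key
  have h2 : L ^ 135 * x ≤ 15 * 4096 := by
    have : (L ^ 45 / 16) ^ 3 * x = L ^ 135 * x / 4096 := by ring
    rw [this] at h1
    linarith
  rw [← div_eq_mul_inv, le_div_iff₀ (by positivity)]
  have h3 : (0 : ℝ) ≤ (10 ^ 6) ^ 135 := by positivity
  linarith [mul_comm x (L ^ 135)]

end Pool.Agent.Lib.MP_640417_ag.Full
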