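import Pool.Agent.Lib.MP_640417_ag.Full.SpecA
import Pool.Agent.Lib.MP_640417_ag.Far.Red
import Pool.Agent.Lib.MP_640417_ag.Far.BN
import Pool.Agent.Lib.MP_640417_ag.Far.BNcore
import Pool.Agent.Lib.MP_640417_ag.Far.Tame
import Pool.Agent.Lib.MP_640417_ag.Far.Main

/-!
# Types of small dimension with `e + D - h = 2`
-/

namespace Pool.Agent.Lib.MP_640417_ag.Full

open Module Finset MulAction Pool.Agent.Lib.MP_640417_ag.Far

/-- The numerical part. -/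
lemma two_num (G : ℝ) (hG : 1 ≤ G) (D p h e d : ℕ) (x κ t : ℝ) (hD : 3 ≤ D)
    (hp1 : G ^ (1 / 2 + 1 / (4 * (D : ℝ) ^ 2)) ≤ p)
    (hp2 : (p : ℝ) ≤ 4 * G ^ (1 / 2 + 1 / (4 * (D : ℝ) ^ 2))) (hp3 : 2 ≤ p) (he : e ≤ 2)
    (heq : e + D = h + 2) (hd : d ≤ D ^ 2) (hκ0 : 0 ≤ κ)
    (hκ : p * κ ≤ 1 + p / Real.sqrt (G / (D : ℝ) ^ 2)) (ht0 : 0 ≤ t)
    (ht : ((p : ℝ) - 1) ^ e * t ≤ (p : ℝ) ^ h)
    (hx : (p : ℝ) ^ D * x ≤ t + (1 + 4 * (p : ℝ) ^ (D - 3)) * (p * κ) ^ d) :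
    x ≤ 5 * (G ^ (-1 - 1 / (2 * (D : ℝ) ^ 2)) + (8 * (D : ℝ)) ^ (D ^ 2) * G ^ (-(5 / 4) : ℝ)) := by
  have hG0 : 0 < G := lt_of_lt_of_le one_pos hG
  have hDr : (3 : ℝ) ≤ D := by exact_mod_cast hD
  have hD0 : (0 : ℝ) < D := by linarith
  have hpr : (2 : ℝ) ≤ p := by exact_mod_cast hp3
  have hp0 : (0 : ℝ) < p := by linarith
  set δ : ℝ := 1 / (4 * (D : ℝ) ^ 2) with hδ
  have hδ0 : 0 < δ := by positivity
  -- the number of spaces
  have ht' : t ≤ 4 * (p : ℝ) ^ (h - e) := by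
    have h1 : (p : ℝ) ^ e ≤ 2 ^ e * ((p : ℝ) - 1) ^ e := by
      rw [← mul_pow]
      exact pow_le_pow_left₀ hp0.le (by linarith) e
    have h2 : (2 : ℝ) ^ e ≤ 4 := by
      calc (2 : ℝ) ^ e ≤ 2 ^ 2 := pow_le_pow_right₀ (by norm_num) he
        _ = 4 := by norm_num
    have h3 : (p : ℝ) ^ e * t ≤ (p : ℝ) ^ e * (4 * (p : ℝ) ^ (h - e)) := by
      calc (p : ℝ) ^ e * t ≤ 2 ^ e * ((p : ℝ) - 1) ^ e * t := mul_le_mul_of_nonneg_right h1 ht0
        _ = 2 ^ e * (((p : ℝ) - 1) ^ e * t) := by ring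
        _ ≤ 2 ^ e * (p : ℝ) ^ h := mul_le_mul_of_nonneg_left ht (by positivity)
        _ ≤ 4 * (p : ℝ) ^ h := mul_le_mul_of_nonneg_right h2 (by positivity)
        _ = (p : ℝ) ^ e * (4 * (p : ℝ) ^ (h - e)) := by
            have : (p : ℝ) ^ h = (p : ℝ) ^ e * (p : ℝ) ^ (h - e) := by
              rw [← pow_add]
              congr 1
              omega
            rw [this]
            ring
    exact le_of_mul_le_mul_left h3 (by positivity)
  -- the powers of `p κ`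
  have hGδ1 : 1 ≤ G ^ δ := Real.one_le_rpow hG hδ0.le
  have hbase : p * κ ≤ 5 * D * G ^ δ := by
    have h1 : Real.sqrt (G / (D : ℝ) ^ 2) = G ^ (1 / 2 : ℝ) / D := by
      rw [Real.sqrt_div hG0.le, Real.sqrt_sq hD0.le, Real.sqrt_eq_rpow]
    have h2 : (p : ℝ) / Real.sqrt (G / (D : ℝ) ^ 2) ≤ 4 * D * G ^ δ := by
      rw [h1, div_div_eq_mul_div, div_le_iff₀ (Real.rpow_pos_of_pos hG0 _)]
      calc (p : ℝ) * D ≤ 4 * G ^ (1 / 2 + δ) * D := mul_le_mul_of_nonneg_right hp2 hD0.le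
        _ = 4 * D * G ^ δ * G ^ (1 / 2 : ℝ) := by
            rw [Real.rpow_add hG0]
            ring
    have h3 : (1 : ℝ) ≤ D * G ^ δ := by nlinarith
    linarith
  have hpow : (p * κ) ^ d ≤ (5 * (D : ℝ)) ^ (D ^ 2) * G ^ (1 / 4 : ℝ) := by
    have h1 : (1 : ℝ) ≤ 5 * D * G ^ δ := by nlinarith
    calc (p * κ) ^ d ≤ (5 * D * G ^ δ) ^ d := pow_le_pow_left₀ (by positivity) hbase d
      _ ≤ (5 * D * G ^ δ) ^ (D ^ 2) := pow_le_pow_right₀ h1 hd
      _ = (5 * (D : ℝ)) ^ (D ^ 2) * G ^ (1 / 4 : ℝ) := by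
          rw [mul_pow, ← Real.rpow_natCast (G ^ δ), ← Real.rpow_mul hG0.le]
          congr 2
          rw [hδ]
          push_cast
          field_simp
  have hm : 1 + 4 * (p : ℝ) ^ (D - 3) ≤ 5 * (p : ℝ) ^ (D - 3) := by
    have : (1 : ℝ) ≤ (p : ℝ) ^ (D - 3) := one_le_pow₀ (by linarith)
    linarith
  set Q : ℝ := (5 * (D : ℝ)) ^ (D ^ 2) * G ^ (1 / 4 : ℝ) with hQ
  have hQ0 : 0 ≤ Q := by positivity
  have hx2 : (p : ℝ) ^ D * x ≤ 4 * (p : ℝ) ^ (h - e) + 5 * (p : ℝ) ^ (D - 3) * Q := by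
    refine hx.trans (add_le_add ht' ?_)
    exact mul_le_mul hm hpow (by positivity) (by positivity)
  have hx3 : x ≤ 4 / (p : ℝ) ^ 2 + 5 * Q / (p : ℝ) ^ 3 := by
    have e1 : (p : ℝ) ^ D * (4 / (p : ℝ) ^ 2) = 4 * (p : ℝ) ^ (h - e) := by
      have : (p : ℝ) ^ D = (p : ℝ) ^ 2 * (p : ℝ) ^ (h - e) := by
        rw [← pow_add]
        congr 1
        omega
      rw [this]
      field_simp
    have e2 : (p : ℝ) ^ D * (5 * Q / (p : ℝ) ^ 3) = 5 * (p : ℝ) ^ (D - 3) * Q := by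
      have : (p : ℝ) ^ D = (p : ℝ) ^ 3 * (p : ℝ) ^ (D - 3) := by
        rw [← pow_add]
        congr 1
        omega
      rw [this]
      field_simp
    have h1 : (p : ℝ) ^ D * x ≤ (p : ℝ) ^ D * (4 / (p : ℝ) ^ 2 + 5 * Q / (p : ℝ) ^ 3) := by
      rw [mul_add, e1, e2]
      exact hx2
    exact le_of_mul_le_mul_left h1 (by positivity)
  -- the two terms
  have hP0 : 0 < G ^ (1 / 2 + δ) := Real.rpow_pos_of_pos hG0 _
  have t1 : 4 / (p : ℝ) ^ 2 ≤ 4 * G ^ (-1 - 1 / (2 * (D : ℝ) ^ 2)) := by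
    have h1 : G ^ (-1 - 1 / (2 * (D : ℝ) ^ 2)) = ((G ^ (1 / 2 + δ)) ^ 2)⁻¹ := by
      rw [← Real.rpow_natCast (G ^ (1 / 2 + δ)), ← Real.rpow_mul hG0.le, ← Real.rpow_neg hG0.le]
      congr 1
      rw [hδ]
      push_cast
      field_simp
      ring
    rw [h1, div_eq_mul_inv]
    refine mul_le_mul_of_nonneg_left ?_ (by norm_num)
    exact inv_anti₀ (by positivity) (pow_le_pow_left₀ hP0.le hp1 2)
  have t2 : 5 * Q / (p : ℝ) ^ 3 ≤ 5 * ((8 * (D : ℝ)) ^ (D ^ 2) * G ^ (-(5 / 4) : ℝ)) := by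
    have h1 : G ^ (3 / 2 : ℝ) ≤ (p : ℝ) ^ 3 := by
      have h2 : G ^ (1 / 2 : ℝ) ≤ p := by
        refine le_trans ?_ hp1
        exact Real.rpow_le_rpow_of_exponent_le hG (by linarith)
      have h3 : G ^ (3 / 2 : ℝ) = (G ^ (1 / 2 : ℝ)) ^ 3 := by
        rw [← Real.rpow_natCast (G ^ (1 / 2 : ℝ)), ← Real.rpow_mul hG0.le]
        norm_num
      rw [h3]
      exact pow_le_pow_left₀ (Real.rpow_nonneg hG0.le _) h2 3
    have h4 : (0 : ℝ) < G ^ (3 / 2 : ℝ) := Real.rpow_pos_of_pos hG0 _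
    have h5 : 5 * Q / (p : ℝ) ^ 3 ≤ 5 * Q / G ^ (3 / 2 : ℝ) :=
      div_le_div_of_nonneg_left (by positivity) h4 h1
    refine h5.trans ?_
    have h6 : 5 * Q / G ^ (3 / 2 : ℝ) = 5 * ((5 * (D : ℝ)) ^ (D ^ 2) * G ^ (-(5 / 4) : ℝ)) := by
      rw [hQ, mul_div_assoc, mul_div_assoc, ← Real.rpow_sub hG0]
      norm_num
    rw [h6]
    refine mul_le_mul_of_nonneg_left ?_ (by norm_num)
    refine mul_le_mul_of_nonneg_right ?_ (Real.rpow_nonneg hG0.le _)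
    exact pow_le_pow_left₀ (by positivity) (by nlinarith) _
  have hnn : 0 ≤ G ^ (-1 - 1 / (2 * (D : ℝ) ^ 2)) := Real.rpow_nonneg hG0.le _
  linarith

/-- Large `g`. -/
lemma two_large (g D : ℕ) (hD : 3 ≤ D) (h : (8 * (D : ℝ)) ^ (D ^ 2) < (g : ℝ) ^ (5 / 4 : ℝ)) :
    (8 * D) ^ 4 ≤ g := by
  have hDr : (3 : ℝ) ≤ D := by exact_mod_cast hD
  by_contra hcon
  push Not at hcon
  have hg : (g : ℝ) ≤ (8 * (D : ℝ)) ^ 4 := by exact_mod_cast hcon.le
  have h1 : (g : ℝ) ^ (5 / 4 : ℝ) ≤ (8 * (D : ℝ)) ^ 5 := by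
    calc (g : ℝ) ^ (5 / 4 : ℝ) ≤ ((8 * (D : ℝ)) ^ 4) ^ (5 / 4 : ℝ) :=
          Real.rpow_le_rpow (by positivity) hg (by norm_num)
      _ = (8 * (D : ℝ)) ^ 5 := by
          rw [← Real.rpow_natCast (8 * (D : ℝ)) 4, ← Real.rpow_mul (by positivity),
            ← Real.rpow_natCast (8 * (D : ℝ)) 5]
          norm_num
  have h2 : (8 * (D : ℝ)) ^ 5 ≤ (8 * (D : ℝ)) ^ (D ^ 2) :=
    pow_le_pow_right₀ (by linarith) (by nlinarith)
  linarith

/-- A suitable prime. -/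
lemma two_prime (P : ℝ) (hP : 1 ≤ P) : ∃ p : ℕ, p.Prime ∧ P < p ∧ (p : ℝ) ≤ 4 * P := by
  have h0 : ⌈P⌉₊ ≠ 0 := by
    have : 0 < ⌈P⌉₊ := Nat.ceil_pos.mpr (by linarith)
    omega
  obtain ⟨p, hp, h1, h2⟩ := Nat.exists_prime_lt_and_le_two_mul ⌈P⌉₊ h0
  refine ⟨p, hp, ?_, ?_⟩
  · exact lt_of_le_of_lt (Nat.le_ceil P) (by exact_mod_cast h1)
  · have h3 : (p : ℝ) ≤ 2 * (⌈P⌉₊ : ℝ) := by exact_mod_cast h2
    have h4 : (⌈P⌉₊ : ℝ) < P + 1 := Nat.ceil_lt_add_one (by linarith)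
    linarith

lemma two_stab_iSup {S G : Type} [Fintype S] [Group G] [MulAction G S] {p : ℕ}
    [Fact p.Prime] (T : Set (Submodule (ZMod p) (S → ZMod p))) (hT : ∀ M ∈ T, IsStab G M) :
    IsStab G (⨆ M ∈ T, M) := by
  intro f hf γ
  let τ : (S → ZMod p) →ₗ[ZMod p] (S → ZMod p) := LinearMap.funLeft (ZMod p) (ZMod p) (fun s => γ • s)
  have h1 : (⨆ M ∈ T, M) ≤ (⨆ M ∈ T, M).comap τ := by
    refine iSup₂_le fun M hM x hx => ?_
    exact (le_iSup₂ (f := fun (M : Submodule (ZMod p) (S → ZMod p)) (_ : M ∈ T) => M) M hM)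
      (hT M hM x hx γ)
  exact h1 hf

lemma two_odd_iSup {S G : Type} [Fintype S] [Group G] [MulAction G S] {p : ℕ} (z : G)
    [Fact p.Prime] (T : Set (Submodule (ZMod p) (S → ZMod p))) (hT : ∀ M ∈ T, IsOddSp z M) :
    IsOddSp z (⨆ M ∈ T, M) := by
  let O : Submodule (ZMod p) (S → ZMod p) :=
    { carrier := {w | ∀ s, w (z • s) = - w s}
      add_mem' := by
        intro a b ha hb s
        simp only [Pi.add_apply, ha s, hb s]; ring
      zero_mem' := by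
        intro s; simp
      smul_mem' := by
        intro r a ha s
        simp only [Pi.smul_apply, smul_eq_mul, ha s]; ring }
  have h1 : (⨆ M ∈ T, M) ≤ O := iSup₂_le fun M hM x hx => hT M hM x hx
  intro f hf
  exact h1 hf

theorem pTwo (hCountE : StCountE) (hOneDim : StOneDim) (hCopies : StCopies) (hSpan : StSpan)
    (hFour : StFour) (hKappa : StKappa) : StTwo := by
  refine ⟨5, by norm_num, ?_⟩
  intro S G _ _ _ _ _ s₀ z hzz X hX U hU hodd hD he heq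
  classical
  set D : ℕ := finrank ℚ U with hDdef
  set h : ℕ := finrank ℚ ↥(U ⊓ invF ℚ (stabilizer G s₀)) with hhdef
  set e : ℕ := finrank ℚ (endF G U) with hedef
  set g : ℕ := X.card with hg
  have hUst : IsStab G U := hU.2.1
  have hU0 : U ≠ ⊥ := hU.1
  have hhD : h ≤ D := Submodule.finrank_mono inf_le_left
  have he2 : e ≤ 2 := by omega
  have hg1 : 1 ≤ g := by
    rw [hg, Nat.one_le_iff_ne_zero, Finset.card_ne_zero]
    by_cases hs : s₀ ∈ X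
    · exact ⟨s₀, hs⟩
    · refine ⟨z • s₀, ?_⟩
      by_contra h1
      exact hs ((hX s₀).mpr h1)
  have hG : (1 : ℝ) ≤ (g : ℝ) := by exact_mod_cast hg1
  have hG0 : (0 : ℝ) < (g : ℝ) := by linarith
  have hDr : (3 : ℝ) ≤ D := by exact_mod_cast hD
  have hbad1 : ((badSet z U).ncard : ℝ) ≤ 2 ^ g := by
    have := ncard_isSgn_le (G := G) z hzz X hX
      (fun e => ∃ U' : Submodule ℚ (S → ℚ), IsStab G U' ∧ IsoF G U U' ∧ Perp e U')
    exact_mod_cast this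
  have hpow2 : (0 : ℝ) < 2 ^ g := by positivity
  by_cases hcase : (g : ℝ) ^ (5 / 4 : ℝ) ≤ (8 * (D : ℝ)) ^ (D ^ 2)
  · -- trivial case
    have h1 : (1 : ℝ) ≤ (8 * (D : ℝ)) ^ (D ^ 2) * (g : ℝ) ^ (-(5 / 4) : ℝ) := by
      rw [Real.rpow_neg hG0.le, ← div_eq_mul_inv, one_le_div (Real.rpow_pos_of_pos hG0 _)]
      exact hcase
    have h2 : 0 ≤ (g : ℝ) ^ (-1 - 1 / (2 * (D : ℝ) ^ 2)) := Real.rpow_nonneg hG0.le _
    calc ((badSet z U).ncard : ℝ) ≤ 1 * 2 ^ g := by rw [one_mul]; exact hbad1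
      _ ≤ _ := mul_le_mul_of_nonneg_right (by linarith) hpow2.le
  · push Not at hcase
    have hlarge := two_large g D hD hcase
    have hlr : (8 * (D : ℝ)) ^ 4 ≤ g := by exact_mod_cast hlarge
    -- the prime
    set P : ℝ := (g : ℝ) ^ (1 / 2 + 1 / (4 * (D : ℝ) ^ 2)) with hP
    have hδ0 : (0 : ℝ) < 1 / (4 * (D : ℝ) ^ 2) := by positivity
    have hPhalf : (g : ℝ) ^ (1 / 2 : ℝ) ≤ P :=
      Real.rpow_le_rpow_of_exponent_le hG (by linarith)
    have hsq : (8 * (D : ℝ)) ^ 2 ≤ (g : ℝ) ^ (1 / 2 : ℝ) := by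
      rw [← Real.sqrt_eq_rpow]
      apply Real.le_sqrt_of_sq_le
      calc ((8 * (D : ℝ)) ^ 2) ^ 2 = (8 * (D : ℝ)) ^ 4 := by ring
        _ ≤ (g : ℝ) := hlr
    have hP1 : 1 ≤ P := by nlinarith
    obtain ⟨p, hpp, hpP, hp4⟩ := two_prime P hP1
    have hpD : D + 1 < p := by
      have h1 : ((D + 1 : ℕ) : ℝ) < p := by
        push_cast
        nlinarith
      exact_mod_cast h1
    have : Fact p.Prime := ⟨hpp⟩
    have hp2 : p ≠ 2 := by omega
    have hpN : ¬ p ∣ (kerSub G U).index := tame S G U hUst p hpp hpD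
    have hred : finrank (ZMod p) (red p U) = D := red_rank S p U
    set T : Set (Submodule (ZMod p) (S → ZMod p)) := copies G (red p U) with hT
    set I : Submodule (ZMod p) (S → ZMod p) := ⨆ M ∈ T, M with hI
    have hTst : ∀ M ∈ T, IsStab G M := fun M hM => hM.1
    have hTrk : ∀ M ∈ T, finrank (ZMod p) M = D := by
      rintro M ⟨-, hM⟩
      rw [← hM.finrank_eq]
      exact hred
    have hTodd : ∀ M ∈ T, IsOddSp z M := by
      rintro M ⟨-, hM⟩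
      exact hM.odd z (red_odd p z U hodd)
    have hTI : ∀ M ∈ T, M ≤ I := fun M hM =>
      le_iSup₂ (f := fun (M : Submodule (ZMod p) (S → ZMod p)) (_ : M ∈ T) => M) M hM
    have hIst : IsStab G I := two_stab_iSup T hTst
    have hIodd : IsOddSp z I := two_odd_iSup z T hTodd
    have hId : finrank (ZMod p) I ≤ D ^ 2 := by
      have h1 := hSpan S G s₀ p U hUst hpN
      calc finrank (ZMod p) I ≤ D * h := h1
        _ ≤ D * D := Nat.mul_le_mul_left _ hhD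
        _ = D ^ 2 := by ring
    -- the number of copies
    have hcount : ((p : ℝ) - 1) ^ e * (T.ncard : ℝ) ≤ (p : ℝ) ^ h := by
      have h1 := hCountE S G s₀ p U hU0 hUst hpN
      have h4 : (((p - 1) ^ e * T.ncard : ℕ) : ℝ) ≤ ((p ^ h : ℕ) : ℝ) := by exact_mod_cast h1
      push_cast [Nat.cast_sub hpp.one_lt.le] at h4
      exact h4
    -- copies through a function
    have hcop : ∀ w : S → ZMod p, w ≠ 0 → {M | M ∈ T ∧ w ∈ M}.ncard ≤ 1 + 4 * p ^ (D - 3) := by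
      refine hCopies S G s₀ p U hUst hpN hD he2 ?_
      intro W hW0 hWle hWst
      by_contra hcon
      push Not at hcon
      have hpos : 0 < finrank (ZMod p) W := by
        have : Nontrivial W := Submodule.nontrivial_iff_ne_bot.mpr hW0
        exact Module.finrank_pos
      have hone : finrank (ZMod p) W = 1 := by omega
      obtain ⟨w, hw0, hw⟩ := finrank_eq_one_iff'.1 hone
      have hw0' : w.1 ≠ 0 := fun h => hw0 (Subtype.ext h)
      have := hOneDim S G p U hU hpN w.1 (hWle w.2) hw0' (by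
        intro γ
        obtain ⟨c, hc⟩ := hw ⟨_, hWst _ w.2 γ⟩
        refine ⟨c, fun s => ?_⟩
        have h1 := congrArg (fun y : W => y.1 s) hc
        exact h1.symm)
      omega
    -- the Fourier bound
    set a : ℝ := (g : ℝ) / (D : ℝ) ^ 2 with ha
    have ha0 : 0 < a := by positivity
    have hfour := hFour S G z hzz X hX p hp2 T I D (1 + 4 * p ^ (D - 3)) a
      (fun M hM => ⟨hTst M hM, hTrk M hM, hTI M hM⟩) hIst hIodd hcop ha0.le (by
        have h1 : (finrank (ZMod p) I : ℝ) ≤ (D : ℝ) ^ 2 := by exact_mod_cast hId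
        calc a * (finrank (ZMod p) I : ℝ) ≤ a * (D : ℝ) ^ 2 :=
              mul_le_mul_of_nonneg_left h1 ha0.le
          _ = g := by
              rw [ha]
              field_simp)
    have hsub : badSet z U ⊆ {e : S → ℤ | IsSgn z e ∧ ∃ M ∈ T, Perp e M} := by
      rintro e ⟨he, U', hU', hiso, hperp⟩
      have hBN : StBN := bn_of_core bnCore red_rank
      exact ⟨he, red p U', ⟨red_stab p U' hU', hBN S G p U U' hUst hU' hiso hpN⟩,
        red_perp p e U' hperp⟩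
    have hle : ((badSet z U).ncard : ℝ)
        ≤ ({e : S → ℤ | IsSgn z e ∧ ∃ M ∈ T, Perp e M}.ncard : ℝ) := by
      exact_mod_cast Set.ncard_le_ncard hsub (finite_isSgn z _)
    have hkap := (hKappa p hp2).2 a ha0
    have hnum := two_num g hG D p h e (finrank (ZMod p) I) ((badSet z U).ncard / 2 ^ g)
      (cosAvg p a) T.ncard hD hpP.le hp4 hpp.two_le he2 heq hId (cosAvg_nonneg a) hkap
      (by positivity) hcount (by
        rw [mul_div_assoc', div_le_iff₀ hpow2]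
        calc (p : ℝ) ^ D * ((badSet z U).ncard : ℝ)
            ≤ (p : ℝ) ^ D * ({e : S → ℤ | IsSgn z e ∧ ∃ M ∈ T, Perp e M}.ncard : ℝ) :=
              mul_le_mul_of_nonneg_left hle (by positivity)
          _ ≤ _ := hfour
          _ = _ := by
              push_cast
              ring)
    rw [div_le_iff₀ hpow2] at hnum
    exact hnum

end Pool.Agent.Lib.MP_640417_ag.Full
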