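import Pool.Agent.Lib.MP_640417_ag.Full.SpecB
import Pool.Agent.Lib.MP_640417_ag.All.NumB
import Pool.Agent.Lib.MP_640417_ag.All.TwoMain
import Pool.Agent.Lib.MP_640417_ag.All.Basic

/-!
# Larger degrees: two primes
-/

set_option autoImplicit false

namespace Pool.Agent.Lib.MP_640417_ag.Full

open Module Finset Matrix MulAction Pool.Agent.Lib.MP_640417_ag.OddGal
  Pool.Agent.Lib.MP_640417_ag.All Pool.Agent.Lib.MP_640417_ag.Far

section onePrime

variable {G X : Type} [Group G] [Fintype G] [Fintype X] {c : G} {τ : X → G} {κ : ℕ}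

/-- A primitive integral row vector killed by a singular matrix. -/
private theorem tp_primitive {n : ℕ} {M : Matrix (Fin n) (Fin n) ℤ} (hM : M.det = 0) :
    ∃ z : Fin n → ℤ, z ᵥ* M = 0 ∧ ∀ p : ℕ, p.Prime → (fun i => ((z i : ℤ) : ZMod p)) ≠ 0 := by
  obtain ⟨y, hy0, hy⟩ := Matrix.exists_vecMul_eq_zero_iff.mpr hM
  obtain ⟨i0, hi0⟩ : ∃ i, y i ≠ 0 := by
    by_contra hcon
    push Not at hcon
    exact hy0 (funext hcon)
  obtain ⟨z, hz, hz1⟩ := Finset.extract_gcd y (s := Finset.univ) ⟨i0, Finset.mem_univ _⟩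
  have hg : Finset.univ.gcd y ≠ 0 := by
    intro h
    rw [Finset.gcd_eq_zero_iff] at h
    exact hi0 (h i0 (Finset.mem_univ _))
  refine ⟨z, ?_, ?_⟩
  · have h1 : y = Finset.univ.gcd y • z := funext fun i => hz i (Finset.mem_univ _)
    rw [h1, Matrix.smul_vecMul] at hy
    exact (smul_eq_zero.mp hy).resolve_left hg
  · intro p hp h0
    have h1 : (p : ℤ) ∣ Finset.univ.gcd z := by
      apply Finset.dvd_gcd
      intro i _
      rw [← ZMod.intCast_zmod_eq_zero_iff_dvd]
      exact congrFun h0 i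
    rw [hz1] at h1
    exact hp.one_lt.ne' (by exact_mod_cast Int.eq_one_of_dvd_one (by positivity) h1)

omit [Fintype G] in
/-- The reduction of a relation. -/
private theorem tp_rel {n : ℕ} (ρ : G →* Matrix (Fin n) (Fin n) ℤ) (τ : X → G) (p : ℕ)
    {ε : X → ℤ} {z : Fin n → ℤ} (hz : z ᵥ* (∑ x, ε x • ρ (τ x)) = 0) (α : ZMod p) :
    ∑ x, ((ε x : ℤ) : ZMod p) • ((α • fun i => ((z i : ℤ) : ZMod p)) ᵥ* redM p (ρ (τ x))) = 0 := by
  have h1 : ∀ x, ((ε x : ℤ) : ZMod p) • ((α • fun i => ((z i : ℤ) : ZMod p)) ᵥ*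
      redM p (ρ (τ x))) = α • fun j => ((ε x * (z ᵥ* ρ (τ x)) j : ℤ) : ZMod p) := by
    intro x
    funext j
    rw [Matrix.smul_vecMul]
    simp only [Pi.smul_apply, smul_eq_mul, Matrix.vecMul, dotProduct, redM, Matrix.map_apply]
    push_cast
    ring
  simp only [h1]
  rw [← Finset.smul_sum]
  have h2 : (∑ x, fun j => ((ε x * (z ᵥ* ρ (τ x)) j : ℤ) : ZMod p)) = 0 := by
    funext j
    rw [Finset.sum_apply]
    have h3 := congrFun hz j
    rw [Matrix.vecMul_sum, Finset.sum_apply] at h3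
    have h4 : ∀ x, (z ᵥ* (ε x • ρ (τ x))) j = ε x * (z ᵥ* ρ (τ x)) j := by
      intro x
      rw [Matrix.vecMul_smul]
      rfl
    simp only [h4] at h3
    rw [← Int.cast_sum, h3, Pi.zero_apply, Pi.zero_apply, Int.cast_zero]
  rw [h2, smul_zero]

omit [Fintype G] [Group G] in
private theorem tp_mem_relSet {p : ℕ} [Fact p.Prime] {S : Type} [AddCommGroup S]
    [Module (ZMod p) S] [Fintype S] (w : X → S) (ε : X → ℤ) :
    ε ∈ relSet p w ↔ ε ∈ signs X ∧ ∑ h, ((ε h : ℤ) : ZMod p) • w h = 0 := by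
  classical
  simp only [relSet, Finset.mem_filter]

open Classical in
omit [Fintype G] in
/-- Row vectors killed by a singular matrix. -/
private theorem tp_card_sing {n : ℕ} (ρ : G →* Matrix (Fin n) (Fin n) ℤ) (τ : X → G) (p : ℕ)
    [Fact p.Prime] :
    (singX ρ τ).card * (p - 1) ≤
      ∑ v ∈ (Finset.univ : Finset (Fin n → ZMod p)).filter (fun v => v ≠ 0),
          (relSet p (fun x => v ᵥ* redM p (ρ (τ x)))).card := by
  have hz : ∀ ε : X → ℤ, ∃ z : Fin n → ℤ, ε ∈ singX ρ τ → z ᵥ* (∑ x, ε x • ρ (τ x)) = 0 ∧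
      ∀ p : ℕ, p.Prime → (fun i => ((z i : ℤ) : ZMod p)) ≠ 0 := by
    intro ε
    by_cases hε : ε ∈ singX ρ τ
    · obtain ⟨z, h1, h2⟩ := tp_primitive (Finset.mem_filter.mp hε).2
      exact ⟨z, fun _ => ⟨h1, h2⟩⟩
    · exact ⟨0, fun h => absurd h hε⟩
  choose z hz using hz
  set V := (Finset.univ : Finset (Fin n → ZMod p)).filter (fun v => v ≠ 0) with hV
  have hL : (singX ρ τ).card * (p - 1) =
      (singX ρ τ ×ˢ (Finset.univ : Finset (ZMod p)ˣ)).card := by
    rw [Finset.card_product, Finset.card_univ, ZMod.card_units]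
  have hR : ∑ v ∈ V, (relSet p (fun x => v ᵥ* redM p (ρ (τ x)))).card =
      (V.sigma (fun q => relSet p (fun x => q ᵥ* redM p (ρ (τ x))))).card := by
    rw [Finset.card_sigma]
  rw [hL, hR]
  refine Finset.card_le_card_of_injOn (fun t => ⟨(t.2 : ZMod p) • fun i =>
    ((z t.1 i : ℤ) : ZMod p), t.1⟩) ?_ ?_
  · rintro ⟨ε, α⟩ ht
    rw [Finset.mem_coe, Finset.mem_product] at ht
    obtain ⟨h1, h2⟩ := hz ε ht.1
    rw [Finset.mem_coe, Finset.mem_sigma]
    refine ⟨Finset.mem_filter.mpr ⟨Finset.mem_univ _, smul_ne_zero α.ne_zero (h2 p Fact.out)⟩, ?_⟩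
    rw [tp_mem_relSet]
    exact ⟨(Finset.mem_filter.mp ht.1).1, tp_rel ρ τ p h1 _⟩
  · rintro ⟨ε, α⟩ ht ⟨ε', α'⟩ ht' heq
    rw [Finset.mem_coe, Finset.mem_product] at ht ht'
    simp only [Sigma.mk.injEq] at heq
    obtain ⟨h1, h3⟩ := heq
    have h3' : ε = ε' := eq_of_heq h3
    subst h3'
    obtain ⟨-, h4⟩ := hz ε ht.1
    have e1 : α = α' := by
      apply Units.ext
      have h5 : ((α : ZMod p) - (α' : ZMod p)) • (fun i => ((z ε i : ℤ) : ZMod p)) = 0 := by
        rw [sub_smul, h1, sub_self]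
      exact sub_eq_zero.mp ((smul_eq_zero.mp h5).resolve_right (h4 p Fact.out))
    rw [e1]

/-- The one-prime bound. -/
private theorem tp_onePrime (hc : Cover c τ κ) {n : ℕ} {ρ : G →* Matrix (Fin n) (Fin n) ℤ}
    (hρ : Rep c n ρ) (p : ℕ) [hp1 : Fact p.Prime] (hp2 : p ≠ 2) (hp : ¬ p ∣ Fintype.card G)
    (t : ℕ) (ht : n * t ≤ Fintype.card X)
    (hnum : 4 * n * Real.exp (-(2 * (t : ℝ) / p ^ 2)) ≤ 1) :
    ((singX ρ τ).card : ℝ) * ((p : ℝ) - 1) ≤ 3 * 2 ^ Fintype.card X := by
  classical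
  have hfin : Finite (Dual (ZMod p) (Fin n → ZMod p)) := Module.finite_of_finite (ZMod p)
  have hft : Fintype (Dual (ZMod p) (Fin n → ZMod p)) := Fintype.ofFinite _
  have hcard : Fintype.card (Dual (ZMod p) (Fin n → ZMod p)) = p ^ n := by
    rw [← Fintype.card_congr (dotProductEquiv (ZMod p) (Fin n)).toEquiv, Fintype.card_fun,
      ZMod.card, Fintype.card_fin]
  have hpn : (0 : ℝ) < (p : ℝ) ^ n := by
    have : (0 : ℝ) < p := by exact_mod_cast hp1.out.pos
    positivity
  have h1 : ∀ v : Fin n → ZMod p, v ≠ 0 →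
      ((relSet p (fun x => v ᵥ* redM p (ρ (τ x)))).card : ℝ) * (p : ℝ) ^ n ≤
        2 ^ Fintype.card X * 3 := by
    intro v hv
    have h2 := card_relSet_mul_le (p := p) (fun x => v ᵥ* redM p (ρ (τ x)))
    rw [hcard] at h2
    push_cast at h2
    refine h2.trans ?_
    apply mul_le_mul_of_nonneg_left _ (by positivity)
    refine le_trans (le_of_eq ?_) (sum_row_cs_le hc hρ p hp2 hp v hv t ht hnum)
    symm
    refine Fintype.sum_equiv (dotProductEquiv (ZMod p) (Fin n)).toEquiv _ _ ?_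
    intro u
    refine Finset.prod_congr rfl (fun x _ => ?_)
    have h3 : (dotProductEquiv (ZMod p) (Fin n)).toEquiv u (v ᵥ* redM p (ρ (τ x)))
        = u ⬝ᵥ (v ᵥ* redM p (ρ (τ x))) := rfl
    rw [h3, dotProduct_comm]
  have h2 := tp_card_sing ρ τ p
  have h3 : ((singX ρ τ).card : ℝ) * ((p : ℝ) - 1) ≤
      ∑ v ∈ (Finset.univ : Finset (Fin n → ZMod p)).filter (fun v => v ≠ 0),
          ((relSet p (fun x => v ᵥ* redM p (ρ (τ x)))).card : ℝ) := by
    have h4 : (((singX ρ τ).card * (p - 1) : ℕ) : ℝ) ≤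
      ((∑ v ∈ (Finset.univ : Finset (Fin n → ZMod p)).filter (fun v => v ≠ 0),
          (relSet p (fun x => v ᵥ* redM p (ρ (τ x)))).card : ℕ) : ℝ) := by exact_mod_cast h2
    push_cast [Nat.cast_sub hp1.out.one_lt.le] at h4
    exact h4
  refine h3.trans ?_
  have h5 : ∑ v ∈ (Finset.univ : Finset (Fin n → ZMod p)).filter (fun v => v ≠ 0),
          ((relSet p (fun x => v ᵥ* redM p (ρ (τ x)))).card : ℝ) ≤
      ∑ _v ∈ (Finset.univ : Finset (Fin n → ZMod p)).filter (fun v => v ≠ 0),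
        (2 ^ Fintype.card X * 3) / (p : ℝ) ^ n := by
    refine Finset.sum_le_sum fun v hv => ?_
    rw [le_div_iff₀ hpn]
    exact h1 v (Finset.mem_filter.mp hv).2
  refine h5.trans ?_
  rw [Finset.sum_const, nsmul_eq_mul]
  have h6 : (((Finset.univ : Finset (Fin n → ZMod p)).filter (fun v => v ≠ 0)).card : ℝ) ≤
      (p : ℝ) ^ n := by
    have h7 : ((Finset.univ : Finset (Fin n → ZMod p)).filter (fun v => v ≠ 0)).card ≤ p ^ n := by
      refine (Finset.card_filter_le _ _).trans (le_of_eq ?_)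
      rw [Finset.card_univ, Fintype.card_fun, ZMod.card, Fintype.card_fin]
    exact_mod_cast h7
  calc _ ≤ (p : ℝ) ^ n * ((2 ^ Fintype.card X * 3) / (p : ℝ) ^ n) := by gcongr
    _ = 3 * 2 ^ Fintype.card X := by
      field_simp

end onePrime

private theorem tp_mem_signs {H : Type} [Fintype H] {ε : H → ℤ} :
    ε ∈ signs H ↔ ∀ x, ε x = 1 ∨ ε x = -1 := by
  classical
  rw [signs, Fintype.mem_piFinset]
  simp

private theorem tp_card_signs {H : Type} [Fintype H] : (signs H).card = 2 ^ Fintype.card H := by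
  classical
  rw [signs, Fintype.card_piFinset]
  simp

section sys

variable {S G : Type} [Fintype S] [Group G] [Finite G] [MulAction G S] [IsPretransitive G S]
  {z : G} {n N : ℕ}

/-- The representation of the quotient. -/
private def tpRho (M : MatSys S G z n N) : G ⧸ M.R.ker →* Matrix (Fin n) (Fin n) ℤ :=
  QuotientGroup.lift M.R.ker M.R le_rfl

private lemma tpRho_mk (M : MatSys S G z n N) (γ : G) :
    tpRho M (γ : G ⧸ M.R.ker) = M.R γ := rfl

private lemma tpRho_inj (M : MatSys S G z n N) : Function.Injective (tpRho M) := by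
  intro a b hab
  obtain ⟨γ, rfl⟩ := QuotientGroup.mk_surjective a
  obtain ⟨δ, rfl⟩ := QuotientGroup.mk_surjective b
  rw [tpRho_mk, tpRho_mk] at hab
  rw [QuotientGroup.eq, MonoidHom.mem_ker, map_mul, ← hab, ← map_mul, inv_mul_cancel, map_one]

private lemma tpR_z (M : MatSys S G z n N) : M.R z = -1 := by
  obtain ⟨s₀, hs₀⟩ := M.base
  have h1 := M.smul z s₀
  rw [M.odd s₀, hs₀, mul_one] at h1
  exact h1.symm

/-- Every point gives an element of the quotient. -/
private lemma tp_exists (M : MatSys S G z n N) (s : S) :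
    ∃ h : G ⧸ M.R.ker, tpRho M h = M.Φ s := by
  obtain ⟨s₀, hs₀⟩ := M.base
  obtain ⟨γ, hγ⟩ := exists_smul_eq G s₀ s
  refine ⟨(γ : G ⧸ M.R.ker), ?_⟩
  rw [tpRho_mk, ← hγ, M.smul γ s₀, hs₀, mul_one]

private lemma tp_exists' (M : MatSys S G z n N) (h : G ⧸ M.R.ker) : ∃ s : S, M.Φ s = tpRho M h := by
  obtain ⟨s₀, hs₀⟩ := M.base
  obtain ⟨γ, rfl⟩ := QuotientGroup.mk_surjective h
  refine ⟨γ • s₀, ?_⟩
  rw [tpRho_mk, M.smul γ s₀, hs₀, mul_one]

/-- The element of the quotient given by a point. -/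
private noncomputable def tpTau (M : MatSys S G z n N) (X : Finset S) (x : X) : G ⧸ M.R.ker :=
  (tp_exists M x.1).choose

private lemma tpTau_spec (M : MatSys S G z n N) (X : Finset S) (x : X) :
    tpRho M (tpTau M X x) = M.Φ x.1 := (tp_exists M x.1).choose_spec

private lemma tp_rep (M : MatSys S G z n N) (hN : 0 < N) :
    Rep ((z : G ⧸ M.R.ker)) n (tpRho M) := by
  classical
  refine ⟨by rw [tpRho_mk]; exact tpR_z M, ?_⟩
  by_contra hne
  have hlt := lt_top_iff_ne_top.2 hne
  obtain ⟨f, hf0, hf⟩ := Submodule.exists_le_ker_of_lt_top _ hlt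
  -- the integral matrix
  let B : Matrix (Fin n) (Fin n) ℚ := Matrix.of fun j i => f (Matrix.single i j 1)
  have hfB : ∀ A : Matrix (Fin n) (Fin n) ℚ, f A = (A * B).trace := by
    intro A
    conv_lhs => rw [Matrix.matrix_eq_sum_single A]
    rw [map_sum]
    simp only [Matrix.trace, Matrix.diag, Matrix.mul_apply]
    refine Finset.sum_congr rfl fun i _ => ?_
    rw [map_sum]
    refine Finset.sum_congr rfl fun j _ => ?_
    have h1 : Matrix.single i j (A i j) = A i j • Matrix.single i j (1 : ℚ) := by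
      rw [Matrix.smul_single, smul_eq_mul, mul_one]
    rw [h1, map_smul, smul_eq_mul]
    rfl
  have hB0 : B ≠ 0 := by
    intro h0
    apply hf0
    apply LinearMap.ext
    intro A
    rw [hfB, h0, mul_zero, Matrix.trace_zero]
    rfl
  have hΦB : ∀ s, (((M.Φ s).map (Int.cast : ℤ → ℚ)) * B).trace = 0 := by
    intro s
    rw [← hfB]
    obtain ⟨h, hh⟩ := tp_exists M s
    rw [← hh]
    exact hf (Submodule.subset_span ⟨h, rfl⟩)
  -- clear denominators
  set d : ℕ := ∏ q : Fin n × Fin n, (B q.1 q.2).den with hd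
  have hd0 : d ≠ 0 := Finset.prod_ne_zero_iff.2 fun q _ => (B q.1 q.2).den_nz
  have hC : ∀ i j, ∃ c : ℤ, (c : ℚ) = d * B i j := by
    intro i j
    obtain ⟨k, hk⟩ : (B i j).den ∣ d :=
      Finset.dvd_prod_of_mem (fun q : Fin n × Fin n => (B q.1 q.2).den) (Finset.mem_univ (i, j))
    refine ⟨k * (B i j).num, ?_⟩
    have h1 : (B i j) * (B i j).den = (B i j).num := Rat.mul_den_eq_num _
    rw [hk]
    push_cast
    rw [← h1]
    ring
  choose C hC using hC
  obtain ⟨i₀, j₀, hij⟩ : ∃ i j, B i j ≠ 0 := by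
    by_contra hcon
    push Not at hcon
    apply hB0
    ext i j
    exact hcon i j
  have hCij : C i₀ j₀ ≠ 0 := by
    intro h0
    have h1 := hC i₀ j₀
    rw [h0, Int.cast_zero] at h1
    rcases mul_eq_zero.1 h1.symm with h2 | h2
    · exact hd0 (by exact_mod_cast h2)
    · exact hij h2
  obtain ⟨p, hp1, hp⟩ := Nat.exists_infinite_primes (N + (C i₀ j₀).natAbs + 1)
  have hpN : ¬ p ∣ N := by
    intro hdvd
    have := Nat.le_of_dvd hN hdvd
    omega
  have h1 := M.indep p hp hpN (Matrix.of fun i j => ((C i j : ℤ) : ZMod p)) (by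
    intro s
    have h2 : ((M.Φ s) * (Matrix.of C)).trace = 0 := by
      have h3 : ((((M.Φ s) * (Matrix.of C)).trace : ℤ) : ℚ) = 0 := by
        have h4 := hΦB s
        simp only [Matrix.trace, Matrix.diag, Matrix.mul_apply, Matrix.of_apply,
          Matrix.map_apply] at h4 ⊢
        push_cast
        simp only [hC]
        have h5 : ∑ i, ∑ j, ((M.Φ s i j : ℤ) : ℚ) * ((d : ℚ) * B j i) =
            d * ∑ i, ∑ j, ((M.Φ s i j : ℤ) : ℚ) * B j i := by
          rw [Finset.mul_sum]
          refine Finset.sum_congr rfl fun i _ => ?_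
          rw [Finset.mul_sum]
          refine Finset.sum_congr rfl fun j _ => ?_
          ring
        rw [h5, h4, mul_zero]
      exact_mod_cast h3
    have h6 := congrArg (Int.cast : ℤ → ZMod p) h2
    simp only [Matrix.trace, Matrix.diag, Matrix.mul_apply, Matrix.of_apply,
      Matrix.map_apply] at h6 ⊢
    push_cast at h6
    exact h6)
  have h7 := congrFun (congrFun h1 i₀) j₀
  have h8 : ((C i₀ j₀ : ℤ) : ZMod p) = 0 := h7
  rw [ZMod.intCast_zmod_eq_zero_iff_dvd] at h8
  have h9 := Int.le_of_dvd (Int.natAbs_pos.2 hCij |> fun h => by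
    exact_mod_cast h : (0 : ℤ) < ((C i₀ j₀).natAbs : ℤ)) (Int.dvd_natAbs.2 h8)
  have h10 : p ≤ (C i₀ j₀).natAbs := by exact_mod_cast h9
  omega

private lemma tp_finrank_le (M : MatSys S G z n N) (hN : 0 < N) [Fintype (G ⧸ M.R.ker)] :
    n ^ 2 ≤ Fintype.card (G ⧸ M.R.ker) := by
  classical
  have h1 := (tp_rep M hN).span
  have h2 := finrank_range_le_card (R := ℚ)
    (fun h : G ⧸ M.R.ker => (tpRho M h).map (Int.cast : ℤ → ℚ))
  rw [Set.finrank, h1, finrank_top, Module.finrank_matrix] at h2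
  simp only [Module.finrank_self, mul_one, Fintype.card_fin] at h2
  rw [sq]
  exact h2

private lemma tp_phi_z (M : MatSys S G z n N) (s : S) : M.Φ (z • s) = - M.Φ s := M.odd s

private lemma tp_cover (M : MatSys S G z n N) (hn : 0 < n) (hz : ∀ γ : G, γ * z = z * γ)
    (hzz : ∀ s : S, z • z • s = s) (X : Finset S) (hX : ∀ s, s ∈ X ↔ z • s ∉ X) :
    Cover (z : G ⧸ M.R.ker) (tpTau M X) {s : S | M.Φ s = 1}.ncard := by
  classical
  refine ⟨?_, ?_, ?_, ?_⟩
  · intro h
    obtain ⟨γ, rfl⟩ := QuotientGroup.mk_surjective h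
    rw [← QuotientGroup.mk_mul, ← QuotientGroup.mk_mul, hz]
  · apply tpRho_inj M
    rw [map_mul, tpRho_mk, tpR_z, map_one, neg_mul_neg, one_mul]
  · intro h
    have h1 := congrArg (tpRho M) h
    rw [tpRho_mk, tpR_z, map_one] at h1
    have h2 := congrFun (congrFun h1 ⟨0, hn⟩) ⟨0, hn⟩
    rw [Matrix.neg_apply, Matrix.one_apply_eq] at h2
    omega
  · intro h
    have hmem : ∀ x : X, (tpTau M X x = h ∨ tpTau M X x = z * h) ↔
        (M.Φ x.1 = tpRho M h ∨ M.Φ (z • x.1) = tpRho M h) := by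
      intro x
      have h1 : tpTau M X x = h ↔ M.Φ x.1 = tpRho M h := by
        rw [← tpTau_spec M X x]
        exact (tpRho_inj M).eq_iff.symm
      have h2 : tpTau M X x = z * h ↔ M.Φ (z • x.1) = tpRho M h := by
        rw [← (tpRho_inj M).eq_iff, tpTau_spec, map_mul, tpRho_mk, tpR_z, neg_one_mul, tp_phi_z]
        exact neg_eq_iff_eq_neg.symm
      rw [h1, h2]
    -- bijection with the points over `h`
    have e1 : {x : X | tpTau M X x = h ∨ tpTau M X x = z * h}.ncard =
        {s : S | M.Φ s = tpRho M h}.ncard := by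
      refine Set.ncard_congr (fun x _ => if M.Φ x.1 = tpRho M h then x.1 else z • x.1) ?_ ?_ ?_
      · intro x hx
        show M.Φ (if M.Φ x.1 = tpRho M h then x.1 else z • x.1) = tpRho M h
        split_ifs with h1
        · exact h1
        · exact ((hmem x).1 hx).resolve_left h1
      · intro x y hx hy hxy
        have key : ∀ x y : X, x.1 ≠ z • y.1 := by
          intro x y hne
          have h1 : z • x.1 = y.1 := by rw [hne, hzz]
          exact (hX x.1).1 x.2 (by rw [h1]; exact y.2)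
        split_ifs at hxy with h1 h2 h2
        · exact Subtype.ext hxy
        · exact absurd hxy (key x y)
        · exact absurd hxy.symm (key y x)
        · apply Subtype.ext
          have := congrArg (fun s => z • s) hxy
          simp only [hzz] at this
          exact this
      · intro s hs
        by_cases hsX : s ∈ X
        · refine ⟨⟨s, hsX⟩, (hmem _).2 (Or.inl hs), ?_⟩
          exact if_pos (show M.Φ s = tpRho M h from hs)
        · have hzs : z • s ∈ X := by
            by_contra hcon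
            exact hsX ((hX s).2 hcon)
          have h3 : M.Φ (z • z • s) = tpRho M h := by rw [hzz]; exact hs
          refine ⟨⟨z • s, hzs⟩, (hmem _).2 (Or.inr h3), ?_⟩
          simp only []
          by_cases h4 : M.Φ (z • s) = tpRho M h
          · exfalso
            have h5 : M.Φ s = tpRho M h := hs
            rw [tp_phi_z, h5] at h4
            have h6 : tpRho M (z * h) = tpRho M h := by
              rw [map_mul, tpRho_mk, tpR_z, neg_one_mul, h4]
            have h7 := tpRho_inj M h6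
            have h8 : (z : G ⧸ M.R.ker) = 1 := mul_eq_right.1 h7
            have h9 := congrArg (tpRho M) h8
            rw [tpRho_mk, tpR_z, map_one] at h9
            have h10 := congrFun (congrFun h9 ⟨0, hn⟩) ⟨0, hn⟩
            rw [Matrix.neg_apply, Matrix.one_apply_eq] at h10
            omega
          · rw [if_neg h4, hzz]
    rw [e1]
    obtain ⟨γ, rfl⟩ := QuotientGroup.mk_surjective h
    refine (Set.ncard_congr (fun s _ => γ • s) ?_ ?_ ?_).symm
    · intro s hs
      show M.Φ (γ • s) = M.R γ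
      rw [M.smul, show M.Φ s = 1 from hs, mul_one]
    · intro s t _ _ hst
      exact MulAction.injective γ hst
    · intro s hs
      refine ⟨γ⁻¹ • s, ?_, smul_inv_smul γ s⟩
      show M.Φ (γ⁻¹ • s) = 1
      rw [M.smul, show M.Φ s = M.R γ from hs, ← map_mul, inv_mul_cancel, map_one]

private lemma tp_sing_le (M : MatSys S G z n N)
    (hzz : ∀ s : S, z • z • s = s) (X : Finset S) (hX : ∀ s, s ∈ X ↔ z • s ∉ X) :
    M.sing.ncard ≤ (singX (tpRho M) (tpTau M X)).card := by
  classical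
  rw [← Set.ncard_coe_finset]
  refine Set.ncard_le_ncard_of_injOn (fun e (x : X) => e x.1) ?_ ?_ (Finset.finite_toSet _)
  · rintro e ⟨he, v, hv0, hv⟩
    rw [Finset.mem_coe, singX, Finset.mem_filter]
    constructor
    · rw [tp_mem_signs]
      intro x
      exact he.1 x.1
    · have h1 : ∑ s, e s • M.Φ s = (2 : ℤ) • ∑ x : X, e x.1 • tpRho M (tpTau M X x) := by
        simp only [tpTau_spec]
        have h2 : ∑ s, e s • M.Φ s = ∑ s ∈ X, e s • M.Φ s + ∑ s ∈ Xᶜ, e s • M.Φ s :=
          (Finset.sum_add_sum_compl X _).symm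
        have h3 : ∑ s ∈ Xᶜ, e s • M.Φ s = ∑ s ∈ X, e s • M.Φ s := by
          refine Finset.sum_nbij' (fun s => z • s) (fun s => z • s) ?_ ?_ ?_ ?_ ?_
          · intro s hs
            rw [Finset.mem_compl] at hs
            by_contra hcon
            exact hs ((hX s).2 hcon)
          · intro s hs
            rw [Finset.mem_compl]
            exact (hX s).1 hs
          · intro s _
            exact hzz s
          · intro s _
            exact hzz s
          · intro s _
            rw [he.2 s, tp_phi_z, neg_smul, smul_neg, neg_neg]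
        rw [h2, h3, two_smul, Finset.sum_coe_sort X (fun s => e s • M.Φ s)]
      rw [h1, Matrix.smul_mulVec, smul_eq_zero] at hv
      have h4 := hv.resolve_left (by norm_num)
      exact Matrix.exists_mulVec_eq_zero_iff.1 ⟨v, hv0, h4⟩
  · intro e he e' he' hee
    funext s
    by_cases hs : s ∈ X
    · exact congrFun hee ⟨s, hs⟩
    · have hzs : z • s ∈ X := by
        by_contra hcon
        exact hs ((hX s).2 hcon)
      have h1 := congrFun hee ⟨z • s, hzs⟩
      simp only [] at h1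
      rw [he.1.2 s, he'.1.2 s] at h1
      exact neg_injective h1

end sys

/-- Hypothesis `h3` of `twoPrime` from the numerical condition. -/
private theorem tp_h3 (g n p p' t : ℕ) [NeZero p] (δ : ℝ) (hg : 0 < g) (hp : 0 < p)
    (hp' : 0 < p') (ht : 0 < t)
    (h : (p' : ℝ) * ((2 * (p * p' * (g : ℝ) ^ (δ / 16) / Real.sqrt t) + 1 +
          p * Real.exp (-(2 * (g : ℝ) ^ (δ / 8)))) / p') ^ n ≤ 1) :
    (p' : ℝ) * ((∑ y : ZMod p,
      Real.exp (-(2 * (t : ℝ) * (y.valMinAbs : ℝ) ^ 2 / ((p : ℝ) * p') ^ 2))) / p') ^ n ≤ 1 := by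
  have hg' : (0 : ℝ) < g := by exact_mod_cast hg
  have hpR : (0 : ℝ) < p := by exact_mod_cast hp
  have hpR' : (0 : ℝ) < p' := by exact_mod_cast hp'
  have htR : (0 : ℝ) < t := by exact_mod_cast ht
  have hq : (0 : ℝ) < (p : ℝ) * p' := by positivity
  have hs : (0 : ℝ) < Real.sqrt t := Real.sqrt_pos.2 htR
  have hY : (0 : ℝ) ≤ p * p' * (g : ℝ) ^ (δ / 16) / Real.sqrt t := by positivity
  have key := gauss_sum_le p (t : ℝ) ((p : ℝ) * p')
    (p * p' * (g : ℝ) ^ (δ / 16) / Real.sqrt t) htR.le hq hY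
  have hexp : 2 * (t : ℝ) * (p * p' * (g : ℝ) ^ (δ / 16) / Real.sqrt t) ^ 2 / ((p : ℝ) * p') ^ 2
      = 2 * (g : ℝ) ^ (δ / 8) := by
    have h1 : ((g : ℝ) ^ (δ / 16)) ^ 2 = (g : ℝ) ^ (δ / 8) := by
      rw [← Real.rpow_natCast, ← Real.rpow_mul hg'.le]
      congr 1
      push_cast
      ring
    rw [div_pow, mul_pow, h1, Real.sq_sqrt htR.le]
    field_simp
  rw [hexp] at key
  refine le_trans ?_ h
  have hsum0 : (0 : ℝ) ≤ ∑ y : ZMod p,
      Real.exp (-(2 * (t : ℝ) * (y.valMinAbs : ℝ) ^ 2 / ((p : ℝ) * p') ^ 2)) :=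
    Finset.sum_nonneg fun _ _ => (Real.exp_pos _).le
  gcongr

theorem pTwoPrimes : StTwoPrimes := by
  classical
  intro δ hδ hδ1
  obtain ⟨n₀, C, hC, hnum⟩ := num_two_primes δ hδ hδ1
  refine ⟨n₀, C, hC, ?_⟩
  intro S G _ _ _ _ _ z hz hzz X hX n N M hN hn hn0
  have hFG : Fintype (G ⧸ M.R.ker) := Fintype.ofFinite _
  have hc := tp_cover M hn hz hzz X hX
  have hρ := tp_rep M hN
  have hXc : Fintype.card X = X.card := Fintype.card_coe X
  have h2pos : (0 : ℝ) < (2 : ℝ) ^ X.card := by positivity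
  obtain ⟨s₀, hs₀⟩ := M.base
  have hX0 : 0 < X.card := by
    rw [Finset.card_pos]
    by_cases hs : s₀ ∈ X
    · exact ⟨s₀, hs⟩
    · refine ⟨z • s₀, ?_⟩
      by_contra hcon
      exact hs ((hX s₀).2 hcon)
  have hcard := hc.card_mul
  rw [hXc] at hcard
  have hκ : 0 < {s : S | M.Φ s = 1}.ncard := by
    rw [Set.ncard_pos (Set.toFinite _)]
    exact ⟨s₀, hs₀⟩
  have hN2 : Fintype.card (G ⧸ M.R.ker) ≤ 2 * X.card := by
    rw [← hcard]
    exact Nat.le_mul_of_pos_left _ hκ
  have hsing : (M.sing.ncard : ℝ) ≤ ((singX (tpRho M) (tpTau M X)).card : ℝ) := by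
    exact_mod_cast tp_sing_le M hzz X hX
  have hsing2 : ((singX (tpRho M) (tpTau M X)).card : ℝ) ≤ 2 ^ X.card := by
    have h1 : (singX (tpRho M) (tpTau M X)).card ≤ 2 ^ Fintype.card X := by
      rw [← tp_card_signs]
      exact Finset.card_le_card (Finset.filter_subset _ _)
    rw [hXc] at h1
    exact_mod_cast h1
  have hx1 : ((singX (tpRho M) (tpTau M X)).card : ℝ) / 2 ^ X.card ≤ 1 := by
    rw [div_le_one h2pos]
    exact hsing2
  have hdiv : ∀ a b : ℝ, ((singX (tpRho M) (tpTau M X)).card : ℝ) * a ≤ b * 2 ^ X.card →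
      ((singX (tpRho M) (tpTau M X)).card : ℝ) / 2 ^ X.card * a ≤ b := by
    intro a b h
    rw [div_mul_eq_mul_div, div_le_iff₀ h2pos]
    exact h
  have key := hnum X.card n (Fintype.card (G ⧸ M.R.ker))
    (((singX (tpRho M) (tpTau M X)).card : ℝ) / 2 ^ X.card) hX0 hn0 hn
    ((tp_finrank_le M hN).trans hN2) Fintype.card_pos hN2 hx1 (by
      intro p hp hp2 hpN d hd hnum
      have hpf : Fact p.Prime := ⟨hp⟩
      have hnd : n ≤ d := by
        by_contra hcon
        push Not at hcon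
        have := Nat.pow_lt_pow_left hcon (n := 2) (by norm_num)
        omega
      have ht : n * (X.card / d) ≤ Fintype.card X := by
        rw [hXc]
        exact (Nat.mul_le_mul_right _ hnd).trans (Nat.mul_div_le _ _)
      have h1 := tp_onePrime hc hρ p hp2 hpN (X.card / d) ht (by
        refine le_trans ?_ hnum
        have : (n : ℝ) ≤ d := by exact_mod_cast hnd
        gcongr)
      rw [hXc] at h1
      exact hdiv _ _ h1) (by
      intro p p' hp hp' hpp hp2 hp2' hpN hpN' t hnt hc1 hc2 hc3 hc4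
      have hpf : Fact p.Prime := ⟨hp⟩
      have hpf' : Fact p'.Prime := ⟨hp'⟩
      have ht : 0 < t := by
        rcases Nat.eq_zero_or_pos t with h | h
        · exfalso
          rw [h] at hc1
          simp only [Nat.cast_zero, mul_zero, zero_div, neg_zero, Real.exp_zero,
            mul_one] at hc1
          have : (1 : ℝ) ≤ n := by exact_mod_cast hn
          linarith
        · exact h
      have h7 := twoPrime hc hρ p p' hpp hp2 hp2' hpN hpN' t (by rw [hXc]; exact hnt) hc1 hc2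
        (by rw [hXc]; exact hc3)
        (tp_h3 X.card n p p' t δ hX0 hp.pos hp'.pos ht hc4)
      rw [hXc] at h7
      exact hdiv _ _ h7)
  rw [div_le_iff₀ h2pos] at key
  exact hsing.trans key

end Pool.Agent.Lib.MP_640417_ag.Full
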