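import Pool.Agent.Lib.MP_640417_ag.Full.SpecB
import Pool.Agent.Lib.MP_640417_ag.Translates

/-!
# Uniqueness of the continuation to one more prime
-/

namespace Pool.Agent.Lib.MP_640417_ag.Full

open Module Finset MulAction Matrix Pool.Agent.Lib.MP_640417_ag.Far

section dzl

theorem uniq_dz_nonneg (y : ℝ) : 0 ≤ dz y := abs_nonneg _

theorem uniq_dz_le (y : ℝ) (k : ℤ) : dz y ≤ |y - k| := round_le y k

theorem uniq_dz_add_int (y : ℝ) (k : ℤ) : dz (y + k) = dz y := by
  unfold dz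
  rw [round_add_intCast]
  push_cast
  congr 1
  ring

theorem uniq_dz_nat_mul (y : ℝ) (k : ℕ) : dz (k * y) ≤ k * dz y := by
  refine (uniq_dz_le (k * y) (k * round y)).trans (le_of_eq ?_)
  unfold dz
  push_cast
  rw [← mul_sub, abs_mul, Nat.abs_cast]

theorem uniq_dz_sub (y y' : ℝ) : dz (y - y') ≤ dz y + dz y' := by
  refine (uniq_dz_le (y - y') (round y - round y')).trans ?_
  unfold dz
  push_cast
  have : y - y' - ((round y : ℝ) - round y') = (y - round y) - (y' - round y') := by ring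
  rw [this]
  exact abs_sub _ _

/-- Numbers with denominator `p` are far from the integers. -/
theorem uniq_dz_ge (p : ℕ) (hp : 0 < p) (u : ℤ) (hu : ¬ (p : ℤ) ∣ u) :
    1 / (p : ℝ) ≤ dz ((u : ℝ) / p) := by
  unfold dz
  have hp' : (0 : ℝ) < p := by exact_mod_cast hp
  set k := round ((u : ℝ) / p) with hk
  have h1 : (u : ℝ) / p - k = ((u - k * p : ℤ) : ℝ) / p := by
    push_cast
    field_simp
  rw [h1, abs_div, abs_of_pos hp']
  apply div_le_div_of_nonneg_right _ hp'.le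
  rw [← Int.cast_abs]
  have h2 : u - k * p ≠ 0 := by
    intro h
    apply hu
    exact ⟨k, by linarith⟩
  exact_mod_cast Int.one_le_abs h2

end dzl

section forms

variable {n : ℕ}

/-- The integral form. -/
def uniqI (Φ : Matrix (Fin n) (Fin n) ℤ) (b a : Fin n → ℤ) : ℤ := ∑ i, b i * Φ.mulVec a i

theorem uniqI_cast (Φ : Matrix (Fin n) (Fin n) ℤ) (b a : Fin n → ℤ) (q : ℕ) :
    ((uniqI Φ b a : ℤ) : ZMod q) =
      ∑ i, (b i : ZMod q) * (Φ.map (Int.cast : ℤ → ZMod q)).mulVec (fun j => (a j : ZMod q)) i := by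
  unfold uniqI
  simp [Matrix.mulVec, dotProduct]

theorem uniqI_congr (Φ : Matrix (Fin n) (Fin n) ℤ) (b a b' a' : Fin n → ℤ) (q : ℕ)
    (hb : ∀ i, (b i : ZMod q) = b' i) (ha : ∀ i, (a i : ZMod q) = a' i) :
    ∃ k : ℤ, uniqI Φ b a = uniqI Φ b' a' + q * k := by
  have h1 : ((uniqI Φ b a - uniqI Φ b' a' : ℤ) : ZMod q) = 0 := by
    push_cast
    rw [uniqI_cast, uniqI_cast]
    simp only [hb, ha, sub_self]
  rw [ZMod.intCast_zmod_eq_zero_iff_dvd] at h1
  obtain ⟨k, hk⟩ := h1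
  exact ⟨k, by linarith⟩

/-- Equal tensors. -/
theorem uniq_smul_of_tensor {K : Type} [Field K] (v u v' u' : Fin n → K)
    (hv : v ≠ 0) (hu : u ≠ 0) (h : ∀ i j, v i * u j = v' i * u' j) :
    ∃ l : K, l ≠ 0 ∧ v' = l • v ∧ u' = l⁻¹ • u := by
  obtain ⟨i₀, hi₀⟩ := Function.ne_iff.1 hv
  obtain ⟨j₀, hj₀⟩ := Function.ne_iff.1 hu
  simp only [Pi.zero_apply] at hi₀ hj₀
  have h0 := h i₀ j₀
  have hne : v' i₀ * u' j₀ ≠ 0 := by rw [← h0]; exact mul_ne_zero hi₀ hj₀
  have hv' : v' i₀ ≠ 0 := left_ne_zero_of_mul hne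
  have hu' : u' j₀ ≠ 0 := right_ne_zero_of_mul hne
  refine ⟨v' i₀ / v i₀, div_ne_zero hv' hi₀, ?_, ?_⟩
  · funext i
    have h1 := h i j₀
    rw [Pi.smul_apply, smul_eq_mul, div_mul_eq_mul_div, eq_div_iff hi₀]
    apply mul_right_cancel₀ hj₀
    calc v' i * v i₀ * u j₀ = v' i * (v i₀ * u j₀) := by ring
      _ = v' i * u' j₀ * v' i₀ := by rw [h0]; ring
      _ = v' i₀ * v i * u j₀ := by rw [← h1]; ring
  · funext j
    have h1 := h i₀ j
    rw [Pi.smul_apply, smul_eq_mul, inv_div, div_mul_eq_mul_div, eq_div_iff hv', h1]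
    ring

end forms

section red

variable {S G : Type} [Fintype S] [Group G] [MulAction G S] {z : G} {n N : ℕ}

/-- Reduction of a class modulo a divisor. -/
theorem uniq_cast_val {a b : ℕ} [NeZero a] (h : b ∣ a) (x : ZMod a) :
    (((x.val : ℕ) : ℤ) : ZMod b) = ZMod.castHom h (ZMod b) x := by
  rw [ZMod.castHom_apply, Int.cast_natCast, ZMod.natCast_val]

theorem uniq_val_val {b : ℕ} [NeZero b] (x : ZMod b) : (((x.val : ℕ) : ℤ) : ZMod b) = x := by
  rw [Int.cast_natCast, ZMod.natCast_zmod_val]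

theorem uniq_crt {m p : ℕ} [NeZero (m * p)] (h : m.Coprime p) (x y : ZMod (m * p))
    (h1 : ZMod.castHom (dvd_mul_right m p) (ZMod m) x =
      ZMod.castHom (dvd_mul_right m p) (ZMod m) y)
    (h2 : ZMod.castHom (dvd_mul_left p m) (ZMod p) x =
      ZMod.castHom (dvd_mul_left p m) (ZMod p) y) : x = y := by
  rw [← uniq_cast_val, ← uniq_cast_val, Int.cast_natCast, Int.cast_natCast,
    ZMod.natCast_eq_natCast_iff] at h1 h2
  have h3 := (Nat.modEq_and_modEq_iff_modEq_mul h).1 ⟨h1, h2⟩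
  rw [← ZMod.natCast_zmod_val x, ← ZMod.natCast_zmod_val y, ZMod.natCast_eq_natCast_iff]
  exact h3

theorem uniq_sz_le (M : MatSys S G z n N) (X : Finset S) (m p : ℕ) [NeZero m] [NeZero (m * p)]
    (hp : 0 < p) (v β : Fin n → ZMod (m * p)) :
    M.sz X m (fun i => ZMod.castHom (dvd_mul_right m p) (ZMod m) (v i))
        (fun i => ZMod.castHom (dvd_mul_right m p) (ZMod m) (β i))
      ≤ (p : ℝ) ^ 2 * M.sz X (m * p) v β := by
  unfold MatSys.sz
  rw [Finset.mul_sum]
  apply Finset.sum_le_sum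
  intro x _
  rw [← mul_pow]
  apply pow_le_pow_left₀ (uniq_dz_nonneg _)
  obtain ⟨k, hk⟩ := uniqI_congr (M.Φ x) (fun i => ((β i).val : ℤ)) (fun i => ((v i).val : ℤ))
    (fun i => ((ZMod.castHom (dvd_mul_right m p) (ZMod m) (β i)).val : ℤ))
    (fun i => ((ZMod.castHom (dvd_mul_right m p) (ZMod m) (v i)).val : ℤ)) m
    (fun i => by rw [uniq_cast_val (dvd_mul_right m p), uniq_val_val])
    (fun i => by rw [uniq_cast_val (dvd_mul_right m p), uniq_val_val])
  have hm0 : (m : ℝ) ≠ 0 := by exact_mod_cast NeZero.ne m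
  have hp0 : (p : ℝ) ≠ 0 := by positivity
  have h1 : 2 * M.wf m (fun i => ZMod.castHom (dvd_mul_right m p) (ZMod m) (v i))
      (fun i => ZMod.castHom (dvd_mul_right m p) (ZMod m) (β i)) x
      = p * (2 * M.wf (m * p) v β x) + ((-(2 * k) : ℤ) : ℝ) := by
    change 2 * (((uniqI (M.Φ x)
      (fun i => ((ZMod.castHom (dvd_mul_right m p) (ZMod m) (β i)).val : ℤ))
      (fun i => ((ZMod.castHom (dvd_mul_right m p) (ZMod m) (v i)).val : ℤ)) : ℤ) : ℝ) / m)
      = p * (2 * (((uniqI (M.Φ x) (fun i => ((β i).val : ℤ)) (fun i => ((v i).val : ℤ)) : ℤ) : ℝ)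
        / ((m * p : ℕ) : ℝ))) + ((-(2 * k) : ℤ) : ℝ)
    rw [hk]
    push_cast
    field_simp
    ring
  rw [h1, uniq_dz_add_int]
  exact uniq_dz_nat_mul _ _

/-- The space of functions attached to a matrix system. -/
def uniq_L (M : MatSys S G z n N) (p : ℕ) [Fact p.Prime] :
    Matrix (Fin n) (Fin n) (ZMod p) →ₗ[ZMod p] (S → ZMod p) where
  toFun A := fun s => (((M.Φ s).map (Int.cast : ℤ → ZMod p)) * A).trace
  map_add' A B := by
    funext s
    simp [mul_add]
  map_smul' c A := by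
    funext s
    simp

theorem uniq_stab (M : MatSys S G z n N) (p : ℕ) [Fact p.Prime] :
    IsStab G (LinearMap.range (uniq_L M p)) := by
  rintro _ ⟨A, rfl⟩ γ
  refine ⟨A * ((M.R γ).map (Int.cast : ℤ → ZMod p)), ?_⟩
  funext s
  change (((M.Φ s).map (Int.cast : ℤ → ZMod p)) * (A * ((M.R γ).map (Int.cast : ℤ → ZMod p)))).trace
    = (((M.Φ (γ • s)).map (Int.cast : ℤ → ZMod p)) * A).trace
  have h1 : (M.R γ * M.Φ s).map (Int.cast : ℤ → ZMod p)
      = (M.R γ).map (Int.cast : ℤ → ZMod p) * (M.Φ s).map (Int.cast : ℤ → ZMod p) :=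
    Matrix.map_mul (f := Int.castRingHom (ZMod p))
  rw [M.smul, h1, ← mul_assoc, Matrix.trace_mul_comm, mul_assoc]

theorem uniq_finrank (M : MatSys S G z n N) (p : ℕ) [Fact p.Prime] :
    finrank (ZMod p) (LinearMap.range (uniq_L M p)) ≤ n ^ 2 := by
  refine (LinearMap.finrank_range_le _).trans (le_of_eq ?_)
  rw [Module.finrank_matrix]
  simp [pow_two]

theorem uniq_tensor (hSupp : StSupp) [Finite G] [IsPretransitive G S]
    (hzz : ∀ s : S, z • z • s = s) (X : Finset S) (hX : ∀ s, s ∈ X ↔ z • s ∉ X)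
    (M : MatSys S G z n N) (m p : ℕ) [NeZero m] [Fact p.Prime] [NeZero (m * p)] (hp2 : p ≠ 2)
    (hpN : ¬ p ∣ N) (ε : ℝ) (hε : 4 * ε * (n : ℝ) ^ 2 * (p : ℝ) ^ 2 < 1)
    (v₁ β₁ v₂ β₂ : Fin n → ZMod (m * p))
    (hv : ∀ i, ZMod.castHom (dvd_mul_right m p) (ZMod m) (v₁ i) =
      ZMod.castHom (dvd_mul_right m p) (ZMod m) (v₂ i))
    (hβ : ∀ i, ZMod.castHom (dvd_mul_right m p) (ZMod m) (β₁ i) =
      ZMod.castHom (dvd_mul_right m p) (ZMod m) (β₂ i))
    (h₁ : M.sz X (m * p) v₁ β₁ ≤ ε * X.card) (h₂ : M.sz X (m * p) v₂ β₂ ≤ ε * X.card) :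
    ∀ i j, ZMod.castHom (dvd_mul_left p m) (ZMod p) (v₁ i) *
        ZMod.castHom (dvd_mul_left p m) (ZMod p) (β₁ j)
      = ZMod.castHom (dvd_mul_left p m) (ZMod p) (v₂ i) *
        ZMod.castHom (dvd_mul_left p m) (ZMod p) (β₂ j) := by
  classical
  set ρ := ZMod.castHom (dvd_mul_left p m) (ZMod p) with hρ
  have hp : p.Prime := Fact.out
  have hp0 : (0 : ℝ) < p := by exact_mod_cast hp.pos
  have hm0 : (m : ℝ) ≠ 0 := by exact_mod_cast NeZero.ne m
  by_contra hne
  set C : Matrix (Fin n) (Fin n) (ZMod p) :=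
    Matrix.of (fun i j => ρ (v₁ i) * ρ (β₁ j) - ρ (v₂ i) * ρ (β₂ j)) with hC
  have hC0 : C ≠ 0 := by
    intro h
    apply hne
    intro i j
    have h1 := congrFun (congrFun h i) j
    rw [hC] at h1
    simpa [sub_eq_zero] using h1
  -- the integral forms
  let I₁ : S → ℤ := fun s => uniqI (M.Φ s) (fun i => ((β₁ i).val : ℤ)) (fun i => ((v₁ i).val : ℤ))
  let I₂ : S → ℤ := fun s => uniqI (M.Φ s) (fun i => ((β₂ i).val : ℤ)) (fun i => ((v₂ i).val : ℤ))
  have hI : ∀ s, ∃ k : ℤ, I₁ s = I₂ s + m * k := by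
    intro s
    apply uniqI_congr
    · intro i
      rw [uniq_cast_val (dvd_mul_right m p), uniq_cast_val (dvd_mul_right m p), hβ]
    · intro i
      rw [uniq_cast_val (dvd_mul_right m p), uniq_cast_val (dvd_mul_right m p), hv]
  choose u hu using hI
  set f : S → ZMod p := uniq_L M p C with hf
  have hfs : ∀ s, f s = ((m * u s : ℤ) : ZMod p) := by
    intro s
    have h1 : (m * u s : ℤ) = I₁ s - I₂ s := by rw [hu s]; ring
    rw [h1]
    push_cast
    rw [uniqI_cast, uniqI_cast]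
    simp only [uniq_cast_val (dvd_mul_left p m)]
    change ((M.Φ s).map (Int.cast : ℤ → ZMod p) * C).trace = _
    rw [← Finset.sum_sub_distrib]
    unfold Matrix.trace
    apply Finset.sum_congr rfl
    intro i _
    rw [Matrix.diag_apply, Matrix.mul_apply]
    unfold Matrix.mulVec dotProduct
    rw [Finset.mul_sum, Finset.mul_sum, ← Finset.sum_sub_distrib]
    apply Finset.sum_congr rfl
    intro j _
    rw [hC, Matrix.of_apply]
    ring
  have hf0 : f ≠ 0 := by
    intro h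
    apply hC0
    apply M.indep p hp hpN
    intro s
    exact congrFun h s
  have hodd : ∀ s, f (z • s) = - f s := by
    intro s
    change ((M.Φ (z • s)).map (Int.cast : ℤ → ZMod p) * C).trace
      = - ((M.Φ s).map (Int.cast : ℤ → ZMod p) * C).trace
    rw [M.odd]
    have h1 : (-M.Φ s).map (Int.cast : ℤ → ZMod p) = - (M.Φ s).map (Int.cast : ℤ → ZMod p) := by
      ext i j
      simp
    rw [h1, neg_mul, Matrix.trace_neg]
  have h3 := hSupp S G (ZMod p) (LinearMap.range (uniq_L M p)) (uniq_stab M p) f ⟨C, rfl⟩ hf0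
  have hcard := two_mul_card_transversal (fun s : S => z • s) hzz X hX
  set Y : Finset S := X.filter (fun s => f s ≠ 0) with hY
  have h4 : {s : S | f s ≠ 0}.ncard ≤ 2 * Y.card := by
    have h5 : {s : S | f s ≠ 0} ⊆ ((Y ∪ Y.image (fun s => z • s) : Finset S) : Set S) := by
      intro s hs
      have hs' : f s ≠ 0 := hs
      rw [Finset.mem_coe, Finset.mem_union]
      by_cases hsX : s ∈ X
      · left
        exact Finset.mem_filter.2 ⟨hsX, hs'⟩
      · right
        rw [Finset.mem_image]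
        refine ⟨z • s, Finset.mem_filter.2 ⟨?_, ?_⟩, hzz s⟩
        · by_contra h
          exact hsX ((hX s).2 h)
        · rw [hodd]
          exact neg_ne_zero.2 hs'
    refine (Set.ncard_le_ncard h5 (Finset.finite_toSet _)).trans ?_
    rw [Set.ncard_coe_finset]
    refine (Finset.card_union_le _ _).trans ?_
    have := Finset.card_image_le (s := Y) (f := fun s => z • s)
    omega
  have h5 : X.card ≤ n ^ 2 * Y.card := by
    have h6 : Fintype.card S ≤ n ^ 2 * (2 * Y.card) :=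
      h3.trans (Nat.mul_le_mul (uniq_finrank M p) h4)
    rw [← hcard] at h6
    have : n ^ 2 * (2 * Y.card) = 2 * (n ^ 2 * Y.card) := by ring
    omega
  have hg : 0 < X.card := by
    obtain ⟨s, hs⟩ := Function.ne_iff.1 hf0
    have : 0 < Fintype.card S := Fintype.card_pos_iff.2 ⟨s⟩
    omega
  -- the points of `Y` contribute
  have h6 : ∀ x ∈ Y, (1 / (p : ℝ)) ^ 2
      ≤ 2 * dz (2 * M.wf (m * p) v₁ β₁ x) ^ 2 + 2 * dz (2 * M.wf (m * p) v₂ β₂ x) ^ 2 := by
    intro x hx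
    have hfx : f x ≠ 0 := (Finset.mem_filter.1 hx).2
    have h7 : ¬ (p : ℤ) ∣ 2 * u x := by
      intro h
      have hpz : Prime (p : ℤ) := Nat.prime_iff_prime_int.1 hp
      rcases hpz.dvd_or_dvd h with h8 | h8
      · have h9 : p ∣ 2 := by exact_mod_cast h8
        exact hp2 ((Nat.prime_dvd_prime_iff_eq hp Nat.prime_two).1 h9)
      · apply hfx
        rw [hfs, ZMod.intCast_zmod_eq_zero_iff_dvd]
        exact Dvd.dvd.mul_left h8 _
    have h8 := uniq_dz_ge p hp.pos (2 * u x) h7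
    have h9 : ((2 * u x : ℤ) : ℝ) / p = 2 * M.wf (m * p) v₁ β₁ x - 2 * M.wf (m * p) v₂ β₂ x := by
      change _ = 2 * (((I₁ x : ℤ) : ℝ) / ((m * p : ℕ) : ℝ)) - 2 * (((I₂ x : ℤ) : ℝ) / ((m * p : ℕ) : ℝ))
      rw [hu x]
      push_cast
      field_simp
      ring
    rw [h9] at h8
    have h10 := h8.trans (uniq_dz_sub _ _)
    have h11 : (1 / (p : ℝ)) ^ 2 ≤
        (dz (2 * M.wf (m * p) v₁ β₁ x) + dz (2 * M.wf (m * p) v₂ β₂ x)) ^ 2 :=
      pow_le_pow_left₀ (by positivity) h10 2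
    nlinarith [sq_nonneg (dz (2 * M.wf (m * p) v₁ β₁ x) - dz (2 * M.wf (m * p) v₂ β₂ x))]
  have h7 : (Y.card : ℝ) * (1 / (p : ℝ)) ^ 2 ≤ 4 * ε * X.card := by
    calc (Y.card : ℝ) * (1 / (p : ℝ)) ^ 2 = ∑ x ∈ Y, (1 / (p : ℝ)) ^ 2 := by
          rw [Finset.sum_const, nsmul_eq_mul]
      _ ≤ ∑ x ∈ Y, (2 * dz (2 * M.wf (m * p) v₁ β₁ x) ^ 2
            + 2 * dz (2 * M.wf (m * p) v₂ β₂ x) ^ 2) := Finset.sum_le_sum h6
      _ ≤ ∑ x ∈ X, (2 * dz (2 * M.wf (m * p) v₁ β₁ x) ^ 2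
            + 2 * dz (2 * M.wf (m * p) v₂ β₂ x) ^ 2) := by
          apply Finset.sum_le_sum_of_subset_of_nonneg (Finset.filter_subset _ _)
          intro i _ _
          positivity
      _ = 2 * M.sz X (m * p) v₁ β₁ + 2 * M.sz X (m * p) v₂ β₂ := by
          unfold MatSys.sz
          rw [Finset.sum_add_distrib, Finset.mul_sum, Finset.mul_sum]
      _ ≤ 4 * ε * X.card := by linarith
  have h8 : (X.card : ℝ) ≤ (n : ℝ) ^ 2 * Y.card := by exact_mod_cast h5
  have h9 : (Y.card : ℝ) ≤ 4 * ε * X.card * (p : ℝ) ^ 2 := by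
    have : (Y.card : ℝ) = (Y.card : ℝ) * (1 / (p : ℝ)) ^ 2 * (p : ℝ) ^ 2 := by
      field_simp
    rw [this]
    exact mul_le_mul_of_nonneg_right h7 (by positivity)
  have hg' : (0 : ℝ) < X.card := by exact_mod_cast hg
  have h10 : (X.card : ℝ) ≤ (4 * ε * (n : ℝ) ^ 2 * (p : ℝ) ^ 2) * X.card := by
    calc (X.card : ℝ) ≤ (n : ℝ) ^ 2 * Y.card := h8
      _ ≤ (n : ℝ) ^ 2 * (4 * ε * X.card * (p : ℝ) ^ 2) :=
        mul_le_mul_of_nonneg_left h9 (by positivity)
      _ = (4 * ε * (n : ℝ) ^ 2 * (p : ℝ) ^ 2) * X.card := by ring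
  nlinarith

end red

theorem pUniq (hSupp : StSupp) : StUniq := by
  classical
  intro S G _ _ _ _ _ z hzz X hX n N M m p _ _ _ hp2 hpN hpm ε hε0 hε
  have hp : p.Prime := Fact.out
  have hcop : m.Coprime p := ((Nat.Prime.coprime_iff_not_dvd hp).2 hpm).symm
  rw [Set.ncard_eq_toFinset_card', Set.ncard_eq_toFinset_card']
  let F : (Fin n → ZMod (m * p)) × (Fin n → ZMod (m * p)) →
      (Fin n → ZMod m) × (Fin n → ZMod m) := fun q =>
    (fun i => ZMod.castHom (dvd_mul_right m p) (ZMod m) (q.1 i),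
      fun i => ZMod.castHom (dvd_mul_right m p) (ZMod m) (q.2 i))
  apply Finset.card_le_mul_card_image_of_maps_to (f := F)
  · intro q hq
    rw [Set.mem_toFinset] at hq ⊢
    obtain ⟨_, _, h3⟩ := hq
    refine (uniq_sz_le M X m p hp.pos q.1 q.2).trans ?_
    rw [mul_assoc]
    exact mul_le_mul_of_nonneg_left h3 (by positivity)
  · intro b _
    set A := (Set.toFinset {q : (Fin n → ZMod (m * p)) × (Fin n → ZMod (m * p)) |
      (∃ i, ¬ p ∣ (q.1 i).val) ∧ (∃ i, ¬ p ∣ (q.2 i).val) ∧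
        M.sz X (m * p) q.1 q.2 ≤ ε * X.card}).filter (fun a => F a = b) with hA
    rcases A.eq_empty_or_nonempty with h0 | ⟨a, ha⟩
    · rw [h0, Finset.card_empty]
      exact Nat.zero_le _
    · have hmem : ∀ q ∈ A, (∃ i, ¬ p ∣ (q.1 i).val) ∧ (∃ i, ¬ p ∣ (q.2 i).val) ∧
          M.sz X (m * p) q.1 q.2 ≤ ε * X.card ∧ F q = b := by
        intro q hq
        have h1 := Finset.mem_filter.1 hq
        have h2 := (Set.mem_toFinset).1 h1.1
        exact ⟨h2.1, h2.2.1, h2.2.2, h1.2⟩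
      have hnz : ∀ v : Fin n → ZMod (m * p), (∃ i, ¬ p ∣ (v i).val) →
          (fun i => ZMod.castHom (dvd_mul_left p m) (ZMod p) (v i)) ≠ 0 := by
        rintro v ⟨i, hi⟩ h
        apply hi
        have h1 := congrFun h i
        rw [Pi.zero_apply, ← uniq_cast_val (dvd_mul_left p m), Int.cast_natCast,
          ZMod.natCast_eq_zero_iff] at h1
        exact h1
      have key : ∀ q ∈ A, ∃ l : ZMod p, l ≠ 0 ∧
          (fun i => ZMod.castHom (dvd_mul_left p m) (ZMod p) (q.1 i)) =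
            l • (fun i => ZMod.castHom (dvd_mul_left p m) (ZMod p) (a.1 i)) ∧
          (fun i => ZMod.castHom (dvd_mul_left p m) (ZMod p) (q.2 i)) =
            l⁻¹ • (fun i => ZMod.castHom (dvd_mul_left p m) (ZMod p) (a.2 i)) := by
        intro q hq
        obtain ⟨ha1, ha2, ha3, ha4⟩ := hmem a ha
        obtain ⟨hq1, hq2, hq3, hq4⟩ := hmem q hq
        have h4 : F a = F q := by rw [ha4, hq4]
        apply uniq_smul_of_tensor _ _ _ _ (hnz _ ha1) (hnz _ ha2)
        exact uniq_tensor hSupp hzz X hX M m p hp2 hpN ε hε a.1 a.2 q.1 q.2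
          (fun i => congrFun (congrArg Prod.fst h4) i)
          (fun i => congrFun (congrArg Prod.snd h4) i) ha3 hq3
      choose! g hg using key
      have hc : (Finset.univ.filter (fun l : ZMod p => l ≠ 0)).card = p - 1 := by
        rw [Finset.filter_ne', Finset.card_erase_of_mem (Finset.mem_univ _), Finset.card_univ,
          ZMod.card]
      rw [← hc]
      apply Finset.card_le_card_of_injOn g
      · intro q hq
        exact Finset.mem_coe.2 (Finset.mem_filter.2 ⟨Finset.mem_univ _, (hg q hq).1⟩)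
      · intro q hq q' hq' hqq
        have hq := Finset.mem_coe.1 hq
        have hq' := Finset.mem_coe.1 hq'
        obtain ⟨_, h1, h2⟩ := hg q hq
        obtain ⟨_, h1', h2'⟩ := hg q' hq'
        rw [hqq] at h1 h2
        have h3 : F q = F q' := by rw [(hmem q hq).2.2.2, (hmem q' hq').2.2.2]
        apply Prod.ext
        · funext i
          apply uniq_crt hcop
          · exact congrFun (congrArg Prod.fst h3) i
          · exact congrFun (h1.trans h1'.symm) i
        · funext i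
          apply uniq_crt hcop
          · exact congrFun (congrArg Prod.snd h3) i
          · exact congrFun (h2.trans h2'.symm) i

end Pool.Agent.Lib.MP_640417_ag.Full
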