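import Pool.Agent.Lib.MP_640417_ag.Full.SpecA
import Mathlib

/-!
# Units of a finite algebra over the field with `p` elements
-/

namespace Pool.Agent.Lib.MP_640417_ag.Full

open Module Finset

private theorem Units_pow_sub (p f : ℕ) (hp : 1 ≤ p) (hf : f ≠ 0) : (p - 1) ^ f ≤ p ^ f - 1 := by
  have h : (p - 1) ^ f < p ^ f := Nat.pow_lt_pow_left (by omega) hf
  omega

private theorem Units_gl_field (K : Type*) [Field K] [Finite K] (n : ℕ) :
    (Nat.card K - 1) ^ (n * n) ≤ Nat.card (Matrix (Fin n) (Fin n) K)ˣ := by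
  classical
  have := Fintype.ofFinite K
  have hc : Nat.card (Matrix (Fin n) (Fin n) K)ˣ
      = ∏ i : (Fin n), (Fintype.card K ^ n - Fintype.card K ^ (i : ℕ)) := Matrix.card_GL_field n
  rw [hc, Nat.card_eq_fintype_card]
  have hq : 1 ≤ Fintype.card K := Fintype.card_pos
  set q := Fintype.card K with hqdef
  have key : ∀ i : Fin n, (q - 1) ^ n ≤ q ^ n - q ^ (i : ℕ) := by
    intro i
    obtain ⟨m, rfl⟩ : ∃ m, n = m + 1 := ⟨n - 1, by have := i.2; omega⟩
    have h1 : q ^ (i : ℕ) ≤ q ^ m := Nat.pow_le_pow_right hq (by have := i.2; omega)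
    have h2 : (q - 1) ^ (m + 1) ≤ q ^ m * (q - 1) := by
      rw [pow_succ]
      exact Nat.mul_le_mul_right _ (Nat.pow_le_pow_left (by omega) _)
    have h3 : q ^ m * (q - 1) = q ^ (m + 1) - q ^ m := by
      rw [Nat.mul_sub, mul_one, pow_succ]
    omega
  calc (q - 1) ^ (n * n) = ∏ _i : Fin n, (q - 1) ^ n := by
        rw [Finset.prod_const, Finset.card_univ, Fintype.card_fin, pow_mul]
    _ ≤ _ := Finset.prod_le_prod' fun i _ => key i

private theorem Units_gl_div (K : Type*) [DivisionRing K] [Finite K] (n : ℕ) :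
    (Nat.card K - 1) ^ (n * n) ≤ Nat.card (Matrix (Fin n) (Fin n) K)ˣ := by
  let _ := littleWedderburn K
  exact Units_gl_field K n

private theorem Units_matrix (p : ℕ) [Fact p.Prime] (K : Type*) [DivisionRing K]
    [Algebra (ZMod p) K] [Finite K] (n : ℕ) :
    (p - 1) ^ finrank (ZMod p) (Matrix (Fin n) (Fin n) K)
      ≤ Nat.card (Matrix (Fin n) (Fin n) K)ˣ := by
  have hp : p.Prime := Fact.out
  have hf : finrank (ZMod p) (Matrix (Fin n) (Fin n) K) = n * n * finrank (ZMod p) K := by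
    rw [Module.finrank_matrix, Fintype.card_fin]
  have hK : Nat.card K = p ^ finrank (ZMod p) K := by
    rw [Module.natCard_eq_pow_finrank (K := ZMod p), Nat.card_zmod]
  have h0 : finrank (ZMod p) K ≠ 0 := by
    have : 0 < finrank (ZMod p) K := Module.finrank_pos
    omega
  refine le_trans ?_ (Units_gl_div K n)
  rw [hf, mul_comm, pow_mul, hK]
  exact Nat.pow_le_pow_left (Units_pow_sub p _ hp.one_le h0) _

private theorem Units_semisimple (p : ℕ) [Fact p.Prime] (A : Type) [Ring A]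
    [Algebra (ZMod p) A] [Finite A] [IsSemisimpleRing A] :
    (p - 1) ^ finrank (ZMod p) A ≤ Nat.card Aˣ := by
  obtain ⟨n, D, d, iD, iA, iF, hd, ⟨e⟩⟩ :=
    IsSemisimpleRing.exists_algEquiv_pi_matrix_divisionRing_finite (ZMod p) A
  have hfin : ∀ i, Finite (D i) := fun i => Module.finite_of_finite (ZMod p)
  have h1 : finrank (ZMod p) A
      = ∑ i, finrank (ZMod p) (Matrix (Fin (d i)) (Fin (d i)) (D i)) := by
    rw [e.toLinearEquiv.finrank_eq, Module.finrank_pi_fintype]
  have h2 : Nat.card Aˣ = ∏ i, Nat.card (Matrix (Fin (d i)) (Fin (d i)) (D i))ˣ := by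
    rw [Nat.card_congr ((Units.mapEquiv e.toMulEquiv).trans MulEquiv.piUnits).toEquiv,
      Nat.card_pi]
  rw [h1, h2, ← Finset.prod_pow_eq_pow_sum]
  exact Finset.prod_le_prod' fun i _ => Units_matrix p (D i) (d i)

/-- An element which is a unit modulo a nilpotent two sided ideal is a unit. -/
private theorem Units_lift (A : Type) [Ring A] (J : Ideal A) [J.IsTwoSided] (hJ : IsNilpotent J)
    (a : A) (ha : IsUnit (Ideal.Quotient.mk J a)) : IsUnit a := by
  have hnil : ∀ x ∈ J, IsNilpotent x := by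
    intro x hx
    obtain ⟨n, hn⟩ := hJ
    refine ⟨n, ?_⟩
    have : x ^ n ∈ J ^ n := Ideal.pow_mem_pow hx n
    rw [hn] at this
    simpa using this
  obtain ⟨b', hb1, hb2⟩ := isUnit_iff_exists.mp ha
  obtain ⟨b, rfl⟩ := Ideal.Quotient.mk_surjective b'
  have h1 : a * b - 1 ∈ J := by
    rw [← Ideal.Quotient.eq, map_mul, map_one]
    exact hb1
  have h2 : b * a - 1 ∈ J := by
    rw [← Ideal.Quotient.eq, map_mul, map_one]
    exact hb2
  have u1 : IsUnit (a * b) := by
    have := (hnil _ h1).isUnit_one_add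
    simpa using this
  have u2 : IsUnit (b * a) := by
    have := (hnil _ h2).isUnit_one_add
    simpa using this
  obtain ⟨x, hx1, hx2⟩ := isUnit_iff_exists.mp u1
  obtain ⟨y, hy1, hy2⟩ := isUnit_iff_exists.mp u2
  have r : a * (b * x) = 1 := by rw [← mul_assoc, hx1]
  have l : (y * b) * a = 1 := by rw [mul_assoc, hy2]
  have : b * x = y * b := (left_inv_eq_right_inv l r).symm
  exact isUnit_iff_exists.mpr ⟨b * x, r, by rw [this, l]⟩

private theorem Units_card (A : Type) [Ring A] [Finite A] (J : Ideal A) [J.IsTwoSided]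
    (hJ : IsNilpotent J) : Nat.card J * Nat.card (A ⧸ J)ˣ ≤ Nat.card Aˣ := by
  classical
  rw [← Nat.card_prod]
  have hs : ∀ u : (A ⧸ J)ˣ, ∃ a : A, Ideal.Quotient.mk J a = (u : A ⧸ J) :=
    fun u => Ideal.Quotient.mk_surjective _
  choose s hs using hs
  have hmk : ∀ (j : J) (u : (A ⧸ J)ˣ), Ideal.Quotient.mk J (s u + j) = (u : A ⧸ J) := by
    intro j u
    rw [map_add, hs u, Ideal.Quotient.eq_zero_iff_mem.mpr j.2, add_zero]
  let f : J × (A ⧸ J)ˣ → Aˣ := fun x =>
    (Units_lift A J hJ (s x.2 + x.1) (by rw [hmk]; exact x.2.isUnit)).unit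
  refine Nat.card_le_card_of_injective f ?_
  rintro ⟨j, u⟩ ⟨j', u'⟩ h
  have h1 : s u + (j : A) = s u' + (j' : A) := by
    have := congrArg (fun x : Aˣ => (x : A)) h
    simpa [f] using this
  have h2 : u = u' := by
    ext
    rw [← hmk j u, h1, hmk j' u']
  subst h2
  have h3 : (j : A) = (j' : A) := add_left_cancel h1
  rw [Subtype.ext h3]

/-- The number of units of a finite algebra over `ZMod p`. -/
theorem pUnits : StUnits := by
  intro p _ A _ _ _
  have hp : p.Prime := Fact.out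
  set J := Ring.jacobson A with hJdef
  have hart : IsArtinianRing A := inferInstance
  have hss : IsSemisimpleRing (A ⧸ J) := IsSemiprimaryRing.isSemisimpleRing
  have hnil : IsNilpotent J := IsSemiprimaryRing.isNilpotent
  have hfin : Finite (A ⧸ J) := Finite.of_surjective _ Ideal.Quotient.mk_surjective
  have hq := Units_semisimple p (A ⧸ J)
  have hc := Units_card A J hnil
  have hA : Nat.card A = p ^ finrank (ZMod p) A := by
    rw [Module.natCard_eq_pow_finrank (K := ZMod p), Nat.card_zmod]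
  have hQ : Nat.card (A ⧸ J) = p ^ finrank (ZMod p) (A ⧸ J) := by
    rw [Module.natCard_eq_pow_finrank (K := ZMod p), Nat.card_zmod]
  have hm : Nat.card A = Nat.card (A ⧸ J) * Nat.card J :=
    (Submodule.card_eq_card_quotient_mul_card J).trans (mul_comm _ _)
  have hle : finrank (ZMod p) (A ⧸ J) ≤ finrank (ZMod p) A := by
    have h1 : Nat.card (A ⧸ J) ≤ Nat.card A :=
      Nat.card_le_card_of_surjective _ Ideal.Quotient.mk_surjective
    rw [hA, hQ] at h1
    exact (Nat.pow_le_pow_iff_right hp.one_lt).mp h1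
  have hJc : Nat.card J = p ^ (finrank (ZMod p) A - finrank (ZMod p) (A ⧸ J)) := by
    have h1 : p ^ finrank (ZMod p) A = p ^ finrank (ZMod p) (A ⧸ J) * Nat.card J := by
      rw [← hA, ← hQ, hm]
    have h2 : p ^ finrank (ZMod p) A = p ^ finrank (ZMod p) (A ⧸ J)
        * p ^ (finrank (ZMod p) A - finrank (ZMod p) (A ⧸ J)) := by
      rw [← pow_add]; congr 1; omega
    exact Nat.eq_of_mul_eq_mul_left (pow_pos hp.pos _) (h1.symm.trans h2)
  calc (p - 1) ^ finrank (ZMod p) A
      = (p - 1) ^ (finrank (ZMod p) A - finrank (ZMod p) (A ⧸ J))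
        * (p - 1) ^ finrank (ZMod p) (A ⧸ J) := by rw [← pow_add]; congr 1; omega
    _ ≤ Nat.card J * Nat.card (A ⧸ J)ˣ := by
        rw [hJc]
        exact Nat.mul_le_mul (Nat.pow_le_pow_left (by omega) _) hq
    _ ≤ _ := hc

end Pool.Agent.Lib.MP_640417_ag.Full
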