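import Pool.Agent.Lib.MP_640417_ag.Full.FieldForm
import Pool.Agent.Lib.MP_640417_ag.Far.Prime
import Pool.Agent.Lib.MP_640417_ag.Far.IrrEx
import Pool.Agent.Lib.MP_640417_ag.Full.BadE
import Pool.Agent.Lib.MP_640417_ag.Full.Big
import Pool.Agent.Lib.MP_640417_ag.Full.BigNum
import Pool.Agent.Lib.MP_640417_ag.Full.C1small
import Pool.Agent.Lib.MP_640417_ag.Full.Coef
import Pool.Agent.Lib.MP_640417_ag.Full.Compare
import Pool.Agent.Lib.MP_640417_ag.Full.Copies
import Pool.Agent.Lib.MP_640417_ag.Full.Cork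
import Pool.Agent.Lib.MP_640417_ag.Full.Corr
import Pool.Agent.Lib.MP_640417_ag.Full.CountE
import Pool.Agent.Lib.MP_640417_ag.Full.Defs
import Pool.Agent.Lib.MP_640417_ag.Full.Dist
import Pool.Agent.Lib.MP_640417_ag.Full.Drop
import Pool.Agent.Lib.MP_640417_ag.Full.EndGe
import Pool.Agent.Lib.MP_640417_ag.Full.EndLe
import Pool.Agent.Lib.MP_640417_ag.Full.First
import Pool.Agent.Lib.MP_640417_ag.Full.Four
import Pool.Agent.Lib.MP_640417_ag.Full.Gauss
import Pool.Agent.Lib.MP_640417_ag.Full.HomDim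
import Pool.Agent.Lib.MP_640417_ag.Full.Hybrid
import Pool.Agent.Lib.MP_640417_ag.Full.Kappa
import Pool.Agent.Lib.MP_640417_ag.Full.Lclt
import Pool.Agent.Lib.MP_640417_ag.Full.Lift
import Pool.Agent.Lib.MP_640417_ag.Full.Maschke
import Pool.Agent.Lib.MP_640417_ag.Full.Mat
import Pool.Agent.Lib.MP_640417_ag.Full.MinLift
import Pool.Agent.Lib.MP_640417_ag.Full.Mod
import Pool.Agent.Lib.MP_640417_ag.Full.Mult
import Pool.Agent.Lib.MP_640417_ag.Full.NumC
import Pool.Agent.Lib.MP_640417_ag.Full.OneDim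
import Pool.Agent.Lib.MP_640417_ag.Full.Ord
import Pool.Agent.Lib.MP_640417_ag.Full.PrimEl
import Pool.Agent.Lib.MP_640417_ag.Full.Real
import Pool.Agent.Lib.MP_640417_ag.Full.SchurR
import Pool.Agent.Lib.MP_640417_ag.Full.Sing
import Pool.Agent.Lib.MP_640417_ag.Full.Small
import Pool.Agent.Lib.MP_640417_ag.Full.Span
import Pool.Agent.Lib.MP_640417_ag.Full.SpecA
import Pool.Agent.Lib.MP_640417_ag.Full.SpecB
import Pool.Agent.Lib.MP_640417_ag.Full.SpecC
import Pool.Agent.Lib.MP_640417_ag.Full.SpecG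
import Pool.Agent.Lib.MP_640417_ag.Full.Split
import Pool.Agent.Lib.MP_640417_ag.Full.Step
import Pool.Agent.Lib.MP_640417_ag.Full.Struct
import Pool.Agent.Lib.MP_640417_ag.Full.Sub
import Pool.Agent.Lib.MP_640417_ag.Full.SubA
import Pool.Agent.Lib.MP_640417_ag.Full.SubB
import Pool.Agent.Lib.MP_640417_ag.Full.SubC
import Pool.Agent.Lib.MP_640417_ag.Full.Sum
import Pool.Agent.Lib.MP_640417_ag.Full.Supp
import Pool.Agent.Lib.MP_640417_ag.Full.TV
import Pool.Agent.Lib.MP_640417_ag.Full.Tail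
import Pool.Agent.Lib.MP_640417_ag.Full.ThreeA
import Pool.Agent.Lib.MP_640417_ag.Full.ThreeNum
import Pool.Agent.Lib.MP_640417_ag.Full.Two
import Pool.Agent.Lib.MP_640417_ag.Full.TwoPrimes
import Pool.Agent.Lib.MP_640417_ag.Full.Uniq
import Pool.Agent.Lib.MP_640417_ag.Full.Units

/-!
# Assembly of the theorem for CM fields
-/

namespace Pool.Agent.Lib.MP_640417_ag.Full

open NumberField Module Finset MulAction Pool.Agent.Lib.MP_640417_ag Pool.Agent.Lib.MP_640417_ag.Far

theorem qHom : StHomDim := pHomDim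
theorem qMult : StMult := pMult qHom
theorem qCountE : StCountE := pCountE pUnits pEndGe
theorem qBadE : StBadE := pBadE qCountE
theorem qEndLe : StEndLe := pEndLe pLift
theorem qNumC : StNumC := pNumC primeSel pKappa
theorem qCopies : StCopies := pCopies pMaschke qEndLe
theorem qTwo : StTwo := pTwo qCountE pOneDim qCopies pSpan pFour pKappa
theorem qPrimEl : StPrimEl := pPrimEl pMaschke
theorem qMinLift : StMinLift := pMinLift pLift
theorem qBigNum : StBigNum := pBigNum primeSel pKappa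
theorem qMod : StMod := pMod qNumC qBadE qMult
theorem qHybrid : StHybrid := pHybrid (pStep pTV)
theorem qStruct : StStruct := pStruct pSchurR
theorem qGauss : StGauss := pGauss qHybrid pDist qStruct
theorem qBig : StBig := pBig qBigNum qBadE pSub qPrimEl qMinLift pEndGe pReal qGauss
theorem qSmall : StSmall := pSmall pCompare pDrop (pCork pSupp)
theorem qUniq : StUniq := pUniq pSupp
theorem qThreeA : StThreeA := pThreeA pFirst qSmall qUniq
theorem qC1small : StC1small := pC1small pCoef pLclt pSing pTail pKappa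
theorem qSplit : StSplit := pSplit pMat qC1small qThreeA pThreeNum pTwoPrimes

theorem field_full : ∃ C : ℝ, 0 < C ∧
    ∀ (E : Type) [Field E] [NumberField E] [IsCMField E] (g : ℕ) (_ : finrank ℚ E = 2 * g)
      (_ : 2 ≤ g) (z : galGroup E) (_ : ∀ φ : Emb E, z • φ = conjEmb φ),
      ({e : Emb E → ℤ | IsSgn z e ∧ ∃ v : Emb E → ℤ, v ≠ 0 ∧ (∀ s, v (z • s) = - v s) ∧
        ∀ γ : galGroup E, ∑ s, v s * e (γ • s) = 0}.ncard : ℝ)
      ≤ C * ((numSub E 2 : ℝ) / Real.sqrt g + ((numSub E 4 : ℝ) + numSub E 6) / g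
        + ((numGal E 8 : ℝ) + numGal E 12) * Real.log (g + 1) ^ 2 / g
        + Real.log g ^ (-(1 / 4) : ℝ)) * 2 ^ g :=
  field_form qMult qMod qBig qTwo qSplit pSum irrEx pSubA (pSubB pOrd) (pSubC pOrd) pCorr

end Pool.Agent.Lib.MP_640417_ag.Full
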