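import Pool.Agent.Lib.MP_640417_ag.Full.SpecB

/-!
# The random walk has small corank
-/

namespace Pool.Agent.Lib.MP_640417_ag.Full

open Module Finset MulAction Matrix Pool.Agent.Lib.MP_640417_ag.Far

section cork

variable {q : ℕ} [hp : Fact q.Prime]

/-- Away from the residue `0` the cosine is bounded away from `1`. -/
private theorem cork_cos (hq2 : q ≠ 2) (t : ZMod q) (ht : t ≠ 0) :
    cosAbs q t ^ 2 ≤ 1 - 4 / (q : ℝ) ^ 2 := by
  have hp0 : (0 : ℝ) < q := by exact_mod_cast hp.out.pos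
  set u : ℝ := 2 * (t.val : ℝ) / q with hu
  set n : ℤ := round u with hn
  have h1 : |u - n| ≤ 1 / 2 := abs_sub_round u
  have h2 : 1 / (q : ℝ) ≤ |u - n| := by
    have h3 : (2 * (t.val : ℤ) - n * q) ≠ 0 := by
      intro h
      have h4 : (q : ℤ) ∣ 2 * (t.val : ℤ) := ⟨n, by linarith⟩
      have h5 : q ∣ 2 * t.val := by exact_mod_cast h4
      rcases (Nat.Prime.dvd_mul hp.out).mp h5 with h6 | h6
      · exact hq2 ((Nat.prime_dvd_prime_iff_eq hp.out Nat.prime_two).mp h6)
      · have h7 : t.val = 0 := Nat.eq_zero_of_dvd_of_lt h6 (ZMod.val_lt t)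
        exact ht ((ZMod.val_eq_zero t).mp h7)
    have h4 : (1 : ℝ) ≤ |(2 * (t.val : ℝ) - n * q)| := by
      have h5 : (1 : ℤ) ≤ |(2 * (t.val : ℤ) - n * q)| := Int.one_le_abs h3
      have h6 : ((|(2 * (t.val : ℤ) - n * q)| : ℤ) : ℝ) = |(2 * (t.val : ℝ) - n * q)| := by
        push_cast
        rfl
      rw [← h6]
      exact_mod_cast h5
    have h5 : |2 * (t.val : ℝ) - n * q| = |u - n| * q := by
      rw [← abs_of_pos hp0, ← abs_mul, abs_of_pos hp0]
      congr 1
      rw [hu]
      field_simp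
    rw [h5] at h4
    rw [div_le_iff₀ hp0]
    exact h4
  have h3 : cosAbs q t = |Real.cos (Real.pi * |u - n|)| := by
    unfold cosAbs
    have h4 : 2 * Real.pi * (t.val : ℝ) / q = Real.pi * (u - n) + n * Real.pi := by
      rw [hu]
      field_simp
      ring
    rw [h4]
    have h5 : |Real.cos (Real.pi * (u - n) + n * Real.pi)| = |Real.cos (Real.pi * (u - n))| := by
      rw [Real.cos_add_int_mul_pi, abs_mul, abs_zpow]
      simp
    rw [h5]
    rcases abs_cases (u - n) with ⟨h6, -⟩ | ⟨h6, -⟩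
    · rw [h6]
    · rw [h6, mul_neg, Real.cos_neg]
  have hpi := Real.pi_pos
  set y : ℝ := Real.pi * |u - n| with hy
  have hy0 : 0 ≤ y := by positivity
  have hy1 : y ≤ Real.pi / 2 := by
    rw [hy]
    nlinarith
  have hy2 : Real.pi / q ≤ y := by
    rw [hy, div_eq_mul_one_div]
    exact mul_le_mul_of_nonneg_left h2 hpi.le
  have h4 : 2 / (q : ℝ) ≤ Real.sin y := by
    calc 2 / (q : ℝ) = 2 / Real.pi * (Real.pi / q) := by field_simp
      _ ≤ 2 / Real.pi * y := mul_le_mul_of_nonneg_left hy2 (by positivity)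
      _ ≤ Real.sin y := Real.mul_le_sin hy0 hy1
  have h5 : (2 / (q : ℝ)) ^ 2 ≤ Real.sin y ^ 2 := pow_le_pow_left₀ (by positivity) h4 2
  have h6 := Real.sin_sq_add_cos_sq y
  rw [h3, sq_abs]
  have h7 : (2 / (q : ℝ)) ^ 2 = 4 / (q : ℝ) ^ 2 := by ring
  linarith

/-- Orthogonality. -/
private theorem cork_orth {n k : ℕ} (W : Matrix (Fin n) (Fin k) (ZMod q)) :
    ∑ B : Matrix (Fin k) (Fin n) (ZMod q), (ZMod.stdAddChar ((B * W).trace) : ℂ)
      = if W = 0 then (q : ℂ) ^ (k * n) else 0 := by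
  classical
  let f : Matrix (Fin k) (Fin n) (ZMod q) →+ ZMod q :=
    { toFun := fun B => (B * W).trace
      map_zero' := by simp
      map_add' := by intro a b; simp [Matrix.add_mul] }
  have h := AddChar.sum_eq_ite ((ZMod.stdAddChar (N := q)).compAddMonoidHom f)
  have h2 : ((ZMod.stdAddChar (N := q)).compAddMonoidHom f = 0) ↔ W = 0 := by
    constructor
    · intro h0
      ext i j
      have h1 := DFunLike.congr_fun h0 (Matrix.single j i 1)
      have h3 : f (Matrix.single j i 1) = W i j := by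
        simp [f, Matrix.trace_single_mul]
      rw [AddChar.compAddMonoidHom_apply, h3, AddChar.zero_apply,
        ← (ZMod.stdAddChar (N := q)).map_zero_eq_one] at h1
      exact ZMod.injective_stdAddChar h1
    · rintro rfl
      ext B
      simp [f]
  have h3 : (Fintype.card (Matrix (Fin k) (Fin n) (ZMod q)) : ℂ) = (q : ℂ) ^ (k * n) := by
    have h4 : Nat.card (Matrix (Fin k) (Fin n) (ZMod q)) = q ^ (k * n) := by
      have h5 : Nat.card (Fin k → Fin n → ZMod q) = q ^ (k * n) := by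
        rw [Nat.card_fun, Nat.card_fun, Nat.card_zmod, Nat.card_fin, Nat.card_fin, ← pow_mul,
          mul_comm]
      exact h5
    rw [← Nat.card_eq_fintype_card, h4]
    push_cast
    rfl
  rw [← h3]
  simp only [h2] at h
  exact h

private theorem cork_prod {K : ℕ} (a : Fin K → ZMod q) :
    (ZMod.stdAddChar (∑ i, a i) : ℂ) = ∏ i, (ZMod.stdAddChar (a i) : ℂ) := by
  have h : ∀ s : Finset (Fin K),
      (ZMod.stdAddChar (∑ i ∈ s, a i) : ℂ) = ∏ i ∈ s, (ZMod.stdAddChar (a i) : ℂ) := by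
    intro s
    classical
    induction s using Finset.induction_on with
    | empty => simp
    | insert i s hi ih => rw [Finset.sum_insert hi, Finset.prod_insert hi,
        AddChar.map_add_eq_mul, ih]
  exact h _

/-- The sum over all walks. -/
private theorem cork_walk {S : Type} [Fintype S] (u : S → ZMod q) (K : ℕ) :
    ∑ σ : Fin K → S × Bool × Bool, (ZMod.stdAddChar
      (∑ i, ((sg (σ i).2.1 + sg (σ i).2.2 : ℤ) : ZMod q) * u (σ i).1) : ℂ)
      = (((4 * ∑ s, cosAbs q (u s) ^ 2) ^ K : ℝ) : ℂ) := by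
  have h1 : ∀ σ : Fin K → S × Bool × Bool, (ZMod.stdAddChar
      (∑ i, ((sg (σ i).2.1 + sg (σ i).2.2 : ℤ) : ZMod q) * u (σ i).1) : ℂ)
      = ∏ i, (ZMod.stdAddChar (((sg (σ i).2.1 + sg (σ i).2.2 : ℤ) : ZMod q) * u (σ i).1) : ℂ) := by
    intro σ
    exact cork_prod _
  rw [Finset.sum_congr rfl (fun σ _ => h1 σ), ← Fintype.sum_pow
    (f := fun x : S × Bool × Bool =>
      (ZMod.stdAddChar (((sg x.2.1 + sg x.2.2 : ℤ) : ZMod q) * u x.1) : ℂ))]
  push_cast
  congr 1
  rw [Fintype.sum_prod_type, mul_sum]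
  refine Finset.sum_congr rfl fun s _ => ?_
  have h2 := stdAddChar_add_neg (u s)
  have h3 : (ZMod.stdAddChar (u s) : ℂ) * ZMod.stdAddChar (-(u s)) = 1 := by
    rw [← AddChar.map_add_eq_mul, add_neg_cancel, AddChar.map_zero_eq_one]
  have h4 : (4 * (cosAbs q (u s) : ℂ) ^ 2)
      = ((ZMod.stdAddChar (u s) : ℂ) + ZMod.stdAddChar (-(u s))) ^ 2 := by
    rw [h2]
    have : cosAbs q (u s) ^ 2 = (Real.cos (2 * Real.pi * ((u s).val : ℝ) / q)) ^ 2 := by
      rw [cosAbs, sq_abs]
    rw [← Complex.ofReal_pow, this]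
    push_cast
    ring
  rw [h4, Fintype.sum_prod_type]
  have h5 : (ZMod.stdAddChar ((((sg true : ℤ) : ZMod q) + ((sg true : ℤ) : ZMod q)) * u s) : ℂ)
      = ZMod.stdAddChar (u s) * ZMod.stdAddChar (u s) := by
    rw [← AddChar.map_add_eq_mul]
    congr 1
    simp [sg]
    ring
  have h6 : (ZMod.stdAddChar ((((sg false : ℤ) : ZMod q) + ((sg false : ℤ) : ZMod q)) * u s) : ℂ)
      = ZMod.stdAddChar (-(u s)) * ZMod.stdAddChar (-(u s)) := by
    rw [← AddChar.map_add_eq_mul]
    congr 1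
    simp [sg]
    ring
  have h7 : (((sg true : ℤ) : ZMod q) + ((sg false : ℤ) : ZMod q)) * u s = 0 := by simp [sg]
  have h8 : (((sg false : ℤ) : ZMod q) + ((sg true : ℤ) : ZMod q)) * u s = 0 := by simp [sg]
  rw [Fintype.sum_bool, Fintype.sum_bool, Fintype.sum_bool]
  simp only []
  rw [h5, h6, h7, h8, AddChar.map_zero_eq_one]
  linear_combination (-2 : ℂ) * h3

/-- The full rank matrices with `n` rows and `k` columns. -/
private def CorkT (q n k : ℕ) (V : Matrix (Fin n) (Fin k) (ZMod q)) : Prop :=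
  ∀ x : Fin k → ZMod q, V *ᵥ x = 0 → x = 0

/-- The product is zero. -/
private def CorkZ {q n k : ℕ} (A : Matrix (Fin n) (Fin n) (ZMod q))
    (V : Matrix (Fin n) (Fin k) (ZMod q)) : Prop := A * V = 0

/-- Matrices of small rank kill many independent tuples. -/
private theorem cork_tuples {n k : ℕ} (A : Matrix (Fin n) (Fin n) (ZMod q))
    (h : A.rank + k ≤ n) :
    q ^ (k ^ 2) ≤ 2 ^ k *
      Nat.card {V : Matrix (Fin n) (Fin k) (ZMod q) // CorkT q n k V ∧ CorkZ A V} := by
  classical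
  set V0 := LinearMap.ker A.mulVecLin with hV0
  have hd : k ≤ finrank (ZMod q) V0 := by
    have h1 := LinearMap.finrank_range_add_finrank_ker A.mulVecLin
    rw [Module.finrank_fin_fun, ← hV0] at h1
    have h2 : A.rank = finrank (ZMod q) (LinearMap.range A.mulVecLin) := rfl
    omega
  have h1 := card_linearIndependent (K := ZMod q) (V := V0) hd
  rw [ZMod.card] at h1
  have h2 : q ^ (k ^ 2) ≤ 2 ^ k * Nat.card {s : Fin k → V0 // LinearIndependent (ZMod q) s} := by
    rw [h1]
    have h3 : (2 : ℕ) ^ k = ∏ _i : Fin k, 2 := by simp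
    have h4 : q ^ (k ^ 2) = ∏ _i : Fin k, q ^ k := by simp [← pow_mul, sq]
    rw [h3, h4, ← Finset.prod_mul_distrib]
    apply Finset.prod_le_prod' 
    intro i _
    have h5 : 2 * q ^ (i : ℕ) ≤ q ^ k := by
      calc 2 * q ^ (i : ℕ) ≤ q * q ^ (i : ℕ) := Nat.mul_le_mul_right _ hp.out.two_le
        _ = q ^ ((i : ℕ) + 1) := by rw [pow_succ']
        _ ≤ q ^ k := Nat.pow_le_pow_right hp.out.pos i.2
    have h6 : q ^ k ≤ q ^ finrank (ZMod q) V0 := Nat.pow_le_pow_right hp.out.pos hd
    omega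
  refine h2.trans (Nat.mul_le_mul_left _ ?_)
  let F : {s : Fin k → V0 // LinearIndependent (ZMod q) s} →
      {V : Matrix (Fin n) (Fin k) (ZMod q) // CorkT q n k V ∧ CorkZ A V} := fun s =>
    ⟨Matrix.of fun i j => (s.1 j).1 i, by
      constructor
      · intro x hx
        have h3 : ∑ j, x j • s.1 j = 0 := by
          apply Subtype.ext
          funext i
          have h4 := congrFun hx i
          simp only [Matrix.mulVec, dotProduct, Matrix.of_apply, Pi.zero_apply] at h4
          simp only [Submodule.coe_sum, Submodule.coe_smul, Finset.sum_apply, Pi.smul_apply,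
            smul_eq_mul, ZeroMemClass.coe_zero, Pi.zero_apply]
          rw [← h4]
          exact Finset.sum_congr rfl fun j _ => mul_comm _ _
        funext j
        exact Fintype.linearIndependent_iff.1 s.2 x h3 j
      · ext i j
        have h4 : A *ᵥ (s.1 j).1 = 0 := by
          have h5 : (s.1 j).1 ∈ LinearMap.ker A.mulVecLin := (s.1 j).2
          exact LinearMap.mem_ker.1 h5
        exact congrFun h4 i⟩
  have hF : Function.Injective F := by
    intro s s' hss
    apply Subtype.ext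
    funext j
    apply Subtype.ext
    funext i
    have := congrArg Subtype.val hss
    exact congrFun (congrFun this i) j
  exact Nat.card_le_card_of_injective F hF

/-- The reduction of the walk. -/
private theorem cork_walk_map {S G : Type} [Fintype S] [Group G] [MulAction G S] {z : G}
    {n N : ℕ} (M : MatSys S G z n N) {K : ℕ} (σ : Fin K → S × Bool × Bool) :
    (M.walk σ).map (Int.cast : ℤ → ZMod q)
      = ∑ i, ((sg (σ i).2.1 + sg (σ i).2.2 : ℤ) : ZMod q) •
        (M.Φ (σ i).1).map (Int.cast : ℤ → ZMod q) := by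
  ext a b
  simp only [MatSys.walk, Matrix.map_apply, Matrix.sum_apply, Matrix.smul_apply, smul_eq_mul,
    Int.cast_sum, Int.cast_mul]

/-- The space of the functions `s ↦ tr (Φ s A)`. -/
private noncomputable def corkL {S G : Type} [Fintype S] [Group G] [MulAction G S] {z : G}
    {n N : ℕ} (M : MatSys S G z n N) (q : ℕ) :
    Matrix (Fin n) (Fin n) (ZMod q) →ₗ[ZMod q] (S → ZMod q) where
  toFun A s := (((M.Φ s).map (Int.cast : ℤ → ZMod q)) * A).trace
  map_add' A A' := by
    funext s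
    simp [Matrix.mul_add]
  map_smul' c A := by
    funext s
    simp

private theorem cork_supp (hSupp : StSupp) {S G : Type} [Fintype S] [Group G] [Finite G]
    [MulAction G S] [IsPretransitive G S] {z : G}
    {n N : ℕ} (M : MatSys S G z n N) (hqN : ¬ q ∣ N) (C : Matrix (Fin n) (Fin n) (ZMod q))
    (hC : C ≠ 0) : Fintype.card S ≤ n ^ 2 * {s : S | corkL M q C s ≠ 0}.ncard := by
  classical
  set U : Submodule (ZMod q) (S → ZMod q) := LinearMap.range (corkL M q) with hU
  have hst : IsStab G U := by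
    rintro f ⟨A, rfl⟩ γ
    refine ⟨A * (M.R γ).map (Int.cast : ℤ → ZMod q), ?_⟩
    funext s
    show (((M.Φ s).map (Int.cast : ℤ → ZMod q)) *
      (A * (M.R γ).map (Int.cast : ℤ → ZMod q))).trace
      = (((M.Φ (γ • s)).map (Int.cast : ℤ → ZMod q)) * A).trace
    rw [M.smul γ s]
    have h1 : (M.R γ * M.Φ s).map (Int.cast : ℤ → ZMod q)
        = (M.R γ).map (Int.cast : ℤ → ZMod q) * (M.Φ s).map (Int.cast : ℤ → ZMod q) := by
      ext a b
      simp [Matrix.mul_apply]
    rw [h1, ← Matrix.mul_assoc, Matrix.trace_mul_comm, Matrix.mul_assoc]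
  have hne : corkL M q C ≠ 0 := by
    intro h0
    apply hC
    exact M.indep q hp.out hqN C (fun s => congrFun h0 s)
  have h1 := hSupp S G (ZMod q) U hst (corkL M q C) ⟨C, rfl⟩ hne
  refine h1.trans (Nat.mul_le_mul_right _ ?_)
  have h2 := LinearMap.finrank_range_le (corkL M q)
  have h3 : finrank (ZMod q) (Matrix (Fin n) (Fin n) (ZMod q)) = n ^ 2 := by
    rw [Module.finrank_matrix]
    simp [sq]
  rw [h3] at h2
  exact h2

/-- The mean of `cos ^ 2`. -/
private theorem cork_mean (hSupp : StSupp) (hq2 : q ≠ 2) {S G : Type} [Fintype S] [Group G]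
    [Finite G] [MulAction G S] [IsPretransitive G S] {z : G}
    {n N : ℕ} (hn : 0 < n) (M : MatSys S G z n N) (hqN : ¬ q ∣ N)
    (C : Matrix (Fin n) (Fin n) (ZMod q))
    (hC : C ≠ 0) : ∑ s, cosAbs q (corkL M q C s) ^ 2
      ≤ Fintype.card S * Real.exp (-(4 / ((n : ℝ) * q) ^ 2)) := by
  classical
  have hq0 : (0 : ℝ) < q := by exact_mod_cast hp.out.pos
  have hn0 : (0 : ℝ) < n := by exact_mod_cast hn
  have h1 := cork_supp hSupp M hqN C hC
  set u := corkL M q C with hu
  have h2 : {s : S | u s ≠ 0}.ncard = (univ.filter (fun s => u s ≠ 0)).card := by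
    rw [← Set.ncard_coe_finset]
    congr 1
    ext s
    simp
  have h3 : (Fintype.card S : ℝ) ≤ (n : ℝ) ^ 2 * ((univ.filter (fun s => u s ≠ 0)).card : ℝ) := by
    rw [← h2]
    exact_mod_cast h1
  have h4 : ∑ s, cosAbs q (u s) ^ 2
      ≤ ∑ s, (1 - (if u s ≠ 0 then 4 / (q : ℝ) ^ 2 else 0)) := by
    apply Finset.sum_le_sum
    intro s _
    by_cases hs : u s = 0
    · simp [hs, cosAbs_zero]
    · rw [if_pos hs]
      exact cork_cos hq2 _ hs
  have h5 : ∑ s, (1 - (if u s ≠ 0 then 4 / (q : ℝ) ^ 2 else 0))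
      = Fintype.card S - ((univ.filter (fun s => u s ≠ 0)).card : ℝ) * (4 / (q : ℝ) ^ 2) := by
    rw [Finset.sum_sub_distrib, ← Finset.sum_filter, Finset.sum_const, Finset.sum_const,
      nsmul_eq_mul, nsmul_eq_mul, mul_one, Finset.card_univ]
  have h6 : (Fintype.card S : ℝ) * (4 / ((n : ℝ) * q) ^ 2)
      ≤ ((univ.filter (fun s => u s ≠ 0)).card : ℝ) * (4 / (q : ℝ) ^ 2) := by
    have h7 : (Fintype.card S : ℝ) * (4 / ((n : ℝ) * q) ^ 2)
        = (Fintype.card S : ℝ) / (n : ℝ) ^ 2 * (4 / (q : ℝ) ^ 2) := by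
      field_simp
    rw [h7]
    apply mul_le_mul_of_nonneg_right _ (by positivity)
    rw [div_le_iff₀ (by positivity), mul_comm]
    exact h3
  have h8 := Real.add_one_le_exp (-(4 / ((n : ℝ) * q) ^ 2))
  calc ∑ s, cosAbs q (u s) ^ 2
      ≤ Fintype.card S - ((univ.filter (fun s => u s ≠ 0)).card : ℝ) * (4 / (q : ℝ) ^ 2) :=
        h4.trans h5.le
    _ ≤ Fintype.card S - (Fintype.card S : ℝ) * (4 / ((n : ℝ) * q) ^ 2) := by linarith
    _ = Fintype.card S * (-(4 / ((n : ℝ) * q) ^ 2) + 1) := by ring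
    _ ≤ _ := mul_le_mul_of_nonneg_left h8 (Nat.cast_nonneg _)

private theorem cork_card (n k : ℕ) :
    Fintype.card (Matrix (Fin n) (Fin k) (ZMod q)) = q ^ (k * n) := by
  have h5 : Nat.card (Fin n → Fin k → ZMod q) = q ^ (k * n) := by
    rw [Nat.card_fun, Nat.card_fun, Nat.card_zmod, Nat.card_fin, Nat.card_fin, ← pow_mul]
  rw [← Nat.card_eq_fintype_card]
  exact h5

end cork

theorem pCork (hSupp : StSupp) : StCork := by
  intro S G _ _ _ _ _ z _ n N M hn q hq hq2 hqN K k
  classical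
  set A : (Fin K → S × Bool × Bool) → Matrix (Fin n) (Fin n) (ZMod q) :=
    fun σ => (M.walk σ).map (Int.cast : ℤ → ZMod q) with hA
  set T : Finset (Matrix (Fin n) (Fin k) (ZMod q)) := univ.filter (CorkT q n k) with hT
  set E : ℝ := Real.exp (-(4 * K / ((n : ℝ) * q) ^ 2)) with hE
  have hq0 : (0 : ℝ) < q := by exact_mod_cast hq.out.pos
  have hcnt : ∀ σ, Nat.card {V : Matrix (Fin n) (Fin k) (ZMod q) // CorkT q n k V ∧ CorkZ (A σ) V}
      = (T.filter (CorkZ (A σ))).card := by
    intro σ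
    rw [Nat.card_eq_fintype_card, Fintype.card_subtype]
    congr 1
    rw [hT, Finset.filter_filter]
  -- the main identity
  have hid : (q : ℝ) ^ (k * n) * ∑ σ, ((T.filter (CorkZ (A σ))).card : ℝ)
      = ∑ V ∈ T, ∑ B : Matrix (Fin k) (Fin n) (ZMod q),
        (4 * ∑ s, cosAbs q (corkL M q (V * B) s) ^ 2) ^ K := by
    have hc : (((q : ℝ) ^ (k * n) * ∑ σ, ((T.filter (CorkZ (A σ))).card : ℝ) : ℝ) : ℂ)
        = ((∑ V ∈ T, ∑ B : Matrix (Fin k) (Fin n) (ZMod q),
        (4 * ∑ s, cosAbs q (corkL M q (V * B) s) ^ 2) ^ K : ℝ) : ℂ) := by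
      calc (((q : ℝ) ^ (k * n) * ∑ σ, ((T.filter (CorkZ (A σ))).card : ℝ) : ℝ) : ℂ)
          = ∑ σ, ∑ V ∈ T, (if CorkZ (A σ) V then (q : ℂ) ^ (k * n) else 0) := by
            push_cast
            rw [Finset.mul_sum]
            refine Finset.sum_congr rfl fun σ _ => ?_
            rw [← Finset.sum_filter, Finset.sum_const, nsmul_eq_mul, mul_comm]
        _ = ∑ σ, ∑ V ∈ T, ∑ B : Matrix (Fin k) (Fin n) (ZMod q),
              (ZMod.stdAddChar ((B * (A σ * V)).trace) : ℂ) := by
            refine Finset.sum_congr rfl fun σ _ => Finset.sum_congr rfl fun V _ => ?_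
            rw [cork_orth]
            by_cases h0 : A σ * V = 0
            · rw [if_pos h0, if_pos (show CorkZ (A σ) V from h0)]
            · rw [if_neg h0, if_neg (show ¬ CorkZ (A σ) V from h0)]
        _ = ∑ V ∈ T, ∑ B : Matrix (Fin k) (Fin n) (ZMod q), ∑ σ,
              (ZMod.stdAddChar ((B * (A σ * V)).trace) : ℂ) := by
            rw [Finset.sum_comm]
            refine Finset.sum_congr rfl fun V _ => ?_
            rw [Finset.sum_comm]
        _ = ∑ V ∈ T, ∑ B : Matrix (Fin k) (Fin n) (ZMod q),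
              (((4 * ∑ s, cosAbs q (corkL M q (V * B) s) ^ 2) ^ K : ℝ) : ℂ) := by
            refine Finset.sum_congr rfl fun V _ => Finset.sum_congr rfl fun B _ => ?_
            rw [← cork_walk]
            refine Finset.sum_congr rfl fun σ _ => ?_
            congr 1
            rw [Matrix.trace_mul_comm, Matrix.mul_assoc, hA]
            simp only []
            rw [cork_walk_map, Finset.sum_mul, Matrix.trace_sum]
            refine Finset.sum_congr rfl fun i _ => ?_
            rw [Matrix.smul_mul, Matrix.trace_smul, smul_eq_mul]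
            rfl
        _ = _ := by push_cast; rfl
    exact_mod_cast hc
  -- the bound of one term
  have hS0 : (0 : ℝ) ≤ 4 * Fintype.card S := by positivity
  have hB : ∀ V ∈ T, ∑ B : Matrix (Fin k) (Fin n) (ZMod q),
        (4 * ∑ s, cosAbs q (corkL M q (V * B) s) ^ 2) ^ K
      ≤ (4 * Fintype.card S) ^ K * (1 + (q : ℝ) ^ (k * n) * E) := by
    intro V hV
    rw [← Finset.add_sum_erase _ _ (Finset.mem_univ (0 : Matrix (Fin k) (Fin n) (ZMod q)))]
    have h1 : (4 * ∑ s, cosAbs q (corkL M q (V * (0 : Matrix (Fin k) (Fin n) (ZMod q))) s) ^ 2) ^ K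
        ≤ (4 * Fintype.card S : ℝ) ^ K := by
      apply pow_le_pow_left₀ (mul_nonneg (by norm_num)
        (Finset.sum_nonneg fun _ _ => sq_nonneg _))
      apply mul_le_mul_of_nonneg_left _ (by norm_num)
      calc ∑ s, cosAbs q (corkL M q (V * (0 : Matrix (Fin k) (Fin n) (ZMod q))) s) ^ 2
          ≤ ∑ _s : S, (1 : ℝ) := Finset.sum_le_sum fun s _ =>
            pow_le_one₀ (cosAbs_nonneg _) (cosAbs_le_one _)
        _ = Fintype.card S := by simp
    have h2 : ∑ B ∈ univ.erase (0 : Matrix (Fin k) (Fin n) (ZMod q)),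
          (4 * ∑ s, cosAbs q (corkL M q (V * B) s) ^ 2) ^ K
        ≤ ∑ _B ∈ univ.erase (0 : Matrix (Fin k) (Fin n) (ZMod q)),
          ((4 * Fintype.card S : ℝ) ^ K * E) := by
      apply Finset.sum_le_sum
      intro B hB
      have hB0 : B ≠ 0 := Finset.ne_of_mem_erase hB
      have hC : V * B ≠ 0 := by
        intro h0
        apply hB0
        have hV' : CorkT q n k V := (Finset.mem_filter.1 hV).2
        ext i j
        have h3 : V *ᵥ (fun i => B i j) = 0 := by
          funext a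
          exact congrFun (congrFun h0 a) j
        exact congrFun (hV' _ h3) i
      have h3 := cork_mean hSupp hq2 hn M hqN (V * B) hC
      calc (4 * ∑ s, cosAbs q (corkL M q (V * B) s) ^ 2) ^ K
          ≤ (4 * (Fintype.card S * Real.exp (-(4 / ((n : ℝ) * q) ^ 2)))) ^ K := by
            apply pow_le_pow_left₀ (mul_nonneg (by norm_num)
              (Finset.sum_nonneg fun _ _ => sq_nonneg _))
            exact mul_le_mul_of_nonneg_left h3 (by norm_num)
        _ = (4 * Fintype.card S : ℝ) ^ K * (Real.exp (-(4 / ((n : ℝ) * q) ^ 2))) ^ K := by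
            rw [← mul_pow]
            ring
        _ = (4 * Fintype.card S : ℝ) ^ K * E := by
            rw [← Real.exp_nat_mul, hE]
            congr 2
            ring
    have h3 : ∑ _B ∈ univ.erase (0 : Matrix (Fin k) (Fin n) (ZMod q)),
          ((4 * Fintype.card S : ℝ) ^ K * E)
        ≤ (q : ℝ) ^ (k * n) * ((4 * Fintype.card S : ℝ) ^ K * E) := by
      rw [Finset.sum_const, nsmul_eq_mul]
      apply mul_le_mul_of_nonneg_right _ (mul_nonneg (pow_nonneg hS0 _) (Real.exp_nonneg _))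
      have h4 : (univ.erase (0 : Matrix (Fin k) (Fin n) (ZMod q))).card
          ≤ Fintype.card (Matrix (Fin k) (Fin n) (ZMod q)) := by
        rw [← Finset.card_univ]
        exact Finset.card_le_card (Finset.erase_subset _ _)
      rw [cork_card, mul_comm n k] at h4
      exact_mod_cast h4
    calc _ ≤ (4 * Fintype.card S : ℝ) ^ K + (q : ℝ) ^ (k * n) *
          ((4 * Fintype.card S : ℝ) ^ K * E) := add_le_add h1 (h2.trans h3)
      _ = _ := by ring
  have hTc : (T.card : ℝ) ≤ (q : ℝ) ^ (k * n) := by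
    have h4 : T.card ≤ Fintype.card (Matrix (Fin n) (Fin k) (ZMod q)) := Finset.card_le_univ _
    rw [cork_card] at h4
    exact_mod_cast h4
  have hR0 : (0 : ℝ) ≤ (4 * Fintype.card S) ^ K * (1 + (q : ℝ) ^ (k * n) * E) :=
    mul_nonneg (pow_nonneg hS0 _) (add_nonneg zero_le_one
      (mul_nonneg (pow_nonneg hq0.le _) (Real.exp_nonneg _)))
  have hsum : ∑ σ, ((T.filter (CorkZ (A σ))).card : ℝ)
      ≤ (4 * Fintype.card S) ^ K * (1 + (q : ℝ) ^ (k * n) * E) := by
    have h1 : (q : ℝ) ^ (k * n) * ∑ σ, ((T.filter (CorkZ (A σ))).card : ℝ)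
        ≤ (q : ℝ) ^ (k * n) * ((4 * Fintype.card S) ^ K * (1 + (q : ℝ) ^ (k * n) * E)) := by
      rw [hid]
      calc _ ≤ ∑ _V ∈ T, ((4 * Fintype.card S : ℝ) ^ K * (1 + (q : ℝ) ^ (k * n) * E)) :=
            Finset.sum_le_sum hB
        _ = T.card * ((4 * Fintype.card S : ℝ) ^ K * (1 + (q : ℝ) ^ (k * n) * E)) := by
            rw [Finset.sum_const, nsmul_eq_mul]
        _ ≤ _ := mul_le_mul_of_nonneg_right hTc hR0
    exact le_of_mul_le_mul_left h1 (pow_pos hq0 _)
  -- the bad walks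
  set D : Set (Fin K → S × Bool × Bool) := {σ | (A σ).rank + k ≤ n} with hD
  have hDc : D.ncard = (univ.filter (fun σ => (A σ).rank + k ≤ n)).card := by
    rw [← Set.ncard_coe_finset]
    congr 1
    ext σ
    simp [hD]
  have hfin : (D.ncard : ℝ) * (q : ℝ) ^ (k ^ 2)
      ≤ 2 ^ k * ∑ σ, ((T.filter (CorkZ (A σ))).card : ℝ) := by
    rw [hDc, ← nsmul_eq_mul, ← Finset.sum_const, Finset.mul_sum]
    calc ∑ _σ ∈ univ.filter (fun σ => (A σ).rank + k ≤ n), (q : ℝ) ^ (k ^ 2)
        ≤ ∑ σ ∈ univ.filter (fun σ => (A σ).rank + k ≤ n),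
          2 ^ k * ((T.filter (CorkZ (A σ))).card : ℝ) := by
          apply Finset.sum_le_sum
          intro σ hσ
          have h1 := cork_tuples (A σ) (Finset.mem_filter.1 hσ).2
          rw [hcnt σ] at h1
          exact_mod_cast h1
      _ ≤ _ := by
          apply Finset.sum_le_sum_of_subset_of_nonneg (Finset.filter_subset _ _)
          intro σ _ _
          positivity
  calc (D.ncard : ℝ) * (q : ℝ) ^ (k ^ 2)
      ≤ 2 ^ k * ∑ σ, ((T.filter (CorkZ (A σ))).card : ℝ) := hfin
    _ ≤ 2 ^ k * ((4 * Fintype.card S) ^ K * (1 + (q : ℝ) ^ (k * n) * E)) :=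
        mul_le_mul_of_nonneg_left hsum (by positivity)
    _ = _ := by ring

end Pool.Agent.Lib.MP_640417_ag.Full
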