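import Pool.Agent.Lib.MP_640417_ag.Full.Main
import Pool.Agent.Lib.MP_640417_ag.ConjGal

/-!
# The theorem for CM fields
-/

namespace Pool.Agent.Lib.MP_640417_ag.Full

open NumberField Module Finset MulAction Pool.Agent.Lib.MP_640417_ag Pool.Agent.Lib.MP_640417_ag.Far

section fields

variable (E : Type) [Field E] [NumberField E] [IsCMField E]

/-- The number of subfields `K` of degree `k` which are not real. -/
noncomputable def numSub (k : ℕ) : ℕ :=
  {K : IntermediateField ℚ E | finrank ℚ K = k ∧ ∃ x ∈ K, IsCMField.complexConj E x ≠ x}.ncard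

/-- The number of subfields `K` of degree `k` which are Galois over `ℚ` and not real. -/
noncomputable def numGal (k : ℕ) : ℕ :=
  {K : IntermediateField ℚ E | IsGalois ℚ K ∧ finrank ℚ K = k ∧
    ∃ x ∈ K, IsCMField.complexConj E x ≠ x}.ncard

end fields

lemma ncard_or_le {α : Type*} (P Q R : α → Prop) (h : {a | P a ∧ Q a}.Finite)
    (h' : {a | P a ∧ R a}.Finite) :
    {a | P a ∧ (Q a ∨ R a)}.ncard ≤ {a | P a ∧ Q a}.ncard + {a | P a ∧ R a}.ncard := by
  have h1 : {a | P a ∧ (Q a ∨ R a)} = {a | P a ∧ Q a} ∪ {a | P a ∧ R a} := by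
    ext a
    simp only [Set.mem_setOf_eq, Set.mem_union]
    tauto
  rw [h1]
  exact Set.ncard_union_le _ _

/-- **The theorem for CM fields**, for sign functions on the embeddings. -/
theorem field_form (hMult : StMult) (hMod : StMod) (hBig : StBig) (hTwo : StTwo)
    (hSplit : StSplit) (hSum : StSum) (hIrr : StIrrEx) (hA : StSubA) (hB : StSubB)
    (hC : StSubC) (hCorr : StCorr) : ∃ C : ℝ, 0 < C ∧
    ∀ (E : Type) [Field E] [NumberField E] [IsCMField E] (g : ℕ) (_ : finrank ℚ E = 2 * g)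
      (_ : 2 ≤ g) (z : galGroup E) (_ : ∀ φ : Emb E, z • φ = conjEmb φ),
      ({e : Emb E → ℤ | IsSgn z e ∧ ∃ v : Emb E → ℤ, v ≠ 0 ∧ (∀ s, v (z • s) = - v s) ∧
        ∀ γ : galGroup E, ∑ s, v s * e (γ • s) = 0}.ncard : ℝ)
      ≤ C * ((numSub E 2 : ℝ) / Real.sqrt g + ((numSub E 4 : ℝ) + numSub E 6) / g
        + ((numGal E 8 : ℝ) + numGal E 12) * Real.log (g + 1) ^ 2 / g
        + Real.log g ^ (-(1 / 4) : ℝ)) * 2 ^ g := by
  obtain ⟨C, hC0, hmain⟩ := main_groups hMult hMod hBig hTwo hSplit hSum hIrr hA hB hC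
  refine ⟨C, hC0, ?_⟩
  intro E _ _ _ g hE hg2 z hzs
  classical
  have htr := isPretransitive_galGroup (E := E)
  have hfaith : FaithfulSMul (galGroup E) (Emb E) := by
    refine ⟨fun {a b} h => ?_⟩
    apply Subtype.ext
    apply Equiv.ext
    exact h
  have hz : ∀ γ : galGroup E, γ * z = z * γ := by
    intro γ
    apply hfaith.eq_of_smul_eq_smul
    intro φ
    obtain ⟨τ, hτ⟩ := exists_of_galGroup γ
    rw [mul_smul, mul_smul, hzs, hzs, hτ, hτ, galEmb_conjEmb]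
  have hne : Nonempty (Emb E) := by
    rw [← Fintype.card_pos_iff, card_emb]
    exact finrank_pos
  obtain ⟨φ₀⟩ := hne
  obtain ⟨hinj, hfix⟩ := hCorr E φ₀ z hzs
  have hfinK : Finite (IntermediateField ℚ E) :=
    (Field.exists_primitive_element_iff_finite_intermediateField ℚ E).mp
      ⟨inferInstance, Field.exists_primitive_element ℚ E⟩
  have hb := hmain (Emb E) (galGroup E) φ₀ z hz (fun φ => by rw [hzs, hzs, conjEmb_conjEmb])
    (fun φ => by rw [hzs]; exact conjEmb_ne φ) g (by rw [card_emb, hE]) hg2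
  refine hb.trans ?_
  have h1 : {H : Subgroup (galGroup E) | stabilizer (galGroup E) φ₀ ≤ H ∧ H.index = 2 ∧
      z ∉ H}.ncard ≤ numSub E 2 := by
    apply Set.ncard_le_ncard_of_injOn (fixAt φ₀) _ _ (Set.toFinite _)
    · rintro H ⟨hs, hi, hzH⟩
      obtain ⟨h1, -, h3⟩ := hfix H hs
      exact ⟨by rw [h1, hi], h3 hzH⟩
    · rintro H ⟨hs, -, -⟩ H' ⟨hs', -, -⟩ h
      exact hinj H H' hs hs' h
  have h2 : {H : Subgroup (galGroup E) | stabilizer (galGroup E) φ₀ ≤ H ∧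
      (H.index = 4 ∨ H.index = 6) ∧ z ∉ H}.ncard ≤ numSub E 4 + numSub E 6 := by
    refine le_trans ?_ (Set.ncard_union_le _ _)
    apply Set.ncard_le_ncard_of_injOn (fixAt φ₀) _ _ (Set.toFinite _)
    · rintro H ⟨hs, hi, hzH⟩
      obtain ⟨h1, -, h3⟩ := hfix H hs
      rcases hi with hi | hi
      · exact Or.inl ⟨by rw [h1, hi], h3 hzH⟩
      · exact Or.inr ⟨by rw [h1, hi], h3 hzH⟩
    · rintro H ⟨hs, -, -⟩ H' ⟨hs', -, -⟩ h
      exact hinj H H' hs hs' h
  have h3 : {H : Subgroup (galGroup E) | H.Normal ∧ stabilizer (galGroup E) φ₀ ≤ H ∧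
      (H.index = 8 ∨ H.index = 12) ∧ z ∉ H}.ncard ≤ numGal E 8 + numGal E 12 := by
    refine le_trans ?_ (Set.ncard_union_le _ _)
    apply Set.ncard_le_ncard_of_injOn (fixAt φ₀) _ _ (Set.toFinite _)
    · rintro H ⟨hn, hs, hi, hzH⟩
      obtain ⟨h1, h2, h3⟩ := hfix H hs
      rcases hi with hi | hi
      · exact Or.inl ⟨h2 hn, by rw [h1, hi], h3 hzH⟩
      · exact Or.inr ⟨h2 hn, by rw [h1, hi], h3 hzH⟩
    · rintro H ⟨-, hs, -, -⟩ H' ⟨-, hs', -, -⟩ h
      exact hinj H H' hs hs' h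
  have h2' : ({H : Subgroup (galGroup E) | stabilizer (galGroup E) φ₀ ≤ H ∧
      (H.index = 4 ∨ H.index = 6) ∧ z ∉ H}.ncard : ℝ) ≤ numSub E 4 + numSub E 6 := by
    exact_mod_cast h2
  have h3' : ({H : Subgroup (galGroup E) | H.Normal ∧ stabilizer (galGroup E) φ₀ ≤ H ∧
      (H.index = 8 ∨ H.index = 12) ∧ z ∉ H}.ncard : ℝ) ≤ numGal E 8 + numGal E 12 := by
    exact_mod_cast h3
  gcongr

end Pool.Agent.Lib.MP_640417_ag.Full
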