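import Pool.Agent.Lib.MP_640417_ag.Full.SpecA
import Pool.Agent.Lib.MP_640417_ag.Full.SpecB
import Pool.Agent.Lib.MP_640417_ag.Full.SpecC
import Pool.Agent.Lib.MP_640417_ag.Far.Main
import Pool.Agent.Lib.MP_640417_ag.Far.Indep

/-!
# The group theoretic form of the theorem
-/

namespace Pool.Agent.Lib.MP_640417_ag.Full

open Module Finset MulAction Pool.Agent.Lib.MP_640417_ag.Far

/-- Representatives of the irreducible odd spaces. -/
theorem exists_types (S G : Type) [Fintype S] [Group G] [Finite G] [MulAction G S]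
    [IsPretransitive G S] (s₀ : S) (z : G) :
    ∃ (n : ℕ) (U : Fin n → Submodule ℚ (S → ℚ)), (∀ i, IsIrr G (U i) ∧ IsOddSp z (U i)) ∧
      (∀ i j, i ≠ j → ¬ IsoF G (U i) (U j)) ∧
      ∀ U' : Submodule ℚ (S → ℚ), IsIrr G U' → IsOddSp z U' → ∃ i, IsoF G (U i) U' := by
  classical
  set M : ℕ := Nat.card (orbitRel.Quotient (stabilizer G s₀) S) with hM
  let P : ℕ → Prop := fun n => ∃ U : Fin n → Submodule ℚ (S → ℚ),
    (∀ i, IsIrr G (U i) ∧ IsOddSp z (U i)) ∧ ∀ i j, i ≠ j → ¬ IsoF G (U i) (U j)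
  have hsum : ∀ (n : ℕ) (U : Fin n → Submodule ℚ (S → ℚ)),
      (∀ i, IsIrr G (U i) ∧ IsOddSp z (U i)) → (∀ i j, i ≠ j → ¬ IsoF G (U i) (U j)) →
      ∑ i, finrank ℚ ↥(U i ⊓ invF ℚ (stabilizer G s₀)) ≤ M := by
    intro n U hU hiso
    exact (types_sum_le indep U (fun i => U i ⊓ invF ℚ (stabilizer G s₀))
      (invF ℚ (stabilizer G s₀)) (fun i => (hU i).1) hiso (fun i => inf_le_left)
      (fun i => inf_le_right)).trans (types_finrank_invF _)
  have hbound : ∀ n, P n → n ≤ M := by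
    rintro n ⟨U, hU, hiso⟩
    refine le_trans ?_ (hsum n U hU hiso)
    calc n = ∑ _i : Fin n, 1 := by simp
      _ ≤ _ := by
        refine Finset.sum_le_sum fun i _ => ?_
        rw [Nat.one_le_iff_ne_zero, Ne, Submodule.finrank_eq_zero]
        exact types_inf_ne_bot s₀ (U i) (hU i).1.1 (hU i).1.2.1
  have hP0 : P 0 := ⟨fun i => i.elim0, fun i => i.elim0, fun i => i.elim0⟩
  set n : ℕ := Nat.findGreatest P M with hn
  have hPn : P n := Nat.findGreatest_spec (P := P) (Nat.zero_le M) hP0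
  have hmax : ¬ P (n + 1) := by
    intro h
    have h2 := Nat.le_findGreatest (hbound _ h) h
    omega
  obtain ⟨U, hU, hiso⟩ := hPn
  refine ⟨n, U, hU, hiso, ?_⟩
  intro U' hirr hodd
  by_contra hno
  push Not at hno
  apply hmax
  refine ⟨Fin.snoc (α := fun _ => Submodule ℚ (S → ℚ)) U U', ?_, ?_⟩
  · intro i
    refine Fin.lastCases ?_ (fun a => ?_) i
    · rw [Fin.snoc_last]
      exact ⟨hirr, hodd⟩
    · rw [Fin.snoc_castSucc]
      exact hU a
  · intro i j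
    refine Fin.lastCases ?_ (fun a => ?_) i
    · refine Fin.lastCases ?_ (fun b => ?_) j
      · intro h; exact absurd rfl h
      · intro _ h
        rw [Fin.snoc_last, Fin.snoc_castSucc] at h
        exact hno b (IsoF.symm hirr.2.1 h)
    · refine Fin.lastCases ?_ (fun b => ?_) j
      · intro _ h
        rw [Fin.snoc_last, Fin.snoc_castSucc] at h
        exact hno a h
      · intro hab h
        rw [Fin.snoc_castSucc, Fin.snoc_castSucc] at h
        exact hiso a b (fun e => hab (by rw [e])) h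

/-- The constant can be chosen for all the bounds of a single type. -/
theorem main_types (hMult : StMult) (hMod : StMod) (hBig : StBig) (hTwo : StTwo)
    (hSplit : StSplit) (hSum : StSum) (hIrr : StIrrEx) : ∃ C : ℝ, 0 < C ∧
    ∀ (S G : Type) [Fintype S] [Group G] [Finite G] [MulAction G S] [IsPretransitive G S]
      (s₀ : S) (z : G) (_ : ∀ γ : G, γ * z = z * γ) (_ : ∀ s : S, z • z • s = s)
      (_ : ∀ s : S, z • s ≠ s) (g : ℕ) (_ : Fintype.card S = 2 * g) (_ : 2 ≤ g),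
      ∃ (n : ℕ) (U : Fin n → Submodule ℚ (S → ℚ)), (∀ i, IsIrr G (U i) ∧ IsOddSp z (U i)) ∧
      (∀ i j, i ≠ j → ¬ IsoF G (U i) (U j)) ∧
      ({e : S → ℤ | IsSgn z e ∧ ∃ v : S → ℤ, v ≠ 0 ∧ (∀ s, v (z • s) = - v s) ∧
        ∀ γ : G, ∑ s, v s * e (γ • s) = 0}.ncard : ℝ)
      ≤ C * (({i : Fin n | finrank ℚ (U i) = 1}.ncard : ℝ) / Real.sqrt g
        + ({i : Fin n | finrank ℚ (U i) = 2 ∧ finrank ℚ (endF G (U i)) =
            finrank ℚ ↥(U i ⊓ invF ℚ (stabilizer G s₀))}.ncard : ℝ) / g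
        + ({i : Fin n | finrank ℚ (U i) = 2 ∧ finrank ℚ (endF G (U i)) = 1 ∧
            finrank ℚ ↥(U i ⊓ invF ℚ (stabilizer G s₀)) = 2}.ncard : ℝ)
              * Real.log (g + 1) ^ 2 / g
        + Real.log g ^ (-(1 / 4) : ℝ)) * 2 ^ g := by
  obtain ⟨C₁, hC₁, hMod⟩ := hMod
  obtain ⟨C₂, hC₂, hBig⟩ := hBig
  obtain ⟨C₃, hC₃, hTwo⟩ := hTwo
  obtain ⟨C₄, hC₄, hSplit⟩ := hSplit
  obtain ⟨C, hC, hSum⟩ := hSum (C₁ + C₂ + C₃ + C₄) (by positivity)
  refine ⟨C, hC, ?_⟩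
  intro S G _ _ _ _ _ s₀ z hz hzz hzne g hcard hg2
  classical
  obtain ⟨X, hX⟩ := exists_transversal (fun s : S => z • s) hzz hzne
  have hXcard : X.card = g := by
    have h1 := two_mul_card_transversal (fun s : S => z • s) hzz X hX
    omega
  have hXpow : (2 : ℝ) ^ X.card = 2 ^ g := by rw [hXcard]
  have h2g : (0 : ℝ) < 2 ^ g := by positivity
  obtain ⟨n, U, hU, hiso, hUex⟩ := exists_types S G s₀ z
  refine ⟨n, U, hU, hiso, ?_⟩
  -- dimension data
  set D : Fin n → ℕ := fun i => finrank ℚ (U i) with hD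
  set h : Fin n → ℕ := fun i => finrank ℚ ↥(U i ⊓ invF ℚ (stabilizer G s₀)) with hh
  set e : Fin n → ℕ := fun i => finrank ℚ (endF G (U i)) with he
  set x : Fin n → ℝ := fun i => ((badSet z (U i)).ncard : ℝ) / 2 ^ g with hx
  obtain ⟨m, hm1, hme, hmD⟩ := hMult S G s₀ z hzz X hX n U hU hiso
  rw [hXcard] at hmD
  have hhD : ∀ i, h i ≤ D i := fun i => Submodule.finrank_mono inf_le_left
  have hh1 : ∀ i, 1 ≤ h i := by
    intro i
    have h1 := types_inf_ne_bot (G := G) s₀ (U i) (hU i).1.1 (hU i).1.2.1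
    rw [Nat.one_le_iff_ne_zero]
    intro h0
    exact h1 (Submodule.finrank_eq_zero.mp h0)
  have he1 : ∀ i, 1 ≤ e i := by
    intro i
    rw [Nat.one_le_iff_ne_zero]
    intro h0
    have h1 := hh1 i
    have h2 : h i = m i * e i := hme i
    rw [h0, mul_zero] at h2
    omega
  have hx0 : ∀ i, 0 ≤ x i := fun i => by positivity
  have hbadle : ∀ i, ((badSet z (U i)).ncard : ℝ) ≤ 2 ^ g := by
    intro i
    have h1 := ncard_isSgn_le z hzz X hX (fun e => ∃ U' : Submodule ℚ (S → ℚ), IsStab G U' ∧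
      IsoF G (U i) U' ∧ Perp e U')
    rw [hXcard] at h1
    have h2 : (((badSet z (U i)).ncard : ℕ) : ℝ) ≤ ((2 ^ g : ℕ) : ℝ) := by
      exact_mod_cast h1
    push_cast at h2
    exact h2
  have hx1 : ∀ i, x i ≤ 1 := by
    intro i
    rw [hx]
    exact (div_le_one h2g).mpr (hbadle i)
  -- from the cardinality to the share
  have hconv : ∀ (i : Fin n) (c B : ℝ), 0 ≤ c → c ≤ C₁ + C₂ + C₃ + C₄ → 0 ≤ B →
      ((badSet z (U i)).ncard : ℝ) ≤ c * B * 2 ^ X.card → x i ≤ (C₁ + C₂ + C₃ + C₄) * B := by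
    intro i c B hc hcC hB hb
    rw [hXpow] at hb
    have h1 : x i ≤ c * B := by
      rw [hx]
      exact (div_le_iff₀ h2g).mpr hb
    exact h1.trans (mul_le_mul_of_nonneg_right hcC hB)
  have hg0 : (0 : ℝ) ≤ (g : ℝ) := Nat.cast_nonneg g
  -- the bad set is covered
  have hcover : {e : S → ℤ | IsSgn z e ∧ ∃ v : S → ℤ, v ≠ 0 ∧ (∀ s, v (z • s) = - v s) ∧
        ∀ γ : G, ∑ s, v s * e (γ • s) = 0} ⊆ ⋃ i ∈ (Finset.univ : Finset (Fin n)), badSet z (U i) := by
    rintro e ⟨he, v, hv0, hvz, hv⟩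
    obtain ⟨U', hU'1, hU'2, hU'3⟩ := hIrr S G z hz e v hv0 hvz hv
    obtain ⟨i, hi⟩ := hUex U' hU'1 hU'2
    simp only [Finset.mem_univ, Set.iUnion_true, Set.mem_iUnion]
    exact ⟨i, he, U', hU'1.2.1, hi, hU'3⟩
  have hfin : ∀ i, (badSet z (U i)).Finite := fun i => finite_isSgn z _
  have hsum : ({e : S → ℤ | IsSgn z e ∧ ∃ v : S → ℤ, v ≠ 0 ∧ (∀ s, v (z • s) = - v s) ∧
        ∀ γ : G, ∑ s, v s * e (γ • s) = 0}.ncard : ℝ) ≤ (∑ i, x i) * 2 ^ g := by
    have h1 : {e : S → ℤ | IsSgn z e ∧ ∃ v : S → ℤ, v ≠ 0 ∧ (∀ s, v (z • s) = - v s) ∧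
        ∀ γ : G, ∑ s, v s * e (γ • s) = 0}.ncard ≤ ∑ i, (badSet z (U i)).ncard :=
      (Set.ncard_le_ncard hcover (Set.Finite.biUnion (Set.toFinite _) (fun i _ => hfin i))).trans
        (Finset.set_ncard_biUnion_le _ _)
    have h2 : ((∑ i, (badSet z (U i)).ncard : ℕ) : ℝ) = (∑ i, x i) * 2 ^ g := by
      push_cast
      rw [Finset.sum_mul]
      apply Finset.sum_congr rfl
      intro i _
      rw [hx]
      field_simp
    rw [← h2]
    exact_mod_cast h1
  refine hsum.trans (mul_le_mul_of_nonneg_right ?_ h2g.le)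
  -- a single type is fixed by the stabilizer if `h = D`
  have hinv : ∀ i, h i = D i → U i ≤ invF ℚ (stabilizer G s₀) := by
    intro i hi
    have h1 : U i ⊓ invF ℚ (stabilizer G s₀) = U i :=
      Submodule.eq_of_le_of_finrank_eq inf_le_left hi
    exact inf_eq_left.mp h1
  apply hSum g n D h e m x hg2 (fun i => ⟨he1 i, hm1 i, hme i, hhD i⟩) hmD
    (fun i => ⟨hx0 i, hx1 i⟩)
  · intro i hi
    have hmi : m i * D i ≤ X.card := by
      rw [hXcard]
      exact (Finset.single_le_sum (f := fun i => m i * D i) (fun j _ => Nat.zero_le _)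
        (Finset.mem_univ i)).trans hmD
    have h1 := hBig S G s₀ z hzz X hX (U i) (hU i).1 (hU i).2 (m i) (hme i) hmi
      (by rw [hXcard]; exact hi)
    rw [hXcard] at h1
    rw [← hXcard] at h1
    have h2 := hconv i C₂ ((X.card : ℝ) ^ (-(1 / 200) : ℝ)) hC₂.le (by linarith)
      (by positivity) h1
    rw [hXcard] at h2
    exact h2
  · intro i hi k hk hkh
    have h1 := hMod S G s₀ z hzz X hX (U i) (hU i).1 (hU i).2 (by rw [hXcard]; exact hi) k hk hkh
    have h2 := hconv i C₁ (Real.sqrt (finrank ℚ (U i) * Real.log (finrank ℚ (U i) + 1) / X.card) ^ k)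
      hC₁.le (by linarith) (by positivity) h1
    rw [hXcard] at h2
    exact h2
  · intro i hi3 hi
    have h1 := hTwo S G s₀ z hzz X hX (U i) (hU i).1 (hU i).2 hi3 (by
      change e i ≤ h i
      have h3 : h i = m i * e i := hme i
      rw [h3]
      exact Nat.le_mul_of_pos_left _ (hm1 i)) hi
    have h2 := hconv i C₃ _ hC₃.le (by linarith) (by positivity) h1
    rw [hXcard] at h2
    exact h2
  · intro i hi hie hih
    have h1 := (hSplit S G s₀ z hz hzz X hX (U i) (hU i).1 (hU i).2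
      (hinv i (by rw [hih, hi])) hie).1 hi
    have h2 := hconv i C₄ _ hC₄.le (by linarith) (by positivity) h1
    rw [hXcard] at h2
    exact h2
  · intro i hie hih hi3 hi
    have h1 := (hSplit S G s₀ z hz hzz X hX (U i) (hU i).1 (hU i).2
      (hinv i hih) hie).2.1 hi3 (by rw [hXcard]; exact hi)
    have h2 := hconv i C₄ _ hC₄.le (by linarith) (by positivity) h1
    rw [hXcard] at h2
    exact h2
  · intro i hie hih hi
    have h1 := (hSplit S G s₀ z hz hzz X hX (U i) (hU i).1 (hU i).2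
      (hinv i hih) hie).2.2 (by rw [hXcard]; exact hi)
    have h3 : C₄ * (X.card : ℝ) ^ (1 / 1000 - 1 : ℝ) * (finrank ℚ (U i) : ℝ) ^ (3 / 2 : ℝ)
        * 2 ^ X.card = C₄ * ((X.card : ℝ) ^ (1 / 1000 - 1 : ℝ) * (finrank ℚ (U i) : ℝ) ^ (3 / 2 : ℝ))
        * 2 ^ X.card := by ring
    rw [h3] at h1
    have h2 := hconv i C₄ _ hC₄.le (by linarith) (by positivity) h1
    rw [hXcard, ← mul_assoc] at h2
    exact h2

/-- **The group theoretic form**: the exceptional spaces are replaced by subgroups. -/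
theorem main_groups (hMult : StMult) (hMod : StMod) (hBig : StBig) (hTwo : StTwo)
    (hSplit : StSplit) (hSum : StSum) (hIrr : StIrrEx) (hA : StSubA) (hB : StSubB)
    (hC : StSubC) : ∃ C : ℝ, 0 < C ∧
    ∀ (S G : Type) [Fintype S] [Group G] [Finite G] [MulAction G S] [IsPretransitive G S]
      (s₀ : S) (z : G) (_ : ∀ γ : G, γ * z = z * γ) (_ : ∀ s : S, z • z • s = s)
      (_ : ∀ s : S, z • s ≠ s) (g : ℕ) (_ : Fintype.card S = 2 * g) (_ : 2 ≤ g),
      ({e : S → ℤ | IsSgn z e ∧ ∃ v : S → ℤ, v ≠ 0 ∧ (∀ s, v (z • s) = - v s) ∧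
        ∀ γ : G, ∑ s, v s * e (γ • s) = 0}.ncard : ℝ)
      ≤ C * (({H : Subgroup G | stabilizer G s₀ ≤ H ∧ H.index = 2 ∧ z ∉ H}.ncard : ℝ)
            / Real.sqrt g
        + ({H : Subgroup G | stabilizer G s₀ ≤ H ∧ (H.index = 4 ∨ H.index = 6) ∧
            z ∉ H}.ncard : ℝ) / g
        + ({H : Subgroup G | H.Normal ∧ stabilizer G s₀ ≤ H ∧ (H.index = 8 ∨ H.index = 12) ∧
            z ∉ H}.ncard : ℝ) * Real.log (g + 1) ^ 2 / g
        + Real.log g ^ (-(1 / 4) : ℝ)) * 2 ^ g := by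
  obtain ⟨C, hC0, hmain⟩ := main_types hMult hMod hBig hTwo hSplit hSum hIrr
  refine ⟨C, hC0, ?_⟩
  intro S G _ _ _ _ _ s₀ z hz hzz hzne g hcard hg2
  obtain ⟨n, U, hU, hiso, hb⟩ := hmain S G s₀ z hz hzz hzne g hcard hg2
  refine hb.trans ?_
  have h1 := hA S G s₀ z n U hU hiso
  have h2 := hB S G s₀ z hz hzz n U hU hiso
  have h3 := hC S G s₀ z hz hzz n U hU hiso
  gcongr

end Pool.Agent.Lib.MP_640417_ag.Full
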