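import Pool.Agent.Lib.MP_640417_ag.Full.SpecA
import Pool.Agent.Lib.MP_640417_ag.Far.Count

/-!
# Common eigenvectors of a reduction
-/

namespace Pool.Agent.Lib.MP_640417_ag.Full

open Module Finset MulAction Pool.Agent.Lib.MP_640417_ag.Far
open scoped commutatorElement

section

variable {S G : Type} [Group G] [MulAction G S]

/-- The elements of the group under which a function is invariant. -/
private def OneDimStab (G : Type) [Group G] [MulAction G S] {F : Type} (w : S → F) :
    Subgroup G where
  carrier := {γ | ∀ s, w (γ • s) = w s}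
  mul_mem' := by
    intro a b ha hb s
    rw [mul_smul, ha, hb]
  one_mem' := by
    intro s
    rw [one_smul]
  inv_mem' := by
    intro a ha s
    rw [← ha (a⁻¹ • s), smul_inv_smul]

/-- A common eigenvector is invariant under commutators. -/
private lemma OneDim_eig {F : Type} [Field F] (w : S → F)
    (hw : ∀ γ : G, ∃ c : F, ∀ s, w (γ • s) = c * w s) : w ∈ invF F (commutator G) := by
  have h1 : commutator G ≤ OneDimStab G w := by
    rw [commutator_def, Subgroup.commutator_le]
    intro a _ b _ s
    obtain ⟨ca, ha⟩ := hw a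
    obtain ⟨cb, hb⟩ := hw b
    have e1 : w (⁅a, b⁆ • s) = ca * (cb * w (a⁻¹ • b⁻¹ • s)) := by
      rw [commutatorElement_def, mul_smul, mul_smul, mul_smul, ha, hb]
    have e2 : w s = cb * (ca * w (a⁻¹ • b⁻¹ • s)) := by
      rw [← ha, ← hb, smul_inv_smul, smul_inv_smul]
    rw [e1, e2]
    ring
  intro b hb
  exact h1 hb

/-- The translations commute on functions invariant under commutators. -/
private lemma OneDim_comm {F : Type} [Field F] (f : S → F) (hf : f ∈ invF F (commutator G))
    (a b : G) (s : S) : f (a • b • s) = f (b • a • s) := by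
  have h1 : ⁅a, b⁆ ∈ commutator G := by
    rw [commutator_def]
    exact Subgroup.commutator_mem_commutator (Subgroup.mem_top a) (Subgroup.mem_top b)
  rw [← hf _ h1 (b • a • s), commutatorElement_def, ← mul_smul, ← mul_smul, ← mul_smul]
  congr 2
  group

/-- The functions invariant under commutators in a stable space form a stable space. -/
private lemma OneDim_stab {F : Type} [Field F] (U : Submodule F (S → F)) (hU : IsStab G U) :
    IsStab G (U ⊓ invF F (commutator G)) := by
  intro f hf γ
  refine ⟨hU f hf.1 γ, fun b hb s => ?_⟩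
  have h1 : γ * b * γ⁻¹ ∈ commutator G := (inferInstance : (commutator G).Normal).conj_mem b hb γ
  have h2 := hf.2 _ h1 (γ • s)
  rw [mul_smul, mul_smul, inv_smul_smul] at h2
  exact h2

/-- Translation on a stable space. -/
private def OneDimT {F : Type} [Field F] (U : Submodule F (S → F)) (hU : IsStab G U) (γ : G) :
    U →ₗ[F] U where
  toFun f := ⟨fun s => f.1 (γ • s), hU f.1 f.2 γ⟩
  map_add' _ _ := rfl
  map_smul' _ _ := rfl

private lemma OneDimT_apply {F : Type} [Field F] (U : Submodule F (S → F)) (hU : IsStab G U)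
    (γ : G) (f : U) (s : S) : (OneDimT U hU γ f).1 s = f.1 (γ • s) := rfl

private lemma OneDimT_mem {F : Type} [Field F] (U : Submodule F (S → F)) (hU : IsStab G U)
    (hc : U ≤ invF F (commutator G)) (γ : G) : OneDimT U hU γ ∈ endF G U := by
  intro f f' δ hff s
  rw [OneDimT_apply, OneDimT_apply, hff, OneDim_comm f.1 (hc f.2)]

/-- An irreducible space on which the translations commute is not larger than its algebra of
equivariant endomorphisms. -/
private lemma OneDim_le [Finite S] {F : Type} [Field F] (U : Submodule F (S → F)) (hU : IsIrr G U)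
    (hc : U ≤ invF F (commutator G)) : finrank F U ≤ finrank F (endF G U) := by
  obtain ⟨hU0, hUs, hUi⟩ := hU
  obtain ⟨f, hfU, hf0⟩ := U.ne_bot_iff.mp hU0
  let ev : endF G U →ₗ[F] U :=
    { toFun := fun θ => θ.1 ⟨f, hfU⟩
      map_add' := fun _ _ => rfl
      map_smul' := fun _ _ => rfl }
  let R : Submodule F (S → F) := (LinearMap.range ev).map U.subtype
  have hRU : R ≤ U := by
    rintro _ ⟨g, _, rfl⟩
    exact g.2
  have hRs : IsStab G R := by
    rintro _ ⟨_, ⟨θ, rfl⟩, rfl⟩ γ
    refine ⟨OneDimT U hUs γ (ev θ), ⟨⟨(OneDimT U hUs γ).comp θ.1,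
      comp_mem_endF G U _ _ (OneDimT_mem U hUs hc γ) θ.2⟩, rfl⟩, rfl⟩
  have hfR : f ∈ R := ⟨⟨f, hfU⟩, ⟨⟨LinearMap.id, one_mem_endF G U⟩, rfl⟩, rfl⟩
  rcases hUi R hRU hRs with h | h
  · rw [h, Submodule.mem_bot] at hfR
    exact absurd hfR hf0
  · calc finrank F U = finrank F R := by rw [h]
      _ ≤ finrank F (LinearMap.range ev) := Submodule.finrank_map_le _ _
      _ ≤ finrank F (endF G U) := LinearMap.finrank_range_le ev

end

/-- **Common eigenvectors of a reduction.** -/
theorem pOneDim : StOneDim := by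
  intro S G _ _ _ _ p _ U hU hpK w hw hw0 hc
  apply OneDim_le U hU
  have h1 : w ∈ red p (U ⊓ invF ℚ (commutator G)) :=
    inv_red_le p U (commutator G) hU.2.1 hpK ⟨hw, OneDim_eig w hc⟩
  have h2 : U ⊓ invF ℚ (commutator G) ≠ ⊥ := by
    intro h0
    rw [h0] at h1
    obtain ⟨v, hv, hwv⟩ := h1
    apply hw0
    funext s
    have h3 : (v s : ℚ) = 0 := congrFun ((Submodule.mem_bot ℚ).mp hv) s
    have h4 : v s = 0 := by exact_mod_cast h3
    rw [hwv, h4, Int.cast_zero]
    rfl
  rcases hU.2.2 _ inf_le_left (OneDim_stab U hU.2.1) with h | h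
  · exact absurd h h2
  · rw [← h]
    exact inf_le_right

end Pool.Agent.Lib.MP_640417_ag.Full
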