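import Pool.Agent.Lib.MP_640417_ag.Full.SpecB

/-!
# Hoeffding's inequality for sign functions
-/

set_option autoImplicit false

namespace Pool.Agent.Lib.MP_640417_ag.Full

open Module Finset MulAction Pool.Agent.Lib.MP_640417_ag.Far

/-- The exponential sum over the subsets. -/
lemma tail_exp_sum {S : Type} [DecidableEq S] (X : Finset S) (c : S → ℝ) (H : ℝ)
    (hcH : ∀ s, |c s| ≤ H) (t : ℝ) :
    ∑ Y ∈ X.powerset, Real.exp (t * (∑ x ∈ Y, c x - ∑ x ∈ X \ Y, c x))
      ≤ 2 ^ X.card * Real.exp (t ^ 2 * X.card * H ^ 2 / 2) := by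
  have h1 : ∑ Y ∈ X.powerset, Real.exp (t * (∑ x ∈ Y, c x - ∑ x ∈ X \ Y, c x))
      = ∏ x ∈ X, (Real.exp (t * c x) + Real.exp (-(t * c x))) := by
    rw [Finset.prod_add]
    apply Finset.sum_congr rfl
    intro Y _
    rw [← Real.exp_sum, ← Real.exp_sum, ← Real.exp_add]
    congr 1
    rw [Finset.sum_neg_distrib, ← Finset.mul_sum, ← Finset.mul_sum]
    ring
  rw [h1]
  have h2 : ∀ x ∈ X, Real.exp (t * c x) + Real.exp (-(t * c x))
      ≤ 2 * Real.exp (t ^ 2 * H ^ 2 / 2) := by
    intro x _
    have h3 := Real.cosh_le_exp_half_sq (t * c x)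
    rw [Real.cosh_eq] at h3
    have h4 : Real.exp ((t * c x) ^ 2 / 2) ≤ Real.exp (t ^ 2 * H ^ 2 / 2) := by
      apply Real.exp_le_exp.2
      have h5 : c x ^ 2 ≤ H ^ 2 := by
        rw [← sq_abs (c x)]
        exact pow_le_pow_left₀ (abs_nonneg _) (hcH x) 2
      rw [mul_pow]
      have h6 := mul_le_mul_of_nonneg_left h5 (sq_nonneg t)
      linarith
    linarith
  calc ∏ x ∈ X, (Real.exp (t * c x) + Real.exp (-(t * c x)))
      ≤ ∏ _x ∈ X, 2 * Real.exp (t ^ 2 * H ^ 2 / 2) := by
        apply Finset.prod_le_prod _ h2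
        intro x _
        positivity
    _ = 2 ^ X.card * Real.exp (t ^ 2 * X.card * H ^ 2 / 2) := by
        rw [Finset.prod_const, mul_pow, ← Real.exp_nat_mul]
        congr 2
        ring

/-- The number of subsets with a large sum. -/
lemma tail_count {S : Type} [DecidableEq S] (X : Finset S) (c : S → ℝ) (H : ℝ) (hH : 0 < H)
    (hcH : ∀ s, |c s| ≤ H) (T : ℝ) (hT : 0 ≤ T) (hX : X.Nonempty) :
    ((X.powerset.filter (fun Y => T < |∑ x ∈ Y, c x - ∑ x ∈ X \ Y, c x|)).card : ℝ)
      ≤ 2 * Real.exp (-(T ^ 2 / (2 * X.card * H ^ 2))) * 2 ^ X.card := by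
  set σ : Finset S → ℝ := fun Y => ∑ x ∈ Y, c x - ∑ x ∈ X \ Y, c x with hσ
  have hg : (0 : ℝ) < X.card := by exact_mod_cast Finset.card_pos.2 hX
  set t : ℝ := T / (X.card * H ^ 2) with ht
  have ht0 : 0 ≤ t := by positivity
  set A := X.powerset.filter (fun Y => T < |σ Y|) with hA
  have h1 : (A.card : ℝ) * Real.exp (t * T) ≤
      2 * (2 ^ X.card * Real.exp (t ^ 2 * X.card * H ^ 2 / 2)) := by
    calc (A.card : ℝ) * Real.exp (t * T) = ∑ Y ∈ A, Real.exp (t * T) := by
          rw [Finset.sum_const, nsmul_eq_mul]
      _ ≤ ∑ Y ∈ A, (Real.exp (t * σ Y) + Real.exp ((-t) * σ Y)) := by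
          apply Finset.sum_le_sum
          intro Y hY
          have h2 : T < |σ Y| := (Finset.mem_filter.1 hY).2
          have e1 := Real.exp_pos (t * σ Y)
          have e2 := Real.exp_pos ((-t) * σ Y)
          rcases lt_abs.1 h2 with h | h
          · have h3 : Real.exp (t * T) ≤ Real.exp (t * σ Y) :=
              Real.exp_le_exp.2 (mul_le_mul_of_nonneg_left h.le ht0)
            linarith
          · have h3 : Real.exp (t * T) ≤ Real.exp ((-t) * σ Y) := by
              apply Real.exp_le_exp.2
              have := mul_le_mul_of_nonneg_left h.le ht0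
              linarith
            linarith
      _ ≤ ∑ Y ∈ X.powerset, (Real.exp (t * σ Y) + Real.exp ((-t) * σ Y)) := by
          apply Finset.sum_le_sum_of_subset_of_nonneg (Finset.filter_subset _ _)
          intro Y _ _
          positivity
      _ ≤ 2 ^ X.card * Real.exp (t ^ 2 * X.card * H ^ 2 / 2)
          + 2 ^ X.card * Real.exp ((-t) ^ 2 * X.card * H ^ 2 / 2) := by
          rw [Finset.sum_add_distrib]
          exact add_le_add (tail_exp_sum X c H hcH t) (tail_exp_sum X c H hcH (-t))
      _ = 2 * (2 ^ X.card * Real.exp (t ^ 2 * X.card * H ^ 2 / 2)) := by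
          rw [neg_sq]
          ring
  have h2 : Real.exp (t * T) * Real.exp (-(T ^ 2 / (2 * X.card * H ^ 2)))
      = Real.exp (t ^ 2 * X.card * H ^ 2 / 2) := by
    rw [← Real.exp_add]
    congr 1
    rw [ht]
    field_simp
    ring
  rw [← h2] at h1
  have h3 := Real.exp_pos (t * T)
  have h4 : (A.card : ℝ) * Real.exp (t * T) ≤
      (2 * Real.exp (-(T ^ 2 / (2 * X.card * H ^ 2))) * 2 ^ X.card) * Real.exp (t * T) := by
    calc (A.card : ℝ) * Real.exp (t * T) ≤ _ := h1
      _ = _ := by ring
  exact le_of_mul_le_mul_right h4 h3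

theorem pTail : StTail := by
  intro S G _ _ _ z hzz X hX c hc H T hH hcH hT
  classical
  rcases X.eq_empty_or_nonempty with hXe | hXn
  · have hS : ∀ s : S, False := by
      intro s
      by_cases h : s ∈ X
      · rw [hXe] at h
        exact absurd h (Finset.notMem_empty s)
      · have h2 : z • s ∈ X := by
          by_contra h3
          exact h ((hX s).2 h3)
        rw [hXe] at h2
        exact absurd h2 (Finset.notMem_empty _)
    have h1 : {e : S → ℤ | IsSgn z e ∧ 2 * T < |∑ s, (e s : ℝ) * c s|} = ∅ := by
      rw [Set.eq_empty_iff_forall_notMem]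
      rintro e ⟨-, he⟩
      have h2 : ∑ s, (e s : ℝ) * c s = 0 := Finset.sum_eq_zero (fun s _ => (hS s).elim)
      rw [h2, abs_zero] at he
      linarith
    rw [h1, Set.ncard_empty, Nat.cast_zero]
    positivity
  · refine le_trans ?_ (tail_count X c H hH hcH T hT hXn)
    norm_cast
    rw [← Set.ncard_coe_finset]
    apply Set.ncard_le_ncard_of_injOn (fun e => X.filter (fun s => e s = 1)) _ _
      (Finset.finite_toSet _)
    · rintro e ⟨he, heT⟩
      rw [Finset.mem_coe, Finset.mem_filter]
      refine ⟨Finset.mem_powerset.2 (Finset.filter_subset _ _), ?_⟩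
      have h1 : ∑ s, (e s : ℝ) * c s = 2 * ∑ s ∈ X, (e s : ℝ) * c s := by
        have h2 : ∑ s ∈ Xᶜ, (e s : ℝ) * c s = ∑ s ∈ X, (e s : ℝ) * c s := by
          apply Finset.sum_nbij' (fun s => z • s) (fun s => z • s)
          · intro s hs
            rw [Finset.mem_compl] at hs
            by_contra h3
            exact hs ((hX s).2 h3)
          · intro s hs
            rw [Finset.mem_compl]
            exact (hX s).1 hs
          · intro s _
            exact hzz s
          · intro s _
            exact hzz s
          · intro s _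
            rw [he.2 s, hc s]
            push_cast
            ring
        rw [← Finset.sum_add_sum_compl X, h2]
        ring
      have h3 : ∑ s ∈ X, (e s : ℝ) * c s
          = ∑ x ∈ X.filter (fun s => e s = 1), c x - ∑ x ∈ X \ X.filter (fun s => e s = 1), c x := by
        rw [← Finset.sum_filter_add_sum_filter_not X (fun s => e s = 1), ← Finset.filter_not,
          sub_eq_add_neg, ← Finset.sum_neg_distrib]
        congr 1
        · apply Finset.sum_congr rfl
          intro s hs
          rw [(Finset.mem_filter.1 hs).2]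
          simp
        · apply Finset.sum_congr rfl
          intro s hs
          have h4 : e s = -1 := by
            rcases he.1 s with h | h
            · exact absurd h (Finset.mem_filter.1 hs).2
            · exact h
          rw [h4]
          simp
      rw [← h3]
      rw [h1, abs_mul] at heT
      have : |(2 : ℝ)| = 2 := abs_of_pos (by norm_num)
      rw [this] at heT
      linarith
    · rintro e ⟨he, -⟩ e' ⟨he', -⟩ hee
      have hee' : X.filter (fun s => e s = 1) = X.filter (fun s => e' s = 1) := hee
      have h1 : ∀ s ∈ X, e s = e' s := by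
        intro s hs
        have h2 : (e s = 1 ↔ e' s = 1) := by
          have h3 : s ∈ X.filter (fun s => e s = 1) ↔ s ∈ X.filter (fun s => e' s = 1) := by
            rw [hee']
          rw [Finset.mem_filter, Finset.mem_filter] at h3
          constructor
          · intro h
            exact (h3.1 ⟨hs, h⟩).2
          · intro h
            exact (h3.2 ⟨hs, h⟩).2
        rcases he.1 s with h | h
        · rw [h, h2.1 h]
        · rcases he'.1 s with h' | h'
          · rw [h2.2 h', h']
          · rw [h, h']
      funext s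
      by_cases hs : s ∈ X
      · exact h1 s hs
      · have h3 : z • s ∈ X := by
          by_contra h
          exact hs ((hX s).2 h)
        have h4 := h1 _ h3
        rw [he.2, he'.2] at h4
        linarith

end Pool.Agent.Lib.MP_640417_ag.Full
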